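import Mathlib

/-!
# Products over the quadratic residues at roots of unity: reduction modulo a prime
-/

set_option autoImplicit false

namespace Pool.Agent.V11306.SpMod

open Polynomial Finset

/-- An integer polynomial vanishing at `exp (2 π i / N)` vanishes at every primitive `N`-th root of
unity of `ZMod l`. -/
lemma reduce {N l : ℕ} [Fact l.Prime] (hN : 0 < N) {g : ZMod l} (hg : IsPrimitiveRoot g N)
    (f : ℤ[X]) (hf : aeval (Complex.exp (2 * Real.pi * Complex.I / N)) f = 0) :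
    f.eval₂ (Int.castRingHom (ZMod l)) g = 0 := by
  have hζ : IsPrimitiveRoot (Complex.exp (2 * Real.pi * Complex.I / N)) N :=
    Complex.isPrimitiveRoot_exp N hN.ne'
  have h1 : cyclotomic N ℤ ∣ f := by
    rw [cyclotomic_eq_minpoly hζ hN]
    exact minpoly.isIntegrallyClosed_dvd (hζ.isIntegral hN) hf
  obtain ⟨q, rfl⟩ := h1
  have h2 : (cyclotomic N (ZMod l)).eval g = 0 := by
    have : NeZero N := ⟨hN.ne'⟩
    have : NeZero ((N : ℕ) : ZMod l) := hg.neZero'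
    exact (isRoot_cyclotomic_iff.mpr hg)
  rw [eval₂_mul, eval₂_eq_eval_map, map_cyclotomic, h2, zero_mul]

/-- The product of the problem -/
noncomputable def S (p : ℕ) (x : ℂ) : ℂ :=
  ∏ k ∈ Icc 1 ((p - 1) / 2), (x - Complex.exp (2 * Real.pi * Complex.I * (k : ℂ) ^ 2 / p))

/-- computable product modulo `l` -/
def P (l g a b N : ℕ) (n : ℕ) : ℕ :=
  Nat.rec 1 (fun k acc => acc * (g ^ a % l + (l - g ^ (b * (k + 1) ^ 2 % N) % l)) % l) n

/-- the same for the conjugates -/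
def Q (l g a b c N : ℕ) (n : ℕ) : ℕ :=
  Nat.rec 1 (fun k acc => acc * (g ^ a % l + (l - g ^ ((c - b * (k + 1) ^ 2) % N) % l)) % l) n

lemma cast_sub_mod {l : ℕ} (hl : 0 < l) (x : ℕ) : ((l - x % l : ℕ) : ZMod l) = -(x : ZMod l) := by
  rw [Nat.cast_sub (Nat.mod_lt x hl).le]
  simp

lemma pow_mod {l N g : ℕ} (hg : ((g : ℕ) : ZMod l) ^ N = 1) (e : ℕ) :
    ((g : ℕ) : ZMod l) ^ (e % N) = (g : ZMod l) ^ e := by
  conv_rhs => rw [← Nat.mod_add_div e N, pow_add, pow_mul, hg, one_pow, mul_one]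

lemma P_cast {l N g : ℕ} (hl : 0 < l) (hg : ((g : ℕ) : ZMod l) ^ N = 1) (a b n : ℕ) :
    ((P l g a b N n : ℕ) : ZMod l) =
      ∏ k ∈ Icc 1 n, ((g : ZMod l) ^ a - (g : ZMod l) ^ (b * k ^ 2)) := by
  induction n with
  | zero => simp [P]
  | succ n ih =>
    have hP : P l g a b N (n + 1) =
      P l g a b N n * (g ^ a % l + (l - g ^ (b * (n + 1) ^ 2 % N) % l)) % l := rfl
    rw [hP, Finset.prod_Icc_succ_top (by omega), ← ih, ZMod.natCast_mod]
    push_cast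
    rw [cast_sub_mod hl]
    push_cast
    rw [pow_mod hg, ← sub_eq_add_neg]
    congr 2
    rw [ZMod.natCast_mod, Nat.cast_pow]

lemma Q_cast {l N g : ℕ} (hl : 0 < l) (hg : ((g : ℕ) : ZMod l) ^ N = 1) (a b c n : ℕ) :
    ((Q l g a b c N n : ℕ) : ZMod l) =
      ∏ k ∈ Icc 1 n, ((g : ZMod l) ^ a - (g : ZMod l) ^ (c - b * k ^ 2)) := by
  induction n with
  | zero => simp [Q]
  | succ n ih =>
    have hP : Q l g a b c N (n + 1) =
      Q l g a b c N n * (g ^ a % l + (l - g ^ ((c - b * (n + 1) ^ 2) % N) % l)) % l := rfl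
    rw [hP, Finset.prod_Icc_succ_top (by omega), ← ih, ZMod.natCast_mod]
    push_cast
    rw [cast_sub_mod hl]
    push_cast
    rw [pow_mod hg, ← sub_eq_add_neg]
    congr 2
    rw [ZMod.natCast_mod, Nat.cast_pow]

/-- The main criterion: `N = m p`, `x = ζ ^ e`. -/
lemma norm_ne {p m N l g e c r K L : ℕ} [Fact l.Prime] (hp : 0 < p) (hm : 0 < m) (hN : N = m * p)
    (he : e ≤ N) (hc : c = N * r) (hcm : m * ((p - 1) / 2) ^ 2 ≤ c)
    (hg : IsPrimitiveRoot ((g : ℕ) : ZMod l) N)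
    (hne : (((P l g e m N ((p - 1) / 2) * Q l g (N - e) m c N ((p - 1) / 2) : ℕ) : ZMod l) - (K : ZMod l)) ^ 2
      ≠ (L : ZMod l)) {x : ℂ} (hx : x = Complex.exp (2 * Real.pi * Complex.I / N) ^ e) :
    (‖S p x‖ ^ 2 - (K : ℝ)) ^ 2 ≠ (L : ℝ) := by
  intro h
  have hN0 : 0 < N := by rw [hN]; exact Nat.mul_pos hm hp
  set ζ := Complex.exp (2 * Real.pi * Complex.I / N) with hζ
  have hζN : ζ ^ N = 1 := (Complex.isPrimitiveRoot_exp N hN0.ne').pow_eq_one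
  have hζ0 : ζ ≠ 0 := Complex.exp_ne_zero _
  have hl : 0 < l := (Fact.out : l.Prime).pos
  have hNC : (N : ℂ) ≠ 0 := by exact_mod_cast hN0.ne'
  have hpC : (p : ℂ) ≠ 0 := by exact_mod_cast hp.ne'
  have hmC : (m : ℂ) ≠ 0 := by exact_mod_cast hm.ne'
  have hexp : ∀ k : ℕ, Complex.exp (2 * Real.pi * Complex.I * (k : ℂ) ^ 2 / p) = ζ ^ (m * k ^ 2) := by
    intro k
    rw [hζ, ← Complex.exp_nat_mul]
    congr 1
    rw [hN]
    push_cast
    field_simp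
  have hS : S p x = ∏ k ∈ Icc 1 ((p - 1) / 2), (ζ ^ e - ζ ^ (m * k ^ 2)) := by
    rw [S]
    refine Finset.prod_congr rfl fun k _ => ?_
    rw [hexp, hx]
  have hconjζ : (starRingEnd ℂ) ζ = ζ⁻¹ := by
    rw [hζ, ← Complex.exp_conj, ← Complex.exp_neg]
    congr 1
    simp only [map_div₀, map_mul, Complex.conj_ofReal, Complex.conj_I, map_natCast, map_ofNat]
    ring
  have hinv : ∀ a b : ℕ, ζ ^ (a + b) = 1 → (starRingEnd ℂ) (ζ ^ a) = ζ ^ b := by
    intro a b hab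
    rw [map_pow, hconjζ, inv_pow]
    have h0 : ζ ^ a ≠ 0 := pow_ne_zero _ hζ0
    field_simp
    rw [← hab, pow_add]
  have hSc : (starRingEnd ℂ) (S p x) =
      ∏ k ∈ Icc 1 ((p - 1) / 2), (ζ ^ (N - e) - ζ ^ (c - m * k ^ 2)) := by
    rw [hS, map_prod]
    refine Finset.prod_congr rfl fun k hk => ?_
    rw [Finset.mem_Icc] at hk
    rw [map_sub, hinv e (N - e) (by rw [Nat.add_sub_cancel' he]; exact hζN),
      hinv (m * k ^ 2) (c - m * k ^ 2)]
    rw [Nat.add_sub_cancel', hc, pow_mul, hζN, one_pow]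
    refine le_trans ?_ hcm
    exact Nat.mul_le_mul_left m (Nat.pow_le_pow_left hk.2 2)
  obtain ⟨f, hf⟩ : ∃ f : ℤ[X], f = ((∏ k ∈ Icc 1 ((p - 1) / 2), ((X : ℤ[X]) ^ e - X ^ (m * k ^ 2))) *
    (∏ k ∈ Icc 1 ((p - 1) / 2), ((X : ℤ[X]) ^ (N - e) - X ^ (c - m * k ^ 2))) - (K : ℤ[X])) ^ 2
    - (L : ℤ[X]) := ⟨_, rfl⟩
  have hf0 : aeval ζ f = 0 := by
    have h1 : (S p x) * (starRingEnd ℂ) (S p x) = ((‖S p x‖ ^ 2 : ℝ) : ℂ) := by
      rw [Complex.mul_conj, Complex.normSq_eq_norm_sq]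
    rw [hf]
    simp only [map_sub, map_pow, map_mul, map_prod, aeval_X, map_natCast]
    rw [← hS, ← hSc, h1]
    have : (((‖S p x‖ ^ 2 - (K : ℝ)) ^ 2 : ℝ) : ℂ) = ((L : ℝ) : ℂ) := by rw [h]
    push_cast at this ⊢
    rw [this, sub_self]
  have h2 := reduce hN0 hg f hf0
  rw [hf] at h2
  simp only [eval₂_sub, eval₂_pow, eval₂_mul, eval₂_finsetProd, eval₂_X, eval₂_natCast] at h2
  rw [← P_cast hl hg.pow_eq_one, ← Q_cast hl hg.pow_eq_one] at h2
  apply hne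
  push_cast at h2 ⊢
  exact sub_eq_zero.mp h2

end Pool.Agent.V11306.SpMod
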