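import Mathlib

/-!
The series `∑ (-1)^m q^(2m) (-q²;q²)_m / (1 - q^(2m+1))` as a positive definite partial theta double sum.
-/

set_option linter.all false

namespace Pool.Agent.V11306.To1

open Finset PowerSeries

noncomputable section

/-- `(q²;q²)_m` -/
def P (m : ℕ) : PowerSeries ℤ := ∏ i ∈ range m, (1 - X ^ (2 * (i + 1)))

def PI (m : ℕ) : PowerSeries ℤ := invOfUnit (P m) 1

def J (j : ℕ) : PowerSeries ℤ := invOfUnit (1 - X ^ (2 * j + 1)) 1

lemma P_zero : P 0 = 1 := by simp [P]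

lemma P_succ (m : ℕ) : P (m + 1) = P m * (1 - X ^ (2 * (m + 1))) := by
  rw [P, prod_range_succ, P]

lemma constP (m : ℕ) : constantCoeff (P m) = 1 := by
  induction m with
  | zero => simp [P]
  | succ m ih => rw [P_succ, map_mul, ih]; simp

lemma P_PI (m : ℕ) : P m * PI m = 1 := by
  rw [PI]
  apply mul_invOfUnit
  rw [constP]; simp

lemma J_mul (j : ℕ) : (1 - X ^ (2 * j + 1)) * J j = 1 := by
  rw [J]
  apply mul_invOfUnit
  simp

lemma PI_zero : PI 0 = 1 := by
  have := P_PI 0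
  rwa [P_zero, one_mul] at this

lemma PI_succ (m : ℕ) : (1 - X ^ (2 * (m + 1))) * PI (m + 1) = PI m := by
  have h1 := P_PI (m + 1)
  have h2 := P_PI m
  rw [P_succ] at h1
  calc (1 - X ^ (2 * (m + 1))) * PI (m + 1) = (P m * PI m) * ((1 - X ^ (2 * (m + 1))) * PI (m + 1)) := by
        rw [h2, one_mul]
    _ = PI m * (P m * (1 - X ^ (2 * (m + 1))) * PI (m + 1)) := by ring
    _ = PI m := by rw [h1, mul_one]

/-- Gaussian binomial in `q²` -/
def GB : ℕ → ℕ → PowerSeries ℤ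
  | _, 0 => 1
  | 0, _ + 1 => 0
  | n + 1, j + 1 => GB n (j + 1) + X ^ (2 * (n - j)) * GB n j

lemma GB_zero_right (n : ℕ) : GB n 0 = 1 := by cases n <;> rfl

lemma GB_lt : ∀ (n j : ℕ), n < j → GB n j = 0
  | 0, 0, h => absurd h (lt_irrefl _)
  | 0, j + 1, _ => rfl
  | n + 1, 0, h => by omega
  | n + 1, j + 1, h => by
      rw [GB, GB_lt n (j + 1) (by omega), GB_lt n j (by omega)]; simp

lemma GB_fact : ∀ (n j : ℕ), j ≤ n → GB n j * P j * P (n - j) = P n
  | n, 0, _ => by rw [GB_zero_right, P_zero]; simp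
  | 0, j + 1, h => by omega
  | n + 1, j + 1, h => by
      rcases Nat.lt_or_ge j n with hj | hj
      · have h1 := GB_fact n (j + 1) (by omega)
        have h2 := GB_fact n j (by omega)
        obtain ⟨d, rfl⟩ : ∃ d, n = j + 1 + d := ⟨n - (j + 1), by omega⟩
        have e1 : j + 1 + d - (j + 1) = d := by omega
        have e2 : j + 1 + d - j = d + 1 := by omega
        have e3 : j + 1 + d + 1 - (j + 1) = d + 1 := by omega
        rw [e1] at h1
        rw [e2] at h2
        rw [GB, e2, e3]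
        have hd := P_succ d
        have hj' := P_succ j
        have hn := P_succ (j + 1 + d)
        calc (GB (j + 1 + d) (j + 1) + X ^ (2 * (d + 1)) * GB (j + 1 + d) j) * P (j + 1) * P (d + 1)
            = (GB (j + 1 + d) (j + 1) * P (j + 1) * P d) * (1 - X ^ (2 * (d + 1)))
              + X ^ (2 * (d + 1)) * (GB (j + 1 + d) j * P j * P (d + 1)) * (1 - X ^ (2 * (j + 1))) := by
              rw [hd, hj']; ring
          _ = P (j + 1 + d) * (1 - X ^ (2 * (d + 1))) + X ^ (2 * (d + 1)) * P (j + 1 + d) * (1 - X ^ (2 * (j + 1))) := by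
              rw [h1, h2]
          _ = P (j + 1 + d + 1) := by
              rw [hn]; ring
      · obtain rfl : j = n := by omega
        have h2 := GB_fact j j le_rfl
        rw [GB, GB_lt j (j + 1) (by omega)]
        rw [Nat.sub_self] at h2 ⊢
        rw [Nat.sub_self] 
        rw [P_zero] at h2 ⊢
        rw [P_succ]
        calc (0 + X ^ (2 * 0) * GB j j) * (P j * (1 - X ^ (2 * (j + 1)))) * 1
            = (GB j j * P j * 1) * (1 - X ^ (2 * (j + 1))) := by ring
          _ = _ := by rw [h2]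

def D (x : PowerSeries ℤ) (j : ℕ) : PowerSeries ℤ := ∏ i ∈ range j, (1 - x * X ^ (2 * i))

lemma D_succ (x : PowerSeries ℤ) (j : ℕ) : D x (j + 1) = D x j * (1 - x * X ^ (2 * j)) := by
  rw [D, prod_range_succ, D]

lemma ch (m : ℕ) : (m + 1).choose 2 = m.choose 2 + m := by
  rw [Nat.choose_succ_succ' m 1, Nat.choose_one_right]; ring

lemma Lsum (x : PowerSeries ℤ) (n : ℕ) :
    ∑ j ∈ range (n + 1), (-1) ^ j * X ^ (2 * (n - j).choose 2) * GB n j * D x j
      = x ^ n * X ^ (2 * n.choose 2) := by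
  induction n with
  | zero => simp [GB_zero_right, D]
  | succ n ih =>
    rw [sum_range_succ']
    have h1 : ∀ j ∈ range (n + 1), (-1 : PowerSeries ℤ) ^ (j + 1) * X ^ (2 * (n + 1 - (j + 1)).choose 2) *
        GB (n + 1) (j + 1) * D x (j + 1)
        = (-1) ^ (j + 1) * X ^ (2 * (n + 1 - (j + 1)).choose 2) * GB n (j + 1) * D x (j + 1)
          + (-((-1) ^ j * X ^ (2 * (n - j).choose 2 + 2 * (n - j)) * GB n j * D x j * (1 - x * X ^ (2 * j)))) := by
      intro j hj
      have e : n + 1 - (j + 1) = n - j := by omega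
      rw [e, GB, D_succ, pow_add X (2 * (n - j).choose 2)]
      ring
    rw [sum_congr rfl h1, sum_add_distrib]
    have h2 : ∑ j ∈ range (n + 1), (-1 : PowerSeries ℤ) ^ (j + 1) * X ^ (2 * (n + 1 - (j + 1)).choose 2) * GB n (j + 1) * D x (j + 1)
        + (-1) ^ 0 * X ^ (2 * (n + 1 - 0).choose 2) * GB (n + 1) 0 * D x 0
        = ∑ j ∈ range (n + 1), (-1 : PowerSeries ℤ) ^ j * X ^ (2 * (n + 1 - j).choose 2) * GB n j * D x j := by
      have h3 := sum_range_succ' (fun j => (-1 : PowerSeries ℤ) ^ j * X ^ (2 * (n + 1 - j).choose 2) * GB n j * D x j) (n + 1)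
      rw [sum_range_succ] at h3
      rw [GB_lt n (n + 1) (by omega)] at h3
      simp only [mul_zero, zero_mul, add_zero] at h3
      rw [h3, GB_zero_right, GB_zero_right]
    have h4 : ∑ j ∈ range (n + 1), (-1 : PowerSeries ℤ) ^ j * X ^ (2 * (n + 1 - j).choose 2) * GB n j * D x j
        = ∑ j ∈ range (n + 1), (-1 : PowerSeries ℤ) ^ j * X ^ (2 * (n - j).choose 2 + 2 * (n - j)) * GB n j * D x j := by
      apply sum_congr rfl
      intro j hj
      have hj' : j ≤ n := by have := mem_range.mp hj; omega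
      have e : n + 1 - j = (n - j) + 1 := by omega
      rw [e, ch, mul_add]
    have h5 : ∑ j ∈ range (n + 1), ((-1 : PowerSeries ℤ) ^ j * X ^ (2 * (n - j).choose 2 + 2 * (n - j)) * GB n j * D x j
          + -((-1) ^ j * X ^ (2 * (n - j).choose 2 + 2 * (n - j)) * GB n j * D x j * (1 - x * X ^ (2 * j))))
        = x * X ^ (2 * n) * ∑ j ∈ range (n + 1), (-1) ^ j * X ^ (2 * (n - j).choose 2) * GB n j * D x j := by
      rw [mul_sum]
      apply sum_congr rfl
      intro j hj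
      have hj' : j ≤ n := by have := mem_range.mp hj; omega
      have e : (X : PowerSeries ℤ) ^ (2 * n) = X ^ (2 * (n - j)) * X ^ (2 * j) := by
        rw [← pow_add]; congr 1; omega
      rw [e, pow_add]
      ring
    rw [sum_add_distrib] at h5
    rw [show ∀ a b c : PowerSeries ℤ, a + b + c = (a + c) + b from fun a b c => by ring, h2, h4, h5, ih, ch]
    ring

lemma P_add (n j : ℕ) : P (n + j) = P n * D (X ^ (2 * (n + 1))) j := by
  rw [P, prod_range_add, P, D]
  congr 1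
  apply prod_congr rfl
  intro i _
  rw [← pow_add]
  congr 2
  ring

/-- the sum `Z_n` -/
lemma Zsum (n : ℕ) :
    ∑ j ∈ range (n + 1), (-1) ^ j * X ^ (2 * (n - j).choose 2) * (P (n + j) * PI (n - j) * PI j)
      = (X : PowerSeries ℤ) ^ (3 * n ^ 2 + n) := by
  have h := Lsum (X ^ (2 * (n + 1))) n
  have e : (X : PowerSeries ℤ) ^ (3 * n ^ 2 + n) = (X ^ (2 * (n + 1))) ^ n * X ^ (2 * n.choose 2) := by
    rw [← pow_mul, ← pow_add]
    congr 1
    have : 2 * n.choose 2 = n * (n - 1) := by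
      rw [Nat.choose_two_right]
      exact Nat.mul_div_cancel' (Nat.even_mul_pred_self n).two_dvd
    rw [this]
    rcases n with _ | n
    · simp
    · simp only [Nat.add_sub_cancel]; ring
  rw [e, ← h]
  apply sum_congr rfl
  intro j hj
  have hj' : j ≤ n := by have := mem_range.mp hj; omega
  have h1 := GB_fact n j hj'
  have h2 := P_PI j
  have h3 := P_PI (n - j)
  rw [P_add, ← h1]
  calc (-1 : PowerSeries ℤ) ^ j * X ^ (2 * (n - j).choose 2) * (GB n j * P j * P (n - j) * D (X ^ (2 * (n + 1))) j * PI (n - j) * PI j)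
      = (-1) ^ j * X ^ (2 * (n - j).choose 2) * (GB n j * (P j * PI j) * (P (n - j) * PI (n - j)) * D (X ^ (2 * (n + 1))) j) := by ring
    _ = _ := by rw [h2, h3]; ring

/-- `f j r` is the summand with `n = j + r`. -/
def f (j r : ℕ) : PowerSeries ℤ := (-1) ^ j * X ^ (2 * r.choose 2) * (P (2 * j + 1 + r) * PI r * PI j * J j)

def γ (n : ℕ) : PowerSeries ℤ := ∑ j ∈ range (n + 1), f j (n - j)

lemma f_step (j r : ℕ) : f j (r + 1) = X ^ (2 * (j + r) + 1) * f j r
    + (1 + X ^ (2 * (j + r) + 3)) * ((-1) ^ j * X ^ (2 * (r + 1).choose 2) * (P (2 * j + 1 + r) * PI (r + 1) * PI j)) := by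
  have hJ := J_mul j
  have hr := PI_succ r
  have hP := P_succ (2 * j + 1 + r)
  rw [f, f, ← hr, show 2 * j + 1 + (r + 1) = 2 * j + 1 + r + 1 by ring, hP, ch]
  have key : (X : PowerSeries ℤ) ^ (2 * r) * (1 - X ^ (2 * (2 * j + 1 + r + 1)))
      = X ^ (2 * (j + r) + 1) * (1 - X ^ (2 * (r + 1)))
        + (1 + X ^ (2 * (j + r) + 3)) * X ^ (2 * r) * (1 - X ^ (2 * j + 1)) := by ring
  have : (1 + X ^ (2 * (j + r) + 3)) * ((-1) ^ j * X ^ (2 * (r.choose 2 + r)) * (P (2 * j + 1 + r) * PI (r + 1) * PI j))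
      = (1 + X ^ (2 * (j + r) + 3)) * ((-1) ^ j * X ^ (2 * (r.choose 2 + r)) * (P (2 * j + 1 + r) * PI (r + 1) * PI j))
        * ((1 - X ^ (2 * j + 1)) * J j) := by rw [hJ, mul_one]
  rw [this]
  have e2 : (X : PowerSeries ℤ) ^ (2 * (r.choose 2 + r)) = X ^ (2 * r.choose 2) * X ^ (2 * r) := by
    rw [← pow_add]; congr 1; ring
  rw [e2]
  calc (-1 : PowerSeries ℤ) ^ j * (X ^ (2 * r.choose 2) * X ^ (2 * r)) *
      (P (2 * j + 1 + r) * (1 - X ^ (2 * (2 * j + 1 + r + 1))) * PI (r + 1) * PI j * J j)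
      = (-1) ^ j * X ^ (2 * r.choose 2) * (P (2 * j + 1 + r) * PI (r + 1) * PI j * J j) *
        (X ^ (2 * r) * (1 - X ^ (2 * (2 * j + 1 + r + 1)))) := by ring
    _ = _ := by rw [key]; ring

lemma γ_succ (n : ℕ) : γ (n + 1) = X ^ (2 * n + 1) * γ n + (1 + X ^ (2 * n + 3)) * X ^ (3 * (n + 1) ^ 2 + (n + 1)) := by
  rw [← Zsum (n + 1)]
  conv_rhs => rw [sum_range_succ, mul_add, mul_sum, ← add_assoc, γ, mul_sum, ← sum_add_distrib]
  conv_lhs => rw [γ, sum_range_succ]
  congr 1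
  · apply sum_congr rfl
    intro j hj
    have hj' : j ≤ n := by have := mem_range.mp hj; omega
    obtain ⟨r, rfl⟩ : ∃ r, n = j + r := ⟨n - j, by omega⟩
    have e1 : j + r + 1 - j = r + 1 := by omega
    have e2 : j + r - j = r := by omega
    rw [e1, e2, f_step]
    rw [show j + r + 1 + j = 2 * j + 1 + r by ring]
  · rw [Nat.sub_self, f]
    have hJ := J_mul (n + 1)
    rw [PI_zero]
    have e1 : 2 * (n + 1) + 1 + 0 = (n + 1 + (n + 1)) + 1 := by ring
    rw [e1, P_succ]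
    have key : (1 : PowerSeries ℤ) - X ^ (2 * (n + 1 + (n + 1) + 1)) = (1 - X ^ (2 * (n + 1) + 1)) * (1 + X ^ (2 * n + 3)) := by ring
    rw [key]
    calc (-1 : PowerSeries ℤ) ^ (n + 1) * X ^ (2 * Nat.choose 0 2) *
        (P (n + 1 + (n + 1)) * ((1 - X ^ (2 * (n + 1) + 1)) * (1 + X ^ (2 * n + 3))) * 1 * PI (n + 1) * J (n + 1))
        = (-1) ^ (n + 1) * X ^ (2 * Nat.choose 0 2) *
        (P (n + 1 + (n + 1)) * (1 + X ^ (2 * n + 3)) * 1 * PI (n + 1)) * ((1 - X ^ (2 * (n + 1) + 1)) * J (n + 1)) := by ring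
      _ = _ := by rw [hJ]; ring

lemma γ_eq (n : ℕ) : γ n = X ^ (n ^ 2) * ∑ u ∈ range (2 * n + 2), X ^ (u * (u + 1) / 2) := by
  induction n with
  | zero =>
    rw [γ]
    simp only [zero_add, sum_range_one, Nat.sub_self]
    rw [f, PI_zero]
    have hJ := J_mul 0
    simp only [mul_zero, zero_add, pow_one, pow_zero, one_mul, mul_one, Nat.choose, add_zero] at hJ ⊢
    rw [show P 1 = (1 - X) * (1 + X) by rw [P]; simp; ring]
    rw [show (1 - X) * (1 + X) * J 0 = (1 + X) * ((1 - X) * J 0) by ring, hJ]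
    simp [sum_range_succ]
  | succ n ih =>
    rw [γ_succ, ih]
    have e : 2 * (n + 1) + 2 = (2 * n + 2) + 1 + 1 := by ring
    rw [e]
    conv_rhs => rw [sum_range_succ, sum_range_succ]
    have e1 : (2 * n + 2) * (2 * n + 2 + 1) / 2 = (n + 1) * (2 * n + 3) := by
      rw [show (2 * n + 2) * (2 * n + 2 + 1) = 2 * ((n + 1) * (2 * n + 3)) by ring]
      exact Nat.mul_div_cancel_left _ (by norm_num)
    have e2 : (2 * n + 2 + 1) * (2 * n + 2 + 1 + 1) / 2 = (n + 1) * (2 * n + 3) + (2 * n + 3) := by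
      rw [show (2 * n + 2 + 1) * (2 * n + 2 + 1 + 1) = 2 * ((n + 1) * (2 * n + 3) + (2 * n + 3)) by ring]
      exact Nat.mul_div_cancel_left _ (by norm_num)
    rw [e1, e2]
    have e3 : (X : PowerSeries ℤ) ^ (3 * (n + 1) ^ 2 + (n + 1)) = X ^ ((n + 1) ^ 2) * X ^ ((n + 1) * (2 * n + 3)) := by
      rw [← pow_add]; congr 1; ring
    have e4 : (X : PowerSeries ℤ) ^ ((n + 1) ^ 2) = X ^ (2 * n + 1) * X ^ (n ^ 2) := by
      rw [← pow_add]; congr 1; ring
    rw [e3, pow_add X ((n + 1) * (2 * n + 3))]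
    rw [e4]
    ring

/-- the telescoped identity for the inner sum -/
lemma V (j : ℕ) : ∀ R : ℕ, ∃ e : PowerSeries ℤ,
    ∑ r ∈ range R, X ^ (2 * (r + 1).choose 2) * (P (2 * j + 1 + r) * PI r)
      = (∏ i ∈ range j, (1 - X ^ (4 * (i + 1)))) + X ^ R * e := by
  induction j with
  | zero =>
    intro R
    refine ⟨-X ^ (2 * (R + 1).choose 2 - R), ?_⟩
    have h : ∀ R : ℕ, ∑ r ∈ range R, X ^ (2 * (r + 1).choose 2) * (P (2 * 0 + 1 + r) * PI r)
        = 1 - (X : PowerSeries ℤ) ^ (2 * (R + 1).choose 2) := by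
      intro R
      induction R with
      | zero => simp
      | succ R ih =>
        rw [sum_range_succ, ih]
        have h1 := P_succ R
        have h2 := P_PI R
        rw [show 2 * 0 + 1 + R = R + 1 by ring, h1, ch (R + 1)]
        rw [show P R * (1 - X ^ (2 * (R + 1))) * PI R = (P R * PI R) * (1 - X ^ (2 * (R + 1))) by ring, h2]
        rw [mul_add 2, pow_add]
        ring
    rw [h R]
    have hle : R ≤ 2 * (R + 1).choose 2 := by
      rw [ch]; omega
    rw [mul_neg, ← pow_add, Nat.add_sub_cancel' hle]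
    simp
    ring
  | succ j ih =>
    intro R
    obtain ⟨e, he⟩ := ih R
    -- certificate
    have h : ∀ R : ℕ, ∑ r ∈ range R, X ^ (2 * (r + 1).choose 2) * (P (2 * (j + 1) + 1 + r) * PI r)
        = (1 - X ^ (4 * (j + 1))) * ∑ r ∈ range R, X ^ (2 * (r + 1).choose 2) * (P (2 * j + 1 + r) * PI r)
          + (-(X : PowerSeries ℤ) ^ (4 * (j + 1)) * X ^ (2 * (R + 1).choose 2) * P (2 * j + 1 + R) * (1 - X ^ (2 * R)) * PI R) := by
      intro R
      induction R with
      | zero => simp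
      | succ R ih2 =>
        rw [sum_range_succ, sum_range_succ, ih2]
        have h1 : P (2 * (j + 1) + 1 + R) = P (2 * j + 1 + R) * (1 - X ^ (2 * (2 * j + 1 + R + 1))) * (1 - X ^ (2 * (2 * j + 1 + R + 2))) := by
          rw [show 2 * (j + 1) + 1 + R = (2 * j + 1 + R + 1) + 1 by ring, P_succ, P_succ]
        have h2 : P (2 * j + 1 + (R + 1)) = P (2 * j + 1 + R) * (1 - X ^ (2 * (2 * j + 1 + R + 1))) := by
          rw [show 2 * j + 1 + (R + 1) = (2 * j + 1 + R) + 1 by ring, P_succ]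
        have h3 := PI_succ R
        rw [h1, h2, ch (R + 1), mul_add 2 ((R + 1).choose 2) (R + 1), pow_add X (2 * (R + 1).choose 2)]
        have h4 : -(X : PowerSeries ℤ) ^ (4 * (j + 1)) * (X ^ (2 * (R + 1).choose 2) * X ^ (2 * (R + 1))) *
            (P (2 * j + 1 + R) * (1 - X ^ (2 * (2 * j + 1 + R + 1)))) * (1 - X ^ (2 * (R + 1))) * PI (R + 1)
            = -(X : PowerSeries ℤ) ^ (4 * (j + 1)) * (X ^ (2 * (R + 1).choose 2) * X ^ (2 * (R + 1))) *
            (P (2 * j + 1 + R) * (1 - X ^ (2 * (2 * j + 1 + R + 1)))) * PI R := by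
          rw [← h3]; ring
        rw [h4]
        ring
    refine ⟨(1 - X ^ (4 * (j + 1))) * e + (-(X : PowerSeries ℤ) ^ (4 * (j + 1)) * X ^ (2 * (R + 1).choose 2 - R) * P (2 * j + 1 + R) * (1 - X ^ (2 * R)) * PI R), ?_⟩
    rw [h R, he, prod_range_succ]
    have hle : R ≤ 2 * (R + 1).choose 2 := by
      rw [ch]; omega
    have e5 : (X : PowerSeries ℤ) ^ (2 * (R + 1).choose 2) = X ^ R * X ^ (2 * (R + 1).choose 2 - R) := by
      rw [← pow_add, Nat.add_sub_cancel' hle]
    rw [e5]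
    ring

/-- `(-q²;q²)_m` -/
def Nn (m : ℕ) : PowerSeries ℤ := ∏ i ∈ range m, (1 + X ^ (2 * (i + 1)))

lemma P_Nn (m : ℕ) : ∏ i ∈ range m, (1 - (X : PowerSeries ℤ) ^ (4 * (i + 1))) = P m * Nn m := by
  rw [P, Nn, ← prod_mul_distrib]
  apply prod_congr rfl
  intro i _
  ring

/-- main congruence modulo `X ^ M` -/
theorem main (M : ℕ) : ∃ e : PowerSeries ℤ,
    ∑ n ∈ range M, X ^ (2 * n) * (X ^ (n ^ 2) * ∑ u ∈ range (2 * n + 2), X ^ (u * (u + 1) / 2))
      = (∑ j ∈ range M, (-1) ^ j * X ^ (2 * j) * Nn j * J j) + X ^ M * e := by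
  have h1 : ∑ n ∈ range M, X ^ (2 * n) * (X ^ (n ^ 2) * ∑ u ∈ range (2 * n + 2), (X : PowerSeries ℤ) ^ (u * (u + 1) / 2))
      = ∑ n ∈ range M, ∑ j ∈ range (n + 1), X ^ (2 * (j + (n - j))) * f j (n - j) := by
    apply sum_congr rfl
    intro n _
    rw [← γ_eq, γ, mul_sum]
    apply sum_congr rfl
    intro j hj
    have hj' : j ≤ n := by have := mem_range.mp hj; omega
    rw [Nat.add_sub_cancel' hj']
  rw [h1, sum_range_diag_flip M (fun j r => X ^ (2 * (j + r)) * f j r)]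
  choose e he using V
  refine ⟨∑ j ∈ range M, (-1) ^ j * X ^ j * PI j * J j * e j (M - j), ?_⟩
  rw [mul_sum, ← sum_add_distrib]
  apply sum_congr rfl
  intro j hj
  have hj' : j < M := mem_range.mp hj
  have h2 : ∑ r ∈ range (M - j), X ^ (2 * (j + r)) * f j r
      = ((-1) ^ j * X ^ (2 * j) * PI j * J j) * ∑ r ∈ range (M - j), X ^ (2 * (r + 1).choose 2) * (P (2 * j + 1 + r) * PI r) := by
    rw [mul_sum]
    apply sum_congr rfl
    intro r _
    rw [f, ch]
    ring
  rw [h2, he j (M - j), P_Nn]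
  have h3 := P_PI j
  have e6 : (X : PowerSeries ℤ) ^ M = X ^ (M - j) * X ^ j := by
    rw [← pow_add]; congr 1; omega
  rw [e6]
  calc (-1 : PowerSeries ℤ) ^ j * X ^ (2 * j) * PI j * J j * (P j * Nn j + X ^ (M - j) * e j (M - j))
      = (-1) ^ j * X ^ (2 * j) * Nn j * J j * (P j * PI j) + (-1) ^ j * X ^ (2 * j) * PI j * J j * (X ^ (M - j) * e j (M - j)) := by ring
    _ = _ := by rw [h3]; ring

end

end Pool.Agent.V11306.To1
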