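import Mathlib
import Pool.Agent.Helper184.Chapman

/-!
# The Toeplitz system of the quadratic character
-/

set_option autoImplicit false

namespace Pool.Agent.V11306.Toep

open Finset Polynomial

open Pool.Agent.Helper184.Chapman (chi chi_apply chi_sq chi_quad prod_psi inversion sum_zmod_range)

variable {p : ℕ} [Fact p.Prime] {K : Type*} [Field K]

lemma two_ne (hp2 : p ≠ 2) : (2 : ZMod p) ≠ 0 := by
  intro h
  have : ((2 : ℕ) : ZMod p) = 0 := by exact_mod_cast h
  rw [ZMod.natCast_eq_zero_iff] at this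
  exact hp2 ((Nat.prime_dvd_prime_iff_eq (Fact.out : p.Prime) Nat.prime_two).mp this)

/-- the value at `-1` -/
noncomputable def ep (p : ℕ) [Fact p.Prime] (K : Type*) [Field K] : K := chi p K (-1)

lemma ep_sq : ep p K * ep p K = 1 := chi_sq (neg_ne_zero.mpr one_ne_zero)

lemma chi_neg' (k : ZMod p) : chi p K (-k) = ep p K * chi p K k := by
  rw [ep, ← map_mul]; simp

lemma chi_ne_one' (hp2 : p ≠ 2) (h2 : (2 : K) ≠ 0) : chi p K ≠ 1 := by
  intro h
  obtain ⟨a, ha⟩ := quadraticChar_exists_neg_one' (F := ZMod p)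
    (by rw [ZMod.ringChar_zmod_n]; exact hp2)
  have h1 : chi p K a = 1 := by rw [h, MulChar.one_apply a.isUnit]
  rw [chi_apply, ha] at h1
  apply h2
  push_cast at h1
  linear_combination -h1

lemma gauss_shift' (hp2 : p ≠ 2) (h2 : (2 : K) ≠ 0) (ψ : AddChar (ZMod p) K) (a : ZMod p) :
    ∑ k : ZMod p, chi p K k * ψ (a * k) = chi p K a * gaussSum (chi p K) ψ := by
  by_cases ha : a = 0
  · subst ha
    simp only [zero_mul, AddChar.map_zero_eq_one, mul_one]
    rw [MulChar.map_zero, zero_mul]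
    exact MulChar.sum_eq_zero_of_ne_one (chi_ne_one' hp2 h2)
  · have h := gaussSum_mulShift (chi p K) ψ (Units.mk0 a ha)
    rw [← h, Units.val_mk0, ← mul_assoc, chi_sq ha, one_mul]
    rfl

/-- the points -/
noncomputable def sv (ψ : AddChar (ZMod p) K) (k : ZMod p) : K := chi p K k * ψ k

/-- the polynomial -/
noncomputable def PP (ψ : AddChar (ZMod p) K) : K[X] :=
  ∏ k ∈ univ.erase (0 : ZMod p), (X - C (sv ψ k))

/-- the Gauss sum -/
noncomputable def gs (ψ : AddChar (ZMod p) K) : K := gaussSum (chi p K) ψ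

/-- the constant -/
noncomputable def kap (ψ : AddChar (ZMod p) K) : K :=
  ep p K * chi p K 2 * gs ψ * (p : K)⁻¹

lemma gs_sq (hp2 : p ≠ 2) (h2 : (2 : K) ≠ 0) {ψ : AddChar (ZMod p) K} (hψ : ψ.IsPrimitive) :
    gs ψ * gs ψ = ep p K * p := by
  have e := gaussSum_sq (χ := chi p K) (chi_ne_one' hp2 h2) chi_quad hψ
  rw [ZMod.card, sq] at e
  exact e

lemma psi_pow (ψ : AddChar (ZMod p) K) (k : ZMod p) (n : ℕ) : ψ k ^ n = ψ ((n : ZMod p) * k) := by
  rw [← AddChar.map_nsmul_eq_pow, nsmul_eq_mul]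

lemma sv_even (ψ : AddChar (ZMod p) K) {k : ZMod p} (hk : k ≠ 0) (n : ℕ) :
    sv ψ k ^ (2 * n) = ψ k ^ (2 * n) := by
  rw [pow_mul, pow_mul]
  congr 1
  rw [sv]
  linear_combination (ψ k ^ 2) * chi_sq (K := K) hk

lemma sv_odd (ψ : AddChar (ZMod p) K) {k : ZMod p} (hk : k ≠ 0) (n : ℕ) :
    sv ψ k ^ (2 * n + 1) = chi p K k * ψ k ^ (2 * n + 1) := by
  rw [pow_succ, sv_even ψ hk, pow_succ, sv]; ring

lemma psi_pp (ψ : AddChar (ZMod p) K) (k : ZMod p) (m : ℕ) (hm : p = 2 * m + 1) :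
    ψ k ^ (2 * m + 1) = 1 := by
  rw [psi_pow]
  have hp0 : ((2 * m + 1 : ℕ) : ZMod p) = 0 := by
    rw [← hm]; simp
  rw [hp0, zero_mul, AddChar.map_zero_eq_one]

lemma sv_top (ψ : AddChar (ZMod p) K) {k : ZMod p} (hk : k ≠ 0) (m : ℕ) (hm : p = 2 * m + 1) :
    sv ψ k ^ (2 * m + 1) = chi p K k := by
  rw [sv_odd ψ hk, psi_pp ψ k m hm, mul_one]

lemma psi_ne (ψ : AddChar (ZMod p) K) (x : ZMod p) : ψ x ≠ 0 := by
  intro h0
  have := AddChar.map_zero_eq_one ψ
  rw [← add_neg_cancel x, AddChar.map_add_eq_mul, h0, zero_mul] at this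
  exact zero_ne_one this

lemma sv_sq (ψ : AddChar (ZMod p) K) {k : ZMod p} (hk : k ≠ 0) : sv ψ k ^ 2 = ψ (2 * k) := by
  have h := sv_even ψ hk 1
  rw [mul_one] at h
  rw [h, psi_pow]
  norm_num

lemma sv_sq_ne (hp2 : p ≠ 2) {ψ : AddChar (ZMod p) K} (hψ : ψ.IsPrimitive) {k : ZMod p}
    (hk : k ≠ 0) : sv ψ k ^ 2 ≠ 1 := by
  rw [sv_sq ψ hk]
  intro h
  have := (hψ.zmod_char_eq_one_iff p (2 * k)).mp h
  rcases mul_eq_zero.mp this with h | h
  · exact two_ne hp2 h
  · exact hk h

lemma sv_inj (hp2 : p ≠ 2) {ψ : AddChar (ZMod p) K} (hψ : ψ.IsPrimitive) :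
    Set.InjOn (sv ψ) (univ.erase (0 : ZMod p) : Finset (ZMod p)) := by
  intro k hk l hl hkl
  have hk0 : k ≠ 0 := by simpa using hk
  have hl0 : l ≠ 0 := by simpa using hl
  have e : ψ (2 * k) = ψ (2 * l) := by rw [← sv_sq ψ hk0, ← sv_sq ψ hl0, hkl]
  have e2 : ψ (2 * k - 2 * l) = 1 := by
    rw [AddChar.map_sub_eq_div, e, div_self (psi_ne ψ _)]
  have e3 := (hψ.zmod_char_eq_one_iff p _).mp e2
  have e4 : 2 * (k - l) = 0 := by linear_combination e3
  rcases mul_eq_zero.mp e4 with h | h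
  · exact absurd h (two_ne hp2)
  · exact sub_eq_zero.mp h

lemma card_S (m : ℕ) (hm : p = 2 * m + 1) : (univ.erase (0 : ZMod p)).card = 2 * m := by
  rw [Finset.card_erase_of_mem (Finset.mem_univ _), Finset.card_univ, ZMod.card]
  omega

lemma PP_monic (ψ : AddChar (ZMod p) K) : (PP ψ).Monic :=
  monic_prod_of_monic _ _ (fun k _ => monic_X_sub_C _)

lemma PP_deg (ψ : AddChar (ZMod p) K) (m : ℕ) (hm : p = 2 * m + 1) : (PP ψ).natDegree = 2 * m := by
  rw [PP, natDegree_prod_of_monic _ _ (fun k _ => monic_X_sub_C _)]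
  simp only [natDegree_X_sub_C, sum_const, smul_eq_mul, mul_one]
  exact card_S m hm

lemma PP_top (ψ : AddChar (ZMod p) K) (m : ℕ) (hm : p = 2 * m + 1) : (PP ψ).coeff (2 * m) = 1 := by
  have := (PP_monic ψ).coeff_natDegree
  rwa [PP_deg ψ m hm] at this

lemma PP_root (ψ : AddChar (ZMod p) K) {k : ZMod p} (hk : k ≠ 0) : (PP ψ).eval (sv ψ k) = 0 := by
  rw [PP, eval_prod]
  exact Finset.prod_eq_zero (i := k) (by simp [hk]) (by simp)

lemma PP_sub_coeff (ψ : AddChar (ZMod p) K) (m : ℕ) (hm : p = 2 * m + 1) (n : ℕ)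
    (hn : 2 * m - 1 < n) : (PP ψ - X ^ (2 * m)).coeff n = 0 := by
  rw [coeff_sub, coeff_X_pow]
  rcases Nat.lt_or_ge (2 * m) n with h | h
  · rw [coeff_eq_zero_of_natDegree_lt (by rw [PP_deg ψ m hm]; exact h), if_neg (by omega)]; simp
  · have hn2 : n = 2 * m := by omega
    subst hn2
    rw [PP_top ψ m hm]; simp

/-- a polynomial of degree at most `2 m` that vanishes at the points is a multiple of `PP` -/
lemma eq_C_mul (hp2 : p ≠ 2) {ψ : AddChar (ZMod p) K} (hψ : ψ.IsPrimitive) (m : ℕ)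
    (hm : p = 2 * m + 1) (G : K[X]) (hG : G.natDegree ≤ 2 * m)
    (hroot : ∀ k : ZMod p, k ≠ 0 → G.eval (sv ψ k) = 0) : G = C (G.coeff (2 * m)) * PP ψ := by
  have hm1 : 1 ≤ m := by
    have := (Fact.out : p.Prime).two_le; omega
  set β : K := G.coeff (2 * m) with hβ
  have e1 : G - C β * PP ψ = 0 := by
    have hd : ∀ n, 2 * m - 1 < n → (G - C β * PP ψ).coeff n = 0 := by
      intro n hn
      rw [coeff_sub, coeff_C_mul]
      rcases Nat.lt_or_ge (2 * m) n with h | h
      · have e5 : (PP ψ).coeff n = 0 :=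
          coeff_eq_zero_of_natDegree_lt (by rw [PP_deg ψ m hm]; exact h)
        have e6 : G.coeff n = 0 := coeff_eq_zero_of_natDegree_lt (lt_of_le_of_lt hG h)
        rw [e5, e6]; simp
      · have hn2 : n = 2 * m := by omega
        subst hn2
        rw [PP_top ψ m hm]; simp [hβ]
    have hd2 : (G - C β * PP ψ).natDegree ≤ 2 * m - 1 := natDegree_le_iff_coeff_eq_zero.mpr hd
    classical
    apply eq_zero_of_natDegree_lt_card_of_eval_eq_zero' (G - C β * PP ψ)
      ((univ.erase (0 : ZMod p)).image (sv ψ))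
    · intro x hx
      rw [Finset.mem_image] at hx
      obtain ⟨k, hk, rfl⟩ := hx
      have hk0 : k ≠ 0 := by simpa using hk
      rw [eval_sub, eval_mul, hroot k hk0, PP_root ψ hk0]; simp
    · rw [Finset.card_image_of_injOn (sv_inj hp2 hψ), card_S m hm]; omega
  exact sub_eq_zero.mp e1

/-- The key lemma: solutions of the Toeplitz system over a field. -/
theorem core3 (m : ℕ) (hm : p = 2 * m + 1)
    (h2 : (2 : K) ≠ 0) (hpK : (p : K) ≠ 0) (ψ : AddChar (ZMod p) K) (hψ : ψ.IsPrimitive)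
    (v : ℕ → K) (c d : K)
    (hv : ∀ i ∈ range (m + 1),
      ∑ j ∈ range (m + 1), chi p K ((i : ZMod p) - (j : ZMod p)) * v j =
        (if i = 0 then c else 0) + d) :
    ∃ β : K, v 0 = β * (PP ψ).coeff 0 ∧
      (∀ j ∈ range m, v (j + 1) = β * (PP ψ).coeff (2 * j + 2) -
        c * kap ψ * (PP ψ).coeff (2 * j + 1)) ∧
      β * ((PP ψ).eval 1 - (PP ψ).eval (-1)) - c * kap ψ * ((PP ψ).eval 1 + (PP ψ).eval (-1)) =
        2 * d * kap ψ * p ∧
      2 * ∑ j ∈ range (m + 1), v j = β * ((PP ψ).eval 1 + (PP ψ).eval (-1)) -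
        c * kap ψ * ((PP ψ).eval 1 - (PP ψ).eval (-1)) := by
  have hm1 : 1 ≤ m := by
    have := (Fact.out : p.Prime).two_le; omega
  have hp2 : p ≠ 2 := by omega
  set g : K := gs ψ with hg
  have hg2 : g * g = ep p K * p := gs_sq hp2 h2 hψ
  set xval : ZMod p → K := fun k => ∑ j ∈ range (m + 1), v j * ψ k ^ (2 * j) with hx
  set h : ZMod p → K := fun k => chi p K k * xval k with hh
  set hhat : ZMod p → K := fun i => (p : K)⁻¹ * ∑ k' : ZMod p, h k' * ψ (-(2 * i * k')) with hhh
  set κ : K := kap ψ with hκ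
  -- values of the transform
  have hhat_eq : ∀ i : ZMod p, hhat i =
      κ * ∑ j ∈ range (m + 1), chi p K (i - (j : ZMod p)) * v j := by
    intro i
    have e1 : ∑ k' : ZMod p, h k' * ψ (-(2 * i * k')) =
        ∑ j ∈ range (m + 1), v j * (chi p K (2 * ((j : ZMod p) - i)) * g) := by
      have : ∀ k' : ZMod p, h k' * ψ (-(2 * i * k')) =
          ∑ j ∈ range (m + 1), v j * (chi p K k' * ψ (2 * ((j : ZMod p) - i) * k')) := by
        intro k'
        rw [hh, hx]
        simp only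
        rw [Finset.mul_sum, Finset.sum_mul]
        apply Finset.sum_congr rfl
        intro j _
        have e2 : ψ (2 * ((j : ZMod p) - i) * k') = ψ k' ^ (2 * j) * ψ (-(2 * i * k')) := by
          rw [psi_pow, ← AddChar.map_add_eq_mul]
          congr 1
          push_cast
          ring
        rw [e2]; ring
      rw [Finset.sum_congr rfl (fun k' _ => this k'), Finset.sum_comm]
      apply Finset.sum_congr rfl
      intro j _
      rw [← Finset.mul_sum, gauss_shift' hp2 h2]
      rfl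
    rw [hhh]
    simp only
    rw [e1, Finset.mul_sum, Finset.mul_sum]
    apply Finset.sum_congr rfl
    intro j _
    have e3 : chi p K (2 * ((j : ZMod p) - i)) = ep p K * (chi p K 2 * chi p K (i - (j : ZMod p))) := by
      rw [map_mul, ← neg_sub i (j : ZMod p), chi_neg']; ring
    rw [e3, hκ, kap]
    ring
  have hhat_low : ∀ i ∈ range (m + 1), hhat (i : ZMod p) = κ * ((if i = 0 then c else 0) + d) := by
    intro i hi
    rw [hhat_eq, hv i hi]
  set y : ℕ → K := fun l => hhat ((m + 1 + l : ℕ) : ZMod p) with hy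
  have hinv : ∀ k : ZMod p, h k = κ * c + κ * d * ∑ i ∈ range (m + 1), ψ k ^ (2 * i) +
      ∑ l ∈ range m, y l * ψ k ^ (2 * l + 1) := by
    intro k
    have e2 : ∑ i : ZMod p, hhat i * ψ (2 * i * k) = h k := inversion hp2 hpK ψ hψ h k
    rw [← e2, sum_zmod_range m hm (fun i => hhat i * ψ (2 * i * k))]
    congr 1
    · have e3 : ∀ i ∈ range (m + 1), hhat (i : ZMod p) * ψ (2 * i * k) =
          (if i = 0 then κ * c else 0) + κ * d * ψ k ^ (2 * i) := by
        intro i hi
        rw [hhat_low i hi, psi_pow]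
        push_cast
        split_ifs with h0
        · subst h0; simp; ring
        · ring
      rw [Finset.sum_congr rfl e3, Finset.sum_add_distrib, ← Finset.mul_sum]
      congr 1
      simp
    · apply Finset.sum_congr rfl
      intro l _
      rw [psi_pow]
      congr 2
      have hp0 : ((2 * m + 1 : ℕ) : ZMod p) = 0 := by
        rw [← hm]; simp
      push_cast at hp0 ⊢
      linear_combination k * hp0
  set V : K[X] := ∑ j ∈ range (m + 1), C (v j) * X ^ (2 * j) with hV
  set Y : K[X] := ∑ l ∈ range m, C (y l) * X ^ (2 * l + 1) with hY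
  set E : K[X] := ∑ l ∈ range m, X ^ (2 * l + 1) with hE
  set G : K[X] := V - Y + C (c * κ) * X * (PP ψ - X ^ (2 * m)) + C (d * κ) * E with hG
  have hQdeg : (PP ψ - X ^ (2 * m)).natDegree ≤ 2 * m - 1 :=
    natDegree_le_iff_coeff_eq_zero.mpr (PP_sub_coeff ψ m hm)
  have hVdeg : V.natDegree ≤ 2 * m := by
    apply natDegree_sum_le_of_forall_le
    intro j hj
    rw [Finset.mem_range] at hj
    exact (natDegree_C_mul_X_pow_le _ _).trans (by omega)
  have hYdeg : Y.natDegree ≤ 2 * m := by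
    apply natDegree_sum_le_of_forall_le
    intro j hj
    rw [Finset.mem_range] at hj
    exact (natDegree_C_mul_X_pow_le _ _).trans (by omega)
  have hEdeg : E.natDegree ≤ 2 * m := by
    apply natDegree_sum_le_of_forall_le
    intro j hj
    rw [Finset.mem_range] at hj
    exact (natDegree_X_pow_le _).trans (by omega)
  have hRdeg : (C (c * κ) * X * (PP ψ - X ^ (2 * m))).natDegree ≤ 2 * m := by
    refine natDegree_mul_le.trans ?_
    have h0 : (C (c * κ) * X : K[X]).natDegree ≤ 1 := by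
      simpa using natDegree_C_mul_X_pow_le (c * κ) 1
    omega
  have hGdeg : G.natDegree ≤ 2 * m := by
    rw [hG]
    refine natDegree_add_le_of_degree_le (natDegree_add_le_of_degree_le ?_ hRdeg) ?_
    · exact (natDegree_sub_le_of_le hVdeg hYdeg).trans (by simp)
    · exact (natDegree_C_mul_le _ _).trans hEdeg
  have hGroot : ∀ k : ZMod p, k ≠ 0 → G.eval (sv ψ k) = 0 := by
    intro k hk0
    have e1 := chi_sq (K := K) hk0
    have e2 := hinv k
    have eV : V.eval (sv ψ k) = xval k := by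
      rw [hV, hx]
      simp only [eval_finsetSum, eval_mul, eval_C, eval_pow, eval_X]
      exact Finset.sum_congr rfl fun j _ => by rw [sv_even ψ hk0]
    have eY : Y.eval (sv ψ k) = chi p K k * ∑ l ∈ range m, y l * ψ k ^ (2 * l + 1) := by
      rw [hY, Finset.mul_sum]
      simp only [eval_finsetSum, eval_mul, eval_C, eval_pow, eval_X]
      exact Finset.sum_congr rfl fun j _ => by rw [sv_odd ψ hk0]; ring
    have eE : E.eval (sv ψ k) = sv ψ k * ∑ l ∈ range m, sv ψ k ^ (2 * l) := by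
      rw [hE, Finset.mul_sum]
      simp only [eval_finsetSum, eval_pow, eval_X]
      exact Finset.sum_congr rfl fun j _ => by rw [pow_succ]; ring
    -- the sum
    have hsum : chi p K k * ∑ i ∈ range (m + 1), ψ k ^ (2 * i) =
        - (sv ψ k * ∑ l ∈ range m, sv ψ k ^ (2 * l)) := by
      have hne : sv ψ k ^ 2 - 1 ≠ 0 := sub_ne_zero.mpr (sv_sq_ne hp2 hψ hk0)
      have f1 : ∑ i ∈ range (m + 1), ψ k ^ (2 * i) = ∑ i ∈ range (m + 1), (sv ψ k ^ 2) ^ i :=
        Finset.sum_congr rfl fun i _ => by rw [← sv_even ψ hk0, pow_mul]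
      have f2 : ∑ l ∈ range m, sv ψ k ^ (2 * l) = ∑ l ∈ range m, (sv ψ k ^ 2) ^ l :=
        Finset.sum_congr rfl fun i _ => by rw [pow_mul]
      have g1 := geom_sum_mul (sv ψ k ^ 2) (m + 1)
      have g2 := geom_sum_mul (sv ψ k ^ 2) m
      rw [← pow_mul] at g1 g2
      have t1 : sv ψ k ^ (2 * (m + 1)) = chi p K k * sv ψ k := by
        rw [show 2 * (m + 1) = 2 * m + 1 + 1 by ring, pow_succ, sv_top ψ hk0 m hm]
      have t2 : sv ψ k * sv ψ k ^ (2 * m) = chi p K k := by
        rw [← sv_top ψ hk0 m hm, pow_succ]; ring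
      rw [t1] at g1
      apply mul_right_cancel₀ hne
      rw [f1, f2]
      linear_combination (chi p K k) * g1 + sv ψ k * g2 + t2 + sv ψ k * e1
    have e5 : (C (c * κ) * X * (PP ψ - X ^ (2 * m))).eval (sv ψ k) = - (c * κ) * chi p K k := by
      simp only [eval_sub, eval_mul, eval_C, eval_pow, eval_X]
      rw [PP_root ψ hk0]
      have := sv_top ψ hk0 m hm
      linear_combination (-(c * κ)) * this
    have e6 : xval k = chi p K k * h k := by
      rw [hh]; simp only; linear_combination (-xval k) * e1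
    rw [hG, eval_add, eval_add, eval_sub, eV, eY, e5, eval_mul, eval_C, eE, e6, e2]
    linear_combination (κ * d) * hsum
  have hGP := eq_C_mul hp2 hψ m hm G hGdeg hGroot
  set β : K := G.coeff (2 * m) with hβ
  -- coefficients
  have hVc : ∀ j ∈ range (m + 1), V.coeff (2 * j) = v j := by
    intro j hj
    rw [hV, finsetSum_coeff]
    simp only [coeff_C_mul_X_pow]
    rw [Finset.sum_eq_single j]
    · simp
    · intro b _ hb
      rw [if_neg (by omega)]
    · intro hj'; exact absurd hj hj'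
  have hYc : ∀ j, Y.coeff (2 * j) = 0 := by
    intro j
    rw [hY, finsetSum_coeff]
    simp only [coeff_C_mul_X_pow]
    apply Finset.sum_eq_zero
    intro l _
    rw [if_neg (by omega)]
  have hEc : ∀ j, E.coeff (2 * j) = 0 := by
    intro j
    rw [hE, finsetSum_coeff]
    simp only [coeff_X_pow]
    apply Finset.sum_eq_zero
    intro l _
    rw [if_neg (by omega)]
  refine ⟨β, ?_, ?_, ?_⟩
  · have := congrArg (fun q => q.coeff 0) hGP
    simp only [hG, coeff_add, coeff_sub, coeff_C_mul] at this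
    have a1 := hVc 0 (by simp)
    have a2 := hYc 0
    have a3 := hEc 0
    rw [mul_zero] at a1 a2 a3
    rw [a1, a2, a3, mul_assoc, coeff_C_mul, coeff_X_mul_zero] at this
    linear_combination this
  · intro j hj
    rw [Finset.mem_range] at hj
    have := congrArg (fun q => q.coeff (2 * (j + 1))) hGP
    simp only [hG, coeff_add, coeff_sub, coeff_C_mul] at this
    rw [hVc (j + 1) (by rw [Finset.mem_range]; omega), hYc, hEc, mul_assoc, coeff_C_mul] at this
    have e : 2 * (j + 1) = (2 * j + 1) + 1 := by ring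
    rw [e, coeff_X_mul, coeff_sub, coeff_X_pow, if_neg (by omega)] at this
    have e' : 2 * j + 1 + 1 = 2 * j + 2 := by ring
    rw [e'] at this
    linear_combination this
  · have e0 := hinv 0
    have e3 : h 0 = 0 := by rw [hh]; simp only; rw [MulChar.map_zero, zero_mul]
    rw [e3] at e0
    simp only [AddChar.map_zero_eq_one, one_pow, mul_one, sum_const, card_range, nsmul_eq_mul] at e0
    have ee : ∀ n : ℕ, (-1 : K) ^ (2 * n) = 1 := fun n => by rw [pow_mul]; simp
    have eo : ∀ n : ℕ, (-1 : K) ^ (2 * n + 1) = -1 := fun n => by rw [pow_succ, ee]; simp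
    have b1 := congrArg (fun q => q.eval 1) hGP
    have b2 := congrArg (fun q => q.eval (-1)) hGP
    simp only [hG, hV, hY, hE, eval_add, eval_sub, eval_finsetSum, eval_mul, eval_C, eval_pow,
      eval_X, one_pow, mul_one, ee, eo, sum_const, card_range, nsmul_eq_mul] at b1 b2
    rw [← Finset.sum_mul] at b2
    have hpm : (p : K) = 2 * m + 1 := by rw [hm]; push_cast; ring
    push_cast at e0
    rw [hpm]
    constructor
    · linear_combination (b2 - b1) + 2 * e0
    · linear_combination b1 + b2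

theorem core2 (m : ℕ) (hm : p = 2 * m + 1)
    (h2 : (2 : K) ≠ 0) (hpK : (p : K) ≠ 0) (ψ : AddChar (ZMod p) K) (hψ : ψ.IsPrimitive)
    (v : ℕ → K) (c d : K)
    (hv : ∀ i ∈ range (m + 1),
      ∑ j ∈ range (m + 1), chi p K ((i : ZMod p) - (j : ZMod p)) * v j =
        (if i = 0 then c else 0) + d) :
    ∃ β : K, v 0 = β * (PP ψ).coeff 0 ∧
      (∀ j ∈ range m, v (j + 1) = β * (PP ψ).coeff (2 * j + 2) -
        c * kap ψ * (PP ψ).coeff (2 * j + 1)) ∧
      β * ((PP ψ).eval 1 - (PP ψ).eval (-1)) - c * kap ψ * ((PP ψ).eval 1 + (PP ψ).eval (-1)) =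
        2 * d * kap ψ * p := by
  obtain ⟨β, h1, h3, h4, -⟩ := core3 m hm h2 hpK ψ hψ v c d hv
  exact ⟨β, h1, h3, h4⟩

end Pool.Agent.V11306.Toep
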