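import Mathlib
import Pool.Agent.V11306.Toep

/-!
# The Toeplitz system with one more value
-/

set_option autoImplicit false

namespace Pool.Agent.V11306.Toep

open Finset Polynomial

open Pool.Agent.Helper184.Chapman (chi chi_apply chi_sq chi_quad prod_psi inversion sum_zmod_range)

variable {p : ℕ} [Fact p.Prime] {K : Type*} [Field K]

/-- The key lemma: solutions of the Toeplitz system over a field. -/
theorem core4 (m : ℕ) (hm : p = 2 * m + 1)
    (h2 : (2 : K) ≠ 0) (hpK : (p : K) ≠ 0) (ψ : AddChar (ZMod p) K) (hψ : ψ.IsPrimitive)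
    (v : ℕ → K) (c d : K)
    (hv : ∀ i ∈ range (m + 1),
      ∑ j ∈ range (m + 1), chi p K ((i : ZMod p) - (j : ZMod p)) * v j =
        (if i = 0 then c else 0) + d) :
    ∃ β : K, v 0 = β * (PP ψ).coeff 0 ∧
      (∀ j ∈ range m, v (j + 1) = β * (PP ψ).coeff (2 * j + 2) -
        c * kap ψ * (PP ψ).coeff (2 * j + 1)) ∧
      β * ((PP ψ).eval 1 - (PP ψ).eval (-1)) - c * kap ψ * ((PP ψ).eval 1 + (PP ψ).eval (-1)) =
        2 * d * kap ψ * p ∧
      2 * ∑ j ∈ range (m + 1), v j = β * ((PP ψ).eval 1 + (PP ψ).eval (-1)) -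
        c * kap ψ * ((PP ψ).eval 1 - (PP ψ).eval (-1)) ∧
      kap ψ * ∑ j ∈ range (m + 1), chi p K (-1 - (j : ZMod p)) * v j =
        c * kap ψ * (PP ψ).coeff (2 * m - 2) + d * kap ψ - β * (PP ψ).coeff (2 * m - 1) := by
  have hm1 : 1 ≤ m := by
    have := (Fact.out : p.Prime).two_le; omega
  have hp2 : p ≠ 2 := by omega
  set g : K := gs ψ with hg
  have hg2 : g * g = ep p K * p := gs_sq hp2 h2 hψ
  set xval : ZMod p → K := fun k => ∑ j ∈ range (m + 1), v j * ψ k ^ (2 * j) with hx
  set h : ZMod p → K := fun k => chi p K k * xval k with hh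
  set hhat : ZMod p → K := fun i => (p : K)⁻¹ * ∑ k' : ZMod p, h k' * ψ (-(2 * i * k')) with hhh
  set κ : K := kap ψ with hκ
  -- values of the transform
  have hhat_eq : ∀ i : ZMod p, hhat i =
      κ * ∑ j ∈ range (m + 1), chi p K (i - (j : ZMod p)) * v j := by
    intro i
    have e1 : ∑ k' : ZMod p, h k' * ψ (-(2 * i * k')) =
        ∑ j ∈ range (m + 1), v j * (chi p K (2 * ((j : ZMod p) - i)) * g) := by
      have : ∀ k' : ZMod p, h k' * ψ (-(2 * i * k')) =
          ∑ j ∈ range (m + 1), v j * (chi p K k' * ψ (2 * ((j : ZMod p) - i) * k')) := by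
        intro k'
        rw [hh, hx]
        simp only
        rw [Finset.mul_sum, Finset.sum_mul]
        apply Finset.sum_congr rfl
        intro j _
        have e2 : ψ (2 * ((j : ZMod p) - i) * k') = ψ k' ^ (2 * j) * ψ (-(2 * i * k')) := by
          rw [psi_pow, ← AddChar.map_add_eq_mul]
          congr 1
          push_cast
          ring
        rw [e2]; ring
      rw [Finset.sum_congr rfl (fun k' _ => this k'), Finset.sum_comm]
      apply Finset.sum_congr rfl
      intro j _
      rw [← Finset.mul_sum, gauss_shift' hp2 h2]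
      rfl
    rw [hhh]
    simp only
    rw [e1, Finset.mul_sum, Finset.mul_sum]
    apply Finset.sum_congr rfl
    intro j _
    have e3 : chi p K (2 * ((j : ZMod p) - i)) = ep p K * (chi p K 2 * chi p K (i - (j : ZMod p))) := by
      rw [map_mul, ← neg_sub i (j : ZMod p), chi_neg']; ring
    rw [e3, hκ, kap]
    ring
  have hhat_low : ∀ i ∈ range (m + 1), hhat (i : ZMod p) = κ * ((if i = 0 then c else 0) + d) := by
    intro i hi
    rw [hhat_eq, hv i hi]
  set y : ℕ → K := fun l => hhat ((m + 1 + l : ℕ) : ZMod p) with hy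
  have hinv : ∀ k : ZMod p, h k = κ * c + κ * d * ∑ i ∈ range (m + 1), ψ k ^ (2 * i) +
      ∑ l ∈ range m, y l * ψ k ^ (2 * l + 1) := by
    intro k
    have e2 : ∑ i : ZMod p, hhat i * ψ (2 * i * k) = h k := inversion hp2 hpK ψ hψ h k
    rw [← e2, sum_zmod_range m hm (fun i => hhat i * ψ (2 * i * k))]
    congr 1
    · have e3 : ∀ i ∈ range (m + 1), hhat (i : ZMod p) * ψ (2 * i * k) =
          (if i = 0 then κ * c else 0) + κ * d * ψ k ^ (2 * i) := by
        intro i hi
        rw [hhat_low i hi, psi_pow]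
        push_cast
        split_ifs with h0
        · subst h0; simp; ring
        · ring
      rw [Finset.sum_congr rfl e3, Finset.sum_add_distrib, ← Finset.mul_sum]
      congr 1
      simp
    · apply Finset.sum_congr rfl
      intro l _
      rw [psi_pow]
      congr 2
      have hp0 : ((2 * m + 1 : ℕ) : ZMod p) = 0 := by
        rw [← hm]; simp
      push_cast at hp0 ⊢
      linear_combination k * hp0
  set V : K[X] := ∑ j ∈ range (m + 1), C (v j) * X ^ (2 * j) with hV
  set Y : K[X] := ∑ l ∈ range m, C (y l) * X ^ (2 * l + 1) with hY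
  set E : K[X] := ∑ l ∈ range m, X ^ (2 * l + 1) with hE
  set G : K[X] := V - Y + C (c * κ) * X * (PP ψ - X ^ (2 * m)) + C (d * κ) * E with hG
  have hQdeg : (PP ψ - X ^ (2 * m)).natDegree ≤ 2 * m - 1 :=
    natDegree_le_iff_coeff_eq_zero.mpr (PP_sub_coeff ψ m hm)
  have hVdeg : V.natDegree ≤ 2 * m := by
    apply natDegree_sum_le_of_forall_le
    intro j hj
    rw [Finset.mem_range] at hj
    exact (natDegree_C_mul_X_pow_le _ _).trans (by omega)
  have hYdeg : Y.natDegree ≤ 2 * m := by
    apply natDegree_sum_le_of_forall_le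
    intro j hj
    rw [Finset.mem_range] at hj
    exact (natDegree_C_mul_X_pow_le _ _).trans (by omega)
  have hEdeg : E.natDegree ≤ 2 * m := by
    apply natDegree_sum_le_of_forall_le
    intro j hj
    rw [Finset.mem_range] at hj
    exact (natDegree_X_pow_le _).trans (by omega)
  have hRdeg : (C (c * κ) * X * (PP ψ - X ^ (2 * m))).natDegree ≤ 2 * m := by
    refine natDegree_mul_le.trans ?_
    have h0 : (C (c * κ) * X : K[X]).natDegree ≤ 1 := by
      simpa using natDegree_C_mul_X_pow_le (c * κ) 1
    omega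
  have hGdeg : G.natDegree ≤ 2 * m := by
    rw [hG]
    refine natDegree_add_le_of_degree_le (natDegree_add_le_of_degree_le ?_ hRdeg) ?_
    · exact (natDegree_sub_le_of_le hVdeg hYdeg).trans (by simp)
    · exact (natDegree_C_mul_le _ _).trans hEdeg
  have hGroot : ∀ k : ZMod p, k ≠ 0 → G.eval (sv ψ k) = 0 := by
    intro k hk0
    have e1 := chi_sq (K := K) hk0
    have e2 := hinv k
    have eV : V.eval (sv ψ k) = xval k := by
      rw [hV, hx]
      simp only [eval_finsetSum, eval_mul, eval_C, eval_pow, eval_X]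
      exact Finset.sum_congr rfl fun j _ => by rw [sv_even ψ hk0]
    have eY : Y.eval (sv ψ k) = chi p K k * ∑ l ∈ range m, y l * ψ k ^ (2 * l + 1) := by
      rw [hY, Finset.mul_sum]
      simp only [eval_finsetSum, eval_mul, eval_C, eval_pow, eval_X]
      exact Finset.sum_congr rfl fun j _ => by rw [sv_odd ψ hk0]; ring
    have eE : E.eval (sv ψ k) = sv ψ k * ∑ l ∈ range m, sv ψ k ^ (2 * l) := by
      rw [hE, Finset.mul_sum]
      simp only [eval_finsetSum, eval_pow, eval_X]
      exact Finset.sum_congr rfl fun j _ => by rw [pow_succ]; ring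
    -- the sum
    have hsum : chi p K k * ∑ i ∈ range (m + 1), ψ k ^ (2 * i) =
        - (sv ψ k * ∑ l ∈ range m, sv ψ k ^ (2 * l)) := by
      have hne : sv ψ k ^ 2 - 1 ≠ 0 := sub_ne_zero.mpr (sv_sq_ne hp2 hψ hk0)
      have f1 : ∑ i ∈ range (m + 1), ψ k ^ (2 * i) = ∑ i ∈ range (m + 1), (sv ψ k ^ 2) ^ i :=
        Finset.sum_congr rfl fun i _ => by rw [← sv_even ψ hk0, pow_mul]
      have f2 : ∑ l ∈ range m, sv ψ k ^ (2 * l) = ∑ l ∈ range m, (sv ψ k ^ 2) ^ l :=
        Finset.sum_congr rfl fun i _ => by rw [pow_mul]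
      have g1 := geom_sum_mul (sv ψ k ^ 2) (m + 1)
      have g2 := geom_sum_mul (sv ψ k ^ 2) m
      rw [← pow_mul] at g1 g2
      have t1 : sv ψ k ^ (2 * (m + 1)) = chi p K k * sv ψ k := by
        rw [show 2 * (m + 1) = 2 * m + 1 + 1 by ring, pow_succ, sv_top ψ hk0 m hm]
      have t2 : sv ψ k * sv ψ k ^ (2 * m) = chi p K k := by
        rw [← sv_top ψ hk0 m hm, pow_succ]; ring
      rw [t1] at g1
      apply mul_right_cancel₀ hne
      rw [f1, f2]
      linear_combination (chi p K k) * g1 + sv ψ k * g2 + t2 + sv ψ k * e1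
    have e5 : (C (c * κ) * X * (PP ψ - X ^ (2 * m))).eval (sv ψ k) = - (c * κ) * chi p K k := by
      simp only [eval_sub, eval_mul, eval_C, eval_pow, eval_X]
      rw [PP_root ψ hk0]
      have := sv_top ψ hk0 m hm
      linear_combination (-(c * κ)) * this
    have e6 : xval k = chi p K k * h k := by
      rw [hh]; simp only; linear_combination (-xval k) * e1
    rw [hG, eval_add, eval_add, eval_sub, eV, eY, e5, eval_mul, eval_C, eE, e6, e2]
    linear_combination (κ * d) * hsum
  have hGP := eq_C_mul hp2 hψ m hm G hGdeg hGroot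
  set β : K := G.coeff (2 * m) with hβ
  -- coefficients
  have hVc : ∀ j ∈ range (m + 1), V.coeff (2 * j) = v j := by
    intro j hj
    rw [hV, finsetSum_coeff]
    simp only [coeff_C_mul_X_pow]
    rw [Finset.sum_eq_single j]
    · simp
    · intro b _ hb
      rw [if_neg (by omega)]
    · intro hj'; exact absurd hj hj'
  have hYc : ∀ j, Y.coeff (2 * j) = 0 := by
    intro j
    rw [hY, finsetSum_coeff]
    simp only [coeff_C_mul_X_pow]
    apply Finset.sum_eq_zero
    intro l _
    rw [if_neg (by omega)]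
  have hEc : ∀ j, E.coeff (2 * j) = 0 := by
    intro j
    rw [hE, finsetSum_coeff]
    simp only [coeff_X_pow]
    apply Finset.sum_eq_zero
    intro l _
    rw [if_neg (by omega)]
  refine ⟨β, ?_, ?_, ?_⟩
  · have := congrArg (fun q => q.coeff 0) hGP
    simp only [hG, coeff_add, coeff_sub, coeff_C_mul] at this
    have a1 := hVc 0 (by simp)
    have a2 := hYc 0
    have a3 := hEc 0
    rw [mul_zero] at a1 a2 a3
    rw [a1, a2, a3, mul_assoc, coeff_C_mul, coeff_X_mul_zero] at this
    linear_combination this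
  · intro j hj
    rw [Finset.mem_range] at hj
    have := congrArg (fun q => q.coeff (2 * (j + 1))) hGP
    simp only [hG, coeff_add, coeff_sub, coeff_C_mul] at this
    rw [hVc (j + 1) (by rw [Finset.mem_range]; omega), hYc, hEc, mul_assoc, coeff_C_mul] at this
    have e : 2 * (j + 1) = (2 * j + 1) + 1 := by ring
    rw [e, coeff_X_mul, coeff_sub, coeff_X_pow, if_neg (by omega)] at this
    have e' : 2 * j + 1 + 1 = 2 * j + 2 := by ring
    rw [e'] at this
    linear_combination this
  · have e0 := hinv 0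
    have e3 : h 0 = 0 := by rw [hh]; simp only; rw [MulChar.map_zero, zero_mul]
    rw [e3] at e0
    simp only [AddChar.map_zero_eq_one, one_pow, mul_one, sum_const, card_range, nsmul_eq_mul] at e0
    have ee : ∀ n : ℕ, (-1 : K) ^ (2 * n) = 1 := fun n => by rw [pow_mul]; simp
    have eo : ∀ n : ℕ, (-1 : K) ^ (2 * n + 1) = -1 := fun n => by rw [pow_succ, ee]; simp
    have b1 := congrArg (fun q => q.eval 1) hGP
    have b2 := congrArg (fun q => q.eval (-1)) hGP
    simp only [hG, hV, hY, hE, eval_add, eval_sub, eval_finsetSum, eval_mul, eval_C, eval_pow,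
      eval_X, one_pow, mul_one, ee, eo, sum_const, card_range, nsmul_eq_mul] at b1 b2
    rw [← Finset.sum_mul] at b2
    have hpm : (p : K) = 2 * m + 1 := by rw [hm]; push_cast; ring
    push_cast at e0
    rw [hpm]
    constructor
    · linear_combination (b2 - b1) + 2 * e0
    refine ⟨?_, ?_⟩
    · linear_combination b1 + b2
    · have hy1 : y (m - 1) = κ * ∑ j ∈ range (m + 1), chi p K (-1 - (j : ZMod p)) * v j := by
        have e9 : ((m + 1 + (m - 1) : ℕ) : ZMod p) = -1 := by
          rw [eq_neg_iff_add_eq_zero]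
          have e12 : (((m + 1 + (m - 1)) + 1 : ℕ) : ZMod p) = 0 := by
            rw [ZMod.natCast_eq_zero_iff]; exact ⟨1, by omega⟩
          rwa [Nat.cast_add, Nat.cast_one] at e12
        rw [hy]
        simp only
        rw [e9, hhat_eq]
      rw [← hy1]
      have e10 : 2 * (m - 1) + 1 = 2 * m - 1 := by omega
      have hVo : V.coeff (2 * m - 1) = 0 := by
        rw [hV, finsetSum_coeff]
        simp only [coeff_C_mul_X_pow]
        apply Finset.sum_eq_zero
        intro l _
        rw [if_neg (by omega)]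
      have hYo : Y.coeff (2 * m - 1) = y (m - 1) := by
        rw [hY, finsetSum_coeff]
        simp only [coeff_C_mul_X_pow]
        rw [Finset.sum_eq_single (m - 1)]
        · rw [if_pos (by omega)]
        · intro b _ hb
          rw [if_neg (by omega)]
        · intro hj'; exact absurd (Finset.mem_range.mpr (by omega)) hj'
      have hEo : E.coeff (2 * m - 1) = 1 := by
        rw [hE, finsetSum_coeff]
        simp only [coeff_X_pow]
        rw [Finset.sum_eq_single (m - 1)]
        · rw [if_pos (by omega)]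
        · intro b _ hb
          rw [if_neg (by omega)]
        · intro hj'; exact absurd (Finset.mem_range.mpr (by omega)) hj'
      have this := congrArg (fun q => q.coeff (2 * m - 1)) hGP
      simp only [hG, coeff_add, coeff_sub, coeff_C_mul] at this
      rw [hVo, hYo, hEo, mul_assoc, coeff_C_mul] at this
      have e : 2 * m - 1 = (2 * m - 2) + 1 := by omega
      have e11 : (X * (PP ψ - X ^ (2 * m)) : K[X]).coeff (2 * m - 1) = (PP ψ).coeff (2 * m - 2) := by
        rw [e, coeff_X_mul, coeff_sub, coeff_X_pow, if_neg (by omega), sub_zero]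
      rw [e11] at this
      linear_combination -this

end Pool.Agent.V11306.Toep
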