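import Pool.Agent.V11306.CnfG

/-! The residue for the imaginary quadratic field of a prime `p ≡ 3 (mod 4)`, `p > 3`. -/

set_option autoImplicit false

open Finset NumberField NumberField.InfinitePlace NumberField.Units

namespace Pool.Agent.V11306.CnfH

open Pool.Agent.Helper184.Chapman (chi chi_apply chi_sq chi_quad)
open Pool.Agent.V11306.Toep Pool.Agent.V11306.CnfA Pool.Agent.V11306.CnfB
open Pool.Agent.V11306.CnfC Pool.Agent.V11306.CnfD

variable {p : ℕ} [hp : Fact p.Prime] {K : Type} [Field K] [NumberField K]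

lemma alpha_form (h3 : p % 4 = 3) (α : K) (hα : α ^ 2 = -(p : K)) :
    α ^ 2 = algebraMap ℚ K (ep p ℚ * p) := by
  rw [hα, ep_eq, ez_three h3]; simp

lemma unit_pm (h3 : p % 4 = 3) (hp3 : 3 < p) (h2 : Module.finrank ℚ K = 2) (α : K)
    (hα : α ^ 2 = -(p : K)) (u : (𝓞 K)ˣ) : u = 1 ∨ u = -1 := by
  have hp2 : p ≠ 2 := by rintro rfl; omega
  obtain ⟨A, B, hAB, hn⟩ := CnfG.unit_form hp2 h2 α (alpha_form h3 α hα) u
  rw [ez_three h3] at hn
  have hB : B = 0 := by
    by_contra hB
    have h1 : 1 ≤ B ^ 2 := by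
      have := sq_nonneg B
      have h5 : B ^ 2 ≠ 0 := pow_ne_zero 2 hB
      omega
    have h4 : (7 : ℤ) ≤ p := by
      have : p ≠ 4 := by rintro rfl; omega
      have : p ≠ 5 := by rintro rfl; omega
      have : p ≠ 6 := by rintro rfl; omega
      omega
    have h5 := sq_nonneg A
    rcases hn with h | h <;> nlinarith
  rw [hB] at hn hAB
  have hA : A ^ 2 = 4 := by
    have h5 := sq_nonneg A
    rcases hn with h | h
    · linarith
    · nlinarith
  have h6 : (A - 2) * (A + 2) = 0 := by linear_combination hA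
  rcases mul_eq_zero.mp h6 with h | h
  · left
    have hA2 : A = 2 := by linarith
    rw [hA2] at hAB
    apply Units.ext
    apply RingOfIntegers.ext
    push_cast at hAB
    have : (2 : K) * ((u : 𝓞 K) : K) = 2 * 1 := by linear_combination hAB
    have h7 := mul_left_cancel₀ two_ne_zero this
    simpa using h7
  · right
    have hA2 : A = -2 := by linarith
    rw [hA2] at hAB
    apply Units.ext
    apply RingOfIntegers.ext
    push_cast at hAB
    have : (2 : K) * ((u : 𝓞 K) : K) = 2 * (-1) := by linear_combination hAB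
    have h7 := mul_left_cancel₀ two_ne_zero this
    simpa using h7

lemma torsion_two (h3 : p % 4 = 3) (hp3 : 3 < p) (h2 : Module.finrank ℚ K = 2) (α : K)
    (hα : α ^ 2 = -(p : K)) : torsionOrder K = 2 := by
  classical
  let := Fintype.ofFinite (torsion K)
  rw [torsionOrder, Nat.card_eq_fintype_card]
  refine (Finset.card_eq_two.2 ⟨1, ⟨-1, neg_one_mem_torsion⟩,
    by simp [← Subtype.coe_ne_coe], Finset.ext fun x ↦ ⟨fun _ ↦ ?_, fun _ ↦ Finset.mem_univ _⟩⟩)
  rw [Finset.mem_insert, Finset.mem_singleton, ← Subtype.val_inj, ← Subtype.val_inj]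
  exact unit_pm h3 hp3 h2 α hα x.1

lemma totally_complex (α : K) (hα : α ^ 2 = -(p : K)) :
    IsTotallyComplex K := by
  refine ⟨fun v => ?_⟩
  rw [← InfinitePlace.not_isReal_iff_isComplex]
  intro hv
  have h4 : (v.embedding_of_isReal hv α) ^ 2 = -(p : ℝ) := by
    rw [← map_pow, hα, map_neg, map_natCast]
  have h5 : (0 : ℝ) < p := by exact_mod_cast hp.out.pos
  nlinarith [sq_nonneg (v.embedding_of_isReal hv α)]

lemma places (h2 : Module.finrank ℚ K = 2) (α : K) (hα : α ^ 2 = -(p : K)) :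
    nrRealPlaces K = 0 ∧ nrComplexPlaces K = 1 := by
  have := totally_complex α hα
  have hc0 : nrRealPlaces K = 0 := IsTotallyComplex.nrRealPlaces_eq_zero K
  have hr := InfinitePlace.card_add_two_mul_card_eq_rank K
  rw [hc0, h2] at hr
  exact ⟨hc0, by omega⟩

lemma regulator_one (h2 : Module.finrank ℚ K = 2) (α : K)
    (hα : α ^ 2 = -(p : K)) : regulator K = 1 := by
  classical
  obtain ⟨r1, r2⟩ := places h2 α hα
  have hcard : Fintype.card (InfinitePlace K) = 1 := by
    rw [InfinitePlace.card_eq_nrRealPlaces_add_nrComplexPlaces, r1, r2]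
  have hrank : rank K = 0 := by rw [rank, hcard]
  obtain ⟨w⟩ : Nonempty (InfinitePlace K) := inferInstance
  have hc : Fintype.card {v : InfinitePlace K // v ≠ w} = 0 := by
    rw [Fintype.card_subtype_compl, hcard, Fintype.card_subtype_eq]
  have e : {v : InfinitePlace K // v ≠ w} ≃ Fin (rank K) :=
    Fintype.equivOfCardEq (by rw [hc, Fintype.card_fin, hrank])
  rw [regulator_eq_det K w e]
  have : IsEmpty {v : InfinitePlace K // v ≠ w} := Fintype.card_eq_zero_iff.mp hc
  rw [Matrix.det_isEmpty, abs_one]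

theorem residue_imag (h3 : p % 4 = 3) (hp3 : 3 < p) (h2 : Module.finrank ℚ K = 2) (α : K)
    (hα : α ^ 2 = -(p : K)) :
    dedekindZeta_residue K * Real.sqrt p = Real.pi * classNumber K := by
  have hp2 : p ≠ 2 := by rintro rfl; omega
  obtain ⟨r1, r2⟩ := places h2 α hα
  rw [dedekindZeta_residue_def, r1, r2, torsion_two h3 hp3 h2 α hα, regulator_one h2 α hα,
    discr_quad hp2 h2 α (alpha_form h3 α hα), ez_three h3]
  have hs : Real.sqrt (p : ℝ) ≠ 0 := by
    rw [Real.sqrt_ne_zero']; exact_mod_cast hp.out.pos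
  have hs2 : |(((-1 : ℤ) * (p : ℤ) : ℤ) : ℝ)| = (p : ℝ) := by
    push_cast
    rw [neg_one_mul, abs_neg]; exact abs_of_nonneg (Nat.cast_nonneg p)
  push_cast at hs2 ⊢
  rw [hs2]
  field_simp

end Pool.Agent.V11306.CnfH
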