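import Pool.Agent.V11306.CnfF

/-! Units of the quadratic field and the values of `PP`, `p ≡ 1 (mod 4)`. -/

set_option autoImplicit false

open Finset NumberField Polynomial

namespace Pool.Agent.V11306.CnfG

open Pool.Agent.Helper184.Chapman (chi chi_apply chi_sq chi_quad)
open Pool.Agent.V11306.Toep Pool.Agent.V11306.CnfA Pool.Agent.V11306.CnfB
open Pool.Agent.V11306.CnfC Pool.Agent.V11306.CnfD Pool.Agent.V11306.CnfE

variable {p : ℕ} [hp : Fact p.Prime] {K : Type} [Field K] [NumberField K]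

omit [NumberField K] in
lemma norm_form (B : Module.Basis (Fin 2) ℤ (𝓞 K)) (hB : B 0 = 1) (a b : ℤ)
    (hww : B 1 * B 1 = (b : 𝓞 K) + (a : 𝓞 K) * B 1) (s t : ℤ) :
    Algebra.norm ℤ ((s : 𝓞 K) + (t : 𝓞 K) * B 1) = s ^ 2 + s * t * a - t ^ 2 * b := by
  have hM : Algebra.leftMulMatrix B ((s : 𝓞 K) + (t : 𝓞 K) * B 1) =
      !![s, t * b; t, s + t * a] := by
    ext i j
    rw [Algebra.leftMulMatrix_eq_repr_mul]
    have e0 : ((s : 𝓞 K) + (t : 𝓞 K) * B 1) * B 0 = s • B 0 + t • B 1 := by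
      rw [hB, zsmul_one, zsmul_eq_mul, mul_one]
    have e1 : ((s : 𝓞 K) + (t : 𝓞 K) * B 1) * B 1 = (t * b) • B 0 + (s + t * a) • B 1 := by
      rw [hB, zsmul_one, zsmul_eq_mul]
      push_cast
      linear_combination (t : 𝓞 K) * hww
    fin_cases j
    · change B.repr (_ * B 0) i = _
      rw [e0, map_add, map_smul, map_smul, B.repr_self, B.repr_self]
      fin_cases i <;> simp
    · change B.repr (_ * B 1) i = _
      rw [e1, map_add, map_smul, map_smul, B.repr_self, B.repr_self]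
      fin_cases i <;> simp
  rw [Algebra.norm_eq_matrix_det B, hM, Matrix.det_fin_two_of]
  ring

/-- units as half integers -/
theorem unit_form (hp2 : p ≠ 2) (h2 : Module.finrank ℚ K = 2) (α : K)
    (hα : α ^ 2 = algebraMap ℚ K (ep p ℚ * p)) (u : (𝓞 K)ˣ) :
    ∃ A Bz : ℤ, 2 * ((u : 𝓞 K) : K) = A + Bz * α ∧
      (A ^ 2 - ez p * p * Bz ^ 2 = 4 ∨ A ^ 2 - ez p * p * Bz ^ 2 = -4) := by
  obtain ⟨k, hk⟩ := ez_mod (p := p) hp2
  have hα' : α ^ 2 = ((ez p * p : ℤ) : K) := by
    rw [hα, ep_eq]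
    push_cast
    simp
  have hint : IsIntegral ℤ ((1 + α) / 2) := by
    refine ⟨X ^ 2 - X - C k, ?_, ?_⟩
    · monicity!
    · simp only [eval₂_sub, eval₂_pow, eval₂_X, eval₂_C]
      rw [hk] at hα'
      push_cast at hα'
      simp only [eq_intCast]
      linear_combination (1 / 4 : K) * hα'
  obtain ⟨B, hB⟩ := exists_basis h2
  set ω : 𝓞 K := ⟨(1 + α) / 2, hint⟩ with hω
  have hωsq : (2 * ω - 1) ^ 2 = ((ez p * p : ℤ) : 𝓞 K) := by
    apply RingOfIntegers.ext
    push_cast
    simp only [map_ofNat, map_intCast]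
    change (2 * ((1 + α) / 2) - 1) ^ 2 = _
    push_cast at hα'
    linear_combination hα'
  obtain ⟨s, t, hst⟩ : ∃ s t : ℤ, ω = (s : 𝓞 K) + (t : 𝓞 K) * B 1 := ⟨_, _, coords B hB ω⟩
  obtain ⟨b, a, hww⟩ : ∃ b a : ℤ, B 1 * B 1 = (b : 𝓞 K) + (a : 𝓞 K) * B 1 :=
    ⟨_, _, coords B hB (B 1 * B 1)⟩
  have hd := disc_eq B hB a b hww
  have hrel : (((2 * s - 1) ^ 2 + (2 * t) ^ 2 * b - ez p * p : ℤ) : 𝓞 K) +
      ((2 * (2 * s - 1) * (2 * t) + (2 * t) ^ 2 * a : ℤ) : 𝓞 K) * B 1 = 0 := by
    rw [hst] at hωsq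
    push_cast at hωsq ⊢
    linear_combination hωsq - (2 * (t : 𝓞 K)) ^ 2 * hww
  obtain ⟨r1, r2⟩ := indep B hB _ _ hrel
  have ht0 : t ≠ 0 := by
    intro h0
    rw [h0] at r1
    have h3 : (2 * s - 1) ^ 2 = ez p * p := by linear_combination r1
    apply not_sq (p := p) (2 * s - 1)
    rw [ep_eq]
    exact_mod_cast h3
  have h4 : t * a = 1 - 2 * s := by
    have h5 : (4 * t) * (t * a - (1 - 2 * s)) = 0 := by linear_combination r2
    rcases mul_eq_zero.mp h5 with h | h
    · omega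
    · omega
  have h6 : ez p * p = t ^ 2 * discr K := by
    rw [hd]
    linear_combination (-1 : ℤ) * r1 + (- t * a - (1 - 2 * s)) * h4
  have hdisc := discr_quad hp2 h2 α hα
  have hne : ez p * (p : ℤ) ≠ 0 := by
    rw [← hdisc]; exact NumberField.discr_ne_zero K
  have h11 : t ^ 2 = 1 := by
    rw [hdisc] at h6
    exact mul_right_cancel₀ hne (by linear_combination -h6)
  have hw1 : α = 2 * ((s : K) + t * ((B 1 : 𝓞 K) : K)) - 1 := by
    have h12 := congrArg (fun z : 𝓞 K => (z : K)) hst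
    simp only [map_add, map_mul, map_intCast] at h12
    have h13 : ((ω : 𝓞 K) : K) = (1 + α) / 2 := rfl
    rw [h13] at h12
    linear_combination 2 * h12
  obtain ⟨x, y, hxy⟩ : ∃ x y : ℤ, (u : 𝓞 K) = (x : 𝓞 K) + (y : 𝓞 K) * B 1 :=
    ⟨_, _, coords B hB u⟩
  have hnorm := norm_form B hB a b hww x y
  rw [← hxy] at hnorm
  have hunit : IsUnit (Algebra.norm ℤ (u : 𝓞 K)) := u.isUnit.map (Algebra.norm ℤ)
  refine ⟨2 * x + y * a, y * t, ?_, ?_⟩
  · have h14 := congrArg (fun z : 𝓞 K => (z : K)) hxy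
    simp only [map_add, map_mul, map_intCast] at h14
    rw [h14, hw1]
    have h15 : (t : K) ^ 2 = 1 := by exact_mod_cast h11
    have h16 : (t : K) * a = 1 - 2 * s := by exact_mod_cast h4
    push_cast
    linear_combination (-2 * (y : K) * ((B 1 : 𝓞 K) : K) + (a : K) * y) * h15 -
      (t : K) * (y : K) * h16
  · have h17 : (2 * x + y * a) ^ 2 - ez p * p * (y * t) ^ 2 = 4 * Algebra.norm ℤ (u : 𝓞 K) := by
      rw [hnorm, ← hdisc, hd]
      linear_combination (-(a ^ 2 + 4 * b) * y ^ 2) * h11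
    rw [h17]
    rcases Int.isUnit_iff.mp hunit with h | h
    · left; rw [h]; norm_num
    · right; rw [h]; norm_num

/-- the values of `PP` at `1` and `-1` in terms of the fundamental unit -/
theorem PP_form (h1 : p % 4 = 1) (m : ℕ) (hm : p = 2 * m + 1) (K : Type) [Field K] [NumberField K]
    (h2 : Module.finrank ℚ K = 2) (α : K)
    (hα : α ^ 2 = (p : K)) (σ : K →+* ℝ) (hσ : 0 < σ α) (ε : (𝓞 K)ˣ)
    (hε : 1 < σ ((ε : 𝓞 K) : K))
    (hfund : ∀ u : (𝓞 K)ˣ, ∃ n : ℤ, u = ε ^ n ∨ u = -ε ^ n) :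
    ∃ A B : ℤ, 2 * (((ε : 𝓞 K) : K)) ^ ((2 - quadraticChar (ZMod p) 2) * (classNumber K : ℤ)) =
        A + B * α ∧
      ((A ^ 2 - p * B ^ 2 = -4 ∧
        2 * (PP (ZMod.stdAddChar (N := p))).eval (-1) =
          (p : ℂ) * B + A * gs (ZMod.stdAddChar (N := p)) ∧
        2 * (PP (ZMod.stdAddChar (N := p))).eval 1 =
          (p : ℂ) * B - A * gs (ZMod.stdAddChar (N := p))) ∨
      (A ^ 2 - p * B ^ 2 = 4 ∧ ∃ δ : ℂ, δ * δ = 1 ∧
        2 * (PP (ZMod.stdAddChar (N := p))).eval (-1) =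
          δ * ((p : ℂ) * B + A * gs (ZMod.stdAddChar (N := p))) ∧
        2 * (PP (ZMod.stdAddChar (N := p))).eval 1 =
          δ * (-((p : ℂ) * B) + A * gs (ZMod.stdAddChar (N := p))))) := by
  have hp2 : p ≠ 2 := by rintro rfl; omega
  have hpr : (0 : ℝ) < p := by exact_mod_cast hp.out.pos
  have hsp : 0 < Real.sqrt p := Real.sqrt_pos.mpr hpr
  have hss : Real.sqrt p * Real.sqrt p = p := Real.mul_self_sqrt hpr.le
  have hα' : α ^ 2 = algebraMap ℚ K (ep p ℚ * p) := by
    rw [hα, ep_eq, ez_one h1]; simp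
  have hσα : σ α = Real.sqrt p := by
    have h3 := congrArg σ hα
    rw [map_pow, map_natCast] at h3
    rw [← h3, Real.sqrt_sq hσ.le]
  set N : ℤ := (2 - quadraticChar (ZMod p) 2) * (classNumber K : ℤ) with hN
  obtain ⟨A, B, hAB, hn⟩ := unit_form hp2 h2 α hα' (ε ^ N)
  have hcoe : (((ε ^ N : (𝓞 K)ˣ) : 𝓞 K) : K) = (((ε : 𝓞 K) : K)) ^ N := by
    have := map_zpow (Units.map (algebraMap (𝓞 K) K : (𝓞 K) →* K)) ε N
    have h4 := congrArg (fun z : Kˣ => (z : K)) this
    rw [Units.val_zpow_eq_zpow_val] at h4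
    exact h4
  rw [hcoe] at hAB
  rw [ez_one h1, one_mul] at hn
  refine ⟨A, B, hAB, ?_⟩
  have hη : 2 * (σ ((ε : 𝓞 K) : K)) ^ N = A + B * Real.sqrt p := by
    have := congrArg σ hAB
    rw [map_mul, map_add, map_mul, map_zpow₀, map_intCast, map_intCast, hσα, map_ofNat] at this
    exact this
  set e : ℝ := σ ((ε : 𝓞 K) : K) with he
  have he0 : 0 < e := by linarith
  have hη0 : 0 < e ^ N := zpow_pos he0 N
  have hval := CnfF.PP_values h1 m hm K h2 α hα σ ε hε hfund
  rw [← hN, ← he] at hval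
  set H : ℝ := e ^ N with hH
  set q : ℝ := Real.sqrt p with hq
  rcases hn with hn | hn
  · right
    refine ⟨hn, ?_⟩
    have hnr : (A : ℝ) ^ 2 - p * B ^ 2 = 4 := by exact_mod_cast hn
    have hinv : 2 * (1 / H) = A - B * q := by
      field_simp
      have h5 : (A + B * q) * (A - B * q) = 4 := by
        rw [← hnr, ← hss]; ring
      rw [← hη] at h5
      linear_combination -(1 / 2 : ℝ) * h5
    rcases hval with ⟨v1, v2, v3⟩ | ⟨v1, v2, v3⟩
    · refine ⟨1, one_mul 1, ?_, ?_⟩
      · rw [v1, v2]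
        have : 2 * (q * H) = 1 * (p * B + A * q) := by
          rw [← hss]; linear_combination q * hη
        exact_mod_cast this
      · rw [v1, v3]
        have : 2 * (q / H) = 1 * (-(p * B) + A * q) := by
          rw [← hss]; linear_combination q * hinv
        exact_mod_cast this
    · refine ⟨-1, by norm_num, ?_, ?_⟩
      · rw [v1, v2]
        have : 2 * (q / H) = (-1) * (p * B + A * -q) := by
          rw [← hss]; linear_combination q * hinv
        exact_mod_cast this
      · rw [v1, v3]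
        have : 2 * (q * H) = (-1) * (-(p * B) + A * -q) := by
          rw [← hss]; linear_combination q * hη
        exact_mod_cast this
  · left
    refine ⟨hn, ?_⟩
    have hnr : (A : ℝ) ^ 2 - p * B ^ 2 = -4 := by exact_mod_cast hn
    have hinv : 2 * (1 / H) = -A + B * q := by
      field_simp
      have h5 : (A + B * q) * (A - B * q) = -4 := by
        rw [← hnr, ← hss]; ring
      rw [← hη] at h5
      linear_combination (1 / 2 : ℝ) * h5
    rcases hval with ⟨v1, v2, v3⟩ | ⟨v1, v2, v3⟩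
    · constructor
      · rw [v1, v2]
        have : 2 * (q * H) = p * B + A * q := by
          rw [← hss]; linear_combination q * hη
        exact_mod_cast this
      · rw [v1, v3]
        have : 2 * (q / H) = p * B - A * q := by
          rw [← hss]; linear_combination q * hinv
        exact_mod_cast this
    · constructor
      · rw [v1, v2]
        have : 2 * (q / H) = p * B + A * -q := by
          rw [← hss]; linear_combination q * hinv
        exact_mod_cast this
      · rw [v1, v3]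
        have : 2 * (q * H) = p * B - A * -q := by
          rw [← hss]; linear_combination q * hη
        exact_mod_cast this

/-- half integers are determined -/
theorem half_unique (α : K)
    (hα : α ^ 2 = (p : K)) (a b : ℚ) (A B : ℤ)
    (h : 2 * (algebraMap ℚ K a + algebraMap ℚ K b * α) = A + B * α) :
    2 * a = A ∧ 2 * b = B := by
  have h3 : algebraMap ℚ K (2 * a - A) + algebraMap ℚ K (2 * b - B) * α = 0 := by
    simp only [map_sub, map_mul, map_ofNat, map_intCast]
    linear_combination h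
  have hb : 2 * b - B = 0 := by
    by_contra hb
    have hα2 : α = algebraMap ℚ K (-(2 * a - A) / (2 * b - B)) := by
      rw [map_div₀, map_neg, eq_div_iff (by
        rw [Ne, map_eq_zero_iff _ (algebraMap ℚ K).injective]; exact hb)]
      linear_combination h3
    rw [hα2, ← map_pow] at hα
    have h4 : (-(2 * a - A) / (2 * b - B)) ^ 2 = (p : ℚ) := by
      apply (algebraMap ℚ K).injective
      rw [hα]; simp
    have h5 := hp.out.irrational_sqrt
    apply h5
    refine ⟨|(-(2 * a - A) / (2 * b - B))|, ?_⟩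
    rw [← Rat.cast_natCast, ← h4, Rat.cast_pow, Real.sqrt_sq_eq_abs, Rat.cast_abs]
  rw [hb, map_zero, zero_mul, add_zero, map_eq_zero_iff _ (algebraMap ℚ K).injective] at h3
  constructor
  · linarith
  · linarith

end Pool.Agent.V11306.CnfG
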