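import Mathlib
import Pool.Agent.V11306.Toep

/-!
# The coefficients of the polynomial `PP`
-/

set_option autoImplicit false

namespace Pool.Agent.V11306.Toep

open Finset Polynomial

open Pool.Agent.Helper184.Chapman (chi chi_apply chi_sq chi_quad prod_psi inversion sum_zmod_range)

/-- elementary symmetric functions -/
noncomputable def EE {σ R : Type*} [CommRing R] (r : σ → R) (j : ℕ) (S : Finset σ) : R :=
  ∑ t ∈ S.powersetCard j, ∏ i ∈ t, r i

section esymm

variable {σ R : Type*} [DecidableEq σ] [CommRing R] (r : σ → R)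

lemma EE_zero (S : Finset σ) : EE r 0 S = 1 := by
  simp [EE]

lemma EE_insert (j : ℕ) (a : σ) (S : Finset σ) (ha : a ∉ S) :
    EE r (j + 1) (insert a S) = EE r (j + 1) S + r a * EE r j S := by
  rw [EE, Finset.powersetCard_succ_insert ha, Finset.sum_union, Finset.sum_image, EE, EE,
    Finset.mul_sum]
  · congr 1
    refine Finset.sum_congr rfl fun t ht => ?_
    rw [Finset.mem_powersetCard] at ht
    rw [Finset.prod_insert (fun h => ha (ht.1 h))]
  · intro t ht t' ht' h
    rw [Finset.mem_coe, Finset.mem_powersetCard] at ht ht'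
    have e : (insert a t).erase a = (insert a t').erase a :=
      congrArg (fun s : Finset σ => s.erase a) h
    rwa [Finset.erase_insert (fun h => ha (ht.1 h)), Finset.erase_insert (fun h => ha (ht'.1 h))] at e
  · rw [Finset.disjoint_left]
    intro t ht ht'
    rw [Finset.mem_powersetCard] at ht
    rw [Finset.mem_image] at ht'
    obtain ⟨s, -, rfl⟩ := ht'
    exact ha (ht.1 (Finset.mem_insert_self _ _))

lemma EE_empty (j : ℕ) : EE r (j + 1) (∅ : Finset σ) = 0 := by
  rw [EE, Finset.powersetCard_eq_empty.mpr (by simp), Finset.sum_empty]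

lemma EE_one (S : Finset σ) : EE r 1 S = ∑ i ∈ S, r i := by
  induction S using Finset.induction_on with
  | empty => rw [EE_empty]; simp
  | insert a S ha ih =>
    rw [EE_insert r 0 a S ha, ih, Finset.sum_insert ha, EE_zero]; ring

lemma EE_two (S : Finset σ) :
    2 * EE r 2 S = (∑ i ∈ S, r i) ^ 2 - ∑ i ∈ S, r i ^ 2 := by
  induction S using Finset.induction_on with
  | empty => rw [EE_empty]; simp
  | insert a S ha ih =>
    rw [EE_insert r 1 a S ha, Finset.sum_insert ha, Finset.sum_insert ha, EE_one]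
    linear_combination ih

lemma EE_three (S : Finset σ) :
    6 * EE r 3 S = (∑ i ∈ S, r i) ^ 3 - 3 * (∑ i ∈ S, r i) * (∑ i ∈ S, r i ^ 2) +
      2 * ∑ i ∈ S, r i ^ 3 := by
  induction S using Finset.induction_on with
  | empty => rw [EE_empty]; simp
  | insert a S ha ih =>
    rw [EE_insert r 2 a S ha, Finset.sum_insert ha, Finset.sum_insert ha, Finset.sum_insert ha]
    linear_combination ih + 3 * r a * EE_two r S

end esymm

variable {p : ℕ} [Fact p.Prime] {K : Type*} [Field K]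

lemma sum_erase_zero {M : Type*} [AddCommGroup M] (f : ZMod p → M) :
    ∑ k ∈ univ.erase (0 : ZMod p), f k = ∑ k, f k - f 0 := by
  rw [← Finset.add_sum_erase univ f (Finset.mem_univ (0 : ZMod p))]; abel

lemma ps_one (ψ : AddChar (ZMod p) K) : ∑ k ∈ univ.erase (0 : ZMod p), sv ψ k = gs ψ := by
  rw [sum_erase_zero]
  simp only [sv, MulChar.map_zero, zero_mul, sub_zero]
  rfl

lemma ps_two (hp2 : p ≠ 2) {ψ : AddChar (ZMod p) K} (hψ : ψ.IsPrimitive) :
    ∑ k ∈ univ.erase (0 : ZMod p), sv ψ k ^ 2 = -1 := by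
  rw [Finset.sum_congr rfl (fun k hk => sv_sq ψ (by simpa using hk))]
  rw [sum_erase_zero (fun k => ψ (2 * k))]
  have h := AddChar.sum_mulShift (R := ZMod p) (2 : ZMod p) hψ
  rw [if_neg (two_ne hp2), Nat.cast_zero] at h
  have e : ∑ k : ZMod p, ψ (2 * k) = 0 := by
    rw [← h]
    exact Finset.sum_congr rfl fun k _ => by rw [mul_comm]
  rw [e]; simp

lemma ps_three (hp2 : p ≠ 2) (h2 : (2 : K) ≠ 0) (ψ : AddChar (ZMod p) K) :
    ∑ k ∈ univ.erase (0 : ZMod p), sv ψ k ^ 3 = chi p K 3 * gs ψ := by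
  have e : ∀ k ∈ univ.erase (0 : ZMod p), sv ψ k ^ 3 = chi p K k * ψ (3 * k) := by
    intro k hk
    have := sv_odd ψ (show k ≠ 0 by simpa using hk) 1
    rw [show 2 * 1 + 1 = 3 by norm_num] at this
    rw [this, psi_pow]
    norm_num
  rw [Finset.sum_congr rfl e, sum_erase_zero (fun k => chi p K k * ψ (3 * k)),
    gauss_shift' hp2 h2]
  simp [gs, MulChar.map_zero]

lemma PP_coeff_top (ψ : AddChar (ZMod p) K) (m : ℕ) (hm : p = 2 * m + 1) (j : ℕ) (hj : j ≤ 2 * m) :
    (PP ψ).coeff (2 * m - j) = EE (fun k => - sv ψ k) j (univ.erase (0 : ZMod p)) := by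
  have e : PP ψ = ∏ k ∈ univ.erase (0 : ZMod p), (X + C (- sv ψ k)) := by
    rw [PP]
    refine Finset.prod_congr rfl fun k _ => ?_
    rw [C_neg, sub_eq_add_neg]
  rw [e, Finset.prod_X_add_C_coeff _ _ (by rw [card_S m hm]; omega), card_S m hm, EE]
  have : 2 * m - (2 * m - j) = j := by omega
  rw [this]

lemma PP_c1 (ψ : AddChar (ZMod p) K) (m : ℕ) (hm : p = 2 * m + 1) (hm1 : 1 ≤ m) :
    (PP ψ).coeff (2 * m - 1) = - gs ψ := by
  classical
  rw [PP_coeff_top ψ m hm 1 (by omega), EE_one, Finset.sum_neg_distrib, ps_one]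

lemma PP_c2 (hp2 : p ≠ 2) (h2 : (2 : K) ≠ 0) {ψ : AddChar (ZMod p) K} (hψ : ψ.IsPrimitive)
    (m : ℕ) (hm : p = 2 * m + 1) (hm1 : 1 ≤ m) :
    2 * (PP ψ).coeff (2 * m - 2) = ep p K * p + 1 := by
  classical
  rw [PP_coeff_top ψ m hm 2 (by omega), EE_two, Finset.sum_neg_distrib, ps_one]
  simp only [neg_sq]
  rw [ps_two hp2 hψ]
  linear_combination gs_sq hp2 h2 hψ

lemma PP_c3 (hp2 : p ≠ 2) (h2 : (2 : K) ≠ 0) {ψ : AddChar (ZMod p) K} (hψ : ψ.IsPrimitive)
    (m : ℕ) (hm : p = 2 * m + 1) (hm1 : 2 ≤ m) :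
    6 * (PP ψ).coeff (2 * m - 3) = - gs ψ * (ep p K * p + 3 + 2 * chi p K 3) := by
  classical
  rw [PP_coeff_top ψ m hm 3 (by omega), EE_three, Finset.sum_neg_distrib, ps_one]
  have e : ∀ k : ZMod p, (- sv ψ k) ^ 3 = - (sv ψ k ^ 3) := fun k => by ring
  simp only [neg_sq, e, Finset.sum_neg_distrib]
  rw [ps_two hp2 hψ, ps_three hp2 h2]
  linear_combination - gs ψ * gs_sq hp2 h2 hψ

lemma prod_chi' : ∏ k ∈ univ.erase (0 : ZMod p), chi p K k = ep p K := by
  rw [← map_prod]
  have hw : ∏ k ∈ univ.erase (0 : ZMod p), k = -1 := by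
    have h := FiniteField.prod_univ_units_id_eq_neg_one (K := ZMod p)
    have h2 : (∏ x : (ZMod p)ˣ, (x : ZMod p)) = -1 := by
      rw [← Units.coe_prod, h]; simp
    rw [← h2]
    symm
    apply Finset.prod_bij (fun (x : (ZMod p)ˣ) _ => (x : ZMod p))
    · intro a _; simp
    · intro a _ b _ hab; exact Units.ext hab
    · intro b hb
      exact ⟨Units.mk0 b (by simpa using hb), by simp, rfl⟩
    · intro a _; rfl
  rw [hw, ep]

lemma prod_psi' (hp2 : p ≠ 2) (ψ : AddChar (ZMod p) K) :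
    ∏ k ∈ univ.erase (0 : ZMod p), ψ k = 1 := by
  rw [← prod_psi hp2 ψ]
  apply Finset.prod_bij (fun (x : ZMod p) _ => -x)
  · intro a ha; simpa using ha
  · intro a _ b _ hab; exact neg_injective hab
  · intro b hb
    exact ⟨-b, by simpa using hb, by simp⟩
  · intro a _; simp

lemma prod_sv (hp2 : p ≠ 2) (ψ : AddChar (ZMod p) K) :
    ∏ k ∈ univ.erase (0 : ZMod p), sv ψ k = ep p K := by
  simp only [sv]
  rw [Finset.prod_mul_distrib, prod_chi', prod_psi' hp2, mul_one]

lemma PP_zero (hp2 : p ≠ 2) (ψ : AddChar (ZMod p) K) (m : ℕ) (hm : p = 2 * m + 1) :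
    (PP ψ).coeff 0 = ep p K := by
  rw [coeff_zero_eq_eval_zero, PP, eval_prod]
  have e : ∀ k ∈ univ.erase (0 : ZMod p), eval 0 (X - C (sv ψ k)) = (-1) * sv ψ k := by
    intro k _; simp
  rw [Finset.prod_congr rfl e, Finset.prod_mul_distrib, Finset.prod_const, card_S m hm, prod_sv hp2,
    pow_mul]
  simp

lemma sv_ne (ψ : AddChar (ZMod p) K) {k : ZMod p} (hk : k ≠ 0) : sv ψ k ≠ 0 := by
  intro h
  have := sv_sq ψ hk
  rw [h] at this
  exact psi_ne ψ _ (by rw [← this]; simp)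

lemma sv_neg (ψ : AddChar (ZMod p) K) {k : ZMod p} (hk : k ≠ 0) :
    sv ψ (-k) * sv ψ k = ep p K := by
  rw [sv, sv, chi_neg']
  have e5 := chi_sq (K := K) hk
  have e6 : ψ (-k) * ψ k = 1 := by
    rw [← AddChar.map_add_eq_mul]; simp
  linear_combination ep p K * (ψ (-k) * ψ k) * e5 + ep p K * e6

lemma PP_one_coeff (hp2 : p ≠ 2) (ψ : AddChar (ZMod p) K) (m : ℕ) (hm : p = 2 * m + 1) :
    (PP ψ).coeff 1 = - gs ψ := by
  classical
  have h1 : (derivative (PP ψ)).coeff 0 = (PP ψ).coeff 1 := by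
    rw [coeff_derivative]; simp
  rw [← h1, coeff_zero_eq_eval_zero, PP, derivative_prod_finset, eval_finsetSum]
  have e : ∀ k ∈ univ.erase (0 : ZMod p),
      eval 0 ((∏ l ∈ (univ.erase (0 : ZMod p)).erase k, (X - C (sv ψ l))) *
        derivative (X - C (sv ψ k))) = - sv ψ (-k) := by
    intro k hk
    have hk0 : k ≠ 0 := by simpa using hk
    have e2 : eval 0 (∏ l ∈ (univ.erase (0 : ZMod p)).erase k, (X - C (sv ψ l))) * (- sv ψ k) =
        ep p K := by
      rw [← PP_zero hp2 ψ m hm, coeff_zero_eq_eval_zero, PP,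
        ← Finset.mul_prod_erase _ _ hk, eval_mul, mul_comm]
      simp
    have e3 := sv_neg ψ hk0
    rw [eval_mul, derivative_sub, derivative_X, derivative_C, sub_zero, eval_one, mul_one]
    apply mul_right_cancel₀ (neg_ne_zero.mpr (sv_ne ψ hk0))
    rw [e2]
    linear_combination -e3
  rw [Finset.sum_congr rfl e, Finset.sum_neg_distrib, ← ps_one]
  congr 1
  apply Finset.sum_bij (fun (x : ZMod p) _ => -x)
  · intro a ha; simpa using ha
  · intro a _ b _ hab; exact neg_injective hab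
  · intro b hb
    exact ⟨-b, by simpa using hb, by simp⟩
  · intro a _; rfl

/-- `P(1) P(-1) = p` -/
lemma PP_mul (hp2 : p ≠ 2) {ψ : AddChar (ZMod p) K} (hψ : ψ.IsPrimitive) (m : ℕ)
    (hm : p = 2 * m + 1) :
    (PP ψ).eval 1 * (PP ψ).eval (-1) = p := by
  have hprim : IsPrimitiveRoot (ψ 1) (2 * m + 1) := by
    rw [IsPrimitiveRoot.iff_def]
    refine ⟨psi_pp ψ 1 m hm, fun l hl => ?_⟩
    rw [psi_pow, mul_one] at hl
    have h0 := (hψ.zmod_char_eq_one_iff p _).mp hl
    rw [ZMod.natCast_eq_zero_iff] at h0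
    rwa [← hm]
  have h1 := hprim.prod_one_sub_pow_eq_order
  have h2 : ∏ k ∈ range (2 * m), (1 - ψ 1 ^ (k + 1)) =
      ∏ k ∈ univ.erase (0 : ZMod p), (1 - ψ k) := by
    apply Finset.prod_bij (fun (k : ℕ) _ => ((k + 1 : ℕ) : ZMod p))
    · intro a ha
      rw [Finset.mem_range] at ha
      simp only [Finset.mem_erase, Finset.mem_univ, and_true]
      intro h0
      rw [ZMod.natCast_eq_zero_iff] at h0
      have := Nat.le_of_dvd (by omega) h0
      omega
    · intro a ha b hb hab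
      rw [Finset.mem_range] at ha hb
      have := congrArg ZMod.val hab
      rw [ZMod.val_natCast_of_lt (by omega), ZMod.val_natCast_of_lt (by omega)] at this
      omega
    · intro b hb
      have hb0 : b ≠ 0 := by simpa using hb
      have hv0 : b.val ≠ 0 := by rwa [Ne, ZMod.val_eq_zero]
      have hlt := ZMod.val_lt b
      refine ⟨b.val - 1, ?_, ?_⟩
      · rw [Finset.mem_range]; omega
      · rw [show b.val - 1 + 1 = b.val by omega]; simp
    · intro a _
      rw [psi_pow, mul_one]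
  have h3 : ∏ k ∈ univ.erase (0 : ZMod p), (1 - ψ (2 * k)) =
      ∏ k ∈ univ.erase (0 : ZMod p), (1 - ψ k) := by
    apply Finset.prod_bij (fun (x : ZMod p) _ => 2 * x)
    · intro a ha
      have : a ≠ 0 := by simpa using ha
      simpa using mul_ne_zero (two_ne hp2) this
    · intro a _ b _ hab; exact mul_left_cancel₀ (two_ne hp2) hab
    · intro b hb
      have hb0 : b ≠ 0 := by simpa using hb
      refine ⟨2⁻¹ * b, ?_, ?_⟩
      · simpa using ⟨two_ne hp2, hb0⟩
      · rw [mul_inv_cancel_left₀ (two_ne hp2)]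
    · intro a _; rfl
  have e0 : (PP ψ).eval (-1) = ∏ k ∈ univ.erase (0 : ZMod p), (-1 - sv ψ k) := by
    rw [PP, eval_prod]; simp
  have e1 : (PP ψ).eval 1 = ∏ k ∈ univ.erase (0 : ZMod p), (1 - sv ψ k) := by
    rw [PP, eval_prod]; simp
  have e2 : ∀ k ∈ univ.erase (0 : ZMod p), (1 - sv ψ k) * (-1 - sv ψ k) =
      (-1) * (1 - ψ (2 * k)) := by
    intro k hk
    rw [← sv_sq ψ (by simpa using hk)]
    ring
  rw [e0, e1, ← Finset.prod_mul_distrib, Finset.prod_congr rfl e2, Finset.prod_mul_distrib,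
    Finset.prod_const, card_S m hm, h3, ← h2, h1, pow_mul]
  rw [hm]
  push_cast
  simp

/-- `P(-1) = - P(1)` if `p ≡ 3 (mod 4)` -/
lemma PP_neg_one (hp2 : p ≠ 2) (h3 : ep p K = -1) (ψ : AddChar (ZMod p) K) (m : ℕ)
    (hm : p = 2 * m + 1) :
    (PP ψ).eval (-1) = - (PP ψ).eval 1 := by
  have e0 : (PP ψ).eval (-1) = ∏ k ∈ univ.erase (0 : ZMod p), (-1 - sv ψ k) := by
    rw [PP, eval_prod]; simp
  have e1 : (PP ψ).eval 1 = ∏ k ∈ univ.erase (0 : ZMod p), (1 - sv ψ k) := by
    rw [PP, eval_prod]; simp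
  have e2 : ∏ k ∈ univ.erase (0 : ZMod p), (-1 - sv ψ k) =
      ∏ k ∈ univ.erase (0 : ZMod p), (-1 - sv ψ (-k)) := by
    apply Finset.prod_bij (fun (x : ZMod p) _ => -x)
    · intro a ha; simpa using ha
    · intro a _ b _ hab; exact neg_injective hab
    · intro b hb
      exact ⟨-b, by simpa using hb, by simp⟩
    · intro a _; simp
  have e3 : (∏ k ∈ univ.erase (0 : ZMod p), (-1 - sv ψ (-k))) *
      ∏ k ∈ univ.erase (0 : ZMod p), sv ψ k = ∏ k ∈ univ.erase (0 : ZMod p), (1 - sv ψ k) := by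
    rw [← Finset.prod_mul_distrib]
    refine Finset.prod_congr rfl fun k hk => ?_
    have hk0 : k ≠ 0 := by simpa using hk
    have := sv_neg ψ hk0
    rw [h3] at this
    linear_combination -this
  rw [prod_sv hp2, h3, ← e2, ← e0, ← e1] at e3
  linear_combination -e3

end Pool.Agent.V11306.Toep
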