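import Mathlib
import Pool.Agent.V11306.ToepP

/-!
# Determinants of quadratic characters with four parameters
-/

set_option autoImplicit false

namespace Pool.Agent.V11306.Toep

open Finset Matrix

open Pool.Agent.Helper184.Chapman (chi chi_apply chi_sq T)

/-- adding multiples of the column `0` -/
lemma col_op {R : Type*} [CommRing R] {n : ℕ} (A : Matrix (Fin (n + 1)) (Fin (n + 1)) R) (c : R) :
    (Matrix.of fun j k => A j k + c * A j 0).det = (1 + c) * A.det := by
  have h1 : (Matrix.of fun j k => A j k + c * A j 0) = A *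
      (1 + Matrix.replicateCol Unit (fun j : Fin (n + 1) => if j = 0 then c else 0) *
        Matrix.replicateRow Unit (fun _ : Fin (n + 1) => (1 : R))) := by
    ext j k
    rw [Matrix.mul_add, Matrix.mul_one, Matrix.add_apply, Matrix.of_apply, Matrix.mul_apply]
    congr 1
    simp [Matrix.mul_apply, Matrix.replicateCol_apply, Matrix.replicateRow_apply, mul_comm]
  rw [h1, Matrix.det_mul, Matrix.det_one_add_replicateCol_mul_replicateRow]
  simp [dotProduct, mul_comm]

/-- adding multiples of the row `0` -/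
lemma row_op {R : Type*} [CommRing R] {n : ℕ} (A : Matrix (Fin (n + 1)) (Fin (n + 1)) R)
    (a : Fin (n + 1) → R) :
    (Matrix.of fun j k => A j k + a j * A 0 k).det = (1 + a 0) * A.det := by
  have h1 : (Matrix.of fun j k => A j k + a j * A 0 k) =
      (1 + Matrix.replicateCol Unit a *
        Matrix.replicateRow Unit (fun j : Fin (n + 1) => if j = 0 then (1 : R) else 0)) * A := by
    ext j k
    rw [Matrix.add_mul, Matrix.one_mul, Matrix.add_apply, Matrix.of_apply, Matrix.mul_apply]
    congr 1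
    simp [Matrix.mul_apply, Matrix.replicateCol_apply, Matrix.replicateRow_apply]
  rw [h1, Matrix.det_mul, Matrix.det_one_add_replicateCol_mul_replicateRow]
  simp [dotProduct]

/-- the generic case -/
lemma four_generic {n : ℕ} (t : Fin (n + 1) → Fin (n + 1) → ℂ) (h0 : t 0 0 = 0) (e : ℂ)
    (s D S : ℂ)
    (H : ∀ x : ℂ, 1 + x * s ≠ 0 → (Matrix.of fun j k => t j k + x).det = D + x * S)
    (x y z w : ℂ) (h1 : (1 + y) * (1 + e * z) ≠ 0)
    (h2 : (1 + y) * (1 + e * z) - e * w * x ≠ 0)
    (h3 : (1 + y) * (1 + e * z) - e * w * x + s * x ≠ 0) :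
    (Matrix.of fun j k => x + t j k + t j 0 * y + e * t 0 k * z + t j 0 * (e * t 0 k) * w).det =
      D * ((1 + y) * (1 + e * z) - e * w * x) + x * S := by
  set π : ℂ := (1 + y) * (1 + e * z) with hπ
  set x1 : ℂ := x / (π - e * w * x) with hx1
  set c : ℂ := - (e * w * x / π) with hc
  have hc1 : 1 + c = (π - e * w * x) / π := by rw [hc]; field_simp; ring
  set A0 : Matrix (Fin (n + 1)) (Fin (n + 1)) ℂ := Matrix.of fun j k => t j k + x1 with hA0
  set A1 : Matrix (Fin (n + 1)) (Fin (n + 1)) ℂ := Matrix.of fun j k => A0 j k + c * A0 j 0 with hA1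
  set A2 : Matrix (Fin (n + 1)) (Fin (n + 1)) ℂ :=
    Matrix.of fun j k => A1 j k + (w * e * t j 0) * A1 0 k with hA2
  set A3 : Matrix (Fin (n + 1)) (Fin (n + 1)) ℂ :=
    Matrix.of fun j k => A2 j k + (z * e) * A2 0 k with hA3
  have hd0 : A0.det = D + x1 * S := by
    apply H
    rw [hx1]
    have e1 : 1 + x / (π - e * w * x) * s = (π - e * w * x + s * x) / (π - e * w * x) := by
      rw [eq_div_iff h2, add_mul, one_mul, div_mul_eq_mul_div, div_mul_cancel₀ _ h2]
      ring
    rw [e1]
    exact div_ne_zero h3 h2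
  have hd1 : A1.det = (1 + c) * A0.det := col_op A0 c
  have hd2 : A2.det = A1.det := by
    have := row_op A1 (fun j => w * e * t j 0)
    rw [h0] at this
    rw [hA2, this]; ring
  have hd3 : A3.det = (1 + z * e) * A2.det := row_op A2 (fun _ => z * e)
  have hd4 : (Matrix.of fun j k => A3 j k + y * A3 j 0).det = (1 + y) * A3.det := col_op A3 y
  have hxx : x1 * (1 + c) * π = x := by
    rw [hc1, hx1, mul_assoc, div_mul_cancel₀ _ h1, div_mul_cancel₀ _ h2]
  have hxc : c = - (x1 * (1 + c)) * w * e := by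
    have : c * π = - (x1 * (1 + c)) * w * e * π := by
      rw [show - (x1 * (1 + c)) * w * e * π = - (x1 * (1 + c) * π) * w * e by ring, hxx, hc]
      field_simp
    exact mul_right_cancel₀ h1 this
  have hfin : (Matrix.of fun j k => x + t j k + t j 0 * y + e * t 0 k * z +
      t j 0 * (e * t 0 k) * w) = Matrix.of fun j k => A3 j k + y * A3 j 0 := by
    ext j k
    simp only [hA3, hA2, hA1, hA0, Matrix.of_apply]
    rw [h0]
    linear_combination (-1 : ℂ) * hxx + (x1 * (1 + c)) * hπ - t j 0 * (1 + y) * hxc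
  rw [hfin, hd4, hd3, hd2, hd1, hd0, hc1, hx1]
  have hπ' : (1 + y) * ((1 + z * e) * ((π - e * w * x) / π * (D + x / (π - e * w * x) * S))) =
      π * ((π - e * w * x) / π * (D + x / (π - e * w * x) * S)) := by rw [hπ]; ring
  rw [hπ', ← mul_assoc, mul_div_cancel₀ _ h1, mul_add, mul_comm (π - e * w * x) D,
    ← mul_assoc, mul_div_cancel₀ _ h2]

open MvPolynomial in
/-- the general case -/
theorem four {n : ℕ} (t : Fin (n + 1) → Fin (n + 1) → ℂ) (h0 : t 0 0 = 0) (e : ℂ)
    (s D S : ℂ)
    (H : ∀ x : ℂ, 1 + x * s ≠ 0 → (Matrix.of fun j k => t j k + x).det = D + x * S)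
    (x y z w : ℂ) :
    (Matrix.of fun j k => x + t j k + t j 0 * y + e * t 0 k * z + t j 0 * (e * t 0 k) * w).det =
      D * ((1 + y) * (1 + e * z) - e * w * x) + x * S := by
  set F : MvPolynomial (Fin 4) ℂ := (Matrix.of fun j k : Fin (n + 1) =>
    (X 0 : MvPolynomial (Fin 4) ℂ) + C (t j k) + C (t j 0) * X 1 + C (e * t 0 k) * X 2 +
      C (t j 0 * (e * t 0 k)) * X 3).det with hF
  set G : MvPolynomial (Fin 4) ℂ := C D * ((1 + X 1) * (1 + C e * X 2) - C e * X 3 * X 0) +
    X 0 * C S with hG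
  set Q : MvPolynomial (Fin 4) ℂ := ((1 + X 1) * (1 + C e * X 2)) *
    ((1 + X 1) * (1 + C e * X 2) - C e * X 3 * X 0) *
    ((1 + X 1) * (1 + C e * X 2) - C e * X 3 * X 0 + C s * X 0) with hQ
  have hevF : ∀ x y z w : ℂ, eval ![x, y, z, w] F =
      (Matrix.of fun j k => x + t j k + t j 0 * y + e * t 0 k * z +
        t j 0 * (e * t 0 k) * w).det := by
    intro x y z w
    rw [hF, RingHom.map_det]
    congr 1
    ext j k
    simp
  have hevG : ∀ x y z w : ℂ, eval ![x, y, z, w] G =
      D * ((1 + y) * (1 + e * z) - e * w * x) + x * S := by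
    intro x y z w
    simp [hG]
  have hevQ : ∀ x y z w : ℂ, eval ![x, y, z, w] Q = ((1 + y) * (1 + e * z)) *
      ((1 + y) * (1 + e * z) - e * w * x) * ((1 + y) * (1 + e * z) - e * w * x + s * x) := by
    intro x y z w
    simp [hQ]
  have hQ0 : Q ≠ 0 := by
    intro h
    have := hevQ 0 0 0 0
    rw [h, map_zero] at this
    norm_num at this
  have hprod : (F - G) * Q = 0 := by
    apply MvPolynomial.funext
    intro u
    have eu : u = ![u 0, u 1, u 2, u 3] := by
      ext i; fin_cases i <;> rfl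
    rw [eu, map_mul, map_sub, hevF, hevG, hevQ, map_zero]
    by_cases hz : ((1 + u 1) * (1 + e * u 2)) * ((1 + u 1) * (1 + e * u 2) - e * u 3 * u 0) *
        ((1 + u 1) * (1 + e * u 2) - e * u 3 * u 0 + s * u 0) = 0
    · rw [hz, mul_zero]
    · obtain ⟨a12, a3⟩ := mul_ne_zero_iff.mp hz
      obtain ⟨a1, a2⟩ := mul_ne_zero_iff.mp a12
      rw [four_generic t h0 e s D S H (u 0) (u 1) (u 2) (u 3) a1 a2 a3, sub_self, zero_mul]
  have hFG : F = G := by
    rcases mul_eq_zero.mp hprod with h | h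
    · exact sub_eq_zero.mp h
    · exact absurd h hQ0
  rw [← hevF, ← hevG, hFG]

end Pool.Agent.V11306.Toep
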