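import Pool.Agent.V11306.CnfE

/-! The values at `1` and `-1` of the polynomial `PP`, `p ≡ 1 (mod 4)`. -/

set_option autoImplicit false

open Finset NumberField Polynomial

namespace Pool.Agent.V11306.CnfF

open Pool.Agent.Helper184.Chapman (chi chi_apply chi_sq chi_quad)
open Pool.Agent.V11306.Toep Pool.Agent.V11306.CnfA Pool.Agent.V11306.CnfB
open Pool.Agent.V11306.CnfC Pool.Agent.V11306.CnfD Pool.Agent.V11306.CnfE

variable {p : ℕ} [hp : Fact p.Prime]

/-- products over the nonzero residues as products over pairs -/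
lemma prod_pair {M : Type*} [CommMonoid M] (m : ℕ) (hm : p = 2 * m + 1) (f : ZMod p → M) :
    ∏ k ∈ univ.erase (0 : ZMod p), f k =
      ∏ j ∈ range m, (f ((j + 1 : ℕ) : ZMod p) * f (-((j + 1 : ℕ) : ZMod p))) := by
  have h1 : ∏ k ∈ univ.erase (0 : ZMod p), f k = ∏ i ∈ range (m + m), f ((i + 1 : ℕ) : ZMod p) := by
    symm
    apply Finset.prod_bij (fun (i : ℕ) _ => ((i + 1 : ℕ) : ZMod p))
    · intro a ha
      rw [Finset.mem_range] at ha
      simp only [Finset.mem_erase, Finset.mem_univ, and_true]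
      intro h0
      rw [ZMod.natCast_eq_zero_iff] at h0
      have := Nat.le_of_dvd (by omega) h0
      omega
    · intro a ha b hb hab
      rw [Finset.mem_range] at ha hb
      have := congrArg ZMod.val hab
      rw [ZMod.val_natCast_of_lt (by omega), ZMod.val_natCast_of_lt (by omega)] at this
      omega
    · intro b hb
      have hb0 : b ≠ 0 := by simpa using hb
      have hv0 : b.val ≠ 0 := by rwa [Ne, ZMod.val_eq_zero]
      have hlt := ZMod.val_lt b
      refine ⟨b.val - 1, ?_, ?_⟩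
      · rw [Finset.mem_range]; omega
      · rw [show b.val - 1 + 1 = b.val by omega]; simp
    · intro a _; rfl
  have h3 : ∏ l ∈ range m, f ((m + l + 1 : ℕ) : ZMod p) =
      ∏ i ∈ range m, f (-((i + 1 : ℕ) : ZMod p)) := by
    rw [← Finset.prod_range_reflect]
    refine Finset.prod_congr rfl fun l hl => ?_
    rw [Finset.mem_range] at hl
    congr 1
    rw [eq_neg_iff_add_eq_zero, ← Nat.cast_add, ZMod.natCast_eq_zero_iff]
    exact ⟨1, by omega⟩
  rw [h1, Finset.prod_range_add, h3, Finset.prod_mul_distrib]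

/-- real points of the unit circle -/
lemma norm_sv {k : ZMod p} (hk : k ≠ 0) : ‖sv (ZMod.stdAddChar (N := p)) k‖ = 1 := by
  rw [sv, norm_mul, std_norm, mul_one, chi_apply]
  rcases quadraticChar_dichotomy (F := ZMod p) hk with h | h <;> rw [h] <;> simp

lemma sv_conj (h1 : ep p ℂ = 1) {k : ZMod p} (hk : k ≠ 0) :
    sv (ZMod.stdAddChar (N := p)) (-k) = (starRingEnd ℂ) (sv (ZMod.stdAddChar (N := p)) k) := by
  have h := sv_neg (ZMod.stdAddChar (N := p)) hk
  rw [h1] at h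
  have h2 : (starRingEnd ℂ) (sv (ZMod.stdAddChar (N := p)) k) * sv (ZMod.stdAddChar (N := p)) k = 1 := by
    rw [mul_comm, Complex.mul_conj, Complex.normSq_eq_norm_sq, norm_sv hk]; simp
  have h3 := sv_ne (ZMod.stdAddChar (N := p)) hk
  exact mul_right_cancel₀ h3 (h.trans h2.symm)

/-- the values of `PP` at real points are positive reals -/
lemma PP_pos (h1 : ep p ℂ = 1) (m : ℕ) (hm : p = 2 * m + 1) (x : ℝ)
    (hx : ∀ k : ZMod p, k ≠ 0 → (x : ℂ) ≠ sv (ZMod.stdAddChar (N := p)) k) :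
    ∃ r : ℝ, 0 < r ∧ (PP (ZMod.stdAddChar (N := p))).eval (x : ℂ) = r := by
  have e : (PP (ZMod.stdAddChar (N := p))).eval (x : ℂ) =
      ∏ k ∈ univ.erase (0 : ZMod p), ((x : ℂ) - sv (ZMod.stdAddChar (N := p)) k) := by
    rw [PP, eval_prod]; simp
  rw [e, prod_pair m hm]
  refine ⟨∏ j ∈ range m, ‖(x : ℂ) - sv (ZMod.stdAddChar (N := p)) ((j + 1 : ℕ) : ZMod p)‖ ^ 2, ?_, ?_⟩
  · apply Finset.prod_pos
    intro j hj
    rw [Finset.mem_range] at hj
    have hj0 : ((j + 1 : ℕ) : ZMod p) ≠ 0 := by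
      rw [Ne, ZMod.natCast_eq_zero_iff]
      intro h
      have := Nat.le_of_dvd (by omega) h
      omega
    have := norm_pos_iff.mpr (sub_ne_zero.mpr (hx _ hj0))
    positivity
  · rw [Complex.ofReal_prod]
    refine Finset.prod_congr rfl fun j hj => ?_
    rw [Finset.mem_range] at hj
    have hj0 : ((j + 1 : ℕ) : ZMod p) ≠ 0 := by
      rw [Ne, ZMod.natCast_eq_zero_iff]
      intro h
      have := Nat.le_of_dvd (by omega) h
      omega
    rw [sv_conj h1 hj0]
    have h2 : (x : ℂ) - (starRingEnd ℂ) (sv (ZMod.stdAddChar (N := p)) ((j + 1 : ℕ) : ZMod p)) =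
        (starRingEnd ℂ) ((x : ℂ) - sv (ZMod.stdAddChar (N := p)) ((j + 1 : ℕ) : ZMod p)) := by
      rw [map_sub, Complex.conj_ofReal]
    rw [h2, Complex.mul_conj, Complex.normSq_eq_norm_sq]

lemma one_ne_sv (hp2 : p ≠ 2) {k : ZMod p} (hk : k ≠ 0) (x : ℝ) (hx : x ^ 2 = 1) :
    (x : ℂ) ≠ sv (ZMod.stdAddChar (N := p)) k := by
  intro h
  apply sv_sq_ne hp2 (ZMod.isPrimitive_stdAddChar p) hk
  rw [← h]
  exact_mod_cast hx

/-- the logarithm of the quotient -/
lemma log_quot (hp2 : p ≠ 2) :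
    Real.log ‖(PP (ZMod.stdAddChar (N := p))).eval (-1)‖ -
      Real.log ‖(PP (ZMod.stdAddChar (N := p))).eval 1‖ =
    (chi p ℝ 2 - 2) * ∑ u : ZMod p, chi p ℝ u * lg u := by
  have e0 : (PP (ZMod.stdAddChar (N := p))).eval (-1) =
      ∏ k ∈ univ.erase (0 : ZMod p), (-1 - sv (ZMod.stdAddChar (N := p)) k) := by
    rw [PP, eval_prod]; simp
  have e1 : (PP (ZMod.stdAddChar (N := p))).eval 1 =
      ∏ k ∈ univ.erase (0 : ZMod p), (1 - sv (ZMod.stdAddChar (N := p)) k) := by
    rw [PP, eval_prod]; simp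
  have hne : ∀ k ∈ univ.erase (0 : ZMod p), ‖-1 - sv (ZMod.stdAddChar (N := p)) k‖ ≠ 0 := by
    intro k hk
    have hk0 : k ≠ 0 := by simpa using hk
    rw [norm_ne_zero_iff, sub_ne_zero]
    have := one_ne_sv hp2 hk0 (-1) (by norm_num)
    simpa using this
  have hne' : ∀ k ∈ univ.erase (0 : ZMod p), ‖1 - sv (ZMod.stdAddChar (N := p)) k‖ ≠ 0 := by
    intro k hk
    have hk0 : k ≠ 0 := by simpa using hk
    rw [norm_ne_zero_iff, sub_ne_zero]
    have := one_ne_sv hp2 hk0 1 (by norm_num)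
    simpa using this
  rw [e0, e1, norm_prod, norm_prod, Real.log_prod hne, Real.log_prod hne', ← sum_sub_distrib]
  have hterm : ∀ k ∈ univ.erase (0 : ZMod p), Real.log ‖-1 - sv (ZMod.stdAddChar (N := p)) k‖ -
      Real.log ‖1 - sv (ZMod.stdAddChar (N := p)) k‖ =
      chi p ℝ k * lg (2 * k) - 2 * (chi p ℝ k * lg k) := by
    intro k hk
    have hk0 : k ≠ 0 := by simpa using hk
    have h2k : (ZMod.stdAddChar (2 * k) : ℂ) = (ZMod.stdAddChar k : ℂ) ^ 2 := by
      rw [psi_pow]; norm_num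
    have hz1 : (1 : ℂ) - ZMod.stdAddChar k ≠ 0 := sub_ne_zero.mpr (std_ne_one hk0).symm
    have hz2 : (1 : ℂ) + ZMod.stdAddChar k ≠ 0 := by
      intro h
      have h2 : (1 : ℂ) - ZMod.stdAddChar (2 * k) = 0 := by
        rw [h2k]; linear_combination (1 - (ZMod.stdAddChar k : ℂ)) * h
      have h3 : (ZMod.stdAddChar (2 * k) : ℂ) = 1 := by linear_combination -h2
      exact std_ne_one (mul_ne_zero (two_ne hp2) hk0) h3
    have hlg : lg (2 * k) = lg k + Real.log ‖(1 : ℂ) + ZMod.stdAddChar k‖ := by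
      unfold lg
      rw [← Real.log_mul (norm_ne_zero_iff.mpr hz1) (norm_ne_zero_iff.mpr hz2), ← norm_mul, h2k]
      congr 2
      ring
    rw [hlg]
    have hneg : ∀ z : ℂ, ‖-1 - z‖ = ‖1 + z‖ := by
      intro z
      rw [← norm_neg]; congr 1; ring
    rw [hneg]
    rcases quadraticChar_dichotomy (F := ZMod p) hk0 with h | h
    · have c1 : chi p ℂ k = 1 := by rw [chi_apply, h]; simp
      have c2 : chi p ℝ k = 1 := by rw [chi_apply, h]; simp
      rw [sv, c1, c2, one_mul]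
      unfold lg
      ring
    · have c1 : chi p ℂ k = -1 := by rw [chi_apply, h]; simp
      have c2 : chi p ℝ k = -1 := by rw [chi_apply, h]; simp
      rw [sv, c1, c2]
      unfold lg
      have e5 : (1 : ℂ) + -1 * ZMod.stdAddChar k = 1 - ZMod.stdAddChar k := by ring
      have e6 : (1 : ℂ) - -1 * ZMod.stdAddChar k = 1 + ZMod.stdAddChar k := by ring
      rw [e5, e6]
      ring
  rw [sum_congr rfl hterm, sum_sub_distrib, ← mul_sum]
  have hz : ∀ f : ZMod p → ℝ, ∑ k ∈ univ.erase (0 : ZMod p), chi p ℝ k * f k =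
      ∑ k, chi p ℝ k * f k := by
    intro f
    rw [sum_erase_zero (fun k => chi p ℝ k * f k), MulChar.map_zero]; ring
  rw [hz, hz]
  have hs : ∑ k : ZMod p, chi p ℝ k * lg (2 * k) = chi p ℝ 2 * ∑ k : ZMod p, chi p ℝ k * lg k := by
    rw [mul_sum]
    apply Fintype.sum_bijective (fun k : ZMod p => 2 * k)
    · constructor
      · intro a b h; exact mul_left_cancel₀ (two_ne hp2) h
      · intro b; exact ⟨2⁻¹ * b, mul_inv_cancel_left₀ (two_ne hp2) b⟩
    · intro k
      rw [map_mul, ← mul_assoc, ← mul_assoc, chi_sq (two_ne hp2), one_mul]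
  rw [hs]
  ring

/-- the analytic input: the values of `PP` at `1` and `-1` -/
theorem PP_values (h1 : p % 4 = 1) (m : ℕ) (hm : p = 2 * m + 1) (K : Type) [Field K] [NumberField K]
    (h2 : Module.finrank ℚ K = 2) (α : K)
    (hα : α ^ 2 = (p : K)) (σ : K →+* ℝ) (ε : (𝓞 K)ˣ) (hε : 1 < σ ((ε : 𝓞 K) : K))
    (hfund : ∀ u : (𝓞 K)ˣ, ∃ n : ℤ, u = ε ^ n ∨ u = -ε ^ n) :
    (gs (ZMod.stdAddChar (N := p)) = ((Real.sqrt p : ℝ) : ℂ) ∧
      (PP (ZMod.stdAddChar (N := p))).eval (-1) = ((Real.sqrt p *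
        (σ ((ε : 𝓞 K) : K)) ^ ((2 - quadraticChar (ZMod p) 2) * (classNumber K : ℤ)) : ℝ) : ℂ) ∧
      (PP (ZMod.stdAddChar (N := p))).eval 1 = ((Real.sqrt p /
        (σ ((ε : 𝓞 K) : K)) ^ ((2 - quadraticChar (ZMod p) 2) * (classNumber K : ℤ)) : ℝ) : ℂ)) ∨
    (gs (ZMod.stdAddChar (N := p)) = ((-Real.sqrt p : ℝ) : ℂ) ∧
      (PP (ZMod.stdAddChar (N := p))).eval (-1) = ((Real.sqrt p /
        (σ ((ε : 𝓞 K) : K)) ^ ((2 - quadraticChar (ZMod p) 2) * (classNumber K : ℤ)) : ℝ) : ℂ) ∧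
      (PP (ZMod.stdAddChar (N := p))).eval 1 = ((Real.sqrt p *
        (σ ((ε : 𝓞 K) : K)) ^ ((2 - quadraticChar (ZMod p) 2) * (classNumber K : ℤ)) : ℝ) : ℂ)) := by
  have hp2 : p ≠ 2 := by rintro rfl; omega
  have hpr : (0 : ℝ) < p := by exact_mod_cast hp.out.pos
  have hsp : 0 < Real.sqrt p := Real.sqrt_pos.mpr hpr
  have hss : Real.sqrt p * Real.sqrt p = p := Real.mul_self_sqrt hpr.le
  have hep : ep p ℂ = 1 := by rw [ep_eq, ez_one h1]; simp
  have hα' : α ^ 2 = algebraMap ℚ K (ep p ℚ * p) := by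
    rw [hα, ep_eq, ez_one h1]; simp
  have hψ := ZMod.isPrimitive_stdAddChar p
  obtain ⟨a, ha0, ha⟩ := PP_pos hep m hm 1 (fun k hk => one_ne_sv hp2 hk 1 (by norm_num))
  obtain ⟨b, hb0, hb⟩ := PP_pos hep m hm (-1) (fun k hk => one_ne_sv hp2 hk (-1) (by norm_num))
  rw [Complex.ofReal_one] at ha
  rw [Complex.ofReal_neg, Complex.ofReal_one] at hb
  have hab : a * b = p := by
    have := PP_mul hp2 hψ m hm
    rw [ha, hb] at this
    exact_mod_cast this
  have hlog := log_quot (p := p) hp2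
  rw [ha, hb, Complex.norm_real, Complex.norm_real, Real.norm_of_nonneg hb0.le,
    Real.norm_of_nonneg ha0.le] at hlog
  set S : ℝ := ∑ u : ZMod p, chi p ℝ u * lg u with hS
  have hres := residue_real h1 h2 α hα σ ε hε hfund
  have hL := residue_quad hp2 K h2 α hα'
  have hL1 := L_one_even hp2 hep
  rw [← hL] at hL1
  have hSc : ∑ u : ZMod p, chi p ℂ u * (lg u : ℂ) = (S : ℂ) := by
    rw [hS]
    push_cast
    refine sum_congr rfl fun u _ => ?_
    rw [chi_apply, chi_apply]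
    push_cast
    rfl
  rw [hSc] at hL1
  set R : ℝ := dedekindZeta_residue K with hR
  set e : ℝ := σ ((ε : 𝓞 K) : K) with he
  set N : ℤ := (2 - quadraticChar (ZMod p) 2) * (classNumber K : ℤ) with hN
  have he0 : 0 < e := by linarith
  have hη0 : 0 < e ^ N := zpow_pos he0 N
  have hchi2 : chi p ℝ 2 = ((quadraticChar (ZMod p) 2 : ℤ) : ℝ) := rfl
  -- the Gauss sum
  have hg2 := gs_sq hp2 (two_ne_zero : (2 : ℂ) ≠ 0) hψ
  rw [hep, one_mul] at hg2
  have hgcase : gs (ZMod.stdAddChar (N := p)) = ((Real.sqrt p : ℝ) : ℂ) ∨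
      gs (ZMod.stdAddChar (N := p)) = ((-Real.sqrt p : ℝ) : ℂ) := by
    have h4 : (((Real.sqrt p : ℝ)) : ℂ) * ((Real.sqrt p : ℝ) : ℂ) = (p : ℂ) := by
      exact_mod_cast hss
    have h5 : (gs (ZMod.stdAddChar (N := p)) - (Real.sqrt p : ℝ)) *
        (gs (ZMod.stdAddChar (N := p)) + (Real.sqrt p : ℝ)) = 0 := by
      linear_combination hg2 - h4
    rcases mul_eq_zero.mp h5 with h | h
    · left; linear_combination h
    · right; push_cast; linear_combination h
  have hloga : Real.log a + Real.log b = 2 * Real.log (Real.sqrt p) := by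
    have h7 : Real.log (a * b) = Real.log (Real.sqrt p * Real.sqrt p) := by rw [hab, hss]
    rw [Real.log_mul ha0.ne' hb0.ne', Real.log_mul hsp.ne' hsp.ne'] at h7
    linear_combination h7
  have hNr : ((2 - chi p ℝ 2) * (2 * classNumber K * Real.log e) : ℝ) = 2 * (N * Real.log e) := by
    rw [hN, hchi2]; push_cast; ring
  rcases hgcase with hg | hg
  · left
    rw [hg] at hL1
    have hL2 : R * Real.sqrt p = -S := by exact_mod_cast hL1
    have h6 : Real.log b - Real.log a = 2 * (N * Real.log e) := by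
      rw [hlog, ← hNr, ← hres]
      linear_combination (-(2 - chi p ℝ 2)) * hL2
    have hb' : b = Real.sqrt p * e ^ N := by
      apply Real.log_injOn_pos (Set.mem_Ioi.2 hb0) (Set.mem_Ioi.2 (by positivity))
      rw [Real.log_mul hsp.ne' hη0.ne', Real.log_zpow]
      linarith
    have ha' : a = Real.sqrt p / e ^ N := by
      rw [eq_div_iff hη0.ne']
      have h7 : a * (Real.sqrt p * e ^ N) = p := by rw [← hb']; exact hab
      have : (a * e ^ N) * Real.sqrt p = Real.sqrt p * Real.sqrt p := by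
        linear_combination h7 - hss
      exact mul_right_cancel₀ hsp.ne' this
    refine ⟨hg, ?_, ?_⟩
    · rw [hb, hb']
    · rw [ha, ha']
  · right
    rw [hg] at hL1
    have hL2 : R * -Real.sqrt p = -S := by exact_mod_cast hL1
    have h6 : Real.log a - Real.log b = 2 * (N * Real.log e) := by
      rw [← hNr, ← hres]
      linear_combination (-1 : ℝ) * hlog + ((2 - chi p ℝ 2)) * hL2
    have ha' : a = Real.sqrt p * e ^ N := by
      apply Real.log_injOn_pos (Set.mem_Ioi.2 ha0) (Set.mem_Ioi.2 (by positivity))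
      rw [Real.log_mul hsp.ne' hη0.ne', Real.log_zpow]
      linarith
    have hb' : b = Real.sqrt p / e ^ N := by
      rw [eq_div_iff hη0.ne']
      have h7 : (Real.sqrt p * e ^ N) * b = p := by rw [← ha']; exact hab
      have : (b * e ^ N) * Real.sqrt p = Real.sqrt p * Real.sqrt p := by
        linear_combination h7 - hss
      exact mul_right_cancel₀ hsp.ne' this
    refine ⟨hg, ?_, ?_⟩
    · rw [hb, hb']
    · rw [ha, ha']

end Pool.Agent.V11306.CnfF
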