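import Mathlib
import Pool.Agent.V11306.ToepP

/-!
# Complementary minors; the matrices `T + x J` for `p ≡ 3 (mod 4)`
-/

set_option autoImplicit false

namespace Pool.Agent.V11306.Toep

open Finset Polynomial Matrix

open Pool.Agent.Helper184

open Pool.Agent.Helper184.Chapman (chi chi_apply chi_sq chi_quad ext ext_val T T_map det_cast
  mulVec_eq det_unit sys_mod det_skew_nonneg chi_neg)

/-- Jacobi's identity for complementary principal minors -/
lemma jacobi {n α β R : Type*} [Fintype n] [DecidableEq n] [Fintype α] [DecidableEq α]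
    [Fintype β] [DecidableEq β] [CommRing R] (A B : Matrix n n R) (h : A * B = 1) (e : α ⊕ β ≃ n) :
    (A.submatrix (fun i => e (Sum.inl i)) (fun i => e (Sum.inl i))).det =
      A.det * (B.submatrix (fun i => e (Sum.inr i)) (fun i => e (Sum.inr i))).det := by
  set A' := A.submatrix e e with hA'
  set B' := B.submatrix e e with hB'
  have hAB : A' * B' = 1 := by
    rw [hA', hB', Matrix.submatrix_mul_equiv, h, Matrix.submatrix_one_equiv]
  have eA : A' = fromBlocks A'.toBlocks₁₁ A'.toBlocks₁₂ A'.toBlocks₂₁ A'.toBlocks₂₂ :=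
    (fromBlocks_toBlocks A').symm
  have eB : B' = fromBlocks B'.toBlocks₁₁ B'.toBlocks₁₂ B'.toBlocks₂₁ B'.toBlocks₂₂ :=
    (fromBlocks_toBlocks B').symm
  have h1 := hAB
  rw [eA, eB, fromBlocks_multiply, ← fromBlocks_one, fromBlocks_inj] at h1
  obtain ⟨-, h12, -, h22⟩ := h1
  have h3 : A' * fromBlocks 1 B'.toBlocks₁₂ 0 B'.toBlocks₂₂ =
      fromBlocks A'.toBlocks₁₁ 0 A'.toBlocks₂₁ 1 := by
    conv_lhs => rw [eA]
    rw [fromBlocks_multiply, h12, h22]
    simp
  have h4 := congrArg Matrix.det h3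
  rw [Matrix.det_mul, det_fromBlocks_zero₂₁, det_fromBlocks_zero₁₂, det_one, det_one, one_mul, mul_one,
    hA', Matrix.det_submatrix_equiv_self] at h4
  rw [← hA'] at h4
  have e1 : A'.toBlocks₁₁ = A.submatrix (fun i => e (Sum.inl i)) (fun i => e (Sum.inl i)) := rfl
  have e2 : B'.toBlocks₂₂ = B.submatrix (fun i => e (Sum.inr i)) (fun i => e (Sum.inr i)) := rfl
  rw [e1, e2] at h4
  exact h4.symm

variable {p : ℕ} [Fact p.Prime]

/-- systems over `ℤ` and over a field -/
lemma cast_sys {K : Type*} [Field K] (n : ℕ) (w : Fin n → ℤ) (r : ℕ → ℤ)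
    (h : ∀ i : Fin n, (T p ℤ n).mulVec w i = r i) :
    ∀ i ∈ range n, ∑ j ∈ range n, chi p K ((i : ZMod p) - (j : ZMod p)) * ((Chapman.ext w j : ℤ) : K)
      = (r i : K) := by
  intro i hi
  rw [Finset.mem_range] at hi
  have h1 := h ⟨i, hi⟩
  simp only [Matrix.mulVec, dotProduct, T, Matrix.of_apply, Int.cast_id] at h1
  rw [← Fin.sum_univ_eq_sum_range
    (fun j => chi p K ((i : ZMod p) - (j : ZMod p)) * ((Chapman.ext w j : ℤ) : K))]
  have h2 := congrArg (Int.cast : ℤ → K) h1
  push_cast at h2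
  rw [← h2]
  refine Finset.sum_congr rfl fun j _ => ?_
  rw [ext_val, chi_apply]

section three

variable (h3 : p % 4 = 3) (m : ℕ) (hm : p = 2 * m + 1)

include h3 in
lemma ep_three (K : Type*) [Field K] : ep p K = -1 := by
  rw [ep, chi_neg h3]; simp

include h3 in
lemma T_skew (n : ℕ) (i j : Fin n) : T p ℤ n i j = - T p ℤ n j i := by
  have := chi_neg (K := ℚ) h3 (((j : ℕ) : ZMod p) - ((i : ℕ) : ZMod p))
  rw [neg_sub, chi_apply, chi_apply] at this
  simp only [T, Matrix.of_apply, Int.cast_id]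
  exact_mod_cast this

include h3 hm in
lemma T_det : (T p ℤ (m + 1)).det = 1 := by
  have habs : (T p ℤ (m + 1)).det.natAbs = 1 :=
    det_unit (m + 1) (fun l _ v hv => sys_mod h3 m hm l v hv)
  have hnn : 0 ≤ (T p ℤ (m + 1)).det := by
    have h := det_skew_nonneg (T p ℝ (m + 1)) (by
      ext i j
      have := chi_neg (K := ℝ) h3 (((i : ℕ) : ZMod p) - ((j : ℕ) : ZMod p))
      rw [neg_sub, chi_apply, chi_apply] at this
      simpa [T] using this)
    rw [← det_cast] at h
    exact_mod_cast h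
  omega

/-- the inverse of `T` -/
noncomputable def N (p : ℕ) [Fact p.Prime] (m : ℕ) : Matrix (Fin (m + 1)) (Fin (m + 1)) ℤ :=
  (T p ℤ (m + 1))⁻¹

/-- the solution of `T u = 1` -/
noncomputable def uu (p : ℕ) [Fact p.Prime] (m : ℕ) : Fin (m + 1) → ℤ := fun i => ∑ j, N p m i j

include h3 hm in
lemma T_mul_N : T p ℤ (m + 1) * N p m = 1 := by
  rw [N, Matrix.mul_nonsing_inv]
  rw [T_det h3 m hm]; exact isUnit_one

include h3 hm in
lemma N_mul_T : N p m * T p ℤ (m + 1) = 1 := by
  rw [N, Matrix.nonsing_inv_mul]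
  rw [T_det h3 m hm]; exact isUnit_one

include h3 hm in
lemma N_skew (i j : Fin (m + 1)) : N p m i j = - N p m j i := by
  have h1 : (-(N p m).transpose) * T p ℤ (m + 1) = 1 := by
    have e : T p ℤ (m + 1) = - (T p ℤ (m + 1)).transpose := by
      ext i j
      rw [Matrix.neg_apply, Matrix.transpose_apply]
      exact T_skew h3 _ i j
    rw [e, neg_mul_neg, ← Matrix.transpose_mul, T_mul_N h3 m hm, Matrix.transpose_one]
  have h2 : N p m = -(N p m).transpose := by
    rw [N]; exact Matrix.inv_eq_left_inv h1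
  have := congrFun (congrFun h2 i) j
  rwa [Matrix.neg_apply, Matrix.transpose_apply] at this

include h3 hm in
lemma T_uu (i : Fin (m + 1)) : ∑ j, T p ℤ (m + 1) i j * uu p m j = 1 := by
  simp only [uu, Finset.mul_sum]
  rw [Finset.sum_comm]
  have : ∀ k, ∑ j, T p ℤ (m + 1) i j * N p m j k = if i = k then 1 else 0 := by
    intro k
    have := congrFun (congrFun (T_mul_N h3 m hm) i) k
    rwa [Matrix.mul_apply, Matrix.one_apply] at this
  rw [Finset.sum_congr rfl (fun k _ => this k)]
  simp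

include h3 hm in
lemma sum_N (k : Fin (m + 1)) : ∑ j, N p m j k = - uu p m k := by
  rw [uu, ← Finset.sum_neg_distrib]
  exact Finset.sum_congr rfl fun j _ => N_skew h3 m hm j k

include h3 hm in
lemma sum_uu : ∑ j, uu p m j = 0 := by
  have h0 : ∑ i, ∑ j, N p m i j = ∑ j, ∑ i, N p m i j := Finset.sum_comm
  have h1 : ∑ i, ∑ j, N p m i j = - ∑ i, ∑ j, N p m i j := by
    refine h0.trans ?_
    rw [← Finset.sum_neg_distrib]
    refine Finset.sum_congr rfl fun i _ => ?_
    rw [← Finset.sum_neg_distrib]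
    exact Finset.sum_congr rfl fun j _ => N_skew h3 m hm j i
  simp only [uu]
  omega

include h3 hm in
lemma AB (x : ℤ) : (Matrix.of fun i j => T p ℤ (m + 1) i j + x) *
    (Matrix.of fun i j => N p m i j + x * (uu p m i * uu p m j)) = 1 := by
  ext i k
  rw [Matrix.mul_apply, Matrix.one_apply]
  have e : ∀ j, (Matrix.of fun i j => T p ℤ (m + 1) i j + x) i j *
      (Matrix.of fun i j => N p m i j + x * (uu p m i * uu p m j)) j k =
      T p ℤ (m + 1) i j * N p m j k + (x * uu p m k) * (T p ℤ (m + 1) i j * uu p m j) +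
        x * N p m j k + x * x * uu p m k * uu p m j := by
    intro j
    rw [Matrix.of_apply, Matrix.of_apply]; ring
  rw [Finset.sum_congr rfl (fun j _ => e j)]
  simp only [Finset.sum_add_distrib, ← Finset.mul_sum]
  rw [T_uu h3 m hm, sum_N h3 m hm, sum_uu h3 m hm]
  have h1 := congrFun (congrFun (T_mul_N h3 m hm) i) k
  rw [Matrix.mul_apply, Matrix.one_apply] at h1
  rw [h1]
  ring

include h3 hm in
lemma A_det (x : ℤ) : (Matrix.of fun i j => T p ℤ (m + 1) i j + x).det = 1 := by
  have h1 : (Matrix.of fun i j => T p ℤ (m + 1) i j + x) = T p ℤ (m + 1) *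
      (1 + Matrix.replicateCol Unit (uu p m) * Matrix.replicateRow Unit (fun _ => x)) := by
    ext i k
    rw [Matrix.mul_add, Matrix.mul_one, Matrix.add_apply, Matrix.of_apply, Matrix.mul_apply]
    congr 1
    simp only [Matrix.mul_apply, Matrix.replicateCol_apply, Matrix.replicateRow_apply,
      Finset.univ_unique, Finset.sum_singleton]
    refine Eq.trans (b := ∑ j, T p ℤ (m + 1) i j * uu p m j * x) ?_ ?_
    · rw [← Finset.sum_mul, T_uu h3 m hm, one_mul]
    · exact Finset.sum_congr rfl fun j _ => by ring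
  rw [h1, Matrix.det_mul, T_det h3 m hm, one_mul, Matrix.det_one_add_replicateCol_mul_replicateRow]
  simp only [dotProduct]
  rw [← Finset.mul_sum, sum_uu h3 m hm]
  simp

/-- the analytic information on `uu` and the first column of `N` -/
theorem values (h3 : p % 4 = 3) (m : ℕ) (hm : p = 2 * m + 1) :
    ∃ β : ℂ, β * β = 1 ∧ ((uu p m 0 : ℤ) : ℂ) = -β ∧
      ((Chapman.ext (uu p m) m : ℤ) : ℂ) = β ∧
      (2 ≤ m → ((Chapman.ext (uu p m) (m - 1) : ℤ) : ℂ) * 2 = β * (1 - p)) ∧
      ((Chapman.ext (fun i => N p m i 0) 1 : ℤ) : ℂ) = chi p ℂ 2 ∧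
      ((Chapman.ext (fun i => N p m i 0) m : ℤ) : ℂ) = chi p ℂ 2 ∧
      (3 ≤ m → ((Chapman.ext (fun i => N p m i 0) (m - 1) : ℤ) : ℂ) * 6 =
        chi p ℂ 2 * (3 - p + 2 * chi p ℂ 3)) := by
  have hp := (Fact.out : p.Prime).two_le
  have hp2 : p ≠ 2 := by omega
  have hm1 : 1 ≤ m := by omega
  have h2 : (2 : ℂ) ≠ 0 := two_ne_zero
  have hp0 : (p : ℂ) ≠ 0 := by exact_mod_cast (by omega : p ≠ 0)
  have hε := ep_three h3 ℂ
  set ψ : AddChar (ZMod p) ℂ := ZMod.stdAddChar with hψd
  have hψ : ψ.IsPrimitive := ZMod.isPrimitive_stdAddChar p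
  have hg2 := gs_sq hp2 h2 hψ
  have hP1 := PP_mul hp2 hψ m hm
  have hP2 := PP_neg_one hp2 hε ψ m hm
  have hc2 : chi p ℂ 2 * chi p ℂ 2 = 1 := chi_sq (two_ne hp2)
  set g := gs ψ with hg
  set κ := kap ψ with hκ
  have hκg : κ * g = chi p ℂ 2 := by
    rw [hκ, kap, ← hg, hε]
    rw [hε] at hg2
    field_simp
    linear_combination (-chi p ℂ 2) * hg2
  have hκ2 : κ * κ * p = -1 := by
    have h4 : κ * κ * p * p = -(p : ℂ) := by
      rw [hκ, kap, ← hg, hε]
      rw [hε] at hg2
      field_simp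
      linear_combination (chi p ℂ 2 ^ 2) * hg2 - (p : ℂ) * hc2
    apply mul_right_cancel₀ hp0
    linear_combination h4
  rw [hP2] at hP1
  have hPne : (PP ψ).eval 1 ≠ 0 := by
    intro h
    rw [h] at hP1
    apply hp0
    rw [← hP1]; ring
  have hPtop := PP_top ψ m hm
  have hP0 := PP_zero hp2 ψ m hm
  rw [hε] at hP0
  -- the vector `uu`
  obtain ⟨β, b0, b1, b2⟩ := core2 m hm h2 hp0 ψ hψ (fun j => ((Chapman.ext (uu p m) j : ℤ) : ℂ)) 0 1
    (by
      intro i hi
      have := cast_sys (K := ℂ) (m + 1) (uu p m) (fun _ => 1) (fun i => T_uu h3 m hm i) i hi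
      rw [this]; simp)
  simp only [zero_mul, sub_zero, mul_one] at b1 b2
  rw [hP2] at b2
  have hβ : β * (PP ψ).eval 1 = κ * p := by
    have : 2 * (β * (PP ψ).eval 1) = 2 * (κ * p) := by linear_combination b2
    exact mul_left_cancel₀ h2 this
  have hβ2 : β * β = 1 := by
    have h5 : β * β * ((PP ψ).eval 1 * (PP ψ).eval 1) = κ * κ * p * p := by
      linear_combination (β * (PP ψ).eval 1 + κ * p) * hβ
    rw [hκ2] at h5
    have h6 : β * β * (-(p : ℂ)) = 1 * (-(p : ℂ)) := by
      linear_combination h5 + β * β * hP1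
    exact mul_right_cancel₀ (neg_ne_zero.mpr hp0) h6
  have hu0 : ((uu p m 0 : ℤ) : ℂ) = -β := by
    have e : Chapman.ext (uu p m) 0 = uu p m 0 := by
      simp [Chapman.ext]
    rw [e, hP0] at b0
    linear_combination b0
  -- the first column
  obtain ⟨γ, c0, c1, c2⟩ := core2 m hm h2 hp0 ψ hψ
    (fun j => ((Chapman.ext (fun i => N p m i 0) j : ℤ) : ℂ)) 1 0
    (by
      intro i hi
      have := cast_sys (K := ℂ) (m + 1) (fun i => N p m i 0) (fun i => if i = 0 then 1 else 0) (by
        intro i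
        have := congrFun (congrFun (T_mul_N h3 m hm) i) 0
        rw [Matrix.mul_apply, Matrix.one_apply] at this
        simp only [Matrix.mulVec, dotProduct]
        rw [this]
        by_cases hi : i = 0
        · subst hi; rfl
        · rw [if_neg hi, if_neg (fun h : (i : ℕ) = 0 => hi (Fin.ext h))]) i hi
      rw [this]
      simp only [add_zero]
      split_ifs <;> simp)
  simp only [one_mul, mul_zero, zero_mul] at c1 c2
  rw [hP2] at c2
  have hγ : γ = 0 := by
    have : 2 * (γ * (PP ψ).eval 1) = 0 := by linear_combination c2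
    rcases mul_eq_zero.mp this with h | h
    · exact absurd h h2
    · rcases mul_eq_zero.mp h with h | h
      · exact h
      · exact absurd h hPne
  refine ⟨β, hβ2, hu0, ?_, ?_, ?_, ?_, ?_⟩
  · have := b1 (m - 1) (by rw [Finset.mem_range]; omega)
    rw [show m - 1 + 1 = m by omega, show 2 * (m - 1) + 2 = 2 * m by omega, hPtop] at this
    rw [this, mul_one]
  · intro hm2
    have := b1 (m - 2) (by rw [Finset.mem_range]; omega)
    rw [show m - 2 + 1 = m - 1 by omega, show 2 * (m - 2) + 2 = 2 * m - 2 by omega] at this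
    rw [this]
    have h7 := PP_c2 hp2 h2 hψ m hm hm1
    rw [hε] at h7
    linear_combination β * h7
  · have := c1 0 (by rw [Finset.mem_range]; omega)
    rw [hγ] at this
    simp only [zero_add, mul_zero, zero_mul, zero_sub] at this
    rw [this, PP_one_coeff hp2 ψ m hm, ← hg]
    linear_combination hκg
  · have := c1 (m - 1) (by rw [Finset.mem_range]; omega)
    rw [show m - 1 + 1 = m by omega, show 2 * (m - 1) + 1 = 2 * m - 1 by omega,
      PP_c1 ψ m hm hm1, hγ] at this
    rw [this, ← hg]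
    linear_combination hκg
  · intro hm3
    have := c1 (m - 2) (by rw [Finset.mem_range]; omega)
    rw [show m - 2 + 1 = m - 1 by omega, show 2 * (m - 2) + 1 = 2 * m - 3 by omega, hγ] at this
    rw [this]
    have h7 := PP_c3 hp2 h2 hψ m hm (by omega)
    rw [hε, ← hg] at h7
    linear_combination (-κ) * h7 + (3 - (p : ℂ) + 2 * chi p ℂ 3) * hκg

end three

end Pool.Agent.V11306.Toep
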