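import Mathlib
import Pool.Agent.V11306.ToepM
import Pool.Agent.V11306.CnfF

/-!
# The Toeplitz matrices for `p ≡ 1 (mod 4)`: arithmetic of the determinants
-/

set_option autoImplicit false

namespace Pool.Agent.V11306.Toep

open Finset Polynomial Matrix

open Pool.Agent.Helper184

open Pool.Agent.Helper184.Chapman (chi chi_apply chi_sq chi_quad ext ext_val T T_map det_cast
  mulVec_eq)

variable {p : ℕ} [Fact p.Prime]

/-- `∏ C(m,k) * sf(m)^2 = (m!)^(m+1)` -/
lemma prod_choose (m : ℕ) :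
    (∏ k ∈ range (m + 1), m.choose k) * m.superFactorial * m.superFactorial =
      m.factorial ^ (m + 1) := by
  have h1 : ∏ k ∈ range (m + 1), k.factorial = m.superFactorial :=
    Nat.prod_range_succ_factorial m
  have h2 : ∏ k ∈ range (m + 1), (m - k).factorial = m.superFactorial := by
    rw [← h1, ← Finset.prod_range_reflect]
    refine Finset.prod_congr rfl fun k hk => ?_
    rw [Finset.mem_range] at hk
    congr 1
    omega
  have h3 : ∏ k ∈ range (m + 1), (m.choose k * k.factorial * (m - k).factorial) =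
      m.factorial ^ (m + 1) := by
    rw [Finset.prod_congr rfl (fun k hk => Nat.choose_mul_factorial_mul_factorial
      (by rw [Finset.mem_range] at hk; omega)), Finset.prod_const, Finset.card_range]
  rw [Finset.prod_mul_distrib, Finset.prod_mul_distrib, h1, h2] at h3
  exact h3

/-- determinant of `((i-j)^m)` -/
lemma det_pow_sub {R : Type*} [CommRing R] (m : ℕ) :
    (Matrix.of fun i j : Fin (m + 1) => (((i : ℕ) : R) - ((j : ℕ) : R)) ^ m).det =
      (m.factorial : R) ^ (m + 1) := by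
  have h1 : (Matrix.of fun i j : Fin (m + 1) => (((i : ℕ) : R) - ((j : ℕ) : R)) ^ m) =
      vandermonde (fun i : Fin (m + 1) => ((i : ℕ) : R)) *
        (projVandermonde (1 : Fin (m + 1) → R) (fun j => -((j : ℕ) : R)) *
          Matrix.diagonal (fun k : Fin (m + 1) => ((m.choose k : ℕ) : R))).transpose := by
    ext i j
    rw [Matrix.mul_apply, Matrix.of_apply, sub_eq_add_neg, add_pow, ← Fin.sum_univ_eq_sum_range
      (fun k => ((i : ℕ) : R) ^ k * (-((j : ℕ) : R)) ^ (m - k) * (m.choose k : R))]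
    refine Finset.sum_congr rfl fun k _ => ?_
    rw [Matrix.transpose_apply, Matrix.mul_diagonal, projVandermonde, rectVandermonde,
      Matrix.of_apply, vandermonde, Matrix.of_apply, Fin.val_rev]
    simp only [Pi.one_apply, one_pow, one_mul]
    rw [show m + 1 - ((k : ℕ) + 1) = m - k by omega]
    ring
  have hV : (vandermonde (fun i : Fin (m + 1) => ((i : ℕ) : R))).det = (m.superFactorial : R) := by
    have := det_vandermonde_id_eq_superFactorial (R := R) m
    exact_mod_cast this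
  have hP : (projVandermonde (1 : Fin (m + 1) → R) (fun j => -((j : ℕ) : R))).det =
      (m.superFactorial : R) := by
    rw [← hV, det_projVandermonde, det_vandermonde]
    refine Finset.prod_congr rfl fun i _ => Finset.prod_congr rfl fun j _ => ?_
    simp only [Pi.one_apply]
    ring
  have hD : (Matrix.diagonal (fun k : Fin (m + 1) => ((m.choose k : ℕ) : R))).det =
      ((∏ k ∈ range (m + 1), m.choose k : ℕ) : R) := by
    rw [Matrix.det_diagonal, Nat.cast_prod, Fin.prod_univ_eq_prod_range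
      (fun k => ((m.choose k : ℕ) : R))]
  rw [h1, Matrix.det_mul, Matrix.det_transpose, Matrix.det_mul, hV, hP, hD, ← Nat.cast_pow,
    ← prod_choose]
  push_cast
  ring

lemma chi_pow (hp2 : p ≠ 2) (m : ℕ) (hm : p = 2 * m + 1) (a : ZMod p) :
    ((quadraticChar (ZMod p) a : ℤ) : ZMod p) = a ^ m := by
  rw [quadraticChar_eq_pow_of_char_ne_two' (by rw [ZMod.ringChar_zmod_n]; exact hp2), ZMod.card]
  congr 1
  omega

/-- `det T_{m+1}` modulo `p` -/
lemma T_det_mod (hp2 : p ≠ 2) (m : ℕ) (hm : p = 2 * m + 1) :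
    (((T p ℤ (m + 1)).det : ℤ) : ZMod p) = (m.factorial : ZMod p) ^ (m + 1) := by
  rw [← det_pow_sub (R := ZMod p) m, Int.cast_det]
  congr 1
  ext i j
  rw [Matrix.map_apply, T, Matrix.of_apply, Matrix.of_apply,
    Int.cast_id, chi_pow hp2 m hm]

/-- Wilson -/
lemma fact_sq (m : ℕ) (hm : p = 2 * m + 1) :
    (-1 : ZMod p) ^ m * ((m.factorial : ZMod p) * (m.factorial : ZMod p)) = -1 := by
  have h1 := CnfF.prod_pair (p := p) m hm (fun k : ZMod p => k)
  have h2 : ∏ k ∈ univ.erase (0 : ZMod p), k = -1 := by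
    have h := FiniteField.prod_univ_units_id_eq_neg_one (K := ZMod p)
    have h2 : (∏ x : (ZMod p)ˣ, (x : ZMod p)) = -1 := by
      rw [← Units.coe_prod, h]; simp
    rw [← h2]
    symm
    apply Finset.prod_bij (fun (x : (ZMod p)ˣ) _ => (x : ZMod p))
    · intro a _; simp
    · intro a _ b _ hab; exact Units.ext hab
    · intro b hb
      exact ⟨Units.mk0 b (by simpa using hb), by simp, rfl⟩
    · intro a _; rfl
  rw [h2] at h1
  refine Eq.trans ?_ h1.symm
  have h3 : ∏ j ∈ range m, ((((j + 1 : ℕ)) : ZMod p) * -((j + 1 : ℕ) : ZMod p)) =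
      ∏ j ∈ range m, ((-1 : ZMod p) * ((((j + 1 : ℕ)) : ZMod p) * ((j + 1 : ℕ) : ZMod p))) :=
    Finset.prod_congr rfl fun j _ => by ring
  rw [h3, Finset.prod_mul_distrib, Finset.prod_mul_distrib, Finset.prod_const, Finset.card_range,
    ← Nat.cast_prod, Finset.prod_range_add_one_eq_factorial]

/-- the sign `χ(2)` -/
lemma two_sign (h1 : p % 4 = 1) (m : ℕ) (hm : p = 2 * m + 1) :
    quadraticChar (ZMod p) 2 = (-1) ^ (m / 2) := by
  have hp2 : p ≠ 2 := by rintro rfl; omega
  rw [quadraticChar_two (by rw [ZMod.ringChar_zmod_n]; exact hp2), ZMod.card,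
    ZMod.χ₈_nat_eq_if_mod_eight]
  have : p % 8 = 1 ∨ p % 8 = 5 := by omega
  rcases this with h | h
  · rw [if_neg (by omega), if_pos (Or.inl h)]
    have : Even (m / 2) := by rw [Nat.even_iff]; omega
    rw [this.neg_one_pow]
  · rw [if_neg (by omega), if_neg (by omega)]
    have : Odd (m / 2) := by rw [Nat.odd_iff]; omega
    rw [this.neg_one_pow]

/-- `det T_{m+1} ≡ χ(2) m!` -/
lemma T_det_mod' (h1 : p % 4 = 1) (m : ℕ) (hm : p = 2 * m + 1) :
    (((T p ℤ (m + 1)).det : ℤ) : ZMod p) =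
      ((quadraticChar (ZMod p) 2 : ℤ) : ZMod p) * (m.factorial : ZMod p) := by
  have hp2 : p ≠ 2 := by rintro rfl; omega
  rw [T_det_mod hp2 m hm, two_sign h1 m hm]
  have h2 := fact_sq (p := p) m hm
  have he : Even m := by rw [Nat.even_iff]; omega
  rw [he.neg_one_pow, one_mul] at h2
  obtain ⟨k, hk⟩ := he
  have hk2 : m / 2 = k := by omega
  rw [hk2, pow_succ]
  have : (m.factorial : ZMod p) ^ m = (-1) ^ k := by
    conv_lhs => rw [hk, pow_add, ← mul_pow, ← hk, h2]
  rw [this]
  push_cast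
  ring

lemma fact_ne (m : ℕ) (hm : p = 2 * m + 1) : (m.factorial : ZMod p) ≠ 0 := by
  intro h
  have := fact_sq (p := p) m hm
  rw [h] at this
  simp at this

lemma T_det_ne_mod (hp2 : p ≠ 2) (m : ℕ) (hm : p = 2 * m + 1) :
    (((T p ℤ (m + 1)).det : ℤ) : ZMod p) ≠ 0 := by
  rw [T_det_mod hp2 m hm]
  exact pow_ne_zero _ (fact_ne m hm)

/-- entries modulo 2 -/
lemma T_mod_two (m : ℕ) (hm : p = 2 * m + 1) (n : ℕ) (hn : n ≤ m + 1) (i j : Fin n) :
    ((T p ℤ n i j : ℤ) : ZMod 2) = if i = j then 0 else 1 := by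
  simp only [T, Matrix.of_apply, Int.cast_id]
  split_ifs with hij
  · subst hij; rw [sub_self, MulChar.map_zero]; rfl
  · have hne : ((i : ℕ) : ZMod p) - ((j : ℕ) : ZMod p) ≠ 0 := by
      intro h
      apply hij
      have h := sub_eq_zero.mp h
      have := congrArg ZMod.val h
      rw [ZMod.val_natCast_of_lt (by omega), ZMod.val_natCast_of_lt (by omega)] at this
      exact Fin.ext this
    rcases quadraticChar_dichotomy hne with h | h
    · rw [h]; simp
    · rw [h]; decide

lemma T_det_even (h1 : p % 4 = 1) (m : ℕ) (hm : p = 2 * m + 1) :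
    (((T p ℤ (m + 1)).det : ℤ) : ZMod 2) = 0 := by
  have hp2 : p ≠ 2 := by rintro rfl; omega
  rw [Int.cast_det, ← Matrix.exists_mulVec_eq_zero_iff]
  refine ⟨fun _ => 1, ?_, ?_⟩
  · intro h
    exact one_ne_zero (congrFun h 0)
  · ext i
    simp only [Matrix.mulVec, dotProduct, mul_one, Pi.zero_apply, Matrix.map_apply]
    rw [Finset.sum_congr rfl (fun j _ => T_mod_two m hm (m + 1) le_rfl i j)]
    have : ∀ j : Fin (m + 1), (if i = j then (0 : ZMod 2) else 1) = 1 - if i = j then 1 else 0 := by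
      intro j; split_ifs <;> simp
    rw [Finset.sum_congr rfl (fun j _ => this j), Finset.sum_sub_distrib]
    simp only [Finset.sum_const, Finset.card_univ, Fintype.card_fin, Finset.sum_ite_eq,
      Finset.mem_univ, if_true, nsmul_eq_mul, mul_one]
    push_cast
    have hm2 : ((m : ℕ) : ZMod 2) = 0 := by
      rw [ZMod.natCast_eq_zero_iff]; omega
    rw [hm2]; ring

lemma T_det_odd (h1 : p % 4 = 1) (m : ℕ) (hm : p = 2 * m + 1) :
    (((T p ℤ m).det : ℤ) : ZMod 2) ≠ 0 := by
  have hp2 : p ≠ 2 := by rintro rfl; omega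
  intro h0
  rw [Int.cast_det, ← Matrix.exists_mulVec_eq_zero_iff] at h0
  obtain ⟨v, hv0, hv⟩ := h0
  have h2 : ∀ i, v i = ∑ j, v j := by
    intro i
    have h3 := congrFun hv i
    simp only [Matrix.mulVec, dotProduct, Pi.zero_apply, Matrix.map_apply] at h3
    rw [Finset.sum_congr rfl (fun j _ => by rw [T_mod_two m hm m (by omega) i j])] at h3
    have : ∀ j : Fin m, (if i = j then (0 : ZMod 2) else 1) * v j =
        v j - if i = j then v j else 0 := by
      intro j; split_ifs <;> simp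
    rw [Finset.sum_congr rfl (fun j _ => this j), Finset.sum_sub_distrib] at h3
    simp only [Finset.sum_ite_eq, Finset.mem_univ, if_true] at h3
    linear_combination -h3
  have h4 : ∑ i, v i = ∑ _i : Fin m, ∑ j, v j := Finset.sum_congr rfl fun i _ => h2 i
  have hm2 : ((m : ℕ) : ZMod 2) = 0 := by
    rw [ZMod.natCast_eq_zero_iff]; omega
  rw [Finset.sum_const, Finset.card_univ, Fintype.card_fin, nsmul_eq_mul, hm2, zero_mul] at h4
  apply hv0
  ext i
  rw [h2 i, h4]; rfl

/-- the kernel over a field: one dimensional at most -/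
lemma ker_field {F : Type*} [Field F] (hep : ep p F = 1) (m : ℕ) (hm : p = 2 * m + 1)
    (h2 : (2 : F) ≠ 0) (hpF : (p : F) ≠ 0) (v : ℕ → F)
    (hv : ∀ i ∈ range (m + 1),
      ∑ j ∈ range (m + 1), chi p F ((i : ZMod p) - (j : ZMod p)) * v j = 0) (hv0 : v 0 = 0) :
    ∀ j ∈ range (m + 1), v j = 0 := by
  have hp : p.Prime := Fact.out
  have hp2 : p ≠ 2 := by
    rintro rfl; omega
  let pp : ℕ+ := ⟨p, hp.pos⟩
  have hpp : ((pp : ℕ) : F) ≠ 0 := hpF
  let Ψ := AddChar.primitiveZModChar pp F hpp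
  let L := CyclotomicField Ψ.n F
  let f : F →+* L := algebraMap F L
  have hf : Function.Injective f := f.injective
  have h2L : (2 : L) ≠ 0 := by
    intro h
    apply h2
    apply hf
    rw [map_zero, ← h]
    exact map_ofNat f 2
  have hpL : (p : L) ≠ 0 := by
    intro h
    apply hpF
    apply hf
    rw [map_zero, ← h]
    exact map_natCast f p
  set ψ : AddChar (ZMod p) L := Ψ.char with hψd
  have hψ : ψ.IsPrimitive := Ψ.prim
  obtain ⟨β, b0, b1, -⟩ := core2 (p := p) (K := L) m hm h2L hpL ψ hψ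
    (fun j => f (v j)) 0 0 (by
      intro i hi
      have h := congrArg f (hv i hi)
      rw [map_sum] at h
      have e : ∀ j ∈ range (m + 1), f (chi p F ((i : ZMod p) - (j : ZMod p)) * v j) =
          chi p L ((i : ZMod p) - (j : ZMod p)) * f (v j) := by
        intro j _
        rw [map_mul, Chapman.chi_map]
      rw [Finset.sum_congr rfl e] at h
      rw [h, map_zero]; simp)
  have hepL : ep p L = 1 := by
    have := congrArg f hep
    rw [ep, Chapman.chi_map, map_one] at this
    exact this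
  have hP0 := PP_zero hp2 ψ m hm
  have hβ : β = 0 := by
    have : f (v 0) = β * (PP ψ).coeff 0 := b0
    rw [hv0, map_zero, hP0, hepL, mul_one] at this
    exact this.symm
  intro j hj
  apply hf
  rw [map_zero]
  rcases j with _ | j
  · have : f (v 0) = β * (PP ψ).coeff 0 := b0
    rw [this, hβ, zero_mul]
  · have := b1 j (by rw [Finset.mem_range] at hj ⊢; omega)
    rw [this, hβ]; ring

/-- `T_m` is the minor of `T_{m+1}` without row and column `0` -/
lemma T_succ (n : ℕ) (i j : Fin n) : T p ℤ (n + 1) i.succ j.succ = T p ℤ n i j := by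
  have e : ((i.succ : ℕ) : ZMod p) - ((j.succ : ℕ) : ZMod p) =
      ((i : ℕ) : ZMod p) - ((j : ℕ) : ZMod p) := by
    rw [Fin.val_succ, Fin.val_succ]; push_cast; ring
  simp only [T, Matrix.of_apply]
  rw [e]

lemma T_sym (h1 : p % 4 = 1) (n : ℕ) (i j : Fin n) : T p ℤ n i j = T p ℤ n j i := by
  simp only [T, Matrix.of_apply]
  rw [← neg_sub, neg_eq_neg_one_mul, map_mul]
  have : quadraticChar (ZMod p) (-1) = 1 := by
    have := CnfD.ez_one h1
    rwa [CnfD.ez] at this
  rw [this, one_mul]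

/-- a prime does not divide both determinants -/
lemma T_coprime_prime (h1 : p % 4 = 1) (m : ℕ) (hm : p = 2 * m + 1) (l : ℕ) (hl : l.Prime)
    (d1 : (l : ℤ) ∣ (T p ℤ (m + 1)).det) (d0 : (l : ℤ) ∣ (T p ℤ m).det) : False := by
  have : Fact l.Prime := ⟨hl⟩
  have hp : p.Prime := Fact.out
  have hp2 : p ≠ 2 := by rintro rfl; omega
  by_cases hl2 : l = 2
  · subst hl2
    apply T_det_odd h1 m hm
    exact (ZMod.intCast_zmod_eq_zero_iff_dvd _ 2).mpr d0
  by_cases hlp : l = p
  · subst hlp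
    apply T_det_ne_mod hp2 m hm
    exact (ZMod.intCast_zmod_eq_zero_iff_dvd _ l).mpr d1
  have h2 : (2 : ZMod l) ≠ 0 := two_ne hl2
  have hpl : (p : ZMod l) ≠ 0 := by
    intro h
    rw [ZMod.natCast_eq_zero_iff] at h
    exact hlp ((Nat.prime_dvd_prime_iff_eq hl hp).mp h)
  have hep : ep p (ZMod l) = 1 := by
    rw [CnfD.ep_eq, CnfD.ez_one h1]; simp
  have e1 : (((T p ℤ (m + 1)).det : ℤ) : ZMod l) = 0 :=
    (ZMod.intCast_zmod_eq_zero_iff_dvd _ l).mpr d1
  have e0 : (((T p ℤ m).det : ℤ) : ZMod l) = 0 :=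
    (ZMod.intCast_zmod_eq_zero_iff_dvd _ l).mpr d0
  rw [Int.cast_det, ← Matrix.exists_mulVec_eq_zero_iff] at e1 e0
  obtain ⟨v, hv0, hv⟩ := e1
  obtain ⟨w, hw0, hw⟩ := e0
  -- the sums as range sums
  have key : ∀ z : Fin (m + 1) → ZMod l,
      (∀ i : Fin (m + 1), ∑ j, ((T p ℤ (m + 1) i j : ℤ) : ZMod l) * z j = 0) → z 0 = 0 → z = 0 := by
    intro z hz hz0
    have := ker_field (F := ZMod l) hep m hm h2 hpl (fun j => if h : j < m + 1 then z ⟨j, h⟩ else 0) (by
      intro i hi
      rw [Finset.mem_range] at hi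
      have h3 := hz ⟨i, hi⟩
      rw [← Fin.sum_univ_eq_sum_range (fun j => chi p (ZMod l) ((i : ZMod p) - (j : ZMod p)) *
        (if h : j < m + 1 then z ⟨j, h⟩ else 0))]
      refine Eq.trans ?_ h3
      refine Finset.sum_congr rfl fun j _ => ?_
      rw [dif_pos j.2]
      rfl) (by simpa using hz0)
    ext j
    have h4 := this j (by rw [Finset.mem_range]; exact j.2)
    rw [dif_pos j.2] at h4
    simpa using h4
  have hv1 : v 0 ≠ 0 := by
    intro h0
    apply hv0
    apply key v _ h0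
    intro i
    exact congrFun hv i
  -- extend `w` by zero
  set w' : Fin (m + 1) → ZMod l := Fin.cons 0 w with hw'
  set c : ZMod l := ∑ j, ((T p ℤ (m + 1) 0 j : ℤ) : ZMod l) * w' j with hc
  have hsucc : ∀ i : Fin m, ∑ j, ((T p ℤ (m + 1) i.succ j : ℤ) : ZMod l) * w' j = 0 := by
    intro i
    rw [Fin.sum_univ_succ, hw', Fin.cons_zero, mul_zero, zero_add]
    refine Eq.trans ?_ (congrFun hw i)
    refine Finset.sum_congr rfl fun j _ => ?_
    rw [T_succ, Fin.cons_succ]
    rfl
  have hpair : v 0 * c = 0 := by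
    have h5 : ∑ i, v i * ∑ j, ((T p ℤ (m + 1) i j : ℤ) : ZMod l) * w' j = v 0 * c := by
      rw [Fin.sum_univ_succ, ← hc]
      rw [Finset.sum_eq_zero (fun i _ => by rw [hsucc i, mul_zero]), add_zero]
    have h6 : ∑ i, v i * ∑ j, ((T p ℤ (m + 1) i j : ℤ) : ZMod l) * w' j =
        ∑ j, w' j * ∑ i, ((T p ℤ (m + 1) j i : ℤ) : ZMod l) * v i := by
      simp only [Finset.mul_sum]
      rw [Finset.sum_comm]
      refine Finset.sum_congr rfl fun j _ => Finset.sum_congr rfl fun i _ => ?_
      rw [T_sym h1 (m + 1) i j]; ring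
    rw [← h5, h6]
    apply Finset.sum_eq_zero
    intro j _
    have := congrFun hv j
    have h7 : ∑ i, ((T p ℤ (m + 1) j i : ℤ) : ZMod l) * v i = 0 := this
    rw [h7, mul_zero]
  have hc0 : c = 0 := by
    rcases mul_eq_zero.mp hpair with h | h
    · exact absurd h hv1
    · exact h
  have hw1 : w' = 0 := by
    apply key w' _ (by rw [hw', Fin.cons_zero])
    intro i
    refine Fin.cases ?_ (fun i => ?_) i
    · exact hc0
    · exact hsucc i
  apply hw0
  ext i
  have := congrFun hw1 i.succ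
  rw [hw', Fin.cons_succ] at this
  exact this

lemma T_coprime (h1 : p % 4 = 1) (m : ℕ) (hm : p = 2 * m + 1) :
    IsCoprime (T p ℤ (m + 1)).det (T p ℤ m).det := by
  rw [Int.isCoprime_iff_gcd_eq_one]
  by_contra hne
  obtain ⟨l, hl, hd⟩ := Nat.exists_prime_and_dvd hne
  refine T_coprime_prime h1 m hm l hl ?_ ?_
  · exact (Int.natCast_dvd_natCast.mpr hd).trans (Int.gcd_dvd_left ..)
  · exact (Int.natCast_dvd_natCast.mpr hd).trans (Int.gcd_dvd_right ..)

end Pool.Agent.V11306.Toep
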