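import Mathlib
import Pool.Agent.V11306.ToepN
import Pool.Agent.V11306.CnfG
import Pool.Agent.V11306.Four

/-!
# The Toeplitz matrices for `p ≡ 1 (mod 4)`: rank one updates and minors
-/

set_option autoImplicit false

namespace Pool.Agent.V11306.Toep

open Finset Polynomial Matrix

open Pool.Agent.Helper184

open Pool.Agent.Helper184.Chapman (chi chi_apply chi_sq chi_quad ext ext_val T T_map det_cast
  mulVec_eq)

section rankone

variable {n : Type*} [Fintype n] [DecidableEq n] {F : Type*} [Field F]

lemma rank_one_mul (A X : Matrix n n F) (h : A * X = 1) (x : F)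
    (u w : n → F) (hu : ∀ i, u i = ∑ j, X i j) (hw : ∀ j, w j = ∑ i, X i j) (s : F)
    (hs : s = ∑ i, u i) (hx : 1 + x * s ≠ 0) :
    (Matrix.of fun i j => A i j + x) *
      (Matrix.of fun i j => X i j - x / (1 + x * s) * (u i * w j)) = 1 := by
  have hAu : ∀ i, ∑ j, A i j * u j = 1 := by
    intro i
    simp only [hu, Finset.mul_sum]
    rw [Finset.sum_comm]
    have : ∀ k, ∑ j, A i j * X j k = if i = k then 1 else 0 := by
      intro k
      have := congrFun (congrFun h i) k
      rwa [Matrix.mul_apply, Matrix.one_apply] at this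
    rw [Finset.sum_congr rfl (fun k _ => this k)]
    simp
  ext i k
  rw [Matrix.mul_apply, Matrix.one_apply]
  have e : ∀ j, (Matrix.of fun i j => A i j + x) i j *
      (Matrix.of fun i j => X i j - x / (1 + x * s) * (u i * w j)) j k =
      A i j * X j k + x * X j k - (x / (1 + x * s) * w k) * (A i j * u j) -
        (x * (x / (1 + x * s)) * w k) * u j := by
    intro j
    rw [Matrix.of_apply, Matrix.of_apply]; ring
  rw [Finset.sum_congr rfl (fun j _ => e j)]
  simp only [Finset.sum_add_distrib, Finset.sum_sub_distrib, ← Finset.mul_sum]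
  rw [hAu, ← hw, ← hs]
  have h1 := congrFun (congrFun h i) k
  rw [Matrix.mul_apply, Matrix.one_apply] at h1
  rw [h1]
  have e2 : x * w k - x / (1 + x * s) * w k * 1 - x * (x / (1 + x * s)) * w k * s = 0 := by
    have : x / (1 + x * s) * (1 + x * s) = x := div_mul_cancel₀ _ hx
    linear_combination (-w k) * this
  linear_combination e2

lemma rank_one_det (A X : Matrix n n F) (h : A * X = 1) (x : F)
    (u : n → F) (hu : ∀ i, u i = ∑ j, X i j) (s : F)
    (hs : s = ∑ i, u i) :
    (Matrix.of fun i j => A i j + x).det = A.det * (1 + x * s) := by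
  have hAu : ∀ i, ∑ j, A i j * u j = 1 := by
    intro i
    simp only [hu, Finset.mul_sum]
    rw [Finset.sum_comm]
    have : ∀ k, ∑ j, A i j * X j k = if i = k then 1 else 0 := by
      intro k
      have := congrFun (congrFun h i) k
      rwa [Matrix.mul_apply, Matrix.one_apply] at this
    rw [Finset.sum_congr rfl (fun k _ => this k)]
    simp
  have h1 : (Matrix.of fun i j => A i j + x) = A *
      (1 + Matrix.replicateCol Unit u * Matrix.replicateRow Unit (fun _ => x)) := by
    ext i k
    rw [Matrix.mul_add, Matrix.mul_one, Matrix.add_apply, Matrix.of_apply, Matrix.mul_apply]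
    congr 1
    simp only [Matrix.mul_apply, Matrix.replicateCol_apply, Matrix.replicateRow_apply,
      Finset.univ_unique, Finset.sum_singleton]
    refine Eq.trans (b := ∑ j, A i j * u j * x) ?_ ?_
    · rw [← Finset.sum_mul, hAu, one_mul]
    · exact Finset.sum_congr rfl fun j _ => by ring
  rw [h1, Matrix.det_mul, Matrix.det_one_add_replicateCol_mul_replicateRow]
  simp only [dotProduct]
  rw [← Finset.mul_sum, ← hs]

end rankone

/-- split off index `0` -/
noncomputable def split0 (m : ℕ) : Fin m ⊕ Fin 1 ≃ Fin (m + 1) :=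
  Equiv.ofBijective (Sum.elim (fun i => i.succ) (fun _ => 0)) (by
    rw [Fintype.bijective_iff_injective_and_card]
    refine ⟨?_, by simp⟩
    rintro (i | i) (j | j) h
    · simp only [Sum.elim_inl] at h
      rw [Fin.succ_inj.mp h]
    · simp only [Sum.elim_inl, Sum.elim_inr] at h
      exact absurd h (Fin.succ_ne_zero i)
    · simp only [Sum.elim_inl, Sum.elim_inr] at h
      exact absurd h.symm (Fin.succ_ne_zero j)
    · rw [Subsingleton.elim i j])

/-- split off the indices `0` and `last` -/
noncomputable def split2 (r : ℕ) : Fin r ⊕ Fin 2 ≃ Fin (r + 2) :=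
  Equiv.ofBijective (Sum.elim (fun i => i.castSucc.succ) ![0, Fin.last (r + 1)]) (by
    rw [Fintype.bijective_iff_injective_and_card]
    refine ⟨?_, by simp⟩
    rintro (i | i) (j | j) h
    · simp only [Sum.elim_inl] at h
      rw [Fin.castSucc_injective _ (Fin.succ_inj.mp h)]
    · exfalso
      simp only [Sum.elim_inl, Sum.elim_inr] at h
      have h2 := congrArg Fin.val h
      fin_cases j
      · simp at h2
      · simp at h2
        omega
    · exfalso
      simp only [Sum.elim_inl, Sum.elim_inr] at h
      have h2 := congrArg Fin.val h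
      fin_cases i
      · simp at h2
      · simp at h2
        omega
    · simp only [Sum.elim_inr] at h
      have h2 := congrArg Fin.val h
      fin_cases i <;> fin_cases j <;> simp at h2 ⊢)

section minors

variable {F : Type*} [Field F]

/-- the minor without index `0` -/
lemma minor0 (m : ℕ) (A X : Matrix (Fin (m + 1)) (Fin (m + 1)) F) (h : A * X = 1) (x : F)
    (u w : Fin (m + 1) → F) (hu : ∀ i, u i = ∑ j, X i j) (hw : ∀ j, w j = ∑ i, X i j) (s : F)
    (hs : s = ∑ i, u i) (hx : 1 + x * s ≠ 0) (t : Fin m → Fin m → F)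
    (ht : ∀ i j, A i.succ j.succ = t i j) :
    (Matrix.of fun i j => t i j + x).det = A.det * ((1 + x * s) * X 0 0 - x * (u 0 * w 0)) := by
  have h1 := jacobi _ _ (rank_one_mul A X h x u w hu hw s hs hx) (split0 m)
  rw [rank_one_det A X h x u hu s hs] at h1
  have e1 : ((Matrix.of fun i j => A i j + x).submatrix (fun i => split0 m (Sum.inl i))
      (fun i => split0 m (Sum.inl i))) = Matrix.of fun i j => t i j + x := by
    ext i j
    rw [Matrix.submatrix_apply, Matrix.of_apply, Matrix.of_apply, ← ht]
    rfl
  rw [e1] at h1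
  rw [h1, Matrix.det_fin_one, Matrix.submatrix_apply, Matrix.of_apply]
  have e2 : split0 m (Sum.inr 0) = 0 := rfl
  rw [e2]
  have e3 : x / (1 + x * s) * (1 + x * s) = x := div_mul_cancel₀ _ hx
  linear_combination (-A.det * (u 0 * w 0)) * e3

/-- the minor without indices `0` and `last` -/
lemma minor2 (r : ℕ) (A X : Matrix (Fin (r + 2)) (Fin (r + 2)) F) (h : A * X = 1) (x : F)
    (u w : Fin (r + 2) → F) (hu : ∀ i, u i = ∑ j, X i j) (hw : ∀ j, w j = ∑ i, X i j) (s : F)
    (hs : s = ∑ i, u i) (hx : 1 + x * s ≠ 0) (t : Fin r → Fin r → F)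
    (ht : ∀ i j : Fin r, A i.castSucc.succ j.castSucc.succ = t i j) :
    (Matrix.of fun i j => t i j + x).det * (1 + x * s) = A.det *
      (((1 + x * s) * X 0 0 - x * (u 0 * w 0)) *
        ((1 + x * s) * X (Fin.last _) (Fin.last _) - x * (u (Fin.last _) * w (Fin.last _))) -
      ((1 + x * s) * X 0 (Fin.last _) - x * (u 0 * w (Fin.last _))) *
        ((1 + x * s) * X (Fin.last _) 0 - x * (u (Fin.last _) * w 0))) := by
  have h1 := jacobi _ _ (rank_one_mul A X h x u w hu hw s hs hx) (split2 r)
  rw [rank_one_det A X h x u hu s hs] at h1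
  have e1 : ((Matrix.of fun i j => A i j + x).submatrix (fun i => split2 r (Sum.inl i))
      (fun i => split2 r (Sum.inl i))) = Matrix.of fun i j => t i j + x := by
    ext i j
    rw [Matrix.submatrix_apply, Matrix.of_apply, Matrix.of_apply, ← ht]
    rfl
  rw [e1] at h1
  rw [h1, Matrix.det_fin_two]
  simp only [Matrix.submatrix_apply, Matrix.of_apply]
  have e2 : split2 r (Sum.inr 0) = 0 := rfl
  have e3 : split2 r (Sum.inr 1) = Fin.last (r + 1) := rfl
  rw [e2, e3]
  have e4 : x / (1 + x * s) * (1 + x * s) = x := div_mul_cancel₀ _ hx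
  generalize x / (1 + x * s) = q at *
  generalize 1 + x * s = N at *
  rw [← e4]
  ring

end minors

end Pool.Agent.V11306.Toep
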