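import Mathlib
import Pool.Agent.V11306.ToepQ

/-!
# The Toeplitz matrices for `p ≡ 1 (mod 4)`: values
-/

set_option autoImplicit false

namespace Pool.Agent.V11306.Toep

open Finset Polynomial Matrix

open Pool.Agent.Helper184

open Pool.Agent.Helper184.Chapman (chi chi_apply chi_sq chi_quad ext ext_val T T_map det_cast
  mulVec_eq)

variable {p : ℕ} [Fact p.Prime]

/-- the complex matrix -/
noncomputable def TC (p : ℕ) [Fact p.Prime] (n : ℕ) : Matrix (Fin n) (Fin n) ℂ :=
  (T p ℤ n).map (Int.cast : ℤ → ℂ)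

lemma TC_apply (n : ℕ) (i j : Fin n) :
    TC p n i j = chi p ℂ (((i : ℕ) : ZMod p) - ((j : ℕ) : ZMod p)) := by
  rw [TC, Matrix.map_apply, T, Matrix.of_apply, chi_apply, Int.cast_id]

lemma TC_det (n : ℕ) : (TC p n).det = (((T p ℤ n).det : ℤ) : ℂ) := (Int.cast_det _).symm

lemma TC_sys (n : ℕ) (w : Fin n → ℂ) (r : ℕ → ℂ)
    (h : ∀ i : Fin n, ∑ j, TC p n i j * w j = r i) :
    ∀ i ∈ range n, ∑ j ∈ range n, chi p ℂ ((i : ZMod p) - (j : ZMod p)) * Chapman.ext w j
      = r i := by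
  intro i hi
  rw [Finset.mem_range] at hi
  rw [← Fin.sum_univ_eq_sum_range
    (fun j => chi p ℂ ((i : ZMod p) - (j : ZMod p)) * Chapman.ext w j)]
  refine Eq.trans ?_ (h ⟨i, hi⟩)
  refine Finset.sum_congr rfl fun j _ => ?_
  rw [ext_val, TC_apply]

lemma ext_sum {n : ℕ} (w : Fin n → ℂ) : ∑ j ∈ range n, Chapman.ext w j = ∑ j, w j := by
  rw [← Fin.sum_univ_eq_sum_range (fun j => Chapman.ext w j)]
  exact Finset.sum_congr rfl fun j _ => ext_val w j

section one

variable (h1 : p % 4 = 1) (m : ℕ) (hm : p = 2 * m + 1)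

include h1 hm in
lemma TC_det_ne : (TC p (m + 1)).det ≠ 0 := by
  have hp2 : p ≠ 2 := by rintro rfl; omega
  rw [TC_det]
  intro h
  have h2 : (T p ℤ (m + 1)).det = 0 := by exact_mod_cast h
  apply T_det_ne_mod hp2 m hm
  rw [h2, Int.cast_zero]

/-- the inverse -/
noncomputable def XC (p : ℕ) [Fact p.Prime] (m : ℕ) : Matrix (Fin (m + 1)) (Fin (m + 1)) ℂ :=
  (TC p (m + 1))⁻¹

include h1 hm in
lemma TX : TC p (m + 1) * XC p m = 1 := by
  rw [XC, Matrix.mul_nonsing_inv]
  exact isUnit_iff_ne_zero.mpr (TC_det_ne h1 m hm)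

include h1 in
lemma TC_symm (n : ℕ) : (TC p n).transpose = TC p n := by
  ext i j
  rw [Matrix.transpose_apply, TC, Matrix.map_apply, Matrix.map_apply, T_sym h1]

include h1 in
lemma XC_symm (i j : Fin (m + 1)) : XC p m i j = XC p m j i := by
  have : (XC p m).transpose = XC p m := by
    rw [XC, Matrix.transpose_nonsing_inv, TC_symm h1]
  have h := congrFun (congrFun this i) j
  rw [Matrix.transpose_apply] at h
  exact h.symm

include h1 in
lemma XC_rev (i j : Fin (m + 1)) : XC p m i.rev j.rev = XC p m i j := by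
  have h0 : (TC p (m + 1)).submatrix Fin.revPerm Fin.revPerm = TC p (m + 1) := by
    ext i j
    rw [Matrix.submatrix_apply, Fin.revPerm_apply, Fin.revPerm_apply, TC_apply]
    have e : ((i.rev : ℕ) : ZMod p) - ((j.rev : ℕ) : ZMod p) =
        ((j : ℕ) : ZMod p) - ((i : ℕ) : ZMod p) := by
      rw [Fin.val_rev, Fin.val_rev, Nat.cast_sub (by omega), Nat.cast_sub (by omega)]
      push_cast
      ring
    rw [e, ← TC_apply, ← Matrix.transpose_apply (TC p (m + 1)) i j, TC_symm h1]
  have h2 : (XC p m).submatrix Fin.revPerm Fin.revPerm = XC p m := by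
    rw [XC, ← Matrix.inv_submatrix_equiv, h0]
  exact congrFun (congrFun h2 i) j

/-- row sums of the inverse -/
noncomputable def uC (p : ℕ) [Fact p.Prime] (m : ℕ) : Fin (m + 1) → ℂ := fun i => ∑ j, XC p m i j

include h1 in
lemma uC_col (j : Fin (m + 1)) : uC p m j = ∑ i, XC p m i j := by
  rw [uC]
  exact Finset.sum_congr rfl fun i _ => XC_symm h1 m j i

include h1 hm in
lemma T_uC (i : Fin (m + 1)) : ∑ j, TC p (m + 1) i j * uC p m j = 1 := by
  simp only [uC, Finset.mul_sum]
  rw [Finset.sum_comm]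
  have : ∀ k, ∑ j, TC p (m + 1) i j * XC p m j k = if i = k then 1 else 0 := by
    intro k
    have := congrFun (congrFun (TX h1 m hm) i) k
    rwa [Matrix.mul_apply, Matrix.one_apply] at this
  rw [Finset.sum_congr rfl (fun k _ => this k)]
  simp

include h1 hm in
theorem values_one : ∃ β γ : ℂ,
    XC p m 0 0 = β ∧ XC p m (Fin.last m) 0 = β + chi p ℂ 2 ∧
    (kap (ZMod.stdAddChar (N := p))) * gs (ZMod.stdAddChar (N := p)) = chi p ℂ 2 ∧
    β * ((PP (ZMod.stdAddChar (N := p))).eval 1 - (PP (ZMod.stdAddChar (N := p))).eval (-1)) =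
      (kap (ZMod.stdAddChar (N := p))) *
      ((PP (ZMod.stdAddChar (N := p))).eval 1 + (PP (ZMod.stdAddChar (N := p))).eval (-1)) ∧
    uC p m 0 = γ ∧ uC p m (Fin.last m) = γ ∧
    γ * ((PP (ZMod.stdAddChar (N := p))).eval 1 - (PP (ZMod.stdAddChar (N := p))).eval (-1)) =
      2 * (kap (ZMod.stdAddChar (N := p))) * p ∧
    2 * ∑ i, uC p m i = γ *
      ((PP (ZMod.stdAddChar (N := p))).eval 1 + (PP (ZMod.stdAddChar (N := p))).eval (-1)) := by
  have hp := (Fact.out : p.Prime).two_le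
  have hp2 : p ≠ 2 := by omega
  have hm1 : 1 ≤ m := by omega
  have h2 : (2 : ℂ) ≠ 0 := two_ne_zero
  have hp0 : (p : ℂ) ≠ 0 := by exact_mod_cast (by omega : p ≠ 0)
  have hε : ep p ℂ = 1 := by rw [CnfD.ep_eq, CnfD.ez_one h1]; simp
  set ψ : AddChar (ZMod p) ℂ := ZMod.stdAddChar with hψd
  have hψ : ψ.IsPrimitive := ZMod.isPrimitive_stdAddChar p
  have hg2 := gs_sq hp2 h2 hψ
  have hc2 : chi p ℂ 2 * chi p ℂ 2 = 1 := chi_sq (two_ne hp2)
  set g := gs ψ with hg
  set κ := kap ψ with hκ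
  have hκg : κ * g = chi p ℂ 2 := by
    rw [hκ, kap, ← hg, hε]
    rw [hε] at hg2
    field_simp
    linear_combination (chi p ℂ 2) * hg2
  have hPtop := PP_top ψ m hm
  have hP0 := PP_zero hp2 ψ m hm
  rw [hε] at hP0
  obtain ⟨γ, b0, b1, b2, b3⟩ := core3 m hm h2 hp0 ψ hψ (fun j => Chapman.ext (uC p m) j) 0 1
    (by
      intro i hi
      have := TC_sys (m + 1) (uC p m) (fun _ => 1) (fun i => T_uC h1 m hm i) i hi
      rw [this]; simp)
  obtain ⟨β, c0, c1, c2, c3⟩ := core3 m hm h2 hp0 ψ hψ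
    (fun j => Chapman.ext (fun i => XC p m i 0) j) 1 0
    (by
      intro i hi
      have := TC_sys (m + 1) (fun i => XC p m i 0) (fun i => if i = 0 then 1 else 0) (by
        intro i
        have := congrFun (congrFun (TX h1 m hm) i) 0
        rw [Matrix.mul_apply, Matrix.one_apply] at this
        rw [this]
        by_cases hi : i = 0
        · subst hi; rfl
        · rw [if_neg hi, if_neg (fun h : (i : ℕ) = 0 => hi (Fin.ext h))]) i hi
      rw [this, add_zero])
  have e00 : ∀ w : Fin (m + 1) → ℂ, Chapman.ext w 0 = w 0 := fun w => by simp [Chapman.ext]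
  have emm : ∀ w : Fin (m + 1) → ℂ, Chapman.ext w m = w (Fin.last m) := fun w => by
    simp [Chapman.ext, Fin.last]
  refine ⟨β, γ, ?_, ?_, hκg, ?_, ?_, ?_, ?_, ?_⟩
  · rw [e00, hP0, mul_one] at c0
    exact c0
  · have := c1 (m - 1) (by rw [Finset.mem_range]; omega)
    rw [show m - 1 + 1 = m by omega, show 2 * (m - 1) + 1 = 2 * m - 1 by omega,
      show 2 * (m - 1) + 2 = 2 * m by omega,
      PP_c1 ψ m hm hm1, emm, hPtop] at this
    rw [this, ← hg]
    linear_combination hκg
  · linear_combination c2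
  · rw [e00, hP0, mul_one] at b0
    exact b0
  · have := b1 (m - 1) (by rw [Finset.mem_range]; omega)
    rw [show m - 1 + 1 = m by omega,
      show 2 * (m - 1) + 2 = 2 * m by omega, emm, hPtop] at this
    rw [this]
    ring
  · linear_combination b2
  · rw [ext_sum] at b3
    linear_combination b3

include h1 hm in
/-- `det T_m = det T_{m+1} * X 0 0` -/
lemma D0_eq : (TC p m).det = (TC p (m + 1)).det * XC p m 0 0 := by
  have := minor0 m (TC p (m + 1)) (XC p m) (TX h1 m hm) 0 (uC p m) (uC p m) (fun i => rfl)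
    (fun j => uC_col h1 m j) _ rfl (by rw [zero_mul, add_zero]; exact one_ne_zero)
    (fun i j => TC p m i j) (by
      intro i j
      rw [TC, Matrix.map_apply, TC, Matrix.map_apply, T_succ])
  simp only [add_zero, zero_mul, sub_zero, one_mul] at this
  exact this

end one

end Pool.Agent.V11306.Toep
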