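import Mathlib
import Pool.Agent.V11306.ToepR

/-!
# The sign for `p ≡ 1 (mod 4)`
-/

set_option autoImplicit false

namespace Pool.Agent.V11306.Toep

open Finset Polynomial

open Pool.Agent.Helper184.Chapman (chi chi_apply chi_sq)

variable {p : ℕ} [hpf : Fact p.Prime]

lemma sum_pow_top : ∑ k : ZMod p, k ^ (p - 1) = -1 := by
  have h2 := hpf.out.two_le
  rw [← Finset.add_sum_erase univ _ (Finset.mem_univ (0 : ZMod p)), zero_pow (by omega), zero_add]
  rw [Finset.sum_congr rfl (g := fun _ => (1 : ZMod p))
    (fun k hk => ZMod.pow_card_sub_one_eq_one (by simpa using hk))]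
  rw [Finset.sum_const, Finset.card_erase_of_mem (Finset.mem_univ _), Finset.card_univ, ZMod.card,
    nsmul_eq_mul, mul_one, Nat.cast_sub (by omega)]
  simp

/-- sums of values of polynomials of degree at most `p - 1` -/
lemma sum_eval (Q : (ZMod p)[X]) (hQ : Q.natDegree ≤ p - 1) :
    ∑ k : ZMod p, Q.eval k = - Q.coeff (p - 1) := by
  have h2 := hpf.out.two_le
  have e : ∀ k : ZMod p, Q.eval k = ∑ i ∈ range (p - 1 + 1), Q.coeff i * k ^ i := fun k =>
    eval_eq_sum_range' (by omega) k
  rw [Finset.sum_congr rfl (fun k _ => e k), Finset.sum_comm, Finset.sum_range_succ]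
  have h0 : ∀ i ∈ range (p - 1), ∑ k : ZMod p, Q.coeff i * k ^ i = 0 := by
    intro i hi
    rw [Finset.mem_range] at hi
    rw [← Finset.mul_sum, FiniteField.sum_pow_lt_card_sub_one (ZMod p) i (by rw [ZMod.card]; exact hi),
      mul_zero]
  rw [Finset.sum_eq_zero h0, zero_add, ← Finset.mul_sum, sum_pow_top]
  ring

/-- the coefficient of the Gauss sum -/
lemma gauss_coeff (hp2 : p ≠ 2) (m : ℕ) (hm : p = 2 * m + 1) :
    (m.factorial : ZMod p) * ∑ k : ZMod p, ((quadraticChar (ZMod p) k : ℤ) : ZMod p) *
      ((k.val.choose m : ℕ) : ZMod p) = -1 := by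
  set Q : (ZMod p)[X] := X ^ m * descPochhammer (ZMod p) m with hQ
  have hmon : Q.Monic := (monic_X_pow m).mul (monic_descPochhammer (ZMod p) m)
  have hdeg : Q.natDegree = p - 1 := by
    rw [hQ, (monic_X_pow m).natDegree_mul (monic_descPochhammer (ZMod p) m), natDegree_X_pow,
      descPochhammer_natDegree]
    omega
  have h1 := sum_eval Q hdeg.le
  rw [← hdeg, hmon.coeff_natDegree] at h1
  rw [← h1, Finset.mul_sum]
  refine Finset.sum_congr rfl fun k _ => ?_
  rw [chi_pow hp2 m hm, hQ, eval_mul, eval_pow, eval_X]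
  have e : (descPochhammer (ZMod p) m).eval k = ((k.val.descFactorial m : ℕ) : ZMod p) := by
    conv_lhs => rw [← ZMod.natCast_zmod_val k]
    exact descPochhammer_eval_eq_descFactorial (ZMod p) k.val m
  rw [e, Nat.descFactorial_eq_factorial_mul_choose]
  push_cast
  ring

/-- the product over the nonresidues -/
lemma prod_nonres (h1 : p % 4 = 1) :
    ∏ k ∈ (univ : Finset (ZMod p)).filter (fun k => quadraticChar (ZMod p) k = -1), k = 1 := by
  apply Finset.prod_involution (fun k _ => k⁻¹)
  · intro a ha
    rw [Finset.mem_filter] at ha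
    have ha0 : a ≠ 0 := by
      rintro rfl
      rw [quadraticChar_zero] at ha
      exact absurd ha.2 (by norm_num)
    exact mul_inv_cancel₀ ha0
  · intro a ha _ h
    rw [Finset.mem_filter] at ha
    have ha0 : a ≠ 0 := by
      rintro rfl
      rw [quadraticChar_zero] at ha
      exact absurd ha.2 (by norm_num)
    have h2 : a * a = 1 := by
      have h5 := inv_mul_cancel₀ ha0
      rwa [h] at h5
    rcases mul_self_eq_one_iff.mp h2 with h3 | h3
    · rw [h3, map_one] at ha
      exact absurd ha.2 (by norm_num)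
    · rw [h3] at ha
      have := CnfD.ez_one h1
      rw [CnfD.ez] at this
      rw [this] at ha
      exact absurd ha.2 (by norm_num)
  · intro a _
    exact inv_inv a
  · intro a ha
    rw [Finset.mem_filter] at ha ⊢
    refine ⟨Finset.mem_univ _, ?_⟩
    have ha0 : a ≠ 0 := by
      rintro rfl
      rw [quadraticChar_zero] at ha
      exact absurd ha.2 (by norm_num)
    have h2 : quadraticChar (ZMod p) a * quadraticChar (ZMod p) a⁻¹ = 1 := by
      rw [← map_mul, mul_inv_cancel₀ ha0, map_one]
    rw [ha.2] at h2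
    omega

/-- the number of nonresidues -/
lemma card_nonres (hp2 : p ≠ 2) (m : ℕ) (hm : p = 2 * m + 1) :
    ((univ : Finset (ZMod p)).filter (fun k => quadraticChar (ZMod p) k = -1)).card = m := by
  have h0 := quadraticChar_sum_zero (F := ZMod p) (by rw [ZMod.ringChar_zmod_n]; exact hp2)
  have h1 : ∀ k ∈ univ.erase (0 : ZMod p), quadraticChar (ZMod p) k =
      1 - 2 * (if quadraticChar (ZMod p) k = -1 then 1 else 0) := by
    intro k hk
    have hk0 : k ≠ 0 := by simpa using hk
    rcases quadraticChar_dichotomy (F := ZMod p) hk0 with h | h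
    · rw [h]; norm_num
    · rw [h]; norm_num
  rw [← Finset.add_sum_erase univ _ (Finset.mem_univ (0 : ZMod p)), quadraticChar_zero, zero_add,
    Finset.sum_congr rfl h1, Finset.sum_sub_distrib, Finset.sum_const, ← Finset.mul_sum,
    card_S m hm] at h0
  have h2 : ∑ k ∈ univ.erase (0 : ZMod p), (if quadraticChar (ZMod p) k = -1 then (1 : ℤ) else 0) =
      ∑ k : ZMod p, (if quadraticChar (ZMod p) k = -1 then (1 : ℤ) else 0) := by
    rw [← Finset.add_sum_erase univ _ (Finset.mem_univ (0 : ZMod p)), quadraticChar_zero]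
    norm_num
  rw [h2, Finset.sum_boole, nsmul_eq_mul, mul_one] at h0
  push_cast at h0
  have h3 : (((univ : Finset (ZMod p)).filter (fun k => quadraticChar (ZMod p) k = -1)).card : ℤ)
      = m := by
    linarith
  exact_mod_cast h3

/-- the polynomial factor -/
noncomputable def ff (p : ℕ) [Fact p.Prime] (R : Type*) [CommRing R] (k : ZMod p) : R[X] :=
  1 + C ((quadraticChar (ZMod p) k : ℤ) : R) * X ^ k.val

lemma ff_comp (k : ZMod p) (hk : k ≠ 0) :
    ∃ q : (ZMod p)[X], (ff p (ZMod p) k).comp (X + 1) =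
      (if quadraticChar (ZMod p) k = -1 then X else 1) * q ∧
      q.eval 0 = (if quadraticChar (ZMod p) k = -1 then -k else 2) := by
  rcases quadraticChar_dichotomy (F := ZMod p) hk with h | h
  · refine ⟨(ff p (ZMod p) k).comp (X + 1), ?_, ?_⟩
    · rw [h, if_neg (by norm_num), one_mul]
    · rw [h, if_neg (by norm_num), ff, h]
      simp
      norm_num
  · refine ⟨-∑ i ∈ range k.val, (X + 1) ^ i, ?_, ?_⟩
    · rw [if_pos h, ff, h]
      have := geom_sum_mul (X + 1 : (ZMod p)[X]) k.val
      simp only [add_comp, mul_comp, pow_comp, X_comp, C_comp, one_comp]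
      rw [add_sub_cancel_right] at this
      push_cast
      simp only [map_neg, map_one]
      linear_combination this
    · rw [if_pos h]
      simp [eval_finsetSum]

/-- the sign -/
theorem sign_lemma (h1 : p % 4 = 1) (m : ℕ) (hm : p = 2 * m + 1) (a b : ℤ)
    (h : (PP (ZMod.stdAddChar (N := p))).eval (-1) =
      (p : ℂ) * b + a * gs (ZMod.stdAddChar (N := p))) :
    (a : ZMod p) = -(((quadraticChar (ZMod p) 2 : ℤ) : ZMod p) * (m.factorial : ZMod p)) := by
  have hp2 : p ≠ 2 := by rintro rfl; omega
  have hpos : 0 < p := hpf.out.pos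
  have hm0 : 0 < m := by have := hpf.out.one_lt; omega
  set ζ : ℂ := (ZMod.stdAddChar (1 : ZMod p) : ℂ) with hζ
  have hζp : IsPrimitiveRoot ζ p := by
    have := (ZMod.isPrimitive_stdAddChar p)
    rw [hζ]
    have h3 := ZMod.stdAddChar_coe (N := p) 1
    have h4 : (ZMod.stdAddChar (1 : ZMod p) : ℂ) = Complex.exp (2 * Real.pi * Complex.I / p) := by
      rw [Int.cast_one, Int.cast_one] at h3
      rw [h3]
      congr 1
      ring
    rw [h4]
    exact Complex.isPrimitiveRoot_exp p hpos.ne'
  have hval : ∀ k : ZMod p, (ZMod.stdAddChar k : ℂ) = ζ ^ k.val := by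
    intro k
    rw [hζ, ← AddChar.map_nsmul_eq_pow, nsmul_eq_mul, mul_one, ZMod.natCast_zmod_val]
  set F : ℤ[X] := ∏ k ∈ univ.erase (0 : ZMod p), ff p ℤ k - C ((p : ℤ) * b) -
    C a * ∑ k : ZMod p, C (quadraticChar (ZMod p) k : ℤ) * X ^ k.val with hF
  have hroot : aeval ζ F = 0 := by
    rw [hF]
    simp only [map_sub, map_mul, map_sum, map_pow, aeval_X, map_prod, ff, map_add, map_one,
      eq_intCast, Int.cast_id, map_intCast, map_natCast]
    have e1 : ∏ k ∈ univ.erase (0 : ZMod p), (1 + ((quadraticChar (ZMod p) k : ℤ) : ℂ) * ζ ^ k.val) =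
        (PP (ZMod.stdAddChar (N := p))).eval (-1) := by
      rw [PP, eval_prod]
      simp only [eval_sub, eval_X, eval_C, sv]
      have : ∀ k : ZMod p, -1 - chi p ℂ k * (ZMod.stdAddChar k : ℂ) =
          (-1) * (1 + ((quadraticChar (ZMod p) k : ℤ) : ℂ) * ζ ^ k.val) := by
        intro k
        rw [chi_apply, hval]; ring
      rw [Finset.prod_congr rfl (fun k _ => this k), Finset.prod_mul_distrib, Finset.prod_const,
        card_S m hm, pow_mul]
      norm_num
    have e2 : ∑ k : ZMod p, ((quadraticChar (ZMod p) k : ℤ) : ℂ) * ζ ^ k.val =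
        gs (ZMod.stdAddChar (N := p)) := by
      rw [gs, gaussSum]
      exact Finset.sum_congr rfl fun k _ => by rw [chi_apply, hval]
    rw [e1, e2, h]
    ring
  have hdvd : cyclotomic p ℤ ∣ F := by
    rw [cyclotomic_eq_minpoly hζp hpos]
    exact minpoly.isIntegrallyClosed_dvd (hζp.isIntegral hpos) hroot
  obtain ⟨G, hG⟩ := hdvd
  have hG2 : ((F.map (Int.castRingHom (ZMod p))).comp (X + 1)).coeff m =
      (((cyclotomic p ℤ * G).map (Int.castRingHom (ZMod p))).comp (X + 1)).coeff m := by rw [hG]
  -- the right side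
  have hR : (((cyclotomic p ℤ * G).map (Int.castRingHom (ZMod p))).comp (X + 1)).coeff m = 0 := by
    rw [Polynomial.map_mul, map_cyclotomic, mul_comp]
    have e3 : cyclotomic p (ZMod p) = (X - 1) ^ (2 * m) := by
      have := cyclotomic_mul_prime_pow_eq (ZMod p) (p := p) (m := 1) (k := 1)
        (by rw [Nat.dvd_one]; exact hpf.out.one_lt.ne') one_pos
      have e : p ^ 1 - p ^ (1 - 1) = 2 * m := by
        rw [pow_one, Nat.sub_self, pow_zero]; omega
      rw [e, pow_one, mul_one, cyclotomic_one] at this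
      exact this
    rw [e3, pow_comp, sub_comp, X_comp, one_comp, add_sub_cancel_right, coeff_X_pow_mul',
      if_neg (show ¬ 2 * m ≤ m by omega)]
  -- the left side
  choose! q hq1 hq2 using (fun (k : ZMod p) (hk : k ≠ 0) => ff_comp k hk)
  have hfilter : (univ.erase (0 : ZMod p)).filter (fun k => quadraticChar (ZMod p) k = -1) =
      univ.filter (fun k => quadraticChar (ZMod p) k = -1) := by
    ext k
    simp only [Finset.mem_filter, Finset.mem_erase, Finset.mem_univ, and_true, true_and,
      and_iff_right_iff_imp]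
    rintro hk rfl
    rw [quadraticChar_zero] at hk
    exact absurd hk (by norm_num)
  have hcardN := card_nonres hp2 m hm
  have hprodX : ∏ k ∈ univ.erase (0 : ZMod p),
      (if quadraticChar (ZMod p) k = -1 then (X : (ZMod p)[X]) else 1) = X ^ m := by
    rw [← Finset.prod_filter, hfilter, Finset.prod_const, hcardN]
  have hcardR : ((univ.erase (0 : ZMod p)).filter
      (fun k => ¬ quadraticChar (ZMod p) k = -1)).card = m := by
    have := Finset.card_filter_add_card_filter_not (s := univ.erase (0 : ZMod p))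
      (fun k => quadraticChar (ZMod p) k = -1)
    rw [hfilter, hcardN, card_S m hm] at this
    omega
  have hprodq : ∏ k ∈ univ.erase (0 : ZMod p),
      (if quadraticChar (ZMod p) k = -1 then (-k : ZMod p) else 2) =
      ((quadraticChar (ZMod p) 2 : ℤ) : ZMod p) := by
    rw [Finset.prod_ite, hfilter, Finset.prod_const, hcardR, chi_pow hp2 m hm]
    have : ∀ k : ZMod p, -k = (-1) * k := fun k => by ring
    rw [Finset.prod_congr rfl (fun k _ => this k), Finset.prod_mul_distrib, Finset.prod_const,
      hcardN, prod_nonres h1]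
    have he : Even m := by rw [Nat.even_iff]; omega
    rw [he.neg_one_pow]; ring
  have hL : ((F.map (Int.castRingHom (ZMod p))).comp (X + 1)).coeff m =
      ((quadraticChar (ZMod p) 2 : ℤ) : ZMod p) - (a : ZMod p) *
        ∑ k : ZMod p, ((quadraticChar (ZMod p) k : ℤ) : ZMod p) *
      ((k.val.choose m : ℕ) : ZMod p) := by
    rw [hF]
    simp only [Polynomial.map_sub, Polynomial.map_mul, Polynomial.map_prod, map_C,
      Polynomial.map_sum, Polynomial.map_pow, map_X, sub_comp, mul_comp, C_comp, Polynomial.prod_comp]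
    rw [coeff_sub, coeff_sub, coeff_C_mul]
    congr 1
    · have e5 : ((Int.castRingHom (ZMod p)) ((p : ℤ) * b)) = 0 := by
        simp
      rw [e5, map_zero, coeff_zero, sub_zero]
      have e6 : ∀ k : ZMod p, ((ff p ℤ k).map (Int.castRingHom (ZMod p))) = ff p (ZMod p) k := by
        intro k
        simp [ff]
      have e7 : ∏ k ∈ univ.erase (0 : ZMod p),
          ((ff p ℤ k).map (Int.castRingHom (ZMod p))).comp (X + 1) =
          X ^ m * ∏ k ∈ univ.erase (0 : ZMod p), q k := by
        rw [← hprodX, ← Finset.prod_mul_distrib]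
        refine Finset.prod_congr rfl fun k hk => ?_
        have hk0 : k ≠ 0 := by simpa using hk
        rw [e6, hq1 k hk0]
      rw [e7, coeff_X_pow_mul', if_pos le_rfl, Nat.sub_self, coeff_zero_eq_eval_zero, eval_prod,
        ← hprodq]
      refine Finset.prod_congr rfl fun k hk => ?_
      have hk0 : k ≠ 0 := by simpa using hk
      exact hq2 k hk0
    · congr 1
      rw [Polynomial.sum_comp, finsetSum_coeff]
      refine Finset.sum_congr rfl fun k _ => ?_
      rw [mul_comp, C_comp, pow_comp, X_comp, coeff_C_mul, coeff_X_add_one_pow]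
      rfl
  rw [hL, hR] at hG2
  have h9 := gauss_coeff hp2 m hm
  linear_combination (m.factorial : ZMod p) * hG2 + (a : ZMod p) * h9

end Pool.Agent.V11306.Toep
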