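import Mathlib
import Pool.Agent.V11306.ToepS

/-!
# Evaluation of the minors, `p ≡ 1 (mod 4)`
-/

set_option autoImplicit false

namespace Pool.Agent.V11306.Toep

open Finset Polynomial NumberField

open Pool.Agent.Helper184.Chapman (chi chi_apply chi_sq T)

variable {p : ℕ} [hpf : Fact p.Prime]

/-- the elementary number theory -/
lemma arith_one (D1 D0 A B c p : ℤ) (hc : c * c = 1) (hcop : IsCoprime D1 D0) (hD1 : D1 ≠ 0)
    (h : D0 * A = -c * B * D1) (hn : A ^ 2 - p * B ^ 2 = -4) (hodd : Odd (D1 ^ 2 - p * D0 ^ 2)) :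
    ∃ t : ℤ, (t = 1 ∨ t = -1) ∧ A = 2 * (D1 * t) ∧ B = 2 * (-c * D0 * t) ∧
      D1 ^ 2 - p * D0 ^ 2 = -1 := by
  have hd : D1 ∣ A := by
    apply hcop.dvd_of_dvd_mul_left
    rw [h]
    exact dvd_mul_left _ _
  obtain ⟨t, ht⟩ := hd
  have hB : B = -c * D0 * t := by
    have h2 : D1 * (D0 * t) = D1 * (-c * B) := by
      rw [ht] at h; linear_combination h
    have h3 := mul_left_cancel₀ hD1 h2
    linear_combination c * h3 - B * hc
  have h4 : t ^ 2 * (D1 ^ 2 - p * D0 ^ 2) = -4 := by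
    rw [← hn, ht, hB]
    linear_combination (-p * D0 ^ 2 * t ^ 2) * (-1 : ℤ) * hc
  have hte : Even t := by
    by_contra hto
    rw [Int.not_even_iff_odd] at hto
    have : Odd (t ^ 2 * (D1 ^ 2 - p * D0 ^ 2)) := (hto.pow).mul hodd
    rw [h4] at this
    exact absurd this (by decide)
  obtain ⟨r, hr⟩ := hte
  have h5 : r ^ 2 * (D1 ^ 2 - p * D0 ^ 2) = -1 := by
    have : 4 * (r ^ 2 * (D1 ^ 2 - p * D0 ^ 2)) = 4 * (-1) := by
      rw [hr] at h4; linear_combination h4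
    omega
  have h6 : IsUnit (r ^ 2) := isUnit_of_dvd_one ⟨-(D1 ^ 2 - p * D0 ^ 2), by
    linear_combination h5⟩
  have h7 : r ^ 2 = 1 := by
    rcases Int.isUnit_iff.mp h6 with h | h
    · exact h
    · nlinarith [sq_nonneg r]
  refine ⟨r, ?_, ?_, ?_, ?_⟩
  · have h8 : (r - 1) * (r + 1) = 0 := by linear_combination h7
    rcases mul_eq_zero.mp h8 with h | h
    · left; linarith
    · right; linarith
  · rw [ht, hr]; ring
  · rw [hB, hr]; ring
  · rw [h7, one_mul] at h5; exact h5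

/-- all the data for `p ≡ 1 (mod 4)` -/
theorem data_one (h1 : p % 4 = 1) (m : ℕ) (hm : p = 2 * m + 1) (K : Type) [Field K] [NumberField K]
    (h2 : Module.finrank ℚ K = 2) (α : K)
    (hα : α ^ 2 = (p : K)) (σ : K →+* ℝ) (hσ : 0 < σ α) (ε : (𝓞 K)ˣ)
    (hε : 1 < σ ((ε : 𝓞 K) : K))
    (hfund : ∀ u : (𝓞 K)ˣ, ∃ n : ℤ, u = ε ^ n ∨ u = -ε ^ n) :
    (T p ℤ (m + 1)).det ^ 2 - p * (T p ℤ m).det ^ 2 = -1 ∧
    2 * (((ε : 𝓞 K) : K)) ^ ((2 - quadraticChar (ZMod p) 2) * (classNumber K : ℤ)) =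
        ((-2 * (T p ℤ (m + 1)).det : ℤ) : K) +
          ((2 * (quadraticChar (ZMod p) 2 * (T p ℤ m).det) : ℤ) : K) * α ∧
    ∃ γ : ℂ, uC p m 0 = γ ∧ uC p m (Fin.last m) = γ ∧
      γ * (((T p ℤ (m + 1)).det : ℤ) : ℂ) = chi p ℂ 2 ∧
      ∑ i, uC p m i = γ * p * (chi p ℂ 2 * (((T p ℤ m).det : ℤ) : ℂ)) ∧
      XC p m 0 0 * (((T p ℤ (m + 1)).det : ℤ) : ℂ) = (((T p ℤ m).det : ℤ) : ℂ) ∧
      XC p m (Fin.last m) 0 = XC p m 0 0 + chi p ℂ 2 := by
  have hp2 : p ≠ 2 := by rintro rfl; omega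
  have hp0 : (p : ℂ) ≠ 0 := by exact_mod_cast hpf.out.pos.ne'
  have hε1 : ep p ℂ = 1 := by rw [CnfD.ep_eq, CnfD.ez_one h1]; simp
  obtain ⟨A, B, hAB, hcase⟩ := CnfG.PP_form h1 m hm K h2 α hα σ hσ ε hε hfund
  obtain ⟨β, γ, x0, xm, hκg, hβ, u0, um, hγ, hs⟩ := values_one h1 m hm
  have hg2 := gs_sq hp2 (two_ne_zero : (2 : ℂ) ≠ 0) (ZMod.isPrimitive_stdAddChar p)
  rw [hε1, one_mul] at hg2
  have hD0 := D0_eq h1 m hm
  rw [TC_det, TC_det, x0] at hD0
  have hD1ne := TC_det_ne h1 m hm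
  rw [TC_det] at hD1ne
  have hc2 : chi p ℂ 2 * chi p ℂ 2 = 1 := chi_sq (two_ne hp2)
  have hD1p := T_det_ne_mod hp2 m hm
  have hD1pv := T_det_mod' h1 m hm
  have hcop := T_coprime h1 m hm
  have heven := T_det_even h1 m hm
  have hoddd := T_det_odd h1 m hm
  have hchi : chi p ℂ 2 = ((quadraticChar (ZMod p) 2 : ℤ) : ℂ) := rfl
  rw [hchi] at xm hκg hc2 ⊢
  set c : ℤ := quadraticChar (ZMod p) 2 with hc
  set g : ℂ := gs (ZMod.stdAddChar (N := p)) with hg
  set κ : ℂ := kap (ZMod.stdAddChar (N := p)) with hκ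
  set P1 : ℂ := (PP (ZMod.stdAddChar (N := p))).eval 1 with hP1
  set Pm : ℂ := (PP (ZMod.stdAddChar (N := p))).eval (-1) with hPm
  set D1 : ℤ := (T p ℤ (m + 1)).det with hD1
  set D0 : ℤ := (T p ℤ m).det with hD0'
  have hcc : c * c = 1 := by exact_mod_cast hc2
  have hD1z : D1 ≠ 0 := by exact_mod_cast hD1ne
  have hg0 : g ≠ 0 := by
    intro h
    rw [h, mul_zero] at hg2
    exact hp0 hg2.symm
  rcases hcase with ⟨hn, e1, e2⟩ | ⟨hn, δ, hδ, e1, e2⟩
  · -- the norm is `-1`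
    have hβA : β * A = -c * B := by
      have h5 : (β * A) * p = (-c * B) * p := by
        linear_combination (-g) * hβ * 1 + (-(p : ℂ) * B) * hκg * 1 +
          (β * g / 2 - κ * g / 2) * e2 - (β * g / 2 + κ * g / 2) * e1 - β * A * hg2
      exact mul_right_cancel₀ hp0 h5
    have hDA : D0 * A = -c * B * D1 := by
      have : (D0 : ℂ) * A = -c * B * D1 := by
        rw [hD0]; linear_combination (D1 : ℂ) * hβA
      exact_mod_cast this
    have hodd : Odd (D1 ^ 2 - p * D0 ^ 2) := by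
      have hpo : ((p : ℤ) : ZMod 2) = 1 := by
        rw [hm]; push_cast
        have : (2 : ZMod 2) = 0 := rfl
        rw [this]; ring
      have h0 : ((D0 : ℤ) : ZMod 2) = 1 := by
        have : ∀ z : ZMod 2, z ≠ 0 → z = 1 := by decide
        exact this _ hoddd
      have h6 : ((D1 ^ 2 - p * D0 ^ 2 : ℤ) : ZMod 2) = 1 := by
        push_cast at hpo ⊢
        rw [heven, h0, hpo]; decide
      rw [← Int.not_even_iff_odd]
      intro he
      obtain ⟨k, hk⟩ := he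
      rw [hk] at h6
      push_cast at h6
      have h7 : (k : ZMod 2) + k = 0 := CharTwo.add_self_eq_zero _
      rw [h7] at h6
      exact zero_ne_one h6
    obtain ⟨t, ht, hA, hB, hD⟩ := arith_one D1 D0 A B c p hcc hcop hD1z hDA hn hodd
    have hsign := sign_lemma h1 m hm (D1 * t) (-c * D0 * t) (by
      rw [← hPm, ← hg]
      have : (2 : ℂ) * Pm = 2 * ((p : ℂ) * ((-c * D0 * t : ℤ) : ℂ) + ((D1 * t : ℤ) : ℂ) * g) := by
        rw [e1, hA, hB]; push_cast; ring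
      exact mul_left_cancel₀ two_ne_zero this)
    rw [← hc, ← hD1pv] at hsign
    have ht1 : t = -1 := by
      rcases ht with h | h
      · exfalso
        rw [h, mul_one] at hsign
        have : (2 : ZMod p) * (D1 : ZMod p) = 0 := by linear_combination hsign
        rcases mul_eq_zero.mp this with h | h
        · exact two_ne hp2 h
        · exact hD1p h
      · exact h
    rw [ht1] at hA hB
    refine ⟨hD, ?_, γ, u0, um, ?_, ?_, ?_, ?_⟩
    · rw [hAB, hA, hB]; push_cast; ring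
    · have h5 : (γ * D1) * p = c * p := by
        have hA' : (A : ℂ) = -2 * D1 := by rw [hA]; push_cast; ring
        have h6 : (γ * A) * p = -2 * c * p := by
          linear_combination (-g) * hγ - 2 * (p : ℂ) * hκg + (γ * g / 2) * e2 -
            (γ * g / 2) * e1 - γ * A * hg2
        rw [hA'] at h6
        linear_combination (-1 / 2 : ℂ) * h6
      exact mul_right_cancel₀ hp0 h5
    · have hB' : (B : ℂ) = 2 * (c * D0) := by rw [hB]; push_cast; ring
      rw [hB'] at e1 e2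
      linear_combination (1 / 2 : ℂ) * hs + (γ / 4) * e1 + (γ / 4) * e2
    · rw [x0, hD0]; ring
    · rw [xm, x0]
  · -- the norm is `1`
    exfalso
    have h3 : β * p * B = -c * A := by
      have h5 : δ * (β * p * B) = δ * (-c * A) := by
        linear_combination (-1 : ℂ) * hβ - (δ * A) * hκg + ((β - κ) / 2) * e2 -
          ((β + κ) / 2) * e1
      have h6 : δ ≠ 0 := by
        rintro rfl
        rw [mul_zero] at hδ
        exact zero_ne_one hδ
      exact mul_left_cancel₀ h6 h5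
    have h4 : D0 * p * B = -c * A * D1 := by
      have : (D0 : ℂ) * p * B = -c * A * D1 := by
        rw [hD0]; linear_combination (D1 : ℂ) * h3
      exact_mod_cast this
    have h5 : (c : ZMod p) * (A : ZMod p) * (D1 : ZMod p) = 0 := by
      have := congrArg (fun z : ℤ => (z : ZMod p)) h4
      push_cast at this
      rw [ZMod.natCast_self] at this
      linear_combination this
    have h6 : (A : ZMod p) = 0 := by
      rcases mul_eq_zero.mp h5 with h | h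
      · rcases mul_eq_zero.mp h with h | h
        · exfalso
          have := congrArg (fun z : ℤ => (z : ZMod p)) hcc
          push_cast at this
          rw [h] at this
          simp at this
        · exact h
      · exact absurd h hD1p
    have h7 := congrArg (fun z : ℤ => (z : ZMod p)) hn
    push_cast at h7
    rw [h6, ZMod.natCast_self] at h7
    have h8 : (2 : ZMod p) * 2 = 0 := by linear_combination -h7
    rcases mul_eq_zero.mp h8 with h | h
    · exact two_ne hp2 h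
    · exact two_ne hp2 h

section eval

variable (h1 : p % 4 = 1) (m : ℕ) (hm : p = 2 * m + 1) (γ : ℂ)
  (hD : (T p ℤ (m + 1)).det ^ 2 - p * (T p ℤ m).det ^ 2 = -1)
  (u0 : uC p m 0 = γ) (um : uC p m (Fin.last m) = γ)
  (hγ : γ * (((T p ℤ (m + 1)).det : ℤ) : ℂ) = chi p ℂ 2)
  (hs : ∑ i, uC p m i = γ * p * (chi p ℂ 2 * (((T p ℤ m).det : ℤ) : ℂ)))
  (x0 : XC p m 0 0 * (((T p ℤ (m + 1)).det : ℤ) : ℂ) = (((T p ℤ m).det : ℤ) : ℂ))
  (xm : XC p m (Fin.last m) 0 = XC p m 0 0 + chi p ℂ 2)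

include h1 hm hD u0 hγ hs x0 in
/-- the minor of order `m` -/
theorem eval_m (x : ℂ) (hx : 1 + x * ∑ i, uC p m i ≠ 0) :
    (Matrix.of fun i j : Fin m => TC p m i j + x).det =
      (((T p ℤ m).det : ℤ) : ℂ) + x * (((T p ℤ (m + 1)).det : ℤ) : ℂ) := by
  have hp2 : p ≠ 2 := by rintro rfl; omega
  have hc2 : chi p ℂ 2 * chi p ℂ 2 = 1 := chi_sq (two_ne hp2)
  have h := minor0 m (TC p (m + 1)) (XC p m) (TX h1 m hm) x (uC p m) (uC p m) (fun i => rfl)
    (fun j => uC_col h1 m j) _ rfl hx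
    (fun i j => TC p m i j) (by
      intro i j
      rw [TC, Matrix.map_apply, TC, Matrix.map_apply, T_succ])
  have hD' : (((T p ℤ (m + 1)).det : ℤ) : ℂ) ^ 2 - p * (((T p ℤ m).det : ℤ) : ℂ) ^ 2 = -1 := by
    exact_mod_cast hD
  refine h.trans ?_
  rw [TC_det, u0, hs]
  set D1 : ℂ := (((T p ℤ (m + 1)).det : ℤ) : ℂ)
  set D0 : ℂ := (((T p ℤ m).det : ℤ) : ℂ)
  set c : ℂ := chi p ℂ 2
  linear_combination (1 + x * (γ * p * (c * D0))) * x0 - x * γ * hγ + x * D1 * hc2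
    + x * c * D1 * hγ * 1 - x * c * γ * hD'

end eval

section evalr

variable (h1 : p % 4 = 1) (r : ℕ) (hm : p = 2 * (r + 1) + 1) (γ : ℂ)
  (hD : (T p ℤ (r + 1 + 1)).det ^ 2 - p * (T p ℤ (r + 1)).det ^ 2 = -1)
  (u0 : uC p (r + 1) 0 = γ) (um : uC p (r + 1) (Fin.last (r + 1)) = γ)
  (hγ : γ * (((T p ℤ (r + 1 + 1)).det : ℤ) : ℂ) = chi p ℂ 2)
  (hs : ∑ i, uC p (r + 1) i = γ * p * (chi p ℂ 2 * (((T p ℤ (r + 1)).det : ℤ) : ℂ)))
  (x0 : XC p (r + 1) 0 0 * (((T p ℤ (r + 1 + 1)).det : ℤ) : ℂ) =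
    (((T p ℤ (r + 1)).det : ℤ) : ℂ))
  (xm : XC p (r + 1) (Fin.last (r + 1)) 0 = XC p (r + 1) 0 0 + chi p ℂ 2)

include h1 hm hD u0 um hγ hs x0 xm in
/-- the minor of order `m - 1` -/
theorem eval_r (x : ℂ) (hx : 1 + x * ∑ i, uC p (r + 1) i ≠ 0) :
    (Matrix.of fun i j : Fin r => TC p r i j + x).det =
      -((((T p ℤ (r + 1 + 1)).det : ℤ) : ℂ) + 2 * chi p ℂ 2 * (((T p ℤ (r + 1)).det : ℤ) : ℂ)) +
      x * (-(2 * chi p ℂ 2 * (((T p ℤ (r + 1 + 1)).det : ℤ) : ℂ) +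
        p * (((T p ℤ (r + 1)).det : ℤ) : ℂ))) := by
  have hp2 : p ≠ 2 := by rintro rfl; omega
  have hc2 : chi p ℂ 2 * chi p ℂ 2 = 1 := chi_sq (two_ne hp2)
  have h := minor2 r (TC p (r + 1 + 1)) (XC p (r + 1)) (TX h1 (r + 1) hm) x (uC p (r + 1))
    (uC p (r + 1)) (fun i => rfl)
    (fun j => uC_col h1 (r + 1) j) _ rfl hx
    (fun i j => TC p r i j) (by
      intro i j
      rw [TC_apply, TC_apply]
      congr 1
      rw [Fin.val_succ, Fin.val_succ, Fin.val_castSucc, Fin.val_castSucc]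
      push_cast
      ring)
  have hD' : (((T p ℤ (r + 1 + 1)).det : ℤ) : ℂ) ^ 2 -
      p * (((T p ℤ (r + 1)).det : ℤ) : ℂ) ^ 2 = -1 := by
    exact_mod_cast hD
  have xl : XC p (r + 1) (Fin.last (r + 1)) (Fin.last (r + 1)) = XC p (r + 1) 0 0 := by
    have := XC_rev (m := r + 1) h1 0 0
    rwa [Fin.rev_zero] at this
  have xs : XC p (r + 1) 0 (Fin.last (r + 1)) = XC p (r + 1) (Fin.last (r + 1)) 0 :=
    XC_symm h1 _ _ _
  rw [TC_det, u0, um, xl, xs, xm] at h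
  apply mul_right_cancel₀ hx
  refine h.trans ?_
  rw [hs]
  set D1 : ℂ := (((T p ℤ (r + 1 + 1)).det : ℤ) : ℂ)
  set D0 : ℂ := (((T p ℤ (r + 1)).det : ℤ) : ℂ)
  set c : ℂ := chi p ℂ 2
  set Y : ℂ := XC p (r + 1) 0 0
  set N : ℂ := 1 + x * (γ * p * (c * D0)) with hN
  have e1 : D1 * ((N * Y - x * (γ * γ)) * (N * Y - x * (γ * γ)) -
      (N * (Y + c) - x * (γ * γ)) * (N * (Y + c) - x * (γ * γ))) =
      -(c * (N * (2 * (Y * D1) + c * D1) - 2 * x * γ * (γ * D1))) * N := by ring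
  have e2 : c * (N * (2 * D0 + c * D1) - 2 * x * γ * c) =
      (D1 + 2 * c * D0) + x * (2 * c * D1 + p * D0) := by
    rw [hN]
    linear_combination ((1 + x * (γ * p * (c * D0))) * D1 - 2 * x * γ + 2 * x * γ * p * D0 ^ 2 +
      x * p * D0) * hc2 + (x * p * c * D0 + 2 * x * D1) * hγ - 2 * x * γ * hD'
  rw [e1, x0, hγ, e2]
  ring

end evalr

end Pool.Agent.V11306.Toep
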