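import Mathlib
import Pool.Agent.V11306.ToepU

/-!
# Evaluation of the minors, `p ≡ 3 (mod 4)`
-/

set_option autoImplicit false

namespace Pool.Agent.V11306.Toep

open Finset Polynomial NumberField

open Pool.Agent.Helper184

open Pool.Agent.Helper184.Chapman (chi chi_apply chi_sq T)

variable {p : ℕ} [hpf : Fact p.Prime]

section three

variable (h3 : p % 4 = 3) (m : ℕ) (hm : p = 2 * m + 1)

/-- the inverse over `ℂ` -/
noncomputable def NC (p : ℕ) [Fact p.Prime] (m : ℕ) : Matrix (Fin (m + 1)) (Fin (m + 1)) ℂ :=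
  (N p m).map (Int.cast : ℤ → ℂ)

include h3 hm in
lemma TN : TC p (m + 1) * NC p m = 1 := by
  ext i k
  rw [Matrix.mul_apply, Matrix.one_apply]
  have h1 := congrFun (congrFun (T_mul_N h3 m hm) i) k
  rw [Matrix.mul_apply, Matrix.one_apply] at h1
  have h2 := congrArg (Int.cast : ℤ → ℂ) h1
  push_cast at h2
  exact h2

lemma NC_row (i : Fin (m + 1)) : ((uu p m i : ℤ) : ℂ) = ∑ j, NC p m i j := by
  rw [uu]; push_cast; rfl

include h3 hm in
lemma NC_col (j : Fin (m + 1)) : -((uu p m j : ℤ) : ℂ) = ∑ i, NC p m i j := by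
  have := congrArg (Int.cast : ℤ → ℂ) (sum_N h3 m hm j)
  push_cast at this
  exact this.symm

include h3 hm in
lemma NC_zero (i : Fin (m + 1)) : NC p m i i = 0 := by
  have := N_skew h3 m hm i i
  have h : N p m i i = 0 := by omega
  rw [NC, Matrix.map_apply, h, Int.cast_zero]

include h3 hm in
lemma sum_uuC : (0 : ℂ) = ∑ j, ((uu p m j : ℤ) : ℂ) := by
  have := congrArg (Int.cast : ℤ → ℂ) (sum_uu h3 m hm)
  push_cast at this
  exact this.symm

include h3 hm in
theorem eval_m3 (x : ℂ) :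
    (Matrix.of fun i j : Fin m => TC p m i j + x).det = x := by
  have h := minor0 m (TC p (m + 1)) (NC p m) (TN h3 m hm) x (fun i => ((uu p m i : ℤ) : ℂ))
    (fun i => -((uu p m i : ℤ) : ℂ)) (fun i => NC_row m i)
    (fun j => NC_col h3 m hm j) 0 (sum_uuC h3 m hm) (by rw [mul_zero, add_zero]; exact one_ne_zero)
    (fun i j => TC p m i j) (by
      intro i j
      rw [TC, Matrix.map_apply, TC, Matrix.map_apply, T_succ])
  obtain ⟨β, hβ, hu0, -⟩ := values h3 m hm
  refine h.trans ?_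
  rw [TC_det, T_det h3 m hm, NC_zero h3 m hm]
  have hu0' : ((uu p m 0 : ℤ) : ℂ) = -β := hu0
  simp only [hu0']
  push_cast
  linear_combination x * hβ

end three

section three'

variable (h3 : p % 4 = 3) (r : ℕ) (hm : p = 2 * (r + 1) + 1)

include h3 hm in
theorem eval_r3 (x : ℂ) :
    (Matrix.of fun i j : Fin r => TC p r i j + x).det = 1 := by
  have hp2 : p ≠ 2 := by rintro rfl; omega
  have hc2 : chi p ℂ 2 * chi p ℂ 2 = 1 := chi_sq (two_ne hp2)
  have h := minor2 r (TC p (r + 1 + 1)) (NC p (r + 1)) (TN h3 (r + 1) hm) x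
    (fun i => ((uu p (r + 1) i : ℤ) : ℂ))
    (fun i => -((uu p (r + 1) i : ℤ) : ℂ)) (fun i => NC_row (r + 1) i)
    (fun j => NC_col h3 (r + 1) hm j) 0 (sum_uuC h3 (r + 1) hm)
    (by rw [mul_zero, add_zero]; exact one_ne_zero)
    (fun i j => TC p r i j) (by
      intro i j
      rw [TC_apply, TC_apply]
      congr 1
      rw [Fin.val_succ, Fin.val_succ, Fin.val_castSucc, Fin.val_castSucc]
      push_cast
      ring)
  obtain ⟨β, hβ, hu0, hum, -, -, hN, -⟩ := values h3 (r + 1) hm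
  have hu0' : ((uu p (r + 1) 0 : ℤ) : ℂ) = -β := hu0
  have hum' : ((uu p (r + 1) (Fin.last (r + 1)) : ℤ) : ℂ) = β := by
    rw [← hum]
    simp [Chapman.ext, Fin.last]
  have hNl : NC p (r + 1) (Fin.last (r + 1)) 0 = chi p ℂ 2 := by
    rw [← hN]
    simp [Chapman.ext, Fin.last, NC]
  have hN0 : NC p (r + 1) 0 (Fin.last (r + 1)) = -chi p ℂ 2 := by
    rw [← hNl, NC, Matrix.map_apply, Matrix.map_apply, N_skew h3 (r + 1) hm]
    push_cast
    ring
  rw [TC_det, T_det h3 (r + 1) hm, NC_zero h3 (r + 1) hm, NC_zero h3 (r + 1) hm, hNl, hN0] at h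
  simp only [hu0', hum'] at h
  push_cast at h
  linear_combination h + x * x * (β * β + 1) * hβ * 0 + hc2

end three'

end Pool.Agent.V11306.Toep
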