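import Mathlib
import Pool.Agent.V11306.ToepV

/-!
# Determinants with four parameters
-/

set_option autoImplicit false

namespace Pool.Agent.V11306.Toep

open Finset Polynomial NumberField

open Pool.Agent.Helper184

open Pool.Agent.Helper184.Chapman (chi chi_apply chi_sq T)

variable {p : ℕ} [hpf : Fact p.Prime]

/-- The matrix `x + ((j-k)/p) + (j/p) y + (k/p) z + (jk/p) w`, `0 ≤ j, k < n`. -/
noncomputable def MM (p : ℕ) [Fact p.Prime] (n : ℕ) (x y z w : ℂ) : Matrix (Fin n) (Fin n) ℂ :=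
  Matrix.of fun j k => x + (legendreSym p (((j : ℕ) : ℤ) - ((k : ℕ) : ℤ)) : ℂ) +
    (legendreSym p ((j : ℕ) : ℤ) : ℂ) * y + (legendreSym p ((k : ℕ) : ℤ) : ℂ) * z +
    (legendreSym p (((j : ℕ) : ℤ) * ((k : ℕ) : ℤ)) : ℂ) * w

lemma leg_chi (a : ℤ) : (legendreSym p a : ℂ) = chi p ℂ (a : ZMod p) := by
  rw [legendreSym, chi_apply]

lemma MM_det (n : ℕ) (s D S : ℂ)
    (H : ∀ x : ℂ, 1 + x * s ≠ 0 → (Matrix.of fun j k : Fin (n + 1) => TC p (n + 1) j k + x).det =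
      D + x * S) (x y z w : ℂ) :
    (MM p (n + 1) x y z w).det =
      D * ((1 + y) * (1 + ep p ℂ * z) - ep p ℂ * w * x) + x * S := by
  rw [← four (fun j k => TC p (n + 1) j k) (by rw [TC_apply, sub_self, MulChar.map_zero])
    (ep p ℂ) s D S H x y z w]
  congr 1
  ext j k
  rw [MM, Matrix.of_apply, Matrix.of_apply, TC_apply, TC_apply, TC_apply]
  have e1 : (((0 : Fin (n + 1)) : ℕ) : ZMod p) = 0 := by simp
  rw [e1, sub_zero, zero_sub, chi_neg', ← mul_assoc (ep p ℂ), ep_sq, one_mul, leg_chi, leg_chi,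
    leg_chi, leg_chi]
  push_cast
  rw [map_mul]

theorem MM_m3 (h3 : p % 4 = 3) (m : ℕ) (hm : p = 2 * m + 1) (x y z w : ℂ) :
    (MM p m x y z w).det = x := by
  obtain ⟨n, rfl⟩ : ∃ n, m = n + 1 := ⟨m - 1, by have := hpf.out.one_lt; omega⟩
  have := MM_det (p := p) n 0 0 1 (fun x _ => by rw [eval_m3 h3 (n + 1) hm]; ring) x y z w
  rw [this]; ring

theorem MM_r3 (h3 : p % 4 = 3) (n : ℕ) (hm : p = 2 * (n + 1 + 1) + 1) (x y z w : ℂ) :
    (MM p (n + 1) x y z w).det = w * x + (1 + y) * (1 - z) := by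
  have := MM_det (p := p) n 0 1 0 (fun x _ => by rw [eval_r3 h3 (n + 1) hm]; ring) x y z w
  rw [this, ep_three h3]; ring

section one

variable (h1 : p % 4 = 1) (K : Type) [Field K] [NumberField K]
    (h2 : Module.finrank ℚ K = 2) (α : K)
    (hα : α ^ 2 = (p : K)) (σ : K →+* ℝ) (hσ : 0 < σ α) (ε : (𝓞 K)ˣ)
    (hε : 1 < σ ((ε : 𝓞 K) : K))
    (hfund : ∀ u : (𝓞 K)ˣ, ∃ n : ℤ, u = ε ^ n ∨ u = -ε ^ n) (a b : ℚ)
    (hab : ((ε : 𝓞 K) : K) ^ ((2 - legendreSym p 2) * (classNumber K : ℤ)) =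
      algebraMap ℚ K a + algebraMap ℚ K b * α)

include h1 h2 hα hσ hε hfund hab in
theorem values_ab (m : ℕ) (hm : p = 2 * m + 1) :
    a = -(((T p ℤ (m + 1)).det : ℤ) : ℚ) ∧
    b = ((quadraticChar (ZMod p) 2 : ℤ) : ℚ) * (((T p ℤ m).det : ℤ) : ℚ) := by
  obtain ⟨hD, hη, -⟩ := data_one h1 m hm K h2 α hα σ hσ ε hε hfund
  have e : legendreSym p 2 = quadraticChar (ZMod p) 2 := by
    rw [legendreSym]; norm_num
  rw [e] at hab
  rw [hab] at hη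
  obtain ⟨e1, e2⟩ := CnfG.half_unique α hα a b _ _ hη
  simp only [Int.cast_mul, Int.cast_neg, Int.cast_ofNat] at e1 e2
  constructor
  · linarith
  · linarith

include h1 h2 hα hσ hε hfund hab in
theorem MM_m1 (m : ℕ) (hm : p = 2 * m + 1) (x y z w : ℂ) :
    (MM p m x y z w).det = -(a : ℂ) * x - (legendreSym p 2 : ℂ) * b *
      (w * x - (y + 1) * (z + 1)) := by
  obtain ⟨n, rfl⟩ : ∃ n, m = n + 1 := ⟨m - 1, by have := hpf.out.one_lt; omega⟩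
  obtain ⟨hD, -, γ, u0, um, hγ, hs, x0, xm⟩ := data_one h1 (n + 1) hm K h2 α hα σ hσ ε hε hfund
  obtain ⟨ha, hb⟩ := values_ab h1 K h2 α hα σ hσ ε hε hfund a b hab (n + 1) hm
  have hp2 : p ≠ 2 := by rintro rfl; omega
  have hc2 : chi p ℂ 2 * chi p ℂ 2 = 1 := chi_sq (two_ne hp2)
  have := MM_det (p := p) n (∑ i, uC p (n + 1) i) _ _
    (fun x hx => eval_m h1 (n + 1) hm γ hD u0 hγ hs x0 x hx) x y z w
  have hep : ep p ℂ = 1 := by rw [CnfD.ep_eq, CnfD.ez_one h1]; simp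
  have e : (legendreSym p 2 : ℂ) = chi p ℂ 2 := by
    rw [leg_chi]; norm_num
  have hac : (a : ℂ) = -(((T p ℤ (n + 1 + 1)).det : ℤ) : ℂ) := by
    rw [ha]; push_cast; rfl
  have hbc : (b : ℂ) = chi p ℂ 2 * (((T p ℤ (n + 1)).det : ℤ) : ℂ) := by
    rw [hb, chi_apply]; push_cast; rfl
  rw [this, hep, e, hac, hbc]
  linear_combination ((((T p ℤ (n + 1)).det : ℤ) : ℂ) * (w * x - (y + 1) * (z + 1))) * hc2

include h1 h2 hα hσ hε hfund hab in
theorem MM_r1 (n : ℕ) (hm : p = 2 * (n + 1 + 1) + 1) (x y z w : ℂ) :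
    (MM p (n + 1) x y z w).det =
      (legendreSym p 2 : ℂ) * (2 * (a : ℂ) - p * b) * x +
      ((a : ℂ) - 2 * b) * ((1 + y) * (1 + z) - w * x) := by
  obtain ⟨hD, -, γ, u0, um, hγ, hs, x0, xm⟩ := data_one h1 (n + 1 + 1) hm K h2 α hα σ hσ ε hε hfund
  obtain ⟨ha, hb⟩ := values_ab h1 K h2 α hα σ hσ ε hε hfund a b hab (n + 1 + 1) hm
  have hp2 : p ≠ 2 := by rintro rfl; omega
  have hc2 : chi p ℂ 2 * chi p ℂ 2 = 1 := chi_sq (two_ne hp2)
  have := MM_det (p := p) n (∑ i, uC p (n + 1 + 1) i) _ _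
    (fun x hx => eval_r h1 (n + 1) hm γ hD u0 um hγ hs x0 xm x hx) x y z w
  have hep : ep p ℂ = 1 := by rw [CnfD.ep_eq, CnfD.ez_one h1]; simp
  have e : (legendreSym p 2 : ℂ) = chi p ℂ 2 := by
    rw [leg_chi]; norm_num
  have hac : (a : ℂ) = -(((T p ℤ (n + 1 + 1 + 1)).det : ℤ) : ℂ) := by
    rw [ha]; push_cast; rfl
  have hbc : (b : ℂ) = chi p ℂ 2 * (((T p ℤ (n + 1 + 1)).det : ℤ) : ℂ) := by
    rw [hb, chi_apply]; push_cast; rfl
  rw [this, hep, e, hac, hbc]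
  linear_combination ((p : ℂ) * (((T p ℤ (n + 1 + 1)).det : ℤ) : ℂ) * x) * hc2

end one

end Pool.Agent.V11306.Toep
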