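import Mathlib
import Pool.Agent.V11306.ToepW
import Pool.Agent.V11306.CnfH

/-!
# The sign for `p ≡ 3 (mod 4)`
-/

set_option autoImplicit false

namespace Pool.Agent.V11306.Toep

open Finset Polynomial

open Pool.Agent.Helper184.Chapman (chi chi_apply chi_sq)

variable {p : ℕ} [hpf : Fact p.Prime]

/-- the product over the residues -/
lemma prod_res (h3 : p % 4 = 3) :
    ∏ k ∈ (univ : Finset (ZMod p)).filter (fun k => quadraticChar (ZMod p) k = 1), k = 1 := by
  apply Finset.prod_involution (fun k _ => k⁻¹)
  · intro a ha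
    rw [Finset.mem_filter] at ha
    have ha0 : a ≠ 0 := by
      rintro rfl
      rw [quadraticChar_zero] at ha
      exact absurd ha.2 (by norm_num)
    exact mul_inv_cancel₀ ha0
  · intro a ha hne h
    rw [Finset.mem_filter] at ha
    have ha0 : a ≠ 0 := by
      rintro rfl
      rw [quadraticChar_zero] at ha
      exact absurd ha.2 (by norm_num)
    have h2 : a * a = 1 := by
      have h5 := inv_mul_cancel₀ ha0
      rwa [h] at h5
    rcases mul_self_eq_one_iff.mp h2 with h3 | h3
    · exact hne h3
    · rw [h3] at ha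
      have := CnfD.ez_three ‹p % 4 = 3›
      rw [CnfD.ez] at this
      rw [this] at ha
      exact absurd ha.2 (by norm_num)
  · intro a _
    exact inv_inv a
  · intro a ha
    rw [Finset.mem_filter] at ha ⊢
    refine ⟨Finset.mem_univ _, ?_⟩
    have ha0 : a ≠ 0 := by
      rintro rfl
      rw [quadraticChar_zero] at ha
      exact absurd ha.2 (by norm_num)
    have h2 : quadraticChar (ZMod p) a * quadraticChar (ZMod p) a⁻¹ = 1 := by
      rw [← map_mul, mul_inv_cancel₀ ha0, map_one]
    rw [ha.2] at h2
    omega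

/-- the polynomial factor -/
noncomputable def fg (p : ℕ) [Fact p.Prime] (R : Type*) [CommRing R] (k : ZMod p) : R[X] :=
  1 - C ((quadraticChar (ZMod p) k : ℤ) : R) * X ^ k.val

lemma fg_comp (k : ZMod p) (hk : k ≠ 0) :
    ∃ q : (ZMod p)[X], (fg p (ZMod p) k).comp (X + 1) =
      (if quadraticChar (ZMod p) k = -1 then 1 else X) * q ∧
      q.eval 0 = (if quadraticChar (ZMod p) k = -1 then 2 else -k) := by
  rcases quadraticChar_dichotomy (F := ZMod p) hk with h | h
  · refine ⟨-∑ i ∈ range k.val, (X + 1) ^ i, ?_, ?_⟩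
    · rw [h, if_neg (by norm_num), fg, h]
      have := geom_sum_mul (X + 1 : (ZMod p)[X]) k.val
      simp only [sub_comp, mul_comp, pow_comp, X_comp, C_comp, one_comp]
      rw [add_sub_cancel_right] at this
      push_cast
      simp only [map_one]
      linear_combination this
    · rw [h, if_neg (by norm_num)]
      simp [eval_finsetSum]
  · refine ⟨(fg p (ZMod p) k).comp (X + 1), ?_, ?_⟩
    · rw [if_pos h, one_mul]
    · rw [if_pos h, fg, h]
      simp
      norm_num

/-- the sign -/
theorem sign_lemma3 (h3 : p % 4 = 3) (m : ℕ) (hm : p = 2 * m + 1) (a : ℤ)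
    (h : (PP (ZMod.stdAddChar (N := p))).eval 1 = a * gs (ZMod.stdAddChar (N := p))) :
    (a : ZMod p) = ((quadraticChar (ZMod p) 2 : ℤ) : ZMod p) * (m.factorial : ZMod p) := by
  have hp2 : p ≠ 2 := by rintro rfl; omega
  have hpos : 0 < p := hpf.out.pos
  have hm0 : 0 < m := by have := hpf.out.one_lt; omega
  set ζ : ℂ := (ZMod.stdAddChar (1 : ZMod p) : ℂ) with hζ
  have hζp : IsPrimitiveRoot ζ p := by
    have := (ZMod.isPrimitive_stdAddChar p)
    rw [hζ]
    have h3 := ZMod.stdAddChar_coe (N := p) 1
    have h4 : (ZMod.stdAddChar (1 : ZMod p) : ℂ) = Complex.exp (2 * Real.pi * Complex.I / p) := by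
      rw [Int.cast_one, Int.cast_one] at h3
      rw [h3]
      congr 1
      ring
    rw [h4]
    exact Complex.isPrimitiveRoot_exp p hpos.ne'
  have hval : ∀ k : ZMod p, (ZMod.stdAddChar k : ℂ) = ζ ^ k.val := by
    intro k
    rw [hζ, ← AddChar.map_nsmul_eq_pow, nsmul_eq_mul, mul_one, ZMod.natCast_zmod_val]
  set F : ℤ[X] := ∏ k ∈ univ.erase (0 : ZMod p), fg p ℤ k -
    C a * ∑ k : ZMod p, C (quadraticChar (ZMod p) k : ℤ) * X ^ k.val with hF
  have hroot : aeval ζ F = 0 := by
    rw [hF]
    simp only [map_sub, map_mul, map_sum, map_pow, aeval_X, map_prod, fg, map_one,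
      eq_intCast, Int.cast_id, map_intCast]
    have e1 : ∏ k ∈ univ.erase (0 : ZMod p), (1 - ((quadraticChar (ZMod p) k : ℤ) : ℂ) * ζ ^ k.val) =
        (PP (ZMod.stdAddChar (N := p))).eval 1 := by
      rw [PP, eval_prod]
      simp only [eval_sub, eval_X, eval_C, sv]
      exact Finset.prod_congr rfl fun k _ => by rw [chi_apply, hval]
    have e2 : ∑ k : ZMod p, ((quadraticChar (ZMod p) k : ℤ) : ℂ) * ζ ^ k.val =
        gs (ZMod.stdAddChar (N := p)) := by
      rw [gs, gaussSum]
      exact Finset.sum_congr rfl fun k _ => by rw [chi_apply, hval]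
    rw [e1, e2, h]
    ring
  have hdvd : cyclotomic p ℤ ∣ F := by
    rw [cyclotomic_eq_minpoly hζp hpos]
    exact minpoly.isIntegrallyClosed_dvd (hζp.isIntegral hpos) hroot
  obtain ⟨G, hG⟩ := hdvd
  have hG2 : ((F.map (Int.castRingHom (ZMod p))).comp (X + 1)).coeff m =
      (((cyclotomic p ℤ * G).map (Int.castRingHom (ZMod p))).comp (X + 1)).coeff m := by rw [hG]
  -- the right side
  have hR : (((cyclotomic p ℤ * G).map (Int.castRingHom (ZMod p))).comp (X + 1)).coeff m = 0 := by
    rw [Polynomial.map_mul, map_cyclotomic, mul_comp]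
    have e3 : cyclotomic p (ZMod p) = (X - 1) ^ (2 * m) := by
      have := cyclotomic_mul_prime_pow_eq (ZMod p) (p := p) (m := 1) (k := 1)
        (by rw [Nat.dvd_one]; exact hpf.out.one_lt.ne') one_pos
      have e : p ^ 1 - p ^ (1 - 1) = 2 * m := by
        rw [pow_one, Nat.sub_self, pow_zero]; omega
      rw [e, pow_one, mul_one, cyclotomic_one] at this
      exact this
    rw [e3, pow_comp, sub_comp, X_comp, one_comp, add_sub_cancel_right, coeff_X_pow_mul',
      if_neg (show ¬ 2 * m ≤ m by omega)]
  -- the left side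
  choose! q hq1 hq2 using (fun (k : ZMod p) (hk : k ≠ 0) => fg_comp k hk)
  have hfilter : (univ.erase (0 : ZMod p)).filter (fun k => quadraticChar (ZMod p) k = -1) =
      univ.filter (fun k => quadraticChar (ZMod p) k = -1) := by
    ext k
    simp only [Finset.mem_filter, Finset.mem_erase, Finset.mem_univ, and_true, true_and,
      and_iff_right_iff_imp]
    rintro hk rfl
    rw [quadraticChar_zero] at hk
    exact absurd hk (by norm_num)
  have hfilter' : (univ.erase (0 : ZMod p)).filter (fun k => ¬ quadraticChar (ZMod p) k = -1) =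
      univ.filter (fun k => quadraticChar (ZMod p) k = 1) := by
    ext k
    simp only [Finset.mem_filter, Finset.mem_erase, Finset.mem_univ, and_true, true_and]
    constructor
    · rintro ⟨hk0, hk⟩
      exact (quadraticChar_dichotomy (F := ZMod p) hk0).resolve_right hk
    · intro hk
      refine ⟨?_, by rw [hk]; norm_num⟩
      rintro rfl
      rw [quadraticChar_zero] at hk
      exact absurd hk (by norm_num)
  have hcardN := card_nonres hp2 m hm
  have hcardR : ((univ.erase (0 : ZMod p)).filter
      (fun k => ¬ quadraticChar (ZMod p) k = -1)).card = m := by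
    have := Finset.card_filter_add_card_filter_not (s := univ.erase (0 : ZMod p))
      (fun k => quadraticChar (ZMod p) k = -1)
    rw [hfilter, hcardN, card_S m hm] at this
    omega
  have hprodX : ∏ k ∈ univ.erase (0 : ZMod p),
      (if quadraticChar (ZMod p) k = -1 then 1 else (X : (ZMod p)[X])) = X ^ m := by
    rw [Finset.prod_ite, Finset.prod_const_one, one_mul, Finset.prod_const, hcardR]
  have hprodq : ∏ k ∈ univ.erase (0 : ZMod p),
      (if quadraticChar (ZMod p) k = -1 then (2 : ZMod p) else -k) =
      -((quadraticChar (ZMod p) 2 : ℤ) : ZMod p) := by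
    rw [Finset.prod_ite, hfilter, Finset.prod_const, hcardN, chi_pow hp2 m hm]
    have : ∀ k : ZMod p, -k = (-1) * k := fun k => by ring
    rw [Finset.prod_congr rfl (fun k _ => this k), Finset.prod_mul_distrib, Finset.prod_const,
      hcardR, hfilter', prod_res h3]
    have he : Odd m := by rw [Nat.odd_iff]; omega
    rw [he.neg_one_pow]; ring
  have hL : ((F.map (Int.castRingHom (ZMod p))).comp (X + 1)).coeff m =
      -((quadraticChar (ZMod p) 2 : ℤ) : ZMod p) - (a : ZMod p) *
        ∑ k : ZMod p, ((quadraticChar (ZMod p) k : ℤ) : ZMod p) *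
      ((k.val.choose m : ℕ) : ZMod p) := by
    rw [hF]
    simp only [Polynomial.map_sub, Polynomial.map_mul, Polynomial.map_prod, map_C,
      Polynomial.map_sum, Polynomial.map_pow, map_X, sub_comp, mul_comp, C_comp,
      Polynomial.prod_comp]
    rw [coeff_sub, coeff_C_mul]
    congr 1
    · have e6 : ∀ k : ZMod p, ((fg p ℤ k).map (Int.castRingHom (ZMod p))) = fg p (ZMod p) k := by
        intro k
        simp [fg]
      have e7 : ∏ k ∈ univ.erase (0 : ZMod p),
          ((fg p ℤ k).map (Int.castRingHom (ZMod p))).comp (X + 1) =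
          X ^ m * ∏ k ∈ univ.erase (0 : ZMod p), q k := by
        rw [← hprodX, ← Finset.prod_mul_distrib]
        refine Finset.prod_congr rfl fun k hk => ?_
        have hk0 : k ≠ 0 := by simpa using hk
        rw [e6, hq1 k hk0]
      rw [e7, coeff_X_pow_mul', if_pos le_rfl, Nat.sub_self, coeff_zero_eq_eval_zero, eval_prod,
        ← hprodq]
      refine Finset.prod_congr rfl fun k hk => ?_
      have hk0 : k ≠ 0 := by simpa using hk
      exact hq2 k hk0
    · congr 1
      rw [Polynomial.sum_comp, finsetSum_coeff]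
      refine Finset.sum_congr rfl fun k _ => ?_
      rw [mul_comp, C_comp, pow_comp, X_comp, coeff_C_mul, coeff_X_add_one_pow]
      rfl
  rw [hL, hR] at hG2
  have h9 := gauss_coeff hp2 m hm
  linear_combination (m.factorial : ZMod p) * hG2 + (a : ZMod p) * h9

end Pool.Agent.V11306.Toep
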