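import Mathlib
import Pool.Agent.V11306.ToepX
import Pool.Agent.V11306.Toep4

/-!
# The sign of the Gauss sum and the class number for `p ≡ 3 (mod 4)`
-/

set_option autoImplicit false

namespace Pool.Agent.V11306.Toep

open Finset Polynomial NumberField

open Pool.Agent.Helper184

open Pool.Agent.Helper184.Chapman (chi chi_apply chi_sq T)

variable {p : ℕ} [hpf : Fact p.Prime]

lemma succ_ne (m : ℕ) (hm : p = 2 * m + 1) (j : ℕ) (hj : j ∈ range m) :
    ((j + 1 : ℕ) : ZMod p) ≠ 0 := by
  rw [Finset.mem_range] at hj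
  rw [Ne, ZMod.natCast_eq_zero_iff]
  intro h
  have := Nat.le_of_dvd (by omega) h
  omega

lemma mu_eq (m : ℕ) : quadraticChar (ZMod p) (m.factorial : ZMod p) =
    ∏ j ∈ range m, quadraticChar (ZMod p) ((j + 1 : ℕ) : ZMod p) := by
  rw [← Finset.prod_range_add_one_eq_factorial, Nat.cast_prod, map_prod]

/-- `m!` is a sign -/
lemma fact_mu (h3 : p % 4 = 3) (m : ℕ) (hm : p = 2 * m + 1) :
    (m.factorial : ZMod p) = ((quadraticChar (ZMod p) (m.factorial : ZMod p) : ℤ) : ZMod p) := by
  have h1 := fact_sq (p := p) m hm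
  have he : Odd m := by rw [Nat.odd_iff]; omega
  rw [he.neg_one_pow] at h1
  have h2 : (m.factorial : ZMod p) * (m.factorial : ZMod p) = 1 := by linear_combination -h1
  rcases mul_self_eq_one_iff.mp h2 with h | h
  · rw [h, map_one]; simp
  · have := CnfD.ez_three h3
    rw [CnfD.ez] at this
    rw [h, this]; simp

/-- the explicit value of `PP` at `1` -/
lemma P1_sign (h3 : p % 4 = 3) (m : ℕ) (hm : p = 2 * m + 1) : ∃ r : ℝ, 0 < r ∧
    (PP (ZMod.stdAddChar (N := p))).eval 1 =
      ((quadraticChar (ZMod p) (m.factorial : ZMod p) : ℤ) : ℂ) * (-Complex.I) ^ m * r := by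
  have e1 : (PP (ZMod.stdAddChar (N := p))).eval 1 =
      ∏ k ∈ univ.erase (0 : ZMod p), (1 - sv (ZMod.stdAddChar (N := p)) k) := by
    rw [PP, eval_prod]; simp
  have hp0 : (0 : ℝ) < p := by exact_mod_cast hpf.out.pos
  rw [e1, CnfF.prod_pair m hm, mu_eq]
  refine ⟨∏ j ∈ range m, (2 * Real.sin (2 * Real.pi * (j + 1) / p)), ?_, ?_⟩
  · apply Finset.prod_pos
    intro j hj
    rw [Finset.mem_range] at hj
    have hpi := Real.pi_pos
    have h1 : 0 < 2 * Real.pi * (j + 1) / p := by positivity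
    have h2 : 2 * Real.pi * (j + 1) / p < Real.pi := by
      rw [div_lt_iff₀ hp0]
      have h4 : (2 * (j + 1) : ℝ) < p := by
        have : 2 * (j + 1) < p := by omega
        exact_mod_cast this
      nlinarith
    have := Real.sin_pos_of_pos_of_lt_pi h1 h2
    positivity
  · rw [Int.cast_prod, Complex.ofReal_prod]
    have e2 : (-Complex.I) ^ m = ∏ _j ∈ range m, (-Complex.I) := by
      rw [Finset.prod_const, Finset.card_range]
    rw [e2, ← Finset.prod_mul_distrib, ← Finset.prod_mul_distrib]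
    refine Finset.prod_congr rfl fun j hj => ?_
    have hj0 := succ_ne m hm j hj
    have hneg := sv_neg (ZMod.stdAddChar (N := p)) hj0
    rw [ep_three h3] at hneg
    have hsv : sv (ZMod.stdAddChar (N := p)) (-((j + 1 : ℕ) : ZMod p)) =
        - chi p ℂ ((j + 1 : ℕ) : ZMod p) * ZMod.stdAddChar (-((j + 1 : ℕ) : ZMod p)) := by
      rw [sv, chi_neg', ep_three h3]; ring
    have h5 : (1 - sv (ZMod.stdAddChar (N := p)) ((j + 1 : ℕ) : ZMod p)) *
        (1 - sv (ZMod.stdAddChar (N := p)) (-((j + 1 : ℕ) : ZMod p))) =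
        - chi p ℂ ((j + 1 : ℕ) : ZMod p) * (ZMod.stdAddChar ((j + 1 : ℕ) : ZMod p) -
          ZMod.stdAddChar (-((j + 1 : ℕ) : ZMod p))) := by
      have : (1 - sv (ZMod.stdAddChar (N := p)) ((j + 1 : ℕ) : ZMod p)) *
        (1 - sv (ZMod.stdAddChar (N := p)) (-((j + 1 : ℕ) : ZMod p))) =
        - sv (ZMod.stdAddChar (N := p)) ((j + 1 : ℕ) : ZMod p) -
          sv (ZMod.stdAddChar (N := p)) (-((j + 1 : ℕ) : ZMod p)) := by
        linear_combination hneg
      rw [this, hsv, sv]
      ring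
    rw [h5]
    have hval : (ZMod.stdAddChar ((j + 1 : ℕ) : ZMod p) : ℂ) =
        Complex.exp (2 * Real.pi * (j + 1) / p * Complex.I) := by
      have h6 := ZMod.stdAddChar_coe (N := p) ((j + 1 : ℕ) : ℤ)
      have h7 : ((((j + 1 : ℕ) : ℤ)) : ZMod p) = ((j + 1 : ℕ) : ZMod p) := by push_cast; rfl
      rw [h7] at h6
      rw [h6]
      congr 1
      push_cast
      ring
    have hvaln : (ZMod.stdAddChar (-((j + 1 : ℕ) : ZMod p)) : ℂ) =
        Complex.exp (-(2 * Real.pi * (j + 1) / p) * Complex.I) := by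
      rw [AddChar.map_neg_eq_inv, hval, ← Complex.exp_neg]
      congr 1
      ring
    have hsin : Complex.exp (2 * Real.pi * (j + 1) / p * Complex.I) -
        Complex.exp (-(2 * Real.pi * (j + 1) / p) * Complex.I) =
        2 * Complex.I * Complex.sin (2 * Real.pi * (j + 1) / p) := by
      rw [Complex.sin]
      linear_combination (Complex.exp (2 * Real.pi * (j + 1) / p * Complex.I) -
        Complex.exp (-(2 * Real.pi * (j + 1) / p) * Complex.I)) * Complex.I_mul_I
    rw [hval, hvaln, hsin, chi_apply]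
    push_cast
    ring

/-- the value of `PP` at `1` in terms of the last coordinate of `uu` -/
lemma beta_P (h3 : p % 4 = 3) (m : ℕ) (hm : p = 2 * m + 1) :
    ((uu p m (Fin.last m) : ℤ) : ℂ) * (PP (ZMod.stdAddChar (N := p))).eval 1 =
      - chi p ℂ 2 * gs (ZMod.stdAddChar (N := p)) ∧
    ((uu p m (Fin.last m) : ℤ) : ℂ) * ((uu p m (Fin.last m) : ℤ) : ℂ) = 1 := by
  have hp := (Fact.out : p.Prime).two_le
  have hp2 : p ≠ 2 := by omega
  have hm1 : 1 ≤ m := by omega
  have h2 : (2 : ℂ) ≠ 0 := two_ne_zero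
  have hp0 : (p : ℂ) ≠ 0 := by exact_mod_cast (by omega : p ≠ 0)
  have hε := ep_three h3 ℂ
  set ψ : AddChar (ZMod p) ℂ := ZMod.stdAddChar with hψd
  have hψ : ψ.IsPrimitive := ZMod.isPrimitive_stdAddChar p
  have hg2 := gs_sq hp2 h2 hψ
  have hP2 := PP_neg_one hp2 hε ψ m hm
  set g := gs ψ with hg
  set κ := kap ψ with hκ
  have hκp : κ * p = - chi p ℂ 2 * g := by
    rw [hκ, kap, ← hg, hε]
    field_simp
  have hPtop := PP_top ψ m hm
  obtain ⟨β, b0, b1, b2⟩ := core2 m hm h2 hp0 ψ hψ (fun j => ((Chapman.ext (uu p m) j : ℤ) : ℂ)) 0 1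
    (by
      intro i hi
      have := cast_sys (K := ℂ) (m + 1) (uu p m) (fun _ => 1) (fun i => T_uu h3 m hm i) i hi
      rw [this]; simp)
  simp only [zero_mul, sub_zero, mul_one] at b1 b2
  rw [hP2] at b2
  have hβ : β * (PP ψ).eval 1 = κ * p := by
    have : 2 * (β * (PP ψ).eval 1) = 2 * (κ * p) := by linear_combination b2
    exact mul_left_cancel₀ h2 this
  have hum : ((uu p m (Fin.last m) : ℤ) : ℂ) = β := by
    have := b1 (m - 1) (by rw [Finset.mem_range]; omega)
    rw [show m - 1 + 1 = m by omega, show 2 * (m - 1) + 2 = 2 * m by omega, hPtop, mul_one] at this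
    rw [← this]
    simp [Chapman.ext, Fin.last]
  obtain ⟨β', hβ', -, hum', -⟩ := values h3 m hm
  have hum2 : ((Chapman.ext (uu p m) m : ℤ) : ℂ) = ((uu p m (Fin.last m) : ℤ) : ℂ) := by
    simp [Chapman.ext, Fin.last]
  constructor
  · rw [hum, hβ, hκp]
  · rw [← hum2, hum', hβ']

/-- the last coordinate of `uu` as a Legendre symbol -/
theorem uu_last (h3 : p % 4 = 3) (m : ℕ) (hm : p = 2 * m + 1) :
    uu p m (Fin.last m) = - quadraticChar (ZMod p) (m.factorial : ZMod p) := by
  have hp2 : p ≠ 2 := by rintro rfl; omega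
  obtain ⟨h1, h2⟩ := beta_P h3 m hm
  set b : ℤ := uu p m (Fin.last m) with hb
  have hbb : b * b = 1 := by exact_mod_cast h2
  have h4 : (PP (ZMod.stdAddChar (N := p))).eval 1 =
      ((-(quadraticChar (ZMod p) 2) * b : ℤ) : ℂ) * gs (ZMod.stdAddChar (N := p)) := by
    have : chi p ℂ 2 = ((quadraticChar (ZMod p) 2 : ℤ) : ℂ) := rfl
    rw [this] at h1
    push_cast
    linear_combination (b : ℂ) * h1 - (PP (ZMod.stdAddChar (N := p))).eval 1 * h2
  have h5 := sign_lemma3 h3 m hm _ h4
  rw [fact_mu h3 m hm] at h5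
  set c : ℤ := quadraticChar (ZMod p) 2 with hc
  set μ : ℤ := quadraticChar (ZMod p) (m.factorial : ZMod p) with hμ
  have hcc : c * c = 1 := by
    have := chi_sq (p := p) (K := ℂ) (k := 2) (two_ne hp2)
    rw [chi_apply, ← hc] at this
    exact_mod_cast this
  have hμ1 : μ = 1 ∨ μ = -1 := quadraticChar_dichotomy (fact_ne m hm)
  have hb1 : b = 1 ∨ b = -1 := by
    have h8 : (b - 1) * (b + 1) = 0 := by linear_combination hbb
    rcases mul_eq_zero.mp h8 with h | h
    · left; linarith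
    · right; linarith
  have hccz : (c : ZMod p) * (c : ZMod p) = 1 := by exact_mod_cast congrArg (Int.cast : ℤ → ZMod p) hcc
  have h6 : ((b + μ : ℤ) : ZMod p) = 0 := by
    push_cast at h5 ⊢
    linear_combination (-(c : ZMod p)) * h5 - ((b : ZMod p) + μ) * hccz
  have h7 : (p : ℤ) ∣ b + μ := (ZMod.intCast_zmod_eq_zero_iff_dvd _ p).mp h6
  have hp3 : (3 : ℤ) ≤ p := by
    have := hpf.out.two_le
    omega
  rcases hb1 with h | h <;> rcases hμ1 with h' | h'
  · exfalso
    rw [h, h'] at h7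
    have := Int.le_of_dvd (by norm_num) h7
    omega
  · rw [h, h']; norm_num
  · rw [h, h']
  · exfalso
    rw [h, h'] at h7
    have h9 : (p : ℤ) ∣ 2 := by
      have := h7.neg_right
      norm_num at this
      exact this
    have := Int.le_of_dvd (by norm_num) h9
    omega

/-- the sign of the Gauss sum -/
theorem gs_three (h3 : p % 4 = 3) : gs (ZMod.stdAddChar (N := p)) = Complex.I * Real.sqrt p := by
  obtain ⟨m, hm⟩ : ∃ m, p = 2 * m + 1 := ⟨p / 2, by omega⟩
  have hp2 : p ≠ 2 := by rintro rfl; omega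
  have hp0 : (0 : ℝ) < p := by exact_mod_cast hpf.out.pos
  obtain ⟨h1, h2⟩ := beta_P h3 m hm
  rw [uu_last h3 m hm] at h1 h2
  obtain ⟨r, hr, hP⟩ := P1_sign h3 m hm
  rw [hP] at h1
  set μ : ℤ := quadraticChar (ZMod p) (m.factorial : ZMod p) with hμ
  have hg2 := gs_sq hp2 (two_ne_zero : (2 : ℂ) ≠ 0) (ZMod.isPrimitive_stdAddChar p)
  rw [ep_three h3] at hg2
  set g : ℂ := gs (ZMod.stdAddChar (N := p)) with hg
  have hc2 : chi p ℂ 2 * chi p ℂ 2 = 1 := chi_sq (two_ne hp2)
  have h4 : g = chi p ℂ 2 * (-Complex.I) ^ m * r := by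
    push_cast at h1 h2
    linear_combination (chi p ℂ 2) * h1 - g * hc2 + chi p ℂ 2 * (-Complex.I) ^ m * r * h2
  have h5 : chi p ℂ 2 * (-Complex.I) ^ m = Complex.I := by
    have hm4 : m % 4 = 1 ∨ m % 4 = 3 := by omega
    have hq : quadraticChar (ZMod p) 2 = if m % 4 = 1 then -1 else 1 := by
      rw [quadraticChar_two (by rw [ZMod.ringChar_zmod_n]; exact hp2), ZMod.card,
        ZMod.χ₈_nat_eq_if_mod_eight]
      rcases hm4 with h | h
      · rw [if_neg (by omega), if_neg (by omega), if_pos h]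
      · rw [if_neg (by omega), if_pos (by omega), if_neg (by omega)]
    have hI4 : (-Complex.I) ^ 4 = 1 := by
      rw [neg_pow]; norm_num
    rcases hm4 with h | h
    · obtain ⟨k, hk⟩ : ∃ k, m = 4 * k + 1 := ⟨m / 4, by omega⟩
      rw [chi_apply, hq, if_pos h, hk, pow_succ, pow_mul, hI4, one_pow]
      push_cast; ring
    · obtain ⟨k, hk⟩ : ∃ k, m = 4 * k + 3 := ⟨m / 4, by omega⟩
      rw [chi_apply, hq, if_neg (by omega), hk, pow_add, pow_mul, hI4, one_pow]
      push_cast
      have : (-Complex.I) ^ 3 = Complex.I := by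
        rw [neg_pow, Complex.I_pow_three]; ring
      rw [this]; ring
  rw [h5] at h4
  rw [h4] at hg2 ⊢
  have h6 : (r : ℂ) * r = p := by
    linear_combination (-1 : ℂ) * hg2 + (r : ℂ) * r * Complex.I_mul_I
  have h7 : r * r = p := by exact_mod_cast h6
  have h8 : r = Real.sqrt p := by
    rw [← h7, Real.sqrt_mul_self hr.le]
  rw [h8]

/-- the class number as a character sum -/
theorem class_val (h3 : p % 4 = 3) (hp3 : 3 < p) (K : Type) [Field K] [NumberField K]
    (h2 : Module.finrank ℚ K = 2) (α : K) (hα : α ^ 2 = -(p : K)) :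
    ∑ u : ZMod p, quadraticChar (ZMod p) u * (u.val : ℤ) = -(p * (classNumber K : ℤ)) := by
  have hp2 : p ≠ 2 := by rintro rfl; omega
  have hp0 : (0 : ℝ) < p := by exact_mod_cast hpf.out.pos
  have hsp : 0 < Real.sqrt p := Real.sqrt_pos.mpr hp0
  have hL := CnfB.residue_quad hp2 K h2 α (CnfH.alpha_form h3 α hα)
  have hL1 := CnfC.L_one_odd hp2 (ep_three h3 ℂ)
  have hres := CnfH.residue_imag h3 hp3 h2 α hα
  rw [← hL, gs_three h3] at hL1
  set R : ℝ := dedekindZeta_residue K with hR
  set S : ℤ := ∑ u : ZMod p, quadraticChar (ZMod p) u * (u.val : ℤ) with hS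
  have hSc : ∑ u : ZMod p, chi p ℂ u * (u.val : ℂ) = ((S : ℝ) : ℂ) := by
    rw [hS]
    push_cast
    exact Finset.sum_congr rfl fun u _ => by rw [chi_apply]
  rw [hSc] at hL1
  have h4 : (R : ℂ) * Real.sqrt p = -(Real.pi / p) * (S : ℝ) := by
    have : Complex.I * ((R : ℂ) * Real.sqrt p) = Complex.I * (-(Real.pi / p) * (S : ℝ)) := by
      linear_combination hL1
    exact mul_left_cancel₀ Complex.I_ne_zero this
  have h5 : R * Real.sqrt p = -(Real.pi / p) * S := by exact_mod_cast h4
  rw [hres] at h5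
  have h6 : (S : ℝ) = -(p * (classNumber K : ℝ)) := by
    have hpi := Real.pi_pos
    have h7 : Real.pi * (classNumber K * p) = Real.pi * (-S) := by
      have : -(Real.pi / p) * S * p = -Real.pi * S := by field_simp
      calc Real.pi * (classNumber K * p) = (Real.pi * classNumber K) * p := by ring
        _ = -(Real.pi / p) * S * p := by rw [h5]
        _ = Real.pi * (-S) := by rw [this]; ring
    have h8 := mul_left_cancel₀ hpi.ne' h7
    linear_combination h8
  exact_mod_cast h6

/-- sums over the nonzero residues as sums over pairs -/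
lemma sum_pair {M : Type*} [AddCommMonoid M] (m : ℕ) (hm : p = 2 * m + 1) (f : ZMod p → M) :
    ∑ k ∈ univ.erase (0 : ZMod p), f k =
      ∑ j ∈ range m, (f ((j + 1 : ℕ) : ZMod p) + f (-((j + 1 : ℕ) : ZMod p))) := by
  have h1 : ∑ k ∈ univ.erase (0 : ZMod p), f k = ∑ i ∈ range (m + m), f ((i + 1 : ℕ) : ZMod p) := by
    symm
    apply Finset.sum_bij (fun (i : ℕ) _ => ((i + 1 : ℕ) : ZMod p))
    · intro a ha
      rw [Finset.mem_range] at ha
      simp only [Finset.mem_erase, Finset.mem_univ, and_true]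
      intro h0
      rw [ZMod.natCast_eq_zero_iff] at h0
      have := Nat.le_of_dvd (by omega) h0
      omega
    · intro a ha b hb hab
      rw [Finset.mem_range] at ha hb
      have := congrArg ZMod.val hab
      rw [ZMod.val_natCast_of_lt (by omega), ZMod.val_natCast_of_lt (by omega)] at this
      omega
    · intro b hb
      have hb0 : b ≠ 0 := by simpa using hb
      have hv0 : b.val ≠ 0 := by rwa [Ne, ZMod.val_eq_zero]
      have hlt := ZMod.val_lt b
      refine ⟨b.val - 1, ?_, ?_⟩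
      · rw [Finset.mem_range]; omega
      · rw [show b.val - 1 + 1 = b.val by omega]; simp
    · intro a _; rfl
  have h3 : ∑ l ∈ range m, f ((m + l + 1 : ℕ) : ZMod p) =
      ∑ i ∈ range m, f (-((i + 1 : ℕ) : ZMod p)) := by
    rw [← Finset.sum_range_reflect]
    refine Finset.sum_congr rfl fun l hl => ?_
    rw [Finset.mem_range] at hl
    congr 1
    rw [eq_neg_iff_add_eq_zero, ← Nat.cast_add, ZMod.natCast_eq_zero_iff]
    exact ⟨1, by omega⟩
  rw [h1, Finset.sum_range_add, h3, Finset.sum_add_distrib]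

lemma val_neg_nat (a : ℕ) (h0 : 0 < a) (h1 : a < p) : (-(a : ZMod p)).val = p - a := by
  have h2 : ((p - a : ℕ) : ZMod p) = -(a : ZMod p) := by
    rw [Nat.cast_sub h1.le]; simp
  rw [← h2, ZMod.val_natCast_of_lt (by omega)]

/-- the half sum of the character -/
theorem half_sum (h3 : p % 4 = 3) (hp3 : 3 < p) (m : ℕ) (hm : p = 2 * m + 1) (K : Type) [Field K]
    [NumberField K] (h2 : Module.finrank ℚ K = 2) (α : K) (hα : α ^ 2 = -(p : K)) :
    ∑ j ∈ range m, quadraticChar (ZMod p) ((j + 1 : ℕ) : ZMod p) =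
      (2 - quadraticChar (ZMod p) 2) * (classNumber K : ℤ) := by
  have hp2 : p ≠ 2 := by rintro rfl; omega
  have hH := class_val h3 hp3 K h2 α hα
  set H : ℤ := ∑ u : ZMod p, quadraticChar (ZMod p) u * (u.val : ℤ) with hHd
  set c : ℤ := quadraticChar (ZMod p) 2 with hc
  set S : ℤ := ∑ j ∈ range m, quadraticChar (ZMod p) ((j + 1 : ℕ) : ZMod p) with hS
  set A : ℤ := ∑ j ∈ range m, quadraticChar (ZMod p) ((j + 1 : ℕ) : ZMod p) * ((j : ℤ) + 1) with hA
  have hcc : c * c = 1 := by
    have := chi_sq (p := p) (K := ℂ) (k := 2) (two_ne hp2)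
    rw [chi_apply, ← hc] at this
    exact_mod_cast this
  have hneg : ∀ k : ZMod p, quadraticChar (ZMod p) (-k) = - quadraticChar (ZMod p) k := by
    intro k
    have := CnfD.ez_three h3
    rw [CnfD.ez] at this
    rw [neg_eq_neg_one_mul, map_mul, this]; ring
  have e1 : H = 2 * A - p * S := by
    rw [hHd, ← Finset.add_sum_erase univ _ (Finset.mem_univ (0 : ZMod p)), quadraticChar_zero,
      zero_mul, zero_add, sum_pair m hm, hA, hS, Finset.mul_sum, Finset.mul_sum,
      ← Finset.sum_sub_distrib]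
    refine Finset.sum_congr rfl fun j hj => ?_
    rw [Finset.mem_range] at hj
    rw [hneg, val_neg_nat (j + 1) (by omega) (by omega), ZMod.val_natCast_of_lt (by omega),
      Nat.cast_sub (by omega)]
    push_cast
    ring
  have e2 : c * H = 4 * A - p * S := by
    have e3 : H = ∑ u : ZMod p, c * (quadraticChar (ZMod p) u * ((2 * u).val : ℤ)) := by
      rw [hHd]
      symm
      apply Fintype.sum_bijective (fun k : ZMod p => 2 * k)
      · constructor
        · intro a b h; exact mul_left_cancel₀ (two_ne hp2) h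
        · intro b; exact ⟨2⁻¹ * b, mul_inv_cancel_left₀ (two_ne hp2) b⟩
      · intro k
        rw [map_mul]; ring
    have e4 : c * H = ∑ u : ZMod p, (quadraticChar (ZMod p) u * ((2 * u).val : ℤ)) := by
      rw [e3, ← Finset.mul_sum, ← mul_assoc, hcc, one_mul]
    rw [e4, ← Finset.add_sum_erase univ _ (Finset.mem_univ (0 : ZMod p)), quadraticChar_zero,
      zero_mul, zero_add, sum_pair m hm, hA, hS, Finset.mul_sum, Finset.mul_sum,
      ← Finset.sum_sub_distrib]
    refine Finset.sum_congr rfl fun j hj => ?_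
    rw [Finset.mem_range] at hj
    have e5 : (2 : ZMod p) * ((j + 1 : ℕ) : ZMod p) = ((2 * (j + 1) : ℕ) : ZMod p) := by push_cast; ring
    have e6 : (2 : ZMod p) * -((j + 1 : ℕ) : ZMod p) = -((2 * (j + 1) : ℕ) : ZMod p) := by
      push_cast; ring
    rw [hneg, e5, e6, val_neg_nat (2 * (j + 1)) (by omega) (by omega),
      ZMod.val_natCast_of_lt (by omega), Nat.cast_sub (by omega)]
    push_cast
    ring
  have h4 : (p : ℤ) * S = p * ((2 - c) * (classNumber K : ℤ)) := by
    linear_combination (2 : ℤ) * e1 - e2 + (c - 2) * hH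
  exact mul_left_cancel₀ (by exact_mod_cast hpf.out.pos.ne') h4

lemma signs (m : ℕ) (f : ℕ → ℤ) (hf : ∀ j ∈ range m, f j = 1 ∨ f j = -1) :
    ∃ ν : ℕ, ∏ j ∈ range m, f j = (-1) ^ ν ∧ ∑ j ∈ range m, f j = m - 2 * ν := by
  induction m with
  | zero => exact ⟨0, by simp⟩
  | succ m ih =>
    obtain ⟨ν, h1, h2⟩ := ih (fun j hj => hf j (by rw [Finset.mem_range] at hj ⊢; omega))
    rcases hf m (by simp) with h | h
    · refine ⟨ν, ?_, ?_⟩
      · rw [Finset.prod_range_succ, h1, h, mul_one]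
      · rw [Finset.sum_range_succ, h2, h]; push_cast; ring
    · refine ⟨ν + 1, ?_, ?_⟩
      · rw [Finset.prod_range_succ, h1, h, pow_succ]
      · rw [Finset.sum_range_succ, h2, h]; push_cast; ring

/-- Mordell's congruence -/
theorem mordell (h3 : p % 4 = 3) (hp3 : 3 < p) (m : ℕ) (hm : p = 2 * m + 1) (K : Type) [Field K]
    [NumberField K] (h2 : Module.finrank ℚ K = 2) (α : K) (hα : α ^ 2 = -(p : K)) :
    classNumber K % 2 = 1 ∧ - quadraticChar (ZMod p) (m.factorial : ZMod p) =
      (-1) ^ ((classNumber K - 1) / 2) := by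
  have hp2 : p ≠ 2 := by rintro rfl; omega
  have hS := half_sum h3 hp3 m hm K h2 α hα
  obtain ⟨ν, e1, e2⟩ := signs m (fun j => quadraticChar (ZMod p) ((j + 1 : ℕ) : ZMod p))
    (fun j hj => quadraticChar_dichotomy (succ_ne m hm j hj))
  rw [mu_eq, e1]
  have hS2 : (m : ℤ) - 2 * ν = (2 - quadraticChar (ZMod p) 2) * (classNumber K : ℤ) := by
    rw [← e2]; exact hS
  have hm4 : m % 4 = 1 ∨ m % 4 = 3 := by omega
  have hq : quadraticChar (ZMod p) 2 = if m % 4 = 1 then -1 else 1 := by
    rw [quadraticChar_two (by rw [ZMod.ringChar_zmod_n]; exact hp2), ZMod.card,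
      ZMod.χ₈_nat_eq_if_mod_eight]
    rcases hm4 with h | h
    · rw [if_neg (by omega), if_neg (by omega), if_pos h]
    · rw [if_neg (by omega), if_pos (by omega), if_neg (by omega)]
  have key : classNumber K % 2 = 1 ∧ ((classNumber K - 1) / 2 + ν) % 2 = 1 := by
    rcases hm4 with h | h
    · rw [hq, if_pos h] at hS2
      constructor <;> omega
    · rw [hq, if_neg (by omega)] at hS2
      constructor <;> omega
  refine ⟨key.1, ?_⟩
  rcases Nat.even_or_odd ν with h | h
  · have ho : Odd ((classNumber K - 1) / 2) := by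
      rw [Nat.odd_iff]; rw [Nat.even_iff] at h; omega
    rw [h.neg_one_pow, ho.neg_one_pow]
  · have ho : Even ((classNumber K - 1) / 2) := by
      rw [Nat.even_iff]; rw [Nat.odd_iff] at h; omega
    rw [h.neg_one_pow, ho.neg_one_pow]; norm_num

end Pool.Agent.V11306.Toep
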