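import Mathlib
import Pool.Agent.V11306.ToepY

/-!
# The determinants with `j - k + 1`
-/

set_option autoImplicit false

namespace Pool.Agent.V11306.Toep

open Finset Polynomial NumberField

open Pool.Agent.Helper184

open Pool.Agent.Helper184.Chapman (chi chi_apply chi_sq T)

variable {p : ℕ} [hpf : Fact p.Prime]

/-- the matrix `x + ((j-k+1)/p) + (j/p) y + (k/p) z + (jk/p) w`, `1 ≤ j, k ≤ n` -/
noncomputable def MS (p : ℕ) [Fact p.Prime] (n : ℕ) (x y z w : ℂ) : Matrix (Fin n) (Fin n) ℂ :=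
  Matrix.of fun j k => x + (legendreSym p ((((j : ℕ) : ℤ) + 1) - (((k : ℕ) : ℤ) + 1) + 1) : ℂ) +
    (legendreSym p (((j : ℕ) : ℤ) + 1) : ℂ) * y + (legendreSym p (((k : ℕ) : ℤ) + 1) : ℂ) * z +
    (legendreSym p ((((j : ℕ) : ℤ) + 1) * (((k : ℕ) : ℤ) + 1)) : ℂ) * w

theorem MS_det (hp2 : p ≠ 2) (n : ℕ) (hm : p = 2 * (n + 1) + 1)
    (X : Matrix (Fin (n + 1 + 1)) (Fin (n + 1 + 1)) ℂ)
    (hX : TC p (n + 1 + 1) * X = 1) (hX0 : X (Fin.last (n + 1)) 0 ≠ 0)
    (u : Fin (n + 1 + 1) → ℂ) (hu : ∀ i, u i = ∑ j, X i j) (w0 : ℂ) (hw : w0 = ∑ i, X i 0) (s : ℂ)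
    (hs : s = ∑ i, u i) (x y z w : ℂ) :
    (MS p (n + 1) x y z w).det = (-1) ^ (n + 1) * (TC p (n + 1 + 1)).det *
      (X (Fin.last (n + 1)) 0 * (1 + y + w) +
        (s * X (Fin.last (n + 1)) 0 - u (Fin.last (n + 1)) * w0) * (x * (1 + w) - y * z) +
        (ep p ℂ * X (Fin.last (n + 1)) 0 - u (Fin.last (n + 1)) * ((ep p ℂ - p) / 2)) *
          (z * (1 + y) - x * w)) := by
  have h2 : (2 : ℂ) ≠ 0 := two_ne_zero
  have hp0 : (p : ℂ) ≠ 0 := by exact_mod_cast hpf.out.pos.ne'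
  have hc2 : chi p ℂ 2 * chi p ℂ 2 = 1 := chi_sq (two_ne hp2)
  have hee : ep p ℂ * ep p ℂ = 1 := ep_sq
  set TT := TC p (n + 1 + 1) with hTT
  set Xm := X (Fin.last (n + 1)) 0 with hXm
  have hdetu : IsUnit TT.det := by
    have := congrArg Matrix.det hX
    rw [Matrix.det_mul, Matrix.det_one] at this
    exact IsUnit.of_mul_eq_one _ this
  -- the minor
  set A' : Matrix (Fin (n + 1)) (Fin (n + 1)) ℂ := TT.submatrix Fin.succ Fin.castSucc with hA'
  have hadj : TT.adjugate = TT.det • X := by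
    have h3 := Matrix.adjugate_mul TT
    have h4 : TT.adjugate * TT * X = (TT.det • (1 : Matrix _ _ ℂ)) * X := by rw [h3]
    rw [Matrix.mul_assoc, hX, Matrix.mul_one, Matrix.smul_mul, Matrix.one_mul] at h4
    exact h4
  have hdet : A'.det = (-1) ^ (n + 1) * TT.det * Xm := by
    have h5 := Matrix.adjugate_fin_succ_eq_det_submatrix TT (Fin.last (n + 1)) 0
    rw [hadj, Matrix.smul_apply, smul_eq_mul, ← hXm] at h5
    have h6 : TT.submatrix (Fin.succAbove 0) (Fin.succAbove (Fin.last (n + 1))) = A' := by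
      rw [hA']
      congr 1
      funext i; exact Fin.succAbove_last_apply i
    rw [h6] at h5
    have h7 : ((-1 : ℂ)) ^ (n + 1) * (-1) ^ (n + 1) = 1 := by
      rw [← mul_pow]; norm_num
    have h8 : (((0 : Fin (n + 1 + 1)) : ℕ) + ((Fin.last (n + 1) : Fin (n + 1 + 1)) : ℕ)) = n + 1 := by
      simp
    rw [h8] at h5
    linear_combination (-(-1 : ℂ) ^ (n + 1)) * h5 - A'.det * h7
  have hA'u : IsUnit A'.det := by
    rw [hdet, isUnit_iff_ne_zero]
    exact mul_ne_zero (mul_ne_zero (pow_ne_zero _ (by norm_num)) hdetu.ne_zero) hX0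
  -- the vector
  set c : ℂ := -u (Fin.last (n + 1)) / Xm with hc
  have hcX : c * Xm = -u (Fin.last (n + 1)) := div_mul_cancel₀ _ hX0
  set V : Fin (n + 1 + 1) → ℂ := fun i => u i + c * X i 0 with hV
  have hVm : V (Fin.last (n + 1)) = 0 := by
    rw [hV]; simp only; rw [← hXm, hcX]; ring
  have hTX : ∀ i k, ∑ j, TT i j * X j k = if i = k then 1 else 0 := by
    intro i k
    have := congrFun (congrFun hX i) k
    rwa [Matrix.mul_apply, Matrix.one_apply] at this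
  have hTu : ∀ i, ∑ j, TT i j * u j = 1 := by
    intro i
    simp only [hu, Finset.mul_sum]
    rw [Finset.sum_comm, Finset.sum_congr rfl (fun k _ => hTX i k)]
    simp
  have hTV : ∀ i, ∑ j, TT i j * V j = (if i = 0 then c else 0) + 1 := by
    intro i
    have e : ∀ j, TT i j * V j = TT i j * u j + c * (TT i j * X j 0) := fun j => by
      rw [hV]; ring
    rw [Finset.sum_congr rfl (fun j _ => e j), Finset.sum_add_distrib, ← Finset.mul_sum, hTu, hTX]
    split_ifs <;> ring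
  set v : Fin (n + 1) → ℂ := fun j => V j.castSucc with hv
  have hAv : ∀ j, ∑ k, A' j k * v k = 1 := by
    intro j
    have := hTV j.succ
    rw [Fin.sum_univ_castSucc, hVm, mul_zero, add_zero, if_neg (Fin.succ_ne_zero j), zero_add] at this
    exact this
  set σ : ℂ := ∑ k, v k with hσ
  have hσv : σ = s + c * w0 := by
    have : ∑ k, V k = s + c * w0 := by
      rw [hV, Finset.sum_add_distrib, ← Finset.mul_sum, ← hs, ← hw]
    rw [← this, Fin.sum_univ_castSucc, hVm, add_zero]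
  set d : Fin (n + 1) → ℂ := fun k => chi p ℂ (((k : ℕ) : ZMod p) + 1) with hd
  set τ : ℂ := ∑ k, d k * v k with hτ
  have hτv : τ = ep p ℂ + c * ((ep p ℂ - p) / 2) := by
    obtain ⟨β, b0, b1, -, -, b4⟩ := core4 (n + 1) hm h2 hp0 (ZMod.stdAddChar (N := p))
      (ZMod.isPrimitive_stdAddChar p) (fun j => Chapman.ext V j) c 1 (by
        intro i hi
        have := TC_sys (n + 1 + 1) V (fun i => (if i = 0 then c else 0) + 1) (by
          intro i
          rw [hTV]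
          by_cases hi : i = 0
          · subst hi; rfl
          · rw [if_neg hi, if_neg (fun h : (i : ℕ) = 0 => hi (Fin.ext h))]) i hi
        exact this)
    have hg2 := gs_sq hp2 h2 (ZMod.isPrimitive_stdAddChar p)
    set g := gs (ZMod.stdAddChar (N := p)) with hg
    set κ := kap (ZMod.stdAddChar (N := p)) with hκ
    have hκg : κ * g = chi p ℂ 2 := by
      rw [hκ, kap, ← hg]
      field_simp
      linear_combination (ep p ℂ * chi p ℂ 2) * hg2 + chi p ℂ 2 * p * hee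
    have hPtop := PP_top (ZMod.stdAddChar (N := p)) (n + 1) hm
    have hPc1 := PP_c1 (ZMod.stdAddChar (N := p)) (n + 1) hm (by omega)
    have hPc2 := PP_c2 hp2 h2 (ZMod.isPrimitive_stdAddChar p) (n + 1) hm (by omega)
    have hβ : β = -c * chi p ℂ 2 := by
      have h9 := b1 n (by simp)
      have h10 : Chapman.ext V (n + 1) = 0 := by
        rw [← hVm]; simp [Chapman.ext, Fin.last]
      rw [h10, show 2 * n + 2 = 2 * (n + 1) by ring, hPtop,
        show 2 * n + 1 = 2 * (n + 1) - 1 by omega, hPc1, ← hg] at h9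
      linear_combination -h9 - c * hκg
    have hsum : ∑ j ∈ range (n + 1 + 1), chi p ℂ (-1 - (j : ZMod p)) * Chapman.ext V j =
        ep p ℂ * τ := by
      rw [← Fin.sum_univ_eq_sum_range
        (fun j => chi p ℂ (-1 - (j : ZMod p)) * Chapman.ext V j), Fin.sum_univ_castSucc]
      rw [Chapman.ext_val, hVm, mul_zero, add_zero, hτ, Finset.mul_sum]
      refine Finset.sum_congr rfl fun k _ => ?_
      rw [Chapman.ext_val, Fin.val_castSucc, hd, hv]
      have : -1 - ((k : ℕ) : ZMod p) = -(((k : ℕ) : ZMod p) + 1) := by ring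
      rw [this, chi_neg']
      ring
    rw [hsum, hPc1, ← hg, hβ] at b4
    have h11 : chi p ℂ 2 * (ep p ℂ * τ) = chi p ℂ 2 * (c * ((1 - ep p ℂ * p) / 2) + 1) := by
      linear_combination g * b4 + (c * (PP (ZMod.stdAddChar (N := p))).coeff (2 * (n + 1) - 2) +
        1 - ep p ℂ * τ) * hκg + (c * chi p ℂ 2 / 2) * hPc2 - c * chi p ℂ 2 * hg2
    have hc0 : chi p ℂ 2 ≠ 0 := by
      intro h
      rw [h, mul_zero] at hc2
      exact zero_ne_one hc2
    have h12 := mul_left_cancel₀ hc0 h11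
    linear_combination (ep p ℂ) * h12 - (τ + c * p / 2) * hee
  -- the rank two update
  set U : Matrix (Fin (n + 1)) (Fin 2) ℂ := Matrix.of fun j i =>
    if i = 0 then 1 else TT j.succ 0 with hU
  set W : Matrix (Fin 2) (Fin (n + 1)) ℂ := Matrix.of fun i k =>
    if i = 0 then x + z * d k else y + w * d k with hW
  set Z : Matrix (Fin (n + 1)) (Fin 2) ℂ := Matrix.of fun j i =>
    if i = 0 then v j else if j = 0 then 1 else 0 with hZ
  have hAZ : A' * Z = U := by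
    ext j i
    rw [Matrix.mul_apply, hU, Matrix.of_apply]
    fin_cases i
    · simp only [hZ, Matrix.of_apply, Fin.zero_eta, if_true]
      exact hAv j
    · simp only [hZ, Matrix.of_apply, Fin.mk_one, if_neg (one_ne_zero : (1 : Fin 2) ≠ 0), mul_ite,
        mul_one, mul_zero, Finset.sum_ite_eq', Finset.mem_univ, if_true]
      rfl
  have hinv : A'⁻¹ * U = Z := by
    rw [← hAZ, ← Matrix.mul_assoc, Matrix.nonsing_inv_mul _ hA'u, Matrix.one_mul]
  have hM : MS p (n + 1) x y z w = A' + U * W := by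
    ext j k
    rw [Matrix.add_apply, Matrix.mul_apply, Fin.sum_univ_two, MS, Matrix.of_apply]
    simp only [hU, hW, hA', Matrix.of_apply, Matrix.submatrix_apply, if_true,
      if_neg (one_ne_zero : (1 : Fin 2) ≠ 0), hTT, TC_apply, leg_chi, hd]
    have e1 : (((((j : ℕ) : ℤ) + 1) - (((k : ℕ) : ℤ) + 1) + 1 : ℤ) : ZMod p) =
        ((j.succ : ℕ) : ZMod p) - ((k.castSucc : ℕ) : ZMod p) := by
      rw [Fin.val_succ, Fin.val_castSucc]; push_cast; ring
    have e2 : ((((j : ℕ) : ℤ) + 1 : ℤ) : ZMod p) = ((j.succ : ℕ) : ZMod p) -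
        (((0 : Fin (n + 1 + 1)) : ℕ) : ZMod p) := by
      rw [Fin.val_succ, Fin.val_zero]; push_cast; ring
    have e3 : ((((k : ℕ) : ℤ) + 1 : ℤ) : ZMod p) = ((k : ℕ) : ZMod p) + 1 := by push_cast; ring
    rw [Int.cast_mul, map_mul, e1, e2, e3]
    ring
  rw [hM, Matrix.det_add_mul _ _ hA'u, Matrix.mul_assoc, hinv, Matrix.det_fin_two]
  have f00 : (W * Z) 0 0 = x * σ + z * τ := by
    rw [Matrix.mul_apply, hσ, hτ, Finset.mul_sum, Finset.mul_sum, ← Finset.sum_add_distrib]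
    refine Finset.sum_congr rfl fun k _ => ?_
    simp only [hW, hZ, Matrix.of_apply, if_true]
    ring
  have f10 : (W * Z) 1 0 = y * σ + w * τ := by
    rw [Matrix.mul_apply, hσ, hτ, Finset.mul_sum, Finset.mul_sum, ← Finset.sum_add_distrib]
    refine Finset.sum_congr rfl fun k _ => ?_
    simp only [hW, hZ, Matrix.of_apply, if_true, if_neg (one_ne_zero : (1 : Fin 2) ≠ 0)]
    ring
  have hd0 : d 0 = 1 := by
    rw [hd]; simp
  have f01 : (W * Z) 0 1 = x + z := by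
    rw [Matrix.mul_apply]
    simp only [hW, hZ, Matrix.of_apply, if_true, if_neg (one_ne_zero : (1 : Fin 2) ≠ 0), mul_ite,
        mul_one, mul_zero, Finset.sum_ite_eq', Finset.mem_univ]
    rw [hd0]; ring
  have f11 : (W * Z) 1 1 = y + w := by
    rw [Matrix.mul_apply]
    simp only [hW, hZ, Matrix.of_apply, if_true, if_neg (one_ne_zero : (1 : Fin 2) ≠ 0), mul_ite,
        mul_one, mul_zero, Finset.sum_ite_eq', Finset.mem_univ]
    rw [hd0]; ring
  simp only [Matrix.add_apply, Matrix.one_apply_eq, f00, f10, f01, f11,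
    Matrix.one_apply_ne (zero_ne_one : (0 : Fin 2) ≠ 1),
    Matrix.one_apply_ne (one_ne_zero : (1 : Fin 2) ≠ 0), zero_add]
  rw [hdet, hσv, hτv]
  linear_combination ((-1) ^ (n + 1) * TT.det * (w0 * (x * (1 + w) - y * z) +
    ((ep p ℂ - p) / 2) * (z * (1 + y) - x * w))) * hcX

theorem MS_three (h3 : p % 4 = 3) (hp3 : 3 < p) (m : ℕ) (hm : p = 2 * m + 1) (K : Type) [Field K]
    [NumberField K] (h2 : Module.finrank ℚ K = 2) (α : K) (hα : α ^ 2 = -(p : K)) (x y z w : ℂ) :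
    (MS p m x y z w).det = (w + 1) * x - y * z +
      (legendreSym p 2 : ℂ) * ((y + 1) * (z - 1) - w * (x + 1)) +
      (-1) ^ ((classNumber K - 1) / 2) * (((p : ℂ) + 1) / 2) * (w * x - (y + 1) * z) := by
  obtain ⟨n, rfl⟩ : ∃ n, m = n + 1 := ⟨m - 1, by have := hpf.out.one_lt; omega⟩
  have hp2 : p ≠ 2 := by rintro rfl; omega
  have hc2 : chi p ℂ 2 * chi p ℂ 2 = 1 := chi_sq (two_ne hp2)
  have e : (legendreSym p 2 : ℂ) = chi p ℂ 2 := by
    rw [leg_chi]; norm_num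
  obtain ⟨β, hβ, hu0, hum, -, -, hN, -⟩ := values h3 (n + 1) hm
  have hu0' : ((uu p (n + 1) 0 : ℤ) : ℂ) = -β := hu0
  have hum' : ((uu p (n + 1) (Fin.last (n + 1)) : ℤ) : ℂ) = β := by
    rw [← hum]
    simp [Chapman.ext, Fin.last]
  have hNl : NC p (n + 1) (Fin.last (n + 1)) 0 = chi p ℂ 2 := by
    rw [← hN]
    simp [Chapman.ext, Fin.last, NC]
  have hc0 : chi p ℂ 2 ≠ 0 := by
    intro h
    rw [h, mul_zero] at hc2
    exact zero_ne_one hc2
  have hβv : β = (-1) ^ ((classNumber K - 1) / 2) := by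
    rw [← hum', uu_last h3 (n + 1) hm, (mordell h3 hp3 (n + 1) hm K h2 α hα).2]
    push_cast; rfl
  have hodd : Odd (n + 1) := by rw [Nat.odd_iff]; omega
  have := MS_det hp2 n hm (NC p (n + 1)) (TN h3 (n + 1) hm) (by rw [hNl]; exact hc0)
    (fun i => ((uu p (n + 1) i : ℤ) : ℂ)) (fun i => NC_row (n + 1) i) _
    (NC_col h3 (n + 1) hm 0) 0 (sum_uuC h3 (n + 1) hm) x y z w
  rw [this, hNl, TC_det, T_det h3 (n + 1) hm, ep_three h3, hodd.neg_one_pow, e, ← hβv]
  simp only [hum', hu0']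
  push_cast
  linear_combination (x * (1 + w) - y * z) * hβ

section one

variable (h1 : p % 4 = 1) (K : Type) [Field K] [NumberField K]
    (h2 : Module.finrank ℚ K = 2) (α : K)
    (hα : α ^ 2 = (p : K)) (σ : K →+* ℝ) (hσ : 0 < σ α) (ε : (𝓞 K)ˣ)
    (hε : 1 < σ ((ε : 𝓞 K) : K))
    (hfund : ∀ u : (𝓞 K)ˣ, ∃ n : ℤ, u = ε ^ n ∨ u = -ε ^ n) (a b : ℚ)
    (hab : ((ε : 𝓞 K) : K) ^ ((2 - legendreSym p 2) * (classNumber K : ℤ)) =
      algebraMap ℚ K a + algebraMap ℚ K b * α)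

include h1 h2 hα hσ hε hfund hab in
theorem MS_one (m : ℕ) (hm : p = 2 * m + 1) (x y z w : ℂ) :
    (MS p m x y z w).det = (legendreSym p 2 : ℂ) * (((p : ℂ) - 1) / 2) * ((y + 1) * z - w * x) +
      ((p : ℂ) * b - a) * ((w + 1) * x - y * z) +
      (legendreSym p 2 : ℂ) * ((b : ℂ) - a) * (w * (1 - x) + (y + 1) * (z + 1)) := by
  obtain ⟨n, rfl⟩ : ∃ n, m = n + 1 := ⟨m - 1, by have := hpf.out.one_lt; omega⟩
  obtain ⟨hD, -, γ, u0, um, hγ, hs, x0, xm⟩ := data_one h1 (n + 1) hm K h2 α hα σ hσ ε hε hfund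
  obtain ⟨ha, hb⟩ := values_ab h1 K h2 α hα σ hσ ε hε hfund a b hab (n + 1) hm
  have hp2 : p ≠ 2 := by rintro rfl; omega
  have hc2 : chi p ℂ 2 * chi p ℂ 2 = 1 := chi_sq (two_ne hp2)
  have hep : ep p ℂ = 1 := by rw [CnfD.ep_eq, CnfD.ez_one h1]; simp
  have e : (legendreSym p 2 : ℂ) = chi p ℂ 2 := by
    rw [leg_chi]; norm_num
  have hac : (a : ℂ) = -(((T p ℤ (n + 1 + 1)).det : ℤ) : ℂ) := by
    rw [ha]; push_cast; rfl
  have hbc : (b : ℂ) = chi p ℂ 2 * (((T p ℤ (n + 1)).det : ℤ) : ℂ) := by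
    rw [hb, chi_apply]; push_cast; rfl
  have hD' : (((T p ℤ (n + 1 + 1)).det : ℤ) : ℂ) ^ 2 -
      p * (((T p ℤ (n + 1)).det : ℤ) : ℂ) ^ 2 = -1 := by
    exact_mod_cast hD
  have hXm : XC p (n + 1) (Fin.last (n + 1)) 0 * (((T p ℤ (n + 1 + 1)).det : ℤ) : ℂ) =
      (((T p ℤ (n + 1)).det : ℤ) : ℂ) + chi p ℂ 2 * (((T p ℤ (n + 1 + 1)).det : ℤ) : ℂ) := by
    rw [xm]; linear_combination x0
  have hne : (((T p ℤ (n + 1)).det : ℤ) : ℂ) + chi p ℂ 2 * (((T p ℤ (n + 1 + 1)).det : ℤ) : ℂ) ≠ 0 := by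
    intro h
    have hp4 : (4 : ℤ) < p := by
      have h5 : p ≠ 0 := by rintro rfl; omega
      have h6 : p ≠ 1 := by rintro rfl; exact absurd hpf.out Nat.not_prime_one
      have : 4 < p := by omega
      exact_mod_cast this
    have h7 : (((T p ℤ (n + 1 + 1)).det : ℤ) : ℂ) ^ 2 * (1 - p) = -1 := by
      linear_combination hD' + p * ((((T p ℤ (n + 1)).det : ℤ) : ℂ) -
        chi p ℂ 2 * (((T p ℤ (n + 1 + 1)).det : ℤ) : ℂ)) * h +
        p * (((T p ℤ (n + 1 + 1)).det : ℤ) : ℂ) ^ 2 * hc2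
    have h8 : (T p ℤ (n + 1 + 1)).det ^ 2 * (1 - p) = -1 := by exact_mod_cast h7
    have h9 : ((p : ℤ) - 1) ∣ 1 := ⟨(T p ℤ (n + 1 + 1)).det ^ 2, by linear_combination h8⟩
    have := Int.le_of_dvd (by norm_num) h9
    omega
  have hodd : Even (n + 1) := by rw [Nat.even_iff]; omega
  have hX0 : XC p (n + 1) (Fin.last (n + 1)) 0 ≠ 0 := by
    intro h
    rw [h, zero_mul] at hXm
    exact hne hXm.symm
  have := MS_det hp2 n hm (XC p (n + 1)) (TX h1 (n + 1) hm) hX0 (uC p (n + 1)) (fun i => rfl) _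
    (uC_col h1 (n + 1) 0) _ rfl x y z w
  rw [this, TC_det, hep, hodd.neg_one_pow, e, hac, hbc, u0, um, hs]
  set D1 : ℂ := (((T p ℤ (n + 1 + 1)).det : ℤ) : ℂ)
  set D0 : ℂ := (((T p ℤ (n + 1)).det : ℤ) : ℂ)
  set c : ℂ := chi p ℂ 2
  set Y : ℂ := XC p (n + 1) (Fin.last (n + 1)) 0
  have e1 : (γ * p * (c * D0) * Y - γ * γ) * D1 = D1 + p * c * D0 := by
    linear_combination (γ * p * c * D0) * hXm - γ * hγ - γ * c * hD' + D1 * hc2 + c * D1 * hγ +
      p * D0 * hγ + γ * p * D0 * D1 * hc2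
  linear_combination (1 + y + w + z * (1 + y) - x * w) * hXm + (x * (1 + w) - y * z) * e1 -
    ((1 - (p : ℂ)) / 2) * (z * (1 + y) - x * w) * hγ -
    D0 * (1 + y + w + z * (1 + y) - x * w) * hc2

end one

end Pool.Agent.V11306.Toep
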