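import Mathlib

/-!
# Matrices of values of the quadratic character, `p ≡ 1 (mod 4)`
-/

set_option autoImplicit false

namespace Pool.Agent.V11306.Conv

open Finset Matrix Polynomial

section sums

variable {p : ℕ} [Fact p.Prime]

/-- the quadratic character with rational values -/
noncomputable def q (a : ZMod p) : ℚ := (quadraticChar (ZMod p) a : ℤ)

lemma q_zero : q (0 : ZMod p) = 0 := by simp [q]

lemma q_mul (a b : ZMod p) : q (a * b) = q a * q b := by
  rw [q, q, q, map_mul]; push_cast; rfl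

lemma q_one : q (1 : ZMod p) = 1 := by simp [q]

lemma q_sq {a : ZMod p} (ha : a ≠ 0) : q a * q a = 1 := by
  have := quadraticChar_sq_one (F := ZMod p) ha
  rw [q, ← Int.cast_mul, ← sq, this, Int.cast_one]

lemma ringChar_ne (hp2 : p ≠ 2) : ringChar (ZMod p) ≠ 2 := by rwa [ZMod.ringChar_zmod_n]

lemma q_sum (hp2 : p ≠ 2) : ∑ a : ZMod p, q a = 0 := by
  have := quadraticChar_sum_zero (F := ZMod p) (ringChar_ne hp2)
  simp only [q]
  rw [← Int.cast_sum, this, Int.cast_zero]

lemma q_neg (h1 : p % 4 = 1) (a : ZMod p) : q (-a) = q a := by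
  have hp2 : p ≠ 2 := by rintro rfl; omega
  have h2 : quadraticChar (ZMod p) (-1) = 1 := by
    rw [quadraticChar_neg_one (ringChar_ne hp2), ZMod.card]
    exact ZMod.χ₄_nat_one_mod_four h1
  have : q (-a) = q (-1 : ZMod p) * q a := by rw [← q_mul]; simp
  rw [this, q, h2]; simp

/-- correlation of the quadratic character -/
lemma corr (hp2 : p ≠ 2) (a : ZMod p) :
    ∑ k : ZMod p, q k * q (k + a) = if a = 0 then (p : ℚ) - 1 else -1 := by
  split_ifs with ha
  · subst ha
    have h1 : ∀ k : ZMod p, q k * q (k + 0) = 1 - if k = 0 then 1 else 0 := by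
      intro k
      rw [add_zero]
      split_ifs with hk
      · subst hk; rw [q_zero]; ring
      · rw [q_sq hk]; ring
    rw [sum_congr rfl (fun k _ => h1 k), sum_sub_distrib]
    simp [ZMod.card]
  · -- replace `k` by `k⁻¹`
    have h1 : ∑ k : ZMod p, q k * q (k + a) = ∑ k : ZMod p, (q (1 + a * k⁻¹) - if k = 0 then 1 else 0) := by
      refine sum_congr rfl fun k _ => ?_
      split_ifs with hk
      · subst hk; rw [q_zero]; simp [q_one]
      · have : k + a = k * (1 + a * k⁻¹) := by field_simp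
        rw [this, q_mul, ← mul_assoc, q_sq hk]; ring
    have h2 : ∑ k : ZMod p, q (1 + a * k⁻¹) = ∑ k : ZMod p, q k := by
      apply Fintype.sum_bijective (fun k : ZMod p => 1 + a * k⁻¹)
      · constructor
        · intro x y hxy
          simp only at hxy
          have h3 : a * x⁻¹ = a * y⁻¹ := add_left_cancel hxy
          exact inv_injective (mul_left_cancel₀ ha h3)
        · intro y
          refine ⟨(a⁻¹ * (y - 1))⁻¹, ?_⟩
          simp only [inv_inv]
          field_simp
          ring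
      · intro x; rfl
    rw [h1, sum_sub_distrib, h2, q_sum hp2]
    simp

/-- sums over `ZMod p` of even functions -/
lemma sum_even {R : Type*} [CommRing R] (n : ℕ) (hn : p = 2 * n + 1) (f : ZMod p → R)
    (hf : ∀ a, f (-a) = f a) :
    ∑ a : ZMod p, f a = f 0 + 2 * ∑ i : Fin n, f (((i : ℕ) + 1 : ℕ) : ZMod p) := by
  have h1 : ∑ i : ZMod p, f i = ∑ i ∈ range p, f (i : ZMod p) := by
    symm
    apply Finset.sum_bij (fun (i : ℕ) _ => (i : ZMod p))
    · intro a _; simp
    · intro a ha b hb hab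
      rw [Finset.mem_range] at ha hb
      have := congrArg ZMod.val hab
      rwa [ZMod.val_natCast_of_lt ha, ZMod.val_natCast_of_lt hb] at this
    · intro b _
      exact ⟨b.val, by simpa using ZMod.val_lt b, by simp⟩
    · intro a _; rfl
  have h2 : ∑ i ∈ range p, f (i : ZMod p) = ∑ i ∈ range ((n + n) + 1), f (i : ZMod p) := by
    congr 1; congr 1; omega
  have h3 : ∑ l ∈ range n, f ((n + l + 1 : ℕ) : ZMod p) = ∑ i ∈ range n, f ((i + 1 : ℕ) : ZMod p) := by
    rw [← Finset.sum_range_reflect]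
    refine Finset.sum_congr rfl fun l hl => ?_
    rw [Finset.mem_range] at hl
    rw [← hf]
    congr 1
    rw [neg_eq_iff_add_eq_zero, ← Nat.cast_add, ZMod.natCast_eq_zero_iff]
    exact ⟨1, by omega⟩
  rw [h1, h2, Finset.sum_range_succ', Finset.sum_range_add, h3,
    ← Fin.sum_univ_eq_sum_range (fun i => f ((i + 1 : ℕ) : ZMod p))]
  simp only [Nat.cast_zero]
  ring

/-- `χ` as a vector -/
noncomputable def v (p : ℕ) [Fact p.Prime] (n : ℕ) (j : Fin n) : ℚ := q (((j : ℕ) + 1 : ℕ) : ZMod p)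

/-- the matrix `χ(j + k) - χ(j - k)` -/
noncomputable def Am (p : ℕ) [Fact p.Prime] (n : ℕ) : Matrix (Fin n) (Fin n) ℚ :=
  Matrix.of fun j k => q ((((j : ℕ) + 1 : ℕ) : ZMod p) + (((k : ℕ) + 1 : ℕ) : ZMod p)) -
    q ((((j : ℕ) + 1 : ℕ) : ZMod p) - (((k : ℕ) + 1 : ℕ) : ZMod p))

/-- the matrix `χ(j + k) + χ(j - k)` -/
noncomputable def Cm (p : ℕ) [Fact p.Prime] (n : ℕ) : Matrix (Fin n) (Fin n) ℚ :=
  Matrix.of fun j k => q ((((j : ℕ) + 1 : ℕ) : ZMod p) + (((k : ℕ) + 1 : ℕ) : ZMod p)) +
    q ((((j : ℕ) + 1 : ℕ) : ZMod p) - (((k : ℕ) + 1 : ℕ) : ZMod p))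

lemma cast_ne {n : ℕ} (hn : p = 2 * n + 1) (j : Fin n) : (((j : ℕ) + 1 : ℕ) : ZMod p) ≠ 0 := by
  rw [Ne, ZMod.natCast_eq_zero_iff]
  intro h
  have := Nat.le_of_dvd (by omega) h
  have := j.2
  omega

lemma add_ne {n : ℕ} (hn : p = 2 * n + 1) (j k : Fin n) :
    (((j : ℕ) + 1 : ℕ) : ZMod p) + (((k : ℕ) + 1 : ℕ) : ZMod p) ≠ 0 := by
  rw [← Nat.cast_add, Ne, ZMod.natCast_eq_zero_iff]
  intro h
  have := Nat.le_of_dvd (by omega) h
  have := j.2
  have := k.2
  omega

lemma sub_eq_zero_iff {n : ℕ} (hn : p = 2 * n + 1) (j k : Fin n) :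
    (((j : ℕ) + 1 : ℕ) : ZMod p) - (((k : ℕ) + 1 : ℕ) : ZMod p) = 0 ↔ j = k := by
  rw [sub_eq_zero]
  constructor
  · intro h
    have h1 := congrArg ZMod.val h
    have hj := j.2
    have hk := k.2
    rw [ZMod.val_natCast_of_lt (by omega), ZMod.val_natCast_of_lt (by omega)] at h1
    exact Fin.ext (by omega)
  · rintro rfl; rfl

lemma corr' (h1 : p % 4 = 1) (a b : ZMod p) :
    ∑ k : ZMod p, q (a + k) * q (k + b) = if a = b then (p : ℚ) - 1 else -1 := by
  have hp2 : p ≠ 2 := by rintro rfl; omega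
  have e : ∑ k : ZMod p, q (a + k) * q (k + b) = ∑ k : ZMod p, q k * q (k + (b - a)) := by
    apply Fintype.sum_bijective (fun k : ZMod p => a + k)
    · exact (Equiv.addLeft a).bijective
    · intro k
      congr 2
      ring
  rw [e, corr hp2]
  congr 1
  rw [sub_eq_zero]
  exact propext ⟨fun h => h.symm, fun h => h.symm⟩

lemma Am_sq (h1 : p % 4 = 1) (n : ℕ) (hn : p = 2 * n + 1) :
    Am p n * Am p n = (p : ℚ) • (1 : Matrix (Fin n) (Fin n) ℚ) := by
  ext j l
  rw [Matrix.mul_apply]
  simp only [Am, Matrix.of_apply, Matrix.smul_apply, Matrix.one_apply, smul_eq_mul]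
  set a := (((j : ℕ) + 1 : ℕ) : ZMod p) with ha
  set b := (((l : ℕ) + 1 : ℕ) : ZMod p) with hb
  have hf := sum_even n hn (fun k : ZMod p => (q (a + k) - q (a - k)) * (q (k + b) - q (k - b))) (by
    intro k
    rw [show a - -k = a + k by ring, show a + -k = a - k by ring,
      show -k + b = -(k - b) by ring, show -k - b = -(k + b) by ring, q_neg h1, q_neg h1]
    ring)
  simp only [add_zero, sub_zero, sub_self, zero_mul, zero_add] at hf
  have hsum : ∑ k : ZMod p, (q (a + k) - q (a - k)) * (q (k + b) - q (k - b)) =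
      2 * (if a = b then (p : ℚ) - 1 else -1) - 2 * (if a = -b then (p : ℚ) - 1 else -1) := by
    have e1 : ∀ k : ZMod p, (q (a + k) - q (a - k)) * (q (k + b) - q (k - b)) =
        q (a + k) * q (k + b) - q (a + k) * q (k + -b) - q (-a + k) * q (k + b) +
          q (-a + k) * q (k + -b) := by
      intro k
      have : q (a - k) = q (-a + k) := by
        rw [← q_neg h1 (a - k)]; congr 1; ring
      rw [this, sub_eq_add_neg k b]
      ring
    rw [sum_congr rfl (fun k _ => e1 k), sum_add_distrib, sum_sub_distrib, sum_sub_distrib,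
      corr' h1, corr' h1, corr' h1, corr' h1]
    have e2 : (-a = b) = (a = -b) := by
      rw [eq_iff_iff]; exact neg_eq_iff_eq_neg
    have e3 : (-a = -b) = (a = b) := by
      rw [eq_iff_iff]; exact neg_inj
    simp only [e2, e3]
    ring
  rw [hsum] at hf
  have h2 : ¬ a = -b := by
    intro h
    apply add_ne hn j l
    rw [← ha, ← hb, h]; ring
  have h3 : (a = b) = (j = l) := by
    rw [eq_iff_iff, ← sub_eq_zero, ha, hb, sub_eq_zero_iff hn]
  rw [if_neg h2] at hf
  simp only [h3] at hf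
  split_ifs at hf ⊢ with h4
  · linear_combination (-1 / 2 : ℚ) * hf
  · linear_combination (-1 / 2 : ℚ) * hf

lemma Cm_sq (h1 : p % 4 = 1) (n : ℕ) (hn : p = 2 * n + 1) :
    Cm p n * Cm p n = (p : ℚ) • (1 : Matrix (Fin n) (Fin n) ℚ) -
      (2 : ℚ) • Matrix.vecMulVec (fun _ => 1) (fun _ => 1) -
      (2 : ℚ) • Matrix.vecMulVec (v p n) (v p n) := by
  ext j l
  rw [Matrix.mul_apply]
  simp only [Cm, Matrix.of_apply, Matrix.smul_apply, Matrix.one_apply, smul_eq_mul,
    Matrix.sub_apply, Matrix.vecMulVec_apply, v]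
  set a := (((j : ℕ) + 1 : ℕ) : ZMod p) with ha
  set b := (((l : ℕ) + 1 : ℕ) : ZMod p) with hb
  have hf := sum_even n hn (fun k : ZMod p => (q (a + k) + q (a - k)) * (q (k + b) + q (k - b))) (by
    intro k
    rw [show a - -k = a + k by ring, show a + -k = a - k by ring,
      show -k + b = -(k - b) by ring, show -k - b = -(k + b) by ring, q_neg h1, q_neg h1]
    ring)
  simp only [add_zero, sub_zero, zero_add, zero_sub, q_neg h1 b] at hf
  have hsum : ∑ k : ZMod p, (q (a + k) + q (a - k)) * (q (k + b) + q (k - b)) =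
      2 * (if a = b then (p : ℚ) - 1 else -1) + 2 * (if a = -b then (p : ℚ) - 1 else -1) := by
    have e1 : ∀ k : ZMod p, (q (a + k) + q (a - k)) * (q (k + b) + q (k - b)) =
        q (a + k) * q (k + b) + q (a + k) * q (k + -b) + q (-a + k) * q (k + b) +
          q (-a + k) * q (k + -b) := by
      intro k
      have : q (a - k) = q (-a + k) := by
        rw [← q_neg h1 (a - k)]; congr 1; ring
      rw [this, sub_eq_add_neg k b]
      ring
    rw [sum_congr rfl (fun k _ => e1 k), sum_add_distrib, sum_add_distrib, sum_add_distrib,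
      corr' h1, corr' h1, corr' h1, corr' h1]
    have e2 : (-a = b) = (a = -b) := by
      rw [eq_iff_iff]; exact neg_eq_iff_eq_neg
    have e3 : (-a = -b) = (a = b) := by
      rw [eq_iff_iff]; exact neg_inj
    simp only [e2, e3]
    ring
  rw [hsum] at hf
  have h2 : ¬ a = -b := by
    intro h
    apply add_ne hn j l
    rw [← ha, ← hb, h]; ring
  have h3 : (a = b) = (j = l) := by
    rw [eq_iff_iff, ← sub_eq_zero, ha, hb, sub_eq_zero_iff hn]
  rw [if_neg h2] at hf
  simp only [h3] at hf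
  split_ifs at hf ⊢ with h4
  · linear_combination (-1 / 2 : ℚ) * hf
  · linear_combination (-1 / 2 : ℚ) * hf

/-- the half sum vanishes -/
lemma sum_v (h1 : p % 4 = 1) (n : ℕ) (hn : p = 2 * n + 1) : ∑ j : Fin n, v p n j = 0 := by
  have hp2 : p ≠ 2 := by rintro rfl; omega
  have := sum_even n hn (fun k : ZMod p => q k) (fun a => q_neg h1 a)
  rw [q_sum hp2, q_zero] at this
  simp only [v]
  linarith

lemma sum_v_sq (n : ℕ) (hn : p = 2 * n + 1) : ∑ j : Fin n, v p n j * v p n j = n := by
  simp only [v]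
  rw [sum_congr rfl (fun j _ => q_sq (cast_ne hn j))]
  simp

lemma Cm_one (h1 : p % 4 = 1) (n : ℕ) (hn : p = 2 * n + 1) (j : Fin n) :
    ∑ k, Cm p n j k = - v p n j := by
  have hp2 : p ≠ 2 := by rintro rfl; omega
  simp only [Cm, Matrix.of_apply, v]
  set a := (((j : ℕ) + 1 : ℕ) : ZMod p) with ha
  have hf := sum_even n hn (fun k : ZMod p => q (a + k) + q (a - k)) (by
    intro k
    rw [show a - -k = a + k by ring, show a + -k = a - k by ring]
    ring)
  have e1 : ∑ k : ZMod p, q (a + k) = 0 := by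
    rw [← q_sum hp2]
    exact Fintype.sum_bijective (fun k : ZMod p => a + k) (Equiv.addLeft a).bijective _ _
      (fun _ => rfl)
  have e2 : ∑ k : ZMod p, q (a - k) = 0 := by
    rw [← q_sum hp2]
    exact Fintype.sum_bijective (fun k : ZMod p => a - k) (Equiv.subLeft a).bijective _ _
      (fun _ => rfl)
  rw [sum_add_distrib, e1, e2] at hf
  simp only [add_zero, sub_zero] at hf
  linear_combination (-1 / 2 : ℚ) * hf

lemma Cm_v (h1 : p % 4 = 1) (n : ℕ) (hn : p = 2 * n + 1) (j : Fin n) :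
    ∑ k, Cm p n j k * v p n k = - 1 := by
  have hp2 : p ≠ 2 := by rintro rfl; omega
  simp only [Cm, Matrix.of_apply, v]
  set a := (((j : ℕ) + 1 : ℕ) : ZMod p) with ha
  have hf := sum_even n hn (fun k : ZMod p => (q (a + k) + q (a - k)) * q k) (by
    intro k
    rw [show a - -k = a + k by ring, show a + -k = a - k by ring, q_neg h1]
    ring)
  have ha0 : a ≠ 0 := cast_ne hn j
  have e1 : ∑ k : ZMod p, q (a + k) * q k = -1 := by
    have := corr' h1 a 0
    rw [if_neg ha0] at this
    simpa using this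
  have e2 : ∑ k : ZMod p, q (a - k) * q k = -1 := by
    have := corr' h1 (-a) 0
    rw [if_neg (neg_ne_zero.mpr ha0)] at this
    rw [← this]
    refine sum_congr rfl fun k _ => ?_
    rw [add_zero, ← q_neg h1 (a - k)]
    congr 2
    ring
  simp only [add_mul] at hf
  rw [sum_add_distrib, e1, e2] at hf
  simp only [add_zero, sub_zero, q_zero, mul_zero, zero_add] at hf
  simp only [add_mul]
  linear_combination (-1 / 2 : ℚ) * hf

end sums

/-- A rational matrix of even order `2 h` whose square is a prime `p` has determinant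
`(-p) ^ h`. -/
lemma det_of_sq {p n : ℕ} (hp : p.Prime) {h : ℕ} (hn : n = 2 * h) (M : Matrix (Fin n) (Fin n) ℚ)
    (hM : M * M = (p : ℚ) • (1 : Matrix (Fin n) (Fin n) ℚ)) : M.det = (-(p : ℚ)) ^ h := by
  set Q : ℚ[X] := X ^ 2 - C (p : ℚ) with hQ
  have hirr : Irreducible Q := by
    rw [hQ]
    apply X_pow_sub_C_irreducible_of_prime Nat.prime_two
    intro b hb
    have h1 : Irrational (Real.sqrt p) := hp.irrational_sqrt
    apply h1
    have hb' : (b : ℝ) ^ 2 = p := by exact_mod_cast hb
    refine ⟨|b|, ?_⟩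
    push_cast
    rw [← hb', Real.sqrt_sq_eq_abs]
  have hdvd : M.charpoly ∣ Q ^ n := by
    refine ⟨(Matrix.scalar (Fin n) (X : ℚ[X]) + M.map C).det, ?_⟩
    rw [Matrix.charpoly, ← Matrix.det_mul, Matrix.charmatrix]
    have e : (Matrix.scalar (Fin n) (X : ℚ[X]) - (C : ℚ →+* ℚ[X]).mapMatrix M) *
        (Matrix.scalar (Fin n) (X : ℚ[X]) + M.map C) = Matrix.scalar (Fin n) Q := by
      have e1 : (C : ℚ →+* ℚ[X]).mapMatrix M = M.map C := rfl
      rw [e1, sub_mul, mul_add, mul_add]
      have e2 : M.map C * M.map C = Matrix.scalar (Fin n) (C (p : ℚ)) := by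
        rw [← Matrix.map_mul, hM]
        refine Matrix.ext fun i j => ?_
        rw [Matrix.map_apply, Matrix.smul_apply, Matrix.one_apply, Matrix.scalar_apply,
          Matrix.diagonal_apply]
        split_ifs
        · rw [smul_eq_mul, mul_one]
        · rw [smul_zero, map_zero]
      have e3 : M.map C * Matrix.scalar (Fin n) (X : ℚ[X]) =
          Matrix.scalar (Fin n) (X : ℚ[X]) * M.map C := by
        refine Matrix.ext fun i j => ?_
        rw [Matrix.scalar_apply, Matrix.mul_diagonal, Matrix.diagonal_mul, mul_comm]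
      rw [e2, e3, hQ, map_sub, sq, map_mul]
      abel
    rw [e, Matrix.scalar_apply, Matrix.det_diagonal, Finset.prod_const, Finset.card_univ,
      Fintype.card_fin]
  obtain ⟨i, hi, has⟩ := (dvd_prime_pow hirr.prime n).mp hdvd
  have hmonic : M.charpoly.Monic := Matrix.charpoly_monic M
  have hQm : Q.Monic := monic_X_pow_sub_C _ (by norm_num)
  have heq : M.charpoly = Q ^ i := eq_of_monic_of_associated hmonic (hQm.pow i) has
  have hdeg : i = h := by
    have h1 := congrArg natDegree heq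
    rw [Matrix.charpoly_natDegree_eq_dim, natDegree_pow, hQ, natDegree_X_pow_sub_C,
      Fintype.card_fin] at h1
    omega
  rw [Matrix.det_eq_sign_charpoly_coeff, heq, hdeg, Fintype.card_fin, hn]
  rw [coeff_zero_eq_eval_zero, eval_pow, hQ]
  simp

end Pool.Agent.V11306.Conv
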