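import Mathlib
import Pool.Agent.V11306.Conv

/-!
# The determinants of `MP_fe1d70_nt`, Q1, over the rationals
-/

set_option autoImplicit false

namespace Pool.Agent.V11306.Conv

open Finset Matrix Polynomial

variable {p : ℕ} [Fact p.Prime]

lemma det_Am (h1 : p % 4 = 1) (n h : ℕ) (hn : p = 2 * n + 1) (hh : n = 2 * h) :
    (Am p n).det = (-(p : ℚ)) ^ h :=
  det_of_sq Fact.out hh _ (Am_sq h1 n hn)

/-- the matrix with parameters -/
noncomputable def Dm (p : ℕ) [Fact p.Prime] (n : ℕ) (x y z w : ℚ) : Matrix (Fin n) (Fin n) ℚ :=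
  Matrix.of fun j k => Cm p n j k + x + v p n j * y + v p n k * z + v p n j * v p n k * w

lemma Cm_symm (h1 : p % 4 = 1) (n : ℕ) (j k : Fin n) : Cm p n j k = Cm p n k j := by
  simp only [Cm, Matrix.of_apply]
  rw [add_comm (((k : ℕ) + 1 : ℕ) : ZMod p), ← q_neg h1 ((((k : ℕ) + 1 : ℕ) : ZMod p) - _), neg_sub]

/-- sum rules -/
lemma rules (h1 : p % 4 = 1) (n : ℕ) (hn : p = 2 * n + 1) :
    (∀ j, ∑ k, Cm p n j k = - v p n j) ∧ (∀ j, ∑ k, Cm p n j k * v p n k = -1) ∧
    (∀ j, ∑ k, Cm p n k j = - v p n j) ∧ (∀ j, ∑ k, v p n k * Cm p n k j = -1) ∧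
    (∑ k, v p n k = 0) ∧ (∑ k, v p n k * v p n k = n) ∧
    (∀ i j, ∑ k, Cm p n i k * Cm p n k j = (if i = j then (p : ℚ) else 0) - 2 -
      2 * (v p n i * v p n j)) := by
  refine ⟨Cm_one h1 n hn, Cm_v h1 n hn, ?_, ?_, sum_v h1 n hn, sum_v_sq n hn, ?_⟩
  · intro j
    rw [← Cm_one h1 n hn j]
    exact sum_congr rfl fun k _ => Cm_symm h1 n k j
  · intro j
    rw [← Cm_v h1 n hn j]
    refine sum_congr rfl fun k _ => ?_
    rw [Cm_symm h1 n k j, mul_comm]
  · intro i j
    have := congrFun (congrFun (Cm_sq h1 n hn) i) j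
    rw [Matrix.mul_apply] at this
    rw [this]
    simp only [Matrix.sub_apply, Matrix.smul_apply, Matrix.one_apply, Matrix.vecMulVec_apply,
      smul_eq_mul]
    split_ifs <;> ring

lemma D0_sq (h1 : p % 4 = 1) (n : ℕ) (hn : p = 2 * n + 1) :
    Dm p n 0 (((p : ℚ) + 1) / n) (2 / n) 0 * Dm p n 0 (((p : ℚ) + 1) / n) (2 / n) 0 =
      (p : ℚ) • (1 : Matrix (Fin n) (Fin n) ℚ) := by
  obtain ⟨r1, r2, r3, r4, r5, r6, r7⟩ := rules h1 n hn
  have hp := (Fact.out : p.Prime).two_le
  have hn0 : (n : ℚ) ≠ 0 := by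
    have : n ≠ 0 := by omega
    exact_mod_cast this
  have hpn : (p : ℚ) = 2 * n + 1 := by exact_mod_cast hn
  refine Matrix.ext fun i j => ?_
  rw [Matrix.mul_apply, Matrix.smul_apply, Matrix.one_apply, smul_eq_mul]
  set y : ℚ := ((p : ℚ) + 1) / n with hy
  set z : ℚ := 2 / n with hz
  have e1 : ∀ k, Dm p n 0 y z 0 i k * Dm p n 0 y z 0 k j =
      Cm p n i k * Cm p n k j + y * (Cm p n i k * v p n k) + z * v p n j * Cm p n i k
      + y * v p n i * Cm p n k j + z * (v p n k * Cm p n k j)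
      + y * y * v p n i * v p n k + y * z * v p n i * v p n j
      + z * y * (v p n k * v p n k) + z * z * v p n j * v p n k := by
    intro k
    simp only [Dm, Matrix.of_apply]
    ring
  rw [sum_congr rfl (fun k _ => e1 k)]
  simp only [sum_add_distrib, ← mul_sum]
  rw [r7, r2, r1, r3, r4, r5, r6]
  simp only [sum_const, card_univ, Fintype.card_fin, nsmul_eq_mul]
  have hrel : 2 + y + z - n * y * z = 0 := by
    rw [hy, hz, hpn]; field_simp; ring
  have hv : ∀ t : ℚ, (if i = j then (p : ℚ) else 0) = (p : ℚ) * (if i = j then 1 else 0) := by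
    intro _; split_ifs <;> ring
  rw [hv 0]
  linear_combination (-(1 : ℚ) - v p n i * v p n j) * hrel

lemma det_Dm (h1 : p % 4 = 1) (n h : ℕ) (hn : p = 2 * n + 1) (hh : n = 2 * (h + 1))
    (x y z w : ℚ) : (Dm p n x y z w).det =
      (-(p : ℚ)) ^ h * ((n : ℚ) ^ 2 * w * x - (n * y - 1) * (n * z - 1)) := by
  obtain ⟨r1, r2, r3, r4, r5, r6, r7⟩ := rules h1 n hn
  have hp := (Fact.out : p.Prime).two_le
  have hn0 : (n : ℚ) ≠ 0 := by
    have : n ≠ 0 := by omega
    exact_mod_cast this
  have hp0 : (p : ℚ) ≠ 0 := by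
    have : p ≠ 0 := by omega
    exact_mod_cast this
  have hpn : (p : ℚ) = 2 * n + 1 := by exact_mod_cast hn
  set y0 : ℚ := ((p : ℚ) + 1) / n with hy0
  set z0 : ℚ := 2 / n with hz0
  set D0 := Dm p n 0 y0 z0 0 with hD0
  have hsq : D0 * D0 = (p : ℚ) • (1 : Matrix (Fin n) (Fin n) ℚ) := D0_sq h1 n hn
  have hdet0 : D0.det = (-(p : ℚ)) ^ (h + 1) := det_of_sq Fact.out hh _ hsq
  have hinv : D0⁻¹ = (p : ℚ)⁻¹ • D0 := by
    apply Matrix.inv_eq_right_inv
    rw [Matrix.mul_smul, hsq, smul_smul, inv_mul_cancel₀ hp0, one_smul]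
  have hunit : IsUnit D0.det := by
    rw [hdet0]
    exact (isUnit_iff_ne_zero.mpr (pow_ne_zero _ (neg_ne_zero.mpr hp0)))
  set U : Matrix (Fin n) (Fin 2) ℚ := Matrix.of fun j k => if k = 0 then 1 else v p n j with hU
  set V : Matrix (Fin 2) (Fin n) ℚ := Matrix.of fun k j =>
    if k = 0 then x + (z - z0) * v p n j else (y - y0) + w * v p n j with hV
  have hD : Dm p n x y z w = D0 + U * V := by
    ext j k
    rw [Matrix.add_apply, Matrix.mul_apply, Fin.sum_univ_two]
    simp only [hD0, Dm, hU, hV, Matrix.of_apply]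
    simp
    ring
  have hD0one : ∀ j, ∑ k, D0 j k = p * v p n j := by
    intro j
    simp only [hD0, Dm, Matrix.of_apply, sum_add_distrib, ← mul_sum, ← sum_mul, r1, r5, sum_const,
      card_univ, Fintype.card_fin, nsmul_eq_mul]
    rw [hy0]
    field_simp
    ring
  have hD0v : ∀ j, ∑ k, D0 j k * v p n k = 1 := by
    intro j
    have e : ∀ k, D0 j k * v p n k = Cm p n j k * v p n k + v p n j * y0 * v p n k
        + z0 * (v p n k * v p n k) := by
      intro k
      simp only [hD0, Dm, Matrix.of_apply]; ring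
    rw [sum_congr rfl (fun k _ => e k)]
    simp only [sum_add_distrib, ← mul_sum, r2, r5, r6]
    rw [hz0]
    field_simp
    ring
  have hW : V * D0⁻¹ * U = Matrix.of fun i k : Fin 2 => if i = 0 then
      (if k = 0 then (z - z0) * n else x * n / p) else
      (if k = 0 then w * n else (y - y0) * n / p) := by
    rw [hinv, Matrix.mul_smul, Matrix.smul_mul]
    have e0 : D0 * U = Matrix.of fun (j : Fin n) (k : Fin 2) => if k = 0 then p * v p n j else 1 := by
      ext j k
      rw [Matrix.mul_apply]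
      fin_cases k
      · simp only [hU, Matrix.of_apply]
        simp [hD0one]
      · simp only [hU, Matrix.of_apply]
        simp [hD0v]
    rw [Matrix.mul_assoc, e0]
    ext i k
    rw [Matrix.smul_apply, Matrix.mul_apply, smul_eq_mul]
    fin_cases i <;> fin_cases k
    · simp only [hV, Matrix.of_apply]
      simp only [Fin.zero_eta, Fin.isValue, if_true]
      have e : ∀ j, (x + (z - z0) * v p n j) * (p * v p n j) = p * x * v p n j +
          p * (z - z0) * (v p n j * v p n j) := by intro j; ring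
      rw [sum_congr rfl (fun j _ => e j), sum_add_distrib, ← mul_sum, ← mul_sum, r5, r6]
      field_simp
      ring
    · simp only [hV, Matrix.of_apply]
      simp only [Fin.zero_eta, Fin.isValue, if_true, Fin.mk_one, one_ne_zero, if_false, mul_one]
      rw [sum_add_distrib, ← mul_sum, r5]
      simp only [sum_const, card_univ, Fintype.card_fin, nsmul_eq_mul]
      field_simp
      ring
    · simp only [hV, Matrix.of_apply]
      simp only [Fin.zero_eta, Fin.isValue, if_true, Fin.mk_one, one_ne_zero, if_false, mul_one]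
      have e : ∀ j, (y - y0 + w * v p n j) * (p * v p n j) = p * (y - y0) * v p n j +
          p * w * (v p n j * v p n j) := by intro j; ring
      rw [sum_congr rfl (fun j _ => e j), sum_add_distrib, ← mul_sum, ← mul_sum, r5, r6]
      field_simp
      ring
    · simp only [hV, Matrix.of_apply]
      simp only [Fin.isValue, Fin.mk_one, one_ne_zero, if_false, mul_one]
      rw [sum_add_distrib, ← mul_sum, r5]
      simp only [sum_const, card_univ, Fintype.card_fin, nsmul_eq_mul]
      field_simp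
      ring
  rw [hD, Matrix.det_add_mul _ _ hunit, hW, hdet0, Matrix.det_fin_two]
  simp only [Matrix.add_apply, Matrix.one_apply, Matrix.of_apply]
  simp only [Fin.isValue, if_true, one_ne_zero, if_false, zero_ne_one]
  rw [hz0, hy0, pow_succ]
  field_simp
  ring

end Pool.Agent.V11306.Conv
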