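import Mathlib
import Pool.Agent.V11306.ToepY
import Pool.Agent.V11306.FeDet

/-!
# The matrix `χ(j+k) + χ(j-k) + χ(jk)`
-/

set_option autoImplicit false

namespace Pool.Agent.V11306.Conv

open Finset Matrix Polynomial NumberField

variable {p : ℕ} [hpf : Fact p.Prime]

lemma q_neg3 (h3 : p % 4 = 3) (a : ZMod p) : q (-a) = - q a := by
  have : q (-a) = q (-1 : ZMod p) * q a := by rw [← q_mul]; simp
  have h2 := CnfD.ez_three h3
  rw [CnfD.ez] at h2
  rw [this, q, h2]; simp

lemma corr2 (hp2 : p ≠ 2) (a b : ZMod p) :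
    ∑ k : ZMod p, q (k + a) * q (k + b) = if a = b then (p : ℚ) - 1 else -1 := by
  have e : ∑ k : ZMod p, q (k + a) * q (k + b) = ∑ k : ZMod p, q k * q (k + (b - a)) := by
    apply Fintype.sum_bijective (fun k : ZMod p => k + a)
    · exact (Equiv.addRight a).bijective
    · intro k
      congr 2
      ring
  rw [e, corr hp2]
  by_cases h : a = b
  · subst h; simp
  · rw [if_neg h, if_neg (fun h' => h (sub_eq_zero.mp h').symm)]

/-- a matrix with even off-diagonal entries modulo 4 -/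
lemma det_mod_four {n : ℕ} (F : Matrix (Fin n) (Fin n) ℤ) (h : ∀ i j, i ≠ j → (2 : ℤ) ∣ F i j) :
    (4 : ℤ) ∣ F.det - ∏ i, F i i := by
  classical
  rw [Matrix.det_apply', ← Finset.add_sum_erase univ _ (Finset.mem_univ (1 : Equiv.Perm (Fin n)))]
  simp only [Equiv.Perm.sign_one, Units.val_one, Int.cast_one, one_mul, Equiv.Perm.one_apply,
    add_sub_cancel_left]
  apply Finset.dvd_sum
  intro σ hσ
  have hσ1 : σ ≠ 1 := by simpa using hσ
  obtain ⟨i, hi⟩ : ∃ i, σ i ≠ i := by
    by_contra hcon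
    push Not at hcon
    exact hσ1 (Equiv.ext hcon)
  have hj : σ (σ i) ≠ σ i := fun h' => hi (σ.injective h')
  apply Dvd.dvd.mul_left
  rw [← Finset.mul_prod_erase univ _ (Finset.mem_univ i),
    ← Finset.mul_prod_erase (univ.erase i) _ (Finset.mem_erase.mpr ⟨hi, Finset.mem_univ _⟩),
    ← mul_assoc]
  apply Dvd.dvd.mul_right
  have := mul_dvd_mul (h _ _ hi) (h _ _ hj)
  norm_num at this
  exact this

section three

variable (h3 : p % 4 = 3) (n : ℕ) (hn : p = 2 * n + 1)

include h3 hn in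
lemma Cm_gram (k l : Fin n) : ∑ j, Cm p n j k * Cm p n j l = (if k = l then (p : ℚ) else 0) - 2 := by
  have hp2 : p ≠ 2 := by rintro rfl; omega
  simp only [Cm, Matrix.of_apply]
  set b := (((k : ℕ) + 1 : ℕ) : ZMod p) with hb
  set c := (((l : ℕ) + 1 : ℕ) : ZMod p) with hc
  have hf := sum_even n hn (fun a : ZMod p => (q (a + b) + q (a - b)) * (q (a + c) + q (a - c))) (by
    intro a
    have e1 : ∀ d : ZMod p, q (-a + d) = - q (a - d) := fun d => by
      rw [← q_neg3 h3]; congr 1; ring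
    have e2 : ∀ d : ZMod p, q (-a - d) = - q (a + d) := fun d => by
      rw [← q_neg3 h3]; congr 1; ring
    rw [e1, e2, e1, e2]; ring)
  have h0 : (q ((0 : ZMod p) + b) + q (0 - b)) = 0 := by
    rw [zero_add, zero_sub, q_neg3 h3]; ring
  rw [h0, zero_mul, zero_add] at hf
  have hsum : ∑ a : ZMod p, (q (a + b) + q (a - b)) * (q (a + c) + q (a - c)) =
      2 * (if k = l then (p : ℚ) else 0) - 4 := by
    have e3 : ∀ a : ZMod p, (q (a + b) + q (a - b)) * (q (a + c) + q (a - c)) =
        q (a + b) * q (a + c) + q (a + b) * q (a + (-c)) + q (a + (-b)) * q (a + c) +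
          q (a + (-b)) * q (a + (-c)) := by
      intro a
      rw [← sub_eq_add_neg, ← sub_eq_add_neg]; ring
    rw [Finset.sum_congr rfl (fun a _ => e3 a)]
    simp only [Finset.sum_add_distrib]
    rw [corr2 hp2, corr2 hp2, corr2 hp2, corr2 hp2]
    have hbc : b + c ≠ 0 := add_ne hn k l
    have n1 : ¬ b = -c := fun h => hbc (by rw [h]; ring)
    have n2 : ¬ -b = c := fun h => hbc (by rw [← h]; ring)
    rw [if_neg n1, if_neg n2]
    by_cases hkl : k = l
    · have h5 : b = c := by rw [hb, hc, hkl]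
      rw [if_pos h5, if_pos (by rw [h5]), if_pos hkl]; ring
    · have h5 : ¬ b = c := fun h => hkl ((sub_eq_zero_iff hn k l).mp (by
        rw [← hb, ← hc, h, sub_self]))
      rw [if_neg h5, if_neg (fun h => h5 (neg_injective h)), if_neg hkl]; ring
  rw [hsum] at hf
  linarith

include h3 hn in
lemma Cm_det_sq : (Cm p n).det ^ 2 = (p : ℚ) ^ (n - 1) := by
  have hp0 : (p : ℚ) ≠ 0 := by exact_mod_cast hpf.out.pos.ne'
  have hn1 : 1 ≤ n := by have := hpf.out.two_le; omega
  have h1 : (Cm p n).transpose * Cm p n = (p : ℚ) • (1 + Matrix.replicateCol Unit (fun _ => (-2 / p : ℚ)) *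
      Matrix.replicateRow Unit (fun _ : Fin n => (1 : ℚ))) := by
    ext k l
    rw [Matrix.mul_apply]
    simp only [Matrix.transpose_apply]
    rw [Cm_gram h3 n hn k l, Matrix.smul_apply, Matrix.add_apply, Matrix.mul_apply, Matrix.one_apply]
    simp only [Matrix.replicateCol_apply, Matrix.replicateRow_apply, Finset.univ_unique,
      Finset.sum_singleton, smul_eq_mul]
    split_ifs <;> field_simp <;> ring
  have h2 := congrArg Matrix.det h1
  rw [Matrix.det_mul, Matrix.det_transpose, Matrix.det_smul, Fintype.card_fin,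
    Matrix.det_one_add_replicateCol_mul_replicateRow] at h2
  rw [sq, h2]
  simp only [dotProduct, one_mul, Finset.sum_const, Finset.card_univ, Fintype.card_fin,
    nsmul_eq_mul]
  obtain ⟨k, rfl⟩ : ∃ k, n = k + 1 := ⟨n - 1, by omega⟩
  rw [Nat.add_sub_cancel, pow_succ]
  have hpn : (p : ℚ) = 2 * ((k + 1 : ℕ) : ℚ) + 1 := by exact_mod_cast hn
  have : (p : ℚ) * (1 + ((k + 1 : ℕ) : ℚ) * (-2 / p)) = 1 := by
    field_simp
    linear_combination hpn
  rw [mul_assoc, this, mul_one]

/-- the integer matrix -/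
noncomputable def Fz (p : ℕ) [Fact p.Prime] (n : ℕ) : Matrix (Fin n) (Fin n) ℤ :=
  Matrix.of fun j k => quadraticChar (ZMod p) ((((j : ℕ) + 1 : ℕ) : ZMod p) +
    (((k : ℕ) + 1 : ℕ) : ZMod p)) +
    quadraticChar (ZMod p) ((((j : ℕ) + 1 : ℕ) : ZMod p) - (((k : ℕ) + 1 : ℕ) : ZMod p))

lemma Fz_det : (((Fz p n).det : ℤ) : ℚ) = (Cm p n).det := by
  rw [Int.cast_det]
  congr 1
  ext j k
  rw [Matrix.map_apply, Fz, Cm, Matrix.of_apply, Matrix.of_apply, q, q]
  push_cast
  rfl

include hn in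
lemma Fz_mod : (4 : ℤ) ∣ (Fz p n).det - quadraticChar (ZMod p) 2 ^ n *
    quadraticChar (ZMod p) (n.factorial : ZMod p) := by
  have h := det_mod_four (Fz p n) (by
    intro i j hij
    rw [Fz, Matrix.of_apply]
    have h1 := add_ne hn i j
    have h2 : (((i : ℕ) + 1 : ℕ) : ZMod p) - (((j : ℕ) + 1 : ℕ) : ZMod p) ≠ 0 :=
      fun h => hij ((sub_eq_zero_iff hn i j).mp h)
    rcases quadraticChar_dichotomy (F := ZMod p) h1 with e | e <;>
      rcases quadraticChar_dichotomy (F := ZMod p) h2 with e' | e' <;> rw [e, e'] <;> norm_num)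
  have hprod : ∏ i, Fz p n i i = quadraticChar (ZMod p) 2 ^ n *
      quadraticChar (ZMod p) (n.factorial : ZMod p) := by
    have e : ∀ i : Fin n, Fz p n i i = quadraticChar (ZMod p) 2 *
        quadraticChar (ZMod p) (((i : ℕ) + 1 : ℕ) : ZMod p) := by
      intro i
      rw [Fz, Matrix.of_apply, sub_self, quadraticChar_zero, add_zero, ← map_mul]
      congr 1; ring
    rw [Finset.prod_congr rfl (fun i _ => e i), Finset.prod_mul_distrib, Finset.prod_const,
      Finset.card_univ, Fintype.card_fin, Toep.mu_eq, ← Fin.prod_univ_eq_prod_range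
        (fun j => quadraticChar (ZMod p) ((j + 1 : ℕ) : ZMod p))]
  rw [hprod] at h
  exact h

include h3 hn in
theorem Fz_val : (Fz p n).det =
    - quadraticChar (ZMod p) (n.factorial : ZMod p) * (p : ℤ) ^ ((n - 1) / 2) := by
  have hp2 : p ≠ 2 := by rintro rfl; omega
  have h1 : (Fz p n).det ^ 2 = (p : ℤ) ^ (n - 1) := by
    have := Cm_det_sq h3 n hn
    rw [← Fz_det] at this
    exact_mod_cast this
  have hmod := Fz_mod n hn
  set d : ℤ := (Fz p n).det with hd
  set μ : ℤ := quadraticChar (ZMod p) (n.factorial : ZMod p) with hμ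
  set k : ℕ := (n - 1) / 2 with hk
  have hnk : n - 1 = k * 2 := by omega
  rw [hnk, pow_mul] at h1
  have hμ1 : μ = 1 ∨ μ = -1 := quadraticChar_dichotomy (Toep.fact_ne n hn)
  have hm4 : n % 4 = 1 ∨ n % 4 = 3 := by omega
  have hq : quadraticChar (ZMod p) 2 = if n % 4 = 1 then -1 else 1 := by
    rw [quadraticChar_two (by rw [ZMod.ringChar_zmod_n]; exact hp2), ZMod.card,
      ZMod.χ₈_nat_eq_if_mod_eight]
    rcases hm4 with h | h
    · rw [if_neg (by omega), if_neg (by omega), if_pos h]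
    · rw [if_neg (by omega), if_pos (by omega), if_neg (by omega)]
  have hodd : Odd n := by rw [Nat.odd_iff]; omega
  have hqn : quadraticChar (ZMod p) 2 ^ n = quadraticChar (ZMod p) 2 := by
    rw [hq]; split_ifs
    · exact hodd.neg_one_pow
    · exact one_pow n
  rw [hqn] at hmod
  have hpk : (4 : ℤ) ∣ (p : ℤ) ^ k - (-1) ^ k := by
    have h5 : (4 : ℤ) ∣ (p : ℤ) - (-1) := ⟨(p + 1) / 4, by omega⟩
    exact h5.trans (sub_dvd_pow_sub_pow _ _ k)
  have hkk : (-1 : ℤ) ^ k = - quadraticChar (ZMod p) 2 := by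
    rcases hm4 with h | h
    · have : Even k := by rw [Nat.even_iff]; omega
      rw [this.neg_one_pow, hq, if_pos h]; norm_num
    · have : Odd k := by rw [Nat.odd_iff]; omega
      rw [this.neg_one_pow, hq, if_neg (by omega)]
  rw [hkk] at hpk
  have hc1 : quadraticChar (ZMod p) 2 = 1 ∨ quadraticChar (ZMod p) 2 = -1 :=
    quadraticChar_dichotomy (Toep.two_ne hp2)
  have h6 : (d - (p : ℤ) ^ k) * (d + (p : ℤ) ^ k) = 0 := by linear_combination h1
  set c : ℤ := quadraticChar (ZMod p) 2 with hc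
  rcases mul_eq_zero.mp h6 with h | h
  · have hd1 : d = (p : ℤ) ^ k := by linarith
    rw [hd1] at hmod ⊢
    rcases hμ1 with e | e <;> rcases hc1 with e' | e' <;> rw [e] at hmod ⊢ <;> rw [e'] at hmod hpk
    all_goals first
      | ring1
      | (exfalso; omega)
  · have hd1 : d = -(p : ℤ) ^ k := by linarith
    rw [hd1] at hmod ⊢
    rcases hμ1 with e | e <;> rcases hc1 with e' | e' <;> rw [e] at hmod ⊢ <;> rw [e'] at hmod hpk
    all_goals first
      | ring1
      | (exfalso; omega)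

end three

end Pool.Agent.V11306.Conv
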