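import Mathlib

/-!
# Continued fractions of `p / n` and Jacobi symbols

The parity of the length of the continued fraction of `p / n` is decided by the half of `(0, p)`
in which the inverse of `n` modulo `p` lies.
-/

set_option autoImplicit false

open Finset

namespace Pool.Agent.V11306.Cao

/-- the value of a finite simple continued fraction -/
def cfVal : List ℕ → ℚ
  | [] => 0
  | [c] => c
  | c :: d :: l => c + 1 / cfVal (d :: l)

/-- `c` is a finite simple continued fraction expansion of `p / n` with positive entries and last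
entry larger than `1` -/
def IsCF (p n : ℕ) (c : List ℕ) : Prop :=
  (∀ x ∈ c, 0 < x) ∧ (∃ z, c.getLast? = some z ∧ 1 < z) ∧ cfVal c = (p : ℚ) / n

/-- admissible lists of partial quotients -/
def Adm (c : List ℕ) : Prop := (∀ x ∈ c, 0 < x) ∧ ∃ z, c.getLast? = some z ∧ 1 < z

lemma adm_tail {c d : ℕ} {l : List ℕ} (h : Adm (c :: d :: l)) : 0 < c ∧ Adm (d :: l) := by
  obtain ⟨h1, z, h2, h3⟩ := h
  refine ⟨h1 c (by simp), fun x hx => h1 x (by simp only [List.mem_cons] at hx ⊢; tauto), z, ?_, h3⟩
  rw [List.getLast?_cons_cons] at h2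
  exact h2

theorem core (c : List ℕ) (h : Adm c) : ∃ a b u v : ℕ, 0 < b ∧ b < a ∧
    cfVal c = (a : ℚ) / b ∧ (a : ℤ) * v - b * u = (-1) ^ c.length ∧ 1 ≤ u ∧ 2 * u ≤ a ∧
    2 * v ≤ b := by
  induction c with
  | nil => obtain ⟨-, z, h2, -⟩ := h; simp at h2
  | cons c l ih =>
    cases l with
    | nil =>
      obtain ⟨-, z, h2, h3⟩ := h
      simp at h2
      subst h2
      exact ⟨c, 1, 1, 0, one_pos, h3, by simp [cfVal], by simp, le_refl 1, by omega, by omega⟩
    | cons d l =>
      obtain ⟨hc, hl⟩ := adm_tail h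
      obtain ⟨a, b, u, v, hb, hab, h1, h2, h3, h4, h5⟩ := ih hl
      refine ⟨c * a + b, a, c * u + v, u, by omega, by nlinarith, ?_, ?_, by nlinarith, by nlinarith,
        h4⟩
      · rw [cfVal, h1]
        have ha0 : (a : ℚ) ≠ 0 := by
          have : 0 < a := by omega
          positivity
        have hb0 : (b : ℚ) ≠ 0 := by positivity
        push_cast
        field_simp
      · rw [List.length_cons, pow_succ, ← h2]
        push_cast
        ring

theorem one_lt_cfVal (c : List ℕ) (h : Adm c) : 1 < cfVal c := by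
  obtain ⟨a, b, u, v, hb, hab, h1, -⟩ := core c h
  rw [h1, one_lt_div (by exact_mod_cast hb)]
  exact_mod_cast hab

theorem cf_unique (c c' : List ℕ) (h : Adm c) (h' : Adm c') (e : cfVal c = cfVal c') : c = c' := by
  induction c generalizing c' with
  | nil => obtain ⟨-, z, h2, -⟩ := h; simp at h2
  | cons a l ih =>
    cases c' with
    | nil => obtain ⟨-, z, h2, -⟩ := h'; simp at h2
    | cons a' l' =>
      have key : ∀ (x y : ℕ) (v : ℚ), 1 < v → (x : ℚ) = y + 1 / v → False := by
        intro x y v hv hxy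
        have h1 : 0 < 1 / v := by positivity
        have h2 : 1 / v < 1 := by rw [div_lt_one (by linarith)]; exact hv
        have h3 : (y : ℚ) < x := by linarith
        have h4 : (x : ℚ) < y + 1 := by linarith
        have h5 : y < x := by exact_mod_cast h3
        have h6 : x < y + 1 := by exact_mod_cast h4
        omega
      cases l with
      | nil =>
        cases l' with
        | nil =>
          simp only [cfVal] at e
          rw [show a = a' by exact_mod_cast e]
        | cons d' m' =>
          exfalso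
          rw [cfVal, cfVal] at e
          exact key _ _ _ (one_lt_cfVal _ (adm_tail h').2) e
      | cons d m =>
        cases l' with
        | nil =>
          exfalso
          rw [cfVal, cfVal] at e
          exact key _ _ _ (one_lt_cfVal _ (adm_tail h).2) e.symm
        | cons d' m' =>
          rw [cfVal, cfVal] at e
          have hv := one_lt_cfVal _ (adm_tail h).2
          have hv' := one_lt_cfVal _ (adm_tail h').2
          set v := cfVal (d :: m) with hvd
          set v' := cfVal (d' :: m') with hvd'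
          have h1 : 0 < 1 / v := by positivity
          have h2 : 1 / v < 1 := by rw [div_lt_one (by linarith)]; exact hv
          have h1' : 0 < 1 / v' := by positivity
          have h2' : 1 / v' < 1 := by rw [div_lt_one (by linarith)]; exact hv'
          have h3 : (a : ℚ) < a' + 1 := by linarith
          have h4 : (a' : ℚ) < a + 1 := by linarith
          have h5 : a < a' + 1 := by exact_mod_cast h3
          have h6 : a' < a + 1 := by exact_mod_cast h4
          have h7 : a = a' := by omega
          subst h7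
          have h8 : v = v' := by
            have : 1 / v = 1 / v' := by linarith
            rw [one_div, one_div] at this
            exact inv_injective this
          rw [ih _ (adm_tail h).2 (adm_tail h').2 h8]

/-- existence of the expansion -/
theorem cf_exists (n : ℕ) : ∀ p : ℕ, 0 < n → n < p → ∃ c, IsCF p n c := by
  induction n using Nat.strong_induction_on with
  | _ n ih =>
    intro p hn hnp
    have hn0 : (n : ℚ) ≠ 0 := by positivity
    have hdm := Nat.div_add_mod p n
    rcases Nat.eq_zero_or_pos (p % n) with hr | hr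
    · refine ⟨[p / n], ?_, ⟨p / n, by simp, ?_⟩, ?_⟩
      · intro x hx
        simp at hx
        subst hx
        exact Nat.div_pos hnp.le hn
      · rw [hr, add_zero] at hdm
        by_contra hle
        have : p / n ≤ 1 := by omega
        have : n * (p / n) ≤ n * 1 := Nat.mul_le_mul_left n this
        omega
      · rw [cfVal, eq_div_iff hn0]
        rw [hr, add_zero] at hdm
        have : (n : ℚ) * ((p / n : ℕ) : ℚ) = p := by exact_mod_cast hdm
        linarith
    · obtain ⟨c, h1, ⟨z, h2, h3⟩, h4⟩ := ih (p % n) (Nat.mod_lt _ hn) n hr (Nat.mod_lt _ hn)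
      have hr0 : ((p % n : ℕ) : ℚ) ≠ 0 := by positivity
      cases c with
      | nil => simp at h2
      | cons d l =>
        refine ⟨p / n :: d :: l, ?_, ⟨z, by rw [List.getLast?_cons_cons]; exact h2, h3⟩, ?_⟩
        · intro x hx
          rw [List.mem_cons] at hx
          rcases hx with hx | hx
          · subst hx; exact Nat.div_pos hnp.le hn
          · exact h1 x hx
        · rw [cfVal, h4]
          have : (n : ℚ) * ((p / n : ℕ) : ℚ) + ((p % n : ℕ) : ℚ) = p := by exact_mod_cast hdm
          rw [eq_div_iff hn0]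
          field_simp
          linarith

lemma IsCF.adm {p n : ℕ} {c : List ℕ} (h : IsCF p n c) : Adm c := ⟨h.1, h.2.1⟩

/-- every `p / n` has exactly one expansion -/
theorem cf_existsUnique (p n : ℕ) (h0 : 0 < n) (h1 : n < p) : ∃! c, IsCF p n c := by
  obtain ⟨c, hc⟩ := cf_exists n p h0 h1
  exact ⟨c, hc, fun c' hc' => cf_unique _ _ hc'.adm hc.adm (by rw [hc'.2.2, hc.2.2])⟩

/-- the inverse modulo `p`, as a natural number -/
def iv (p n : ℕ) : ℕ := ((n : ZMod p)⁻¹).val

/-- `1` on the lower half and `-1` on the upper half of `(0, p)` -/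
def sg (p m : ℕ) : ℤ := if 2 * m < p then 1 else -1

/-- the parity of the length of the expansion -/
theorem parity (p n : ℕ) (hp : Odd p) (h0 : 0 < n) (h1 : n < p) (hc : n.Coprime p) (c : List ℕ)
    (h : IsCF p n c) : (-1 : ℤ) ^ c.length = - sg p (iv p n) := by
  obtain ⟨a, b, u, v, hb, hab, e1, e2, e3, e4, e5⟩ := core c h.adm
  have hp0 : 0 < p := by omega
  have : NeZero p := ⟨hp0.ne'⟩
  have hcab : Nat.Coprime a b := by
    rw [← Nat.isCoprime_iff_coprime]
    rcases neg_one_pow_eq_or ℤ c.length with h5 | h5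
    · rw [h5] at e2
      exact ⟨v, -u, by linarith⟩
    · rw [h5] at e2
      exact ⟨-v, u, by linarith⟩
  have e6 : p * b = a * n := by
    have h6 := h.2.2
    rw [e1, div_eq_div_iff (by positivity) (by positivity)] at h6
    have : ((a * n : ℕ) : ℚ) = ((p * b : ℕ) : ℚ) := by push_cast; linarith
    exact_mod_cast this.symm
  have hpa : p = a := by
    apply Nat.dvd_antisymm
    · have : p ∣ a * n := ⟨b, e6.symm⟩
      exact (Nat.Coprime.dvd_mul_right hc.symm).mp this
    · have : a ∣ p * b := ⟨n, e6⟩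
      exact (Nat.Coprime.dvd_mul_right hcab).mp this
  have hnb : b = n := by
    rw [hpa] at e6
    exact Nat.eq_of_mul_eq_mul_left (by omega) e6
  subst hpa hnb
  have hodd : p % 2 = 1 := Nat.odd_iff.mp hp
  have e7 : -((b : ZMod p) * u) = (((-1 : ℤ) ^ c.length : ℤ) : ZMod p) := by
    rw [← e2]
    push_cast
    rw [ZMod.natCast_self]
    ring
  have hlt : 2 * u < p := by omega
  have hunit : IsUnit (b : ZMod p) := (ZMod.isUnit_iff_coprime b p).mpr hc
  rcases neg_one_pow_eq_or ℤ c.length with h5 | h5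
  · rw [h5] at e7 ⊢
    have h7 : (b : ZMod p) * (-(u : ZMod p)) = 1 := by
      push_cast at e7
      linear_combination e7
    have h8 : (b : ZMod p)⁻¹ = -(u : ZMod p) := by
      have h9 := ZMod.inv_mul_of_unit _ hunit
      calc (b : ZMod p)⁻¹ = (b : ZMod p)⁻¹ * ((b : ZMod p) * (-(u : ZMod p))) := by rw [h7, mul_one]
        _ = _ := by rw [← mul_assoc, h9, one_mul]
    have h10 : iv p b = p - u := by
      rw [iv, h8]
      have : (-(u : ZMod p)) = ((p - u : ℕ) : ZMod p) := by
        rw [Nat.cast_sub (by omega), ZMod.natCast_self, zero_sub]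
      rw [this, ZMod.val_natCast, Nat.mod_eq_of_lt (by omega)]
    rw [h10, sg, if_neg (by omega)]
    norm_num
  · rw [h5] at e7 ⊢
    have h7 : (b : ZMod p) * (u : ZMod p) = 1 := by
      push_cast at e7
      linear_combination -e7
    have h8 : (b : ZMod p)⁻¹ = (u : ZMod p) := by
      have h9 := ZMod.inv_mul_of_unit _ hunit
      calc (b : ZMod p)⁻¹ = (b : ZMod p)⁻¹ * ((b : ZMod p) * ((u : ZMod p))) := by rw [h7, mul_one]
        _ = _ := by rw [← mul_assoc, h9, one_mul]
    have h10 : iv p b = u := by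
      rw [iv, h8, ZMod.val_natCast, Nat.mod_eq_of_lt (by omega)]
    rw [h10, sg, if_pos hlt]

/-- `M_p` -/
def M (p : ℕ) : Set ℕ :=
  {n | 0 < n ∧ n < p ∧ ∃ c, IsCF p n c ∧ jacobiSym n p = (-1) ^ c.length}

/-- the complementary set -/
def Mbar (p : ℕ) : Set ℕ :=
  {n | 0 < n ∧ n < p ∧ ∃ c, IsCF p n c ∧ jacobiSym n p = (-1) ^ (c.length + 1)}

/-- the two sets through the half in which the inverse lies -/
def F (p : ℕ) (ε : ℤ) : Finset ℕ :=
  (range p).filter (fun n => n.Coprime p ∧ jacobiSym n p = ε * sg p (iv p n))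

/-- the same, after inversion -/
def F' (p : ℕ) (ε : ℤ) : Finset ℕ :=
  (range p).filter (fun n => n.Coprime p ∧ jacobiSym n p = ε * sg p n)

lemma jac_coprime {p : ℕ} (hp0 : p ≠ 0) {n : ℕ} (h : jacobiSym n p ≠ 0) : n.Coprime p := by
  have : NeZero p := ⟨hp0⟩
  by_contra hc
  apply h
  rw [jacobiSym.eq_zero_iff_not_coprime]
  rw [Int.gcd_natCast_natCast]
  exact hc

lemma mem_F_iff (p : ℕ) (hp : Odd p) (h1 : 1 < p) (δ : ℕ) (n : ℕ) :
    (0 < n ∧ n < p ∧ ∃ c, IsCF p n c ∧ jacobiSym n p = (-1) ^ (c.length + δ)) ↔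
      n ∈ F p (-(-1) ^ δ) := by
  rw [F, Finset.mem_filter, Finset.mem_range]
  constructor
  · rintro ⟨h0, hn, c, hc, h⟩
    have hcop : n.Coprime p := jac_coprime (by omega) (by rw [h]; exact pow_ne_zero _ (by norm_num))
    refine ⟨hn, hcop, ?_⟩
    rw [h, pow_add, parity p n hp h0 hn hcop c hc]
    ring
  · rintro ⟨hn, hcop, h⟩
    have h0 : 0 < n := by
      rcases Nat.eq_zero_or_pos n with h | h
      · subst h
        rw [Nat.coprime_zero_left] at hcop
        omega
      · exact h
    obtain ⟨c, hc⟩ := cf_exists n p h0 hn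
    refine ⟨h0, hn, c, hc, ?_⟩
    rw [h, pow_add, parity p n hp h0 hn hcop c hc]
    ring

lemma M_eq (p : ℕ) (hp : Odd p) (h1 : 1 < p) : M p = ↑(F p (-1)) := by
  ext n
  have := mem_F_iff p hp h1 0 n
  rw [Finset.mem_coe]
  simpa [M] using this

lemma Mbar_eq (p : ℕ) (hp : Odd p) (h1 : 1 < p) : Mbar p = ↑(F p 1) := by
  ext n
  have := mem_F_iff p hp h1 1 n
  rw [Finset.mem_coe]
  simpa [Mbar] using this

section iv

variable {p : ℕ} [NeZero p]

lemma iv_lt (n : ℕ) : iv p n < p := ZMod.val_lt _

lemma iv_cast (n : ℕ) : ((iv p n : ℕ) : ZMod p) = (n : ZMod p)⁻¹ := by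
  rw [iv, ZMod.natCast_zmod_val]

lemma iv_mul {n : ℕ} (h : n.Coprime p) : ((n : ZMod p)) * ((iv p n : ℕ) : ZMod p) = 1 := by
  rw [iv_cast]
  exact ZMod.mul_inv_of_unit _ ((ZMod.isUnit_iff_coprime n p).mpr h)

lemma iv_coprime {n : ℕ} (h : n.Coprime p) : (iv p n).Coprime p := by
  rw [← ZMod.isUnit_iff_coprime]
  exact IsUnit.of_mul_eq_one (n : ZMod p) (by rw [mul_comm]; exact iv_mul h)

lemma iv_iv {n : ℕ} (h : n.Coprime p) (hn : n < p) : iv p (iv p n) = n := by
  have h1 := iv_mul h
  have h2 := iv_mul (iv_coprime h)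
  have h3 : ((iv p (iv p n) : ℕ) : ZMod p) = (n : ZMod p) := by
    calc ((iv p (iv p n) : ℕ) : ZMod p) = ((n : ZMod p) * ((iv p n : ℕ) : ZMod p)) *
        ((iv p (iv p n) : ℕ) : ZMod p) := by rw [h1, one_mul]
      _ = n := by rw [mul_assoc, h2, mul_one]
  have h4 := congrArg ZMod.val h3
  rwa [ZMod.val_natCast, ZMod.val_natCast, Nat.mod_eq_of_lt (iv_lt _), Nat.mod_eq_of_lt hn] at h4

lemma jac_iv {n : ℕ} (h : n.Coprime p) : jacobiSym (iv p n) p = jacobiSym n p := by
  have h1 : jacobiSym (n : ℤ) p * jacobiSym (iv p n : ℤ) p = 1 := by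
    rw [← jacobiSym.mul_left]
    have : jacobiSym ((n : ℤ) * (iv p n : ℤ)) p = jacobiSym 1 p := by
      apply jacobiSym.mod_left'
      rw [← ZMod.intCast_eq_intCast_iff']
      push_cast
      exact iv_mul h
    rw [this, jacobiSym.one_left]
  have hg : Int.gcd (n : ℤ) (p : ℤ) = 1 := by rw [Int.gcd_natCast_natCast]; exact h
  rcases jacobiSym.eq_one_or_neg_one hg with h2 | h2
  · rw [h2] at h1 ⊢; linarith
  · rw [h2] at h1 ⊢; linarith

end iv

lemma card_F (p : ℕ) (hp0 : p ≠ 0) (ε : ℤ) : (F p ε).card = (F' p ε).card := by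
  have : NeZero p := ⟨hp0⟩
  refine Finset.card_nbij' (fun n => iv p n) (fun n => iv p n) ?_ ?_ ?_ ?_
  · intro n hn
    simp only [F, F', Finset.coe_filter, Finset.mem_range, Set.mem_ofPred_eq] at hn ⊢
    refine ⟨iv_lt n, iv_coprime hn.2.1, ?_⟩
    rw [jac_iv hn.2.1, hn.2.2]
  · intro n hn
    simp only [F, F', Finset.coe_filter, Finset.mem_range, Set.mem_ofPred_eq] at hn ⊢
    refine ⟨iv_lt n, iv_coprime hn.2.1, ?_⟩
    rw [jac_iv hn.2.1, iv_iv hn.2.1 hn.1, hn.2.2]
  · intro n hn
    simp only [F, Finset.coe_filter, Finset.mem_range, Set.mem_ofPred_eq] at hn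
    exact iv_iv hn.2.1 hn.1
  · intro n hn
    simp only [F', Finset.coe_filter, Finset.mem_range, Set.mem_ofPred_eq] at hn
    exact iv_iv hn.2.1 hn.1

/-- the number of `m < p / 2` with symbol `ε` -/
def hc (p : ℕ) (ε : ℤ) : ℕ := ((range ((p + 1) / 2)).filter (fun m : ℕ => jacobiSym m p = ε)).card

lemma card_F' (p : ℕ) (hp : Odd p) (h1 : 1 < p) (ε : ℤ) (hε : ε = 1 ∨ ε = -1) :
    (F' p ε).card = hc p ε + hc p (-ε * jacobiSym (-1) p) := by
  have hodd : p % 2 = 1 := Nat.odd_iff.mp hp
  have : NeZero p := ⟨by omega⟩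
  have hε0 : ε ≠ 0 := by rcases hε with h | h <;> rw [h] <;> norm_num
  have hneg1 : jacobiSym (-1) p = 1 ∨ jacobiSym (-1) p = -1 := by
    apply jacobiSym.eq_one_or_neg_one
    simp
  have hsplit : F' p ε = (range ((p + 1) / 2)).filter (fun m : ℕ => jacobiSym m p = ε) ∪
      ((Ico ((p + 1) / 2) p).filter (fun m : ℕ => jacobiSym m p = -ε)) := by
    ext m
    rw [F', Finset.mem_union, Finset.mem_filter, Finset.mem_filter, Finset.mem_filter,
      Finset.mem_range, Finset.mem_range, Finset.mem_Ico, sg]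
    constructor
    · rintro ⟨h2, -, h3⟩
      by_cases h4 : 2 * m < p
      · left
        rw [if_pos h4, mul_one] at h3
        exact ⟨by omega, h3⟩
      · right
        rw [if_neg h4] at h3
        exact ⟨⟨by omega, h2⟩, by rw [h3]; ring⟩
    · rintro (⟨h2, h3⟩ | ⟨⟨h2, h4⟩, h3⟩)
      · refine ⟨by omega, jac_coprime (by omega) (by rw [h3]; exact hε0), ?_⟩
        rw [if_pos (by omega), mul_one]
        exact h3
      · refine ⟨h4, jac_coprime (by omega) (by rw [h3]; exact neg_ne_zero.mpr hε0), ?_⟩
        rw [if_neg (by omega), h3]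
        ring
  rw [hsplit, Finset.card_union_of_disjoint]
  · congr 1
    rw [hc]
    refine Finset.card_nbij' (fun m => p - m) (fun m => p - m) ?_ ?_ ?_ ?_
    · intro m hm
      simp only [Finset.coe_filter, Finset.mem_range, Set.mem_ofPred_eq, Finset.mem_Ico] at hm ⊢
      refine ⟨by omega, ?_⟩
      have e : jacobiSym ((p - m : ℕ) : ℤ) p = jacobiSym (-1) p * jacobiSym m p := by
        rw [← jacobiSym.mul_left]
        apply jacobiSym.mod_left'
        rw [Nat.cast_sub (by omega), neg_one_mul]
        rw [show (p : ℤ) - m = -m + p * 1 by ring, Int.add_mul_emod_self_left]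
      rw [e, hm.2]; ring
    · intro m hm
      simp only [Finset.coe_filter, Finset.mem_range, Set.mem_ofPred_eq, Finset.mem_Ico] at hm ⊢
      have hm0 : m ≠ 0 := by
        rintro rfl
        have h5 := hm.2
        have h6 : jacobiSym ((0 : ℕ) : ℤ) p = 0 := by
          rw [jacobiSym.eq_zero_iff_not_coprime]
          simp
          omega
        rw [h6] at h5
        rcases hneg1 with h | h <;> rw [h] at h5 <;> (apply hε0; linarith)
      refine ⟨by omega, ?_⟩
      have e : jacobiSym ((p - m : ℕ) : ℤ) p = jacobiSym (-1) p * jacobiSym m p := by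
        rw [← jacobiSym.mul_left]
        apply jacobiSym.mod_left'
        rw [Nat.cast_sub (by omega), neg_one_mul]
        rw [show (p : ℤ) - m = -m + p * 1 by ring, Int.add_mul_emod_self_left]
      rw [e, hm.2]
      rcases hneg1 with h | h <;> rw [h] <;> ring
    · intro m hm
      simp only [Finset.coe_filter, Finset.mem_range, Set.mem_ofPred_eq, Finset.mem_Ico] at hm
      show p - (p - m) = m
      omega
    · intro m hm
      simp only [Finset.coe_filter, Finset.mem_range, Set.mem_ofPred_eq] at hm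
      show p - (p - m) = m
      omega
  · rw [Finset.disjoint_left]
    intro m h2 h3
    simp only [Finset.mem_filter, Finset.mem_range, Finset.mem_Ico] at h2 h3
    omega

/-- `N(p)` -/
noncomputable def N (p : ℕ) : ℕ := (M p).ncard

/-- the complementary count -/
noncomputable def Nbar (p : ℕ) : ℕ := (Mbar p).ncard

theorem N_eq (p : ℕ) (hp : Odd p) (h1 : 1 < p) : N p = hc p (-1) + hc p (jacobiSym (-1) p) := by
  rw [N, M_eq p hp h1, Set.ncard_coe_finset, card_F p (by omega), card_F' p hp h1 _ (Or.inr rfl)]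
  norm_num

theorem Nbar_eq (p : ℕ) (hp : Odd p) (h1 : 1 < p) :
    Nbar p = hc p 1 + hc p (-jacobiSym (-1) p) := by
  rw [Nbar, Mbar_eq p hp h1, Set.ncard_coe_finset, card_F p (by omega), card_F' p hp h1 _ (Or.inl rfl)]
  norm_num

end Pool.Agent.V11306.Cao
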