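import Mathlib
import Pool.Agent.V11306.ToepS

/-!
# The sign of the quadratic Gauss sum modulo an odd prime
-/

set_option autoImplicit false

namespace Pool.Agent.V11306.Cao

open Finset Polynomial

open Pool.Agent.Helper184.Chapman (chi chi_apply chi_sq)
open Pool.Agent.V11306.Toep

variable {p : ℕ} [hpf : Fact p.Prime]

lemma std_exp (a : ℕ) : (ZMod.stdAddChar (a : ZMod p) : ℂ) =
    Complex.exp (2 * Real.pi * a / p * Complex.I) := by
  have h := ZMod.stdAddChar_coe (N := p) (a : ℤ)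
  have h2 : ((a : ℤ) : ZMod p) = (a : ZMod p) := by push_cast; rfl
  rw [h2] at h
  rw [h]
  congr 1
  push_cast
  ring

lemma zprim : IsPrimitiveRoot (ZMod.stdAddChar (1 : ZMod p) : ℂ) p := by
  have h := std_exp (p := p) 1
  rw [Nat.cast_one] at h
  rw [h]
  have := Complex.isPrimitiveRoot_exp p hpf.out.ne_zero
  convert this using 2
  push_cast
  ring

lemma std_val' (k : ZMod p) : (ZMod.stdAddChar k : ℂ) = (ZMod.stdAddChar (1 : ZMod p) : ℂ) ^ k.val := by
  rw [← AddChar.map_nsmul_eq_pow, nsmul_eq_mul, mul_one, ZMod.natCast_zmod_val]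

/-- the sine product -/
noncomputable def SPr (p m : ℕ) [Fact p.Prime] : ℂ :=
  ∏ j ∈ range m, ((ZMod.stdAddChar ((j + 1 : ℕ) : ZMod p) : ℂ) -
    ZMod.stdAddChar (-((j + 1 : ℕ) : ZMod p)))

lemma SPr_val (m : ℕ) (hm : p = 2 * m + 1) : ∃ r : ℝ, 0 < r ∧ SPr p m = Complex.I ^ m * r := by
  have hp0 : (0 : ℝ) < p := by exact_mod_cast hpf.out.pos
  refine ⟨∏ j ∈ range m, (2 * Real.sin (2 * Real.pi * (j + 1) / p)), ?_, ?_⟩
  · apply Finset.prod_pos
    intro j hj
    rw [Finset.mem_range] at hj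
    have hpi := Real.pi_pos
    have h1 : 0 < 2 * Real.pi * (j + 1) / p := by positivity
    have h2 : 2 * Real.pi * (j + 1) / p < Real.pi := by
      rw [div_lt_iff₀ hp0]
      have h4 : (2 * (j + 1) : ℝ) < p := by
        have : 2 * (j + 1) < p := by omega
        exact_mod_cast this
      nlinarith
    have := Real.sin_pos_of_pos_of_lt_pi h1 h2
    positivity
  · rw [Complex.ofReal_prod]
    have e2 : Complex.I ^ m = ∏ _j ∈ range m, Complex.I := by
      rw [Finset.prod_const, Finset.card_range]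
    rw [SPr, e2, ← Finset.prod_mul_distrib]
    refine Finset.prod_congr rfl fun j hj => ?_
    have hval : (ZMod.stdAddChar ((j + 1 : ℕ) : ZMod p) : ℂ) =
        Complex.exp (2 * Real.pi * (j + 1) / p * Complex.I) := by
      rw [std_exp]; push_cast; rfl
    have hvaln : (ZMod.stdAddChar (-((j + 1 : ℕ) : ZMod p)) : ℂ) =
        Complex.exp (-(2 * Real.pi * (j + 1) / p) * Complex.I) := by
      rw [AddChar.map_neg_eq_inv, hval, ← Complex.exp_neg]
      congr 1
      ring
    have hsin : Complex.exp (2 * Real.pi * (j + 1) / p * Complex.I) -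
        Complex.exp (-(2 * Real.pi * (j + 1) / p) * Complex.I) =
        2 * Complex.I * Complex.sin (2 * Real.pi * (j + 1) / p) := by
      rw [Complex.sin]
      linear_combination (Complex.exp (2 * Real.pi * (j + 1) / p * Complex.I) -
        Complex.exp (-(2 * Real.pi * (j + 1) / p) * Complex.I)) * Complex.I_mul_I
    rw [hval, hvaln, hsin]
    push_cast
    ring

lemma prod_one_sub : ∏ k ∈ univ.erase (0 : ZMod p), (1 - (ZMod.stdAddChar k : ℂ)) = p := by
  have hp := hpf.out.pos
  obtain ⟨n, hn⟩ : ∃ n, p = n + 1 := ⟨p - 1, by omega⟩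
  have hprim : IsPrimitiveRoot (ZMod.stdAddChar (1 : ZMod p) : ℂ) (n + 1) := by
    rw [← hn]; exact zprim
  have h1 := hprim.prod_one_sub_pow_eq_order
  have h2 : ((n : ℂ) + 1) = p := by rw [hn]; push_cast; rfl
  rw [← h2, ← h1]
  symm
  apply Finset.prod_bij (fun (i : ℕ) _ => ((i + 1 : ℕ) : ZMod p))
  · intro a ha
    rw [Finset.mem_range] at ha
    simp only [Finset.mem_erase, Finset.mem_univ, and_true]
    intro h0
    rw [ZMod.natCast_eq_zero_iff] at h0
    have := Nat.le_of_dvd (by omega) h0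
    omega
  · intro a ha b hb hab
    rw [Finset.mem_range] at ha hb
    have := congrArg ZMod.val hab
    rw [ZMod.val_natCast_of_lt (by omega), ZMod.val_natCast_of_lt (by omega)] at this
    omega
  · intro b hb
    have hb0 : b ≠ 0 := by simpa using hb
    have hv0 : b.val ≠ 0 := by rwa [Ne, ZMod.val_eq_zero]
    have hlt := ZMod.val_lt b
    refine ⟨b.val - 1, ?_, ?_⟩
    · rw [Finset.mem_range]; omega
    · rw [show b.val - 1 + 1 = b.val by omega]; simp
  · intro a ha
    rw [Finset.mem_range] at ha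
    rw [std_val' ((a + 1 : ℕ) : ZMod p), ZMod.val_natCast_of_lt (by omega)]

lemma SPr_sq (hp2 : p ≠ 2) (m : ℕ) (hm : p = 2 * m + 1) : (-1 : ℂ) ^ m * (SPr p m * SPr p m) = p := by
  have h1 := CnfF.prod_pair (p := p) m hm (fun k : ZMod p => (ZMod.stdAddChar k : ℂ) -
    ZMod.stdAddChar (-k))
  have h2 : ∏ k ∈ univ.erase (0 : ZMod p), ((ZMod.stdAddChar k : ℂ) - ZMod.stdAddChar (-k)) = p := by
    have h3 : ∀ k ∈ univ.erase (0 : ZMod p), ((ZMod.stdAddChar k : ℂ) - ZMod.stdAddChar (-k)) =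
        (ZMod.stdAddChar k : ℂ) * (1 - ZMod.stdAddChar (-2 * k)) := by
      intro k _
      rw [mul_sub, mul_one, ← AddChar.map_add_eq_mul]
      congr 2
      ring_nf
    rw [Finset.prod_congr rfl h3, Finset.prod_mul_distrib]
    have h4 : ∏ k ∈ univ.erase (0 : ZMod p), (ZMod.stdAddChar k : ℂ) = 1 := by
      rw [CnfF.prod_pair (p := p) m hm (fun k : ZMod p => (ZMod.stdAddChar k : ℂ))]
      apply Finset.prod_eq_one
      intro j _
      rw [← AddChar.map_add_eq_mul, add_neg_cancel, AddChar.map_zero_eq_one]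
    rw [h4, one_mul, ← prod_one_sub]
    have h20 := two_ne hp2
    have hn2 : (-2 : ZMod p) ≠ 0 := neg_ne_zero.mpr h20
    apply Finset.prod_bij (fun k _ => -2 * k)
    · intro a ha
      have ha0 : a ≠ 0 := by simpa using ha
      simp only [Finset.mem_erase, Finset.mem_univ, and_true]
      exact mul_ne_zero hn2 ha0
    · intro a _ b _ hab
      exact mul_left_cancel₀ hn2 hab
    · intro b hb
      have hb0 : b ≠ 0 := by simpa using hb
      refine ⟨(-2 : ZMod p)⁻¹ * b, ?_, by rw [← mul_assoc, mul_inv_cancel₀ hn2, one_mul]⟩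
      simp only [Finset.mem_erase, Finset.mem_univ, and_true]
      exact mul_ne_zero (inv_ne_zero hn2) hb0
    · intro a _; rfl
  rw [h2] at h1
  rw [h1, SPr, ← Finset.prod_mul_distrib]
  have e2 : (-1 : ℂ) ^ m = ∏ _j ∈ range m, (-1 : ℂ) := by
    rw [Finset.prod_const, Finset.card_range]
  rw [e2, ← Finset.prod_mul_distrib]
  refine Finset.prod_congr rfl fun j hj => ?_
  rw [neg_neg]
  ring

lemma ep_pow (hp2 : p ≠ 2) (m : ℕ) (hm : p = 2 * m + 1) : ep p ℂ = (-1) ^ m := by
  rw [ep, chi_apply, quadraticChar_neg_one (by rw [ZMod.ringChar_zmod_n]; exact hp2), ZMod.card,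
    ZMod.χ₄_eq_neg_one_pow (by omega : p % 2 = 1)]
  push_cast
  congr 1
  omega

/-- the Gauss sum is plus or minus the sine product -/
lemma gs_pm (hp2 : p ≠ 2) (m : ℕ) (hm : p = 2 * m + 1) : ∃ e : ℤ, (e = 1 ∨ e = -1) ∧
    gs (ZMod.stdAddChar (N := p)) = e * SPr p m := by
  have h1 := gs_sq hp2 (two_ne_zero : (2 : ℂ) ≠ 0) (ZMod.isPrimitive_stdAddChar p)
  rw [ep_pow hp2 m hm] at h1
  have h2 := SPr_sq hp2 m hm
  have h3 : ((-1 : ℂ) ^ m) * (-1) ^ m = 1 := by
    rw [← mul_pow]; norm_num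
  have h4 : (gs (ZMod.stdAddChar (N := p)) - SPr p m) * (gs (ZMod.stdAddChar (N := p)) + SPr p m)
      = 0 := by
    linear_combination h1 - (-1) ^ m * h2 + (SPr p m * SPr p m) * h3
  rcases mul_eq_zero.mp h4 with h | h
  · exact ⟨1, Or.inl rfl, by push_cast; linear_combination h⟩
  · exact ⟨-1, Or.inr rfl, by push_cast; linear_combination h⟩

/-- lower coefficients of the Gauss sum -/
lemma gauss_coeff_lt (hp2 : p ≠ 2) (m : ℕ) (hm : p = 2 * m + 1) (j : ℕ) (hj : j < m) :
    ∑ k : ZMod p, ((quadraticChar (ZMod p) k : ℤ) : ZMod p) * ((k.val.choose j : ℕ) : ZMod p) = 0 := by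
  have hjf : (j.factorial : ZMod p) ≠ 0 := by
    rw [Ne, ZMod.natCast_eq_zero_iff, hpf.out.dvd_factorial]
    omega
  apply mul_left_cancel₀ hjf
  rw [mul_zero]
  set Q : (ZMod p)[X] := X ^ m * descPochhammer (ZMod p) j with hQ
  have hdeg : Q.natDegree = m + j := by
    rw [hQ, (monic_X_pow m).natDegree_mul (monic_descPochhammer (ZMod p) j), natDegree_X_pow,
      descPochhammer_natDegree]
  have h1 := sum_eval Q (by omega)
  rw [coeff_eq_zero_of_natDegree_lt (by omega), neg_zero] at h1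
  rw [← h1, Finset.mul_sum]
  refine Finset.sum_congr rfl fun k _ => ?_
  rw [chi_pow hp2 m hm, hQ, eval_mul, eval_pow, eval_X]
  have e : (descPochhammer (ZMod p) j).eval k = ((k.val.descFactorial j : ℕ) : ZMod p) := by
    conv_lhs => rw [← ZMod.natCast_zmod_val k]
    exact descPochhammer_eval_eq_descFactorial (ZMod p) k.val j
  rw [e, Nat.descFactorial_eq_factorial_mul_choose]
  push_cast
  ring

lemma sign_mod (hp2 : p ≠ 2) (m : ℕ) (hm : p = 2 * m + 1) (e : ℤ)
    (h : gs (ZMod.stdAddChar (N := p)) = e * SPr p m) :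
    (-1 : ZMod p) = e * (2 ^ m * ((m.factorial : ZMod p) * (m.factorial : ZMod p))) := by
  have hpos : 0 < p := hpf.out.pos
  have hm0 : 0 < m := by have := hpf.out.one_lt; omega
  set ζ : ℂ := (ZMod.stdAddChar (1 : ZMod p) : ℂ) with hζ
  have hζp : IsPrimitiveRoot ζ p := zprim
  set N0 : ℕ := ∑ j ∈ range m, (j + 1) with hN0
  set F : ℤ[X] := X ^ N0 * (∑ k : ZMod p, C (quadraticChar (ZMod p) k : ℤ) * X ^ k.val) -
    C e * ∏ j ∈ range m, (X ^ (2 * (j + 1)) - 1) with hF
  have hroot : aeval ζ F = 0 := by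
    rw [hF]
    simp only [map_sub, map_mul, map_sum, map_pow, aeval_X, map_prod, map_one,
      eq_intCast, map_intCast]
    have e2 : ∑ k : ZMod p, ((quadraticChar (ZMod p) k : ℤ) : ℂ) * ζ ^ k.val =
        gs (ZMod.stdAddChar (N := p)) := by
      rw [gs, gaussSum]
      exact Finset.sum_congr rfl fun k _ => by rw [chi_apply, std_val' k]
    have e3 : ∏ j ∈ range m, (ζ ^ (2 * (j + 1)) - 1) = ζ ^ N0 * SPr p m := by
      rw [hN0, ← Finset.prod_pow_eq_pow_sum, SPr, ← Finset.prod_mul_distrib]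
      refine Finset.prod_congr rfl fun j _ => ?_
      have e4 : (ZMod.stdAddChar ((j + 1 : ℕ) : ZMod p) : ℂ) = ζ ^ (j + 1) := by
        rw [hζ, ← AddChar.map_nsmul_eq_pow, nsmul_eq_mul, mul_one]
      have hz0 : ζ ^ (j + 1) ≠ 0 := pow_ne_zero _ (hζp.ne_zero hpos.ne')
      rw [AddChar.map_neg_eq_inv, e4, mul_sub, mul_inv_cancel₀ hz0]
      ring
    rw [e2, e3, h]
    ring
  have hdvd : cyclotomic p ℤ ∣ F := by
    rw [cyclotomic_eq_minpoly hζp hpos]
    exact minpoly.isIntegrallyClosed_dvd (hζp.isIntegral hpos) hroot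
  obtain ⟨G, hG⟩ := hdvd
  have hG2 : ((F.map (Int.castRingHom (ZMod p))).comp (X + 1)).coeff m =
      (((cyclotomic p ℤ * G).map (Int.castRingHom (ZMod p))).comp (X + 1)).coeff m := by rw [hG]
  have hR : (((cyclotomic p ℤ * G).map (Int.castRingHom (ZMod p))).comp (X + 1)).coeff m = 0 := by
    rw [Polynomial.map_mul, map_cyclotomic, mul_comp]
    have e3 : cyclotomic p (ZMod p) = (X - 1) ^ (2 * m) := by
      have := cyclotomic_mul_prime_pow_eq (ZMod p) (p := p) (m := 1) (k := 1)
        (by rw [Nat.dvd_one]; exact hpf.out.one_lt.ne') one_pos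
      have e : p ^ 1 - p ^ (1 - 1) = 2 * m := by
        rw [pow_one, Nat.sub_self, pow_zero]; omega
      rw [e, pow_one, mul_one, cyclotomic_one] at this
      exact this
    rw [e3, pow_comp, sub_comp, X_comp, one_comp, add_sub_cancel_right, coeff_X_pow_mul',
      if_neg (show ¬ 2 * m ≤ m by omega)]
  have hL : ((F.map (Int.castRingHom (ZMod p))).comp (X + 1)).coeff m =
      (∑ k : ZMod p, ((quadraticChar (ZMod p) k : ℤ) : ZMod p) * ((k.val.choose m : ℕ) : ZMod p)) -
        (e : ZMod p) * (2 ^ m * (m.factorial : ZMod p)) := by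
    rw [hF]
    simp only [Polynomial.map_sub, Polynomial.map_mul, Polynomial.map_prod, map_C,
      Polynomial.map_sum, Polynomial.map_pow, map_X, sub_comp, mul_comp, C_comp, Polynomial.prod_comp,
      Polynomial.map_one, one_comp, pow_comp, X_comp, Polynomial.sum_comp]
    have hcast : ∀ z : ℤ, (Int.castRingHom (ZMod p)) z = (z : ZMod p) := fun z => rfl
    simp only [hcast]
    rw [coeff_sub]
    congr 1
    · -- the Gauss part
      have hdvd2 : (X : (ZMod p)[X]) ^ m ∣ ∑ k : ZMod p, C ((quadraticChar (ZMod p) k : ℤ) : ZMod p) *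
          (X + 1) ^ k.val := by
        rw [X_pow_dvd_iff]
        intro d hd
        rw [finsetSum_coeff]
        rw [← gauss_coeff_lt hp2 m hm d hd]
        refine Finset.sum_congr rfl fun k _ => ?_
        rw [coeff_C_mul, coeff_X_add_one_pow]
      obtain ⟨Q, hQ⟩ := hdvd2
      have hQ0 : Q.coeff 0 = ∑ k : ZMod p, ((quadraticChar (ZMod p) k : ℤ) : ZMod p) *
          ((k.val.choose m : ℕ) : ZMod p) := by
        have h5 := congrArg (fun P : (ZMod p)[X] => P.coeff m) hQ
        rw [coeff_X_pow_mul', if_pos (le_refl m), Nat.sub_self, finsetSum_coeff] at h5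
        rw [← h5]
        refine Finset.sum_congr rfl fun k _ => ?_
        rw [coeff_C_mul, coeff_X_add_one_pow]
      have h6 : ((X + 1 : (ZMod p)[X]) ^ N0 * (X ^ m * Q)).coeff m = Q.coeff 0 := by
        rw [show (X + 1 : (ZMod p)[X]) ^ N0 * (X ^ m * Q) = X ^ m * ((X + 1) ^ N0 * Q) by ring,
          coeff_X_pow_mul', if_pos (le_refl m), Nat.sub_self, mul_coeff_zero, coeff_X_add_one_pow]
        simp
      rw [← hQ0, ← h6, ← hQ]
    · rw [coeff_C_mul]
      congr 1
      have e7 : ∀ j : ℕ, ((X + 1 : (ZMod p)[X]) ^ (2 * (j + 1)) - 1) =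
          X * ∑ i ∈ range (2 * (j + 1)), (X + 1) ^ i := by
        intro j
        have := geom_sum_mul (X + 1 : (ZMod p)[X]) (2 * (j + 1))
        rw [add_sub_cancel_right] at this
        rw [← this]; ring
      rw [Finset.prod_congr rfl (fun j _ => e7 j), Finset.prod_mul_distrib, Finset.prod_const,
        Finset.card_range, coeff_X_pow_mul', if_pos (le_refl m), Nat.sub_self, coeff_zero_eq_eval_zero,
        eval_prod]
      have e8 : ∀ j : ℕ, (∑ i ∈ range (2 * (j + 1)), (X + 1 : (ZMod p)[X]) ^ i).eval 0 =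
          2 * ((j + 1 : ℕ) : ZMod p) := by
        intro j
        rw [eval_finsetSum]
        simp
      rw [Finset.prod_congr rfl (fun j _ => e8 j), Finset.prod_mul_distrib, Finset.prod_const,
        Finset.card_range, ← Nat.cast_prod, Finset.prod_range_add_one_eq_factorial]
  rw [hL, hR] at hG2
  have h9 := gauss_coeff hp2 m hm
  have h10 : ∑ k : ZMod p, ((quadraticChar (ZMod p) k : ℤ) : ZMod p) * ((k.val.choose m : ℕ) : ZMod p)
      = (e : ZMod p) * (2 ^ m * (m.factorial : ZMod p)) := by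
    linear_combination hG2
  rw [h10] at h9
  linear_combination -h9

/-- the Gauss sum -/
theorem gs_val (hp2 : p ≠ 2) (m : ℕ) (hm : p = 2 * m + 1) :
    gs (ZMod.stdAddChar (N := p)) =
      ((quadraticChar (ZMod p) 2 : ℤ) : ℂ) * (-Complex.I) ^ m * Real.sqrt p := by
  obtain ⟨e, he, h⟩ := gs_pm hp2 m hm
  have h1 := sign_mod hp2 m hm e h
  have h2 := fact_sq (p := p) m hm
  have h3 := chi_pow hp2 m hm 2
  have hp3 : 2 < p := by
    have := hpf.out.two_le
    omega
  have hc : quadraticChar (ZMod p) 2 = 1 ∨ quadraticChar (ZMod p) 2 = -1 :=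
    quadraticChar_dichotomy (two_ne hp2)
  set c : ℤ := quadraticChar (ZMod p) 2 with hcd
  have hm1 : ((-1 : ZMod p) ^ m) * (-1) ^ m = 1 := by rw [← mul_pow]; norm_num
  have hcc : (c : ZMod p) * c = 1 := by
    rcases hc with h | h <;> rw [h] <;> simp
  have h4 : ((e - c * (-1) ^ m : ℤ) : ZMod p) = 0 := by
    push_cast
    rw [← h3] at h1
    have h5 : ((m.factorial : ZMod p) * (m.factorial : ZMod p)) = -(-1) ^ m := by
      linear_combination (-1) ^ m * h2 - ((m.factorial : ZMod p) * (m.factorial : ZMod p)) * hm1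
    rw [h5] at h1
    -- h1 : -1 = e * (c * -(-1)^m)
    linear_combination ((c : ZMod p) * (-1) ^ m) * h1 + (-(e : ZMod p)) * hcc +
      (-(e : ZMod p) * c * c) * (hm1)
  have h6 : e = c * (-1) ^ m := by
    have h7 : (p : ℤ) ∣ e - c * (-1) ^ m := (ZMod.intCast_zmod_eq_zero_iff_dvd _ p).mp h4
    have hp3' : (2 : ℤ) < p := by exact_mod_cast hp3
    have key : ∀ x : ℤ, (p : ℤ) ∣ x → x = 0 ∨ x = 2 ∨ x = -2 → x = 0 := by
      intro x hx h
      rcases h with h | h | h
      · exact h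
      · rw [h] at hx
        have := Int.le_of_dvd (by norm_num) hx
        omega
      · rw [h] at hx
        have := Int.le_of_dvd (by norm_num) hx.neg_right
        omega
    have h8 := key _ h7 (by
      rcases he with h | h <;> rcases hc with h' | h' <;>
        rcases neg_one_pow_eq_or ℤ m with h'' | h'' <;> rw [h, h', h''] <;> norm_num)
    linarith
  obtain ⟨r, hr, hP⟩ := SPr_val m hm
  have hsq := SPr_sq hp2 m hm
  rw [hP] at hsq
  have hI : (Complex.I ^ m) * Complex.I ^ m = (-1) ^ m := by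
    rw [← mul_pow, Complex.I_mul_I]
  have hmc : ((-1 : ℂ) ^ m) * (-1) ^ m = 1 := by rw [← mul_pow]; norm_num
  have h7 : (r : ℂ) * r = p := by
    linear_combination hsq - (-1) ^ m * (r : ℂ) * r * hI - (r : ℂ) * r * hmc
  have h8 : r * r = p := by exact_mod_cast h7
  have h9 : r = Real.sqrt p := by rw [← h8, Real.sqrt_mul_self hr.le]
  rw [h, hP, h6, h9, neg_pow Complex.I]
  push_cast
  ring

end Pool.Agent.V11306.Cao
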