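import Mathlib
import Pool.Agent.V11306.Cao2

/-!
# Gauss sums of Jacobi symbols to a squarefree odd modulus
-/

set_option autoImplicit false

namespace Pool.Agent.V11306.Cao

open Finset

open Pool.Agent.Helper184.Chapman (chi chi_apply chi_sq)
open Pool.Agent.V11306.Toep

/-- the Jacobi symbol on `ZMod n` -/
def J (n : ℕ) (u : ZMod n) : ℤ := jacobiSym (u.val : ℤ) n

lemma J_nat (n a : ℕ) [NeZero n] : J n (a : ZMod n) = jacobiSym a n := by
  rw [J, ZMod.val_natCast]
  apply jacobiSym.mod_left'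
  push_cast
  exact Int.emod_emod_of_dvd _ dvd_rfl

lemma J_mul (n : ℕ) [NeZero n] (u v : ZMod n) : J n (u * v) = J n u * J n v := by
  conv_lhs => rw [← ZMod.natCast_zmod_val u, ← ZMod.natCast_zmod_val v, ← Nat.cast_mul]
  rw [J_nat]
  push_cast
  rw [jacobiSym.mul_left]
  rfl

lemma J_one (n : ℕ) [NeZero n] : J n 1 = 1 := by
  have := J_nat n 1
  rw [Nat.cast_one, Nat.cast_one, jacobiSym.one_left] at this
  exact this

lemma J_nonunit (n : ℕ) [NeZero n] (u : ZMod n) (h : ¬ IsUnit u) : J n u = 0 := by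
  rw [J, jacobiSym.eq_zero_iff_not_coprime, Int.gcd_natCast_natCast]
  intro hc
  apply h
  rw [← ZMod.natCast_zmod_val u]
  exact (ZMod.isUnit_iff_coprime _ _).mpr hc

/-- the Jacobi symbol as a Dirichlet character -/
noncomputable def jchi (n : ℕ) [NeZero n] : DirichletCharacter ℂ n where
  toFun u := ((J n u : ℤ) : ℂ)
  map_one' := by rw [J_one]; simp
  map_mul' u v := by rw [J_mul]; push_cast; rfl
  map_nonunit' u h := by rw [J_nonunit n u h]; simp

lemma jchi_apply (n : ℕ) [NeZero n] (u : ZMod n) : jchi n u = ((J n u : ℤ) : ℂ) := rfl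

lemma std_exp' (n a : ℕ) [NeZero n] : (ZMod.stdAddChar (a : ZMod n) : ℂ) =
    Complex.exp (2 * Real.pi * a / n * Complex.I) := by
  have h := ZMod.stdAddChar_coe (N := n) (a : ℤ)
  have h2 : ((a : ℤ) : ZMod n) = (a : ZMod n) := by push_cast; rfl
  rw [h2] at h
  rw [h]
  congr 1
  push_cast
  ring

/-- the Gauss sums -/
noncomputable def G (n : ℕ) [NeZero n] (k : ℕ) : ℂ :=
  ∑ u : ZMod n, ((J n u : ℤ) : ℂ) * ZMod.stdAddChar ((k : ZMod n) * u)

/-- the sign -/
noncomputable def eps (n : ℕ) : ℂ := if n % 4 = 1 then 1 else Complex.I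

lemma G_prime (p : ℕ) [hpf : Fact p.Prime] (hp2 : p ≠ 2) (k : ℕ) :
    G p k = ((jacobiSym k p : ℤ) : ℂ) * (eps p * Real.sqrt p) := by
  have hJ : ∀ u : ZMod p, ((J p u : ℤ) : ℂ) = chi p ℂ u := by
    intro u
    rw [J, ← jacobiSym.legendreSym.to_jacobiSym, legendreSym, chi_apply]
    congr 2
    simp
  have hodd : p % 2 = 1 := by
    rcases hpf.out.eq_two_or_odd with h | h
    · exact absurd h hp2
    · exact h
  obtain ⟨m, hm⟩ : ∃ m, p = 2 * m + 1 := ⟨p / 2, by omega⟩
  rw [G, Finset.sum_congr rfl (fun u _ => by rw [hJ u])]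
  rw [gauss_shift' hp2 two_ne_zero, ← hJ, J_nat]
  congr 1
  have h1 := gs_val hp2 m hm
  rw [gs] at h1
  rw [h1]
  congr 1
  have hI4 : (-Complex.I) ^ 4 = 1 := by
    rw [neg_pow]; norm_num
  have hq : quadraticChar (ZMod p) 2 = if m % 4 = 0 ∨ m % 4 = 3 then 1 else -1 := by
    rw [quadraticChar_two (by rw [ZMod.ringChar_zmod_n]; exact hp2), ZMod.card,
      ZMod.χ₈_nat_eq_if_mod_eight]
    split_ifs <;> first | rfl | omega
  obtain ⟨t, r, ht, hr⟩ : ∃ t r, m = 4 * t + r ∧ r < 4 := ⟨m / 4, m % 4, by omega, by omega⟩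
  have hmr : m % 4 = r := by omega
  rw [hq, hmr, ht, pow_add, pow_mul, hI4, one_pow, one_mul, eps]
  have h3 : (-Complex.I) ^ 3 = Complex.I := by
    rw [neg_pow, Complex.I_pow_three]; ring
  have h2 : (-Complex.I) ^ 2 = -1 := by
    rw [neg_pow, Complex.I_sq]; ring
  interval_cases r
  · rw [if_pos (by norm_num), if_pos (by omega)]; simp
  · rw [if_neg (by norm_num), if_neg (by omega)]; simp
  · rw [if_neg (by norm_num), if_pos (by omega), h2]; simp
  · rw [if_pos (by norm_num), if_neg (by omega), h3]; simp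

/-- the Chinese remainder map -/
def crt (a b : ℕ) : ZMod a × ZMod b → ZMod (a * b) :=
  fun z => ((b * z.1.val + a * z.2.val : ℕ) : ZMod (a * b))

lemma crt_bij (a b : ℕ) [NeZero a] [NeZero b] (h : Nat.Coprime a b) :
    Function.Bijective (crt a b) := by
  have : NeZero (a * b) := ⟨mul_ne_zero (NeZero.ne a) (NeZero.ne b)⟩
  rw [Fintype.bijective_iff_injective_and_card]
  constructor
  · intro z w hzw
    unfold crt at hzw
    rw [ZMod.natCast_eq_natCast_iff] at hzw
    have h1 : b * z.1.val ≡ b * w.1.val [MOD a] := by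
      have := hzw.of_mul_right b
      have e1 : b * z.1.val + a * z.2.val ≡ b * z.1.val [MOD a] := by
        simp [Nat.ModEq]
      have e2 : b * w.1.val + a * w.2.val ≡ b * w.1.val [MOD a] := by
        simp [Nat.ModEq]
      exact e1.symm.trans (this.trans e2)
    have h2 : a * z.2.val ≡ a * w.2.val [MOD b] := by
      have := hzw.of_mul_left a
      have e1 : b * z.1.val + a * z.2.val ≡ a * z.2.val [MOD b] := by
        simp [Nat.ModEq]
      have e2 : b * w.1.val + a * w.2.val ≡ a * w.2.val [MOD b] := by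
        simp [Nat.ModEq]
      exact e1.symm.trans (this.trans e2)
    have h3 : z.1.val ≡ w.1.val [MOD a] := Nat.ModEq.cancel_left_of_coprime h h1
    have h4 : z.2.val ≡ w.2.val [MOD b] := Nat.ModEq.cancel_left_of_coprime h.symm h2
    apply Prod.ext
    · rw [← ZMod.natCast_zmod_val z.1, ← ZMod.natCast_zmod_val w.1]
      exact (ZMod.natCast_eq_natCast_iff _ _ _).mpr h3
    · rw [← ZMod.natCast_zmod_val z.2, ← ZMod.natCast_zmod_val w.2]
      exact (ZMod.natCast_eq_natCast_iff _ _ _).mpr h4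
  · rw [Fintype.card_prod, ZMod.card, ZMod.card, ZMod.card]

lemma G_mul (a b : ℕ) [NeZero a] [NeZero b] [NeZero (a * b)] (h : Nat.Coprime a b) (k : ℕ) :
    G (a * b) k = ((jacobiSym b a * jacobiSym a b : ℤ) : ℂ) * (G a k * G b k) := by
  have ha0 : (a : ℂ) ≠ 0 := by exact_mod_cast NeZero.ne a
  have hb0 : (b : ℂ) ≠ 0 := by exact_mod_cast NeZero.ne b
  rw [G, ← (crt_bij a b h).sum_comp, Fintype.sum_prod_type, G, G, Finset.sum_mul_sum,
    Finset.mul_sum]
  refine Finset.sum_congr rfl fun x _ => ?_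
  rw [Finset.mul_sum]
  refine Finset.sum_congr rfl fun y _ => ?_
  have e1 : J (a * b) (crt a b (x, y)) = (jacobiSym b a * jacobiSym a b) * (J a x * J b y) := by
    rw [crt, J_nat, jacobiSym.mul_right' _ (NeZero.ne a) (NeZero.ne b)]
    have e2 : jacobiSym ((b * x.val + a * y.val : ℕ) : ℤ) a = jacobiSym b a * J a x := by
      rw [J, ← jacobiSym.mul_left]
      apply jacobiSym.mod_left'
      push_cast
      simp
    have e3 : jacobiSym ((b * x.val + a * y.val : ℕ) : ℤ) b = jacobiSym a b * J b y := by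
      rw [J, ← jacobiSym.mul_left]
      apply jacobiSym.mod_left'
      push_cast
      simp
    rw [e2, e3]
    ring
  have e4 : (ZMod.stdAddChar ((k : ZMod (a * b)) * crt a b (x, y)) : ℂ) =
      ZMod.stdAddChar ((k : ZMod a) * x) * ZMod.stdAddChar ((k : ZMod b) * y) := by
    have e5 : (k : ZMod a) * x = ((k * x.val : ℕ) : ZMod a) := by
      push_cast; rw [ZMod.natCast_zmod_val]
    have e6 : (k : ZMod b) * y = ((k * y.val : ℕ) : ZMod b) := by
      push_cast; rw [ZMod.natCast_zmod_val]
    rw [crt, ← Nat.cast_mul, e5, e6, std_exp', std_exp', std_exp', ← Complex.exp_add]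
    congr 1
    push_cast
    field_simp
  rw [e1, e4]
  push_cast
  ring

lemma eps_mul (a b : ℕ) (ha : a % 2 = 1) (hb : b % 2 = 1) (h : Nat.Coprime a b) :
    ((jacobiSym b a * jacobiSym a b : ℤ) : ℂ) * (eps a * eps b) = eps (a * b) := by
  have hr := jacobiSym.quadratic_reciprocity_if ha hb
  have hsq : jacobiSym b a ^ 2 = 1 := jacobiSym.sq_one (by rw [Int.gcd_natCast_natCast]; exact h.symm)
  have ha4 : a % 4 = 1 ∨ a % 4 = 3 := by omega
  have hb4 : b % 4 = 1 ∨ b % 4 = 3 := by omega
  have hmod : (a * b) % 4 = (a % 4) * (b % 4) % 4 := Nat.mul_mod a b 4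
  rw [← hr, eps, eps, eps, hmod]
  have hsq' : ((jacobiSym b a : ℤ) : ℂ) * ((jacobiSym b a : ℤ) : ℂ) = 1 := by
    rw [← Int.cast_mul, ← sq, hsq, Int.cast_one]
  rcases ha4 with h1 | h1 <;> rcases hb4 with h2 | h2 <;> rw [h1, h2] <;> norm_num
  all_goals linear_combination hsq'

/-- the Gauss sums for squarefree odd moduli -/
theorem G_val (n : ℕ) : ∀ [NeZero n], n % 2 = 1 → Squarefree n → ∀ k : ℕ,
    G n k = ((jacobiSym k n : ℤ) : ℂ) * (eps n * Real.sqrt n) := by
  induction n using Nat.strong_induction_on with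
  | _ n ih =>
    intro hn0 hodd hsf k
    rcases Nat.lt_or_ge 1 n with h1 | h1
    · have hpr := Nat.minFac_prime (by omega : n ≠ 1)
      obtain ⟨m, hm⟩ := n.minFac_dvd
      set p := n.minFac with hp
      have : Fact p.Prime := ⟨hpr⟩
      have hp2 : p ≠ 2 := by
        intro h2
        rw [h2] at hm
        omega
      have hpo : p % 2 = 1 := by
        rcases hpr.eq_two_or_odd with h | h
        · exact absurd h hp2
        · exact h
      have hm0 : m ≠ 0 := by
        rintro rfl
        omega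
      have : NeZero m := ⟨hm0⟩
      have hcop : Nat.Coprime p m := by
        rw [hm] at hsf
        exact (Nat.squarefree_mul_iff.mp hsf).1
      have hmsf : Squarefree m := by
        rw [hm] at hsf
        exact (Nat.squarefree_mul_iff.mp hsf).2.2
      have hmo : m % 2 = 1 := by
        rcases Nat.even_or_odd' m with ⟨c, h | h⟩
        · rw [h] at hm
          exfalso
          have : n = 2 * (p * c) := by rw [hm]; ring
          omega
        · omega
      have hlt : m < n := by
        rw [hm]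
        have := hpr.one_lt
        have hmp : 0 < m := Nat.pos_of_ne_zero hm0
        nlinarith
      have hne : NeZero (p * m) := ⟨mul_ne_zero hpr.ne_zero hm0⟩
      have key : G (p * m) k = ((jacobiSym k (p * m) : ℤ) : ℂ) * (eps (p * m) * Real.sqrt (p * m : ℕ)) := by
        rw [G_mul p m hcop, G_prime p hp2, ih m hlt hmo hmsf, ← eps_mul p m hpo hmo hcop,
          jacobiSym.mul_right' _ hpr.ne_zero hm0]
        push_cast
        rw [Real.sqrt_mul (by positivity)]
        push_cast
        ring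
      have : ∀ (N : ℕ) (h0 : NeZero N), N = n → G N k = ((jacobiSym k N : ℤ) : ℂ) *
          (eps N * Real.sqrt (N : ℕ)) → G n k = ((jacobiSym k n : ℤ) : ℂ) * (eps n * Real.sqrt n) := by
        intro N h0 hN h
        subst hN
        exact h
      exact this (p * m) hne hm.symm key
    · have hn : n = 1 := by omega
      subst hn
      rw [G, eps]
      have : ∀ u : ZMod 1, ((J 1 u : ℤ) : ℂ) * ZMod.stdAddChar ((k : ZMod 1) * u) = 1 := by
        intro u
        have hu : ((k : ZMod 1) * u) = 0 := Subsingleton.elim _ _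
        rw [hu, J, jacobiSym.one_right, AddChar.map_zero_eq_one]
        simp
      rw [Finset.sum_congr rfl (fun u _ => this u)]
      simp

end Pool.Agent.V11306.Cao
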