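import Pool.Agent.V11306.CnfB
import Pool.Agent.H316R2.C1

/-! The value at `1` of the `L`-function of the quadratic character modulo a prime. -/

set_option autoImplicit false

open Finset Filter Topology DirichletCharacter

namespace Pool.Agent.V11306.CnfC

open Pool.Agent.Helper184.Chapman (chi chi_apply chi_sq chi_quad)
open Pool.Agent.V11306.Toep Pool.Agent.V11306.CnfA Pool.Agent.V11306.CnfB

lemma std_val {f : ℕ} [NeZero f] (u : ZMod f) :
    (ZMod.stdAddChar u : ℂ) = Complex.exp (2 * Real.pi * Complex.I * (u.val : ℂ) / f) := by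
  have h := ZMod.stdAddChar_coe (N := f) (u.val : ℤ)
  have h2 : (((u.val : ℤ)) : ZMod f) = u := by simp
  rw [h2] at h
  rw [h]
  push_cast
  rfl

lemma std_norm {f : ℕ} [NeZero f] (u : ZMod f) : ‖(ZMod.stdAddChar u : ℂ)‖ = 1 := by
  rw [ZMod.stdAddChar_apply]
  exact Circle.norm_coe _

lemma std_mul_nat {f : ℕ} [NeZero f] (u : ZMod f) (n : ℕ) :
    (ZMod.stdAddChar ((n : ZMod f) * u) : ℂ) = (ZMod.stdAddChar u) ^ n := by
  rw [← nsmul_eq_mul, AddChar.map_nsmul_eq_pow]

lemma chi_gauss {f : ℕ} [NeZero f] {χ : DirichletCharacter ℂ f} (hχ : χ.IsPrimitive) (n : ℕ) :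
    χ (n : ZMod f) * gaussSum χ⁻¹ (ZMod.stdAddChar (N := f)) =
      ∑ u : ZMod f, χ⁻¹ u * (ZMod.stdAddChar u : ℂ) ^ n := by
  have hinv : (χ⁻¹).IsPrimitive := by
    rw [DirichletCharacter.isPrimitive_def] at hχ ⊢
    rw [DirichletCharacter.conductor_inv]
    exact hχ
  have h := gaussSum_mulShift_of_isPrimitive (e := ZMod.stdAddChar (N := f)) hinv (n : ZMod f)
  rw [inv_inv] at h
  rw [← h]
  unfold gaussSum
  refine sum_congr rfl fun u _ => ?_
  rw [AddChar.mulShift_apply, std_mul_nat]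

lemma series {f : ℕ} [NeZero f] {χ : DirichletCharacter ℂ f} (hχ : χ.IsPrimitive) {x : ℝ}
    (hx0 : 0 < x) (hx1 : x < 1) :
    (∑' n : ℕ, (χ (n : ZMod f) * (((1:ℝ) / n : ℝ) : ℂ)) * (x : ℂ) ^ n) *
        gaussSum χ⁻¹ (ZMod.stdAddChar (N := f)) =
      -∑ u : ZMod f, χ⁻¹ u * Complex.log (1 - (x : ℂ) * ZMod.stdAddChar u) := by
  have h1 : ∀ u : ZMod f, HasSum (fun n : ℕ => χ⁻¹ u * (((x : ℂ) * ZMod.stdAddChar u) ^ n / n))
      (χ⁻¹ u * (-Complex.log (1 - (x : ℂ) * ZMod.stdAddChar u))) := by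
    intro u
    apply HasSum.mul_left
    apply Complex.hasSum_taylorSeries_neg_log
    rw [norm_mul, std_norm, mul_one, Complex.norm_real, Real.norm_eq_abs, abs_of_pos hx0]
    exact hx1
  have h2 := hasSum_sum (s := (univ : Finset (ZMod f))) fun u _ => h1 u
  rw [← tsum_mul_right]
  rw [show -∑ u : ZMod f, χ⁻¹ u * Complex.log (1 - (x : ℂ) * ZMod.stdAddChar u) =
    ∑ u : ZMod f, χ⁻¹ u * (-Complex.log (1 - (x : ℂ) * ZMod.stdAddChar u)) by
      rw [← sum_neg_distrib]; refine sum_congr rfl fun u _ => by ring]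
  rw [← h2.tsum_eq]
  refine tsum_congr fun n => ?_
  have h3 := chi_gauss hχ n
  calc _ = (χ (n : ZMod f) * gaussSum χ⁻¹ (ZMod.stdAddChar (N := f))) *
        ((((1:ℝ) / n : ℝ) : ℂ) * (x : ℂ) ^ n) := by ring
    _ = _ := by
      rw [h3, sum_mul]
      refine sum_congr rfl fun u _ => ?_
      push_cast
      rw [mul_pow]
      ring

lemma std_ne_one {f : ℕ} [NeZero f] {u : ZMod f} (hu : u ≠ 0) : (ZMod.stdAddChar u : ℂ) ≠ 1 := by
  intro h
  apply hu
  apply ZMod.injective_stdAddChar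
  rw [h, AddChar.map_zero_eq_one]

lemma slit {z : ℂ} (hz : ‖z‖ = 1) (h1 : z ≠ 1) : 1 - z ∈ Complex.slitPlane := by
  left
  have h2 : z.re ≤ 1 := by rw [← hz]; exact Complex.re_le_norm z
  rcases h2.lt_or_eq with h3 | h3
  · simp; linarith
  · exfalso
    apply h1
    have h4 : ‖z‖ ^ 2 = 1 := by rw [hz]; norm_num
    rw [← Complex.normSq_eq_norm_sq, Complex.normSq_apply, h3] at h4
    apply Complex.ext
    · simpa using h3
    · simp
      nlinarith

lemma chi_zero {f : ℕ} [NeZero f] {χ : DirichletCharacter ℂ f} (h : χ ≠ 1) : χ (0 : ZMod f) = 0 := by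
  by_contra h0
  have hu : IsUnit (0 : ZMod f) := by
    by_contra hn
    exact h0 (χ.map_nonunit hn)
  rw [isUnit_zero_iff] at hu
  have : Subsingleton (ZMod f) := subsingleton_of_zero_eq_one hu
  apply h
  ext a
  have : (a : ZMod f) = 1 := Subsingleton.elim _ _
  rw [this, map_one, map_one]

lemma limit {f : ℕ} [NeZero f] {χ : DirichletCharacter ℂ f} (hχ : χ.IsPrimitive) (hne : χ ≠ 1) :
    LFunction χ 1 * gaussSum χ⁻¹ (ZMod.stdAddChar (N := f)) =
      -∑ u : ZMod f, χ⁻¹ u * Complex.log (1 - ZMod.stdAddChar u) := by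
  have hpart : Tendsto (fun n : ℕ => ∑ i ∈ range n, χ (i : ZMod f) * (((1:ℝ) / i : ℝ) : ℂ)) atTop
      (𝓝 (LFunction χ 1)) := by
    rw [← tendsto_add_atTop_iff_nat 1]
    rw [tendsto_iff_norm_sub_tendsto_zero]
    have hb : Tendsto (fun N : ℕ => 2 * (f : ℝ) / N) atTop (𝓝 0) :=
      tendsto_const_div_atTop_nhds_zero_nat _
    refine squeeze_zero' (Eventually.of_forall fun _ => norm_nonneg _) ?_ hb
    filter_upwards [eventually_ge_atTop 1] with N hN
    have h := Pool.Agent.H316R2.tail_one χ hne N hN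
    refine le_trans (le_of_eq ?_) h
    congr 2
    have : range (N + 1) = insert 0 (Icc 1 N) := by
      ext a; simp only [mem_range, mem_insert, mem_Icc]; omega
    rw [this, sum_insert (by simp)]
    simp
  have hA := Complex.tendsto_tsum_powerSeries_nhdsWithin_lt hpart
  rw [tendsto_map'_iff] at hA
  have hL : Tendsto (fun x : ℝ => (∑' n : ℕ, (χ (n : ZMod f) * (((1:ℝ) / n : ℝ) : ℂ)) * (x : ℂ) ^ n) *
      gaussSum χ⁻¹ (ZMod.stdAddChar (N := f))) (𝓝[<] 1)
      (𝓝 (LFunction χ 1 * gaussSum χ⁻¹ (ZMod.stdAddChar (N := f)))) := hA.mul_const _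
  have hR : Tendsto (fun x : ℝ => -∑ u : ZMod f, χ⁻¹ u *
      Complex.log (1 - (x : ℂ) * ZMod.stdAddChar u)) (𝓝[<] 1)
      (𝓝 (-∑ u : ZMod f, χ⁻¹ u * Complex.log (1 - ZMod.stdAddChar u))) := by
    apply Tendsto.neg
    apply tendsto_finsetSum
    intro u _
    by_cases hu : u = 0
    · subst hu
      have h0 : (χ⁻¹ : DirichletCharacter ℂ f) (0 : ZMod f) = 0 :=
        chi_zero (by simpa using hne)
      simp only [h0, zero_mul]
      exact tendsto_const_nhds
    · apply Tendsto.const_mul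
      have hs := slit (std_norm u) (std_ne_one hu)
      have hc : ContinuousAt (fun x : ℝ => Complex.log (1 - (x : ℂ) * ZMod.stdAddChar u)) 1 := by
        apply ContinuousAt.clog
        · fun_prop
        · simpa using hs
      have := hc.tendsto.mono_left (nhdsWithin_le_nhds (s := Set.Iio 1))
      simpa using this
  refine tendsto_nhds_unique hL (hR.congr' ?_)
  have h01 : ∀ᶠ x : ℝ in 𝓝[<] 1, x ∈ Set.Ioo (0:ℝ) 1 :=
    Ioo_mem_nhdsLT (by norm_num)
  filter_upwards [h01] with x hx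
  exact (series hχ hx.1 hx.2).symm

variable {p : ℕ} [hp : Fact p.Prime]

lemma qd_prim (hp2 : p ≠ 2) : (qd p).IsPrimitive := by
  rw [DirichletCharacter.isPrimitive_def]
  have h2 := (qd p).conductor_dvd_level
  rcases (Nat.dvd_prime hp.out).mp h2 with h | h
  · exact absurd ((qd p).eq_one_iff_conductor_eq_one.mpr h) (qd_ne hp2)
  · exact h

lemma qd_inv : (qd p)⁻¹ = qd p := by
  ext a
  rw [MulChar.inv_apply_eq_inv']
  have h := chi_sq (K := ℂ) (k := (a : ZMod p)) a.ne_zero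
  exact (eq_inv_of_mul_eq_one_left h).symm

/-- `log |1 - exp (2 π i u / p)|` -/
noncomputable def lg (u : ZMod p) : ℝ := Real.log ‖1 - (ZMod.stdAddChar u : ℂ)‖

/-- the logarithmic sum -/
theorem L_one (hp2 : p ≠ 2) : LFunction (qd p) 1 * gs (ZMod.stdAddChar (N := p)) =
    -∑ u : ZMod p, chi p ℂ u * Complex.log (1 - ZMod.stdAddChar u) := by
  have h := limit (qd_prim hp2) (qd_ne hp2)
  rw [qd_inv] at h
  exact h

lemma conj_log {u : ZMod p} (hu : u ≠ 0) :
    Complex.log (1 - ZMod.stdAddChar (-u)) =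
      (starRingEnd ℂ) (Complex.log (1 - ZMod.stdAddChar u)) := by
  have hs := slit (std_norm u) (std_ne_one hu)
  rw [← Complex.log_conj _ (Complex.mem_slitPlane_iff_arg.mp hs).1]
  congr 1
  rw [map_sub, map_one, AddChar.map_neg_eq_inv]
  congr 1
  rw [Complex.inv_def, Complex.normSq_eq_norm_sq, std_norm]
  simp

/-- the even case -/
theorem L_one_even (hp2 : p ≠ 2) (h1 : ep p ℂ = 1) :
    LFunction (qd p) 1 * gs (ZMod.stdAddChar (N := p)) =
    -∑ u : ZMod p, chi p ℂ u * (lg u : ℂ) := by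
  rw [L_one hp2]
  congr 1
  have h2 : ∑ u : ZMod p, chi p ℂ u * Complex.log (1 - ZMod.stdAddChar u) =
      ∑ u : ZMod p, chi p ℂ u * (starRingEnd ℂ) (Complex.log (1 - ZMod.stdAddChar u)) := by
    rw [← Equiv.sum_comp (Equiv.neg (ZMod p))]
    refine sum_congr rfl fun u _ => ?_
    simp only [Equiv.neg_apply]
    rw [chi_neg', h1, one_mul]
    by_cases hu : u = 0
    · subst hu; rw [MulChar.map_zero]; simp
    · rw [conj_log hu]
  have h4 : 2 * ∑ u : ZMod p, chi p ℂ u * Complex.log (1 - ZMod.stdAddChar u) =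
      2 * ∑ u : ZMod p, chi p ℂ u * (lg u : ℂ) := by
    rw [two_mul]
    nth_rewrite 2 [h2]
    rw [← sum_add_distrib, mul_sum]
    refine sum_congr rfl fun u _ => ?_
    rw [← mul_add, Complex.add_conj, Complex.log_re]
    unfold lg
    push_cast
    ring
  exact mul_left_cancel₀ two_ne_zero h4

/-- the imaginary part of the logarithm -/
lemma log_im {u : ZMod p} (hu : u ≠ 0) :
    (Complex.log (1 - ZMod.stdAddChar u)).im = Real.pi * (u.val : ℝ) / p - Real.pi / 2 := by
  have hp0 : (0 : ℝ) < p := by exact_mod_cast hp.out.pos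
  have hv0 : u.val ≠ 0 := by rwa [Ne, ZMod.val_eq_zero]
  have hv : (0 : ℝ) < u.val := by exact_mod_cast Nat.pos_of_ne_zero hv0
  have hlt : (u.val : ℝ) < p := by exact_mod_cast ZMod.val_lt u
  have hpi := Real.pi_pos
  set t : ℝ := Real.pi * (u.val : ℝ) / p with ht
  have ht0 : 0 < t := by positivity
  have ht1 : t < Real.pi := by
    rw [ht, div_lt_iff₀ hp0]
    exact mul_lt_mul_of_pos_left hlt hpi
  have hsin : 0 < Real.sin t := Real.sin_pos_of_pos_of_lt_pi ht0 ht1
  rw [Complex.log_im]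
  have h1 : (1 : ℂ) - ZMod.stdAddChar u =
      ((2 * Real.sin t : ℝ) : ℂ) * (Complex.cos ((t - Real.pi / 2 : ℝ) : ℂ) +
        Complex.sin ((t - Real.pi / 2 : ℝ) : ℂ) * Complex.I) := by
    rw [std_val]
    have e1 : 2 * (Real.pi : ℂ) * Complex.I * (u.val : ℂ) / p = ((2 * t : ℝ) : ℂ) * Complex.I := by
      rw [ht]; push_cast; ring
    rw [e1, Complex.exp_mul_I, ← Complex.ofReal_cos, ← Complex.ofReal_sin, ← Complex.ofReal_cos,
      ← Complex.ofReal_sin, Real.cos_sub_pi_div_two, Real.sin_sub_pi_div_two, Real.cos_two_mul,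
      Real.sin_two_mul]
    have h3 := Complex.sin_sq_add_cos_sq (t : ℂ)
    push_cast
    linear_combination (-2 : ℂ) * h3
  rw [h1]
  exact Complex.arg_mul_cos_add_sin_mul_I (by positivity) ⟨by linarith, by linarith⟩

/-- the odd case -/
theorem L_one_odd (hp2 : p ≠ 2) (h1 : ep p ℂ = -1) :
    LFunction (qd p) 1 * gs (ZMod.stdAddChar (N := p)) =
    -(Complex.I * Real.pi / p) * ∑ u : ZMod p, chi p ℂ u * (u.val : ℂ) := by
  rw [L_one hp2]
  have h2 : ∑ u : ZMod p, chi p ℂ u * Complex.log (1 - ZMod.stdAddChar u) =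
      - ∑ u : ZMod p, chi p ℂ u * (starRingEnd ℂ) (Complex.log (1 - ZMod.stdAddChar u)) := by
    rw [← Equiv.sum_comp (Equiv.neg (ZMod p)), ← sum_neg_distrib]
    refine sum_congr rfl fun u _ => ?_
    simp only [Equiv.neg_apply]
    rw [chi_neg', h1]
    by_cases hu : u = 0
    · subst hu; rw [MulChar.map_zero]; simp
    · rw [conj_log hu]; ring
  have hsum0 : ∑ u : ZMod p, chi p ℂ u = 0 :=
    MulChar.sum_eq_zero_of_ne_one (chi_ne_one' hp2 two_ne_zero)
  have h4 : 2 * ∑ u : ZMod p, chi p ℂ u * Complex.log (1 - ZMod.stdAddChar u) =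
      2 * ((Complex.I * Real.pi / p) * ∑ u : ZMod p, chi p ℂ u * (u.val : ℂ)) := by
    rw [two_mul]
    nth_rewrite 2 [h2]
    rw [← sub_eq_add_neg, ← sum_sub_distrib]
    have e : ∀ u : ZMod p, chi p ℂ u * Complex.log (1 - ZMod.stdAddChar u) -
        chi p ℂ u * (starRingEnd ℂ) (Complex.log (1 - ZMod.stdAddChar u)) =
        (2 * (Complex.I * Real.pi / p)) * (chi p ℂ u * (u.val : ℂ)) -
          (Complex.I * Real.pi) * chi p ℂ u := by
      intro u
      by_cases hu : u = 0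
      · subst hu; rw [MulChar.map_zero]; simp
      · rw [← mul_sub, Complex.sub_conj, log_im hu]
        push_cast
        ring
    rw [sum_congr rfl (fun u _ => e u), sum_sub_distrib, ← mul_sum, ← mul_sum, hsum0]
    ring
  have h5 := mul_left_cancel₀ (two_ne_zero' ℂ) h4
  rw [h5]
  ring

end Pool.Agent.V11306.CnfC
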