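import Mathlib
import Pool.Agent.V11306.Cao3
import Pool.Agent.V11306.CnfC

/-!
# The value of the `L`-function at `1` for odd Jacobi symbols
-/

set_option autoImplicit false

namespace Pool.Agent.V11306.Cao

open Finset Filter Topology DirichletCharacter

open Pool.Agent.V11306.CnfC (std_val std_norm std_mul_nat std_ne_one slit chi_zero)

lemma series' {f : ℕ} [NeZero f] (χ : DirichletCharacter ℂ f) (g : ℂ)
    (hsep : ∀ n : ℕ, χ (n : ZMod f) * g = ∑ u : ZMod f, χ u * (ZMod.stdAddChar u : ℂ) ^ n) {x : ℝ}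
    (hx0 : 0 < x) (hx1 : x < 1) :
    (∑' n : ℕ, (χ (n : ZMod f) * (((1:ℝ) / n : ℝ) : ℂ)) * (x : ℂ) ^ n) * g =
      -∑ u : ZMod f, χ u * Complex.log (1 - (x : ℂ) * ZMod.stdAddChar u) := by
  have h1 : ∀ u : ZMod f, HasSum (fun n : ℕ => χ u * (((x : ℂ) * ZMod.stdAddChar u) ^ n / n))
      (χ u * (-Complex.log (1 - (x : ℂ) * ZMod.stdAddChar u))) := by
    intro u
    apply HasSum.mul_left
    apply Complex.hasSum_taylorSeries_neg_log
    rw [norm_mul, std_norm, mul_one, Complex.norm_real, Real.norm_eq_abs, abs_of_pos hx0]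
    exact hx1
  have h2 := hasSum_sum (s := (univ : Finset (ZMod f))) fun u _ => h1 u
  rw [← tsum_mul_right]
  rw [show -∑ u : ZMod f, χ u * Complex.log (1 - (x : ℂ) * ZMod.stdAddChar u) =
    ∑ u : ZMod f, χ u * (-Complex.log (1 - (x : ℂ) * ZMod.stdAddChar u)) by
      rw [← sum_neg_distrib]; refine sum_congr rfl fun u _ => by ring]
  rw [← h2.tsum_eq]
  refine tsum_congr fun n => ?_
  have h3 := hsep n
  calc _ = (χ (n : ZMod f) * g) * ((((1:ℝ) / n : ℝ) : ℂ) * (x : ℂ) ^ n) := by ring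
    _ = _ := by
      rw [h3, sum_mul]
      refine sum_congr rfl fun u _ => ?_
      push_cast
      rw [mul_pow]
      ring

lemma limit' {f : ℕ} [NeZero f] (χ : DirichletCharacter ℂ f) (g : ℂ)
    (hsep : ∀ n : ℕ, χ (n : ZMod f) * g = ∑ u : ZMod f, χ u * (ZMod.stdAddChar u : ℂ) ^ n)
    (hne : χ ≠ 1) :
    LFunction χ 1 * g = -∑ u : ZMod f, χ u * Complex.log (1 - ZMod.stdAddChar u) := by
  have hpart : Tendsto (fun n : ℕ => ∑ i ∈ range n, χ (i : ZMod f) * (((1:ℝ) / i : ℝ) : ℂ)) atTop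
      (𝓝 (LFunction χ 1)) := by
    rw [← tendsto_add_atTop_iff_nat 1]
    rw [tendsto_iff_norm_sub_tendsto_zero]
    have hb : Tendsto (fun N : ℕ => 2 * (f : ℝ) / N) atTop (𝓝 0) :=
      tendsto_const_div_atTop_nhds_zero_nat _
    refine squeeze_zero' (Eventually.of_forall fun _ => norm_nonneg _) ?_ hb
    filter_upwards [eventually_ge_atTop 1] with N hN
    have h := Pool.Agent.H316R2.tail_one χ hne N hN
    refine le_trans (le_of_eq ?_) h
    congr 2
    have : range (N + 1) = insert 0 (Icc 1 N) := by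
      ext a; simp only [mem_range, mem_insert, mem_Icc]; omega
    rw [this, sum_insert (by simp)]
    simp
  have hA := Complex.tendsto_tsum_powerSeries_nhdsWithin_lt hpart
  rw [tendsto_map'_iff] at hA
  have hL : Tendsto (fun x : ℝ => (∑' n : ℕ, (χ (n : ZMod f) * (((1:ℝ) / n : ℝ) : ℂ)) * (x : ℂ) ^ n) *
      g) (𝓝[<] 1) (𝓝 (LFunction χ 1 * g)) := hA.mul_const _
  have hR : Tendsto (fun x : ℝ => -∑ u : ZMod f, χ u *
      Complex.log (1 - (x : ℂ) * ZMod.stdAddChar u)) (𝓝[<] 1)
      (𝓝 (-∑ u : ZMod f, χ u * Complex.log (1 - ZMod.stdAddChar u))) := by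
    apply Tendsto.neg
    apply tendsto_finsetSum
    intro u _
    by_cases hu : u = 0
    · subst hu
      have h0 : χ (0 : ZMod f) = 0 := chi_zero hne
      simp only [h0, zero_mul]
      exact tendsto_const_nhds
    · apply Tendsto.const_mul
      have hs := slit (std_norm u) (std_ne_one hu)
      have hc : ContinuousAt (fun x : ℝ => Complex.log (1 - (x : ℂ) * ZMod.stdAddChar u)) 1 := by
        apply ContinuousAt.clog
        · fun_prop
        · simpa using hs
      have := hc.tendsto.mono_left (nhdsWithin_le_nhds (s := Set.Iio 1))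
      simpa using this
  refine tendsto_nhds_unique hL (hR.congr' ?_)
  have h01 : ∀ᶠ x : ℝ in 𝓝[<] 1, x ∈ Set.Ioo (0:ℝ) 1 :=
    Ioo_mem_nhdsLT (by norm_num)
  filter_upwards [h01] with x hx
  exact (series' χ g hsep hx.1 hx.2).symm

lemma conj_log' {f : ℕ} [NeZero f] {u : ZMod f} (hu : u ≠ 0) :
    Complex.log (1 - ZMod.stdAddChar (-u)) =
      (starRingEnd ℂ) (Complex.log (1 - ZMod.stdAddChar u)) := by
  have hs := slit (std_norm u) (std_ne_one hu)
  rw [← Complex.log_conj _ (Complex.mem_slitPlane_iff_arg.mp hs).1]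
  congr 1
  rw [map_sub, map_one, AddChar.map_neg_eq_inv]
  congr 1
  rw [Complex.inv_def, Complex.normSq_eq_norm_sq, std_norm]
  simp

lemma log_im' {f : ℕ} [NeZero f] {u : ZMod f} (hu : u ≠ 0) :
    (Complex.log (1 - ZMod.stdAddChar u)).im = Real.pi * (u.val : ℝ) / f - Real.pi / 2 := by
  have hp0 : (0 : ℝ) < f := by exact_mod_cast Nat.pos_of_ne_zero (NeZero.ne f)
  have hv0 : u.val ≠ 0 := by rwa [Ne, ZMod.val_eq_zero]
  have hv : (0 : ℝ) < u.val := by exact_mod_cast Nat.pos_of_ne_zero hv0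
  have hlt : (u.val : ℝ) < f := by exact_mod_cast ZMod.val_lt u
  have hpi := Real.pi_pos
  set t : ℝ := Real.pi * (u.val : ℝ) / f with ht
  have ht0 : 0 < t := by positivity
  have ht1 : t < Real.pi := by
    rw [ht, div_lt_iff₀ hp0]
    exact mul_lt_mul_of_pos_left hlt hpi
  have hsin : 0 < Real.sin t := Real.sin_pos_of_pos_of_lt_pi ht0 ht1
  rw [Complex.log_im]
  have h1 : (1 : ℂ) - ZMod.stdAddChar u =
      ((2 * Real.sin t : ℝ) : ℂ) * (Complex.cos ((t - Real.pi / 2 : ℝ) : ℂ) +
        Complex.sin ((t - Real.pi / 2 : ℝ) : ℂ) * Complex.I) := by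
    rw [std_val]
    have e1 : 2 * (Real.pi : ℂ) * Complex.I * (u.val : ℂ) / f = ((2 * t : ℝ) : ℂ) * Complex.I := by
      rw [ht]; push_cast; ring
    rw [e1, Complex.exp_mul_I, ← Complex.ofReal_cos, ← Complex.ofReal_sin, ← Complex.ofReal_cos,
      ← Complex.ofReal_sin, Real.cos_sub_pi_div_two, Real.sin_sub_pi_div_two, Real.cos_two_mul,
      Real.sin_two_mul]
    have h3 := Complex.sin_sq_add_cos_sq (t : ℂ)
    push_cast
    linear_combination (-2 : ℂ) * h3
  rw [h1]
  exact Complex.arg_mul_cos_add_sin_mul_I (by positivity) ⟨by linarith, by linarith⟩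

/-- the value at `1` for odd characters -/
theorem L_odd {f : ℕ} [NeZero f] (χ : DirichletCharacter ℂ f) (g : ℂ)
    (hsep : ∀ n : ℕ, χ (n : ZMod f) * g = ∑ u : ZMod f, χ u * (ZMod.stdAddChar u : ℂ) ^ n)
    (hne : χ ≠ 1) (hodd : χ (-1) = -1) :
    LFunction χ 1 * g = -(Complex.I * Real.pi / f) * ∑ u : ZMod f, χ u * (u.val : ℂ) := by
  rw [limit' χ g hsep hne]
  have hneg : ∀ u : ZMod f, χ (-u) = - χ u := by
    intro u
    rw [show -u = (-1) * u by ring, map_mul, hodd]
    ring
  have h2 : ∑ u : ZMod f, χ u * Complex.log (1 - ZMod.stdAddChar u) =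
      - ∑ u : ZMod f, χ u * (starRingEnd ℂ) (Complex.log (1 - ZMod.stdAddChar u)) := by
    rw [← Equiv.sum_comp (Equiv.neg (ZMod f)), ← sum_neg_distrib]
    refine sum_congr rfl fun u _ => ?_
    simp only [Equiv.neg_apply]
    rw [hneg]
    by_cases hu : u = 0
    · subst hu; rw [chi_zero hne]; simp
    · rw [conj_log' hu]; ring
  have hsum0 : ∑ u : ZMod f, χ u = 0 := MulChar.sum_eq_zero_of_ne_one hne
  have h4 : 2 * ∑ u : ZMod f, χ u * Complex.log (1 - ZMod.stdAddChar u) =
      2 * ((Complex.I * Real.pi / f) * ∑ u : ZMod f, χ u * (u.val : ℂ)) := by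
    rw [two_mul]
    nth_rewrite 2 [h2]
    rw [← sub_eq_add_neg, ← sum_sub_distrib]
    have e : ∀ u : ZMod f, χ u * Complex.log (1 - ZMod.stdAddChar u) -
        χ u * (starRingEnd ℂ) (Complex.log (1 - ZMod.stdAddChar u)) =
        (2 * (Complex.I * Real.pi / f)) * (χ u * (u.val : ℂ)) -
          (Complex.I * Real.pi) * χ u := by
      intro u
      by_cases hu : u = 0
      · subst hu; rw [chi_zero hne]; simp
      · rw [← mul_sub, Complex.sub_conj, log_im' hu]
        push_cast
        ring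
    rw [sum_congr rfl (fun u _ => e u), sum_sub_distrib, ← mul_sum, ← mul_sum, hsum0]
    ring
  have h5 := mul_left_cancel₀ two_ne_zero h4
  rw [h5]
  ring

open ComplexOrder in
/-- `L(1, χ)` is nonnegative for quadratic characters -/
theorem L_one_nonneg {f : ℕ} [NeZero f] (χ : DirichletCharacter ℂ f) (hne : χ ≠ 1)
    (hsq : χ ^ 2 = 1) : 0 ≤ LFunction χ 1 := by
  have h1 : ∀ x : ℝ, 1 < x → 0 ≤ LFunction χ x := by
    intro x hx
    have hx' : 1 < (x : ℂ).re := by simpa using hx
    have hz : LSeries χ.zetaMul x = riemannZeta x * LFunction χ x := by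
      rw [zetaMul, ← ArithmeticFunction.coe_mul, LSeries_convolution']
      · rw [LFunction_eq_LSeries χ hx']
        congr 1
        · simp_rw [← ArithmeticFunction.LSeries_zeta_eq_riemannZeta hx', ← ArithmeticFunction.natCoe_apply]
        · exact (LSeries_congr χ.apply_eq_toArithmeticFunction_apply x).symm
      · exact ArithmeticFunction.LSeriesSummable_zeta_iff.mpr hx'
      · exact (LSeriesSummable_congr _ fun h ↦ (χ.apply_eq_toArithmeticFunction_apply h).symm).mpr <|
          ZMod.LSeriesSummable_of_one_lt_re χ hx'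
    have hz0 : 0 ≤ LSeries χ.zetaMul x := by
      rw [LSeries]
      exact tsum_nonneg fun n => LSeries.term_nonneg (zetaMul_nonneg hsq n) x
    have hr := riemannZeta_re_pos_of_one_lt hx
    have hi := riemannZeta_im_eq_zero_of_one_lt hx
    have hzr : riemannZeta x = ((riemannZeta x).re : ℂ) := by
      apply Complex.ext
      · simp
      · simp [hi]
    rw [hzr] at hz
    have h3 : LFunction χ x = (((riemannZeta x).re)⁻¹ : ℝ) * LSeries χ.zetaMul x := by
      rw [hz, ← mul_assoc, ← Complex.ofReal_mul, inv_mul_cancel₀ hr.ne', Complex.ofReal_one, one_mul]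
    rw [h3]
    apply mul_nonneg _ hz0
    rw [Complex.zero_le_real]
    positivity
  have hcont : Tendsto (fun x : ℝ => LFunction χ x) (𝓝[>] 1) (𝓝 (LFunction χ 1)) := by
    have hc : ContinuousAt (fun x : ℝ => LFunction χ (x : ℂ)) 1 := by
      have h5 : ContinuousAt (LFunction χ) ((1 : ℝ) : ℂ) :=
        (differentiable_LFunction hne).continuous.continuousAt
      exact ContinuousAt.comp (f := fun x : ℝ => (x : ℂ)) h5 Complex.continuous_ofReal.continuousAt
    have := hc.tendsto.mono_left (nhdsWithin_le_nhds (s := Set.Ioi 1))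
    simpa using this
  refine ge_of_tendsto hcont ?_
  filter_upwards [self_mem_nhdsWithin] with x hx
  exact h1 x hx

end Pool.Agent.V11306.Cao
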