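import Mathlib
import Pool.Agent.V11306.Cao1
import Pool.Agent.V11306.Cao4

/-!
# Half sums of Jacobi symbols
-/

set_option autoImplicit false

namespace Pool.Agent.V11306.Cao

open Finset DirichletCharacter

/-- the half sum -/
def A (n : ℕ) : ℤ := ∑ m ∈ range ((n + 1) / 2), jacobiSym m n

/-- the first moment -/
def Sm (n : ℕ) : ℤ := ∑ m ∈ range n, (m : ℤ) * jacobiSym m n

lemma jac_neg_one {n : ℕ} (h : n % 4 = 3) : jacobiSym (-1) n = -1 := by
  rw [jacobiSym.at_neg_one (Nat.odd_iff.mpr (by omega)), ZMod.χ₄_nat_three_mod_four h]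

lemma jac_refl {n : ℕ} (h : n % 4 = 3) (m : ℕ) (hm : m ≤ n) :
    jacobiSym ((n - m : ℕ) : ℤ) n = - jacobiSym m n := by
  have e : jacobiSym ((n - m : ℕ) : ℤ) n = jacobiSym (-1) n * jacobiSym m n := by
    rw [← jacobiSym.mul_left]
    apply jacobiSym.mod_left'
    rw [Nat.cast_sub hm, neg_one_mul]
    rw [show (n : ℤ) - m = -m + n * 1 by ring, Int.add_mul_emod_self_left]
  rw [e, jac_neg_one h]
  ring

lemma jac_zero {n : ℕ} (h : 1 < n) : jacobiSym ((0 : ℕ) : ℤ) n = 0 := by
  have : NeZero n := ⟨by omega⟩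
  rw [jacobiSym.eq_zero_iff_not_coprime]
  simp
  omega

lemma jac_self {n : ℕ} (h : 1 < n) : jacobiSym (n : ℤ) n = 0 := by
  have : NeZero n := ⟨by omega⟩
  rw [jacobiSym.eq_zero_iff_not_coprime]
  simp
  omega

/-- splitting into halves -/
lemma split_half (h : ℕ) (g : ℕ → ℤ) : ∑ m ∈ range (h + 1 + h), g m =
    ∑ m ∈ range (h + 1), g m + ∑ m ∈ range (h + 1), g (h + 1 + h - m) - g (h + 1 + h) := by
  rw [Finset.sum_range_add, add_sub_assoc]
  congr 1
  rw [Finset.sum_range_succ' (fun m => g (h + 1 + h - m)) h]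
  simp only [Nat.sub_zero, add_sub_cancel_right]
  rw [← Finset.sum_range_reflect]
  refine Finset.sum_congr rfl fun j hj => ?_
  rw [Finset.mem_range] at hj
  congr 1
  omega

/-- splitting into even and odd -/
lemma split_par (h : ℕ) (g : ℕ → ℤ) : ∑ m ∈ range (2 * h + 1), g m =
    ∑ m ∈ range (h + 1), g (2 * m) + ∑ m ∈ range (h + 1), g (2 * h + 1 - 2 * m) - g (2 * h + 1) := by
  have h1 : ∀ k : ℕ, ∑ m ∈ range (2 * k + 1), g m = ∑ m ∈ range (k + 1), g (2 * m) +
      ∑ m ∈ range k, g (2 * m + 1) := by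
    intro k
    induction k with
    | zero => simp
    | succ k ih =>
      rw [show 2 * (k + 1) + 1 = 2 * k + 1 + 1 + 1 by ring, Finset.sum_range_succ,
        Finset.sum_range_succ, ih, Finset.sum_range_succ _ (k + 1),
        Finset.sum_range_succ (fun m => g (2 * m + 1)) k]
      rw [show 2 * k + 1 + 1 = 2 * (k + 1) by ring]
      ring
  rw [h1, add_sub_assoc]
  congr 1
  rw [Finset.sum_range_succ' (fun m => g (2 * h + 1 - 2 * m)) h]
  simp only [mul_zero, Nat.sub_zero, add_sub_cancel_right]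
  rw [← Finset.sum_range_reflect]
  refine Finset.sum_congr rfl fun j hj => ?_
  rw [Finset.mem_range] at hj
  congr 1
  omega

theorem A_Sm (n : ℕ) (h3 : n % 4 = 3) : (n : ℤ) * A n = (jacobiSym 2 n - 2) * Sm n := by
  obtain ⟨h, hh⟩ : ∃ h, n = h + 1 + h := ⟨n / 2, by omega⟩
  have h1 : 1 < n := by omega
  have hhalf : (n + 1) / 2 = h + 1 := by omega
  set B : ℤ := ∑ m ∈ range (h + 1), (m : ℤ) * jacobiSym m n with hB
  have hA : A n = ∑ m ∈ range (h + 1), jacobiSym m n := by rw [A, hhalf]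
  have e1 : Sm n = 2 * B - n * A n := by
    have e := split_half h (fun m => (m : ℤ) * jacobiSym m n)
    rw [← hh] at e
    rw [Sm, e, ← hB, jac_self h1, mul_zero, sub_zero]
    have e2 : ∑ m ∈ range (h + 1), ((n - m : ℕ) : ℤ) * jacobiSym ((n - m : ℕ) : ℤ) n =
        ∑ m ∈ range (h + 1), ((m : ℤ) * jacobiSym m n - n * jacobiSym m n) := by
      refine Finset.sum_congr rfl fun m hm => ?_
      rw [Finset.mem_range] at hm
      rw [jac_refl h3 m (by omega), Nat.cast_sub (by omega)]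
      ring
    rw [e2, Finset.sum_sub_distrib, ← Finset.mul_sum, ← hA, ← hB]
    ring
  have hh2 : n = 2 * h + 1 := by omega
  have e3 : Sm n = jacobiSym 2 n * (4 * B - n * A n) := by
    have e := split_par h (fun m => (m : ℤ) * jacobiSym m n)
    rw [← hh2] at e
    rw [Sm, e, jac_self h1, mul_zero, sub_zero]
    have e4 : ∑ m ∈ range (h + 1), ((2 * m : ℕ) : ℤ) * jacobiSym ((2 * m : ℕ) : ℤ) n =
        jacobiSym 2 n * (2 * B) := by
      rw [hB, Finset.mul_sum, Finset.mul_sum]
      refine Finset.sum_congr rfl fun m _ => ?_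
      push_cast
      rw [jacobiSym.mul_left]
      ring
    have e5 : ∑ m ∈ range (h + 1), ((n - 2 * m : ℕ) : ℤ) * jacobiSym ((n - 2 * m : ℕ) : ℤ) n =
        jacobiSym 2 n * (2 * B - n * A n) := by
      rw [hA, hB, Finset.mul_sum, Finset.mul_sum, ← Finset.sum_sub_distrib, Finset.mul_sum]
      refine Finset.sum_congr rfl fun m hm => ?_
      rw [Finset.mem_range] at hm
      rw [jac_refl h3 (2 * m) (by omega), Nat.cast_sub (by omega)]
      push_cast
      rw [jacobiSym.mul_left]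
      ring
    rw [e4, e5]
    ring
  have hsq : jacobiSym 2 n * jacobiSym 2 n = 1 := by
    rw [← sq]
    apply jacobiSym.sq_one
    have : Int.gcd ((2 : ℕ) : ℤ) (n : ℤ) = 1 := by
      rw [Int.gcd_natCast_natCast]
      exact (Nat.coprime_two_left).mpr (Nat.odd_iff.mpr (by omega))
    exact_mod_cast this
  linear_combination (2 : ℤ) * e1 - jacobiSym 2 n * e3 - (4 * B - n * A n) * hsq

end Pool.Agent.V11306.Cao
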