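import Mathlib
import Pool.Agent.V11306.Cao5

/-!
# Sign and size of the half sums of Jacobi symbols
-/

set_option autoImplicit false

namespace Pool.Agent.V11306.Cao

open Finset DirichletCharacter

lemma sum_zmod_range {R : Type*} [AddCommMonoid R] (n : ℕ) [NeZero n] (g : ℕ → R) :
    ∑ u : ZMod n, g u.val = ∑ m ∈ range n, g m := by
  refine Finset.sum_nbij' (fun u => u.val) (fun m => (m : ZMod n)) ?_ ?_ ?_ ?_ ?_
  · intro u _; exact Finset.mem_coe.mpr (Finset.mem_range.mpr (ZMod.val_lt u))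
  · intro m _; exact Finset.mem_coe.mpr (Finset.mem_univ _)
  · intro u _; exact ZMod.natCast_zmod_val u
  · intro m hm
    exact ZMod.val_cast_of_lt (Finset.mem_range.mp (Finset.mem_coe.mp hm))
  · intro u _; rfl

section sf

variable {f : ℕ} [NeZero f]

lemma jchi_neg_one (h3 : f % 4 = 3) : jchi f (-1) = -1 := by
  have e : (-1 : ZMod f) = ((f - 1 : ℕ) : ZMod f) := by
    rw [Nat.cast_sub (by omega), ZMod.natCast_self]
    simp
  rw [jchi_apply, e, J_nat, jac_refl h3 1 (by omega), Nat.cast_one, jacobiSym.one_left]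
  simp

lemma jchi_ne_one (h3 : f % 4 = 3) : jchi f ≠ 1 := by
  intro h
  have h1 := jchi_neg_one h3
  rw [h, MulChar.one_apply (by simp : IsUnit (-1 : ZMod f))] at h1
  norm_num at h1

lemma jchi_sq : (jchi f) ^ 2 = 1 := by
  ext u
  rw [MulChar.pow_apply_coe, MulChar.one_apply_coe, jchi_apply, J]
  have hc : Int.gcd (((u : ZMod f).val : ℕ) : ℤ) (f : ℤ) = 1 := by
    rw [Int.gcd_natCast_natCast]
    have := u.isUnit
    rw [← ZMod.natCast_zmod_val (u : ZMod f), ZMod.isUnit_iff_coprime] at this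
    exact this
  have := jacobiSym.sq_one hc
  exact_mod_cast this

lemma jchi_sep (hsf : Squarefree f) (h3 : f % 4 = 3) (n : ℕ) :
    jchi f (n : ZMod f) * (Complex.I * Real.sqrt f) =
      ∑ u : ZMod f, jchi f u * (ZMod.stdAddChar u : ℂ) ^ n := by
  have h := G_val f (by omega) hsf n
  rw [eps, if_neg (by omega)] at h
  rw [jchi_apply, J_nat, ← h, G]
  refine Finset.sum_congr rfl fun u _ => ?_
  rw [jchi_apply, CnfC.std_mul_nat]

/-- the value of the `L`-function at `1` -/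
theorem L_Sm (hsf : Squarefree f) (h3 : f % 4 = 3) :
    LFunction (jchi f) 1 = ((-(Real.pi * (Sm f : ℝ)) / (f * Real.sqrt f) : ℝ) : ℂ) := by
  have h := L_odd (jchi f) _ (jchi_sep hsf h3) (jchi_ne_one h3) (jchi_neg_one h3)
  have e : ∑ u : ZMod f, jchi f u * (u.val : ℂ) = ((Sm f : ℤ) : ℂ) := by
    rw [Sm, Int.cast_sum, ← sum_zmod_range f (fun m => (((m : ℤ) * jacobiSym m f : ℤ) : ℂ))]
    refine Finset.sum_congr rfl fun u _ => ?_
    rw [jchi_apply, J]
    push_cast
    ring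
  rw [e] at h
  have hf0 : (0 : ℝ) < f := by exact_mod_cast Nat.pos_of_ne_zero (NeZero.ne f)
  have hs0 : (0 : ℝ) < Real.sqrt f := Real.sqrt_pos.mpr hf0
  have hsc : ((Real.sqrt f : ℝ) : ℂ) ≠ 0 := by exact_mod_cast hs0.ne'
  have hfc : (f : ℂ) ≠ 0 := by exact_mod_cast hf0.ne'
  have hI := Complex.I_ne_zero
  have h2 : LFunction (jchi f) 1 * ((Real.sqrt f : ℝ) : ℂ) = -(Real.pi / f) * ((Sm f : ℤ) : ℂ) := by
    apply mul_left_cancel₀ hI
    linear_combination h
  push_cast
  rw [eq_div_iff (mul_ne_zero hfc hsc)]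
  have h3 : (f : ℂ) * (LFunction (jchi f) 1 * ((Real.sqrt f : ℝ) : ℂ)) =
      (f : ℂ) * (-(Real.pi / f) * ((Sm f : ℤ) : ℂ)) := by rw [h2]
  have h4 : (f : ℂ) * (-(Real.pi / f) * ((Sm f : ℤ) : ℂ)) = -(Real.pi * ((Sm f : ℤ) : ℂ)) := by
    field_simp
  rw [h4] at h3
  linear_combination h3

/-- the real number `L(1, χ)` -/
noncomputable def Lr (f : ℕ) [NeZero f] : ℝ := -(Real.pi * (Sm f : ℝ)) / (f * Real.sqrt f)

open ComplexOrder in
lemma Lr_nonneg (hsf : Squarefree f) (h3 : f % 4 = 3) : 0 ≤ Lr f := by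
  have h := L_one_nonneg (jchi f) (jchi_ne_one h3) jchi_sq
  rw [L_Sm hsf h3] at h
  exact Complex.zero_le_real.mp h

lemma Lr_le (hsf : Squarefree f) (h3 : f % 4 = 3) : Lr f ≤ 3 + Real.log f := by
  have hf1 : 1 ≤ f := by omega
  have hfr : (0 : ℝ) < f := by exact_mod_cast hf1
  have h := Pool.Agent.H316R2.tail_one (jchi f) (jchi_ne_one h3) f hf1
  have e : 2 * (f : ℝ) / f = 2 := by field_simp
  rw [e] at h
  have h1 : ‖LFunction (jchi f) 1‖ ≤ 2 +
      ‖∑ n ∈ Icc 1 f, jchi f (n : ZMod f) * (((1:ℝ) / n : ℝ) : ℂ)‖ := by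
    have h2 := norm_sub_le (∑ n ∈ Icc 1 f, jchi f (n : ZMod f) * (((1:ℝ) / n : ℝ) : ℂ))
      (∑ n ∈ Icc 1 f, jchi f (n : ZMod f) * (((1:ℝ) / n : ℝ) : ℂ) - LFunction (jchi f) 1)
    rw [sub_sub_cancel] at h2
    linarith
  have h4 : ‖∑ n ∈ Icc 1 f, jchi f (n : ZMod f) * (((1:ℝ) / n : ℝ) : ℂ)‖ ≤ 1 + Real.log f := by
    refine (norm_sum_le _ _).trans ?_
    have h5 : ∑ n ∈ Icc 1 f, ‖jchi f (n : ZMod f) * (((1:ℝ) / n : ℝ) : ℂ)‖ ≤
        ∑ n ∈ Icc 1 f, (1 : ℝ) / n := by
      refine Finset.sum_le_sum fun n _ => ?_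
      rw [norm_mul, Complex.norm_real, Real.norm_eq_abs, abs_of_nonneg (by positivity)]
      have h6 : ‖jchi f (n : ZMod f)‖ ≤ 1 := (jchi f).norm_le_one _
      have h7 : (0 : ℝ) ≤ 1 / n := by positivity
      nlinarith
    refine h5.trans ?_
    have h8 := harmonic_le_one_add_log f
    rw [harmonic_eq_sum_Icc] at h8
    push_cast at h8
    simpa [one_div] using h8
  rw [L_Sm hsf h3] at h1
  rw [Complex.norm_real, Real.norm_eq_abs] at h1
  have h9 := le_abs_self (Lr f)
  have h10 : |Lr f| ≤ 2 + (1 + Real.log f) := h1.trans (by linarith)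
  linarith

lemma A_Lr (hsf : Squarefree f) (h3 : f % 4 = 3) :
    (A f : ℝ) = (2 - (jacobiSym 2 f : ℝ)) * (Lr f * Real.sqrt f / Real.pi) := by
  have h := A_Sm f h3
  have h' : (f : ℝ) * (A f : ℝ) = ((jacobiSym 2 f : ℝ) - 2) * (Sm f : ℝ) := by exact_mod_cast h
  have hf0 : (0 : ℝ) < f := by exact_mod_cast Nat.pos_of_ne_zero (NeZero.ne f)
  have hs0 : (0 : ℝ) < Real.sqrt f := Real.sqrt_pos.mpr hf0
  have hpi := Real.pi_pos
  have e : Lr f * Real.sqrt f / Real.pi = -(Sm f : ℝ) / f := by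
    rw [Lr]; field_simp
  rw [e]
  apply mul_left_cancel₀ hf0.ne'
  rw [h']
  field_simp
  ring

lemma jac_two_le (n : ℕ) : (jacobiSym 2 n : ℝ) ≤ 1 ∧ -1 ≤ (jacobiSym 2 n : ℝ) := by
  rcases jacobiSym.trichotomy 2 n with h | h | h <;> rw [h] <;> norm_num

theorem A_nonneg_sf (hsf : Squarefree f) (h3 : f % 4 = 3) : 0 ≤ A f := by
  have h := A_Lr hsf h3
  have h1 := Lr_nonneg hsf h3
  have h2 := jac_two_le f
  have hpi := Real.pi_pos
  have h4 : (0 : ℝ) ≤ A f := by
    rw [h]
    apply mul_nonneg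
    · linarith [h2.1]
    · positivity
  exact_mod_cast h4

theorem A_le_sf (hsf : Squarefree f) (h3 : f % 4 = 3) :
    (A f : ℝ) ≤ Real.sqrt f * (3 + Real.log f) := by
  rw [A_Lr hsf h3]
  have h1 := Lr_nonneg hsf h3
  have h2 := jac_two_le f
  have h4 := Lr_le hsf h3
  have hpi := Real.pi_gt_three
  have hs0 : (0 : ℝ) ≤ Real.sqrt f := Real.sqrt_nonneg _
  have h5 : Lr f * Real.sqrt f / Real.pi ≤ Lr f * Real.sqrt f / 3 := by
    gcongr
  have h6 : 0 ≤ Lr f * Real.sqrt f / Real.pi := by positivity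
  have h7 : Lr f * Real.sqrt f ≤ (3 + Real.log f) * Real.sqrt f := by gcongr
  nlinarith [h2.2]

end sf

/-- sums over complete periods vanish -/
lemma full_zero {n : ℕ} (h3 : n % 4 = 3) : ∑ m ∈ range n, jacobiSym m n = 0 := by
  have : NeZero n := ⟨by omega⟩
  have h := MulChar.sum_eq_zero_of_ne_one (jchi_ne_one h3)
  have e : ∑ u : ZMod n, jchi n u = ((∑ m ∈ range n, jacobiSym m n : ℤ) : ℂ) := by
    rw [Int.cast_sum, ← sum_zmod_range n (fun m => ((jacobiSym m n : ℤ) : ℂ))]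
    rfl
  rw [e] at h
  exact_mod_cast h

lemma period_sum {n : ℕ} (h3 : n % 4 = 3) (s r : ℕ) :
    ∑ m ∈ range (n * s + r), jacobiSym m n = ∑ m ∈ range r, jacobiSym m n := by
  induction s with
  | zero => simp
  | succ s ih =>
    rw [show n * (s + 1) + r = n + (n * s + r) by ring, Finset.sum_range_add, full_zero h3, zero_add,
      ← ih]
    refine Finset.sum_congr rfl fun m _ => ?_
    apply jacobiSym.mod_left'
    push_cast
    simp

lemma odd_period {n : ℕ} (h3 : n % 4 = 3) (t : ℕ) (ht : t % 2 = 1) :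
    ∑ m ∈ range ((t * n + 1) / 2), jacobiSym m n = A n := by
  obtain ⟨s, hs⟩ : ∃ s, t = 2 * s + 1 := ⟨t / 2, by omega⟩
  have e : (t * n + 1) / 2 = n * s + (n + 1) / 2 := by
    rw [hs]
    have : (2 * s + 1) * n + 1 = 2 * (n * s) + (n + 1) := by ring
    rw [this]
    omega
  rw [e, period_sum h3, A]

/-- removing a squared prime -/
theorem A_rec (l n : ℕ) (hl : l.Prime) (hl2 : l ≠ 2) (h3 : n % 4 = 3) :
    A (l * l * n) = (1 - jacobiSym l n) * A n := by
  have hlo : l % 2 = 1 := by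
    rcases hl.eq_two_or_odd with h | h
    · exact absurd h hl2
    · exact h
  have hn0 : n ≠ 0 := by omega
  have hl0 := hl.pos
  have e1 : ∀ m : ℕ, jacobiSym m (l * l * n) = jacobiSym m n -
      (if l ∣ m then jacobiSym m n else 0) := by
    intro m
    rw [jacobiSym.mul_right' _ (mul_ne_zero hl.ne_zero hl.ne_zero) hn0,
      jacobiSym.mul_right' _ hl.ne_zero hl.ne_zero]
    split_ifs with h
    · have : jacobiSym m l = 0 := by
        have : NeZero l := ⟨hl.ne_zero⟩
        rw [jacobiSym.eq_zero_iff_not_coprime, Int.gcd_natCast_natCast]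
        rw [Nat.gcd_eq_right h]
        exact hl.one_lt.ne'
      rw [this]; ring
    · have : jacobiSym m l ^ 2 = 1 := by
        apply jacobiSym.sq_one
        rw [Int.gcd_natCast_natCast]
        exact ((Nat.Prime.coprime_iff_not_dvd hl).mpr h).symm
      linear_combination jacobiSym m n * this
  rw [A, Finset.sum_congr rfl (fun m _ => e1 m), Finset.sum_sub_distrib]
  rw [odd_period h3 (l * l) (by rw [Nat.mul_mod, hlo])]
  rw [sub_mul, one_mul]
  congr 1
  rw [← Finset.sum_filter, ← odd_period h3 l hlo, Finset.mul_sum]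
  symm
  apply Finset.sum_bij (fun (m : ℕ) _ => l * m)
  · intro m hm
    rw [Finset.mem_range] at hm
    rw [Finset.mem_filter, Finset.mem_range]
    refine ⟨?_, dvd_mul_right _ _⟩
    have h1 : 2 * m < l * n := by omega
    have h2 : l * (2 * m) < l * (l * n) := Nat.mul_lt_mul_of_pos_left h1 hl0
    have h4 : l * (2 * m) = 2 * (l * m) := by ring
    have h5 : l * (l * n) = l * l * n := by ring
    omega
  · intro a _ b _ hab
    exact Nat.eq_of_mul_eq_mul_left hl0 hab
  · intro b hb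
    rw [Finset.mem_filter, Finset.mem_range] at hb
    obtain ⟨hb1, c, hc⟩ := hb
    refine ⟨c, ?_, hc.symm⟩
    rw [Finset.mem_range]
    subst hc
    by_contra hcon
    have h1 : l * n ≤ 2 * c := by omega
    have h2 : l * (l * n) ≤ l * (2 * c) := Nat.mul_le_mul_left l h1
    have h4 : l * (2 * c) = 2 * (l * c) := by ring
    have h5 : l * (l * n) = l * l * n := by ring
    have h6 : (l * l * n) % 2 = 1 := by
      rw [Nat.mul_mod, Nat.mul_mod l l, hlo]
      omega
    omega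
  · intro m _
    push_cast
    rw [jacobiSym.mul_left]

lemma exists_sq {n : ℕ} (h3 : n % 4 = 3) (hn : ¬ Squarefree n) :
    ∃ l m : ℕ, l.Prime ∧ l ≠ 2 ∧ m % 4 = 3 ∧ n = l * l * m := by
  rw [Nat.squarefree_iff_prime_squarefree] at hn
  push Not at hn
  obtain ⟨l, hl, m, hm⟩ := hn
  have hl2 : l ≠ 2 := by
    rintro rfl
    omega
  have hlo : l % 2 = 1 := by
    rcases hl.eq_two_or_odd with h | h
    · exact absurd h hl2
    · exact h
  refine ⟨l, m, hl, hl2, ?_, hm⟩
  have h1 : (l * l) % 4 = 1 := by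
    rw [Nat.mul_mod]
    have : l % 4 = 1 ∨ l % 4 = 3 := by omega
    rcases this with h | h <;> rw [h]
  have h2 : n % 4 = ((l * l) % 4) * (m % 4) % 4 := by rw [hm, Nat.mul_mod]
  rw [h1] at h2
  omega

/-- the half sum is nonnegative -/
theorem A_nonneg (n : ℕ) : n % 4 = 3 → 0 ≤ A n := by
  induction n using Nat.strong_induction_on with
  | _ n ih =>
    intro h3
    have : NeZero n := ⟨by omega⟩
    by_cases hsf : Squarefree n
    · exact A_nonneg_sf hsf h3
    · obtain ⟨l, m, hl, hl2, hm3, hn⟩ := exists_sq h3 hsf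
      have hlt : m < n := by
        have h4 : 4 * m ≤ (l * l) * m := Nat.mul_le_mul_right m (Nat.mul_le_mul hl.two_le hl.two_le)
        omega
      have h := ih m hlt hm3
      rw [hn, A_rec l m hl hl2 hm3]
      apply mul_nonneg _ h
      rcases jacobiSym.trichotomy l m with h | h | h <;> rw [h] <;> norm_num

/-- an upper bound for the half sum -/
theorem A_le (n : ℕ) : n % 4 = 3 → (A n : ℝ) ≤ 11 * (n : ℝ) ^ (5 / 8 : ℝ) := by
  induction n using Nat.strong_induction_on with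
  | _ n ih =>
    intro h3
    have : NeZero n := ⟨by omega⟩
    have hn1 : (1 : ℝ) ≤ n := by exact_mod_cast (by omega : 1 ≤ n)
    by_cases hsf : Squarefree n
    · refine (A_le_sf hsf h3).trans ?_
      have h1 : Real.log n ≤ (n : ℝ) ^ (1 / 8 : ℝ) / (1 / 8) :=
        Real.log_le_rpow_div (by linarith) (by norm_num)
      have h2 : (1 : ℝ) ≤ (n : ℝ) ^ (1 / 8 : ℝ) := Real.one_le_rpow hn1 (by norm_num)
      have h4 : (n : ℝ) ^ (5 / 8 : ℝ) = Real.sqrt n * (n : ℝ) ^ (1 / 8 : ℝ) := by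
        rw [Real.sqrt_eq_rpow, ← Real.rpow_add (by linarith)]
        norm_num
      have h5 : 0 ≤ Real.sqrt n := Real.sqrt_nonneg _
      rw [h4]
      nlinarith
    · obtain ⟨l, m, hl, hl2, hm3, hn⟩ := exists_sq h3 hsf
      have hm0 : 0 < m := by omega
      have hlt : m < n := by
        have h4 : 4 * m ≤ (l * l) * m := Nat.mul_le_mul_right m (Nat.mul_le_mul hl.two_le hl.two_le)
        omega
      have h := ih m hlt hm3
      have h0 := A_nonneg m hm3
      have hl3 : 3 ≤ l := by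
        have := hl.two_le
        omega
      have h6 : (A n : ℝ) ≤ 2 * A m := by
        rw [hn, A_rec l m hl hl2 hm3]
        have h0' : (0 : ℝ) ≤ A m := by exact_mod_cast h0
        push_cast
        rcases jacobiSym.trichotomy l m with h | h | h <;> rw [h] <;> push_cast <;> nlinarith
      refine h6.trans ?_
      have h7 : (n : ℝ) = ((l : ℝ) * l) * m := by rw [hn]; push_cast; ring
      rw [h7, Real.mul_rpow (by positivity) (by positivity)]
      have h8 : (2 : ℝ) ≤ ((l : ℝ) * l) ^ (5 / 8 : ℝ) := by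
        have h9 : (9 : ℝ) ≤ (l : ℝ) * l := by
          have : (3 : ℝ) ≤ l := by exact_mod_cast hl3
          nlinarith
        calc (2 : ℝ) ≤ 9 ^ (1 / 2 : ℝ) := by
              rw [← Real.sqrt_eq_rpow]
              rw [Real.le_sqrt' (by norm_num)]
              norm_num
          _ ≤ 9 ^ (5 / 8 : ℝ) := by
              apply Real.rpow_le_rpow_of_exponent_le (by norm_num) (by norm_num)
          _ ≤ _ := by
              apply Real.rpow_le_rpow (by norm_num) h9 (by norm_num)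
      have h10 : (0 : ℝ) ≤ (m : ℝ) ^ (5 / 8 : ℝ) := by positivity
      nlinarith

end Pool.Agent.V11306.Cao
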