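import Mathlib
import Pool.Agent.V11306.Cao6

/-!
# The numbers `N(p)` and their complements
-/

set_option autoImplicit false

namespace Pool.Agent.V11306.Cao

open Finset Filter Topology

/-- a lower bound for the totient of odd numbers -/
theorem tot_aux (n : ℕ) : n % 2 = 1 → (¬ 3 ∣ n → n ^ 3 ≤ n.totient ^ 4) ∧
    (3 ∣ n → 16 * n ^ 3 ≤ 27 * n.totient ^ 4) := by
  induction n using induction_on_primes with
  | zero => intro h; simp at h
  | one => intro _; simp
  | prime_mul p a hp ih =>
    intro h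
    have hpo : p % 2 = 1 := by
      rw [Nat.mul_mod] at h
      rcases Nat.mod_two_eq_zero_or_one p with h1 | h1
      · rw [h1] at h; simp at h
      · exact h1
    have hao : a % 2 = 1 := by
      rw [Nat.mul_mod, hpo] at h
      omega
    obtain ⟨i1, i2⟩ := ih hao
    have hp3 : 3 ≤ p := by
      have := hp.two_le
      omega
    by_cases hpa : p ∣ a
    · have ht : (p * a).totient = p * a.totient := Nat.totient_mul_of_prime_of_dvd hp hpa
      have h33 : 3 ∣ p * a ↔ 3 ∣ a := by
        constructor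
        · intro h3
          rcases (Nat.Prime.dvd_mul Nat.prime_three).mp h3 with h4 | h4
          · exact h4.trans hpa
          · exact h4
        · intro h3; exact h3.mul_left p
      have hpp : p ^ 3 ≤ p ^ 4 := Nat.pow_le_pow_right (by omega) (by norm_num)
      rw [ht, mul_pow, mul_pow, h33]
      constructor
      · intro h3
        exact Nat.mul_le_mul hpp (i1 h3)
      · intro h3
        have := Nat.mul_le_mul hpp (i2 h3)
        calc 16 * (p ^ 3 * a ^ 3) = p ^ 3 * (16 * a ^ 3) := by ring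
          _ ≤ _ := this
          _ = _ := by ring
    · have hcop : Nat.Coprime p a := (Nat.Prime.coprime_iff_not_dvd hp).mpr hpa
      have ht : (p * a).totient = (p - 1) * a.totient := by
        rw [Nat.totient_mul hcop, Nat.totient_prime hp]
      by_cases hp33 : p = 3
      · subst hp33
        rw [ht, mul_pow, mul_pow]
        constructor
        · intro h3; exact absurd (dvd_mul_right 3 a) h3
        · intro _
          have := i1 hpa
          norm_num
          omega
      · have hp5 : 5 ≤ p := by omega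
        have hpp : p ^ 3 ≤ (p - 1) ^ 4 := by
          obtain ⟨k, rfl⟩ : ∃ k, p = 5 + k := ⟨p - 5, by omega⟩
          rw [show 5 + k - 1 = 4 + k by omega]
          have : (4 + k) ^ 4 = (5 + k) ^ 3 + (131 + 181 * k + 81 * k ^ 2 + 15 * k ^ 3 + k ^ 4) := by
            ring
          omega
        have h33 : 3 ∣ p * a ↔ 3 ∣ a := by
          constructor
          · intro h3
            rcases (Nat.Prime.dvd_mul Nat.prime_three).mp h3 with h4 | h4
            · exact absurd ((Nat.prime_dvd_prime_iff_eq Nat.prime_three hp).mp h4).symm hp33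
            · exact h4
          · intro h3; exact h3.mul_left p
        rw [ht, mul_pow, mul_pow, h33]
        constructor
        · intro h3
          exact Nat.mul_le_mul hpp (i1 h3)
        · intro h3
          have := Nat.mul_le_mul hpp (i2 h3)
          calc 16 * (p ^ 3 * a ^ 3) = p ^ 3 * (16 * a ^ 3) := by ring
            _ ≤ _ := this
            _ = _ := by ring

theorem tot_bound (n : ℕ) (h : n % 2 = 1) : (n : ℝ) ^ (3 / 4 : ℝ) ≤ 2 * (n.totient : ℝ) := by
  obtain ⟨h1, h2⟩ := tot_aux n h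
  have h3 : n ^ 3 ≤ 16 * n.totient ^ 4 := by
    by_cases h4 : 3 ∣ n
    · have := h2 h4; omega
    · have := h1 h4; omega
  have h4 : (n : ℝ) ^ 3 ≤ (2 * (n.totient : ℝ)) ^ 4 := by
    have : ((n ^ 3 : ℕ) : ℝ) ≤ ((16 * n.totient ^ 4 : ℕ) : ℝ) := by exact_mod_cast h3
    push_cast at this
    calc (n : ℝ) ^ 3 ≤ 16 * (n.totient : ℝ) ^ 4 := this
      _ = _ := by ring
  have h5 : ((n : ℝ) ^ (3 / 4 : ℝ)) ^ 4 = (n : ℝ) ^ 3 := by
    rw [← Real.rpow_natCast, ← Real.rpow_mul (by positivity), ← Real.rpow_natCast]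
    norm_num
  rw [← h5] at h4
  exact le_of_pow_le_pow_left₀ (by norm_num) (by positivity) h4

lemma N_add (p : ℕ) (hp : Odd p) (h1 : 1 < p) : N p + Nbar p = p.totient := by
  rw [N, Nbar, M_eq p hp h1, Mbar_eq p hp h1, Set.ncard_coe_finset, Set.ncard_coe_finset,
    Nat.totient_eq_card_coprime, ← Finset.card_union_of_disjoint]
  · congr 1
    ext n
    rw [F, F, Finset.mem_union, Finset.mem_filter, Finset.mem_filter, Finset.mem_filter]
    constructor
    · rintro (⟨h2, h3, -⟩ | ⟨h2, h3, -⟩)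
      · exact ⟨h2, h3.symm⟩
      · exact ⟨h2, h3.symm⟩
    · rintro ⟨h2, h3⟩
      have hg : Int.gcd (n : ℤ) (p : ℤ) = 1 := by
        rw [Int.gcd_natCast_natCast]; exact h3.symm
      have hs : sg p (iv p n) = 1 ∨ sg p (iv p n) = -1 := by
        unfold sg; split_ifs <;> simp
      rcases jacobiSym.eq_one_or_neg_one hg with h4 | h4 <;> rcases hs with h5 | h5
      · right; exact ⟨h2, h3.symm, by rw [h4, h5]; norm_num⟩
      · left; exact ⟨h2, h3.symm, by rw [h4, h5]; norm_num⟩
      · left; exact ⟨h2, h3.symm, by rw [h4, h5]; norm_num⟩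
      · right; exact ⟨h2, h3.symm, by rw [h4, h5]; norm_num⟩
  · rw [Finset.disjoint_left]
    intro n h2 h3
    rw [F, Finset.mem_filter] at h2 h3
    have hs : sg p (iv p n) = 1 ∨ sg p (iv p n) = -1 := by
      unfold sg; split_ifs <;> simp
    have h4 := h2.2.2
    rw [h3.2.2] at h4
    rcases hs with h5 | h5 <;> rw [h5] at h4 <;> norm_num at h4

lemma A_hc (p : ℕ) (h1 : 1 < p) : A p = hc p 1 - hc p (-1) := by
  have e : ∀ m : ℕ, jacobiSym m p = (if jacobiSym m p = 1 then 1 else 0) -
      (if jacobiSym m p = -1 then 1 else 0) := by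
    intro m
    rcases jacobiSym.trichotomy m p with h | h | h <;> rw [h] <;> norm_num
  rw [A, Finset.sum_congr rfl (fun m _ => e m), Finset.sum_sub_distrib, Finset.sum_boole,
    Finset.sum_boole, hc, hc]

theorem diff (p : ℕ) (h3 : p % 4 = 3) : (Nbar p : ℤ) - N p = 2 * A p := by
  have hp : Odd p := Nat.odd_iff.mpr (by omega)
  rw [N_eq p hp (by omega), Nbar_eq p hp (by omega), jac_neg_one h3, A_hc p (by omega), neg_neg]
  push_cast
  ring

theorem N_le (p : ℕ) (h3 : p % 4 = 3) : N p ≤ Nbar p := by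
  have h := diff p h3
  have h2 := A_nonneg p h3
  omega

theorem two_le_N (p : ℕ) (h3 : p % 4 = 3) (hp3 : 3 < p) : 2 ≤ N p := by
  have hp : Odd p := Nat.odd_iff.mpr (by omega)
  rw [N_eq p hp (by omega), jac_neg_one h3]
  have : 0 < hc p (-1) := by
    rw [hc, Finset.card_pos]
    have hg : Int.gcd (2 : ℤ) (p : ℤ) = 1 := by
      have : Int.gcd ((2 : ℕ) : ℤ) (p : ℤ) = 1 := by
        rw [Int.gcd_natCast_natCast]
        exact (Nat.coprime_two_left).mpr hp
      exact_mod_cast this
    rcases jacobiSym.eq_one_or_neg_one hg with h4 | h4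
    · refine ⟨(p - 1) / 2, ?_⟩
      rw [Finset.mem_filter, Finset.mem_range]
      refine ⟨by omega, ?_⟩
      have h5 : jacobiSym ((2 * ((p - 1) / 2) : ℕ) : ℤ) p = -1 := by
        rw [show 2 * ((p - 1) / 2) = p - 1 by omega, jac_refl h3 1 (by omega), Nat.cast_one,
          jacobiSym.one_left]
      push_cast at h5
      rw [jacobiSym.mul_left, h4, one_mul] at h5
      exact_mod_cast h5
    · refine ⟨2, ?_⟩
      rw [Finset.mem_filter, Finset.mem_range]
      exact ⟨by omega, by exact_mod_cast h4⟩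
  omega

theorem eq_of_one (p : ℕ) (h1 : p % 4 = 1) (hp1 : 1 < p) : N p = Nbar p := by
  have hp : Odd p := Nat.odd_iff.mpr (by omega)
  have h : jacobiSym (-1) p = 1 := by
    rw [jacobiSym.at_neg_one hp, ZMod.χ₄_nat_one_mod_four h1]
  rw [N_eq p hp hp1, Nbar_eq p hp hp1, h]
  exact add_comm _ _

theorem ratio_bound (p : ℕ) (hp : p % 2 = 1) (hp1 : 1 < p) :
    |(N p : ℝ) / Nbar p - 1| ≤ 88 * (p : ℝ) ^ (-(1 / 8) : ℝ) := by
  have hodd : Odd p := Nat.odd_iff.mpr hp
  have hsum := N_add p hodd hp1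
  have htp : 0 < p.totient := Nat.totient_pos.mpr (by omega)
  have hp0 : (0 : ℝ) < p := by exact_mod_cast (by omega : 0 < p)
  rcases (by omega : p % 4 = 1 ∨ p % 4 = 3) with h | h
  · rw [eq_of_one p h hp1] at hsum ⊢
    have : (Nbar p : ℝ) ≠ 0 := by
      have : Nbar p ≠ 0 := by omega
      exact_mod_cast this
    rw [div_self this, sub_self, abs_zero]
    positivity
  · have hd := diff p h
    have hle := N_le p h
    have hA0 := A_nonneg p h
    have hA := A_le p h
    have htb := tot_bound p hp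
    have hNb : (p.totient : ℝ) ≤ 2 * Nbar p := by
      have : p.totient ≤ 2 * Nbar p := by omega
      exact_mod_cast this
    have htr : (0 : ℝ) < p.totient := by exact_mod_cast htp
    have hNb0 : (0 : ℝ) < Nbar p := by linarith
    have e : (N p : ℝ) / Nbar p - 1 = -(2 * (A p : ℝ) / Nbar p) := by
      have h5 : (Nbar p : ℝ) - N p = 2 * A p := by exact_mod_cast hd
      rw [← h5]
      field_simp
      ring
    have hA0' : (0 : ℝ) ≤ A p := by exact_mod_cast hA0
    rw [e, abs_neg, abs_of_nonneg (by positivity), div_le_iff₀ hNb0]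
    have h6 : (p : ℝ) ^ (5 / 8 : ℝ) = (p : ℝ) ^ (-(1 / 8) : ℝ) * (p : ℝ) ^ (3 / 4 : ℝ) := by
      rw [← Real.rpow_add hp0]
      norm_num
    have h7 : (0 : ℝ) ≤ (p : ℝ) ^ (-(1 / 8) : ℝ) := by positivity
    have h8 : (p : ℝ) ^ (3 / 4 : ℝ) ≤ 4 * Nbar p := by linarith
    calc 2 * (A p : ℝ) ≤ 2 * (11 * (p : ℝ) ^ (5 / 8 : ℝ)) := by linarith
      _ = 22 * (p : ℝ) ^ (-(1 / 8) : ℝ) * (p : ℝ) ^ (3 / 4 : ℝ) := by rw [h6]; ring
      _ ≤ 22 * (p : ℝ) ^ (-(1 / 8) : ℝ) * (4 * Nbar p) := by gcongr
      _ = _ := by ring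

/-- the limit of the ratio -/
theorem ratio_tendsto :
    Tendsto (fun k : ℕ => (N (2 * k + 1) : ℝ) / Nbar (2 * k + 1)) atTop (𝓝 1) := by
  rw [tendsto_iff_norm_sub_tendsto_zero]
  have h1 : Tendsto (fun k : ℕ => 88 * ((2 * k + 1 : ℕ) : ℝ) ^ (-(1 / 8) : ℝ)) atTop (𝓝 0) := by
    have h2 : Tendsto (fun k : ℕ => ((2 * k + 1 : ℕ) : ℝ)) atTop atTop := by
      apply tendsto_natCast_atTop_atTop.comp
      exact tendsto_atTop_mono (fun k => by simp only [id]; omega) tendsto_id
    have h3 := (tendsto_rpow_neg_atTop (by norm_num : (0 : ℝ) < 1 / 8)).comp h2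
    simpa using h3.const_mul 88
  refine squeeze_zero' (Eventually.of_forall fun _ => norm_nonneg _) ?_ h1
  filter_upwards [eventually_ge_atTop 1] with k hk
  rw [Real.norm_eq_abs]
  exact ratio_bound (2 * k + 1) (by omega) (by omega)

end Pool.Agent.V11306.Cao
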