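import Mathlib
import Pool.Agent.V11306.Cao4

/-!
# The quadratic character attached to `ℚ(√-p)`, `p ≡ 1 (mod 4)`
-/

set_option autoImplicit false
set_option linter.all false

namespace Pool.Agent.V11306.H4

open Finset

open Pool.Agent.Helper184.Chapman (chi chi_apply chi_sq)
open Pool.Agent.V11306.Toep Pool.Agent.V11306.Cao

/-- the character on naturals -/
def f4 (p n : ℕ) : ℤ := ZMod.χ₄ (n : ZMod 4) * jacobiSym n p

variable {p : ℕ} [hpf : Fact p.Prime]

instance : NeZero (4 * p) := ⟨by have := hpf.out.pos; omega⟩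

lemma f4_mul (a b : ℕ) : f4 p (a * b) = f4 p a * f4 p b := by
  rw [f4, f4, f4]
  push_cast
  rw [map_mul, jacobiSym.mul_left]
  ring

omit hpf in
lemma f4_congr {a b : ℕ} (h : a ≡ b [MOD (4 * p)]) : f4 p a = f4 p b := by
  rw [f4, f4]
  congr 1
  · congr 1
    rw [ZMod.natCast_eq_natCast_iff]
    exact h.of_mul_right p
  · apply jacobiSym.mod_left'
    have := (h.of_mul_left 4)
    exact_mod_cast this

/-- the character on `ZMod (4 p)` -/
def J4 (u : ZMod (4 * p)) : ℤ := f4 p u.val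

lemma J4_nat (a : ℕ) : J4 (a : ZMod (4 * p)) = f4 p a := by
  rw [J4, ZMod.val_natCast]
  exact f4_congr (Nat.mod_modEq _ _)

lemma J4_mul (u v : ZMod (4 * p)) : J4 (u * v) = J4 u * J4 v := by
  conv_lhs => rw [← ZMod.natCast_zmod_val u, ← ZMod.natCast_zmod_val v, ← Nat.cast_mul]
  rw [J4_nat, f4_mul]
  rfl

lemma J4_one : J4 (1 : ZMod (4 * p)) = 1 := by
  have := J4_nat (p := p) 1
  rw [Nat.cast_one] at this
  rw [this, f4]
  simp

lemma f4_cop {a : ℕ} (h : f4 p a ≠ 0) : Nat.Coprime a (4 * p) := by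
  rw [f4] at h
  have h1 := left_ne_zero_of_mul h
  have h2 := right_ne_zero_of_mul h
  apply Nat.Coprime.mul_right
  · by_contra hc
    apply h1
    have h3 : a % 2 = 0 := by
      by_contra h4
      apply hc
      have : Nat.Coprime a 2 := by
        rw [Nat.coprime_comm, Nat.Prime.coprime_iff_not_dvd Nat.prime_two]
        omega
      exact (this.mul_right this)
    have h5 : (a : ZMod 4) = ((a % 4 : ℕ) : ZMod 4) := by simp
    rw [h5]
    have : a % 4 = 0 ∨ a % 4 = 2 := by omega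
    rcases this with h | h <;> rw [h] <;> decide
  · by_contra hc
    apply h2
    rw [jacobiSym.eq_zero_iff_not_coprime, Int.gcd_natCast_natCast]
    exact hc

lemma J4_nonunit (u : ZMod (4 * p)) (h : ¬ IsUnit u) : J4 u = 0 := by
  by_contra h0
  apply h
  rw [← ZMod.natCast_zmod_val u]
  exact (ZMod.isUnit_iff_coprime _ _).mpr (f4_cop h0)

/-- the Dirichlet character -/
noncomputable def X4 : DirichletCharacter ℂ (4 * p) where
  toFun u := ((J4 u : ℤ) : ℂ)
  map_one' := by rw [J4_one]; simp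
  map_mul' u v := by rw [J4_mul]; push_cast; rfl
  map_nonunit' u h := by rw [J4_nonunit u h]; simp

lemma X4_apply (u : ZMod (4 * p)) : X4 u = ((J4 u : ℤ) : ℂ) := rfl

lemma X4_nat (a : ℕ) : X4 (a : ZMod (4 * p)) = ((f4 p a : ℤ) : ℂ) := by rw [X4_apply, J4_nat]

lemma chi4_three : ZMod.χ₄ 3 = -1 := by decide

lemma std4 (n : ℕ) : (ZMod.stdAddChar (n : ZMod 4) : ℂ) = Complex.I ^ n := by
  have hI : Complex.exp (Real.pi / 2 * Complex.I) ^ n = Complex.I ^ n := by
    rw [Complex.exp_pi_div_two_mul_I]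
  rw [std_exp', ← hI, ← Complex.exp_nat_mul]
  congr 1
  push_cast
  ring

lemma gauss4 (k : ℕ) : ∑ x : ZMod 4, ((ZMod.χ₄ x : ℤ) : ℂ) * ZMod.stdAddChar ((k : ZMod 4) * x) =
    ((ZMod.χ₄ (k : ZMod 4) : ℤ) : ℂ) * (2 * Complex.I) := by
  have e : ∀ x : ZMod 4, (ZMod.stdAddChar ((k : ZMod 4) * x) : ℂ) = (Complex.I ^ k) ^ x.val := by
    intro x
    have : (k : ZMod 4) * x = ((k * x.val : ℕ) : ZMod 4) := by push_cast; rw [ZMod.natCast_zmod_val]
    rw [this, std4, pow_mul]
  rw [Finset.sum_congr rfl (fun x _ => by rw [e x])]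
  have h : ∀ f : ZMod 4 → ℂ, ∑ x : ZMod 4, f x = f 0 + f 1 + f 2 + f 3 := fun f =>
    Fin.sum_univ_four f
  rw [h]
  have v0 : ZMod.χ₄ 0 = 0 := by decide
  have v1 : ZMod.χ₄ 1 = 1 := by decide
  have v2 : ZMod.χ₄ 2 = 0 := by decide
  have v3 : ZMod.χ₄ 3 = -1 := by decide
  have w1 : (1 : ZMod 4).val = 1 := rfl
  have w3 : (3 : ZMod 4).val = 3 := rfl
  rw [v0, v1, v2, v3, w1, w3]
  have hk : Complex.I ^ k = Complex.I ^ (k % 4) := (Complex.I_pow_eq_pow_mod k)
  have h5 : (k : ZMod 4) = ((k % 4 : ℕ) : ZMod 4) := by simp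
  rw [hk, h5]
  have hlt : k % 4 < 4 := Nat.mod_lt _ (by norm_num)
  have hI := Complex.I_sq
  have hI3 : Complex.I ^ 3 = -Complex.I := Complex.I_pow_three
  have hI9 : (Complex.I ^ 3) ^ 3 = Complex.I := by rw [hI3]; linear_combination (-Complex.I) * hI
  interval_cases (k % 4)
  · simp [v0]
  · rw [Nat.cast_one, v1, pow_one, pow_one, hI3]
    push_cast
    ring
  · have hc : ((2 : ℕ) : ZMod 4) = 2 := rfl
    rw [hc, v2, hI]
    push_cast
    ring
  · have hc : ((3 : ℕ) : ZMod 4) = 3 := rfl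
    rw [hc, v3, hI9, hI3]
    push_cast
    ring

/-- the Gauss sum with all shifts -/
lemma gaussX4 (h1 : p % 4 = 1) (k : ℕ) :
    ∑ u : ZMod (4 * p), ((J4 u : ℤ) : ℂ) * ZMod.stdAddChar ((k : ZMod (4 * p)) * u) =
      ((f4 p k : ℤ) : ℂ) * (2 * Complex.I * Real.sqrt p) := by
  have hp2 : p ≠ 2 := by rintro rfl; omega
  have hpr := hpf.out
  have hcop : Nat.Coprime 4 p := by
    rw [Nat.coprime_comm]
    have : Nat.Coprime p 2 := by
      rw [Nat.coprime_primes hpr Nat.prime_two]; exact hp2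
    exact this.mul_right this
  have h0 : (4 : ℂ) ≠ 0 := by norm_num
  have hp0 : (p : ℂ) ≠ 0 := by exact_mod_cast hpr.ne_zero
  have hG := G_prime p hp2 k
  rw [G, eps, if_pos h1, one_mul] at hG
  have hg4 := gauss4 k
  have e0 : ((f4 p k : ℤ) : ℂ) * (2 * Complex.I * Real.sqrt p) =
      (((ZMod.χ₄ (k : ZMod 4) : ℤ) : ℂ) * (2 * Complex.I)) *
        (((jacobiSym k p : ℤ) : ℂ) * Real.sqrt p) := by
    rw [f4]; push_cast; ring
  rw [e0, ← hG, ← hg4, ← (crt_bij 4 p hcop).sum_comp, Fintype.sum_prod_type, Finset.sum_mul_sum]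
  refine Finset.sum_congr rfl fun x _ => ?_
  refine Finset.sum_congr rfl fun y _ => ?_
  have e1 : J4 (crt 4 p (x, y)) = ZMod.χ₄ x * J p y := by
    rw [crt, J4_nat, f4]
    have e2 : ((p * x.val + 4 * y.val : ℕ) : ZMod 4) = x := by
      have hp4 : (p : ZMod 4) = 1 := by
        have : (p : ZMod 4) = ((p % 4 : ℕ) : ZMod 4) := by simp
        rw [this, h1]; rfl
      have h44 : (4 : ZMod 4) = 0 := by decide
      push_cast
      rw [hp4, h44, ZMod.natCast_zmod_val]
      ring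
    have e3 : jacobiSym ((p * x.val + 4 * y.val : ℕ) : ℤ) p = J p y := by
      have e4 : jacobiSym ((p * x.val + 4 * y.val : ℕ) : ℤ) p = jacobiSym (((2 : ℤ) ^ 2) * y.val) p := by
        apply jacobiSym.mod_left'
        push_cast
        simp
      rw [e4, J, jacobiSym.mul_left, jacobiSym.pow_left, jacobiSym.sq_one, one_mul]
      have hg : Nat.gcd 2 p = 1 := by
        have : Nat.Coprime 2 p := (Nat.coprime_primes Nat.prime_two hpr).mpr (Ne.symm hp2)
        exact this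
      exact_mod_cast hg
    rw [e2, e3]
  have e4 : (ZMod.stdAddChar ((k : ZMod (4 * p)) * crt 4 p (x, y)) : ℂ) =
      ZMod.stdAddChar ((k : ZMod 4) * x) * ZMod.stdAddChar ((k : ZMod p) * y) := by
    have e5 : (k : ZMod 4) * x = ((k * x.val : ℕ) : ZMod 4) := by
      push_cast; rw [ZMod.natCast_zmod_val]
    have e6 : (k : ZMod p) * y = ((k * y.val : ℕ) : ZMod p) := by
      push_cast; rw [ZMod.natCast_zmod_val]
    rw [crt, ← Nat.cast_mul, e5, e6, std_exp', std_exp', std_exp', ← Complex.exp_add]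
    congr 1
    push_cast
    field_simp
  rw [e1, e4]
  push_cast
  ring

lemma hsep (h1 : p % 4 = 1) (n : ℕ) : X4 (n : ZMod (4 * p)) * (2 * Complex.I * Real.sqrt p) =
    ∑ u : ZMod (4 * p), X4 u * (ZMod.stdAddChar u : ℂ) ^ n := by
  rw [X4_nat, ← gaussX4 h1 n]
  refine Finset.sum_congr rfl fun u _ => ?_
  rw [X4_apply, CnfC.std_mul_nat]

lemma f4_neg_one (h1 : p % 4 = 1) : f4 p (4 * p - 1) = -1 := by
  have hp0 := hpf.out.pos
  have hp4 : ((4 * p - 1 : ℕ) : ZMod 4) = 3 := by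
    have : ((4 * p - 1 : ℕ) : ZMod 4) = (((4 * p - 1) % 4 : ℕ) : ZMod 4) := by simp
    rw [this, show (4 * p - 1) % 4 = 3 by omega]; rfl
  have hpp : (p : ZMod 4) = 1 := by
    have : (p : ZMod 4) = ((p % 4 : ℕ) : ZMod 4) := by simp
    rw [this, h1]; rfl
  have hj : jacobiSym ((4 * p - 1 : ℕ) : ℤ) p = 1 := by
    have : jacobiSym ((4 * p - 1 : ℕ) : ℤ) p = jacobiSym (-1) p := by
      apply jacobiSym.mod_left'
      rw [Nat.cast_sub (by omega)]
      push_cast
      rw [sub_eq_neg_add, Int.add_mul_emod_self_right]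
    rw [this, jacobiSym.at_neg_one (by rw [Nat.odd_iff]; omega), hpp]
    decide
  rw [f4, hp4, hj, chi4_three]
  norm_num

lemma f4_one_add (h1 : p % 4 = 1) : f4 p (1 + 2 * p) = -1 := by
  have hp4 : ((1 + 2 * p : ℕ) : ZMod 4) = 3 := by
    have : ((1 + 2 * p : ℕ) : ZMod 4) = (((1 + 2 * p) % 4 : ℕ) : ZMod 4) := by simp
    rw [this, show (1 + 2 * p) % 4 = 3 by omega]; rfl
  have hj : jacobiSym ((1 + 2 * p : ℕ) : ℤ) p = 1 := by
    have : jacobiSym ((1 + 2 * p : ℕ) : ℤ) p = jacobiSym 1 p := by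
      apply jacobiSym.mod_left'
      push_cast
      simp
    rw [this, jacobiSym.one_left]
  rw [f4, hp4, hj, chi4_three]
  norm_num

lemma X4_ne (h1 : p % 4 = 1) : (X4 : DirichletCharacter ℂ (4 * p)) ≠ 1 := by
  intro h
  have h2 := X4_nat (p := p) (1 + 2 * p)
  rw [h, f4_one_add h1, MulChar.one_apply] at h2
  · norm_num at h2
  · rw [ZMod.isUnit_iff_coprime]
    exact f4_cop (by rw [f4_one_add h1]; norm_num)

lemma X4_odd (h1 : p % 4 = 1) : (X4 : DirichletCharacter ℂ (4 * p)) (-1) = -1 := by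
  have hp0 := hpf.out.pos
  have h2 : (-1 : ZMod (4 * p)) = ((4 * p - 1 : ℕ) : ZMod (4 * p)) := by
    rw [Nat.cast_sub (by omega)]
    simp
  rw [h2, X4_nat, f4_neg_one h1]
  norm_num

/-- the value at `1` -/
lemma L_X4 (h1 : p % 4 = 1) : DirichletCharacter.LFunction (X4 (p := p)) 1 *
    (2 * Complex.I * Real.sqrt p) =
    -(Complex.I * Real.pi / (4 * p : ℕ)) * ∑ u : ZMod (4 * p), X4 u * (u.val : ℂ) :=
  L_odd X4 _ (hsep h1) (X4_ne h1) (X4_odd h1)

lemma f4_nonres (h1 : p % 4 = 1) : ∃ n : ℕ, n % 4 = 1 ∧ f4 p n = -1 := by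
  have hp2 : p ≠ 2 := by rintro rfl; omega
  have hcop : Nat.Coprime 4 p := by
    rw [Nat.coprime_comm]
    have : Nat.Coprime p 2 := by
      rw [Nat.coprime_primes hpf.out Nat.prime_two]; exact hp2
    exact this.mul_right this
  obtain ⟨c, hc⟩ := quadraticChar_exists_neg_one (F := ZMod p)
    (by rw [ZMod.ringChar_zmod_n]; exact hp2)
  obtain ⟨n, hn1, hn2⟩ := Nat.chineseRemainder hcop 1 c.val
  refine ⟨n, hn1, ?_⟩
  have e1 : (n : ZMod 4) = 1 := by
    have := (ZMod.natCast_eq_natCast_iff n 1 4).mpr hn1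
    rw [this, Nat.cast_one]
  have e2 : (n : ZMod p) = c := by
    have := (ZMod.natCast_eq_natCast_iff n c.val p).mpr hn2
    rw [this, ZMod.natCast_zmod_val]
  rw [f4, e1, ← jacobiSym.legendreSym.to_jacobiSym, legendreSym]
  push_cast
  rw [e2, hc, map_one]
  norm_num

lemma X4_conductor (h1 : p % 4 = 1) : (X4 (p := p)).conductor = 4 * p := by
  have hd := (X4 (p := p)).conductor_dvd_level
  have hp0 := hpf.out.pos
  have key : ∀ n : ℕ, f4 p n = -1 → 1 ≤ n → (X4 (p := p)).conductor ∣ n - 1 → False := by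
    intro n hn h1n hdv
    have hcop := f4_cop (p := p) (a := n) (by rw [hn]; norm_num)
    have h2 := X4_nat (p := p) n
    have h3 := (X4 (p := p)).primitiveCharacter_apply_of_isCoprime (a := (n : ℤ))
      (by exact_mod_cast Nat.isCoprime_iff_coprime.mpr hcop)
    have h4 : ((n : ℤ) : ZMod (X4 (p := p)).conductor) = 1 := by
      have : ((n - 1 : ℕ) : ZMod (X4 (p := p)).conductor) = 0 :=
        (ZMod.natCast_eq_zero_iff _ _).mpr hdv
      rw [Nat.cast_sub h1n, Nat.cast_one, sub_eq_zero] at this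
      rw [Int.cast_natCast, this]
    rw [h4, map_one, Int.cast_natCast, h2, hn] at h3
    norm_num at h3
  by_contra hne
  obtain ⟨k, hk⟩ := hd
  have hk1 : k ≠ 1 := by rintro rfl; apply hne; rw [mul_one] at hk; exact hk.symm
  obtain ⟨q, hq, hqk⟩ := Nat.exists_prime_and_dvd hk1
  obtain ⟨j, rfl⟩ := hqk
  have hq2 : q ∣ 4 * p := ⟨(X4 (p := p)).conductor * j, by linarith⟩
  rcases (Nat.Prime.dvd_mul hq).mp hq2 with h | h
  · have hq2 : q = 2 := by
      have h3 : q ∣ 2 ^ 2 := by simpa using h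
      exact (Nat.prime_dvd_prime_iff_eq hq Nat.prime_two).mp (hq.dvd_of_dvd_pow h3)
    subst hq2
    apply key (1 + 2 * p) (f4_one_add h1) (by omega)
    refine ⟨j, ?_⟩
    have : 4 * p = 2 * ((X4 (p := p)).conductor * j) := by
      rw [mul_left_comm] at hk
      linarith
    omega
  · have hqp : q = p := (Nat.prime_dvd_prime_iff_eq hq hpf.out).mp h
    subst hqp
    obtain ⟨n, hn1, hn2⟩ := f4_nonres h1
    apply key n hn2 (by omega)
    have h4 : (X4 (p := q)).conductor ∣ 4 := by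
      refine ⟨j, ?_⟩
      have : q * 4 = q * ((X4 (p := q)).conductor * j) := by
        linarith
      exact Nat.eq_of_mul_eq_mul_left hp0 this
    exact h4.trans (by omega)

end Pool.Agent.V11306.H4
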