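import Mathlib
import Pool.Agent.V11306.H4a

/-!
# The sum of the character attached to `ℚ(√-p)`, `p ≡ 1 (mod 4)`
-/

set_option autoImplicit false
set_option linter.all false

namespace Pool.Agent.V11306.H4

open Finset

variable {p : ℕ} [hpf : Fact p.Prime]

/-- the quarter sum -/
def QQ (p : ℕ) : ℤ := ∑ k ∈ range ((p - 1) / 4 + 1), jacobiSym k p

lemma chi4_add_two (a : ZMod 4) : ZMod.χ₄ (a + 2) = - ZMod.χ₄ a := by
  revert a; decide

lemma f4_add (h1 : p % 4 = 1) (n : ℕ) : f4 p (n + 2 * p) = - f4 p n := by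
  have e1 : ((n + 2 * p : ℕ) : ZMod 4) = (n : ZMod 4) + 2 := by
    have hpp : (p : ZMod 4) = 1 := by
      have : (p : ZMod 4) = ((p % 4 : ℕ) : ZMod 4) := by simp
      rw [this, h1]; rfl
    push_cast
    rw [hpp, mul_one]
  have e2 : jacobiSym ((n + 2 * p : ℕ) : ℤ) p = jacobiSym n p := by
    apply jacobiSym.mod_left'
    push_cast
    simp
  rw [f4, f4, e1, e2, chi4_add_two]
  ring

lemma jac_sub (h1 : p % 4 = 1) (n : ℕ) (hn : n ≤ p) : jacobiSym ((p - n : ℕ) : ℤ) p = jacobiSym n p := by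
  have hpp : (p : ZMod 4) = 1 := by
    have : (p : ZMod 4) = ((p % 4 : ℕ) : ZMod 4) := by simp
    rw [this, h1]; rfl
  have e1 : jacobiSym ((p - n : ℕ) : ℤ) p = jacobiSym ((-1) * n) p := by
    apply jacobiSym.mod_left'
    rw [Nat.cast_sub hn]
    rw [show ((-1 : ℤ) * n) = -n by ring, sub_eq_neg_add, Int.add_emod_right]
  rw [e1, jacobiSym.mul_left, jacobiSym.at_neg_one (by rw [Nat.odd_iff]; omega), hpp]
  have : ZMod.χ₄ 1 = 1 := by decide
  rw [this, one_mul]

lemma f4_refl (h1 : p % 4 = 1) (n : ℕ) (hn : n ≤ p) : f4 p (2 * p - n) = f4 p n := by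
  have hpp : (p : ZMod 4) = 1 := by
    have : (p : ZMod 4) = ((p % 4 : ℕ) : ZMod 4) := by simp
    rw [this, h1]; rfl
  have e0 : 2 * p - n = p + (p - n) := by omega
  have e1 : ZMod.χ₄ ((2 * p - n : ℕ) : ZMod 4) = ZMod.χ₄ (n : ZMod 4) := by
    rw [Nat.cast_sub (by omega)]
    push_cast
    rw [hpp]
    generalize (n : ZMod 4) = a
    revert a; decide
  have e2 : jacobiSym ((2 * p - n : ℕ) : ℤ) p = jacobiSym n p := by
    rw [← jac_sub h1 n hn]
    apply jacobiSym.mod_left'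
    rw [e0]
    push_cast
    simp
  rw [f4, f4, e1, e2]

/-- the residue class parts -/
def AA (p j : ℕ) : ℤ := ∑ n ∈ range p, if n % 4 = j then jacobiSym n p else 0

lemma jac_zero : jacobiSym ((0 : ℕ) : ℤ) p = 0 := by
  have hp1 := hpf.out.one_lt
  rw [jacobiSym.eq_zero_iff_not_coprime]
  simp
  omega

lemma sum_refl (F G : ℕ → ℤ) (hF : F 0 = 0) (hG : G 0 = 0)
    (h : ∀ n, 0 < n → n < p → F (p - n) = G n) :
    ∑ n ∈ range p, F n = ∑ n ∈ range p, G n := by
  have hp0 := hpf.out.pos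
  obtain ⟨q, hq⟩ : ∃ q, p = q + 1 := ⟨p - 1, by omega⟩
  rw [hq, Finset.sum_range_succ', Finset.sum_range_succ', hF, hG, add_zero, add_zero,
    ← Finset.sum_range_reflect]
  refine Finset.sum_congr rfl fun n hn => ?_
  rw [Finset.mem_range] at hn
  rw [← h (n + 1) (by omega) (by omega)]
  congr 1
  omega

lemma AA_refl (h1 : p % 4 = 1) (i j : ℕ) (hij : ∀ n : ℕ, n < p → ((p - n) % 4 = i ↔ n % 4 = j)) :
    AA p i = AA p j := by
  rw [AA, AA]
  apply sum_refl
  · rw [jac_zero]; simp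
  · rw [jac_zero]; simp
  · intro n hn0 hn
    rw [jac_sub h1 n hn.le]
    have := hij n hn
    by_cases h : n % 4 = j
    · rw [if_pos h, if_pos (this.mpr h)]
    · rw [if_neg h, if_neg (fun h' => h (this.mp h'))]

lemma sum_four (F : ℕ → ℤ) (hF : ∀ n, n % 4 ≠ 0 → F n = 0) (t : ℕ) :
    ∑ n ∈ range (4 * t + 1), F n = ∑ k ∈ range (t + 1), F (4 * k) := by
  induction t with
  | zero => simp
  | succ t ih =>
    rw [Finset.sum_range_succ _ (t + 1), ← ih]
    have e : 4 * (t + 1) + 1 = 4 * t + 1 + 1 + 1 + 1 + 1 := by ring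
    rw [e, Finset.sum_range_succ, Finset.sum_range_succ, Finset.sum_range_succ,
      Finset.sum_range_succ, hF (4 * t + 1) (by omega), hF (4 * t + 1 + 1) (by omega),
      hF (4 * t + 1 + 1 + 1) (by omega)]
    ring

lemma AA_zero (h1 : p % 4 = 1) : AA p 0 = QQ p := by
  have hp2 : p ≠ 2 := by rintro rfl; omega
  obtain ⟨t, ht⟩ : ∃ t, p = 4 * t + 1 := ⟨p / 4, by omega⟩
  rw [AA, QQ]
  have e1 : (p - 1) / 4 + 1 = t + 1 := by omega
  rw [e1]
  conv_lhs => rw [ht]
  rw [sum_four _ (fun n hn => by rw [if_neg hn])]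
  refine Finset.sum_congr rfl fun k _ => ?_
  rw [if_pos (by omega), ← ht]
  push_cast
  rw [show (4 : ℤ) = 2 ^ 2 by norm_num, jacobiSym.mul_left, jacobiSym.pow_left, jacobiSym.sq_one,
    one_mul]
  have hg : Nat.gcd 2 p = 1 := by
    have : Nat.Coprime 2 p := (Nat.coprime_primes Nat.prime_two hpf.out).mpr (Ne.symm hp2)
    exact this
  exact_mod_cast hg

lemma sum_jac (h1 : p % 4 = 1) : ∑ n ∈ range p, jacobiSym n p = 0 := by
  have hp2 : p ≠ 2 := by rintro rfl; omega
  have h := quadraticChar_sum_zero (F := ZMod p) (by rw [ZMod.ringChar_zmod_n]; exact hp2)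
  rw [← h]
  apply Finset.sum_bij (fun (n : ℕ) _ => (n : ZMod p))
  · intro a _; exact Finset.mem_univ _
  · intro a ha b hb hab
    rw [Finset.mem_range] at ha hb
    have := congrArg ZMod.val hab
    rwa [ZMod.val_natCast_of_lt ha, ZMod.val_natCast_of_lt hb] at this
  · intro b _
    exact ⟨b.val, Finset.mem_range.mpr (ZMod.val_lt b), by simp⟩
  · intro a _
    rw [← jacobiSym.legendreSym.to_jacobiSym, legendreSym]
    simp

lemma sum_f4 (h1 : p % 4 = 1) : ∑ n ∈ range p, f4 p n = 2 * QQ p := by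
  have hA1 : AA p 1 = AA p 0 := AA_refl h1 1 0 (by intro n hn; omega)
  have hA3 : AA p 3 = AA p 2 := AA_refl h1 3 2 (by intro n hn; omega)
  have hsum : AA p 0 + AA p 1 + AA p 2 + AA p 3 = 0 := by
    rw [← sum_jac h1, AA, AA, AA, AA, ← Finset.sum_add_distrib, ← Finset.sum_add_distrib,
      ← Finset.sum_add_distrib]
    refine Finset.sum_congr rfl fun n _ => ?_
    have : n % 4 = 0 ∨ n % 4 = 1 ∨ n % 4 = 2 ∨ n % 4 = 3 := by omega
    rcases this with h | h | h | h <;> rw [h] <;> norm_num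
  have hV : ∑ n ∈ range p, f4 p n = AA p 1 - AA p 3 := by
    rw [AA, AA, ← Finset.sum_sub_distrib]
    refine Finset.sum_congr rfl fun n _ => ?_
    have e1 : (n : ZMod 4) = ((n % 4 : ℕ) : ZMod 4) := by simp
    have v0 : ZMod.χ₄ ((0 : ℕ) : ZMod 4) = 0 := by decide
    have v1 : ZMod.χ₄ ((1 : ℕ) : ZMod 4) = 1 := by decide
    have v2 : ZMod.χ₄ ((2 : ℕ) : ZMod 4) = 0 := by decide
    have v3 : ZMod.χ₄ ((3 : ℕ) : ZMod 4) = -1 := by decide
    rw [f4, e1]
    have : n % 4 = 0 ∨ n % 4 = 1 ∨ n % 4 = 2 ∨ n % 4 = 3 := by omega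
    rcases this with h | h | h | h <;> rw [h] <;> simp only [v0, v1, v2, v3] <;> norm_num
  rw [hV, ← AA_zero h1]
  linarith

/-- the first moment -/
lemma moment (h1 : p % 4 = 1) : ∑ n ∈ range (4 * p), f4 p n * (n : ℤ) = -(8 * p * QQ p) := by
  have hp0 := hpf.out.pos
  have e0 : 4 * p = 2 * p + 2 * p := by ring
  have e1 : ∑ n ∈ range (2 * p), f4 p n = 4 * QQ p := by
    have e2 : 2 * p = p + p := by ring
    rw [e2, Finset.sum_range_add, sum_f4 h1]
    have e3 : ∑ n ∈ range p, f4 p (p + n) = ∑ n ∈ range p, f4 p n := by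
      apply sum_refl (F := fun n => f4 p (p + n)) (G := fun n => f4 p n)
      · simp only [add_zero]
        rw [f4]
        have : jacobiSym (p : ℤ) p = 0 := by
          rw [jacobiSym.eq_zero_iff_not_coprime]
          simp
          exact hpf.out.ne_one
        rw [this, mul_zero]
      · simp [f4]
      · intro n hn0 hn
        rw [← f4_refl h1 n hn.le]
        congr 1
        omega
    rw [e3, sum_f4 h1]
    ring
  rw [e0, Finset.sum_range_add]
  have e2 : ∑ n ∈ range (2 * p), f4 p (2 * p + n) * ((2 * p + n : ℕ) : ℤ) =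
      - ∑ n ∈ range (2 * p), f4 p n * (n : ℤ) - 2 * p * ∑ n ∈ range (2 * p), f4 p n := by
    rw [Finset.mul_sum, ← Finset.sum_neg_distrib, ← Finset.sum_sub_distrib]
    refine Finset.sum_congr rfl fun n _ => ?_
    rw [add_comm (2 * p) n, f4_add h1]
    push_cast
    ring
  rw [e2, e1]
  ring

lemma moment_X4 (h1 : p % 4 = 1) : ∑ u : ZMod (4 * p), X4 u * (u.val : ℂ) =
    ((-(8 * p * QQ p) : ℤ) : ℂ) := by
  rw [← moment h1]
  push_cast
  symm
  apply Finset.sum_bij (fun (n : ℕ) _ => (n : ZMod (4 * p)))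
  · intro a _; exact Finset.mem_univ _
  · intro a ha b hb hab
    rw [Finset.mem_range] at ha hb
    have := congrArg ZMod.val hab
    rwa [ZMod.val_natCast_of_lt ha, ZMod.val_natCast_of_lt hb] at this
  · intro b _
    exact ⟨b.val, Finset.mem_range.mpr (ZMod.val_lt b), by simp⟩
  · intro a ha
    rw [Finset.mem_range] at ha
    rw [X4_nat, ZMod.val_natCast_of_lt ha]

/-- the parity of the quarter sum -/
lemma QQ_parity (h1 : p % 4 = 1) : QQ p % 2 = ((p - 1) / 4 : ℕ) % 2 := by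
  have hp0 := hpf.out.pos
  have key : ∀ t : ℕ, t < p → (∑ k ∈ range (t + 1), jacobiSym k p) % 2 = (t : ℤ) % 2 := by
    intro t
    induction t with
    | zero =>
      intro _
      rw [zero_add, Finset.sum_range_one, jac_zero]
      rfl
    | succ t ih =>
      intro ht
      have h := ih (by omega)
      rw [Finset.sum_range_succ]
      have h3 : jacobiSym ((t + 1 : ℕ) : ℤ) p = 1 ∨ jacobiSym ((t + 1 : ℕ) : ℤ) p = -1 := by
        apply jacobiSym.eq_one_or_neg_one
        rw [Int.gcd_natCast_natCast]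
        exact (Nat.coprime_of_lt_prime (by omega) ht hpf.out).symm
      push_cast at h3 ⊢
      rcases h3 with h3 | h3 <;> rw [h3] <;> omega
  exact key _ (by omega)

/-- the value of `L(1)` -/
theorem L_val (h1 : p % 4 = 1) : DirichletCharacter.LFunction (X4 (p := p)) 1 * Real.sqrt p =
    Real.pi * (QQ p : ℂ) := by
  have h := L_X4 h1
  rw [moment_X4 h1] at h
  have hp0 : (p : ℂ) ≠ 0 := by exact_mod_cast hpf.out.ne_zero
  have h2 : (2 * Complex.I) * (DirichletCharacter.LFunction (X4 (p := p)) 1 * Real.sqrt p) =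
      (2 * Complex.I) * (Real.pi * (QQ p : ℂ)) := by
    calc _ = DirichletCharacter.LFunction (X4 (p := p)) 1 * (2 * Complex.I * Real.sqrt p) := by ring
      _ = _ := by
        rw [h]
        push_cast
        field_simp
        ring
  exact mul_left_cancel₀ (by simp) h2

end Pool.Agent.V11306.H4
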