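import Mathlib
import Pool.Agent.V11306.H4b
import Pool.Agent.V11306.CnfH

/-!
# The field `ℚ(√-p)`, `p ≡ 1 (mod 4)`: discriminant, units, residue
-/

set_option autoImplicit false
set_option linter.all false

namespace Pool.Agent.V11306.H4

open Finset NumberField NumberField.InfinitePlace NumberField.Units Polynomial

open Pool.Agent.V11306.CnfD Pool.Agent.V11306.CnfG

variable {p : ℕ} [hpf : Fact p.Prime] {K : Type} [Field K] [NumberField K]

lemma four_mod (a b : ℤ) : (a ^ 2 + 4 * b) % 4 = 0 ∨ (a ^ 2 + 4 * b) % 4 = 1 := by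
  rcases Int.even_or_odd' a with ⟨c, h | h⟩
  · left
    have : a ^ 2 + 4 * b = 4 * (c ^ 2 + b) := by rw [h]; ring
    omega
  · right
    have : a ^ 2 + 4 * b = 4 * (c ^ 2 + c + b) + 1 := by rw [h]; ring
    omega

theorem discr_four (h1 : p % 4 = 1) (h2 : Module.finrank ℚ K = 2) (α : K)
    (hα : α ^ 2 = -(p : K)) : discr K = -(4 * p) := by
  have hp0 := hpf.out.pos
  have hint : IsIntegral ℤ α := by
    refine ⟨X ^ 2 + C (p : ℤ), ?_, ?_⟩
    · monicity!
    · simp only [eval₂_add, eval₂_pow, eval₂_X, eval₂_C]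
      simp only [eq_intCast]
      rw [hα]
      push_cast
      ring
  obtain ⟨B, hB⟩ := exists_basis h2
  obtain ⟨ω, hω⟩ : ∃ ω : 𝓞 K, algebraMap (𝓞 K) K ω = α := ⟨⟨α, hint⟩, rfl⟩
  have hωsq : ω ^ 2 = ((-(p : ℤ) : ℤ) : 𝓞 K) := by
    apply RingOfIntegers.ext
    change algebraMap (𝓞 K) K (ω ^ 2) = algebraMap (𝓞 K) K _
    rw [map_pow, hω, hα]
    simp
  obtain ⟨s, t, hst⟩ : ∃ s t : ℤ, ω = (s : 𝓞 K) + (t : 𝓞 K) * B 1 := ⟨_, _, coords B hB ω⟩
  obtain ⟨b, a, hww⟩ : ∃ b a : ℤ, B 1 * B 1 = (b : 𝓞 K) + (a : 𝓞 K) * B 1 :=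
    ⟨_, _, coords B hB (B 1 * B 1)⟩
  have hd := disc_eq B hB a b hww
  have hrel : ((s ^ 2 + t ^ 2 * b + p : ℤ) : 𝓞 K) +
      ((2 * s * t + t ^ 2 * a : ℤ) : 𝓞 K) * B 1 = 0 := by
    rw [hst] at hωsq
    push_cast at hωsq ⊢
    linear_combination hωsq - (t : 𝓞 K) ^ 2 * hww
  obtain ⟨r1, r2⟩ := indep B hB _ _ hrel
  have ht0 : t ≠ 0 := by
    intro h0
    rw [h0] at r1
    have : (0 : ℤ) < p := by exact_mod_cast hp0
    nlinarith [sq_nonneg s]
  have h4 : 2 * s + t * a = 0 := by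
    have h5 : t * (2 * s + t * a) = 0 := by linear_combination r2
    exact (mul_eq_zero.mp h5).resolve_left ht0
  have h6 : t ^ 2 * discr K = -(4 * p) := by
    rw [hd]
    linear_combination (4 : ℤ) * r1 + (t * a - 2 * s) * h4
  have h6' : t.natAbs ^ 2 ∣ 4 * p := by
    have : t.natAbs ^ 2 = (t ^ 2).natAbs := by rw [Int.natAbs_pow]
    rw [this]
    have h7 : (4 * p : ℕ) = (-(4 * p : ℤ)).natAbs := by
      rw [Int.natAbs_neg]; rfl
    rw [h7]
    exact Int.natAbs_dvd_natAbs.mpr ⟨_, h6.symm⟩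
  have hsqf : ∀ n : ℕ, n ^ 2 ∣ p → n = 1 := by
    intro n hn
    by_contra hne
    obtain ⟨q, hq, hqd⟩ := Nat.exists_prime_and_dvd hne
    apply (Nat.squarefree_iff_prime_squarefree.mp hpf.out.squarefree) q hq
    rw [← sq]
    exact (pow_dvd_pow_of_dvd hqd 2).trans hn
  have ht2 : t ^ 2 = (t.natAbs : ℤ) ^ 2 := (Int.natAbs_sq t).symm
  rcases Nat.even_or_odd' t.natAbs with ⟨m, hm | hm⟩
  · exfalso
    have h8 : m ^ 2 ∣ p := by
      have : (2 * m) ^ 2 = 4 * m ^ 2 := by ring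
      rw [hm, this] at h6'
      exact Nat.dvd_of_mul_dvd_mul_left (by norm_num) h6'
    have h9 := hsqf m h8
    rw [h9] at hm
    rw [ht2, hm] at h6
    push_cast at h6
    have h10 : discr K = -p := by linarith
    rw [hd] at h10
    have h11 := four_mod a b
    rw [h10] at h11
    omega
  · have hcop : Nat.Coprime (t.natAbs ^ 2) 4 := by
      have : Nat.Coprime t.natAbs 2 := by
        rw [Nat.coprime_comm, Nat.Prime.coprime_iff_not_dvd Nat.prime_two]
        omega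
      have h22 : Nat.Coprime t.natAbs (2 ^ 2) := this.pow_right 2
      exact h22.pow_left 2
    have h8 := hsqf _ (hcop.dvd_of_dvd_mul_left h6')
    rw [ht2, h8] at h6
    push_cast at h6
    linarith

lemma unit_four (h1 : p % 4 = 1) (h2 : Module.finrank ℚ K = 2) (α : K)
    (hα : α ^ 2 = -(p : K)) (u : (𝓞 K)ˣ) : u = 1 ∨ u = -1 := by
  have hp5 : (5 : ℤ) ≤ p := by
    have := hpf.out.two_le
    have : 5 ≤ p := by omega
    exact_mod_cast this
  have hdisc := discr_four h1 h2 α hα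
  obtain ⟨B, hB⟩ := exists_basis h2
  obtain ⟨b, a, hww⟩ : ∃ b a : ℤ, B 1 * B 1 = (b : 𝓞 K) + (a : 𝓞 K) * B 1 :=
    ⟨_, _, coords B hB (B 1 * B 1)⟩
  have hd := disc_eq B hB a b hww
  obtain ⟨x, y, hxy⟩ : ∃ x y : ℤ, (u : 𝓞 K) = (x : 𝓞 K) + (y : 𝓞 K) * B 1 :=
    ⟨_, _, coords B hB u⟩
  have hnorm := norm_form B hB a b hww x y
  rw [← hxy] at hnorm
  have hunit : IsUnit (Algebra.norm ℤ (u : 𝓞 K)) := u.isUnit.map (Algebra.norm ℤ)
  have h17 : (2 * x + y * a) ^ 2 + 4 * p * y ^ 2 = 4 * Algebra.norm ℤ (u : 𝓞 K) := by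
    rw [hnorm]
    have : (4 * p : ℤ) = -(a ^ 2 + 4 * b) := by rw [← hd, hdisc]; ring
    rw [this]
    ring
  have hy : y = 0 := by
    by_contra hy
    have h3 : 1 ≤ y ^ 2 := by
      have := sq_nonneg y
      have h5 : y ^ 2 ≠ 0 := pow_ne_zero 2 hy
      omega
    have h5 := sq_nonneg (2 * x + y * a)
    rcases Int.isUnit_iff.mp hunit with h | h <;> rw [h] at h17 <;> nlinarith
  rw [hy] at h17 hxy
  have hx : x = 1 ∨ x = -1 := by
    rcases Int.isUnit_iff.mp hunit with h | h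
    · rw [h] at h17
      have h6 : (x - 1) * (x + 1) = 0 := by linarith
      rcases mul_eq_zero.mp h6 with h | h
      · left; omega
      · right; omega
    · rw [h] at h17
      nlinarith [sq_nonneg x]
  rcases hx with h | h
  · left
    apply Units.ext
    rw [hxy, h]; simp
  · right
    apply Units.ext
    rw [hxy, h]; simp

lemma torsion_four (h1 : p % 4 = 1) (h2 : Module.finrank ℚ K = 2) (α : K)
    (hα : α ^ 2 = -(p : K)) : torsionOrder K = 2 := by
  classical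
  let := Fintype.ofFinite (torsion K)
  rw [torsionOrder, Nat.card_eq_fintype_card]
  refine (Finset.card_eq_two.2 ⟨1, ⟨-1, neg_one_mem_torsion⟩,
    by simp [← Subtype.coe_ne_coe], Finset.ext fun x ↦ ⟨fun _ ↦ ?_, fun _ ↦ Finset.mem_univ _⟩⟩)
  rw [Finset.mem_insert, Finset.mem_singleton, ← Subtype.val_inj, ← Subtype.val_inj]
  exact unit_four h1 h2 α hα x.1

theorem residue_four (h1 : p % 4 = 1) (h2 : Module.finrank ℚ K = 2) (α : K)
    (hα : α ^ 2 = -(p : K)) :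
    2 * dedekindZeta_residue K * Real.sqrt p = Real.pi * classNumber K := by
  obtain ⟨r1, r2⟩ := CnfH.places h2 α hα
  rw [dedekindZeta_residue_def, r1, r2, torsion_four h1 h2 α hα, CnfH.regulator_one h2 α hα,
    discr_four h1 h2 α hα]
  have hs : Real.sqrt (p : ℝ) ≠ 0 := by
    rw [Real.sqrt_ne_zero']; exact_mod_cast hpf.out.pos
  have hs2 : Real.sqrt |((-(4 * (p : ℤ)) : ℤ) : ℝ)| = 2 * Real.sqrt p := by
    push_cast
    rw [abs_neg, abs_of_nonneg (by positivity), Real.sqrt_mul (by norm_num)]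
    congr 1
    rw [show (4 : ℝ) = 2 ^ 2 by norm_num]
    exact Real.sqrt_sq (by norm_num)
  rw [hs2]
  field_simp
  push_cast
  ring

end Pool.Agent.V11306.H4
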