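import Mathlib
import Pool.Agent.V11306.H4c

/-!
# The class number of `ℚ(√-p)`, `p ≡ 1 (mod 4)`
-/

set_option autoImplicit false
set_option linter.all false

namespace Pool.Agent.V11306.H4

open Finset NumberField Polynomial

open Pool.Agent.Helper184.Chapman (chi chi_apply chi_sq)
open Pool.Agent.V11306.Toep Pool.Agent.V11306.CnfA Pool.Agent.V11306.CnfB H300.HW
open IsCyclotomicExtension.Rat

variable {p : ℕ} [hpf : Fact p.Prime]

lemma Lp_X4 (h1 : p % 4 = 1) (s : ℂ) :
    Lp (4 * p) X4 s = DirichletCharacter.LFunction (X4 (p := p)) s := by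
  have hcond := X4_conductor h1
  have hprim : (X4 (p := p)).primitiveCharacter ≠ 1 := by
    intro h
    apply X4_ne h1
    have := (X4 (p := p)).changeLevel_primitiveCharacter
    rw [h, DirichletCharacter.changeLevel_one] at this
    exact this.symm
  have h3 := DirichletCharacter.LFunction_changeLevel (X4 (p := p)).conductor_dvd_level
    (X4 (p := p)).primitiveCharacter (s := s) (Or.inl hprim)
  rw [(X4 (p := p)).changeLevel_primitiveCharacter] at h3
  rw [h3, Lp, Finset.prod_eq_one, mul_one]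
  intro q hq
  have hqd := Nat.dvd_of_mem_primeFactors hq
  have hqp := Nat.prime_of_mem_primeFactors hq
  have h4 : (X4 (p := p)).primitiveCharacter (q : ZMod (X4 (p := p)).conductor) = 0 := by
    apply MulChar.map_nonunit
    rw [ZMod.isUnit_iff_coprime, hcond]
    intro hc
    have h5 : q ∣ Nat.gcd q (4 * p) := Nat.dvd_gcd dvd_rfl hqd
    rw [hc] at h5
    exact hqp.one_lt.ne' (Nat.dvd_one.mp h5)
  rw [h4, zero_mul, sub_zero]

section gal

variable (L : Type) [Field L] [NumberField L] [IsCyclotomicExtension {4 * p} ℚ L]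

lemma gal_beta (h1 : p % 4 = 1) : ∃ β : L, β ^ 2 = -(p : L) ∧ ∀ σ : Gal(L/ℚ),
    σ β = ((J4 ((galEquivZMod (4 * p) L σ : (ZMod (4 * p))ˣ) : ZMod (4 * p)) : ℤ) : L) * β := by
  have hp2 : p ≠ 2 := by rintro rfl; omega
  have hp0 := hpf.out.pos
  have hz := IsCyclotomicExtension.zeta_spec (4 * p) ℚ L
  set ζ := IsCyclotomicExtension.zeta (4 * p) ℚ L with hζ
  have hi : IsPrimitiveRoot (ζ ^ p) 4 := hz.pow (by omega) (by ring)
  have hξ : IsPrimitiveRoot (ζ ^ 4) p := hz.pow (by omega) (by ring)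
  obtain ⟨i, hie⟩ : ∃ i, i = ζ ^ p := ⟨_, rfl⟩
  rw [← hie] at hi
  have hi2 : i ^ 2 = -1 := by
    have : IsPrimitiveRoot (i ^ 2) 2 := hi.pow (by norm_num) (by norm_num)
    exact this.eq_neg_one_of_two_right
  set ψ : AddChar (ZMod p) L := AddChar.zmodChar p ((IsPrimitiveRoot.iff_def _ p).mp hξ).left with hψ
  have hprim : ψ.IsPrimitive := AddChar.zmodChar_primitive_of_primitive_root p hξ
  have hg := gs_sq hp2 (two_ne_zero : (2 : L) ≠ 0) hprim
  have hep : ep p L = 1 := by rw [CnfD.ep_eq, CnfD.ez_one h1]; simp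
  rw [hep, one_mul] at hg
  refine ⟨i * gs ψ, by linear_combination (gs ψ * gs ψ) * hi2 - hg, ?_⟩
  intro σ
  obtain ⟨a, ha⟩ : ∃ a : (ZMod (4 * p))ˣ, a = galEquivZMod (4 * p) L σ := ⟨_, rfl⟩
  rw [← ha]
  obtain ⟨n, hn⟩ : ∃ n : ℕ, n = (a : ZMod (4 * p)).val := ⟨_, rfl⟩
  have hcop : Nat.Coprime n (4 * p) := by
    rw [hn]; exact ZMod.val_coe_unit_coprime a
  have hn2 : n % 2 = 1 := by
    have h22 : Nat.Coprime n 2 := Nat.Coprime.coprime_dvd_right ⟨2 * p, by ring⟩ hcop
    rw [Nat.coprime_comm, Nat.Prime.coprime_iff_not_dvd Nat.prime_two] at h22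
    omega
  have hσi : σ i = ((ZMod.χ₄ (n : ZMod 4) : ℤ) : L) * i := by
    have e1 : i ^ (4 * p) = 1 := by rw [pow_mul, hi.pow_eq_one, one_pow]
    rw [galEquivZMod_apply_of_pow_eq (4 * p) L σ e1, ← ha, ← hn]
    obtain ⟨t, r, ht, hr⟩ : ∃ t r, n = 4 * t + r ∧ r < 4 := ⟨n / 4, n % 4, by omega, by omega⟩
    have e2 : (n : ZMod 4) = ((r : ℕ) : ZMod 4) := by
      rw [ht]; push_cast
      have h44 : (4 : ZMod 4) = 0 := by decide
      rw [h44]; ring
    rw [e2, ht, pow_add, pow_mul, hi.pow_eq_one, one_pow, one_mul]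
    have hr2 : r = 1 ∨ r = 3 := by omega
    rcases hr2 with h | h
    · rw [h]
      have v1 : ZMod.χ₄ ((1 : ℕ) : ZMod 4) = 1 := by decide
      rw [v1]; simp
    · rw [h]
      have v3 : ZMod.χ₄ ((3 : ℕ) : ZMod 4) = -1 := by decide
      rw [v3]
      push_cast
      linear_combination i * hi2
  have hσg : σ (gs ψ) = ((jacobiSym n p : ℤ) : L) * gs ψ := by
    have e1 : ∀ k : ZMod p, σ (ψ k) = ψ ((n : ZMod p) * k) := by
      intro k
      have e2 : ψ k ^ (4 * p) = 1 := by
        rw [psi_pow]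
        have : ((4 * p : ℕ) : ZMod p) = 0 := by simp
        rw [this, zero_mul, AddChar.map_zero_eq_one]
      rw [galEquivZMod_apply_of_pow_eq (4 * p) L σ e2, ← ha, ← hn, psi_pow]
    have e3 : chi p L (n : ZMod p) = ((jacobiSym n p : ℤ) : L) := by
      rw [chi_apply, ← jacobiSym.legendreSym.to_jacobiSym, legendreSym]
      simp
    rw [← e3, gs, ← gauss_shift' hp2 two_ne_zero, gaussSum, map_sum]
    refine Finset.sum_congr rfl fun k _ => ?_
    rw [map_mul, e1, chi_apply, map_intCast]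
  have hJ : J4 (a : ZMod (4 * p)) = ZMod.χ₄ (n : ZMod 4) * jacobiSym n p := by
    rw [J4, ← hn]; rfl
  rw [hJ, map_mul, hσi, hσg]
  push_cast
  ring

lemma residue_sub4 (h1 : p % 4 = 1) (F : IntermediateField ℚ L) (hF : Module.finrank ℚ F = 2)
    (γ : L) (hγ : γ ∈ F) (hγ2 : γ ^ 2 = -(p : L)) :
    (dedekindZeta_residue F : ℂ) = DirichletCharacter.LFunction (X4 (p := p)) 1 := by
  classical
  have : IsGalois ℚ L := IsCyclotomicExtension.isGalois {4 * p} ℚ L
  obtain ⟨β, hβ2, hβ⟩ := gal_beta L h1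
  have hp0 : (p : L) ≠ 0 := by exact_mod_cast hpf.out.ne_zero
  have hβ0 : β ≠ 0 := by
    rintro rfl
    apply hp0
    linear_combination hβ2
  have hβF : β ∈ F := by
    have h2 : (β - γ) * (β + γ) = 0 := by linear_combination hβ2 - hγ2
    rcases mul_eq_zero.mp h2 with h | h
    · rw [sub_eq_zero.mp h]; exact hγ
    · rw [eq_neg_of_add_eq_zero_left h]; exact neg_mem hγ
  have hX : X4 ∈ YY (4 * p) L F := by
    rw [mem_YY]
    intro σ hσ
    have h3 : σ β = β := by
      have := (IntermediateField.mem_fixingSubgroup_iff F σ).mp hσ β hβF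
      exact this
    have h4 := hβ σ
    rw [h3] at h4
    have h5 : ((J4 ((galEquivZMod (4 * p) L σ : (ZMod (4 * p))ˣ) : ZMod (4 * p)) : ℤ) : L) = 1 := by
      apply mul_right_cancel₀ hβ0
      rw [← h4, one_mul]
    have h6 : J4 ((galEquivZMod (4 * p) L σ : (ZMod (4 * p))ˣ) : ZMod (4 * p)) = 1 := by
      exact_mod_cast h5
    rw [X4_apply, h6]
    simp
  have hcard : Nat.card (YY (4 * p) L F) = 2 := by
    rw [card_YY, ← IntermediateField.finrank_eq_fixingSubgroup_index, hF]
  have hcard' : Fintype.card (YY (4 * p) L F) = 2 := by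
    rw [← Nat.card_eq_fintype_card]; exact hcard
  rw [residue_eq (4 * p) L F]
  have h1' : ((Finset.univ : Finset (YY (4 * p) L F)).erase 1).card = 1 := by
    rw [Finset.card_erase_of_mem (Finset.mem_univ _), Finset.card_univ, hcard']
  obtain ⟨χ, hχ⟩ := Finset.card_eq_one.mp h1'
  have hmem : (⟨X4, hX⟩ : YY (4 * p) L F) ∈ (Finset.univ : Finset (YY (4 * p) L F)).erase 1 := by
    rw [Finset.mem_erase]
    refine ⟨?_, Finset.mem_univ _⟩
    intro h
    exact X4_ne h1 (congrArg Subtype.val h)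
  rw [hχ, Finset.mem_singleton] at hmem
  rw [hχ, Finset.prod_singleton, ← hmem]
  exact Lp_X4 h1 1

include L in
lemma residue_four_aux (h1 : p % 4 = 1) (K : Type) [Field K] [NumberField K]
    (h2 : Module.finrank ℚ K = 2) (α : K) (hα : α ^ 2 = -(p : K)) :
    (dedekindZeta_residue K : ℂ) = DirichletCharacter.LFunction (X4 (p := p)) 1 := by
  obtain ⟨β, hβ2, -⟩ := gal_beta L h1
  have hα' : α ^ 2 = algebraMap ℚ K (-(p : ℚ)) := by rw [hα]; simp
  have hdvd : minpoly ℚ α ∣ X ^ 2 - C (-(p : ℚ)) := by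
    apply minpoly.dvd
    rw [map_sub, map_pow, aeval_X, aeval_C, hα', sub_self]
  have hne : (X ^ 2 - C (-(p : ℚ)) : ℚ[X]) ≠ 0 := X_pow_sub_C_ne_zero (by norm_num) _
  have hββ : β * β = algebraMap ℚ L (-(p : ℚ)) := by
    rw [← sq, hβ2]; simp
  have hsplit : ((minpoly ℚ α).map (algebraMap ℚ L)).Splits := by
    have e : (X ^ 2 - C (-(p : ℚ)) : ℚ[X]).map (algebraMap ℚ L) =
        (X - C β) * (X - C (-β)) := by
      rw [Polynomial.map_sub, Polynomial.map_pow, map_X, map_C, ← hββ, C_neg, C_mul]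
      ring
    have h3 : ((X ^ 2 - C (-(p : ℚ)) : ℚ[X]).map (algebraMap ℚ L)).Splits := by
      rw [e]
      exact (Splits.X_sub_C _).mul (Splits.X_sub_C _)
    exact h3.of_dvd (by rw [e]; exact mul_ne_zero (X_sub_C_ne_zero _) (X_sub_C_ne_zero _))
      (Polynomial.map_dvd _ hdvd)
  have htop : IntermediateField.adjoin ℚ {α} = ⊤ := by
    rw [Field.primitive_element_iff_minpoly_natDegree_eq, h2]
    have hle := minpoly.natDegree_le (A := ℚ) α
    rw [h2] at hle
    have hpos := minpoly.natDegree_pos (Algebra.IsIntegral.isIntegral (R := ℚ) α)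
    have hne : (minpoly ℚ α).natDegree ≠ 1 := by
      rw [Ne, minpoly.natDegree_eq_one_iff]
      rintro ⟨q, hq⟩
      have h5 : (q ^ 2 : ℚ) = -(p : ℚ) := by
        apply (algebraMap ℚ K).injective
        rw [map_pow, hq, hα']
      have h6 : (0 : ℚ) < p := by exact_mod_cast hpf.out.pos
      nlinarith [sq_nonneg q]
    omega
  obtain ⟨i⟩ := IntermediateField.nonempty_algHom_of_adjoin_splits (F := ℚ) (E := K) (K := L)
    (S := {α}) (by
      intro s hs
      rw [Set.mem_singleton_iff] at hs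
      rw [hs]
      exact ⟨Algebra.IsIntegral.isIntegral α, hsplit⟩) htop
  let e : K ≃ₐ[ℚ] i.fieldRange := AlgEquiv.ofInjectiveField i
  have hF : Module.finrank ℚ i.fieldRange = 2 := by
    rw [← h2]; exact (LinearEquiv.finrank_eq e.toLinearEquiv).symm
  rw [residue_congr e.toRingEquiv]
  exact residue_sub4 L h1 i.fieldRange hF (i α) ⟨α, rfl⟩ (by rw [← map_pow, hα]; simp)

end gal

/-- the residue -/
theorem residue_X4 (h1 : p % 4 = 1) (K : Type) [Field K] [NumberField K]
    (h2 : Module.finrank ℚ K = 2) (α : K) (hα : α ^ 2 = -(p : K)) :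
    (dedekindZeta_residue K : ℂ) = DirichletCharacter.LFunction (X4 (p := p)) 1 := by
  have hpq : NeZero ((4 * p : ℕ) : ℚ) := ⟨by
    have := hpf.out.pos
    exact_mod_cast (by omega : 4 * p ≠ 0)⟩
  have hcyc : IsCyclotomicExtension {4 * p} ℚ (CyclotomicField (4 * p) ℚ) :=
    CyclotomicField.isCyclotomicExtension (4 * p) ℚ
  exact residue_four_aux (CyclotomicField (4 * p) ℚ) h1 K h2 α hα

/-- the class number formula -/
theorem class_four (h1 : p % 4 = 1) (K : Type) [Field K] [NumberField K]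
    (h2 : Module.finrank ℚ K = 2) (α : K) (hα : α ^ 2 = -(p : K)) :
    (classNumber K : ℤ) = 2 * QQ p := by
  have hr := residue_four h1 h2 α hα
  have hL := L_val (p := p) h1
  rw [← residue_X4 h1 K h2 α hα] at hL
  have h3 : dedekindZeta_residue K * Real.sqrt p = Real.pi * (QQ p : ℝ) := by exact_mod_cast hL
  have h4 : Real.pi * (classNumber K : ℝ) = Real.pi * (2 * (QQ p : ℝ)) := by
    linear_combination 2 * h3 - hr
  have h5 := mul_left_cancel₀ Real.pi_ne_zero h4
  exact_mod_cast h5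

/-- the parity of half the class number -/
theorem half_class (h1 : p % 4 = 1) (K : Type) [Field K] [NumberField K]
    (h2 : Module.finrank ℚ K = 2) (α : K) (hα : α ^ 2 = -(p : K)) :
    classNumber K / 2 % 2 = (p - 1) / 4 % 2 := by
  have h := class_four h1 K h2 α hα
  have hq := QQ_parity (p := p) h1
  omega

end Pool.Agent.V11306.H4
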