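import Mathlib
import Pool.Agent.V11306.SpMod
import Pool.Agent.V11306.ToepY

/-!
# Products over the quadratic residues: basic identities
-/

set_option autoImplicit false

namespace Pool.Agent.V11306.SP

open Finset Polynomial

open Pool.Agent.V11306.SpMod (S)

open Pool.Agent.V11306.Toep

variable {p : ℕ} [hpf : Fact p.Prime]

/-- the residues -/
def RR (p : ℕ) [Fact p.Prime] : Finset (ZMod p) :=
  univ.filter (fun k => quadraticChar (ZMod p) k = 1)

/-- the nonresidues -/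
def NN (p : ℕ) [Fact p.Prime] : Finset (ZMod p) :=
  univ.filter (fun k => quadraticChar (ZMod p) k = -1)

lemma mem_RR (k : ZMod p) : k ∈ RR p ↔ quadraticChar (ZMod p) k = 1 := by simp [RR]

lemma mem_NN (k : ZMod p) : k ∈ NN p ↔ quadraticChar (ZMod p) k = -1 := by
  rw [NN, Finset.mem_filter]; simp only [Finset.mem_univ, true_and]

lemma ne_of_RR {k : ZMod p} (h : k ∈ RR p) : k ≠ 0 := by
  rintro rfl
  rw [mem_RR, quadraticChar_zero] at h
  exact absurd h (by norm_num)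

lemma ne_of_NN {k : ZMod p} (h : k ∈ NN p) : k ≠ 0 := by
  rintro rfl
  rw [mem_NN, quadraticChar_zero] at h
  exact absurd h (by norm_num)

lemma card_NN (hp2 : p ≠ 2) (m : ℕ) (hm : p = 2 * m + 1) : (NN p).card = m :=
  card_nonres hp2 m hm

lemma prod_split {M : Type*} [CommMonoid M] (f : ZMod p → M) :
    ∏ k ∈ univ.erase (0 : ZMod p), f k = (∏ r ∈ RR p, f r) * ∏ n ∈ NN p, f n := by
  have h1 : univ.erase (0 : ZMod p) = RR p ∪ NN p := by
    ext k
    rw [Finset.mem_union, mem_RR, mem_NN]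
    constructor
    · intro hk
      exact quadraticChar_dichotomy (by simpa using hk)
    · rintro (h | h)
      · simpa using ne_of_RR ((mem_RR k).mpr h)
      · simpa using ne_of_NN ((mem_NN k).mpr h)
  rw [h1, Finset.prod_union]
  rw [Finset.disjoint_left]
  intro k h1 h2
  rw [mem_RR] at h1
  rw [mem_NN, h1] at h2
  exact absurd h2 (by norm_num)

lemma sum_split {M : Type*} [AddCommMonoid M] (f : ZMod p → M) :
    ∑ k ∈ univ.erase (0 : ZMod p), f k = (∑ r ∈ RR p, f r) + ∑ n ∈ NN p, f n :=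
  prod_split (M := Multiplicative M) f

lemma card_RR (hp2 : p ≠ 2) (m : ℕ) (hm : p = 2 * m + 1) : (RR p).card = m := by
  have h1 := sum_split (p := p) (fun _ => (1 : ℕ))
  rw [← Finset.card_eq_sum_ones, ← Finset.card_eq_sum_ones, ← Finset.card_eq_sum_ones,
    card_S m hm, card_NN hp2 m hm] at h1
  omega

lemma prod_RR_non {M : Type*} [CommMonoid M] {a : ZMod p} (ha : quadraticChar (ZMod p) a = -1)
    (f : ZMod p → M) : ∏ r ∈ RR p, f (a * r) = ∏ n ∈ NN p, f n := by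
  have ha0 : a ≠ 0 := ne_of_NN ((mem_NN a).mpr ha)
  have hai : quadraticChar (ZMod p) a⁻¹ = -1 := by
    have : quadraticChar (ZMod p) a * quadraticChar (ZMod p) a⁻¹ = 1 := by
      rw [← map_mul, mul_inv_cancel₀ ha0, map_one]
    rw [ha] at this; omega
  apply Finset.prod_bij (fun r _ => a * r)
  · intro r hr
    rw [mem_RR] at hr
    rw [mem_NN, map_mul, ha, hr, mul_one]
  · intro r _ s _ h; exact mul_left_cancel₀ ha0 h
  · intro n hn
    rw [mem_NN] at hn
    refine ⟨a⁻¹ * n, ?_, mul_inv_cancel_left₀ ha0 n⟩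
    rw [mem_RR, map_mul, hai, hn]; norm_num
  · intro r _; rfl

lemma prod_NN_non {M : Type*} [CommMonoid M] {a : ZMod p} (ha : quadraticChar (ZMod p) a = -1)
    (f : ZMod p → M) : ∏ n ∈ NN p, f (a * n) = ∏ r ∈ RR p, f r := by
  have ha0 : a ≠ 0 := ne_of_NN ((mem_NN a).mpr ha)
  have hai : quadraticChar (ZMod p) a⁻¹ = -1 := by
    have : quadraticChar (ZMod p) a * quadraticChar (ZMod p) a⁻¹ = 1 := by
      rw [← map_mul, mul_inv_cancel₀ ha0, map_one]
    rw [ha] at this; omega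
  apply Finset.prod_bij (fun r _ => a * r)
  · intro r hr
    rw [mem_NN] at hr
    rw [mem_RR, map_mul, ha, hr]; norm_num
  · intro r _ s _ h; exact mul_left_cancel₀ ha0 h
  · intro n hn
    rw [mem_RR] at hn
    refine ⟨a⁻¹ * n, ?_, mul_inv_cancel_left₀ ha0 n⟩
    rw [mem_NN, map_mul, hai, hn, mul_one]
  · intro r _; rfl

lemma prod_RR_res {M : Type*} [CommMonoid M] {a : ZMod p} (ha : quadraticChar (ZMod p) a = 1)
    (f : ZMod p → M) : ∏ r ∈ RR p, f (a * r) = ∏ r ∈ RR p, f r := by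
  have ha0 : a ≠ 0 := ne_of_RR ((mem_RR a).mpr ha)
  have hai : quadraticChar (ZMod p) a⁻¹ = 1 := by
    have : quadraticChar (ZMod p) a * quadraticChar (ZMod p) a⁻¹ = 1 := by
      rw [← map_mul, mul_inv_cancel₀ ha0, map_one]
    rw [ha] at this; omega
  apply Finset.prod_bij (fun r _ => a * r)
  · intro r hr
    rw [mem_RR] at hr
    rw [mem_RR, map_mul, ha, hr, mul_one]
  · intro r _ s _ h; exact mul_left_cancel₀ ha0 h
  · intro n hn
    rw [mem_RR] at hn
    refine ⟨a⁻¹ * n, ?_, mul_inv_cancel_left₀ ha0 n⟩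
    rw [mem_RR, map_mul, hai, hn, mul_one]
  · intro r _; rfl

/-- the product over the residues -/
noncomputable def SR (p : ℕ) [Fact p.Prime] (x : ℂ) : ℂ :=
  ∏ r ∈ RR p, (x - (ZMod.stdAddChar r : ℂ))

/-- the product over the nonresidues -/
noncomputable def SN (p : ℕ) [Fact p.Prime] (x : ℂ) : ℂ :=
  ∏ r ∈ NN p, (x - (ZMod.stdAddChar r : ℂ))

/-- the squares as a bijection onto the residues -/
lemma prod_squares {M : Type*} [CommMonoid M] (m : ℕ) (hm : p = 2 * m + 1) (f : ZMod p → M) :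
    ∏ k ∈ Icc 1 m, f ((k : ZMod p) ^ 2) = ∏ r ∈ RR p, f r := by
  have hne : ∀ k ∈ Icc 1 m, (k : ZMod p) ≠ 0 := by
    intro k hk
    rw [Finset.mem_Icc] at hk
    rw [Ne, ZMod.natCast_eq_zero_iff]
    intro h
    have := Nat.le_of_dvd (by omega) h
    omega
  apply Finset.prod_bij (fun (k : ℕ) _ => (k : ZMod p) ^ 2)
  · intro k hk
    rw [mem_RR]
    exact quadraticChar_sq_one' (hne k hk)
  · intro k hk l hl h
    rw [Finset.mem_Icc] at hk hl
    have h1 : ((k : ZMod p) - l) * ((k : ZMod p) + l) = 0 := by linear_combination h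
    rcases mul_eq_zero.mp h1 with h2 | h2
    · have h3 := congrArg ZMod.val (sub_eq_zero.mp h2)
      rwa [ZMod.val_natCast_of_lt (by omega), ZMod.val_natCast_of_lt (by omega)] at h3
    · exfalso
      rw [← Nat.cast_add, ZMod.natCast_eq_zero_iff] at h2
      have := Nat.le_of_dvd (by omega) h2
      omega
  · intro r hr
    rw [mem_RR] at hr
    have hr0 : r ≠ 0 := ne_of_RR ((mem_RR r).mpr hr)
    obtain ⟨a, ha⟩ := (quadraticChar_one_iff_isSquare hr0).mp hr
    have ha0 : a ≠ 0 := by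
      rintro rfl
      exact hr0 (by rw [ha]; ring)
    have hv := ZMod.val_lt a
    have hv0 : a.val ≠ 0 := by rwa [Ne, ZMod.val_eq_zero]
    by_cases h : a.val ≤ m
    · refine ⟨a.val, ?_, ?_⟩
      · rw [Finset.mem_Icc]; omega
      · simp only [ZMod.natCast_zmod_val]; rw [ha]; ring
    · refine ⟨p - a.val, ?_, ?_⟩
      · rw [Finset.mem_Icc]; omega
      · rw [Nat.cast_sub hv.le, ZMod.natCast_self, ZMod.natCast_zmod_val, ha]; ring
  · intro k _; rfl

lemma std_nat (a : ℕ) : (ZMod.stdAddChar (a : ZMod p) : ℂ) =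
    Complex.exp (2 * Real.pi * Complex.I * a / p) := by
  have h := ZMod.stdAddChar_coe (N := p) (a : ℤ)
  rw [Int.cast_natCast] at h
  rw [h]
  push_cast
  rfl

lemma S_eq (m : ℕ) (hm : p = 2 * m + 1) (x : ℂ) : S p x = SR p x := by
  have e : (p - 1) / 2 = m := by omega
  rw [SR, S, e, ← prod_squares m hm (fun r => x - (ZMod.stdAddChar r : ℂ))]
  refine Finset.prod_congr rfl fun k _ => ?_
  have e2 : (k : ZMod p) ^ 2 = ((k ^ 2 : ℕ) : ZMod p) := by push_cast; rfl
  rw [e2, std_nat]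
  push_cast
  rfl

lemma zeta_prim : IsPrimitiveRoot (ZMod.stdAddChar (1 : ZMod p) : ℂ) p := by
  have h3 := std_nat (p := p) 1
  rw [Nat.cast_one] at h3
  rw [h3]
  have := Complex.isPrimitiveRoot_exp p hpf.out.pos.ne'
  convert this using 2
  push_cast; ring

lemma std_pow (k : ZMod p) : (ZMod.stdAddChar k : ℂ) = (ZMod.stdAddChar (1 : ZMod p) : ℂ) ^ k.val := by
  rw [← AddChar.map_nsmul_eq_pow, nsmul_eq_mul, mul_one, ZMod.natCast_zmod_val]

lemma prod_all (x : ℂ) : ∏ k : ZMod p, (x - (ZMod.stdAddChar k : ℂ)) = x ^ p - 1 := by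
  have h := X_pow_sub_one_eq_prod hpf.out.pos (zeta_prim (p := p))
  have h1 := congrArg (fun q : ℂ[X] => q.eval x) h
  simp only [eval_sub, eval_pow, eval_X, eval_one, eval_prod, eval_C] at h1
  rw [h1]
  apply Finset.prod_bij (fun (k : ZMod p) _ => (ZMod.stdAddChar k : ℂ))
  · intro k _
    rw [Polynomial.mem_nthRootsFinset hpf.out.pos, psi_pow]
    simp
  · intro a _ b _ h
    exact ZMod.injective_stdAddChar h
  · intro z hz
    rw [Polynomial.mem_nthRootsFinset hpf.out.pos] at hz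
    obtain ⟨i, -, hi⟩ := zeta_prim.eq_pow_of_pow_eq_one hz
    refine ⟨(i : ZMod p), Finset.mem_univ _, ?_⟩
    rw [← hi, psi_pow, mul_one]
  · intro k _; rfl

/-- `S(x) S~(x) (x - 1) = x^p - 1` -/
lemma SR_mul_SN (x : ℂ) : SR p x * SN p x * (x - 1) = x ^ p - 1 := by
  rw [← prod_all, ← Finset.mul_prod_erase univ _ (Finset.mem_univ (0 : ZMod p)), prod_split,
    AddChar.map_zero_eq_one, SR, SN]
  ring

/-- `S(x) S(-x)` -/
lemma SR_neg (hp2 : p ≠ 2) (m : ℕ) (hm : p = 2 * m + 1) (h2 : quadraticChar (ZMod p) 2 = -1) (x : ℂ) :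
    SR p x * SR p (-x) = (-1) ^ m * SN p (x ^ 2) := by
  rw [SR, SR, SN, ← prod_RR_non h2, ← Finset.prod_mul_distrib, ← card_RR hp2 m hm,
    ← Finset.prod_const, ← Finset.prod_mul_distrib]
  refine Finset.prod_congr rfl fun r _ => ?_
  have : (ZMod.stdAddChar (2 * r) : ℂ) = (ZMod.stdAddChar r : ℂ) ^ 2 := by
    rw [psi_pow]; norm_num
  rw [this]; ring

lemma SN_neg (hp2 : p ≠ 2) (m : ℕ) (hm : p = 2 * m + 1) (h2 : quadraticChar (ZMod p) 2 = -1) (x : ℂ) :
    SN p x * SN p (-x) = (-1) ^ m * SR p (x ^ 2) := by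
  rw [SR, SN, SN, ← prod_NN_non h2, ← Finset.prod_mul_distrib, ← card_NN hp2 m hm,
    ← Finset.prod_const, ← Finset.prod_mul_distrib]
  refine Finset.prod_congr rfl fun r _ => ?_
  have : (ZMod.stdAddChar (2 * r) : ℂ) = (ZMod.stdAddChar r : ℂ) ^ 2 := by
    rw [psi_pow]; norm_num
  rw [this]; ring

/-- the triplication formula -/
lemma SR_three (h3 : quadraticChar (ZMod p) 3 = -1) (w x : ℂ) (hw : w ^ 2 + w + 1 = 0) :
    SR p x * SR p (w * x) * SR p (w ^ 2 * x) = SN p (x ^ 3) := by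
  rw [SR, SR, SR, SN, ← prod_RR_non h3, ← Finset.prod_mul_distrib, ← Finset.prod_mul_distrib]
  refine Finset.prod_congr rfl fun r _ => ?_
  have : (ZMod.stdAddChar (3 * r) : ℂ) = (ZMod.stdAddChar r : ℂ) ^ 3 := by
    rw [psi_pow]; norm_num
  rw [this]
  set z : ℂ := (ZMod.stdAddChar r : ℂ)
  linear_combination (x ^ 3 * (w - 1) + z ^ 2 * x * 1 - x ^ 2 * z * (w - 0) * 1) * hw * 1

/-- conjugation, `p ≡ 3 (mod 4)` -/
lemma SR_conj (h3 : p % 4 = 3) (x : ℂ) : (starRingEnd ℂ) (SR p x) = SN p ((starRingEnd ℂ) x) := by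
  have hm1 : quadraticChar (ZMod p) (-1) = -1 := by
    have := CnfD.ez_three h3; rwa [CnfD.ez] at this
  rw [SR, SN, ← prod_RR_non hm1, map_prod]
  refine Finset.prod_congr rfl fun r _ => ?_
  rw [map_sub, neg_one_mul, AddChar.map_neg_eq_inv]
  congr 1
  rw [Complex.inv_def, Complex.normSq_eq_norm_sq, CnfC.std_norm]
  simp

lemma SN_conj (h3 : p % 4 = 3) (x : ℂ) : (starRingEnd ℂ) (SN p x) = SR p ((starRingEnd ℂ) x) := by
  have h := SR_conj h3 ((starRingEnd ℂ) x)
  rw [Complex.conj_conj] at h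
  rw [← h, Complex.conj_conj]

lemma sum_RR (hp3 : 3 < p) : ∑ r ∈ RR p, r = 0 := by
  have hp2 : p ≠ 2 := by omega
  obtain ⟨m, hm⟩ : ∃ m, p = 2 * m + 1 := ⟨p / 2, by
    have := hpf.out.eq_two_or_odd; omega⟩
  have hcard := card_RR hp2 m hm
  obtain ⟨a, ha, ha1⟩ : ∃ a ∈ RR p, a ≠ 1 := by
    by_contra hcon
    push Not at hcon
    have : RR p ⊆ {1} := fun a ha => by rw [Finset.mem_singleton]; exact hcon a ha
    have := Finset.card_le_card this
    rw [hcard, Finset.card_singleton] at this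
    omega
  have h1 : ∑ r ∈ RR p, a * r = ∑ r ∈ RR p, r :=
    prod_RR_res (M := Multiplicative (ZMod p)) ((mem_RR a).mp ha) (fun r => Multiplicative.ofAdd r)
  rw [← Finset.mul_sum] at h1
  have h2 : (a - 1) * ∑ r ∈ RR p, r = 0 := by linear_combination h1
  rcases mul_eq_zero.mp h2 with h | h
  · exact absurd (sub_eq_zero.mp h) ha1
  · exact h

lemma prod_std_RR (hp3 : 3 < p) : ∏ r ∈ RR p, (ZMod.stdAddChar r : ℂ) = 1 := by
  have h1 : ∏ r ∈ RR p, (ZMod.stdAddChar r : ℂ) = ZMod.stdAddChar (∑ r ∈ RR p, r) := by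
    have := map_prod (AddChar.toMonoidHom (ZMod.stdAddChar (N := p)))
      (fun k : ZMod p => Multiplicative.ofAdd k) (RR p)
    simp only [AddChar.toMonoidHom_apply, toAdd_ofAdd] at this
    rw [← this]
    congr 1
  rw [h1, sum_RR hp3, AddChar.map_zero_eq_one]

/-- inversion, `p ≡ 3 (mod 4)` -/
lemma SR_inv (h3 : p % 4 = 3) (hp3 : 3 < p) (m : ℕ) (hm : p = 2 * m + 1) (x : ℂ) (hx : x ≠ 0) :
    SR p x⁻¹ * x ^ m = - SN p x := by
  have hp2 : p ≠ 2 := by omega
  have hm1 : quadraticChar (ZMod p) (-1) = -1 := by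
    have := CnfD.ez_three h3; rwa [CnfD.ez] at this
  have hodd : Odd m := by rw [Nat.odd_iff]; omega
  have hc : (-1 : ℂ) = (-1) ^ (RR p).card := by rw [card_RR hp2 m hm, hodd.neg_one_pow]
  have h1 : - SN p x = (-1) ^ (RR p).card * (∏ r ∈ RR p, (ZMod.stdAddChar r : ℂ)) * SN p x := by
    rw [prod_std_RR hp3, ← hc]; ring
  rw [h1, SR, SN, ← prod_RR_non hm1, ← Finset.prod_const, ← Finset.prod_mul_distrib,
    ← Finset.prod_mul_distrib]
  have h2 : x ^ m = ∏ _r ∈ RR p, x := by rw [Finset.prod_const, card_RR hp2 m hm]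
  rw [h2, ← Finset.prod_mul_distrib]
  refine Finset.prod_congr rfl fun r _ => ?_
  have h3 : (ZMod.stdAddChar (-r) : ℂ) * ZMod.stdAddChar r = 1 := by
    rw [← AddChar.map_add_eq_mul]; simp
  rw [neg_one_mul r]
  field_simp
  linear_combination -h3

end Pool.Agent.V11306.SP
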