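import Mathlib
import Pool.Agent.V11306.SP
import Pool.Agent.V11306.H4d

/-!
# The argument of the product over the residues at `exp (2 π i / 12)`
-/

set_option autoImplicit false
set_option linter.all false

namespace Pool.Agent.V11306.SPb

open Finset NumberField

open Pool.Agent.V11306.SP Pool.Agent.V11306.SpMod Pool.Agent.V11306.Toep

variable {p : ℕ} [hpf : Fact p.Prime]

/-- the number of quadratic residues below `p / 12` -/
noncomputable def N12 (p : ℕ) [Fact p.Prime] : ℕ :=
  ((Finset.Ico 1 p).filter (fun k : ℕ => 12 * k < p ∧ legendreSym p k = 1)).card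

lemma N12_eq : N12 p = ((RR p).filter (fun r => 12 * r.val < p)).card := by
  rw [N12]
  apply Finset.card_bij (fun (k : ℕ) _ => (k : ZMod p))
  · intro k hk
    rw [Finset.mem_filter, Finset.mem_Ico] at hk
    rw [Finset.mem_filter, mem_RR, ZMod.val_natCast_of_lt hk.1.2]
    refine ⟨?_, hk.2.1⟩
    have := hk.2.2
    rw [legendreSym] at this
    simpa using this
  · intro a ha b hb hab
    rw [Finset.mem_filter, Finset.mem_Ico] at ha hb
    have := congrArg ZMod.val hab
    rwa [ZMod.val_natCast_of_lt ha.1.2, ZMod.val_natCast_of_lt hb.1.2] at this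
  · intro r hr
    rw [Finset.mem_filter] at hr
    have hr0 := ne_of_RR hr.1
    have hv0 : r.val ≠ 0 := by rwa [Ne, ZMod.val_eq_zero]
    refine ⟨r.val, ?_, by simp⟩
    rw [Finset.mem_filter, Finset.mem_Ico]
    refine ⟨⟨by omega, ZMod.val_lt r⟩, hr.2, ?_⟩
    rw [legendreSym]
    have := (mem_RR r).mp hr.1
    simpa using this

lemma factor (a t : ℝ) : Complex.exp (2 * a * Complex.I) - Complex.exp (2 * t * Complex.I) =
    Complex.exp ((a + t) * Complex.I) * (2 * Complex.I * ((Real.sin (a - t) : ℝ) : ℂ)) := by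
  have h1 : ((Real.sin (a - t) : ℝ) : ℂ) = (Complex.exp (-((a - t) * Complex.I)) -
      Complex.exp ((a - t) * Complex.I)) * Complex.I / 2 := by
    rw [Complex.ofReal_sin, Complex.sin]
    push_cast
    ring_nf
  rw [h1]
  have h2 : Complex.exp (2 * a * Complex.I) = Complex.exp ((a + t) * Complex.I) *
      Complex.exp ((a - t) * Complex.I) := by
    rw [← Complex.exp_add]; congr 1; ring
  have h3 : Complex.exp (2 * t * Complex.I) = Complex.exp ((a + t) * Complex.I) *
      Complex.exp (-((a - t) * Complex.I)) := by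
    rw [← Complex.exp_add]; congr 1; ring
  rw [h2, h3]
  linear_combination (-(Complex.exp ((a + t) * Complex.I)) * (Complex.exp (-((a - t) * Complex.I)) -
      Complex.exp ((a - t) * Complex.I))) * Complex.I_sq

/-- the sum of the residues -/
noncomputable def R (p : ℕ) [Fact p.Prime] : ℕ := ∑ r ∈ RR p, r.val

lemma sin_sign (hp3 : 3 < p) (r : ZMod p) (hr : r ∈ RR p) :
    Real.sin (Real.pi / 12 - Real.pi * r.val / p) =
      (if 12 * r.val < p then 1 else -1) * |Real.sin (Real.pi / 12 - Real.pi * r.val / p)| ∧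
    Real.sin (Real.pi / 12 - Real.pi * r.val / p) ≠ 0 := by
  have hp0 : (0 : ℝ) < p := by exact_mod_cast hpf.out.pos
  have hr0 := ne_of_RR hr
  have hv0 : r.val ≠ 0 := by rwa [Ne, ZMod.val_eq_zero]
  have hv : (0 : ℝ) < r.val := by exact_mod_cast Nat.pos_of_ne_zero hv0
  have hlt : (r.val : ℝ) < p := by exact_mod_cast ZMod.val_lt r
  have hpi := Real.pi_pos
  have h12 : 12 * r.val ≠ p := by
    intro h
    have : 2 ∣ p := ⟨6 * r.val, by omega⟩
    have := (Nat.prime_dvd_prime_iff_eq Nat.prime_two hpf.out).mp this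
    omega
  have hq1 : Real.pi * r.val / p < Real.pi := by
    rw [div_lt_iff₀ hp0]; nlinarith
  have hq0 : 0 < Real.pi * r.val / p := by positivity
  by_cases h : 12 * r.val < p
  · rw [if_pos h]
    have h' : 12 * (r.val : ℝ) < p := by exact_mod_cast h
    have h2 : Real.pi * r.val / p < Real.pi / 12 := by
      rw [div_lt_div_iff₀ hp0 (by norm_num)]; nlinarith
    have h3 : 0 < Real.sin (Real.pi / 12 - Real.pi * r.val / p) :=
      Real.sin_pos_of_pos_of_lt_pi (by linarith) (by linarith)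
    exact ⟨by rw [abs_of_pos h3, one_mul], h3.ne'⟩
  · rw [if_neg h]
    have h' : (p : ℝ) < 12 * (r.val : ℝ) := by
      have : p < 12 * r.val := by omega
      exact_mod_cast this
    have h2 : Real.pi / 12 < Real.pi * r.val / p := by
      rw [div_lt_div_iff₀ (by norm_num) hp0]; nlinarith
    have h3 : Real.sin (Real.pi / 12 - Real.pi * r.val / p) < 0 :=
      Real.sin_neg_of_neg_of_neg_pi_lt (by linarith) (by linarith)
    exact ⟨by rw [abs_of_neg h3]; ring, h3.ne⟩

/-- the argument in terms of the sum of the residues -/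
lemma arg_aux (hp3 : 3 < p) (m : ℕ) (hm : p = 2 * m + 1) :
    ∃ c : ℝ, 0 < c ∧ SR p (Complex.exp (2 * Real.pi * Complex.I / 12)) =
      c * (-1) ^ N12 p * ((-1) ^ m * Complex.I ^ m) *
        Complex.exp ((m * Real.pi / 12 + Real.pi * R p / p) * Complex.I) := by
  have hp2 : p ≠ 2 := by omega
  have hp0 : (p : ℂ) ≠ 0 := by exact_mod_cast hpf.out.ne_zero
  have e1 : ∀ r ∈ RR p, Complex.exp (2 * Real.pi * Complex.I / 12) - (ZMod.stdAddChar r : ℂ) =
      Complex.exp (((Real.pi / 12 : ℝ) + (Real.pi * r.val / p : ℝ)) * Complex.I) *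
        (2 * Complex.I * ((Real.sin (Real.pi / 12 - Real.pi * r.val / p) : ℝ) : ℂ)) := by
    intro r _
    rw [← factor]
    congr 1
    · congr 1; push_cast; ring
    · have h := std_nat (p := p) r.val
      rw [ZMod.natCast_zmod_val] at h
      rw [h]
      congr 1
      push_cast
      ring
  rw [SR, Finset.prod_congr rfl e1, Finset.prod_mul_distrib, Finset.prod_mul_distrib,
    Finset.prod_const, card_RR hp2 m hm, ← Complex.exp_sum, ← Complex.ofReal_prod]
  have e2 : ∏ r ∈ RR p, Real.sin (Real.pi / 12 - Real.pi * r.val / p) =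
      (-1) ^ m * (-1) ^ N12 p * ∏ r ∈ RR p, |Real.sin (Real.pi / 12 - Real.pi * r.val / p)| := by
    rw [Finset.prod_congr rfl (fun r hr => (sin_sign hp3 r hr).1), Finset.prod_mul_distrib,
      Finset.prod_ite, Finset.prod_const_one, one_mul, Finset.prod_const]
    congr 1
    have h1 := Finset.card_filter_add_card_filter_not (s := RR p) (fun r => 12 * r.val < p)
    rw [card_RR hp2 m hm, ← N12_eq] at h1
    rw [← h1, pow_add, mul_right_comm, ← pow_add, ← two_mul, pow_mul]
    norm_num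
  rw [e2]
  refine ⟨2 ^ m * ∏ r ∈ RR p, |Real.sin (Real.pi / 12 - Real.pi * r.val / p)|, ?_, ?_⟩
  · apply mul_pos (by positivity)
    apply Finset.prod_pos
    intro r hr
    exact abs_pos.mpr (sin_sign hp3 r hr).2
  · have e3 : ∑ r ∈ RR p, (((Real.pi / 12 : ℝ) : ℂ) + ((Real.pi * r.val / p : ℝ) : ℂ)) * Complex.I =
        (m * Real.pi / 12 + Real.pi * R p / p) * Complex.I := by
      rw [← Finset.sum_mul, Finset.sum_add_distrib, Finset.sum_const, card_RR hp2 m hm, R]
      push_cast
      rw [nsmul_eq_mul, Finset.mul_sum, Finset.sum_div]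
      congr 2
      ring
    rw [e3, mul_pow]
    push_cast
    ring

lemma sum_val (m : ℕ) (hm : p = 2 * m + 1) : ∑ u : ZMod p, u.val = p * m := by
  have h : ∑ u : ZMod p, u.val = ∑ n ∈ range p, n := by
    symm
    apply Finset.sum_bij (fun (n : ℕ) _ => (n : ZMod p))
    · intro a _; exact Finset.mem_univ _
    · intro a ha b hb hab
      rw [Finset.mem_range] at ha hb
      have := congrArg ZMod.val hab
      rwa [ZMod.val_natCast_of_lt ha, ZMod.val_natCast_of_lt hb] at this
    · intro b _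
      exact ⟨b.val, Finset.mem_range.mpr (ZMod.val_lt b), by simp⟩
    · intro a ha
      rw [Finset.mem_range] at ha
      rw [ZMod.val_natCast_of_lt ha]
  rw [h]
  have h2 := Finset.sum_range_id_mul_two p
  have h3 : p - 1 = 2 * m := by omega
  rw [h3] at h2
  have h4 : (∑ n ∈ range p, n) * 2 = (p * m) * 2 := by rw [h2]; ring
  exact Nat.eq_of_mul_eq_mul_right (by norm_num) h4

lemma two_R (m : ℕ) (hm : p = 2 * m + 1) (hp2 : p ≠ 2) :
    2 * (R p : ℤ) = p * m + ∑ u : ZMod p, quadraticChar (ZMod p) u * (u.val : ℤ) := by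
  have h1 := sum_split (p := p) (fun u => ((u.val : ℕ) : ℤ))
  have h2 := sum_split (p := p) (fun u => quadraticChar (ZMod p) u * ((u.val : ℕ) : ℤ))
  have h3 : ∑ u : ZMod p, ((u.val : ℕ) : ℤ) = p * m := by exact_mod_cast sum_val m hm
  rw [← Finset.add_sum_erase univ _ (Finset.mem_univ (0 : ZMod p)), h1] at h3
  rw [← Finset.add_sum_erase univ _ (Finset.mem_univ (0 : ZMod p)), h2]
  have h4 : ∑ r ∈ RR p, quadraticChar (ZMod p) r * ((r.val : ℕ) : ℤ) =
      ∑ r ∈ RR p, ((r.val : ℕ) : ℤ) := by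
    refine Finset.sum_congr rfl fun r hr => ?_
    rw [(mem_RR r).mp hr, one_mul]
  have h5 : ∑ r ∈ NN p, quadraticChar (ZMod p) r * ((r.val : ℕ) : ℤ) =
      - ∑ r ∈ NN p, ((r.val : ℕ) : ℤ) := by
    rw [← Finset.sum_neg_distrib]
    refine Finset.sum_congr rfl fun r hr => ?_
    rw [(mem_NN r).mp hr]; ring
  rw [h4, h5, R, quadraticChar_zero]
  rw [ZMod.val_zero] at h3 ⊢
  push_cast at h3 ⊢
  linarith

lemma sum_one (h1 : p % 4 = 1) : ∑ u : ZMod p, quadraticChar (ZMod p) u * (u.val : ℤ) = 0 := by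
  have hp2 : p ≠ 2 := by rintro rfl; omega
  obtain ⟨m, hm⟩ : ∃ m, p = 2 * m + 1 := ⟨p / 2, by omega⟩
  have hneg : ∀ k : ZMod p, quadraticChar (ZMod p) (-k) = quadraticChar (ZMod p) k := by
    intro k
    have := CnfD.ez_one h1
    rw [CnfD.ez] at this
    rw [neg_eq_neg_one_mul, map_mul, this]; ring
  have hs := quadraticChar_sum_zero (F := ZMod p) (by rw [ZMod.ringChar_zmod_n]; exact hp2)
  rw [← Finset.add_sum_erase univ _ (Finset.mem_univ (0 : ZMod p)), sum_pair m hm,
    quadraticChar_zero] at hs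
  rw [← Finset.add_sum_erase univ _ (Finset.mem_univ (0 : ZMod p)), sum_pair m hm,
    quadraticChar_zero]
  have e : ∀ j ∈ range m, quadraticChar (ZMod p) ((j + 1 : ℕ) : ZMod p) *
      ((((j + 1 : ℕ) : ZMod p).val : ℕ) : ℤ) + quadraticChar (ZMod p) (-((j + 1 : ℕ) : ZMod p)) *
      (((-((j + 1 : ℕ) : ZMod p)).val : ℕ) : ℤ) = p * quadraticChar (ZMod p) ((j + 1 : ℕ) : ZMod p) := by
    intro j hj
    rw [Finset.mem_range] at hj
    rw [hneg, val_neg_nat (j + 1) (by omega) (by omega), ZMod.val_natCast_of_lt (by omega),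
      Nat.cast_sub (by omega)]
    push_cast
    ring
  rw [Finset.sum_congr rfl e, ← Finset.mul_sum]
  have e2 : ∑ j ∈ range m, (quadraticChar (ZMod p) ((j + 1 : ℕ) : ZMod p) +
      quadraticChar (ZMod p) (-((j + 1 : ℕ) : ZMod p))) =
      2 * ∑ j ∈ range m, quadraticChar (ZMod p) ((j + 1 : ℕ) : ZMod p) := by
    rw [Finset.mul_sum]
    refine Finset.sum_congr rfl fun j _ => ?_
    rw [hneg]; ring
  rw [e2] at hs
  have : ∑ j ∈ range m, quadraticChar (ZMod p) ((j + 1 : ℕ) : ZMod p) = 0 := by omega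
  rw [this]
  ring

/-- the value up to a positive constant -/
lemma arg_main (hp3 : 3 < p) (m : ℕ) (hm : p = 2 * m + 1) (h' : ℕ)
    (hh : ∑ u : ZMod p, quadraticChar (ZMod p) u * (u.val : ℤ) = -(p * (h' : ℤ))) :
    ∃ c : ℝ, 0 < c ∧ SR p (Complex.exp (2 * Real.pi * Complex.I / 12)) =
      c * (-1) ^ N12 p * (-Complex.I) ^ h' * Complex.exp (m * Real.pi / 12 * Complex.I) := by
  have hp2 : p ≠ 2 := by omega
  have hp0 : (p : ℂ) ≠ 0 := by exact_mod_cast hpf.out.ne_zero
  obtain ⟨c, hc, h⟩ := arg_aux hp3 m hm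
  refine ⟨c, hc, ?_⟩
  rw [h]
  have h2 := two_R m hm hp2
  rw [hh] at h2
  have h3 : (2 : ℂ) * R p = p * (m - h') := by
    have : ((2 * (R p : ℤ) : ℤ) : ℂ) = ((p * m + -(p * (h' : ℤ)) : ℤ) : ℂ) := by rw [h2]
    push_cast at this
    rw [this]; ring
  have h4 : (Real.pi : ℂ) * R p / p = (m - h') * (Real.pi / 2) := by
    field_simp
    linear_combination h3
  have h5 : Complex.exp ((m * Real.pi / 12 + Real.pi * R p / p) * Complex.I) =
      Complex.exp (m * Real.pi / 12 * Complex.I) * (Complex.I ^ m * (-Complex.I) ^ h') := by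
    rw [h4]
    have e1 : (m * Real.pi / 12 + ((m : ℂ) - h') * (Real.pi / 2)) * Complex.I =
        m * Real.pi / 12 * Complex.I + (m * (Real.pi / 2 * Complex.I) +
          h' * (-(Real.pi / 2 * Complex.I))) := by ring
    rw [e1, Complex.exp_add, Complex.exp_add, Complex.exp_nat_mul, Complex.exp_nat_mul,
      Complex.exp_neg, Complex.exp_pi_div_two_mul_I, Complex.inv_I]
  rw [h5]
  have h6 : (-1 : ℂ) ^ m * Complex.I ^ m * Complex.I ^ m = 1 := by
    rw [← mul_pow, ← mul_pow]
    have : (-1 : ℂ) * Complex.I * Complex.I = 1 := by linear_combination (-1 : ℂ) * Complex.I_sq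
    rw [this, one_pow]
  linear_combination (c * (-1) ^ N12 p * (-Complex.I) ^ h' *
    Complex.exp (m * Real.pi / 12 * Complex.I)) * h6

end Pool.Agent.V11306.SPb
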