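import Mathlib
import Pool.Agent.V11306.SPb

/-!
# The signs of the products over the residues at twelfth roots of unity
-/

set_option autoImplicit false
set_option linter.all false

namespace Pool.Agent.V11306.SPb

open Finset NumberField

open Pool.Agent.V11306.SP Pool.Agent.V11306.SpMod Pool.Agent.V11306.Toep

variable {p : ℕ} [hpf : Fact p.Prime]

/-- conjugation, `p ≡ 1 (mod 4)` -/
lemma SR_conj1 (h1 : p % 4 = 1) (x : ℂ) : (starRingEnd ℂ) (SR p x) = SR p ((starRingEnd ℂ) x) := by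
  have hm1 : quadraticChar (ZMod p) (-1) = 1 := by
    have := CnfD.ez_one h1; rwa [CnfD.ez] at this
  conv_rhs => rw [SR, ← prod_RR_res hm1]
  rw [SR, map_prod]
  refine Finset.prod_congr rfl fun r _ => ?_
  rw [map_sub, neg_one_mul, AddChar.map_neg_eq_inv]
  congr 1
  rw [Complex.inv_def, Complex.normSq_eq_norm_sq, CnfC.std_norm]
  simp

/-- the root of unity -/
noncomputable def xx : ℂ := Complex.exp (2 * Real.pi * Complex.I / 12)

lemma xx_eq : xx = Complex.exp (Real.pi / 6 * Complex.I) := by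
  rw [xx]; congr 1; ring

lemma xx_val : xx = ((Real.sqrt 3 / 2 : ℝ) : ℂ) + ((1 / 2 : ℝ) : ℂ) * Complex.I := by
  have e : (Real.pi : ℂ) / 6 * Complex.I = ((Real.pi / 6 : ℝ) : ℂ) * Complex.I := by push_cast; ring
  rw [xx_eq, e, Complex.exp_mul_I, ← Complex.ofReal_cos, ← Complex.ofReal_sin, Real.cos_pi_div_six,
    Real.sin_pi_div_six]

lemma sqrt3_sq : ((Real.sqrt 3 : ℝ) : ℂ) ^ 2 = 3 := by
  rw [← Complex.ofReal_pow, Real.sq_sqrt (by norm_num)]; norm_num

lemma xx_six : xx ^ 6 = -1 := by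
  rw [xx_eq, ← Complex.exp_nat_mul]
  have : ((6 : ℕ) : ℂ) * (Real.pi / 6 * Complex.I) = Real.pi * Complex.I := by push_cast; ring
  rw [this, Complex.exp_pi_mul_I]

lemma xx_twelve : xx ^ 12 = 1 := by
  have : xx ^ 12 = (xx ^ 6) ^ 2 := by ring
  rw [this, xx_six]; norm_num

lemma xx_ne : xx - 1 ≠ 0 := by
  intro h
  have h1 : xx = 1 := by linear_combination h
  have h2 := xx_six
  rw [h1] at h2
  norm_num at h2

lemma xx_conj : (starRingEnd ℂ) xx = Complex.exp (-(2 * Real.pi * Complex.I / 12)) := by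
  rw [xx, ← Complex.exp_conj]
  congr 1
  simp only [map_div₀, map_mul, Complex.conj_I, Complex.conj_ofReal, map_ofNat]
  ring

lemma xx_conj_mul : (starRingEnd ℂ) xx * xx = 1 := by
  rw [xx_conj, xx, ← Complex.exp_add]
  simp

/-- `p ≡ 7 (mod 12)` -/
lemma conj_seven (h7 : p % 12 = 7) : ∃ c : ℝ, 0 < c ∧
    SR p ((starRingEnd ℂ) xx) = -Complex.I * c * SR p xx := by
  have h3 : p % 4 = 3 := by omega
  have h := SR_mul_SN (p := p) xx
  obtain ⟨k, hk⟩ : ∃ k, p = 12 * k + 7 := ⟨p / 12, by omega⟩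
  have e1 : xx ^ p = -xx := by
    rw [hk, pow_add, pow_mul, xx_twelve, one_pow, one_mul]
    have : xx ^ 7 = xx ^ 6 * xx := by ring
    rw [this, xx_six]; ring
  have e2 : SR p xx * SN p xx = Complex.I * ((2 + Real.sqrt 3 : ℝ) : ℂ) := by
    apply mul_right_cancel₀ xx_ne
    rw [h, e1, xx_val]
    push_cast
    linear_combination (-1 / 2 * Complex.I) * sqrt3_sq - ((2 + ((Real.sqrt 3 : ℝ) : ℂ)) / 2) * Complex.I_sq
  have hS0 : SR p xx ≠ 0 := by
    intro h0
    rw [h0, zero_mul] at e2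
    have : ((2 + Real.sqrt 3 : ℝ) : ℂ) ≠ 0 := by
      have : (2 + Real.sqrt 3 : ℝ) ≠ 0 := by positivity
      exact_mod_cast this
    exact (mul_ne_zero Complex.I_ne_zero this) e2.symm
  have hn : 0 < Complex.normSq (SR p xx) := Complex.normSq_pos.mpr hS0
  refine ⟨(2 + Real.sqrt 3) / Complex.normSq (SR p xx), by positivity, ?_⟩
  rw [← SN_conj h3]
  have e3 : (starRingEnd ℂ) (SR p xx) * (starRingEnd ℂ) (SN p xx) =
      -Complex.I * ((2 + Real.sqrt 3 : ℝ) : ℂ) := by
    rw [← map_mul, e2, map_mul, Complex.conj_I, Complex.conj_ofReal]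
  have e4 : (SR p xx) * (starRingEnd ℂ) (SR p xx) = (Complex.normSq (SR p xx) : ℂ) :=
    Complex.mul_conj _
  have hn' : (Complex.normSq (SR p xx) : ℂ) ≠ 0 := by exact_mod_cast hn.ne'
  apply mul_left_cancel₀ hn'
  rw [Complex.ofReal_div]
  field_simp
  rw [← e4]
  linear_combination (SR p xx) * e3

/-- `p ≡ 11 (mod 12)` -/
lemma conj_eleven (h11 : p % 12 = 11) : ∃ c : ℝ, 0 < c ∧
    SR p ((starRingEnd ℂ) xx) = - xx * c * SR p xx := by
  have h3 : p % 4 = 3 := by omega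
  have h := SR_mul_SN (p := p) xx
  obtain ⟨k, hk⟩ : ∃ k, p = 12 * k + 11 := ⟨p / 12, by omega⟩
  have e1 : xx ^ p = (starRingEnd ℂ) xx := by
    have h1 : xx ^ p * xx = 1 := by
      rw [hk, ← pow_succ, show 12 * k + 11 + 1 = 12 * (k + 1) by ring, pow_mul, xx_twelve, one_pow]
    have hx0 : xx ≠ 0 := by
      intro h0
      have := xx_six
      rw [h0] at this
      norm_num at this
    apply mul_right_cancel₀ hx0
    rw [h1, xx_conj_mul]
  have e2 : SR p xx * SN p xx = - (starRingEnd ℂ) xx := by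
    apply mul_right_cancel₀ xx_ne
    rw [h, e1]
    linear_combination xx_conj_mul
  have hx0 : (starRingEnd ℂ) xx ≠ 0 := by
    intro h0
    have := xx_conj_mul
    rw [h0] at this
    norm_num at this
  have hS0 : SR p xx ≠ 0 := by
    intro h0
    rw [h0, zero_mul] at e2
    exact (neg_ne_zero.mpr hx0) e2.symm
  have hn : 0 < Complex.normSq (SR p xx) := Complex.normSq_pos.mpr hS0
  refine ⟨1 / Complex.normSq (SR p xx), by positivity, ?_⟩
  rw [← SN_conj h3]
  have e3 : (starRingEnd ℂ) (SR p xx) * (starRingEnd ℂ) (SN p xx) = - xx := by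
    rw [← map_mul, e2, map_neg, Complex.conj_conj]
  have e4 : (SR p xx) * (starRingEnd ℂ) (SR p xx) = (Complex.normSq (SR p xx) : ℂ) :=
    Complex.mul_conj _
  have hn' : (Complex.normSq (SR p xx) : ℂ) ≠ 0 := by exact_mod_cast hn.ne'
  apply mul_left_cancel₀ hn'
  rw [Complex.ofReal_div, Complex.ofReal_one]
  field_simp
  rw [← e4]
  linear_combination (SR p xx) * e3

lemma negI_pow (h : ℕ) (hodd : h % 2 = 1) : (-1 : ℂ) ^ (h / 2) * (-Complex.I) ^ h = -Complex.I := by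
  obtain ⟨j, hj⟩ : ∃ j, h = 2 * j + 1 := ⟨h / 2, by omega⟩
  have e : h / 2 = j := by omega
  have e2 : (-Complex.I) ^ 2 = -1 := by rw [neg_sq, Complex.I_sq]
  rw [e, hj, pow_succ, pow_mul, e2, ← mul_assoc, ← mul_pow]
  norm_num

lemma negone_sq (n : ℕ) : (-1 : ℂ) ^ n * (-1) ^ n = 1 := by
  rw [← mul_pow]; norm_num

/-- the twisted product at `exp (2 π i / 12)` -/
lemma T_one (hp3 : 3 < p) (m : ℕ) (hm : p = 2 * m + 1) (h h' : ℕ)
    (hh : ∑ u : ZMod p, quadraticChar (ZMod p) u * (u.val : ℤ) = -(p * (h' : ℤ))) (a : ℂ) :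
    ∃ c : ℝ, 0 < c ∧ (-1) ^ (h / 2 + N12 p) *
      Complex.exp (2 * Real.pi * Complex.I * (a * (p - 1)) / 48) * SR p xx =
      c * ((-1) ^ (h / 2) * (-Complex.I) ^ h') * Complex.exp ((a + 1) * (m * Real.pi / 12) * Complex.I) := by
  obtain ⟨c, hc, e⟩ := arg_main hp3 m hm h' hh
  refine ⟨c, hc, ?_⟩
  rw [xx, e]
  have hp1 : (p : ℂ) - 1 = 2 * m := by rw [hm]; push_cast; ring
  have e1 : Complex.exp ((a + 1) * (m * Real.pi / 12) * Complex.I) =
      Complex.exp (2 * Real.pi * Complex.I * (a * (p - 1)) / 48) *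
        Complex.exp (m * Real.pi / 12 * Complex.I) := by
    rw [← Complex.exp_add, hp1]
    congr 1
    ring
  rw [e1, pow_add]
  linear_combination ((-1) ^ (h / 2) * Complex.exp (2 * Real.pi * Complex.I * (a * (p - 1)) / 48) * c *
    (-Complex.I) ^ h' * Complex.exp (m * Real.pi / 12 * Complex.I)) * negone_sq (N12 p)

/-- conjugating the twist -/
lemma twist_conj (h : ℕ) (a : ℝ) (m : ℕ) (hm : p = 2 * m + 1) :
    (starRingEnd ℂ) ((-1) ^ (h / 2 + N12 p) * Complex.exp (2 * Real.pi * Complex.I * (a * (p - 1)) / 48)) =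
      (-1) ^ (h / 2 + N12 p) * Complex.exp (-(2 * Real.pi * Complex.I * (a * (p - 1)) / 48)) := by
  rw [map_mul, map_pow, map_neg, map_one, ← Complex.exp_conj]
  congr 2
  simp only [map_div₀, map_mul, map_sub, map_one, Complex.conj_I, Complex.conj_ofReal, map_ofNat,
    Complex.conj_natCast]
  ring

lemma exp_two_pi (k : ℤ) : Complex.exp (k * (2 * Real.pi * Complex.I)) = 1 :=
  Complex.exp_int_mul_two_pi_mul_I k

end Pool.Agent.V11306.SPb
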