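import Mathlib

/-!
# Telescoping identities for the `C(q)` series
-/

set_option linter.all false

namespace Pool.Agent.V11306.Co1

open Finset PowerSeries

noncomputable section

/-- triangular numbers -/
def tri : ℕ → ℕ
  | 0 => 0
  | s + 1 => tri s + (s + 1)

lemma two_tri (s : ℕ) : 2 * tri s = s * (s + 1) := by
  induction s with
  | zero => rfl
  | succ s ih => rw [tri, mul_add, ih]; ring

lemma le_tri (s : ℕ) : s ≤ tri s := by
  cases s with
  | zero => simp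
  | succ s => rw [tri]; omega

/-- `1/(-X^(k+1); X)_n` -/
def EP (k n : ℕ) : PowerSeries ℤ := ∏ i ∈ range n, (1 + X ^ (k + i + 1))
def E (k n : ℕ) : PowerSeries ℤ := invOfUnit (EP k n) 1

lemma EP_mul (k n : ℕ) : EP k n * E k n = 1 := by
  apply mul_invOfUnit
  rw [EP, map_prod]
  simp

lemma EP_succ (k n : ℕ) : EP k (n + 1) = EP k n * (1 + X ^ (k + n + 1)) := by
  rw [EP, EP, prod_range_succ]

lemma EP_succ' (k n : ℕ) : EP k (n + 1) = (1 + X ^ (k + 1)) * EP (k + 1) n := by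
  rw [EP, EP, prod_range_succ', mul_comm]
  congr 1
  apply prod_congr rfl
  intro i _
  rw [show k + (i + 1) + 1 = k + 1 + i + 1 by ring]

lemma E_zero (k : ℕ) : E k 0 = 1 := by
  have := EP_mul k 0
  rwa [EP, prod_range_zero, one_mul] at this

lemma E_succ (k n : ℕ) : E k n = (1 + X ^ (k + n + 1)) * E k (n + 1) := by
  have h1 := EP_mul k n
  have h2 := EP_mul k (n + 1)
  rw [EP_succ] at h2
  linear_combination (-E k n) * h2 + ((1 + X ^ (k + n + 1)) * E k (n + 1)) * h1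

lemma E_succ' (k n : ℕ) : E (k + 1) n = (1 + X ^ (k + 1)) * E k (n + 1) := by
  have h1 := EP_mul (k + 1) n
  have h2 := EP_mul k (n + 1)
  rw [EP_succ'] at h2
  linear_combination (-E (k + 1) n) * h2 + ((1 + X ^ (k + 1)) * E k (n + 1)) * h1

/-- `(X; X²)_m` -/
def O (m : ℕ) : PowerSeries ℤ := ∏ i ∈ range m, (1 - X ^ (2 * i + 1))

lemma O_succ (m : ℕ) : O (m + 1) = O m * (1 - X ^ (2 * m + 1)) := by
  rw [O, O, prod_range_succ]

/-! ### (I1) Rogers' false theta identity -/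

def r (k m : ℕ) : PowerSeries ℤ := (-1) ^ m * X ^ (2 * k * m + m ^ 2 + m) * O m * E k (2 * m + 1)
def Gr (k m : ℕ) : PowerSeries ℤ := (-1) ^ m * X ^ (2 * k * m + m ^ 2 + m) * O m * E k (2 * m)

lemma r_tele (k M : ℕ) : ∑ m ∈ range M, r k m + X ^ (k + 1) * ∑ m ∈ range M, r (k + 1) m = 1 - Gr k M := by
  induction M with
  | zero => simp [Gr, O, E_zero]
  | succ M ih =>
    rw [sum_range_succ, sum_range_succ]
    have e1 := E_succ k (2 * M + 1)
    have e2 := E_succ k (2 * M)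
    have e3 := E_succ' k (2 * M + 1)
    have hO := O_succ M
    rw [r, r, Gr, e3, hO, show 2 * (M + 1) = 2 * M + 1 + 1 by ring]
    rw [Gr, e2, e1] at ih
    rw [e1]
    rw [show 2 * k * (M + 1) + (M + 1) ^ 2 + (M + 1) = (2 * k * M + M ^ 2 + M) + (2 * k + 2 * M + 2) by ring,
      show 2 * (k + 1) * M + M ^ 2 + M = (2 * k * M + M ^ 2 + M) + 2 * M by ring, pow_add X (2 * k * M + M ^ 2 + M),
      pow_add X (2 * k * M + M ^ 2 + M)]
    rw [show (X : PowerSeries ℤ) ^ (2 * k + 2 * M + 2) = (X ^ k) ^ 2 * (X ^ (2 * M)) * X ^ 2 by ring,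
      show (X : PowerSeries ℤ) ^ (k + 1) = X ^ k * X by ring,
      show (X : PowerSeries ℤ) ^ (k + (2 * M + 1) + 1) = X ^ k * X ^ (2 * M) * X ^ 2 by ring,
      show (X : PowerSeries ℤ) ^ (2 * M + 1) = X ^ (2 * M) * X by ring,
      show ((-1 : PowerSeries ℤ)) ^ (M + 1) = - (-1) ^ M by ring]
    rw [show (X : PowerSeries ℤ) ^ (k + (2 * M + 1) + 1) = X ^ k * X ^ (2 * M) * X ^ 2 by ring,
      show (X : PowerSeries ℤ) ^ (k + 1) = X ^ k * X by ring,
      show (X : PowerSeries ℤ) ^ (k + 2 * M + 1) = X ^ k * X ^ (2 * M) * X by ring] at ih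
    linear_combination ih

/-! ### (I2) -/

def l (k n : ℕ) : PowerSeries ℤ := (-1) ^ n * X ^ (2 * k * n + tri n) * E k n
def Gl (k n : ℕ) : PowerSeries ℤ := (-1) ^ n * X ^ (2 * k * n + tri n) * (1 - X ^ (2 * k + 1 + n)) * E k n

lemma l_tele (k M : ℕ) : ∑ n ∈ range M, l k n - X ^ (3 * k + 2) * ∑ n ∈ range M, l (k + 1) n =
    1 - X ^ (2 * k + 1) - Gl k M := by
  induction M with
  | zero => simp [Gl, E_zero, tri]
  | succ M ih =>
    rw [sum_range_succ, sum_range_succ]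
    have e1 := E_succ k M
    have e3 := E_succ' k M
    rw [l, l, Gl, e3, tri]
    rw [Gl, e1] at ih
    rw [e1]
    rw [show 2 * k * (M + 1) + (tri M + (M + 1)) = (2 * k * M + tri M) + (2 * k + M + 1) by ring,
      show 2 * (k + 1) * M + tri M = (2 * k * M + tri M) + 2 * M by ring, pow_add X (2 * k * M + tri M),
      pow_add X (2 * k * M + tri M)]
    rw [show (X : PowerSeries ℤ) ^ (2 * k + M + 1) = (X ^ k) ^ 2 * (X ^ M) * X by ring,
      show (X : PowerSeries ℤ) ^ (2 * k + 1 + (M + 1)) = (X ^ k) ^ 2 * (X ^ M) * X ^ 2 by ring,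
      show (X : PowerSeries ℤ) ^ (3 * k + 2) = (X ^ k) ^ 3 * X ^ 2 by ring,
      show (X : PowerSeries ℤ) ^ (k + 1) = X ^ k * X by ring,
      show (X : PowerSeries ℤ) ^ (2 * k + 1) = (X ^ k) ^ 2 * X by ring,
      show (X : PowerSeries ℤ) ^ (k + M + 1) = X ^ k * X ^ M * X by ring,
      show (X : PowerSeries ℤ) ^ (2 * M) = (X ^ M) ^ 2 by ring,
      show ((-1 : PowerSeries ℤ)) ^ (M + 1) = - (-1) ^ M by ring]
    rw [show (X : PowerSeries ℤ) ^ (2 * k + 1 + M) = (X ^ k) ^ 2 * (X ^ M) * X by ring,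
      show (X : PowerSeries ℤ) ^ (3 * k + 2) = (X ^ k) ^ 3 * X ^ 2 by ring,
      show (X : PowerSeries ℤ) ^ (2 * k + 1) = (X ^ k) ^ 2 * X by ring,
      show (X : PowerSeries ℤ) ^ (k + M + 1) = X ^ k * X ^ M * X by ring] at ih
    linear_combination ih

/-- pairing -/
lemma l_pair (M : ℕ) : ∑ n ∈ range (2 * M), l 0 n = ∑ m ∈ range M, X ^ (2 * m ^ 2 + m) * E 0 (2 * m + 1) := by
  induction M with
  | zero => simp
  | succ M ih =>
    rw [show 2 * (M + 1) = 2 * M + 1 + 1 by ring, sum_range_succ, sum_range_succ, ih, sum_range_succ]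
    have e1 := E_succ 0 (2 * M)
    have h1 : tri (2 * M) = 2 * M ^ 2 + M := by
      have := two_tri (2 * M)
      nlinarith
    rw [l, l, e1, tri, h1, show ((-1 : PowerSeries ℤ)) ^ (2 * M) = 1 by rw [pow_mul]; simp,
      show ((-1 : PowerSeries ℤ)) ^ (2 * M + 1) = -1 by rw [pow_succ, pow_mul]; simp]
    rw [show 2 * 0 * (2 * M) + (2 * M ^ 2 + M) = 2 * M ^ 2 + M by ring,
      show 2 * 0 * (2 * M + 1) + (2 * M ^ 2 + M + (2 * M + 1)) = (2 * M ^ 2 + M) + (2 * M + 1) by ring,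
      show 0 + 2 * M + 1 = 2 * M + 1 by ring, pow_add X (2 * M ^ 2 + M)]
    ring

/-! ### (I3) the functional equation -/

def D (x : PowerSeries ℤ) (m : ℕ) : PowerSeries ℤ := ∏ i ∈ range m, (X ^ (2 * i + 1) - x)

lemma D_succ (x : PowerSeries ℤ) (m : ℕ) : D x (m + 1) = D x m * (X ^ (2 * m + 1) - x) := by
  rw [D, D, prod_range_succ]

lemma D_shift (x : PowerSeries ℤ) (m : ℕ) : D (X ^ 2 * x) (m + 1) = X ^ (2 * m + 1) * (1 - X * x) * D x m := by
  induction m with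
  | zero => simp [D]; ring
  | succ m ih =>
    rw [D_succ, ih, D_succ x m]
    rw [show 2 * (m + 1) + 1 = 2 * m + 1 + 2 by ring, pow_add X (2 * m + 1) 2]
    ring

def t (x : PowerSeries ℤ) (m : ℕ) : PowerSeries ℤ := X ^ (m ^ 2 + m) * D x m * E 0 (2 * m + 1)

lemma t_tele (x : PowerSeries ℤ) (M : ℕ) :
    (1 + X * x) * (1 + X ^ 2 * x) * ∑ m ∈ range (M + 1), t (X ^ 2 * x) m - (1 - X * x) * ∑ m ∈ range (M + 1), t x m =
      2 * X * x - x * (1 - X * x) * X ^ (2 * M + 2) * (X ^ (M ^ 2 + M) * D x M * E 0 (2 * M + 1)) := by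
  induction M with
  | zero =>
    simp only [zero_add, sum_range_one, t, D, prod_range_zero]
    have h1 := E_succ 0 0
    rw [E_zero] at h1
    simp only [zero_add, pow_one, mul_zero] at h1 ⊢
    linear_combination (-2 * X * x) * h1
  | succ M ih =>
    rw [sum_range_succ _ (M + 1), sum_range_succ _ (M + 1)]
    have e1 := E_succ 0 (2 * M + 1)
    have e2 := E_succ 0 (2 * M + 2)
    rw [e1, show 2 * M + 1 + 1 = 2 * M + 2 by ring, e2] at ih
    rw [t, t, D_shift, D_succ]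
    rw [show 2 * (M + 1) + 1 = 2 * M + 2 + 1 by ring]
    rw [show (M + 1) ^ 2 + (M + 1) = (M ^ 2 + M) + (2 * M + 2) by ring, pow_add X (M ^ 2 + M)]
    rw [show (X : PowerSeries ℤ) ^ (2 * (M + 1) + 2) = X ^ (2 * M) * X ^ 4 by ring,
      show (X : PowerSeries ℤ) ^ (2 * M + 2) = X ^ (2 * M) * X ^ 2 by ring,
      show (X : PowerSeries ℤ) ^ (2 * M + 1) = X ^ (2 * M) * X by ring]
    rw [show (X : PowerSeries ℤ) ^ (2 * M + 2) = X ^ (2 * M) * X ^ 2 by ring,
      show (X : PowerSeries ℤ) ^ (0 + (2 * M + 1) + 1) = X ^ (2 * M) * X ^ 2 by ring,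
      show (X : PowerSeries ℤ) ^ (0 + (2 * M + 2) + 1) = X ^ (2 * M) * X ^ 3 by ring] at ih
    linear_combination ih

/-! ### (I4) Gauss -/

def J (j : ℕ) : PowerSeries ℤ := invOfUnit (1 - X ^ (2 * j + 1)) 1

lemma J_mul (j : ℕ) : (1 - X ^ (2 * j + 1)) * J j = 1 := by
  apply mul_invOfUnit
  simp

/-- `R s d = ∏_{i ∈ [s, s+d)} (1 - X^(2i+2)) / (1 - X^(2i+1))` -/
def R (s d : ℕ) : PowerSeries ℤ := ∏ i ∈ range d, ((1 - X ^ (2 * (s + i) + 2)) * J (s + i))

lemma R_zero (s : ℕ) : R s 0 = 1 := by simp [R]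

lemma R_succ (s d : ℕ) : R s (d + 1) = R s d * ((1 - X ^ (2 * (s + d) + 2)) * J (s + d)) := by
  rw [R, R, prod_range_succ]

lemma R_succ' (s d : ℕ) : R s (d + 1) = ((1 - X ^ (2 * s + 2)) * J s) * R (s + 1) d := by
  rw [R, R, prod_range_succ', mul_comm, add_zero]
  congr 1
  apply prod_congr rfl
  intro i _
  rw [show s + (i + 1) = s + 1 + i by ring]

lemma gauss_aux (n : ℕ) : ∀ s : ℕ, s ≤ n →
    ∑ j ∈ range (s + 1), (R j (n + 1 - j) * X ^ (j * (2 * n + 3)) - R j (n - j) * X ^ (j * (2 * n + 1))) =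
      R s (n - s) * (1 - X ^ (2 * s + 1)) * X ^ ((s + 1) * (2 * n + 1)) * J n := by
  intro s
  induction s with
  | zero =>
    intro _
    rw [zero_add, sum_range_one, Nat.sub_zero, Nat.sub_zero, R_succ, zero_add]
    have h := J_mul n
    simp only [zero_mul, pow_zero, mul_one, one_mul, mul_zero, zero_add, pow_one]
    rw [show (X : PowerSeries ℤ) ^ (2 * n + 2) = X ^ (2 * n + 1) * X by ring]
    linear_combination (R 0 n) * h
  | succ s ih =>
    intro hs
    rw [sum_range_succ, ih (by omega)]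
    obtain ⟨d, rfl⟩ : ∃ d, n = s + 1 + d := ⟨n - (s + 1), by omega⟩
    rw [show s + 1 + d - s = d + 1 by omega, show s + 1 + d + 1 - (s + 1) = d + 1 by omega,
      show s + 1 + d - (s + 1) = d by omega, R_succ' s d, R_succ (s + 1) d]
    have h1 := J_mul s
    have h2 := J_mul (s + 1 + d)
    rw [show (s + 1) * (2 * (s + 1 + d) + 3) = (s + 1) * (2 * (s + 1 + d) + 1) + (2 * s + 2) by ring,
      show (s + 1 + 1) * (2 * (s + 1 + d) + 1) = (s + 1) * (2 * (s + 1 + d) + 1) + (2 * (s + 1 + d) + 1) by ring,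
      pow_add X ((s + 1) * (2 * (s + 1 + d) + 1)), pow_add X ((s + 1) * (2 * (s + 1 + d) + 1)),
      show (X : PowerSeries ℤ) ^ (2 * (s + 1 + d) + 2) = X ^ (2 * (s + 1 + d) + 1) * X by ring,
      show (X : PowerSeries ℤ) ^ (2 * (s + 1) + 1) = X ^ (2 * s + 1) * X ^ 2 by ring,
      show (X : PowerSeries ℤ) ^ (2 * s + 2) = X ^ (2 * s + 1) * X by ring]
    linear_combination (R (s + 1) d * X ^ ((s + 1) * (2 * (s + 1 + d) + 1)) * (1 - X ^ (2 * s + 1) * X) * J (s + 1 + d)) * h1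
      + (R (s + 1) d * X ^ ((s + 1) * (2 * (s + 1 + d) + 1))) * h2

lemma gauss (n : ℕ) : ∑ j ∈ range n, R j (n - j) * X ^ (j * (2 * n + 1)) = ∑ u ∈ range (2 * n), X ^ (tri u) := by
  induction n with
  | zero => simp
  | succ n ih =>
    have h := gauss_aux n n le_rfl
    rw [Nat.sub_self, R_zero, sum_sub_distrib, sum_range_succ (fun j => R j (n - j) * X ^ (j * (2 * n + 1))), ih,
      Nat.sub_self, R_zero] at h
    rw [show 2 * (n + 1) + 1 = 2 * n + 3 by ring, show 2 * (n + 1) = 2 * n + 1 + 1 by ring, sum_range_succ (fun u => X ^ tri u),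
      sum_range_succ (fun u => X ^ tri u)]
    have h1 : tri (2 * n) = n * (2 * n + 1) := by
      have := two_tri (2 * n)
      nlinarith
    have h2 : tri (2 * n + 1) = (n + 1) * (2 * n + 1) := by
      have := two_tri (2 * n + 1)
      nlinarith
    rw [h1, h2]
    have hJ := J_mul n
    linear_combination h + X ^ ((n + 1) * (2 * n + 1)) * hJ

/-! ### (I5) Euler -/

def Q (s d : ℕ) : PowerSeries ℤ := ∏ i ∈ range d, (1 - X ^ (s + i + 1))

lemma Q_zero (s : ℕ) : Q s 0 = 1 := by simp [Q]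

lemma Q_succ (s d : ℕ) : Q s (d + 1) = Q s d * (1 - X ^ (s + d + 1)) := by
  rw [Q, Q, prod_range_succ]

lemma Q_succ' (s d : ℕ) : Q s (d + 1) = (1 - X ^ (s + 1)) * Q (s + 1) d := by
  rw [Q, Q, prod_range_succ', mul_comm, add_zero]
  congr 1
  apply prod_congr rfl
  intro i _
  rw [show s + (i + 1) + 1 = s + 1 + i + 1 by ring]

lemma euler_aux (n : ℕ) : ∀ s : ℕ, s ≤ n →
    ∑ j ∈ range (s + 1), ((-1) ^ j * Q j (n + 1 - j) * X ^ (j * (n + 1) + tri j) -
      (-1) ^ j * Q j (n - j) * X ^ (j * n + tri j)) =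
      (-1) ^ (s + 1) * Q s (n - s) * X ^ ((s + 1) * n + tri (s + 1)) := by
  intro s
  induction s with
  | zero =>
    intro _
    rw [zero_add, sum_range_one, Nat.sub_zero, Nat.sub_zero, Q_succ, zero_add]
    simp only [tri, zero_mul, pow_zero, mul_one, one_mul, mul_zero, zero_add, pow_one, add_zero]
    ring
  | succ s ih =>
    intro hs
    rw [sum_range_succ, ih (by omega)]
    obtain ⟨d, rfl⟩ : ∃ d, n = s + 1 + d := ⟨n - (s + 1), by omega⟩
    rw [show s + 1 + d - s = d + 1 by omega, show s + 1 + d + 1 - (s + 1) = d + 1 by omega,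
      show s + 1 + d - (s + 1) = d by omega, Q_succ' s d, Q_succ (s + 1) d]
    rw [tri.eq_2 (s + 1)]
    rw [show (s + 1) * (s + 1 + d + 1) + tri (s + 1) = ((s + 1) * (s + 1 + d) + tri (s + 1)) + (s + 1) by ring,
      show (s + 1 + 1) * (s + 1 + d) + (tri (s + 1) + (s + 1 + 1)) = ((s + 1) * (s + 1 + d) + tri (s + 1)) + (s + 1 + d + 1) + (s + 1) by ring]
    rw [pow_add X ((s + 1) * (s + 1 + d) + tri (s + 1) + (s + 1 + d + 1)), pow_add X ((s + 1) * (s + 1 + d) + tri (s + 1)),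
      pow_add X ((s + 1) * (s + 1 + d) + tri (s + 1))]
    ring

/-- pentagonal sum -/
def Pent (n : ℕ) : PowerSeries ℤ := ∑ j ∈ range n, (-1) ^ j * X ^ (j * j + tri j) * (1 - X ^ (2 * j + 1))

lemma euler (n : ℕ) : ∑ j ∈ range (n + 1), (-1) ^ j * Q j (n - j) * X ^ (j * n + tri j) =
    Pent n + (-1) ^ n * X ^ (n * n + tri n) := by
  induction n with
  | zero => simp [Pent, tri, Q]
  | succ n ih =>
    have h := euler_aux n n le_rfl
    rw [Nat.sub_self, Q_zero, sum_sub_distrib, ih] at h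
    rw [sum_range_succ, Nat.sub_self, Q_zero]
    have hP : Pent (n + 1) = Pent n + (-1) ^ n * X ^ (n * n + tri n) * (1 - X ^ (2 * n + 1)) := by
      rw [Pent, sum_range_succ, ← Pent]
    rw [hP]
    rw [tri] at h ⊢
    rw [show (n + 1) * n + (tri n + (n + 1)) = (n * n + tri n) + (2 * n + 1) by ring, pow_add X (n * n + tri n)] at h
    linear_combination h

end

end Pool.Agent.V11306.Co1
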