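import Mathlib
import Pool.Agent.V11306.Co1

set_option linter.all false

namespace Pool.Agent.V11306.Co2

open Finset PowerSeries Pool.Agent.V11306.Co1

noncomputable section

abbrev φ (N : ℕ) : PowerSeries ℤ →+* PowerSeries ℤ ⧸ (Ideal.span {(X : PowerSeries ℤ) ^ N}) :=
  Ideal.Quotient.mk _

lemma φ_pow {N k : ℕ} (h : N ≤ k) : φ N (X ^ k) = 0 := by
  rw [Ideal.Quotient.eq_zero_iff_mem, Ideal.mem_span_singleton]
  exact pow_dvd_pow _ h

def TriM (n : ℕ) : PowerSeries ℤ := ∑ u ∈ range n, (-1) ^ u * X ^ tri u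
def TriS (n : ℕ) : PowerSeries ℤ := ∑ u ∈ range n, X ^ tri u
def PS (n : ℕ) : PowerSeries ℤ := ∑ j ∈ range n, X ^ (j * j + tri j) * (1 - X ^ (2 * j + 1))

lemma I1 {N M U : ℕ} (hM : N ≤ M) (hU : N ≤ U) : φ N (∑ m ∈ range M, r 0 m) = φ N (TriM U) := by
  have h : ∀ U : ℕ, φ N (∑ m ∈ range M, r 0 m) = φ N (TriM U) + φ N ((-1) ^ U * X ^ tri U * ∑ m ∈ range M, r U m) := by
    intro U
    induction U with
    | zero => simp [TriM, tri]
    | succ U ih =>
      have h1 := congrArg (φ N) (r_tele U M)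
      have h2 : φ N (Gr U M) = 0 := by
        rw [Gr, map_mul, map_mul, map_mul, φ_pow (by nlinarith)]
        ring
      rw [map_sub, h2, map_add, map_mul] at h1
      rw [ih, TriM, TriM, sum_range_succ, tri, map_add]
      simp only [map_mul, map_pow, map_neg, map_one, pow_add, pow_succ, pow_zero] at h1 ⊢
      linear_combination ((-1) ^ U * (φ N X) ^ tri U) * h1
  rw [h U, map_mul, map_mul, φ_pow (le_trans hU (le_tri U))]
  ring

lemma I2 {N M U : ℕ} (hM : N ≤ M) (hU : N ≤ U) : φ N (∑ m ∈ range M, l 0 m) = φ N (PS U) := by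
  have h : ∀ U : ℕ, φ N (∑ m ∈ range M, l 0 m) = φ N (PS U) + φ N (X ^ (U * U + tri U) * ∑ m ∈ range M, l U m) := by
    intro U
    induction U with
    | zero => simp [PS, tri]
    | succ U ih =>
      have h1 := congrArg (φ N) (l_tele U M)
      have h2 : φ N (Gl U M) = 0 := by
        have := le_tri M
        rw [Gl, map_mul, map_mul, map_mul, φ_pow (by nlinarith)]
        ring
      rw [map_sub, map_sub, h2, map_mul, map_sub] at h1
      rw [ih, PS, PS, sum_range_succ, tri, map_add]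
      rw [show (U + 1) * (U + 1) + (tri U + (U + 1)) = (U * U + tri U) + (3 * U + 2) by ring,
        pow_add X (U * U + tri U)]
      simp only [map_mul, map_sub, map_one] at h1 ⊢
      linear_combination (φ N (X ^ (U * U + tri U))) * h1
  have := le_tri U
  rw [h U, map_mul, φ_pow (by nlinarith)]
  ring

/-- `1/(X;X²)_m` -/
def OI (m : ℕ) : PowerSeries ℤ := invOfUnit (O m) 1

lemma O_OI (m : ℕ) : O m * OI m = 1 := by
  apply mul_invOfUnit
  rw [O, map_prod]
  simp

lemma OI_succ (m : ℕ) : OI m = (1 - X ^ (2 * m + 1)) * OI (m + 1) := by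
  have h1 := O_OI m
  have h2 := O_OI (m + 1)
  rw [O_succ] at h2
  linear_combination (-OI m) * h2 + ((1 - X ^ (2 * m + 1)) * OI (m + 1)) * h1

lemma OI_zero : OI 0 = 1 := by
  have := O_OI 0
  rwa [O, prod_range_zero, one_mul] at this

lemma t_one (m : ℕ) : t 1 m = r 0 m := by
  have h : D 1 m = (-1) ^ m * O m := by
    induction m with
    | zero => simp [D, O]
    | succ m ih => rw [D_succ, O_succ, ih]; ring
  rw [t, r, h, show 2 * 0 * m + m ^ 2 + m = m ^ 2 + m by ring]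
  ring

lemma D_zero (m : ℕ) : D 0 m = X ^ (m ^ 2) := by
  induction m with
  | zero => simp [D]
  | succ m ih => rw [D_succ, ih, sub_zero, ← pow_add]; congr 1; ring

lemma D_dvd (x : PowerSeries ℤ) (m : ℕ) : x ∣ D x m - D 0 m := by
  induction m with
  | zero => simp [D]
  | succ m ih =>
    obtain ⟨e, he⟩ := ih
    rw [D_succ, D_succ]
    refine ⟨e * X ^ (2 * m + 1) - D x m, ?_⟩
    linear_combination (X ^ (2 * m + 1)) * he

def sm (k : ℕ) : PowerSeries ℤ := X ^ (2 * k) * EP 0 (2 * k) * OI (k + 1)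

lemma I3 {N M : ℕ} (hM : N ≤ M) (K : ℕ) : φ N (∑ m ∈ range (M + 1), t 1 m) =
    φ N (EP 0 (2 * K) * OI K) * φ N (∑ m ∈ range (M + 1), t (X ^ (2 * K)) m) - φ N (2 * X * ∑ k ∈ range K, sm k) := by
  induction K with
  | zero => simp [EP, OI_zero]
  | succ K ih =>
    have h1 := congrArg (φ N) (t_tele (X ^ (2 * K)) M)
    have h2 : φ N (X ^ (2 * K) * (1 - X * X ^ (2 * K)) * X ^ (2 * M + 2) *
        (X ^ (M ^ 2 + M) * D (X ^ (2 * K)) M * E 0 (2 * M + 1))) = 0 := by
      rw [map_mul, map_mul, φ_pow (show N ≤ 2 * M + 2 by omega)]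
      ring
    rw [map_sub, map_sub, h2, map_mul, map_mul (φ N) (1 - X * X ^ (2 * K)), sub_zero] at h1
    rw [ih, sum_range_succ (fun k => sm k), sm, show 2 * (K + 1) = 2 * K + 1 + 1 by ring, EP_succ, EP_succ, OI_succ K]
    rw [show (X : PowerSeries ℤ) ^ (2 * K + 1 + 1) = X ^ 2 * X ^ (2 * K) by ring,
      show (X : PowerSeries ℤ) ^ (0 + 2 * K + 1) = X * X ^ (2 * K) by ring,
      show (X : PowerSeries ℤ) ^ (0 + (2 * K + 1) + 1) = X ^ 2 * X ^ (2 * K) by ring,
      show (X : PowerSeries ℤ) ^ (2 * K + 1) = X * X ^ (2 * K) by ring]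
    simp only [map_mul, map_sub, map_one, map_add] at h1 ⊢
    linear_combination (-(φ N (EP 0 (2 * K))) * φ N (OI (K + 1))) * h1

lemma t_lim {N M K : ℕ} (hK : N ≤ 2 * K) : φ N (∑ m ∈ range (M + 1), t (X ^ (2 * K)) m) =
    φ N (∑ m ∈ range (2 * (M + 1)), l 0 m) := by
  rw [l_pair, map_sum, map_sum]
  apply sum_congr rfl
  intro m _
  obtain ⟨e, he⟩ := D_dvd (X ^ (2 * K)) m
  rw [t]
  have : D (X ^ (2 * K)) m = X ^ (m ^ 2) + X ^ (2 * K) * e := by rw [← he, D_zero]; ring
  rw [this, show 2 * m ^ 2 + m = (m ^ 2 + m) + m ^ 2 by ring, pow_add X (m ^ 2 + m)]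
  rw [map_mul, map_mul, map_add, map_mul (φ N) (X ^ (2 * K)), φ_pow hK, map_mul, map_mul]
  ring

lemma I4 {N K : ℕ} (hK : N ≤ K) : φ N (R 0 K) = φ N (TriS (2 * K)) := by
  have h := congrArg (φ N) (gauss K)
  rw [TriS, ← h, map_sum]
  cases K with
  | zero =>
    obtain rfl : N = 0 := by omega
    rw [R_zero, sum_range_zero, ← pow_zero X, φ_pow le_rfl]
  | succ K =>
    rw [sum_range_succ', sum_eq_zero]
    · simp
    · intro j _
      rw [map_mul, φ_pow (by nlinarith)]
      ring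

lemma prodJ (K : ℕ) : OI K = ∏ i ∈ range K, J i := by
  induction K with
  | zero => rw [OI_zero]; simp
  | succ K ih =>
    rw [prod_range_succ, ← ih, OI_succ K]
    have := J_mul K
    linear_combination (-OI (K + 1)) * this

lemma I4' {N K : ℕ} (hK : N ≤ K) : φ N (Q 0 (2 * K) * (EP 0 (2 * K) * OI K)) = φ N (TriS (2 * K)) := by
  rw [← I4 hK]
  have h1 : Q 0 (2 * K) * EP 0 (2 * K) = ∏ i ∈ range (2 * K), (1 - X ^ (2 * i + 2)) := by
    rw [Q, EP, ← prod_mul_distrib]
    apply prod_congr rfl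
    intro i _
    rw [show (X : PowerSeries ℤ) ^ (2 * i + 2) = X ^ (0 + i + 1) * X ^ (0 + i + 1) by ring]
    ring
  have h2 : φ N (∏ i ∈ range (2 * K), (1 - X ^ (2 * i + 2))) = φ N (∏ i ∈ range K, (1 - X ^ (2 * i + 2))) := by
    rw [map_prod, map_prod]
    symm
    apply prod_subset
    · intro i hi; rw [mem_range] at hi ⊢; omega
    · intro i _ hi
      rw [mem_range] at hi
      rw [map_sub, φ_pow (by omega), map_one, sub_zero]
  have h3 : R 0 K = (∏ i ∈ range K, (1 - X ^ (2 * i + 2))) * OI K := by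
    rw [prodJ, R, ← prod_mul_distrib]
    apply prod_congr rfl
    intro i _
    rw [zero_add]
  rw [← mul_assoc, h1, map_mul, h2, ← map_mul, ← h3]

lemma I5 {N n : ℕ} (hn : N ≤ n) : φ N (Q 0 n) = φ N (Pent n) := by
  have h := congrArg (φ N) (euler n)
  rw [map_add, map_mul (φ N) ((-1) ^ n), φ_pow (show N ≤ n * n + tri n by have := le_tri n; nlinarith), mul_zero, add_zero] at h
  rw [← h, map_sum, sum_range_succ', sum_eq_zero]
  · simp [tri]
  · intro j _
    rw [map_mul, φ_pow (by nlinarith)]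
    ring

def DS (n : ℕ) : PowerSeries ℤ := ∑ j ∈ range n, ∑ u ∈ range n, (1 - (-1) ^ (j + u)) *
  (X ^ (j * j + tri j + tri u) - X ^ (j * j + tri j + (2 * j + 1) + tri u))

lemma DS_eq (n : ℕ) : DS n = TriS n * PS n - Pent n * TriM n := by
  have h1 : TriS n * PS n = ∑ j ∈ range n, ∑ u ∈ range n, X ^ tri u * (X ^ (j * j + tri j) * (1 - X ^ (2 * j + 1))) := by
    rw [mul_comm, PS, TriS, sum_mul_sum]
    apply sum_congr rfl; intro j _
    apply sum_congr rfl; intro u _
    ring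
  have h2 : Pent n * TriM n = ∑ j ∈ range n, ∑ u ∈ range n, (-1) ^ (j + u) * X ^ tri u * (X ^ (j * j + tri j) * (1 - X ^ (2 * j + 1))) := by
    rw [Pent, TriM, sum_mul_sum]
    apply sum_congr rfl; intro j _
    apply sum_congr rfl; intro u _
    ring
  rw [h1, h2, DS, ← sum_sub_distrib]
  apply sum_congr rfl; intro j _
  rw [← sum_sub_distrib]
  apply sum_congr rfl; intro u _
  rw [pow_add X (j * j + tri j + (2 * j + 1)), pow_add X (j * j + tri j) (2 * j + 1), pow_add X (j * j + tri j) (tri u)]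
  ring

theorem main {N K : ℕ} (hK : N ≤ K) : φ N (2 * X * (Q 0 (2 * K) * ∑ k ∈ range K, sm k)) = φ N (DS (2 * K)) := by
  have h1 : φ N (∑ m ∈ range (K + 1), t 1 m) = φ N (TriM (2 * K)) := by
    rw [← I1 (show N ≤ K + 1 by omega) (show N ≤ 2 * K by omega)]
    congr 1
    apply sum_congr rfl
    intro m _
    exact t_one m
  have h2 := I3 hK K
  rw [h1, t_lim (by omega), I2 (show N ≤ 2 * (K + 1) by omega) (show N ≤ 2 * K by omega)] at h2
  have h3 := I4' hK
  have h4 := I5 (show N ≤ 2 * K by omega)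
  rw [DS_eq, map_sub, map_mul (φ N) (TriS _), map_mul (φ N) (Pent _), ← h3, ← h4, h2]
  simp only [map_mul]
  ring

end

end Pool.Agent.V11306.Co2
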