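import Mathlib

/-!
# A bounded-discrepancy obstruction (Kesten type argument)
-/

set_option linter.all false

namespace Pool.Agent.V11306.Ke1

open Finset Filter Topology Real

/-- sign of a real number -/
noncomputable def sg (r : ℝ) : ℤ := if 0 < r then 1 else if r < 0 then -1 else 0

lemma sg_pos {r : ℝ} (h : 0 < r) : sg r = 1 := by simp [sg, h]
lemma sg_neg {r : ℝ} (h : r < 0) : sg r = -1 := by simp [sg, h, not_lt.mpr h.le]

noncomputable def f1 (x : Angle) : ℝ := x.cos + √3 * x.sin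
noncomputable def f2 (x : Angle) : ℝ := x.cos - √3 * x.sin
noncomputable def f3 (x : Angle) : ℝ := x.cos + x.sin / √3
noncomputable def f4 (x : Angle) : ℝ := x.cos - x.sin / √3

noncomputable def G (x : Angle) : ℤ := sg (f1 x) + sg (f2 x) - sg (f3 x) - sg (f4 x)

lemma cf1 : Continuous f1 := by unfold f1; exact Angle.continuous_cos.add (continuous_const.mul Angle.continuous_sin)
lemma cf2 : Continuous f2 := by unfold f2; exact Angle.continuous_cos.sub (continuous_const.mul Angle.continuous_sin)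
lemma cf3 : Continuous f3 := by unfold f3; exact Angle.continuous_cos.add (Angle.continuous_sin.div_const _)
lemma cf4 : Continuous f4 := by unfold f4; exact Angle.continuous_cos.sub (Angle.continuous_sin.div_const _)

/-- the discontinuity -/
noncomputable def x0 : Angle := ((π / 6 : ℝ) : Angle)

instance : CompactSpace Angle := by
  haveI : Fact (0 < 2 * π) := ⟨by positivity⟩
  exact inferInstanceAs (CompactSpace (AddCircle (2 * π)))

lemma dense_nat (β : Angle) (hβ : ∀ n : ℕ, 0 < n → n • β ≠ 0) : DenseRange (fun n : ℕ => n • β) := by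
  haveI : Fact (0 < 2 * π) := ⟨by positivity⟩
  have h0 : addOrderOf β = 0 := addOrderOf_eq_zero_iff'.mpr hβ
  have h1 : DenseRange (fun n : ℤ => n • β) :=
    (AddCircle.denseRange_zsmul_iff (p := 2 * π) (a := (β : AddCircle (2 * π)))).mpr h0
  exact denseRange_zsmul_iff_nsmul.mp h1

lemma sg_eventually {f : Angle → ℝ} (hf : Continuous f) (y : Angle) (h : f y ≠ 0) :
    ∀ᶠ x in 𝓝 y, sg (f x) = sg (f y) := by
  rcases lt_or_gt_of_ne h with h1 | h1
  · filter_upwards [hf.continuousAt.eventually (gt_mem_nhds h1)] with x hx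
    rw [sg_neg h1, sg_neg hx]
  · filter_upwards [hf.continuousAt.eventually (lt_mem_nhds h1)] with x hx
    rw [sg_pos h1, sg_pos hx]

lemma tele (β : Angle) (S : ℤ → ℤ) (hG : ∀ k : ℤ, S (k + 1) - S k = G ((k + 1) • β)) (k : ℤ) (K : ℕ) :
    S (k + K) - S k = ∑ j ∈ range K, G (k • β + ((j : ℤ) + 1) • β) := by
  induction K with
  | zero => simp
  | succ K ih =>
    rw [sum_range_succ, ← ih, ← add_smul]
    have := hG (k + K)
    push_cast
    rw [show k + ((K : ℤ) + 1) = k + K + 1 by ring]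
    linarith

/-- Abstract form of the obstruction. -/
theorem kesten_aux (β : Angle) (hβ : ∀ n : ℕ, 0 < n → n • β ≠ 0)
    (S : ℤ → ℤ) (M : ℤ) (hM : ∀ k, |S k| ≤ M) (hG : ∀ k : ℤ, S (k + 1) - S k = G ((k + 1) • β))
    (z : Angle)
    (hz : ∀ a b : ℕ, ∃ c : ℤ, ∀ O : Set Angle, IsOpen O → z - (a + 1 : ℤ) • β ∈ O →
      ∃ O₁ ⊆ O, ∃ O₂ ⊆ O, IsOpen O₁ ∧ IsOpen O₂ ∧ O₁.Nonempty ∧ O₂.Nonempty ∧
        (∀ x ∈ O₁, ∑ j ∈ range (a + 1 + b), G (x + ((j : ℤ) + 1) • β) = c + 1) ∧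
        (∀ x ∈ O₂, ∑ j ∈ range (a + 1 + b), G (x + ((j : ℤ) + 1) • β) = c - 1)) : False := by
  have hd := dense_nat β hβ
  -- minimal local sup
  let P : ℤ → Prop := fun v => ∃ U : Set Angle, IsOpen U ∧ U.Nonempty ∧ ∀ k : ℤ, k • β ∈ U → S k ≤ v
  have hex : ∀ U : Set Angle, IsOpen U → U.Nonempty → ∃ k : ℤ, k • β ∈ U := by
    intro U hU hne
    obtain ⟨n, hn⟩ := hd.exists_mem_open hU hne
    exact ⟨n, by simpa using hn⟩
  obtain ⟨w, ⟨U, hU, hUne, hUw⟩, hmin⟩ := Int.exists_least_of_bdd (P := P)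
    ⟨-M, by
      rintro v ⟨U, hU, hne, h⟩
      obtain ⟨k, hk⟩ := hex U hU hne
      have h1 := h k hk
      have h2 := (abs_le.mp (hM k)).1
      linarith⟩
    ⟨M, Set.univ, isOpen_univ, Set.univ_nonempty, fun k _ => (abs_le.mp (hM k)).2⟩
  have hatt : ∀ V : Set Angle, IsOpen V → V.Nonempty → V ⊆ U → ∃ k : ℤ, k • β ∈ V ∧ S k = w := by
    intro V hV hVne hVU
    by_contra hcon
    push Not at hcon
    have : P (w - 1) := ⟨V, hV, hVne, fun k hk => by
      have h1 := hUw k (hVU hk)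
      have h2 := hcon k hk
      omega⟩
    have := hmin _ this
    omega
  -- the two visits
  obtain ⟨a, ha⟩ : ∃ a : ℕ, z - (a + 1 : ℤ) • β ∈ U := by
    have hV : IsOpen ((fun y : Angle => z - β - y) ⁻¹' U) := hU.preimage (by fun_prop)
    obtain ⟨u, hu⟩ := hUne
    obtain ⟨n, hn⟩ := hd.exists_mem_open hV ⟨z - β - u, by simpa using hu⟩
    refine ⟨n, ?_⟩
    have : z - ((n : ℤ) + 1) • β = z - β - n • β := by
      rw [add_smul, one_smul, natCast_zsmul]; abel
    rw [this]; exact hn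
  obtain ⟨b, hb⟩ : ∃ b : ℕ, z + (b : ℤ) • β ∈ U := by
    have hV : IsOpen ((fun y : Angle => z + y) ⁻¹' U) := hU.preimage (by fun_prop)
    obtain ⟨u, hu⟩ := hUne
    obtain ⟨n, hn⟩ := hd.exists_mem_open hV ⟨u - z, by simpa using hu⟩
    refine ⟨n, ?_⟩
    rw [natCast_zsmul]; exact hn
  obtain ⟨c, hc⟩ := hz a b
  have hshift : ∀ (V : Set Angle) (d : ℤ), IsOpen V → V.Nonempty → V ⊆ U →
      V ⊆ (fun x : Angle => x + ((a + 1 + b : ℕ) : ℤ) • β) ⁻¹' U →
      (∀ x ∈ V, ∑ j ∈ range (a + 1 + b), G (x + ((j : ℤ) + 1) • β) = d) → d = 0 := by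
    intro V d hV hVne hVU hVK hd'
    apply le_antisymm
    · obtain ⟨k, hk, hkw⟩ := hatt V hV hVne hVU
      have h1 := tele β S hG k (a + 1 + b)
      rw [hd' _ hk] at h1
      have h2 : (k + ((a + 1 + b : ℕ) : ℤ)) • β ∈ U := by
        rw [add_smul]; exact hVK hk
      have h3 := hUw _ h2
      linarith
    · obtain ⟨k, hk, hkw⟩ := hatt ((fun x : Angle => x - ((a + 1 + b : ℕ) : ℤ) • β) ⁻¹' V)
        (hV.preimage (by fun_prop)) (by
          obtain ⟨v, hv⟩ := hVne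
          exact ⟨v + ((a + 1 + b : ℕ) : ℤ) • β, by simpa using hv⟩)
        (fun y hy => by
          have := hVK hy
          simpa using this)
      have hk' : (k - ((a + 1 + b : ℕ) : ℤ)) • β ∈ V := by
        rw [sub_smul]; exact hk
      have h1 := tele β S hG (k - ((a + 1 + b : ℕ) : ℤ)) (a + 1 + b)
      rw [hd' _ hk', sub_add_cancel] at h1
      have h3 := hUw _ (hVU hk')
      linarith
  let O : Set Angle := U ∩ ((fun x : Angle => x + ((a + 1 + b : ℕ) : ℤ) • β) ⁻¹' U)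
  have hO : IsOpen O := hU.inter (hU.preimage (by fun_prop))
  have hzO : z - (a + 1 : ℤ) • β ∈ O := by
    refine ⟨ha, ?_⟩
    show z - (a + 1 : ℤ) • β + ((a + 1 + b : ℕ) : ℤ) • β ∈ U
    have : z - (a + 1 : ℤ) • β + ((a + 1 + b : ℕ) : ℤ) • β = z + (b : ℤ) • β := by
      rw [show (((a + 1 + b : ℕ)) : ℤ) = (a + 1 : ℤ) + b by push_cast; ring, add_smul ((a : ℤ) + 1)]
      abel
    rw [this]; exact hb
  obtain ⟨O₁, h1O, O₂, h2O, ho1, ho2, hn1, hn2, hs1, hs2⟩ := hc O hO hzO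
  have e1 := hshift O₁ _ ho1 hn1 (fun x hx => (h1O hx).1) (fun x hx => (h1O hx).2) hs1
  have e2 := hshift O₂ _ ho2 hn2 (fun x hx => (h2O hx).1) (fun x hx => (h2O hx).2) hs2
  omega

end Pool.Agent.V11306.Ke1
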