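import Mathlib
import Pool.Agent.V11306.Ke1

set_option linter.all false

namespace Pool.Agent.V11306.Ke2

open Finset Filter Topology Real Pool.Agent.V11306.Ke1

lemma s3 : √3 * √3 = 3 := Real.mul_self_sqrt (by norm_num)
lemma s3pos : 0 < √3 := Real.sqrt_pos.mpr (by norm_num)

lemma f1_eq (x : Angle) : f1 x = 2 * (x - ((π / 3 : ℝ) : Angle)).cos := by
  rw [sub_eq_add_neg, Angle.cos_add, Angle.cos_neg, Angle.sin_neg, Angle.cos_coe, Angle.sin_coe, Real.cos_pi_div_three,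
    Real.sin_pi_div_three, f1]
  ring

lemma f2_eq (x : Angle) : f2 x = 2 * (x + ((π / 3 : ℝ) : Angle)).cos := by
  rw [Angle.cos_add, Angle.cos_coe, Angle.sin_coe, Real.cos_pi_div_three,
    Real.sin_pi_div_three, f2]
  ring

lemma f3_eq (x : Angle) : √3 * f3 x = 2 * (x - ((π / 6 : ℝ) : Angle)).cos := by
  rw [sub_eq_add_neg, Angle.cos_add, Angle.cos_neg, Angle.sin_neg, Angle.cos_coe, Angle.sin_coe, Real.cos_pi_div_six,
    Real.sin_pi_div_six, f3]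
  have := s3pos
  field_simp
  ring

lemma f4_eq (x : Angle) : √3 * f4 x = 2 * (x + ((π / 6 : ℝ) : Angle)).cos := by
  rw [Angle.cos_add, Angle.cos_coe, Angle.sin_coe, Real.cos_pi_div_six,
    Real.sin_pi_div_six, f4]
  have := s3pos
  field_simp

lemma two_pi_z (n : ℤ) : (((n : ℝ) * (2 * π) : ℝ) : Angle) = 0 := by
  rw [Angle.intCast_mul_eq_zsmul, Angle.coe_two_pi, smul_zero]

lemma twelve_of_cos {y : Angle} (h : y.cos = 0) : (12 : ℕ) • y = 0 := by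
  rw [Angle.cos_eq_zero_iff] at h
  rcases h with h | h
  · rw [h, ← Angle.coe_nsmul, nsmul_eq_mul]
    rw [show ((12 : ℕ) : ℝ) * (π / 2) = ((3 : ℤ) : ℝ) * (2 * π) by push_cast; ring]
    exact two_pi_z 3 
  · rw [h, ← Angle.coe_nsmul, nsmul_eq_mul]
    rw [show ((12 : ℕ) : ℝ) * (-π / 2) = ((-3 : ℤ) : ℝ) * (2 * π) by push_cast; ring]
    exact two_pi_z (-3)

lemma twelve_third : (12 : ℕ) • ((π / 3 : ℝ) : Angle) = 0 := by
  rw [← Angle.coe_nsmul, nsmul_eq_mul]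
  rw [show ((12 : ℕ) : ℝ) * (π / 3) = ((2 : ℤ) : ℝ) * (2 * π) by push_cast; ring]
  exact two_pi_z 2

lemma twelve_sixth : (12 : ℕ) • ((π / 6 : ℝ) : Angle) = 0 := by
  rw [← Angle.coe_nsmul, nsmul_eq_mul]
  rw [show ((12 : ℕ) : ℝ) * (π / 6) = ((1 : ℤ) : ℝ) * (2 * π) by push_cast; ring]
  exact two_pi_z 1

lemma tw1 {x : Angle} (h : f1 x = 0) : (12 : ℕ) • x = 0 := by
  rw [f1_eq] at h
  have := twelve_of_cos (by linarith : (x - ((π / 3 : ℝ) : Angle)).cos = 0)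
  rwa [smul_sub, twelve_third, sub_zero] at this

lemma tw2 {x : Angle} (h : f2 x = 0) : (12 : ℕ) • x = 0 := by
  rw [f2_eq] at h
  have := twelve_of_cos (by linarith : (x + ((π / 3 : ℝ) : Angle)).cos = 0)
  rwa [smul_add, twelve_third, add_zero] at this

lemma tw3 {x : Angle} (h : f3 x = 0) : (12 : ℕ) • x = 0 := by
  have h' := f3_eq x
  rw [h] at h'
  have := twelve_of_cos (by linarith : (x - ((π / 6 : ℝ) : Angle)).cos = 0)
  rwa [smul_sub, twelve_sixth, sub_zero] at this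

lemma tw4 {x : Angle} (h : f4 x = 0) : (12 : ℕ) • x = 0 := by
  have h' := f4_eq x
  rw [h] at h'
  have := twelve_of_cos (by linarith : (x + ((π / 6 : ℝ) : Angle)).cos = 0)
  rwa [smul_add, twelve_sixth, add_zero] at this

lemma ne_orbit (β : Angle) (hβ : ∀ n : ℕ, 0 < n → n • β ≠ 0) (l : ℤ) (hl : l ≠ 0) :
    (12 : ℕ) • (x0 + l • β) ≠ 0 := by
  rw [smul_add, x0, twelve_sixth, zero_add]
  intro h
  have h1 : (12 * l) • β = 0 := by
    rw [mul_smul, ← h]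
    norm_cast
  have h2 : (12 * l).natAbs • β = 0 := by
    rcases Int.natAbs_eq (12 * l) with h3 | h3
    · rw [h3] at h1
      rwa [natCast_zsmul] at h1
    · rw [h3, neg_smul, neg_eq_zero] at h1
      rwa [natCast_zsmul] at h1
  exact hβ _ (by omega) h2

lemma f1_x0 : f1 x0 ≠ 0 := by
  rw [f1, x0, Angle.cos_coe, Angle.sin_coe, Real.cos_pi_div_six, Real.sin_pi_div_six]
  have := s3pos
  positivity

lemma f3_x0 : f3 x0 ≠ 0 := by
  rw [f3, x0, Angle.cos_coe, Angle.sin_coe, Real.cos_pi_div_six, Real.sin_pi_div_six]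
  have := s3pos
  positivity

lemma f4_x0 : f4 x0 ≠ 0 := by
  rw [f4, x0, Angle.cos_coe, Angle.sin_coe, Real.cos_pi_div_six, Real.sin_pi_div_six]
  have h1 := s3pos
  have h2 := s3
  have h3 : √3 / 2 - 1 / 2 / √3 = 1 / √3 := by
    field_simp
    nlinarith
  rw [h3]
  positivity

lemma f2_near (t : ℝ) : f2 (x0 + (t : Angle)) = - 2 * Real.sin t := by
  rw [f2_eq, x0, ← Angle.coe_add, ← Angle.coe_add, Angle.cos_coe,
    show π / 6 + t + π / 3 = t + π / 2 by ring, Real.cos_add_pi_div_two]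
  ring

theorem local_jump (β : Angle) (hβ : ∀ n : ℕ, 0 < n → n • β ≠ 0) (a b : ℕ) :
    ∃ c : ℤ, ∀ O : Set Angle, IsOpen O → x0 - (a + 1 : ℤ) • β ∈ O →
      ∃ O₁ ⊆ O, ∃ O₂ ⊆ O, IsOpen O₁ ∧ IsOpen O₂ ∧ O₁.Nonempty ∧ O₂.Nonempty ∧
        (∀ x ∈ O₁, ∑ j ∈ range (a + 1 + b), G (x + ((j : ℤ) + 1) • β) = c + 1) ∧
        (∀ x ∈ O₂, ∑ j ∈ range (a + 1 + b), G (x + ((j : ℤ) + 1) • β) = c - 1) := by
  set y : Angle := x0 - (a + 1 : ℤ) • β with hy
  have hyj : ∀ j : ℕ, y + ((j : ℤ) + 1) • β = x0 + ((j : ℤ) - a) • β := by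
    intro j
    rw [hy, sub_smul, add_smul, add_smul]
    abel
  set A : ℕ → ℤ := fun j => sg (f1 (y + ((j : ℤ) + 1) • β)) - sg (f3 (y + ((j : ℤ) + 1) • β))
    - sg (f4 (y + ((j : ℤ) + 1) • β)) + (if j = a then 0 else sg (f2 (y + ((j : ℤ) + 1) • β))) with hA
  refine ⟨∑ j ∈ range (a + 1 + b), A j, fun O hO hyO => ?_⟩
  have hev : ∀ j : ℕ, ∀ᶠ x in 𝓝 y, G (x + ((j : ℤ) + 1) • β) = A j +
      (if j = a then sg (f2 (x + ((j : ℤ) + 1) • β)) else 0) := by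
    intro j
    have hn : ∀ f : Angle → ℝ, (∀ {x : Angle}, f x = 0 → (12 : ℕ) • x = 0) → f x0 ≠ 0 →
        f (y + ((j : ℤ) + 1) • β) ≠ 0 := by
      intro f hf h0 h
      rw [hyj] at h
      by_cases hj : (j : ℤ) - a = 0
      · rw [hj, zero_smul, add_zero] at h
        exact h0 h
      · exact ne_orbit β hβ _ hj (hf h)
    have hshift : ∀ f : Angle → ℝ, Continuous f → f (y + ((j : ℤ) + 1) • β) ≠ 0 →
        ∀ᶠ x in 𝓝 y, sg (f (x + ((j : ℤ) + 1) • β)) = sg (f (y + ((j : ℤ) + 1) • β)) := by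
      intro f hf h
      exact sg_eventually (f := fun x => f (x + ((j : ℤ) + 1) • β)) (hf.comp (by fun_prop)) y h
    by_cases hj : j = a
    · filter_upwards [hshift f1 cf1 (hn f1 tw1 f1_x0), hshift f3 cf3 (hn f3 tw3 f3_x0),
        hshift f4 cf4 (hn f4 tw4 f4_x0)] with x h1 h3 h4
      rw [G, hA]
      simp only [h1, h3, h4, if_pos hj]
      ring
    · have h2' : f2 (y + ((j : ℤ) + 1) • β) ≠ 0 := by
        rw [hyj]
        intro h
        exact ne_orbit β hβ ((j : ℤ) - a) (by omega) (tw2 h)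
      filter_upwards [hshift f1 cf1 (hn f1 tw1 f1_x0), hshift f3 cf3 (hn f3 tw3 f3_x0),
        hshift f4 cf4 (hn f4 tw4 f4_x0), hshift f2 cf2 h2'] with x h1 h3 h4 h2
      rw [G, hA]
      simp only [h1, h2, h3, h4, if_neg hj]
      ring
  have hev2 : ∀ᶠ x in 𝓝 y, ∀ j ∈ range (a + 1 + b), G (x + ((j : ℤ) + 1) • β) = A j +
      (if j = a then sg (f2 (x + ((j : ℤ) + 1) • β)) else 0) := by
    rw [eventually_all_finset]
    intro j _
    exact hev j
  obtain ⟨W, hW, hWo, hyW⟩ := eventually_nhds_iff.mp hev2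
  have hsum : ∀ x ∈ W, ∑ j ∈ range (a + 1 + b), G (x + ((j : ℤ) + 1) • β) =
      ∑ j ∈ range (a + 1 + b), A j + sg (f2 (x + ((a : ℤ) + 1) • β)) := by
    intro x hx
    rw [sum_congr rfl (hW x hx), sum_add_distrib, sum_ite_eq', if_pos (mem_range.mpr (by omega))]
  have hcf : Continuous (fun x : Angle => f2 (x + ((a : ℤ) + 1) • β)) := cf2.comp (by fun_prop)
  have hpt : ∀ t : ℝ, f2 (y + (t : Angle) + ((a : ℤ) + 1) • β) = -2 * Real.sin t := by
    intro t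
    rw [← f2_near]
    congr 1
    rw [hy]
    abel
  have hnear : ∀ᶠ t : ℝ in 𝓝 0, y + (t : Angle) ∈ O ∩ W := by
    have hc : Continuous (fun t : ℝ => y + (t : Angle)) := by fun_prop
    have h0 : y + ((0 : ℝ) : Angle) ∈ O ∩ W := by
      rw [Angle.coe_zero, add_zero]; exact ⟨hyO, hyW⟩
    exact hc.continuousAt.eventually ((hO.inter hWo).mem_nhds h0)
  obtain ⟨ε, hε, hball⟩ := Metric.eventually_nhds_iff.mp hnear
  set t : ℝ := min (ε / 2) 1 with ht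
  have ht0 : 0 < t := by rw [ht]; positivity
  have ht1 : t ≤ 1 := min_le_right _ _
  have ht2 : t < ε := lt_of_le_of_lt (min_le_left _ _) (by linarith)
  have hsin : 0 < Real.sin t := Real.sin_pos_of_pos_of_lt_pi ht0 (by linarith [Real.pi_gt_three])
  refine ⟨O ∩ W ∩ {x | 0 < f2 (x + ((a : ℤ) + 1) • β)}, fun x hx => hx.1.1,
    O ∩ W ∩ {x | f2 (x + ((a : ℤ) + 1) • β) < 0}, fun x hx => hx.1.1,
    (hO.inter hWo).inter (isOpen_lt continuous_const hcf),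
    (hO.inter hWo).inter (isOpen_lt hcf continuous_const),
    ⟨y + ((-t : ℝ) : Angle), hball (by rw [dist_zero_right, norm_neg, Real.norm_of_nonneg ht0.le]; exact ht2), ?_⟩,
    ⟨y + ((t : ℝ) : Angle), hball (by rw [dist_zero_right, Real.norm_of_nonneg ht0.le]; exact ht2), ?_⟩, ?_, ?_⟩
  · show 0 < f2 (y + ((-t : ℝ) : Angle) + ((a : ℤ) + 1) • β)
    rw [hpt, Real.sin_neg]; linarith
  · show f2 (y + ((t : ℝ) : Angle) + ((a : ℤ) + 1) • β) < 0
    rw [hpt]; linarith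
  · intro x hx
    rw [hsum x hx.1.2, sg_pos hx.2]
  · intro x hx
    rw [hsum x hx.1.2, sg_neg hx.2]
    ring

theorem kesten (β : Angle) (hβ : ∀ n : ℕ, 0 < n → n • β ≠ 0)
    (S : ℤ → ℤ) (M : ℤ) (hM : ∀ k, |S k| ≤ M) (hG : ∀ k : ℤ, S (k + 1) - S k = G ((k + 1) • β)) : False :=
  kesten_aux β hβ S M hM hG x0 (local_jump β hβ)

end Pool.Agent.V11306.Ke2
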