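import Mathlib
import Pool.Agent.V11306.Ke2

set_option linter.all false

namespace Pool.Agent.V11306.Ke3

open Finset Real Pool.Agent.V11306.Ke1 Pool.Agent.V11306.Ke2

/-- powers of `2 + √-3` -/
def a : ℕ → ℤ × ℤ
  | 0 => (1, 0)
  | m + 1 => (2 * (a m).1 - 3 * (a m).2, (a m).1 + 2 * (a m).2)

lemma a_norm (m : ℕ) : (a m).1 ^ 2 + 3 * (a m).2 ^ 2 = 7 ^ m := by
  induction m with
  | zero => simp [a]
  | succ m ih => rw [a, show (7 : ℤ) ^ (m + 1) = 7 * 7 ^ m by ring, ← ih]; ring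

/-- weight of a representation -/
def w (x y : ℕ) : ℤ :=
  if (x + y) % 4 = 0 ∧ y % 2 = 1 then (if x % 6 = 1 then 1 else if x % 6 = 5 then -1 else 0) else 0

lemma w_seven (x y : ℕ) : w (7 * x) (7 * y) = w x y := by
  unfold w
  split_ifs <;> first | rfl | omega

lemma w_five (x y : ℕ) : w (5 * x) (5 * y) = - w x y := by
  unfold w
  split_ifs <;> first | rfl | omega

/-- representations of `4E` -/
def Sol (E : ℕ) : Finset (ℕ × ℕ) :=
  (range (2 * E + 1) ×ˢ range (2 * E + 1)).filter (fun p => p.1 ^ 2 + 3 * p.2 ^ 2 = 4 * E)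

lemma mem_Sol {E : ℕ} {p : ℕ × ℕ} : p ∈ Sol E ↔ p.1 ^ 2 + 3 * p.2 ^ 2 = 4 * E := by
  rw [Sol, mem_filter, mem_product, mem_range, mem_range]
  constructor
  · exact fun h => h.2
  · intro h
    refine ⟨⟨?_, ?_⟩, h⟩
    · by_contra hc
      push Not at hc
      nlinarith
    · by_contra hc
      push Not at hc
      nlinarith

def F (E : ℕ) : ℤ := ∑ p ∈ Sol E, w p.1 p.2

lemma step_one (m : ℕ) (x y : ℤ) (h : x ^ 2 + 3 * y ^ 2 = 4 * 7 ^ (m + 1)) (hxy : (7 : ℤ) ∣ x - 2 * y)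
    (IH : ∀ x y : ℤ, x ^ 2 + 3 * y ^ 2 = 4 * 7 ^ m → ((7 : ℤ) ∣ x ∧ (7 : ℤ) ∣ y) ∨ ∃ u v : ℤ, u ^ 2 + 3 * v ^ 2 = 4 ∧
      ((x = u * (a m).1 - 3 * v * (a m).2 ∧ y = u * (a m).2 + v * (a m).1) ∨
       (x = u * (a m).1 + 3 * v * (a m).2 ∧ y = - u * (a m).2 + v * (a m).1))) :
    ((7 : ℤ) ∣ x ∧ (7 : ℤ) ∣ y) ∨ ∃ u v : ℤ, u ^ 2 + 3 * v ^ 2 = 4 ∧
      ((x = u * (a (m + 1)).1 - 3 * v * (a (m + 1)).2 ∧ y = u * (a (m + 1)).2 + v * (a (m + 1)).1) ∨
       (x = u * (a (m + 1)).1 + 3 * v * (a (m + 1)).2 ∧ y = - u * (a (m + 1)).2 + v * (a (m + 1)).1)) := by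
  obtain ⟨d, hd⟩ := hxy
  -- y' = -d, x' = y + 2 d
  have hx : x = 2 * (y + 2 * d) - 3 * (-d) := by linarith
  have hy : y = (y + 2 * d) + 2 * (-d) := by ring
  have hn : (y + 2 * d) ^ 2 + 3 * (-d) ^ 2 = 4 * 7 ^ m := by
    have : 7 * ((y + 2 * d) ^ 2 + 3 * (-d) ^ 2) = 7 * (4 * 7 ^ m) := by
      rw [show (7 : ℤ) * (4 * 7 ^ m) = 4 * 7 ^ (m + 1) by ring, ← h, hx]
      ring
    linarith
  rcases IH _ _ hn with ⟨h1, h2⟩ | ⟨u, v, huv, h12 | h12⟩
  · left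
    rw [hx]
    refine ⟨dvd_sub (Dvd.dvd.mul_left h1 _) (Dvd.dvd.mul_left h2 _), ?_⟩
    rw [hy]
    exact dvd_add h1 (Dvd.dvd.mul_left h2 _)
  · right
    refine ⟨u, v, huv, Or.inl ⟨?_, ?_⟩⟩
    · rw [hx, h12.1, h12.2, a]; ring
    · rw [hy, h12.1, h12.2, a]; ring
  · cases m with
    | zero =>
      right
      refine ⟨u, v, huv, Or.inl ⟨?_, ?_⟩⟩
      · rw [hx, h12.1, h12.2]; simp only [a]; ring
      · rw [hy, h12.1, h12.2]; simp only [a]; ring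
    | succ m =>
      left
      constructor
      · refine ⟨u * (a m).1 + 3 * v * (a m).2, ?_⟩
        rw [hx, h12.1, h12.2, a]; ring
      · refine ⟨- u * (a m).2 + v * (a m).1, ?_⟩
        rw [hy, h12.1, h12.2, a]; ring

lemma prim (m : ℕ) : ∀ x y : ℤ, x ^ 2 + 3 * y ^ 2 = 4 * 7 ^ m → ((7 : ℤ) ∣ x ∧ (7 : ℤ) ∣ y) ∨ ∃ u v : ℤ, u ^ 2 + 3 * v ^ 2 = 4 ∧
      ((x = u * (a m).1 - 3 * v * (a m).2 ∧ y = u * (a m).2 + v * (a m).1) ∨
       (x = u * (a m).1 + 3 * v * (a m).2 ∧ y = - u * (a m).2 + v * (a m).1)) := by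
  induction m with
  | zero =>
    intro x y h
    right
    refine ⟨x, y, by simpa using h, Or.inl ?_⟩
    simp [a]
  | succ m IH =>
    intro x y h
    have h7 : (7 : ℤ) ∣ (x - 2 * y) * (x + 2 * y) := by
      refine ⟨4 * 7 ^ m - y ^ 2, ?_⟩
      have : (7 : ℤ) ^ (m + 1) = 7 * 7 ^ m := by ring
      rw [this] at h
      linarith
    have hp : Prime (7 : ℤ) := by norm_num
    rcases hp.dvd_or_dvd h7 with h1 | h1
    · exact step_one m x y h h1 IH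
    · rcases step_one m x (-y) (by rw [← h]; ring) (by rw [show x - 2 * (-y) = x + 2 * y by ring]; exact h1) IH
        with ⟨h2, h3⟩ | ⟨u, v, huv, h12 | h12⟩
      · left; exact ⟨h2, (dvd_neg.mp h3)⟩
      · right
        refine ⟨u, -v, by rw [← huv]; ring, Or.inr ⟨by rw [h12.1]; ring, ?_⟩⟩
        have := h12.2
        linarith
      · right
        refine ⟨u, -v, by rw [← huv]; ring, Or.inl ⟨by rw [h12.1]; ring, ?_⟩⟩
        have := h12.2
        linarith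

lemma four_cases {u v : ℤ} (h : u ^ 2 + 3 * v ^ 2 = 4) :
    (v = 0 ∧ (u = 2 ∨ u = -2)) ∨ (v = 1 ∧ (u = 1 ∨ u = -1)) ∨ (v = -1 ∧ (u = 1 ∨ u = -1)) := by
  have hv1 : v ≤ 1 := by nlinarith
  have hv2 : -1 ≤ v := by nlinarith
  have hu1 : u ≤ 2 := by nlinarith
  have hu2 : -2 ≤ u := by nlinarith
  interval_cases v <;> interval_cases u <;> simp_all

/-- `(1+4√-3)^k` -/
def A (k : ℕ) : ℤ := (a (2 * k)).1
def B (k : ℕ) : ℤ := (a (2 * k)).2

lemma A_zero : A 0 = 1 := rfl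
lemma B_zero : B 0 = 0 := rfl
lemma A_succ (k : ℕ) : A (k + 1) = A k - 12 * B k := by
  rw [A, A, B, show 2 * (k + 1) = 2 * k + 1 + 1 by ring, a, a]; ring
lemma B_succ (k : ℕ) : B (k + 1) = B k + 4 * A k := by
  rw [B, A, B, show 2 * (k + 1) = 2 * k + 1 + 1 by ring, a, a]; ring

lemma AB_norm (k : ℕ) : A k ^ 2 + 3 * B k ^ 2 = 49 ^ k := by
  rw [A, B, a_norm, pow_mul]; norm_num

lemma A_odd (k : ℕ) : A k % 6 = 1 ∧ B k % 2 = 0 := by
  induction k with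
  | zero => simp [A_zero, B_zero]
  | succ k ih => rw [A_succ, B_succ]; omega

lemma mod7 (k : ℕ) : (A (k + 1) - 2 * B (k + 1)) % 7 = 0 ∧ B (k + 1) % 7 ≠ 0 := by
  induction k with
  | zero => rw [A_succ, B_succ, A_zero, B_zero]; omega
  | succ k ih => rw [A_succ (k + 1), B_succ (k + 1)]; omega

lemma w_p (A B : ℤ) (hA : A % 6 = 1) (hB : B % 2 = 0) :
    2 * w (A + 3 * B).natAbs (A - B).natAbs = (A + 3 * B).sign - (A - B).sign := by
  have h1 : A + 3 * B ≠ 0 := by omega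
  have h2 : A - B ≠ 0 := by omega
  rcases lt_or_gt_of_ne h1 with h3 | h3 <;> rcases lt_or_gt_of_ne h2 with h4 | h4
  · rw [Int.sign_eq_neg_one_of_neg h3, Int.sign_eq_neg_one_of_neg h4]
    unfold w; split_ifs <;> omega
  · rw [Int.sign_eq_neg_one_of_neg h3, Int.sign_eq_one_of_pos h4]
    unfold w; split_ifs <;> omega
  · rw [Int.sign_eq_one_of_pos h3, Int.sign_eq_neg_one_of_neg h4]
    unfold w; split_ifs <;> omega
  · rw [Int.sign_eq_one_of_pos h3, Int.sign_eq_one_of_pos h4]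
    unfold w; split_ifs <;> omega

lemma w_p3 (A B : ℤ) : w (2 * A).natAbs (2 * B).natAbs = 0 := by
  unfold w; split_ifs <;> omega

lemma F_one : F 1 = 0 := by decide +kernel

/-- the primitive solutions -/
def Pr (k : ℕ) : Finset (ℕ × ℕ) :=
  {((A k + 3 * B k).natAbs, (A k - B k).natAbs), ((A k - 3 * B k).natAbs, (A k + B k).natAbs),
    ((2 * A k).natAbs, (2 * B k).natAbs)}

lemma natAbs_eq_nat {x : ℕ} {z : ℤ} (h : (x : ℤ) = z ∨ (x : ℤ) = -z) : x = z.natAbs := by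
  omega

lemma Sol_succ (k : ℕ) : Sol (49 ^ (k + 1)) = (Sol (49 ^ k)).image (fun p => (7 * p.1, 7 * p.2)) ∪ Pr (k + 1) := by
  ext ⟨x, y⟩
  rw [mem_Sol, mem_union, mem_image]
  constructor
  · intro h
    have hz : ((x : ℤ)) ^ 2 + 3 * (y : ℤ) ^ 2 = 4 * 7 ^ (2 * (k + 1)) := by
      rw [pow_mul]
      have : ((x ^ 2 + 3 * y ^ 2 : ℕ) : ℤ) = ((4 * 49 ^ (k + 1) : ℕ) : ℤ) := by exact_mod_cast h
      push_cast at this
      norm_num
      exact this
    rcases prim _ _ _ hz with ⟨h1, h2⟩ | ⟨u, v, huv, h12⟩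
    · left
      have h1' : 7 ∣ x := by exact_mod_cast h1
      have h2' : 7 ∣ y := by exact_mod_cast h2
      obtain ⟨x', rfl⟩ := h1'
      obtain ⟨y', rfl⟩ := h2'
      refine ⟨(x', y'), ?_, rfl⟩
      rw [mem_Sol]
      have : 49 * (x' ^ 2 + 3 * y' ^ 2) = 49 * (4 * 49 ^ k) := by
        have h3 : (49 : ℕ) ^ (k + 1) = 49 * 49 ^ k := by ring
        rw [h3] at h
        simp only [] at h ⊢
        nlinarith
      exact Nat.eq_of_mul_eq_mul_left (by norm_num) this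
    · right
      change ((x : ℤ) = u * A (k + 1) - 3 * v * B (k + 1) ∧ (y : ℤ) = u * B (k + 1) + v * A (k + 1)) ∨
        ((x : ℤ) = u * A (k + 1) + 3 * v * B (k + 1) ∧ (y : ℤ) = - u * B (k + 1) + v * A (k + 1)) at h12
      rw [Pr]
      simp only [mem_insert, mem_singleton, Prod.mk.injEq]
      generalize A (k + 1) = A' at h12 ⊢
      generalize B (k + 1) = B' at h12 ⊢
      rcases four_cases huv with ⟨rfl, rfl | rfl⟩ | ⟨rfl, rfl | rfl⟩ | ⟨rfl, rfl | rfl⟩ <;>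
        rcases h12 with ⟨h1, h2⟩ | ⟨h1, h2⟩ <;> omega
  · rintro (⟨⟨x', y'⟩, h, h'⟩ | h)
    · rw [mem_Sol] at h
      simp only [Prod.mk.injEq] at h' h
      obtain ⟨rfl, rfl⟩ := h'
      show (7 * x') ^ 2 + 3 * (7 * y') ^ 2 = 4 * 49 ^ (k + 1)
      calc (7 * x') ^ 2 + 3 * (7 * y') ^ 2 = 49 * (x' ^ 2 + 3 * y' ^ 2) := by ring
        _ = 4 * 49 ^ (k + 1) := by rw [h]; ring
    · have hn := AB_norm (k + 1)
      rw [Pr] at h
      simp only [mem_insert, mem_singleton, Prod.mk.injEq] at h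
      have : ((x ^ 2 + 3 * y ^ 2 : ℕ) : ℤ) = ((4 * 49 ^ (k + 1) : ℕ) : ℤ) := by
        push_cast
        rw [← hn]
        rcases h with ⟨rfl, rfl⟩ | ⟨rfl, rfl⟩ | ⟨rfl, rfl⟩
        · rw [Int.natCast_natAbs, Int.natCast_natAbs, sq_abs, sq_abs]; ring
        · rw [Int.natCast_natAbs, Int.natCast_natAbs, sq_abs, sq_abs]; ring
        · rw [Int.natCast_natAbs, Int.natCast_natAbs, sq_abs, sq_abs]; ring
      exact_mod_cast this


lemma F_succ (k : ℕ) : 2 * F (49 ^ (k + 1)) - 2 * F (49 ^ k) =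
    (A (k + 1) + 3 * B (k + 1)).sign - (A (k + 1) - B (k + 1)).sign +
      ((A (k + 1) - 3 * B (k + 1)).sign - (A (k + 1) + B (k + 1)).sign) := by
  obtain ⟨h1, h2⟩ := mod7 k
  obtain ⟨h3, h4⟩ := A_odd (k + 1)
  have hw1 := w_p (A (k + 1)) (B (k + 1)) h3 h4
  have hw2 := w_p (A (k + 1)) (-B (k + 1)) h3 (by omega)
  have hw3 := w_p3 (A (k + 1)) (B (k + 1))
  rw [show A (k + 1) + 3 * -B (k + 1) = A (k + 1) - 3 * B (k + 1) by ring, sub_neg_eq_add] at hw2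
  have hdis : Disjoint ((Sol (49 ^ k)).image (fun p => (7 * p.1, 7 * p.2))) (Pr (k + 1)) := by
    rw [disjoint_left]
    rintro ⟨x, y⟩ hx hy
    rw [mem_image] at hx
    obtain ⟨⟨x', y'⟩, _, h'⟩ := hx
    simp only [Prod.mk.injEq] at h'
    obtain ⟨rfl, rfl⟩ := h'
    rw [Pr] at hy
    simp only [mem_insert, mem_singleton, Prod.mk.injEq] at hy
    generalize A (k + 1) = A' at *
    generalize B (k + 1) = B' at *
    rcases hy with ⟨_, h5⟩ | ⟨_, h5⟩ | ⟨_, h5⟩ <;> omega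
  have hinj : Set.InjOn (fun p : ℕ × ℕ => (7 * p.1, 7 * p.2)) (Sol (49 ^ k) : Finset (ℕ × ℕ)) := by
    rintro ⟨x, y⟩ _ ⟨x', y'⟩ _ h
    simp only [Prod.mk.injEq] at h ⊢
    omega
  have hPr : ∑ p ∈ Pr (k + 1), w p.1 p.2 = w (A (k + 1) + 3 * B (k + 1)).natAbs (A (k + 1) - B (k + 1)).natAbs +
      (w (A (k + 1) - 3 * B (k + 1)).natAbs (A (k + 1) + B (k + 1)).natAbs +
        w (2 * A (k + 1)).natAbs (2 * B (k + 1)).natAbs) := by
    rw [Pr, sum_insert, sum_insert, sum_singleton]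
    · rw [mem_singleton, Prod.mk.injEq]
      generalize A (k + 1) = A' at *
      generalize B (k + 1) = B' at *
      omega
    · rw [mem_insert, mem_singleton, Prod.mk.injEq, Prod.mk.injEq]
      generalize A (k + 1) = A' at *
      generalize B (k + 1) = B' at *
      omega
  rw [F, Sol_succ, sum_union hdis, sum_image hinj, hPr, hw3, F]
  simp only [w_seven]
  linarith

lemma F_five (E : ℕ) : F (25 * E) = - F E := by
  have : Sol (25 * E) = (Sol E).image (fun p => (5 * p.1, 5 * p.2)) := by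
    ext ⟨x, y⟩
    rw [mem_image, mem_Sol]
    constructor
    · intro h
      simp only [] at h
      have h5 : (x ^ 2 + 3 * y ^ 2) % 5 = 0 := by omega
      have hx : x % 5 = 0 ∧ y % 5 = 0 := by
        rw [Nat.add_mod, Nat.mul_mod, Nat.pow_mod, Nat.pow_mod y] at h5
        have h6 : x % 5 < 5 := Nat.mod_lt _ (by norm_num)
        have h7 : y % 5 < 5 := Nat.mod_lt _ (by norm_num)
        generalize x % 5 = r at *
        generalize y % 5 = s at *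
        interval_cases r <;> interval_cases s <;> simp_all
      obtain ⟨x', rfl⟩ := Nat.dvd_of_mod_eq_zero hx.1
      obtain ⟨y', rfl⟩ := Nat.dvd_of_mod_eq_zero hx.2
      refine ⟨(x', y'), ?_, rfl⟩
      rw [mem_Sol]
      simp only []
      nlinarith
    · rintro ⟨⟨x', y'⟩, h, h'⟩
      rw [mem_Sol] at h
      simp only [Prod.mk.injEq] at h' h
      obtain ⟨rfl, rfl⟩ := h'
      show (5 * x') ^ 2 + 3 * (5 * y') ^ 2 = 4 * (25 * E)
      nlinarith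
  rw [F, this, sum_image, F, ← sum_neg_distrib]
  · apply sum_congr rfl
    intro p _
    exact w_five _ _
  · rintro ⟨x, y⟩ _ ⟨x', y'⟩ _ h
    simp only [Prod.mk.injEq] at h ⊢
    omega

end Pool.Agent.V11306.Ke3
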