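import Mathlib
import Pool.Agent.V11306.Ke3

set_option linter.all false

namespace Pool.Agent.V11306.Ke4

open Finset Real Pool.Agent.V11306.Ke1 Pool.Agent.V11306.Ke2 Pool.Agent.V11306.Ke3

noncomputable def β : Angle := ((Real.arccos (1 / 7) : ℝ) : Angle)

lemma cosβ : β.cos = 1 / 7 := by
  rw [β, Angle.cos_coe, Real.cos_arccos (by norm_num) (by norm_num)]

lemma sinβ : β.sin = 4 * √3 / 7 := by
  rw [β, Angle.sin_coe, Real.sin_arccos, Real.sqrt_eq_iff_mul_self_eq (by norm_num) (by positivity)]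
  have := s3
  linear_combination (-16 / 49) * this

lemma pow_cos (k : ℕ) : 7 ^ k * (k • β).cos = A k ∧ 7 ^ k * (k • β).sin = √3 * B k := by
  induction k with
  | zero => simp [A_zero, B_zero]
  | succ k ih =>
    obtain ⟨h1, h2⟩ := ih
    have h3 := s3
    rw [succ_nsmul, Angle.cos_add, Angle.sin_add, cosβ, sinβ, A_succ, B_succ]
    push_cast
    constructor
    · linear_combination h1 - 4 * √3 * h2 - 4 * (B k : ℝ) * h3
    · linear_combination h2 + 4 * √3 * h1

lemma β_inf (n : ℕ) (hn : 0 < n) : n • β ≠ 0 := by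
  intro h
  obtain ⟨k, rfl⟩ : ∃ k, n = k + 1 := ⟨n - 1, by omega⟩
  have h1 := (pow_cos (k + 1)).2
  rw [h, Angle.sin_zero, mul_zero] at h1
  have h2 := (mod7 k).2
  have h3 : (B (k + 1) : ℝ) = 0 := by
    have := s3pos
    rcases mul_eq_zero.mp h1.symm with h4 | h4
    · linarith
    · exact h4
  have h4 : B (k + 1) = 0 := by exact_mod_cast h3
  rw [h4] at h2
  exact h2 rfl

lemma sg_of {c r : ℝ} {z : ℤ} (hc : 0 < c) (h : c * r = z) : sg r = z.sign := by
  rcases lt_trichotomy z 0 with hz | hz | hz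
  · rw [Int.sign_eq_neg_one_of_neg hz]
    apply sg_neg
    have : (z : ℝ) < 0 := by exact_mod_cast hz
    rw [← h] at this
    exact (pos_iff_neg_of_mul_neg this).mp hc
  · subst hz
    rw [Int.cast_zero] at h
    rcases mul_eq_zero.mp h with h1 | h1
    · linarith
    · rw [h1]; simp [sg]
  · rw [Int.sign_eq_one_of_pos hz]
    apply sg_pos
    have : (0 : ℝ) < z := by exact_mod_cast hz
    rw [← h] at this
    exact (pos_iff_pos_of_mul_pos this).mp hc

lemma G_nat (k : ℕ) : G (k • β) = (A k + 3 * B k).sign - (A k - B k).sign +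
      ((A k - 3 * B k).sign - (A k + B k).sign) := by
  obtain ⟨h1, h2⟩ := pow_cos k
  have h3 := s3
  have h3p := s3pos
  have hp : (0 : ℝ) < 7 ^ k := by positivity
  have e1 : sg (f1 (k • β)) = (A k + 3 * B k).sign := by
    apply sg_of hp
    rw [f1]; push_cast
    linear_combination h1 + √3 * h2 + (B k : ℝ) * h3
  have e2 : sg (f2 (k • β)) = (A k - 3 * B k).sign := by
    apply sg_of hp
    rw [f2]; push_cast
    linear_combination h1 - √3 * h2 - (B k : ℝ) * h3
  have hB : 7 ^ k * ((k • β).sin / √3) = B k := by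
    rw [← mul_div_assoc, h2]
    field_simp
  have e3 : sg (f3 (k • β)) = (A k + B k).sign := by
    apply sg_of hp
    rw [f3]; push_cast
    linear_combination h1 + hB
  have e4 : sg (f4 (k • β)) = (A k - B k).sign := by
    apply sg_of hp
    rw [f4]; push_cast
    linear_combination h1 - hB
  rw [G, e1, e2, e3, e4]
  ring

lemma G_neg (x : Angle) : G (-x) = G x := by
  have h1 : f1 (-x) = f2 x := by rw [f1, f2, Angle.cos_neg, Angle.sin_neg]; ring
  have h2 : f2 (-x) = f1 x := by rw [f1, f2, Angle.cos_neg, Angle.sin_neg]; ring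
  have h3 : f3 (-x) = f4 x := by rw [f3, f4, Angle.cos_neg, Angle.sin_neg]; ring
  have h4 : f4 (-x) = f3 x := by rw [f3, f4, Angle.cos_neg, Angle.sin_neg]; ring
  rw [G, G, h1, h2, h3, h4]
  ring

def S : ℤ → ℤ
  | Int.ofNat n => 2 * F (49 ^ n)
  | Int.negSucc n => - (2 * F (49 ^ n))

lemma S_step (k : ℤ) : S (k + 1) - S k = G ((k + 1) • β) := by
  cases k with
  | ofNat n =>
    have h : ((Int.ofNat n) + 1) • β = (n + 1) • β := by
      rw [show (Int.ofNat n) + 1 = ((n + 1 : ℕ) : ℤ) by simp, natCast_zsmul]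
    rw [h, G_nat]
    exact F_succ n
  | negSucc n =>
    cases n with
    | zero =>
      show 2 * F (49 ^ 0) - (- (2 * F (49 ^ 0))) = _
      rw [pow_zero, F_one]
      have : (Int.negSucc 0 + 1) • β = 0 := by
        show (0 : ℤ) • β = 0
        rw [zero_smul]
      rw [this]
      simp [G, f1, f2, f3, f4]
    | succ n =>
      have h0 : Int.negSucc (n + 1) + 1 = Int.negSucc n := by
        rw [Int.negSucc_eq, Int.negSucc_eq]; push_cast; ring
      rw [h0]
      have h : (Int.negSucc n) • β = - ((n + 1) • β) := negSucc_zsmul _ _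
      rw [h, G_neg, G_nat]
      show - (2 * F (49 ^ n)) - (- (2 * F (49 ^ (n + 1)))) = _
      rw [← F_succ n]
      ring

theorem unbounded (M : ℤ) : ∃ k : ℕ, M < |F (49 ^ k)| := by
  by_contra hcon
  push Not at hcon
  refine kesten β β_inf S (2 * M) ?_ S_step
  intro k
  cases k with
  | ofNat n =>
    show |2 * F (49 ^ n)| ≤ _
    rw [abs_mul]
    have := hcon n
    simp only [abs_two]
    linarith
  | negSucc n =>
    show |- (2 * F (49 ^ n))| ≤ _
    rw [abs_neg, abs_mul]
    have := hcon n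
    simp only [abs_two]
    linarith

end Pool.Agent.V11306.Ke4
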