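import Mathlib

namespace Pool.Agent.V11306.Cb

open Finset

variable {ι : Type*} [DecidableEq ι]

/-- number of cube edges inside `A` in direction `i` -/
def dg (A : Finset (Finset ι)) (i : ι) : ℕ :=
  (A.filter (fun x => i ∉ x ∧ insert i x ∈ A)).card

/-- number of cube edges inside `A` in directions from `J` -/
def ed (J : Finset ι) (A : Finset (Finset ι)) : ℕ := ∑ i ∈ J, dg A i

lemma dg_eq (A : Finset (Finset ι)) (i : ι) :
    dg A i = (A.nonMemberSubfamily i ∩ A.memberSubfamily i).card := by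
  unfold dg
  congr 1
  ext x
  simp only [mem_filter, mem_inter, mem_nonMemberSubfamily, mem_memberSubfamily]
  tauto

lemma dg_le_left (A : Finset (Finset ι)) (i : ι) : dg A i ≤ (A.nonMemberSubfamily i).card := by
  rw [dg_eq]; exact card_le_card inter_subset_left

lemma dg_le_right (A : Finset (Finset ι)) (i : ι) : dg A i ≤ (A.memberSubfamily i).card := by
  rw [dg_eq]; exact card_le_card inter_subset_right

lemma card_split (A : Finset (Finset ι)) (i : ι) :
    A.card = (A.nonMemberSubfamily i).card + (A.memberSubfamily i).card := by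
  rw [← card_memberSubfamily_add_card_nonMemberSubfamily i A]; ring

lemma two_dg_le (A : Finset (Finset ι)) (i : ι) : 2 * dg A i ≤ A.card := by
  have h1 := dg_le_left A i
  have h2 := dg_le_right A i
  have h3 := card_split A i
  omega

lemma dg_split (A : Finset (Finset ι)) {i j : ι} (h : j ≠ i) :
    dg A j = dg (A.nonMemberSubfamily i) j + dg (A.memberSubfamily i) j := by
  have hX := card_split (A.filter (fun x => j ∉ x ∧ insert j x ∈ A)) i
  unfold dg
  rw [hX]
  congr 2
  · ext x
    simp only [mem_filter, mem_nonMemberSubfamily]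
    constructor
    · rintro ⟨⟨h1, h2, h3⟩, h4⟩
      refine ⟨⟨h1, h4⟩, h2, h3, ?_⟩
      simp [h4, Ne.symm h]
    · rintro ⟨⟨h1, h4⟩, h2, h3, _⟩
      exact ⟨⟨h1, h2, h3⟩, h4⟩
  · ext x
    simp only [mem_filter, mem_memberSubfamily]
    constructor
    · rintro ⟨⟨h1, h2, h3⟩, h4⟩
      refine ⟨⟨h1, h4⟩, fun h5 => h2 (mem_insert_of_mem h5), ?_, ?_⟩
      · rw [Finset.insert_comm]; exact h3
      · simp [h4, Ne.symm h]
    · rintro ⟨⟨h1, h4⟩, h2, h3, _⟩
      refine ⟨⟨h1, ?_, ?_⟩, h4⟩
      · simp [h2, h]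
      · rw [Finset.insert_comm]; exact h3

lemma ed_insert (J : Finset ι) (A : Finset (Finset ι)) {i : ι} (hi : i ∉ J) :
    ed (insert i J) A
      = dg A i + ed J (A.nonMemberSubfamily i) + ed J (A.memberSubfamily i) := by
  unfold ed
  rw [sum_insert hi, add_assoc, ← sum_add_distrib]
  congr 1
  refine sum_congr rfl fun j hj => dg_split A ?_
  rintro rfl
  exact hi hj

lemma sub_non {J : Finset ι} {A : Finset (Finset ι)} {i : ι}
    (hA : A ⊆ (insert i J).powerset) : A.nonMemberSubfamily i ⊆ J.powerset := by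
  intro x hx
  rw [mem_nonMemberSubfamily] at hx
  have := mem_powerset.1 (hA hx.1)
  rw [mem_powerset]
  exact (subset_insert_iff_of_notMem hx.2).1 this

lemma sub_mem {J : Finset ι} {A : Finset (Finset ι)} {i : ι}
    (hA : A ⊆ (insert i J).powerset) : A.memberSubfamily i ⊆ J.powerset := by
  intro x hx
  rw [mem_memberSubfamily] at hx
  have := mem_powerset.1 (hA hx.1)
  rw [mem_powerset]
  exact (subset_insert_iff_of_notMem hx.2).1 ((subset_insert i x).trans this)

/-! ### Hart's function -/

/-- maximal number of edges spanned by `n` vertices of a cube -/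
def hh (n : ℕ) : ℕ :=
  if h : n < 2 then 0 else hh (n / 2) + hh ((n + 1) / 2) + n / 2
termination_by n
decreasing_by all_goals omega

lemma hh_zero : hh 0 = 0 := by rw [hh]; simp
lemma hh_one : hh 1 = 0 := by rw [hh]; simp

lemma hh_even (m : ℕ) : hh (2 * m) = 2 * hh m + m := by
  rcases Nat.eq_zero_or_pos m with rfl | hm
  · simp [hh_zero]
  · rw [hh]
    have h1 : ¬ (2 * m < 2) := by omega
    have h2 : 2 * m / 2 = m := by omega
    have h3 : (2 * m + 1) / 2 = m := by omega
    rw [dif_neg h1, h2, h3]; ring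

lemma hh_odd (m : ℕ) : hh (2 * m + 1) = hh m + hh (m + 1) + m := by
  rcases Nat.eq_zero_or_pos m with rfl | hm
  · simp [hh_zero, hh_one]
  · rw [hh]
    have h1 : ¬ (2 * m + 1 < 2) := by omega
    have h2 : (2 * m + 1) / 2 = m := by omega
    have h3 : (2 * m + 1 + 1) / 2 = m + 1 := by omega
    rw [dif_neg h1, h2, h3]

lemma hh_super_aux : ∀ n a b : ℕ, a + b ≤ n → a ≤ b → hh a + hh b + a ≤ hh (a + b) := by
  intro n
  induction n using Nat.strong_induction_on with
  | _ n ih =>
    intro a b hn hab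
    rcases Nat.eq_zero_or_pos a with rfl | ha
    · simp [hh_zero]
    rcases Nat.even_or_odd' a with ⟨x, rfl | rfl⟩ <;> rcases Nat.even_or_odd' b with ⟨y, rfl | rfl⟩
    · have h1 := ih (x + y) (by omega) x y le_rfl (by omega)
      have e : 2 * x + 2 * y = 2 * (x + y) := by ring
      rw [e, hh_even, hh_even, hh_even]; omega
    · have h1 := ih (x + y) (by omega) x y le_rfl (by omega)
      have h2 := ih (x + (y + 1)) (by omega) x (y + 1) le_rfl (by omega)
      have e : 2 * x + (2 * y + 1) = 2 * (x + y) + 1 := by ring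
      rw [e, hh_even, hh_odd, hh_odd]
      have e2 : x + (y + 1) = x + y + 1 := by ring
      rw [e2] at h2
      omega
    · have h1 := ih (x + y) (by omega) x y le_rfl (by omega)
      have h2 := ih (x + 1 + y) (by omega) (x + 1) y le_rfl (by omega)
      have e : 2 * x + 1 + 2 * y = 2 * (x + y) + 1 := by ring
      rw [e, hh_even, hh_odd, hh_odd]
      have e2 : x + 1 + y = x + y + 1 := by ring
      rw [e2] at h2
      omega
    · have h2 := ih (x + (y + 1)) (by omega) x (y + 1) le_rfl (by omega)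
      have e : 2 * x + 1 + (2 * y + 1) = 2 * (x + (y + 1)) := by ring
      rw [e, hh_even, hh_odd, hh_odd]
      rcases Nat.lt_or_ge x y with hxy | hxy
      · have h1 := ih (x + 1 + y) (by omega) (x + 1) y le_rfl (by omega)
        have e2 : x + 1 + y = x + (y + 1) := by ring
        rw [e2] at h1
        omega
      · have e3 : x = y := by omega
        subst e3
        omega

lemma hh_super {a b : ℕ} (hab : a ≤ b) : hh a + hh b + a ≤ hh (a + b) :=
  hh_super_aux (a + b) a b le_rfl hab

lemma hh_add (a b : ℕ) : hh a + hh b + min a b ≤ hh (a + b) := by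
  rcases le_total a b with h | h
  · rw [min_eq_left h]; exact hh_super h
  · rw [min_eq_right h]; have := hh_super h; rw [add_comm b a] at this; omega

lemma ed_le_hh (J : Finset ι) : ∀ A : Finset (Finset ι), ed J A ≤ hh A.card := by
  induction J using Finset.induction_on with
  | empty => intro A; simp [ed]
  | insert i J hi ih =>
    intro A
    rw [ed_insert J A hi]
    have h1 := ih (A.nonMemberSubfamily i)
    have h2 := ih (A.memberSubfamily i)
    have h3 := card_split A i
    have h4 := dg_le_left A i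
    have h5 := dg_le_right A i
    have h6 := hh_add (A.nonMemberSubfamily i).card (A.memberSubfamily i).card
    rw [← h3] at h6
    have : dg A i ≤ min (A.nonMemberSubfamily i).card (A.memberSubfamily i).card := le_min h4 h5
    omega

/-! ### the Takagi numbers -/

/-- `tau K r = K r - 2 h(r)` -/
def tau (K r : ℕ) : ℤ := (K : ℤ) * r - 2 * hh r

lemma tau_even (K m : ℕ) : tau (K + 1) (2 * m) = 2 * tau K m := by
  unfold tau; rw [hh_even]; push_cast; ring

lemma tau_odd (K m : ℕ) : tau (K + 1) (2 * m + 1) = tau K m + tau K (m + 1) + 1 := by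
  unfold tau; rw [hh_odd]; push_cast; ring

lemma tau_zero_right (K : ℕ) : tau K 0 = 0 := by simp [tau, hh_zero]
lemma tau_one_right (K : ℕ) : tau K 1 = K := by simp [tau, hh_one]

lemma tau_succ (K r : ℕ) : tau (K + 1) r = tau K r + r := by
  unfold tau; push_cast; ring

lemma tau_symm : ∀ K r s : ℕ, r + s = 2 ^ K → tau K r = tau K s := by
  intro K
  induction K with
  | zero =>
    intro r s h
    simp at h
    have : (r = 0 ∧ s = 1) ∨ (r = 1 ∧ s = 0) := by omega
    rcases this with ⟨rfl, rfl⟩ | ⟨rfl, rfl⟩ <;> simp [tau, hh_zero, hh_one]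
  | succ K ih =>
    intro r s h
    rw [pow_succ] at h
    rcases Nat.even_or_odd' r with ⟨m, rfl | rfl⟩
    · have hs : s = 2 * (2 ^ K - m) := by omega
      rw [hs, tau_even, tau_even, ih m (2 ^ K - m) (by omega)]
    · have hs : s = 2 * (2 ^ K - m - 1) + 1 := by omega
      rw [hs, tau_odd, tau_odd, ih m (2 ^ K - m - 1 + 1) (by omega),
        ih (m + 1) (2 ^ K - m - 1) (by omega)]
      ring

lemma tau_full (K : ℕ) : tau K (2 ^ K) = 0 := by
  rw [tau_symm K (2 ^ K) 0 (by omega), tau_zero_right]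

lemma tau_ge (K : ℕ) : ∀ r : ℕ, 1 ≤ r → r < 2 ^ K → (K : ℤ) ≤ tau K r := by
  induction K with
  | zero => intro r h1 h2; simp at h2; omega
  | succ K ih =>
    intro r h1 h2
    rw [pow_succ] at h2
    rcases Nat.even_or_odd' r with ⟨m, rfl | rfl⟩
    · rw [tau_even]
      have h3 := ih m (by omega) (by omega)
      have h4 : 1 ≤ K := by
        rcases Nat.eq_zero_or_pos K with rfl | h
        · simp at h2; omega
        · exact h
      push_cast
      have : (1 : ℤ) ≤ K := by exact_mod_cast h4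
      linarith
    · rw [tau_odd]
      rcases Nat.eq_zero_or_pos m with rfl | hm
      · rw [tau_zero_right]; simp only [zero_add]; rw [tau_one_right]; push_cast; linarith
      · have h3 := ih m hm (by omega)
        rcases Nat.lt_or_ge (m + 1) (2 ^ K) with h4 | h4
        · have h5 := ih (m + 1) (by omega) h4
          push_cast; linarith [Int.natCast_nonneg K]
        · have h5 : m + 1 = 2 ^ K := by omega
          rw [h5, tau_full]; push_cast; linarith

lemma mul_two_pow_le {K : ℕ} (hK : 1 ≤ K) : ∀ j, K ≤ j → j * 2 ^ K ≤ K * 2 ^ j := by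
  intro j hj
  induction j, hj using Nat.le_induction with
  | base => exact le_rfl
  | succ j hj ih =>
    rw [pow_succ]
    have h1 : 2 ^ K ≤ K * 2 ^ j := by
      calc 2 ^ K ≤ 2 ^ j := Nat.pow_le_pow_right (by norm_num) hj
        _ ≤ K * 2 ^ j := Nat.le_mul_of_pos_left _ hK
    nlinarith

lemma tau_lb (K : ℕ) : ∀ j r : ℕ, 1 ≤ j → 2 ^ K ≤ r * 2 ^ j → r * 2 ^ j + 2 ^ K ≤ 2 ^ K * 2 ^ j →
    (j : ℤ) * 2 ^ K ≤ tau K r * 2 ^ j := by
  induction K with
  | zero =>
    intro j r hj h1 h2
    simp at h1 h2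
    have : 1 ≤ r := by
      rcases Nat.eq_zero_or_pos r with rfl | h
      · simp at h1
      · exact h
    have h3 : 2 ^ j ≤ r * 2 ^ j := Nat.le_mul_of_pos_left _ this
    omega
  | succ K ih =>
    intro j r hj h1 h2
    have hr1 : 1 ≤ r := by
      rcases Nat.eq_zero_or_pos r with rfl | h
      · simp at h1
      · exact h
    have hr2 : r < 2 ^ (K + 1) := by
      by_contra hc
      push Not at hc
      have h3 : 2 ^ (K + 1) * 2 ^ j ≤ r * 2 ^ j := Nat.mul_le_mul_right _ hc
      have : 0 < 2 ^ (K + 1) := by positivity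
      omega
    rcases Nat.lt_or_ge K j with hKj | hKj
    · -- j ≥ K+1
      have h3 := tau_ge (K + 1) r hr1 hr2
      have h4 := mul_two_pow_le (K := K + 1) (by omega) j (by omega)
      have h5 : ((j : ℤ) * 2 ^ (K + 1)) ≤ ((K + 1 : ℕ) : ℤ) * 2 ^ j := by exact_mod_cast h4
      have h6 : (0 : ℤ) < 2 ^ j := by positivity
      nlinarith
    · obtain ⟨q, hq⟩ : ∃ q, K = j + q := ⟨K - j, by omega⟩
      have e1 : 2 ^ K = 2 ^ q * 2 ^ j := by rw [hq, pow_add]; ring
      have hj0 : 0 < 2 ^ j := by positivity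
      -- divide by 2^j
      have h1' : 2 * 2 ^ q ≤ r := by
        have : (2 * 2 ^ q) * 2 ^ j ≤ r * 2 ^ j := by
          calc (2 * 2 ^ q) * 2 ^ j = 2 ^ (K + 1) := by rw [pow_succ, e1]; ring
            _ ≤ _ := h1
        exact Nat.le_of_mul_le_mul_right this hj0
      have h2' : r + 2 * 2 ^ q ≤ 2 * 2 ^ K := by
        have : (r + 2 * 2 ^ q) * 2 ^ j ≤ (2 * 2 ^ K) * 2 ^ j := by
          calc (r + 2 * 2 ^ q) * 2 ^ j = r * 2 ^ j + 2 ^ (K + 1) := by
                rw [pow_succ, e1]; ring
            _ ≤ 2 ^ (K + 1) * 2 ^ j := h2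
            _ = (2 * 2 ^ K) * 2 ^ j := by rw [pow_succ]; ring
        exact Nat.le_of_mul_le_mul_right this hj0
      have key : ∀ m : ℕ, 2 ^ q ≤ m → m + 2 ^ q ≤ 2 ^ K → (j : ℤ) * 2 ^ K ≤ tau K m * 2 ^ j := by
        intro m hm1 hm2
        refine ih j m hj ?_ ?_
        · rw [e1]; exact Nat.mul_le_mul_right _ hm1
        · calc m * 2 ^ j + 2 ^ K = (m + 2 ^ q) * 2 ^ j := by rw [e1]; ring
            _ ≤ 2 ^ K * 2 ^ j := Nat.mul_le_mul_right _ hm2
      rcases Nat.even_or_odd' r with ⟨m, rfl | rfl⟩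
      · rw [tau_even]
        have h3 := key m (by omega) (by omega)
        rw [pow_succ]
        linarith
      · rw [tau_odd]
        have h3 := key m (by omega) (by omega)
        have h4 := key (m + 1) (by omega) (by omega)
        have h6 : (0 : ℤ) < 2 ^ j := by positivity
        rw [pow_succ]
        nlinarith

/-- the basic bound: `E ≤ h(u) + h(v) + v`, `u + v = 2^(K+1)`, `v ≤ 2^K`. -/
lemma tb {K E u v : ℕ} (hE : E ≤ hh u + hh v + v) (huv : u + v = 2 ^ (K + 1)) :
    2 * (E : ℤ) ≤ (K + 1) * 2 ^ (K + 1) - 2 * tau K v := by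
  have h1 : tau (K + 1) u = tau (K + 1) v := tau_symm (K + 1) u v huv
  have h2 := tau_succ K v
  have h3 : ((u : ℤ) + v) = 2 ^ (K + 1) := by exact_mod_cast huv
  have h4 : (E : ℤ) ≤ hh u + hh v + v := by exact_mod_cast hE
  unfold tau at h1 h2 ⊢
  push_cast at h1 h2 ⊢
  rw [← h3]
  nlinarith

end Pool.Agent.V11306.Cb
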