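import Mathlib

namespace Pool.Agent.V11306.Cb

open Finset

/-- polynomial majorant of `1 - H` -/
noncomputable def KK (b : ℝ) : ℝ := 367 / 500 * b ^ 2 + 133 / 500 * b ^ 4

lemma hasSum_H {p : ℝ} (h0 : 0 < p) (h1 : p < 1) :
    HasSum (fun n : ℕ => p * (1 - p) * ((p ^ n + (1 - p) ^ n) / (n + 1)))
      (-p * Real.log p - (1 - p) * Real.log (1 - p)) := by
  have a1 : |p| < 1 := by rw [abs_of_pos h0]; exact h1
  have a2 : |1 - p| < 1 := by rw [abs_of_pos (by linarith)]; linarith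
  have s1 := (Real.hasSum_pow_div_log_of_abs_lt_one a1).mul_left (1 - p)
  have s2 := (Real.hasSum_pow_div_log_of_abs_lt_one a2).mul_left p
  have s := s2.add s1
  have e : p * -Real.log (1 - (1 - p)) + (1 - p) * -Real.log (1 - p)
      = -p * Real.log p - (1 - p) * Real.log (1 - p) := by
    rw [show (1 : ℝ) - (1 - p) = p by ring]; ring
  rw [e] at s
  have hf : (fun n : ℕ => p * (1 - p) * ((p ^ n + (1 - p) ^ n) / (n + 1)))
      = fun b : ℕ => p * ((1 - p) ^ (b + 1) / ((b : ℝ) + 1)) + (1 - p) * (p ^ (b + 1) / ((b : ℝ) + 1)) := by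
    funext n
    have : (n : ℝ) + 1 ≠ 0 := by positivity
    field_simp
    ring
  rw [hf]
  exact s

lemma hasSum_half : HasSum (fun n : ℕ => ((1 / 2 : ℝ)) ^ (n + 1) / (n + 1)) (Real.log 2) := by
  have s := Real.hasSum_pow_div_log_of_abs_lt_one (x := (1 / 2 : ℝ)) (by norm_num [abs_of_pos])
  have e : -Real.log (1 - 1 / 2) = Real.log 2 := by
    rw [show (1 : ℝ) - 1 / 2 = 2⁻¹ by norm_num, Real.log_inv]; ring
  rwa [e] at s

/-- extra coefficients -/
noncomputable def ex (n : ℕ) : ℝ :=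
  if n ∈ Finset.Icc 2 8 then (1 / 2 : ℝ) ^ (n - 1) * (n.choose 2) / (n + 1) else 0

lemma hasSum_ex : HasSum ex (∑ n ∈ Finset.Icc 2 8, ex n) := by
  apply hasSum_sum_of_ne_finset_zero
  intro n hn
  simp [ex, hn]

lemma sum_ex : (74 / 100 : ℝ) ≤ ∑ n ∈ Finset.Icc 2 8, ex n := by
  have h : Finset.Icc 2 8 = ({2, 3, 4, 5, 6, 7, 8} : Finset ℕ) := by decide
  have e2 : ex 2 = 1 / 6 := by norm_num [ex, Nat.choose]
  have e3 : ex 3 = 3 / 16 := by norm_num [ex, Nat.choose]
  have e4 : ex 4 = 3 / 20 := by norm_num [ex, Nat.choose]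
  have e5 : ex 5 = 5 / 48 := by norm_num [ex, Nat.choose]
  have e6 : ex 6 = 15 / 224 := by norm_num [ex, Nat.choose]
  have e7 : ex 7 = 21 / 512 := by norm_num [ex, Nat.choose]
  have e8 : ex 8 = 7 / 288 := by norm_num [ex, Nat.choose]
  rw [h]
  simp only [Finset.sum_insert (by decide : (2:ℕ) ∉ ({3, 4, 5, 6, 7, 8} : Finset ℕ)),
    Finset.sum_insert (by decide : (3:ℕ) ∉ ({4, 5, 6, 7, 8} : Finset ℕ)),
    Finset.sum_insert (by decide : (4:ℕ) ∉ ({5, 6, 7, 8} : Finset ℕ)),
    Finset.sum_insert (by decide : (5:ℕ) ∉ ({6, 7, 8} : Finset ℕ)),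
    Finset.sum_insert (by decide : (6:ℕ) ∉ ({7, 8} : Finset ℕ)),
    Finset.sum_insert (by decide : (7:ℕ) ∉ ({8} : Finset ℕ)), Finset.sum_singleton,
    e2, e3, e4, e5, e6, e7, e8]
  norm_num

lemma pow_mean {p : ℝ} (h0 : 0 ≤ p) (h1 : p ≤ 1) (n : ℕ) :
    4 * (1 / 2 : ℝ) ^ (n + 1) ≤ p ^ n + (1 - p) ^ n := by
  rcases Nat.eq_zero_or_pos n with rfl | hn
  · norm_num
  · have h := add_pow_le h0 (sub_nonneg.2 h1) n
    rw [show p + (1 - p) = 1 by ring, one_pow] at h
    obtain ⟨m, rfl⟩ : ∃ m, n = m + 1 := ⟨n - 1, by omega⟩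
    simp only [Nat.add_sub_cancel] at h
    have e : 4 * (1 / 2 : ℝ) ^ (m + 1 + 1) = 1 / 2 ^ m := by
      rw [pow_succ, pow_succ, div_pow, one_pow]; ring
    rw [e, div_le_iff₀ (by positivity)]
    linarith

lemma term_ineq {b : ℝ} (h0 : -1 ≤ b) (h1 : b ≤ 1) (n : ℕ) :
    4 * ((1 / 2 : ℝ) ^ (n + 1) / (n + 1)) + b ^ 2 * ex n
      ≤ (((1 - b) / 2) ^ n + (1 - (1 - b) / 2) ^ n) / (n + 1) := by
  by_cases hn : n ∈ Finset.Icc 2 8
  · rw [Finset.mem_Icc] at hn
    obtain ⟨hn1, hn2⟩ := hn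
    have b4 : 0 ≤ b ^ 4 := by positivity
    have b6 : 0 ≤ b ^ 6 := by positivity
    have b8 : 0 ≤ b ^ 8 := by positivity
    interval_cases n
    · have e2 : ex 2 = 1 / 6 := by norm_num [ex, Nat.choose]
      rw [e2]; push_cast; nlinarith
    · have e3 : ex 3 = 3 / 16 := by norm_num [ex, Nat.choose]
      rw [e3]; push_cast; nlinarith
    · have e4 : ex 4 = 3 / 20 := by norm_num [ex, Nat.choose]
      rw [e4]; push_cast; ring_nf; nlinarith
    · have e5 : ex 5 = 5 / 48 := by norm_num [ex, Nat.choose]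
      rw [e5]; push_cast; ring_nf; nlinarith
    · have e6 : ex 6 = 15 / 224 := by norm_num [ex, Nat.choose]
      rw [e6]; push_cast; ring_nf; nlinarith
    · have e7 : ex 7 = 21 / 512 := by norm_num [ex, Nat.choose]
      rw [e7]; push_cast; ring_nf; nlinarith
    · have e8 : ex 8 = 7 / 288 := by norm_num [ex, Nat.choose]
      rw [e8]; push_cast; ring_nf; nlinarith
  · have e : ex n = 0 := by simp [ex, hn]
    rw [e, mul_zero, add_zero]
    have h := pow_mean (p := (1 - b) / 2) (by linarith) (by linarith) n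
    rw [← mul_div_assoc]
    gcongr

lemma H_lower {b : ℝ} (h0 : -1 < b) (h1 : b < 1) :
    Real.log 2 * (1 - KK b) ≤
      -((1 - b) / 2) * Real.log ((1 - b) / 2) - (1 - (1 - b) / 2) * Real.log (1 - (1 - b) / 2) := by
  have hs := hasSum_H (p := (1 - b) / 2) (by linarith) (by linarith)
  have hg := ((hasSum_half.mul_left 4).add (hasSum_ex.mul_left (b ^ 2))).mul_left
    ((1 - b) / 2 * (1 - (1 - b) / 2))
  have hle := hasSum_le (fun n => ?_) hg hs
  · refine le_trans ?_ hle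
    have hE := sum_ex
    have h2 := Real.log_two_lt_d9
    have h3 : 0 ≤ b ^ 2 := sq_nonneg b
    have h4 : 0 ≤ 1 - b ^ 2 := by nlinarith
    have h5 : Real.log 2 * (133 / 500 * 4) ≤ ∑ n ∈ Finset.Icc 2 8, ex n := by linarith
    have e : (1 - b) / 2 * (1 - (1 - b) / 2) = (1 - b ^ 2) / 4 := by ring
    rw [e]
    have e2 : Real.log 2 * (1 - KK b)
        = (1 - b ^ 2) / 4 * (4 * Real.log 2 + b ^ 2 * (Real.log 2 * (133 / 500 * 4))) := by
      unfold KK; ring
    rw [e2]
    gcongr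
  · have h := term_ineq h0.le h1.le n
    have hp : 0 ≤ (1 - b) / 2 * (1 - (1 - b) / 2) := by nlinarith
    exact mul_le_mul_of_nonneg_left h hp

/-- the entropy inequality in the form used below -/
lemma log_split {x y : ℝ} (hx : 0 < x) (hy : 0 < y) :
    x * Real.log x + y * Real.log y
        + Real.log 2 * ((x + y) * (1 - KK ((x - y) / (x + y))))
      ≤ (x + y) * Real.log (x + y) := by
  have hs : 0 < x + y := by linarith
  have hb0 : -1 < (x - y) / (x + y) := by rw [lt_div_iff₀ hs]; linarith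
  have hb1 : (x - y) / (x + y) < 1 := by rw [div_lt_iff₀ hs]; linarith
  have h := H_lower hb0 hb1
  have e1 : (1 - (x - y) / (x + y)) / 2 = y / (x + y) := by field_simp; ring
  have e2 : 1 - y / (x + y) = x / (x + y) := by field_simp; ring
  rw [e1, e2, Real.log_div hy.ne' hs.ne', Real.log_div hx.ne' hs.ne'] at h
  have h2 := mul_le_mul_of_nonneg_left h hs.le
  have e3 : (x + y) * (-(y / (x + y)) * (Real.log y - Real.log (x + y))
      - x / (x + y) * (Real.log x - Real.log (x + y)))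
      = (x + y) * Real.log (x + y) - x * Real.log x - y * Real.log y := by
    field_simp; ring
  rw [e3] at h2
  linarith

lemma KK_le_sq {b : ℝ} (h0 : -1 ≤ b) (h1 : b ≤ 1) : KK b ≤ b ^ 2 := by
  unfold KK
  have : b ^ 2 ≤ 1 := by nlinarith
  have h2 : b ^ 4 ≤ b ^ 2 := by
    have : b ^ 4 = b ^ 2 * b ^ 2 := by ring
    rw [this]; nlinarith [sq_nonneg b]
  linarith

lemma KK_abs (b : ℝ) : KK |b| = KK b := by
  unfold KK
  rw [sq_abs, show |b| ^ 4 = (|b| ^ 2) ^ 2 by ring, sq_abs]; ring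

lemma log_split_zero {x y : ℝ} (hx : 0 ≤ x) (hy : 0 ≤ y) (hs : 0 < x + y) :
    x * Real.log x + y * Real.log y
        + Real.log 2 * ((x + y) * (1 - KK ((x - y) / (x + y))))
      ≤ (x + y) * Real.log (x + y) := by
  rcases hx.lt_or_eq with hx' | hx'
  · rcases hy.lt_or_eq with hy' | hy'
    · exact log_split hx' hy'
    · subst hy'
      have : (x - 0) / (x + 0) = 1 := by rw [sub_zero, add_zero]; exact div_self hx'.ne'
      rw [this]
      have : KK 1 = 1 := by norm_num [KK]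
      rw [this]; simp
  · subst hx'
    have hy' : 0 < y := by linarith
    have : (0 - y) / (0 + y) = -1 := by
      rw [zero_sub, zero_add, neg_div, div_self hy'.ne']
    rw [this]
    have : KK (-1) = 1 := by norm_num [KK]
    rw [this]; simp

/-- `x log x + y log y + 2 log 2 min(x,y) ≤ (x+y) log (x+y)` -/
lemma log_super {x y : ℝ} (hx : 0 ≤ x) (hy : 0 ≤ y) {d : ℝ} (hdx : d ≤ x) (hdy : d ≤ y) :
    x * Real.log x + y * Real.log y + 2 * Real.log 2 * d ≤ (x + y) * Real.log (x + y) := by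
  rcases (add_nonneg hx hy).lt_or_eq with hs | hs
  · have h := log_split_zero hx hy hs
    have h2 : 0 < Real.log 2 := Real.log_pos (by norm_num)
    set b := (x - y) / (x + y) with hb
    have hb0 : -1 ≤ b := by rw [hb, le_div_iff₀ hs]; linarith
    have hb1 : b ≤ 1 := by rw [hb, div_le_iff₀ hs]; linarith
    have h3 := KK_le_sq hb0 hb1
    have h4 : b * (x + y) = x - y := by rw [hb]; field_simp
    have h5 : 2 * d ≤ (x + y) * (1 - KK b) := by
      rcases le_total 0 b with h0 | h0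
      · have : b ^ 2 ≤ b := by nlinarith
        nlinarith
      · have : b ^ 2 ≤ -b := by nlinarith
        nlinarith
    nlinarith
  · have hx0 : x = 0 := by linarith
    have hy0 : y = 0 := by linarith
    subst hx0; subst hy0
    have h2 : 0 < Real.log 2 := Real.log_pos (by norm_num)
    simp
    nlinarith

end Pool.Agent.V11306.Cb
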