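import Mathlib
import Pool.Agent.V11306.Cb1

namespace Pool.Agent.V11306.Cb

open Finset

variable {ι : Type*} [DecidableEq ι]

def fS (J : Finset ι) (F : Finset ι → ℝ) : ℝ := ∑ T ∈ J.powerset, F T
def fQ (J : Finset ι) (F : Finset ι → ℝ) : ℝ := ∑ T ∈ J.powerset, F T ^ 2
def fD (J : Finset ι) (F : Finset ι → ℝ) : ℝ :=
  ∑ i ∈ J, ∑ T ∈ (J.erase i).powerset, (F T - F (insert i T)) ^ 2
def fW (J : Finset ι) (F : Finset ι → ℝ) : ℝ :=
  ∑ i ∈ J, (∑ T ∈ (J.erase i).powerset, (F T - F (insert i T))) ^ 2

noncomputable def fg (a : ι) (F : Finset ι → ℝ) : Finset ι → ℝ := fun T => (F T + F (insert a T)) / 2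
noncomputable def fh (a : ι) (F : Finset ι → ℝ) : Finset ι → ℝ := fun T => (F T - F (insert a T)) / 2

lemma fS_insert {a : ι} {J : Finset ι} (ha : a ∉ J) (F : Finset ι → ℝ) :
    fS (insert a J) F = 2 * fS J (fg a F) := by
  unfold fS fg
  rw [sum_powerset_insert ha, ← sum_add_distrib, mul_sum]
  exact sum_congr rfl fun T _ => by ring

lemma fQ_insert {a : ι} {J : Finset ι} (ha : a ∉ J) (F : Finset ι → ℝ) :
    fQ (insert a J) F = 2 * fQ J (fg a F) + 2 * fQ J (fh a F) := by
  unfold fQ fg fh
  rw [sum_powerset_insert ha, ← sum_add_distrib, mul_sum, mul_sum, ← sum_add_distrib]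
  exact sum_congr rfl fun T _ => by ring

lemma fD_insert {a : ι} {J : Finset ι} (ha : a ∉ J) (F : Finset ι → ℝ) :
    fD (insert a J) F = 4 * fQ J (fh a F) + 2 * fD J (fg a F) + 2 * fD J (fh a F) := by
  unfold fD fQ
  rw [sum_insert ha, erase_insert ha, add_assoc]
  congr 1
  · rw [mul_sum]
    exact sum_congr rfl fun T _ => by unfold fh; ring
  · rw [mul_sum, mul_sum, ← sum_add_distrib]
    refine sum_congr rfl fun i hi => ?_
    have hne : a ≠ i := by rintro rfl; exact ha hi
    rw [erase_insert_of_ne hne, sum_powerset_insert (fun h => ha (mem_of_mem_erase h)),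
      ← sum_add_distrib, mul_sum, mul_sum, ← sum_add_distrib]
    refine sum_congr rfl fun T _ => ?_
    unfold fg fh
    rw [Finset.insert_comm i a T]
    ring

lemma fW_insert {a : ι} {J : Finset ι} (ha : a ∉ J) (F : Finset ι → ℝ) :
    fW (insert a J) F = 4 * fS J (fh a F) ^ 2 + 4 * fW J (fg a F) := by
  unfold fW fS
  rw [sum_insert ha, erase_insert ha]
  congr 1
  · have : ∑ T ∈ J.powerset, (F T - F (insert a T)) = 2 * ∑ T ∈ J.powerset, fh a F T := by
      rw [mul_sum]; exact sum_congr rfl fun T _ => by unfold fh; ring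
    rw [this]; ring
  · rw [mul_sum]
    refine sum_congr rfl fun i hi => ?_
    have hne : a ≠ i := by rintro rfl; exact ha hi
    rw [erase_insert_of_ne hne, sum_powerset_insert (fun h => ha (mem_of_mem_erase h)),
      ← sum_add_distrib]
    have : ∑ T ∈ (J.erase i).powerset, (F T - F (insert i T) + (F (insert a T) - F (insert i (insert a T))))
        = 2 * ∑ T ∈ (J.erase i).powerset, (fg a F T - fg a F (insert i T)) := by
      rw [mul_sum]
      refine sum_congr rfl fun T _ => ?_
      unfold fg
      rw [Finset.insert_comm i a T]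
      ring
    rw [this]; ring

lemma fD_nonneg (J : Finset ι) (F : Finset ι → ℝ) : 0 ≤ fD J F :=
  sum_nonneg fun _ _ => sum_nonneg fun _ _ => sq_nonneg _

lemma poinc (J : Finset ι) : ∀ F : Finset ι → ℝ,
    2 * (2 ^ J.card * fQ J F - fS J F ^ 2) ≤ 2 ^ J.card * fD J F := by
  induction J using Finset.induction_on with
  | empty => intro F; simp [fQ, fS, fD]
  | insert a J ha ih =>
    intro F
    rw [fS_insert ha, fQ_insert ha, fD_insert ha, card_insert_of_notMem ha, pow_succ]
    have h1 := ih (fg a F)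
    have h2 := fD_nonneg J (fh a F)
    have h3 : (0 : ℝ) < 2 ^ J.card := by positivity
    have h4 := mul_nonneg h3.le h2
    nlinarith

lemma f1 (J : Finset ι) : ∀ F : Finset ι → ℝ,
    4 * (2 ^ J.card * fQ J F - fS J F ^ 2) ≤ 2 ^ J.card * fD J F + 2 * fW J F := by
  induction J using Finset.induction_on with
  | empty => intro F; simp [fQ, fS, fD, fW]
  | insert a J ha ih =>
    intro F
    rw [fS_insert ha, fQ_insert ha, fD_insert ha, fW_insert ha, card_insert_of_notMem ha, pow_succ]
    have h1 := ih (fg a F)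
    have h2 := poinc J (fh a F)
    nlinarith

/-- indicator -/
noncomputable def ind (A : Finset (Finset ι)) : Finset ι → ℝ := fun T => if T ∈ A then 1 else 0

lemma sum_ind {J : Finset ι} {A : Finset (Finset ι)} (hA : A ⊆ J.powerset) :
    ∑ T ∈ J.powerset, ind A T = A.card := by
  unfold ind
  rw [sum_ite_mem, inter_eq_right.2 hA]; simp

lemma ind_sq (A : Finset (Finset ι)) (T : Finset ι) : ind A T ^ 2 = ind A T := by
  unfold ind; split_ifs <;> norm_num

lemma f1_family {J : Finset ι} {A : Finset (Finset ι)} (hA : A ⊆ J.powerset) :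
    4 * (2 ^ J.card * (A.card : ℝ) - (A.card : ℝ) ^ 2)
      ≤ 2 ^ J.card * ∑ i ∈ J, ((A.card : ℝ) - 2 * dg A i)
        + 2 * ∑ i ∈ J, (((A.nonMemberSubfamily i).card : ℝ) - (A.memberSubfamily i).card) ^ 2 := by
  have h := f1 J (ind A)
  have e1 : fS J (ind A) = A.card := sum_ind hA
  have e2 : fQ J (ind A) = A.card := by
    unfold fQ
    rw [sum_congr rfl fun T _ => ind_sq A T]; exact sum_ind hA
  have key : ∀ i ∈ J, ∀ T ∈ (J.erase i).powerset,
      ind A T = ind (A.nonMemberSubfamily i) T ∧ ind A (insert i T) = ind (A.memberSubfamily i) T := by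
    intro i hi T hT
    have hiT : i ∉ T := fun h => by
      have := mem_powerset.1 hT h
      simp at this
    unfold ind
    constructor
    · simp [mem_nonMemberSubfamily, hiT]
    · simp [mem_memberSubfamily, hiT]
  have e3 : fD J (ind A) = ∑ i ∈ J, ((A.card : ℝ) - 2 * dg A i) := by
    unfold fD
    refine sum_congr rfl fun i hi => ?_
    have hJ : A ⊆ (insert i (J.erase i)).powerset := by rwa [insert_erase hi]
    have h0 := sub_non hJ
    have h1 := sub_mem hJ
    have : ∀ T ∈ (J.erase i).powerset, (ind A T - ind A (insert i T)) ^ 2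
        = ind (A.nonMemberSubfamily i) T + ind (A.memberSubfamily i) T
          - 2 * ind (A.nonMemberSubfamily i ∩ A.memberSubfamily i) T := by
      intro T hT
      rw [(key i hi T hT).1, (key i hi T hT).2]
      unfold ind
      by_cases c1 : T ∈ A.nonMemberSubfamily i <;> by_cases c2 : T ∈ A.memberSubfamily i <;>
        simp only [mem_inter, c1, c2, and_true, and_false, if_true, if_false] <;> norm_num
    rw [sum_congr rfl this, sum_sub_distrib, sum_add_distrib, ← mul_sum, sum_ind h0, sum_ind h1,
      sum_ind (inter_subset_left.trans h0), ← dg_eq, card_split A i]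
    push_cast; ring
  have e4 : fW J (ind A)
      = ∑ i ∈ J, (((A.nonMemberSubfamily i).card : ℝ) - (A.memberSubfamily i).card) ^ 2 := by
    unfold fW
    refine sum_congr rfl fun i hi => ?_
    have hJ : A ⊆ (insert i (J.erase i)).powerset := by rwa [insert_erase hi]
    have h0 := sub_non hJ
    have h1 := sub_mem hJ
    congr 1
    have : ∀ T ∈ (J.erase i).powerset, (ind A T - ind A (insert i T))
        = ind (A.nonMemberSubfamily i) T - ind (A.memberSubfamily i) T := by
      intro T hT
      rw [(key i hi T hT).1, (key i hi T hT).2]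
    rw [sum_congr rfl this, sum_sub_distrib, sum_ind h0, sum_ind h1]
  rw [e1, e2, e3, e4] at h
  exact h

end Pool.Agent.V11306.Cb
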