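import Mathlib
import Pool.Agent.V11306.Cb1
import Pool.Agent.V11306.Cb2
import Pool.Agent.V11306.Cb3

namespace Pool.Agent.V11306.Cb

open Finset

variable {ι : Type*} [DecidableEq ι]

lemma l2pos : 0 < Real.log 2 := Real.log_pos (by norm_num)

/-- the deficiency `a log a - 2 e log 2` -/
noncomputable def gg (J : Finset ι) (A : Finset (Finset ι)) : ℝ :=
  (A.card : ℝ) * Real.log A.card - 2 * Real.log 2 * (ed J A : ℝ)

def HB (J : Finset ι) (A : Finset (Finset ι)) (x : ℝ) : Prop :=
  ∀ j ∈ J, (A.card : ℝ) - 2 * dg A j ≤ x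

lemma HB.mono {J : Finset ι} {A : Finset (Finset ι)} {x y : ℝ} (h : HB J A x) (hxy : x ≤ y) :
    HB J A y := fun j hj => (h j hj).trans hxy

lemma gg_nonneg (J : Finset ι) : ∀ A : Finset (Finset ι), 0 ≤ gg J A := by
  induction J using Finset.induction_on with
  | empty =>
    intro A
    have : ed (∅ : Finset ι) A = 0 := by simp [ed]
    unfold gg
    rw [this]
    simp only [Nat.cast_zero, mul_zero, sub_zero]
    rcases Nat.eq_zero_or_pos A.card with h | h
    · rw [h]; simp
    · have : (1 : ℝ) ≤ A.card := by exact_mod_cast h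
      exact mul_nonneg (by linarith) (Real.log_nonneg this)
  | insert i J hi ih =>
    intro A
    have h1 := ih (A.nonMemberSubfamily i)
    have h2 := ih (A.memberSubfamily i)
    have h3 : ((A.card : ℝ)) = (A.nonMemberSubfamily i).card + (A.memberSubfamily i).card := by
      exact_mod_cast card_split A i
    have h4 : ((dg A i : ℝ)) ≤ (A.nonMemberSubfamily i).card := by exact_mod_cast dg_le_left A i
    have h5 : ((dg A i : ℝ)) ≤ (A.memberSubfamily i).card := by exact_mod_cast dg_le_right A i
    have h6 := log_super (x := ((A.nonMemberSubfamily i).card : ℝ))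
      (y := ((A.memberSubfamily i).card : ℝ)) (by positivity) (by positivity) h4 h5
    unfold gg at *
    rw [ed_insert J A hi, h3]
    push_cast
    nlinarith

lemma step_uv {J : Finset ι} {A : Finset (Finset ι)} (hA : A ⊆ J.powerset) (ha : 0 < A.card)
    {i : ι} (hi : i ∈ J) : ∃ U V : Finset (Finset ι), ∃ b : ℝ,
      U ⊆ (J.erase i).powerset ∧ V ⊆ (J.erase i).powerset ∧ 0 ≤ b ∧
      b * A.card ≤ (A.card : ℝ) - 2 * dg A i ∧
      (U.card : ℝ) = A.card * (1 + b) / 2 ∧ (V.card : ℝ) = A.card * (1 - b) / 2 ∧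
      gg (J.erase i) U + gg (J.erase i) V
        + Real.log 2 * (((A.card : ℝ) - 2 * dg A i) - A.card * KK b) ≤ gg J A ∧
      ∀ x, HB J A x → HB (J.erase i) U x ∧ HB (J.erase i) V x := by
  have hJ : J = insert i (J.erase i) := (insert_erase hi).symm
  have hi' : i ∉ J.erase i := notMem_erase i J
  set J' := J.erase i with hJ'
  have hA' : A ⊆ (insert i J').powerset := by rwa [← hJ]
  have haR : (0 : ℝ) < A.card := by exact_mod_cast ha
  have h3 : ((A.card : ℝ)) = (A.nonMemberSubfamily i).card + (A.memberSubfamily i).card := by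
    exact_mod_cast card_split A i
  have h4 : ((dg A i : ℝ)) ≤ (A.nonMemberSubfamily i).card := by exact_mod_cast dg_le_left A i
  have h5 : ((dg A i : ℝ)) ≤ (A.memberSubfamily i).card := by exact_mod_cast dg_le_right A i
  have hHB : ∀ x, HB J A x → HB J' (A.nonMemberSubfamily i) x ∧ HB J' (A.memberSubfamily i) x := by
    intro x hx
    have key : ∀ j ∈ J', ((A.nonMemberSubfamily i).card : ℝ) - 2 * dg (A.nonMemberSubfamily i) j
        + (((A.memberSubfamily i).card : ℝ) - 2 * dg (A.memberSubfamily i) j) ≤ x := by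
      intro j hj
      have hj' : j ∈ J := mem_of_mem_erase hj
      have hne : j ≠ i := ne_of_mem_erase hj
      have h1 := hx j hj'
      rw [dg_split A hne, h3] at h1
      push_cast at h1
      linarith
    constructor
    · intro j hj
      have h1 := key j hj
      have h2 := two_dg_le (A.memberSubfamily i) j
      have h2' : 2 * (dg (A.memberSubfamily i) j : ℝ) ≤ (A.memberSubfamily i).card := by
        exact_mod_cast h2
      linarith
    · intro j hj
      have h1 := key j hj
      have h2 := two_dg_le (A.nonMemberSubfamily i) j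
      have h2' : 2 * (dg (A.nonMemberSubfamily i) j : ℝ) ≤ (A.nonMemberSubfamily i).card := by
        exact_mod_cast h2
      linarith
  have hls := log_split_zero (x := ((A.nonMemberSubfamily i).card : ℝ))
      (y := ((A.memberSubfamily i).card : ℝ)) (Nat.cast_nonneg _) (Nat.cast_nonneg _)
      (by rw [← h3]; exact haR)
  rw [← h3] at hls
  have hg : gg J A = (A.card : ℝ) * Real.log A.card
      - 2 * Real.log 2 * ((dg A i : ℝ) + ed J' (A.nonMemberSubfamily i)
        + ed J' (A.memberSubfamily i)) := by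
    unfold gg
    conv_lhs => rw [hJ]
    rw [ed_insert J' A hi']
    push_cast; ring
  clear hJ
  clear_value J'
  rcases le_total (A.memberSubfamily i).card (A.nonMemberSubfamily i).card with hc | hc
  · have hcR : ((A.memberSubfamily i).card : ℝ) ≤ (A.nonMemberSubfamily i).card := by exact_mod_cast hc
    refine ⟨A.nonMemberSubfamily i, A.memberSubfamily i,
      (((A.nonMemberSubfamily i).card : ℝ) - (A.memberSubfamily i).card) / A.card,
      sub_non hA', sub_mem hA', ?_, ?_, ?_, ?_, ?_, hHB⟩
    · exact div_nonneg (by linarith) haR.le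
    · rw [div_mul_cancel₀ _ haR.ne']; linarith
    · field_simp; linarith
    · field_simp; linarith
    · rw [hg]
      unfold gg
      linarith
  · have hcR : ((A.nonMemberSubfamily i).card : ℝ) ≤ (A.memberSubfamily i).card := by exact_mod_cast hc
    refine ⟨A.memberSubfamily i, A.nonMemberSubfamily i,
      (((A.memberSubfamily i).card : ℝ) - (A.nonMemberSubfamily i).card) / A.card,
      sub_mem hA', sub_non hA', ?_, ?_, ?_, ?_, ?_, fun x hx => (hHB x hx).symm⟩
    · exact div_nonneg (by linarith) haR.le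
    · rw [div_mul_cancel₀ _ haR.ne']; linarith
    · field_simp; linarith
    · field_simp; linarith
    · rw [hg]
      have e : KK ((((A.memberSubfamily i).card : ℝ) - (A.nonMemberSubfamily i).card) / A.card)
          = KK ((((A.nonMemberSubfamily i).card : ℝ) - (A.memberSubfamily i).card) / A.card) := by
        have : (((A.memberSubfamily i).card : ℝ) - (A.nonMemberSubfamily i).card) / A.card
            = -((((A.nonMemberSubfamily i).card : ℝ) - (A.memberSubfamily i).card) / A.card) := by
          ring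
        rw [this]; unfold KK; ring
      rw [e]
      unfold gg
      linarith

/-! ### real inequalities for `KK` -/

lemma KK_secant {lo b hi : ℝ} (h0 : 0 ≤ lo) (h1 : lo ≤ b) (h2 : b ≤ hi) :
    (hi - lo) * KK b ≤ (hi - b) * KK lo + (b - lo) * KK hi := by
  have e : (hi - b) * KK lo + (b - lo) * KK hi - (hi - lo) * KK b
      = (hi - lo) * (hi - b) * (b - lo) *
        (367 / 500 + 133 / 500 * (lo ^ 2 + b ^ 2 + hi ^ 2 + lo * b + lo * hi + b * hi)) := by
    unfold KK; ring
  have hb : 0 ≤ b := h0.trans h1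
  have hh : 0 ≤ hi := hb.trans h2
  have : 0 ≤ (hi - lo) * (hi - b) * (b - lo) *
        (367 / 500 + 133 / 500 * (lo ^ 2 + b ^ 2 + hi ^ 2 + lo * b + lo * hi + b * hi)) := by
    apply mul_nonneg
    · exact mul_nonneg (mul_nonneg (by linarith) (by linarith)) (by linarith)
    · positivity
  linarith

lemma KK_mono {x y : ℝ} (h0 : 0 ≤ x) (h : x ≤ y) : KK x ≤ KK y := by
  unfold KK
  gcongr

lemma cmin {B b lo hi m : ℝ} (h0 : 0 ≤ lo) (h1 : lo ≤ B) (h2 : B ≤ hi) (hb0 : 0 ≤ b)
    (hbB : b ≤ B) (m1 : m ≤ lo - KK lo) (m2 : m ≤ hi - KK hi) : m ≤ B - KK b := by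
  rcases le_total b lo with h | h
  · have := KK_mono hb0 h
    linarith
  · rcases (h1.trans h2).lt_or_eq with hlt | heq
    · have h3 := KK_secant h0 h (hbB.trans h2)
      have h4 : 0 < hi - lo := by linarith
      have h5 : (hi - lo) * m ≤ (hi - lo) * (b - KK b) := by nlinarith
      have h6 := le_of_mul_le_mul_left h5 h4
      linarith
    · have : b = lo := by linarith
      rw [this]; linarith

lemma base {J : Finset ι} {A : Finset (Finset ι)} (hA : A ⊆ J.powerset) (ha : 0 < A.card)
    {i : ι} (hi : i ∈ J) {lo hi' m : ℝ} (h0 : 0 ≤ lo)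
    (h1 : lo * A.card ≤ (A.card : ℝ) - 2 * dg A i) (h2 : (A.card : ℝ) - 2 * dg A i ≤ hi' * A.card)
    (m1 : m ≤ lo - KK lo) (m2 : m ≤ hi' - KK hi') : m * (Real.log 2 * A.card) ≤ gg J A := by
  obtain ⟨U, V, b, _, _, hb0, hb, _, _, hgg, _⟩ := step_uv hA ha hi
  have haR : (0 : ℝ) < A.card := by exact_mod_cast ha
  have hU := gg_nonneg (J.erase i) U
  have hV := gg_nonneg (J.erase i) V
  set B := ((A.card : ℝ) - 2 * dg A i) / A.card with hB
  have hBa : (A.card : ℝ) - 2 * dg A i = B * A.card := by rw [hB]; field_simp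
  have k := cmin (B := B) (b := b) h0 (by rw [hB, le_div_iff₀ haR]; exact h1)
    (by rw [hB, div_le_iff₀ haR]; exact h2) hb0 (by rw [hB, le_div_iff₀ haR]; exact hb) m1 m2
  rw [hBa] at hgg
  have h3 : m * (Real.log 2 * A.card) ≤ (B - KK b) * (Real.log 2 * A.card) :=
    mul_le_mul_of_nonneg_right k (mul_nonneg l2pos.le haR.le)
  have h4 : Real.log 2 * (B * A.card - A.card * KK b) = (B - KK b) * (Real.log 2 * A.card) := by ring
  linarith

end Pool.Agent.V11306.Cb
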