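import Mathlib
import Pool.Agent.V11306.Cb4

namespace Pool.Agent.V11306.Cb

open Finset

variable {ι : Type*} [DecidableEq ι]

/-- lower bound for the total boundary from `f1_family` -/
lemma D_lower {J : Finset ι} {A : Finset (Finset ι)} (hA : A ⊆ J.powerset)
    (hB : HB J A (2 / 7 * A.card)) :
    4 * (A.card : ℝ) * (2 ^ J.card - A.card)
      ≤ (2 ^ J.card + 4 / 7 * A.card) * ∑ i ∈ J, ((A.card : ℝ) - 2 * dg A i) := by
  have h := f1_family hA
  have hW : ∑ i ∈ J, (((A.nonMemberSubfamily i).card : ℝ) - (A.memberSubfamily i).card) ^ 2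
      ≤ (2 / 7 * A.card) * ∑ i ∈ J, ((A.card : ℝ) - 2 * dg A i) := by
    rw [mul_sum]
    refine sum_le_sum fun i hi => ?_
    have h3 : ((A.card : ℝ)) = (A.nonMemberSubfamily i).card + (A.memberSubfamily i).card := by
      exact_mod_cast card_split A i
    have h4 : ((dg A i : ℝ)) ≤ (A.nonMemberSubfamily i).card := by exact_mod_cast dg_le_left A i
    have h5 : ((dg A i : ℝ)) ≤ (A.memberSubfamily i).card := by exact_mod_cast dg_le_right A i
    have h6 := hB i hi
    set x := ((A.nonMemberSubfamily i).card : ℝ)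
    set y := ((A.memberSubfamily i).card : ℝ)
    have h7 : (x - y) ^ 2 ≤ ((A.card : ℝ) - 2 * dg A i) ^ 2 := by
      apply sq_le_sq' <;> linarith
    have h8 : 0 ≤ (A.card : ℝ) - 2 * dg A i := by linarith
    nlinarith
  nlinarith

lemma gg_eq_D {J : Finset ι} {A : Finset (Finset ι)} (ha : 0 < A.card) :
    gg J A = Real.log 2 * ∑ i ∈ J, ((A.card : ℝ) - 2 * dg A i)
      - A.card * Real.log ((2 : ℝ) ^ J.card / A.card) := by
  have haR : (0 : ℝ) < A.card := by exact_mod_cast ha
  rw [Real.log_div (by positivity) haR.ne', Real.log_pow, sum_sub_distrib, sum_const, ← mul_sum,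
    nsmul_eq_mul]
  unfold gg ed
  push_cast
  ring

lemma dense1 {J : Finset ι} {A : Finset (Finset ι)} (hA : A ⊆ J.powerset) (ha : 0 < A.card)
    (hB : HB J A (2 / 7 * A.card)) (h1 : (2 : ℝ) ^ J.card ≤ 5 * A.card)
    (h2 : 25 * (A.card : ℝ) ≤ 9 * 2 ^ J.card) :
    1 / 2 * (Real.log 2 * A.card) ≤ gg J A := by
  have haR : (0 : ℝ) < A.card := by exact_mod_cast ha
  have hD := D_lower hA hB
  rw [gg_eq_D ha]
  set D := ∑ i ∈ J, ((A.card : ℝ) - 2 * dg A i)
  set a : ℝ := (A.card : ℝ)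
  set N : ℝ := 2 ^ J.card with hN
  have hN0 : 0 < N := by positivity
  have l1 := Real.log_two_gt_d9
  have l2 := Real.log_two_lt_d9
  set l := Real.log 2 with hl
  have hlog : Real.log (N / a) ≤ 2 * l + (N / (4 * a) - 1) := by
    have e : N / a = 2 * 2 * (N / (4 * a)) := by field_simp; ring
    rw [e, Real.log_mul (by norm_num) (by positivity), Real.log_mul (by norm_num) (by norm_num)]
    have := Real.log_le_sub_one_of_pos (x := N / (4 * a)) (by positivity)
    linarith
  have hlog2 : a * Real.log (N / a) ≤ 2 * l * a + (N / 4 - a) := by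
    have := mul_le_mul_of_nonneg_left hlog haR.le
    have e : a * (2 * l + (N / (4 * a) - 1)) = 2 * l * a + (N / 4 - a) := by field_simp
    linarith
  -- it suffices: l D ≥ 5/2 l a + N/4 - a
  suffices h : 5 / 2 * l * a + (N / 4 - a) ≤ l * D by linarith
  have hP : 0 < N + 4 / 7 * a := by positivity
  have hl0 : 0 < l := by linarith
  have h3 : (N + 4 / 7 * a) * (5 / 2 * l * a + (N / 4 - a)) ≤ (N + 4 / 7 * a) * (l * D) := by
    have h4 : l * (4 * a * (N - a)) ≤ (N + 4 / 7 * a) * (l * D) := by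
      have := mul_le_mul_of_nonneg_left hD hl0.le
      linarith
    refine le_trans ?_ h4
    -- polynomial inequality
    have q : 0 ≤ (5 * a - N) * (9 * N - 25 * a) := mul_nonneg (by linarith) (by linarith)
    rcases le_total 0 (21 * N - 76 * a) with hs | hs
    · nlinarith [mul_nonneg haR.le hs, mul_nonneg (mul_nonneg haR.le hs) (sub_nonneg.2 l1.le)]
    · nlinarith [mul_nonneg haR.le (neg_nonneg.2 hs), mul_nonneg (mul_nonneg haR.le (neg_nonneg.2 hs)) (sub_nonneg.2 l2.le)]
  exact le_of_mul_le_mul_left h3 hP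

lemma dense2 {J : Finset ι} {A : Finset (Finset ι)} (hA : A ⊆ J.powerset) (ha : 0 < A.card)
    (hB : HB J A (2 / 7 * A.card)) (h1 : 9 * (2 : ℝ) ^ J.card ≤ 25 * A.card) {m : ℝ}
    (h2 : (m = 1 / 2 ∧ 2 * (A.card : ℝ) ≤ 2 ^ J.card) ∨
      (m = 224 / 1000 ∧ 5 * (A.card : ℝ) ≤ 3 * 2 ^ J.card)) :
    m * (Real.log 2 * A.card) ≤ gg J A := by
  have haR : (0 : ℝ) < A.card := by exact_mod_cast ha
  have hD := D_lower hA hB
  rw [gg_eq_D ha]
  set D := ∑ i ∈ J, ((A.card : ℝ) - 2 * dg A i)
  set a : ℝ := (A.card : ℝ)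
  set N : ℝ := 2 ^ J.card with hN
  have hN0 : 0 < N := by positivity
  have l1 := Real.log_two_gt_d9
  have l2 := Real.log_two_lt_d9
  set l := Real.log 2 with hl
  have hlog : Real.log (N / a) ≤ l + (N / (2 * a) - 1) := by
    have e : N / a = 2 * (N / (2 * a)) := by field_simp
    rw [e, Real.log_mul (by norm_num) (by positivity)]
    have := Real.log_le_sub_one_of_pos (x := N / (2 * a)) (by positivity)
    linarith
  have hlog2 : a * Real.log (N / a) ≤ l * a + (N / 2 - a) := by
    have := mul_le_mul_of_nonneg_left hlog haR.le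
    have e : a * (l + (N / (2 * a) - 1)) = l * a + (N / 2 - a) := by field_simp
    linarith
  suffices h : (m + 1) * l * a + (N / 2 - a) ≤ l * D by nlinarith
  have hP : 0 < N + 4 / 7 * a := by positivity
  have hl0 : 0 < l := by linarith
  have h3 : (N + 4 / 7 * a) * ((m + 1) * l * a + (N / 2 - a)) ≤ (N + 4 / 7 * a) * (l * D) := by
    have h4 : l * (4 * a * (N - a)) ≤ (N + 4 / 7 * a) * (l * D) := by
      have := mul_le_mul_of_nonneg_left hD hl0.le
      linarith
    refine le_trans ?_ h4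
    rcases h2 with ⟨rfl, h2⟩ | ⟨rfl, h2⟩
    · have q : 0 ≤ (25 * a - 9 * N) * (N - 2 * a) := mul_nonneg (by linarith) (by linarith)
      have hs : 0 ≤ 35 * N - 68 * a := by linarith
      nlinarith [mul_nonneg haR.le hs, mul_nonneg (mul_nonneg haR.le hs) (sub_nonneg.2 l1.le)]
    · have q : 0 ≤ (25 * a - 9 * N) * (3 * N - 5 * a) := mul_nonneg (by linarith) (by linarith)
      rcases le_total 0 (19432 * N - 32896 * a) with hs | hs
      · nlinarith [mul_nonneg haR.le hs, mul_nonneg (mul_nonneg haR.le hs) (sub_nonneg.2 l1.le)]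
      · nlinarith [mul_nonneg haR.le (neg_nonneg.2 hs), mul_nonneg (mul_nonneg haR.le (neg_nonneg.2 hs)) (sub_nonneg.2 l2.le)]
  exact le_of_mul_le_mul_left h3 hP

end Pool.Agent.V11306.Cb
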