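import Mathlib
import Pool.Agent.V11306.Cb5

namespace Pool.Agent.V11306.Cb

open Finset

variable {ι : Type*} [DecidableEq ι]

/-- the main claim, for coordinate sets of size at most `n` -/
def P1 (ι : Type*) [DecidableEq ι] (n : ℕ) : Prop :=
  ∀ (J : Finset ι) (A : Finset (Finset ι)), J.card ≤ n → A ⊆ J.powerset → 0 < A.card →
    2 * (A.card : ℝ) ≤ 2 ^ J.card → HB J A (2 / 7 * A.card) → 1 / 2 * (Real.log 2 * A.card) ≤ gg J A

lemma not_HB {J : Finset ι} {A : Finset (Finset ι)} {x : ℝ} (h : ¬ HB J A x) :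
    ∃ i ∈ J, x < (A.card : ℝ) - 2 * dg A i := by
  unfold HB at h
  push Not at h
  exact h

lemma lvl_base {n : ℕ} (hP : P1 ι n) {J : Finset ι} {A : Finset (Finset ι)} (hJ : J.card ≤ n)
    (hA : A ⊆ J.powerset) (ha : 0 < A.card) (hd : 5 * (A.card : ℝ) ≤ 3 * 2 ^ J.card) (x : ℝ) {m : ℝ}
    (hx : HB J A (x * A.card)) (hm1 : m ≤ 224 / 1000)
    (hm2 : m ≤ x - KK x) : m * (Real.log 2 * A.card) ≤ gg J A := by
  have haR : (0 : ℝ) < A.card := by exact_mod_cast ha
  have hpos : 0 ≤ Real.log 2 * A.card := mul_nonneg l2pos.le haR.le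
  by_cases h : HB J A (2 / 7 * A.card)
  · rcases le_total (2 * (A.card : ℝ)) (2 ^ J.card) with h2 | h2
    · have := hP J A hJ hA ha h2 h
      have h3 : m * (Real.log 2 * A.card) ≤ 1 / 2 * (Real.log 2 * A.card) :=
        mul_le_mul_of_nonneg_right (by linarith) hpos
      linarith
    · have := dense2 hA ha h (by nlinarith) (Or.inr ⟨rfl, hd⟩)
      have h3 : m * (Real.log 2 * A.card) ≤ 224 / 1000 * (Real.log 2 * A.card) :=
        mul_le_mul_of_nonneg_right hm1 hpos
      linarith
  · obtain ⟨i, hi, hi2⟩ := not_HB h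
    refine base hA ha hi (lo := 2 / 7) (hi' := x) (by norm_num) hi2.le (hx i hi) ?_ hm2
    refine hm1.trans ?_
    unfold KK; norm_num

/-- the recursion step with the worst coordinate, in normalised form -/
lemma step_max {J : Finset ι} {A : Finset (Finset ι)} (hA : A ⊆ J.powerset) (ha : 0 < A.card)
    (hJ : J.Nonempty) : ∃ i ∈ J, ∃ U V : Finset (Finset ι), ∃ b B : ℝ,
      (J.erase i).card + 1 = J.card ∧
      U ⊆ (J.erase i).powerset ∧ V ⊆ (J.erase i).powerset ∧ 0 ≤ b ∧ b ≤ B ∧
      (A.card : ℝ) - 2 * dg A i = B * A.card ∧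
      (U.card : ℝ) = A.card * (1 + b) / 2 ∧ (V.card : ℝ) = A.card * (1 - b) / 2 ∧
      gg (J.erase i) U + gg (J.erase i) V
        + (B - KK b) * (Real.log 2 * A.card) ≤ gg J A ∧
      HB (J.erase i) U (B * A.card) ∧ HB (J.erase i) V (B * A.card) ∧ HB J A (B * A.card) := by
  obtain ⟨i, hi, h⟩ := J.exists_max_image (fun i => (A.card : ℝ) - 2 * dg A i) hJ
  have hmax : HB J A ((A.card : ℝ) - 2 * dg A i) := fun j hj => h j hj
  obtain ⟨U, V, b, hU, hV, hb0, hb, cU, cV, hgg, hHB⟩ := step_uv hA ha hi
  have haR : (0 : ℝ) < A.card := by exact_mod_cast ha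
  have hBa : (A.card : ℝ) - 2 * dg A i = (((A.card : ℝ) - 2 * dg A i) / A.card) * A.card := by
    field_simp
  refine ⟨i, hi, U, V, b, ((A.card : ℝ) - 2 * dg A i) / A.card, card_erase_add_one hi, hU, hV,
    hb0, by rw [le_div_iff₀ haR]; exact hb, hBa, cU, cV, ?_, ?_, ?_, ?_⟩
  · rw [hBa] at hgg
    have : Real.log 2 * (((A.card : ℝ) - 2 * dg A i) / A.card * A.card - A.card * KK b)
        = (((A.card : ℝ) - 2 * dg A i) / A.card - KK b) * (Real.log 2 * A.card) := by ring
    linarith
  · rw [← hBa]; exact (hHB _ hmax).1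
  · rw [← hBa]; exact (hHB _ hmax).2
  · rw [← hBa]; exact hmax

omit [DecidableEq ι] in
lemma nonempty_J {J : Finset ι} {A : Finset (Finset ι)} (ha : 0 < A.card)
    (hd : 2 * (A.card : ℝ) ≤ 2 ^ J.card) : J.Nonempty := by
  rw [nonempty_iff_ne_empty]
  rintro rfl
  have : (1 : ℝ) ≤ A.card := by exact_mod_cast ha
  simp at hd
  linarith

lemma fin_aux {a l G GU GV x y m cU cV K B L b : ℝ} (hL : L = l * a) (hLpos : 0 < L)
    (hU : x * (l * cU) ≤ GU) (hV : y * (l * cV) ≤ GV) (hcU : cU = a * (1 + b) / 2)
    (hcV : cV = a * (1 - b) / 2) (hG : GU + GV + (B - K) * L ≤ G)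
    (key : m ≤ B - K + x * ((1 + b) / 2) + y * ((1 - b) / 2)) : m * L ≤ G := by
  have h1 : x * (l * cU) = x * ((1 + b) / 2) * L := by rw [hcU, hL]; ring
  have h2 : y * (l * cV) = y * ((1 - b) / 2) * L := by rw [hcV, hL]; ring
  have h3 : m * L ≤ (B - K + x * ((1 + b) / 2) + y * ((1 - b) / 2)) * L :=
    mul_le_mul_of_nonneg_right key hLpos.le
  have h4 : (B - K + x * ((1 + b) / 2) + y * ((1 - b) / 2)) * L
      = (B - K) * L + x * ((1 + b) / 2) * L + y * ((1 - b) / 2) * L := by ring
  linarith

lemma KK0 : KK 0 = 0 := by norm_num [KK]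

lemma sec27 {b : ℝ} (h0 : 0 ≤ b) (h1 : b ≤ 2 / 7) : KK b ≤ 216 / 1000 * b := by
  have h := KK_secant (le_refl (0 : ℝ)) h0 h1
  rw [KK0] at h
  have : KK (2 / 7) ≤ 6170 / 100000 := by norm_num [KK]
  nlinarith

lemma c27 {b : ℝ} (h0 : 2 / 7 ≤ b) (h1 : b ≤ 3 / 5) : 224 / 1000 ≤ b - KK b :=
  cmin (lo := 2 / 7) (hi := 3 / 5) (by norm_num) h0 h1 (by linarith) le_rfl
    (by norm_num [KK]) (by norm_num [KK])

lemma lvl3 {n : ℕ} (hP : P1 ι n) {J : Finset ι} {A : Finset (Finset ι)} (hJ : J.card ≤ n)
    (hA : A ⊆ J.powerset) (ha : 0 < A.card) (hd : 25 * (A.card : ℝ) ≤ 9 * 2 ^ J.card)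
    (hx : HB J A (3 / 5 * A.card)) : 36 / 100 * (Real.log 2 * A.card) ≤ gg J A := by
  have haR : (0 : ℝ) < A.card := by exact_mod_cast ha
  have hpos : 0 < Real.log 2 * A.card := mul_pos l2pos haR
  by_cases h : HB J A (2 / 7 * A.card)
  · have := hP J A hJ hA ha (by linarith) h
    linarith
  · obtain ⟨i, hi, U, V, b, B, hc, hU, hV, hb0, hbB, hBa, cU, cV, hgg, HU, HV, HA⟩ :=
      step_max hA ha (nonempty_J ha (by linarith))
    have hB1 : 2 / 7 ≤ B := by
      by_contra hcon
      push Not at hcon
      exact h (HA.mono (by nlinarith))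
    have hB2 : B ≤ 3 / 5 := by
      have := hx i hi
      rw [hBa] at this
      exact le_of_mul_le_mul_right this haR
    have hN : (2 : ℝ) ^ J.card = 2 * 2 ^ (J.erase i).card := by rw [← hc, pow_succ]; ring
    have hJ' : (J.erase i).card ≤ n := by omega
    have hU0 : 0 < U.card := by
      have : (0 : ℝ) < U.card := by rw [cU]; positivity
      exact_mod_cast this
    have hV' : 0 * (Real.log 2 * V.card) ≤ gg (J.erase i) V := by
      rw [zero_mul]; exact gg_nonneg _ _
    have dU : 5 * (U.card : ℝ) ≤ 3 * 2 ^ (J.erase i).card := by rw [cU]; nlinarith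
    by_cases c1 : B ≤ 3 / 8 * (1 + b)
    · have gU := lvl_base hP hJ' hU hU0 dU (3 / 4) (m := 224 / 1000)
        (HU.mono (by rw [cU]; nlinarith)) le_rfl (by norm_num [KK])
      refine fin_aux rfl hpos gU hV' cU cV hgg ?_
      rcases le_total b (2 / 7) with hb | hb
      · have := sec27 hb0 hb
        linarith
      · have := c27 hb (by linarith)
        linarith
    · push Not at c1
      by_cases c2 : 1 / 2 ≤ b
      · have gU := lvl_base hP hJ' hU hU0 dU (4 / 5) (m := 221 / 1000)
          (HU.mono (by rw [cU]; nlinarith)) (by norm_num) (by norm_num [KK])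
        refine fin_aux rfl hpos gU hV' cU cV hgg ?_
        have := cmin (B := B) (b := b) (lo := 1 / 2) (hi := 3 / 5) (m := 299 / 1000) (by norm_num)
          (by linarith) hB2 hb0 hbB (by norm_num [KK]) (by norm_num [KK])
        linarith
      · push Not at c2
        have gU : 0 * (Real.log 2 * U.card) ≤ gg (J.erase i) U := by
          rw [zero_mul]; exact gg_nonneg _ _
        refine fin_aux rfl hpos gU hV' cU cV hgg ?_
        have h := KK_secant (le_refl (0 : ℝ)) hb0 c2.le
        rw [KK0] at h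
        have : KK (1 / 2) ≤ 2002 / 10000 := by norm_num [KK]
        nlinarith

lemma lvl37 {n : ℕ} (hP : P1 ι n) {J : Finset ι} {A : Finset (Finset ι)} (hJ : J.card ≤ n)
    (hA : A ⊆ J.powerset) (ha : 0 < A.card) (hd : 25 * (A.card : ℝ) ≤ 9 * 2 ^ J.card)
    (hx : HB J A (7 / 10 * A.card)) : 276 / 1000 * (Real.log 2 * A.card) ≤ gg J A := by
  have haR : (0 : ℝ) < A.card := by exact_mod_cast ha
  have hpos : 0 < Real.log 2 * A.card := mul_pos l2pos haR
  by_cases h : HB J A (3 / 5 * A.card)
  · have := lvl3 hP hJ hA ha hd h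
    linarith
  · obtain ⟨i, hi, hi2⟩ := not_HB h
    exact base hA ha hi (lo := 3 / 5) (hi' := 7 / 10) (by norm_num) hi2.le (hx i hi)
      (by norm_num [KK]) (by norm_num [KK])

lemma lvl4 {n : ℕ} (hP : P1 ι n) {J : Finset ι} {A : Finset (Finset ι)} (hJ : J.card ≤ n)
    (hA : A ⊆ J.powerset) (ha : 0 < A.card) (hd : 35 * (A.card : ℝ) ≤ 9 * 2 ^ J.card)
    (hx : HB J A (2 / 5 * A.card)) : 44 / 100 * (Real.log 2 * A.card) ≤ gg J A := by
  have haR : (0 : ℝ) < A.card := by exact_mod_cast ha
  have hpos : 0 < Real.log 2 * A.card := mul_pos l2pos haR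
  by_cases h : HB J A (2 / 7 * A.card)
  · have := hP J A hJ hA ha (by linarith) h
    linarith
  · obtain ⟨i, hi, U, V, b, B, hc, hU, hV, hb0, hbB, hBa, cU, cV, hgg, HU, HV, HA⟩ :=
      step_max hA ha (nonempty_J ha (by linarith))
    have hB1 : 2 / 7 ≤ B := by
      by_contra hcon
      push Not at hcon
      exact h (HA.mono (by nlinarith))
    have hB2 : B ≤ 2 / 5 := by
      have := hx i hi
      rw [hBa] at this
      exact le_of_mul_le_mul_right this haR
    have hN : (2 : ℝ) ^ J.card = 2 * 2 ^ (J.erase i).card := by rw [← hc, pow_succ]; ring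
    have hJ' : (J.erase i).card ≤ n := by omega
    have hU0 : 0 < U.card := by
      have : (0 : ℝ) < U.card := by rw [cU]; positivity
      exact_mod_cast this
    have hV0 : 0 < V.card := by
      have : (0 : ℝ) < V.card := by
        rw [cV]
        have : 0 < 1 - b := by linarith
        positivity
      exact_mod_cast this
    have hV' : 0 * (Real.log 2 * V.card) ≤ gg (J.erase i) V := by
      rw [zero_mul]; exact gg_nonneg _ _
    have dU : 25 * (U.card : ℝ) ≤ 9 * 2 ^ (J.erase i).card := by rw [cU]; nlinarith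
    have dV : 25 * (V.card : ℝ) ≤ 9 * 2 ^ (J.erase i).card := by rw [cV]; nlinarith
    by_cases c1 : B ≤ 3 / 10 * (1 + b)
    · have gU := lvl3 hP hJ' hU hU0 dU (HU.mono (by rw [cU]; nlinarith))
      refine fin_aux rfl hpos gU hV' cU cV hgg ?_
      rcases le_total b (2 / 7) with hb | hb
      · have := sec27 hb0 hb
        linarith
      · have := c27 hb (by linarith)
        linarith
    · push Not at c1
      by_cases c2 : 1 / 9 ≤ b
      · have gU := lvl_base hP hJ' hU hU0 (by linarith) (3 / 4) (m := 224 / 1000)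
          (HU.mono (by rw [cU]; nlinarith)) le_rfl (by norm_num [KK])
        refine fin_aux rfl hpos gU hV' cU cV hgg ?_
        have h := KK_secant (lo := 1 / 9) (b := b) (hi := 2 / 5) (by norm_num) c2 (by linarith)
        have k1 : KK (1 / 9) ≤ 92 / 10000 := by norm_num [KK]
        have k2 : KK (2 / 5) ≤ 1243 / 10000 := by norm_num [KK]
        nlinarith
      · push Not at c2
        have gU := lvl_base hP hJ' hU hU0 (by linarith) (4 / 5) (m := 221 / 1000)
          (HU.mono (by rw [cU]; nlinarith)) (by norm_num) (by norm_num [KK])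
        have gV := lvl_base hP hJ' hV hV0 (by linarith) (9 / 10) (m := 13 / 100)
          (HV.mono (by rw [cV]; nlinarith)) (by norm_num) (by norm_num [KK])
        refine fin_aux rfl hpos gU gV cU cV hgg ?_
        have h := KK_secant (le_refl (0 : ℝ)) hb0 c2.le
        rw [KK0] at h
        have k1 : KK (1 / 9) ≤ 92 / 10000 := by norm_num [KK]
        nlinarith

set_option maxHeartbeats 2000000 in
theorem P1_all : ∀ n, P1 ι n := by
  intro n
  induction n with
  | zero =>
    intro J A hJ hA ha hd hx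
    have : J = ∅ := by rw [← card_eq_zero]; omega
    exact absurd (nonempty_J ha hd) (by rw [this]; simp)
  | succ n hP =>
    intro J A hJ hA ha hd hx
    have haR : (0 : ℝ) < A.card := by exact_mod_cast ha
    have hpos : 0 < Real.log 2 * A.card := mul_pos l2pos haR
    rcases le_total ((2 : ℝ) ^ J.card) (5 * A.card) with hs | hs
    · rcases le_total (25 * (A.card : ℝ)) (9 * 2 ^ J.card) with hs2 | hs2
      · exact dense1 hA ha hx hs hs2
      · exact dense2 hA ha hx hs2 (Or.inl ⟨rfl, hd⟩)
    · obtain ⟨i, hi, U, V, b, B, hc, hU, hV, hb0, hbB, hBa, cU, cV, hgg, HU, HV, HA⟩ :=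
        step_max hA ha (nonempty_J ha hd)
      have hB2 : B ≤ 2 / 7 := by
        have := hx i hi
        rw [hBa] at this
        exact le_of_mul_le_mul_right this haR
      have hN : (2 : ℝ) ^ J.card = 2 * 2 ^ (J.erase i).card := by rw [← hc, pow_succ]; ring
      have hJ' : (J.erase i).card ≤ n := by omega
      have hU0 : 0 < U.card := by
        have : (0 : ℝ) < U.card := by rw [cU]; positivity
        exact_mod_cast this
      have hV0 : 0 < V.card := by
        have : (0 : ℝ) < V.card := by
          rw [cV]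
          have : 0 < 1 - b := by linarith
          positivity
        exact_mod_cast this
      have dU : 35 * (U.card : ℝ) ≤ 9 * 2 ^ (J.erase i).card := by rw [cU]; nlinarith
      have dV : 35 * (V.card : ℝ) ≤ 9 * 2 ^ (J.erase i).card := by rw [cV]; nlinarith
      have hKb : KK b ≤ B := by
        have := KK_le_sq (b := b) (by linarith) (by linarith)
        nlinarith
      by_cases c1 : 2 * B ≤ 2 / 7 * (1 - b)
      · have gU := hP (J.erase i) U hJ' hU hU0 (by linarith) (HU.mono (by rw [cU]; nlinarith))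
        have gV := hP (J.erase i) V hJ' hV hV0 (by linarith) (HV.mono (by rw [cV]; nlinarith))
        refine fin_aux rfl hpos gU gV cU cV hgg ?_
        linarith
      · push Not at c1
        by_cases c2 : 2 * B ≤ 2 / 5 * (1 - b)
        · have gU := lvl4 hP hJ' hU hU0 dU (HU.mono (by rw [cU]; nlinarith))
          have gV := lvl4 hP hJ' hV hV0 dV (HV.mono (by rw [cV]; nlinarith))
          refine fin_aux rfl hpos gU gV cU cV hgg ?_
          have := cmin (B := B) (b := b) (lo := 1 / 8) (hi := 2 / 7) (m := 11 / 100) (by norm_num)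
            (by linarith) hB2 hb0 hbB (by norm_num [KK]) (by norm_num [KK])
          linarith
        · push Not at c2
          by_cases c3 : 2 * B ≤ 3 / 5 * (1 - b)
          · have gU := lvl3 hP hJ' hU hU0 (by linarith) (HU.mono (by rw [cU]; nlinarith))
            have gV := lvl3 hP hJ' hV hV0 (by linarith) (HV.mono (by rw [cV]; nlinarith))
            refine fin_aux rfl hpos gU gV cU cV hgg ?_
            have := cmin (B := B) (b := b) (lo := 1 / 6) (hi := 2 / 7) (m := 146 / 1000) (by norm_num)
              (by linarith) hB2 hb0 hbB (by norm_num [KK]) (by norm_num [KK])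
            linarith
          · push Not at c3
            have gU := lvl3 hP hJ' hU hU0 (by linarith) (HU.mono (by rw [cU]; nlinarith))
            by_cases c4 : 2 * B ≤ 7 / 10 * (1 - b)
            · have gV := lvl37 hP hJ' hV hV0 (by linarith) (HV.mono (by rw [cV]; nlinarith))
              refine fin_aux rfl hpos gU gV cU cV hgg ?_
              have := cmin (B := B) (b := b) (lo := 3 / 13) (hi := 2 / 7) (m := 190 / 1000)
                (by norm_num) (by linarith) hB2 hb0 hbB (by norm_num [KK]) (by norm_num [KK])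
              linarith
            · push Not at c4
              have hh5 : B ≤ 2 / 5 * (1 - b) := by linarith
              have hh6 := mul_le_mul_of_nonneg_right hh5 haR.le
              have gV := lvl_base hP hJ' hV hV0 (by linarith) (4 / 5) (m := 221 / 1000)
                (HV.mono (by rw [cV]; linarith)) (by norm_num) (by norm_num [KK])
              refine fin_aux rfl hpos gU gV cU cV hgg ?_
              have := cmin (B := B) (b := b) (lo := 7 / 27) (hi := 2 / 7) (m := 208 / 1000)
                (by norm_num) (by linarith) hB2 hb0 hbB (by norm_num [KK]) (by norm_num [KK])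
              linarith

/-- a family of density at most one half whose directions all carry at least `5/7` of the
maximal number of edges has deficiency at least `1/2` per element. -/
theorem core {J : Finset ι} {A : Finset (Finset ι)} (hA : A ⊆ J.powerset) (ha : 0 < A.card)
    (hd : 2 * (A.card : ℝ) ≤ 2 ^ J.card) (hx : HB J A (2 / 7 * A.card)) :
    1 / 2 * (Real.log 2 * A.card) ≤ gg J A :=
  P1_all J.card J A le_rfl hA ha hd hx

end Pool.Agent.V11306.Cb
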