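import Mathlib
import Pool.Agent.V11306.Cb6

namespace Pool.Agent.V11306.Cb

open Finset

variable {ι : Type*} [DecidableEq ι]

def cC (A : Finset (Finset ι)) (S : Finset ι) : Finset (Finset ι) := A.filter (fun x => Disjoint x S)
def cR (A : Finset (Finset ι)) (S : Finset ι) : Finset (Finset ι) := A.filter (fun x => ¬ Disjoint x S)

lemma cC_add_cR (A : Finset (Finset ι)) (S : Finset ι) : (cC A S).card + (cR A S).card = A.card :=
  card_filter_add_card_filter_not _

lemma ed_mono_J {J J' : Finset ι} (h : J ⊆ J') (A : Finset (Finset ι)) : ed J A ≤ ed J' A :=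
  sum_le_sum_of_subset h

lemma ed_split_mem {J : Finset ι} (A : Finset (Finset ι)) {i : ι} (hi : i ∈ J) :
    ed J A = dg A i + ed (J.erase i) (A.nonMemberSubfamily i)
      + ed (J.erase i) (A.memberSubfamily i) := by
  conv_lhs => rw [← insert_erase hi]
  exact ed_insert (J.erase i) A (notMem_erase i J)

lemma part_bound {J : Finset ι} (A : Finset (Finset ι)) (S : Finset ι) :
    S ⊆ J → ed J A ≤ ed J (cC A S) + hh (cR A S).card + (cR A S).card := by
  induction S using Finset.induction_on with
  | empty =>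
    intro _
    have : cC A ∅ = A := by unfold cC; simp
    rw [this]; omega
  | insert i S hi ih =>
    intro hS
    have h1 := ih ((subset_insert i S).trans hS)
    have hiJ : i ∈ J := hS (mem_insert_self i S)
    have h2 := ed_split_mem (cC A S) hiJ
    have h3 : (cC A S).nonMemberSubfamily i = cC A (insert i S) := by
      ext x
      simp only [cC, mem_nonMemberSubfamily, mem_filter, disjoint_insert_right]
      tauto
    have h4 := dg_le_right (cC A S) i
    have h5 := ed_le_hh (J.erase i) ((cC A S).memberSubfamily i)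
    have h6 := card_split (cC A S) i
    have h7 := cC_add_cR A S
    have h8 := cC_add_cR A (insert i S)
    have h9 := ed_mono_J (erase_subset i J) (cC A (insert i S))
    have h10 := hh_add (cR A S).card ((cC A S).memberSubfamily i).card
    rw [h3] at h2 h6
    have h11 : (cR A (insert i S)).card = (cR A S).card + ((cC A S).memberSubfamily i).card := by
      omega
    rw [h11]
    omega

lemma part_bound' {J : Finset ι} (A : Finset (Finset ι)) {S : Finset ι} (hS : S ⊆ J) :
    ed J A ≤ hh (cC A S).card + hh (cR A S).card + (cR A S).card := by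
  have h1 := part_bound A S hS
  have h2 := ed_le_hh J (cC A S)
  omega

lemma ed_coord {J : Finset ι} (A : Finset (Finset ι)) {i : ι} (hi : i ∈ J) :
    ed J A ≤ hh (A.nonMemberSubfamily i).card + hh (A.memberSubfamily i).card + dg A i := by
  have h2 := ed_split_mem A hi
  have h3 := ed_le_hh (J.erase i) (A.nonMemberSubfamily i)
  have h4 := ed_le_hh (J.erase i) (A.memberSubfamily i)
  omega

lemma dg_submod (X Y : Finset (Finset ι)) (j : ι) :
    dg X j + dg Y j ≤ dg (X ∪ Y) j + dg (X ∩ Y) j := by
  unfold dg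
  rw [← card_union_add_card_inter]
  apply Nat.add_le_add
  · apply card_le_card
    intro x hx
    simp only [mem_union, mem_filter] at hx ⊢
    tauto
  · apply card_le_card
    intro x hx
    simp only [mem_inter, mem_filter] at hx ⊢
    tauto

lemma ed_submod {J : Finset ι} (X Y : Finset (Finset ι)) :
    ed J X + ed J Y ≤ ed J (X ∪ Y) + ed J (X ∩ Y) := by
  unfold ed
  rw [← sum_add_distrib, ← sum_add_distrib]
  exact sum_le_sum fun j _ => dg_submod X Y j

lemma ed_dir {J : Finset ι} (A : Finset (Finset ι)) {i : ι} (hi : i ∈ J) :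
    ∃ u, u + dg A i = A.card ∧ ed J A ≤ hh u + hh (dg A i) + dg A i := by
  have h2 := ed_split_mem A hi
  have h3 := ed_submod (J := J.erase i) (A.nonMemberSubfamily i) (A.memberSubfamily i)
  have h4 := ed_le_hh (J.erase i) (A.nonMemberSubfamily i ∪ A.memberSubfamily i)
  have h5 := ed_le_hh (J.erase i) (A.nonMemberSubfamily i ∩ A.memberSubfamily i)
  have h6 := card_union_add_card_inter (A.nonMemberSubfamily i) (A.memberSubfamily i)
  have h7 := card_split A i
  rw [← dg_eq] at h5 h6
  refine ⟨(A.nonMemberSubfamily i ∪ A.memberSubfamily i).card, ?_, ?_⟩ <;> omega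

lemma tau_nonneg {K r : ℕ} (h : r ≤ 2 ^ K) : 0 ≤ tau K r := by
  rcases Nat.eq_zero_or_pos r with rfl | h1
  · rw [tau_zero_right]
  · rcases h.lt_or_eq with h2 | h2
    · exact (Int.natCast_nonneg K).trans (tau_ge K r h1 h2)
    · rw [h2, tau_full]

lemma tb2 {K E u v d : ℕ} (hE : E ≤ hh u + hh v + d) (huv : u + v = 2 ^ (K + 1)) :
    2 * (E : ℤ) ≤ (K + 1) * 2 ^ (K + 1) - 2 * tau K v - 2 * v + 2 * d := by
  have h1 : tau (K + 1) u = tau (K + 1) v := tau_symm (K + 1) u v huv
  have h2 := tau_succ K v
  have h3 : ((u : ℤ) + v) = 2 ^ (K + 1) := by exact_mod_cast huv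
  have h4 : (E : ℤ) ≤ hh u + hh v + d := by exact_mod_cast hE
  unfold tau at h1 h2 ⊢
  push_cast at h1 h2 ⊢
  rw [← h3]
  nlinarith

lemma hh_log : ∀ n : ℕ, 2 * Real.log 2 * (hh n : ℝ) ≤ (n : ℝ) * Real.log n := by
  intro n
  induction n using Nat.strong_induction_on with
  | _ n ih =>
    rcases Nat.lt_or_ge n 2 with h | h
    · have : n = 0 ∨ n = 1 := by omega
      rcases this with rfl | rfl
      · simp [hh_zero]
      · simp [hh_one]
    · rw [hh, dif_neg (by omega)]
      have h1 := ih (n / 2) (by omega)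
      have h2 := ih ((n + 1) / 2) (by omega)
      have e : ((n / 2 : ℕ) : ℝ) + (((n + 1) / 2 : ℕ) : ℝ) = n := by
        have : n / 2 + (n + 1) / 2 = n := by omega
        exact_mod_cast this
      have h3 := log_super (x := ((n / 2 : ℕ) : ℝ)) (y := (((n + 1) / 2 : ℕ) : ℝ))
        (Nat.cast_nonneg _) (Nat.cast_nonneg _) (d := ((n / 2 : ℕ) : ℝ)) le_rfl
        (by have : n / 2 ≤ (n + 1) / 2 := by omega
            exact_mod_cast this)
      rw [e] at h3
      push_cast at h1 h2 h3 ⊢
      nlinarith

/-- no intermediate splitting when the deficiency is below one half -/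
lemma noMid {K E u v : ℕ} (hG : (2 * (K + 1 : ℤ) - 1) * 2 ^ (K + 1) < 4 * E)
    (hE : E ≤ hh u + hh v + v) (huv : u + v = 2 ^ (K + 1)) (h1 : 2 ^ (K + 1) ≤ 8 * v) :
    3 * 2 ^ (K + 1) < 8 * v := by
  by_contra hc
  push Not at hc
  have h2 := tb hE huv
  rw [pow_succ] at h1 hc
  have h3 := tau_lb K 2 v (by norm_num) (by omega) (by omega)
  rw [pow_succ] at hG h2
  push_cast at h3
  have : (0 : ℤ) < 2 ^ K := by positivity
  nlinarith

end Pool.Agent.V11306.Cb
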