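import Mathlib
import Pool.Agent.V11306.Cb7

namespace Pool.Agent.V11306.Cb

open Finset

variable {ι : Type*} [DecidableEq ι]

lemma dg_part (A : Finset (Finset ι)) {S : Finset ι} {i : ι} (hi : i ∉ S) :
    dg A i ≤ dg (cC A S) i + dg (cR A S) i := by
  unfold dg
  rw [← card_filter_add_card_filter_not (s := A.filter (fun x => i ∉ x ∧ insert i x ∈ A))
    (fun x => Disjoint x S)]
  apply Nat.add_le_add
  · apply card_le_card
    intro x hx
    simp only [mem_filter, cC, disjoint_insert_left] at hx ⊢
    tauto
  · apply card_le_card
    intro x hx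
    simp only [mem_filter, cR, disjoint_insert_left] at hx ⊢
    tauto

lemma dg_cC_zero (A : Finset (Finset ι)) {S : Finset ι} {i : ι} (hi : i ∈ S) :
    dg (cC A S) i = 0 := by
  unfold dg
  rw [card_eq_zero, filter_eq_empty_iff]
  intro x _ h
  have h2 := h.2
  unfold cC at h2
  rw [mem_filter, disjoint_insert_left] at h2
  exact h2.2.1 hi

lemma ed_cC (J : Finset ι) (A : Finset (Finset ι)) (S : Finset ι) :
    ed J (cC A S) = ed (J \ S) (cC A S) := by
  unfold ed
  symm
  apply sum_subset sdiff_subset
  intro i hi hn
  have : i ∈ S := by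
    by_contra h
    exact hn (mem_sdiff.2 ⟨hi, h⟩)
  exact dg_cC_zero A this

lemma cR_insert (A : Finset (Finset ι)) (S : Finset ι) (i : ι) :
    (cR A (insert i S)).card ≤ (cR A S).card + (A.memberSubfamily i).card := by
  have h1 : (A.filter (fun x => i ∈ x)).card = (A.memberSubfamily i).card := by
    have h2 := card_split A i
    have h3 := card_filter_add_card_filter_not (s := A) (fun x => i ∈ x)
    have h4 : A.nonMemberSubfamily i = A.filter (fun x => i ∉ x) := rfl
    rw [h4] at h2
    omega
  rw [← h1]
  refine le_trans (card_le_card ?_) (card_union_le _ _)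
  intro x hx
  unfold cR at hx ⊢
  simp only [mem_union, mem_filter, disjoint_insert_right] at hx ⊢
  tauto

set_option maxHeartbeats 4000000 in
theorem main_fam {J : Finset ι} {A : Finset (Finset ι)} (hA : A ⊆ J.powerset) {k j : ℕ}
    (hj : 1 ≤ j) (hcard : A.card = 2 ^ k)
    (hmaj : ∀ i ∈ J, (A.memberSubfamily i).card ≤ (A.nonMemberSubfamily i).card)
    (hfar : ∀ S : Finset ι, S ⊆ J → (J \ S).card = k → 2 ^ k ≤ 2 * (cR A S).card * 2 ^ j) :
    (j : ℤ) * 2 ^ k ≤ (k * 2 ^ k - 2 * ed J A) * 2 ^ j := by
  have hj2 : 2 * j ≤ 2 ^ j := by
    clear hfar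
    induction j, hj using Nat.le_induction with
    | base => norm_num
    | succ j hj ih => rw [pow_succ]; omega
  have hj2' : 2 * (j : ℤ) ≤ 2 ^ j := by exact_mod_cast hj2
  have hjpos : (0 : ℤ) < 2 ^ j := by positivity
  by_cases hG : 4 * (ed J A : ℤ) ≤ (2 * k - 1) * 2 ^ k
  · have hk : (0 : ℤ) < 2 ^ k := by positivity
    have h1 : (2 : ℤ) ^ k ≤ 2 * (k * 2 ^ k - 2 * ed J A) := by linarith
    have h2 : (2 : ℤ) ^ k * 2 ^ j ≤ 2 * (k * 2 ^ k - 2 * ed J A) * 2 ^ j :=
      mul_le_mul_of_nonneg_right h1 hjpos.le
    nlinarith
  · push Not at hG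
    rcases k with _ | K
    · -- a single vertex
      exfalso
      have h := hfar J (Subset.refl J) (by simp)
      simp only [pow_zero] at h
      have h1 : 0 < (cR A J).card := by
        rcases Nat.eq_zero_or_pos (cR A J).card with h0 | h0
        · rw [h0] at h; simp at h
        · exact h0
      obtain ⟨x, hx⟩ := card_pos.1 h1
      unfold cR at hx
      rw [mem_filter, not_disjoint_iff] at hx
      obtain ⟨hxA, i, hix, hiJ⟩ := hx
      have h2 := hmaj i hiJ
      have h3 := card_split A i
      rw [hcard, pow_zero] at h3
      have h4 : x.erase i ∈ A.memberSubfamily i := by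
        rw [mem_memberSubfamily, insert_erase hix]
        exact ⟨hxA, notMem_erase i x⟩
      have h5 : 0 < (A.memberSubfamily i).card := card_pos.2 ⟨_, h4⟩
      omega
    · have hG' : (2 * (K + 1 : ℤ) - 1) * 2 ^ (K + 1) < 4 * (ed J A : ℤ) := by
        push_cast at hG; exact hG
      set N := 2 ^ (K + 1) with hN
      have hNpos : 0 < N := by positivity
      -- (1)
      have r_mid : ∀ i ∈ J, N ≤ 8 * (A.memberSubfamily i).card →
          3 * N < 8 * (A.memberSubfamily i).card := by
        intro i hi h
        have h1 := ed_coord A hi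
        have h2 := dg_le_right A i
        refine noMid hG' (u := (A.nonMemberSubfamily i).card) (by omega) ?_ h
        rw [← hN, ← hcard, card_split A i]
      have d_mid : ∀ i ∈ J, N ≤ 8 * dg A i → 3 * N < 8 * dg A i := by
        intro i hi h
        obtain ⟨u, hu, hE⟩ := ed_dir A hi
        exact noMid hG' hE (by rw [hu, hcard]) h
      have d_big : ∀ i ∈ J, 3 * N < 8 * (A.memberSubfamily i).card → 3 * N < 8 * dg A i := by
        intro i hi h
        apply d_mid i hi
        by_contra hc
        push Not at hc
        have h1 := ed_coord A hi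
        have h3 : (A.nonMemberSubfamily i).card + (A.memberSubfamily i).card = 2 ^ (K + 1) := by
          rw [← hN, ← hcard, card_split A i]
        have h2 := tb2 h1 h3
        have h4 : (A.memberSubfamily i).card ≤ 2 ^ K := by
          have := hmaj i hi
          rw [pow_succ] at h3
          omega
        have h5 := tau_nonneg h4
        have h6 : (8 : ℤ) * dg A i < 2 ^ (K + 1) := by exact_mod_cast hc
        have h7 : (3 : ℤ) * 2 ^ (K + 1) < 8 * (A.memberSubfamily i).card := by exact_mod_cast h
        linarith
      -- the set of nearly constant coordinates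
      set S := J.filter (fun i => 8 * (A.memberSubfamily i).card < N) with hS
      have hSJ : S ⊆ J := filter_subset _ _
      have hR : ∀ S' : Finset ι, S' ⊆ S → 8 * (cR A S').card < N := by
        intro S'
        induction S' using Finset.induction_on with
        | empty =>
          intro _
          have : cR A ∅ = ∅ := by unfold cR; simp
          rw [this]; simpa using hNpos
        | insert i S' hi ih =>
          intro hS'
          have h1 := ih ((subset_insert i S').trans hS')
          have h2 := cR_insert A S' i
          have hiS : i ∈ S := hS' (mem_insert_self i S')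
          rw [hS, mem_filter] at hiS
          by_contra hc
          push Not at hc
          have h3 := part_bound' A (hS'.trans hSJ)
          have h4 := noMid hG' h3 (by rw [cC_add_cR, hcard]) hc
          omega
      have hRS := hR S (Subset.refl S)
      have hCR := cC_add_cR A S
      rw [hcard] at hCR
      have hCsub : cC A S ⊆ (J \ S).powerset := by
        intro x hx
        unfold cC at hx
        rw [mem_filter] at hx
        rw [mem_powerset]
        intro i hi
        rw [mem_sdiff]
        exact ⟨mem_powerset.1 (hA hx.1) hi, fun h => disjoint_left.1 hx.2 hi h⟩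
      have hCle : (cC A S).card ≤ 2 ^ (J \ S).card := by
        have := card_le_card hCsub
        rwa [card_powerset] at this
      have hell : K + 1 ≤ (J \ S).card := by
        by_contra hc
        push Not at hc
        have h1 : 2 ^ (J \ S).card ≤ 2 ^ K := Nat.pow_le_pow_right (by norm_num) (by omega)
        have h2 : N = 2 ^ K * 2 := by rw [hN, pow_succ]
        omega
      have hE := part_bound' A hSJ
      rcases hell.lt_or_eq with hlt | heq
      · -- too many balanced coordinates
        exfalso
        have ha : 0 < (cC A S).card := by omega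
        have hd : 2 * ((cC A S).card : ℝ) ≤ 2 ^ (J \ S).card := by
          have h1 : 2 ^ (K + 2) ≤ 2 ^ (J \ S).card := Nat.pow_le_pow_right (by norm_num) hlt
          have h2 : 2 ^ (K + 2) = 2 * N := by rw [hN]; ring
          have h3 : 2 * (cC A S).card ≤ 2 ^ (J \ S).card := by omega
          exact_mod_cast h3
        have hHB : HB (J \ S) (cC A S) (2 / 7 * (cC A S).card) := by
          intro i hi
          rw [mem_sdiff] at hi
          have h1 := dg_part A hi.2
          have h2 := two_dg_le (cR A S) i
          have h3 : 3 * N < 8 * dg A i := by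
            apply d_big i hi.1
            apply r_mid i hi.1
            by_contra hc
            push Not at hc
            exact hi.2 (by rw [hS, mem_filter]; exact ⟨hi.1, hc⟩)
          have h4 : 7 * (cC A S).card ≤ 2 * (cC A S).card + 14 * dg (cC A S) i := by omega
          have h5 : 7 * ((cC A S).card : ℝ) ≤ 2 * (cC A S).card + 14 * dg (cC A S) i := by
            exact_mod_cast h4
          linarith
        have hcore := core hCsub ha hd hHB
        have hpb := part_bound A S hSJ
        rw [ed_cC] at hpb
        unfold gg at hcore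
        set a : ℝ := ((cC A S).card : ℝ) with ha'
        set r : ℝ := ((cR A S).card : ℝ) with hr'
        have haR : 0 < a := by rw [ha']; exact_mod_cast ha
        have hr0 : 0 ≤ r := by rw [hr']; positivity
        have har : a + r = 2 ^ (K + 1) := by rw [ha', hr']; exact_mod_cast hCR
        have hr8 : 8 * r < 2 ^ (K + 1) := by rw [hr']; exact_mod_cast hRS
        have h1 := log_split_zero haR.le hr0 (by linarith)
        have hb0 : -1 ≤ (a - r) / (a + r) := by rw [le_div_iff₀ (by linarith)]; linarith
        have hb1 : (a - r) / (a + r) ≤ 1 := by rw [div_le_iff₀ (by linarith)]; linarith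
        have h2 := KK_le_sq hb0 hb1
        have h3 : (a + r) * Real.log (a + r) = Real.log 2 * ((K + 1) * 2 ^ (K + 1)) := by
          rw [har, Real.log_pow]; push_cast; ring
        have h4 := hh_log (cR A S).card
        rw [← hr'] at h4
        have h5 : (ed J A : ℝ) ≤ ed (J \ S) (cC A S) + hh (cR A S).card + r := by
          rw [hr']; exact_mod_cast hpb
        have h6 : (2 * ((K : ℝ) + 1) - 1) * 2 ^ (K + 1) < 4 * (ed J A : ℝ) := by exact_mod_cast hG'
        have l0 := l2pos
        -- 2 log2 ed ≤ log2 * ((K+1)N - N(1-KK) - a/2 + 2r)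
        have h7 : 2 * Real.log 2 * (ed J A : ℝ) ≤ Real.log 2 * ((K + 1) * 2 ^ (K + 1)
            - (a + r) * (1 - KK ((a - r) / (a + r))) - a / 2 + 2 * r) := by
          have h8 := mul_le_mul_of_nonneg_left h5 (by linarith : (0 : ℝ) ≤ 2 * Real.log 2)
          rw [h3] at h1
          nlinarith
        have h8 : 2 * (ed J A : ℝ) ≤ ((K + 1) * 2 ^ (K + 1)
            - (a + r) * (1 - KK ((a - r) / (a + r))) - a / 2 + 2 * r) := by
          have : Real.log 2 * (2 * (ed J A : ℝ)) ≤ Real.log 2 * ((K + 1) * 2 ^ (K + 1)
            - (a + r) * (1 - KK ((a - r) / (a + r))) - a / 2 + 2 * r) := by linarith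
          exact le_of_mul_le_mul_left this l0
        have h9 : (a + r) * (1 - ((a - r) / (a + r)) ^ 2)
            ≤ (a + r) * (1 - KK ((a - r) / (a + r))) :=
          mul_le_mul_of_nonneg_left (by linarith) (by linarith)
        have h10 : (a + r) * (1 - ((a - r) / (a + r)) ^ 2) = 4 * (a * r / (a + r)) := by
          field_simp; ring
        have h11 : 7 / 8 * r ≤ a * r / (a + r) := by
          rw [le_div_iff₀ (by linarith)]
          nlinarith
        nlinarith
      · -- close to a subcube of the right dimension
        have hf := hfar S hSJ heq.symm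
        have h1 : (2 : ℤ) ^ K ≤ (cR A S).card * 2 ^ j := by
          have h2 : 2 ^ K * 2 ≤ 2 * (cR A S).card * 2 ^ j := by rw [← pow_succ]; exact hf
          have h3 : 2 ^ K ≤ (cR A S).card * 2 ^ j := by nlinarith
          exact_mod_cast h3
        have hv4 : 4 * (cR A S).card < 2 ^ K := by
          have h2 : N = 2 ^ K * 2 := by rw [hN, pow_succ]
          omega
        have h2 := tau_lb K j (cR A S).card hj (by exact_mod_cast h1) (by
          have e1 : 4 * (cR A S).card * 2 ^ j ≤ 2 ^ K * 2 ^ j :=
            Nat.mul_le_mul_right _ hv4.le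
          have e2 : 2 ^ K * 2 ≤ 2 ^ K * 2 ^ j := Nat.mul_le_mul_left _ (by omega)
          nlinarith)
        have h3 := tb hE hCR
        push_cast
        have h4 : (j : ℤ) * 2 ^ (K + 1) = 2 * (j * 2 ^ K) := by ring
        rw [h4]
        have h5 : 2 * tau K (cR A S).card ≤ ((K : ℤ) + 1) * 2 ^ (K + 1) - 2 * (ed J A : ℤ) := by
          linarith
        have h6 := mul_le_mul_of_nonneg_right h5 hjpos.le
        linarith

end Pool.Agent.V11306.Cb
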