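import Mathlib

/-!
# Polynomial identities for determinants from their integer specialisations
-/

set_option autoImplicit false

namespace Pool.Agent.V11306.Transfer

open Matrix MvPolynomial

/-- An identity for a determinant depending on four parameters holds in every commutative ring if
it holds for integers. -/
theorem transfer {m : ℕ} (a : Fin m → Fin m → ℤ) (b c : Fin m → ℤ) (d : Fin m → Fin m → ℤ)
    (G : MvPolynomial (Fin 4) ℤ)
    (h : ∀ x y z w : ℤ, (Matrix.of fun j k => x + a j k + b j * y + c k * z + d j k * w).det =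
      eval ![x, y, z, w] G) {R : Type*} [CommRing R] (x y z w : R) :
    (Matrix.of fun j k => x + (a j k : R) + (b j : R) * y + (c k : R) * z + (d j k : R) * w).det =
      eval₂ (Int.castRingHom R) ![x, y, z, w] G := by
  set F : MvPolynomial (Fin 4) ℤ := (Matrix.of fun j k : Fin m =>
    (X 0 : MvPolynomial (Fin 4) ℤ) + C (a j k) + C (b j) * X 1 + C (c k) * X 2 +
      C (d j k) * X 3).det with hF
  have hFG : F = G := by
    apply MvPolynomial.funext
    intro u
    have e : u = ![u 0, u 1, u 2, u 3] := by
      ext i; fin_cases i <;> rfl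
    rw [e, ← h, hF, RingHom.map_det]
    congr 1
    ext j k
    simp
  rw [← hFG, hF]
  rw [← coe_eval₂Hom, RingHom.map_det]
  congr 1
  ext j k
  rw [RingHom.mapMatrix_apply, Matrix.map_apply, Matrix.of_apply, Matrix.of_apply]
  rw [RingHom.map_add, RingHom.map_add, RingHom.map_add, RingHom.map_add, RingHom.map_mul,
    RingHom.map_mul, RingHom.map_mul, coe_eval₂Hom, eval₂_C, eval₂_C, eval₂_C, eval₂_C, eval₂_X,
    eval₂_X, eval₂_X, eval₂_X]
  rfl

/-- The same for two parameters. -/
theorem transfer_two {m : ℕ} (a : Fin m → Fin m → ℤ) (b c : Fin m → ℤ)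
    (G : MvPolynomial (Fin 2) ℤ)
    (h : ∀ y z : ℤ, (Matrix.of fun j k => a j k + b j * y + c k * z).det =
      eval ![y, z] G) {R : Type*} [CommRing R] (y z : R) :
    (Matrix.of fun j k => (a j k : R) + (b j : R) * y + (c k : R) * z).det =
      eval₂ (Int.castRingHom R) ![y, z] G := by
  set F : MvPolynomial (Fin 2) ℤ := (Matrix.of fun j k : Fin m =>
    (C (a j k) + C (b j) * X 0 + C (c k) * X 1 : MvPolynomial (Fin 2) ℤ)).det with hF
  have hFG : F = G := by
    apply MvPolynomial.funext
    intro u
    have e : u = ![u 0, u 1] := by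
      ext i; fin_cases i <;> rfl
    rw [e, ← h, hF, RingHom.map_det]
    congr 1
    ext j k
    simp
  rw [← hFG, hF]
  rw [← coe_eval₂Hom, RingHom.map_det]
  congr 1
  ext j k
  rw [RingHom.mapMatrix_apply, Matrix.map_apply, Matrix.of_apply, Matrix.of_apply]
  rw [RingHom.map_add, RingHom.map_add, RingHom.map_mul,
    RingHom.map_mul, coe_eval₂Hom, eval₂_C, eval₂_C, eval₂_C, eval₂_X,
    eval₂_X]
  rfl

end Pool.Agent.V11306.Transfer
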