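import Mathlib

/-!
# Packed power series arithmetic modulo `5 ^ 15` for the kernel

A truncated power series with coefficients in `[0, 5 ^ 15)` is packed in one natural number in
base `2 ^ 96`; the functions here are evaluated by the kernel on large numerals.
-/

set_option autoImplicit false

namespace Pool.Agent.V11306.Asd

open Finset

/-- the modulus `5 ^ 15` -/
def M : ℕ := 30517578125

/-- reduce all `2 ^ k` digits modulo `M` -/
def red : ℕ → ℕ → ℕ
  | 0, P => P % M
  | k + 1, P => red k (P % 2 ^ (96 * 2 ^ k)) + 2 ^ (96 * 2 ^ k) * red k (P / 2 ^ (96 * 2 ^ k))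

/-- multiplication of packed truncated series -/
def mulR (k P Q : ℕ) : ℕ := red k (P * Q % 2 ^ (96 * 2 ^ k))

/-- the `i`-th digit -/
def dg (P i : ℕ) : ℕ := P / 2 ^ (96 * i) % 2 ^ 96

/-- packing -/
def val (k : ℕ) (a : ℕ → ℕ) : ℕ := ∑ i ∈ range (2 ^ k), a i * 2 ^ (96 * i)

lemma val_succ (k : ℕ) (a : ℕ → ℕ) :
    val (k + 1) a = val k a + 2 ^ (96 * 2 ^ k) * val k (fun i => a (2 ^ k + i)) := by
  rw [val, val, val, pow_succ, mul_two, Finset.sum_range_add, Finset.mul_sum]
  congr 1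
  apply Finset.sum_congr rfl
  intro i _
  rw [mul_add, pow_add]; ring

lemma val_lt (k : ℕ) (a : ℕ → ℕ) (h : ∀ i < 2 ^ k, a i < 2 ^ 96) :
    val k a < 2 ^ (96 * 2 ^ k) := by
  induction k generalizing a with
  | zero => simpa [val] using h 0 (by norm_num)
  | succ k ih =>
    rw [val_succ]
    have h1 := ih a (fun i hi => h i (by rw [pow_succ]; omega))
    have h2 := ih (fun i => a (2 ^ k + i)) (fun i hi => h _ (by rw [pow_succ]; omega))
    have h3 : 2 ^ (96 * 2 ^ (k + 1)) = 2 ^ (96 * 2 ^ k) * 2 ^ (96 * 2 ^ k) := by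
      rw [← pow_add]; congr 1; rw [pow_succ]; ring
    rw [h3]
    set Y := 2 ^ (96 * 2 ^ k) with hY
    have h4 : Y * val k (fun i => a (2 ^ k + i)) ≤ Y * (Y - 1) := Nat.mul_le_mul_left _ (by omega)
    have h5 : Y * (Y - 1) + Y = Y * Y := by
      rw [← Nat.mul_succ]; congr 1; omega
    omega

lemma val_congr (k : ℕ) (a b : ℕ → ℕ) (h : ∀ i < 2 ^ k, a i = b i) : val k a = val k b := by
  apply Finset.sum_congr rfl
  intro i hi
  rw [h i (Finset.mem_range.mp hi)]

lemma red_val (k : ℕ) (a : ℕ → ℕ) (h : ∀ i < 2 ^ k, a i < 2 ^ 96) :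
    red k (val k a) = val k (fun i => a i % M) := by
  induction k generalizing a with
  | zero => simp [val, red]
  | succ k ih =>
    have h1 : ∀ i < 2 ^ k, a i < 2 ^ 96 := fun i hi => h i (by rw [pow_succ]; omega)
    have h2 : ∀ i < 2 ^ k, a (2 ^ k + i) < 2 ^ 96 := fun i hi => h _ (by rw [pow_succ]; omega)
    have hl := val_lt k a h1
    rw [red, val_succ, Nat.add_mul_mod_self_left, Nat.mod_eq_of_lt hl,
      Nat.add_mul_div_left _ _ (by positivity), Nat.div_eq_of_lt hl, zero_add, ih a h1,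
      ih (fun i => a (2 ^ k + i)) h2, val_succ]

lemma val_dg (k P : ℕ) : val k (dg P) = P % 2 ^ (96 * 2 ^ k) := by
  induction k generalizing P with
  | zero => simp [val, dg]
  | succ k ih =>
    rw [val_succ, ih]
    have h1 : (fun i => dg P (2 ^ k + i)) = dg (P / 2 ^ (96 * 2 ^ k)) := by
      funext i
      rw [dg, dg, Nat.div_div_eq_div_mul, ← pow_add, ← mul_add]
    rw [h1, ih]
    have h3 : 2 ^ (96 * 2 ^ (k + 1)) = 2 ^ (96 * 2 ^ k) * 2 ^ (96 * 2 ^ k) := by
      rw [← pow_add]; congr 1; rw [pow_succ]; ring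
    rw [h3, Nat.mod_mul]

lemma dg_lt (P i : ℕ) : dg P i < 2 ^ 96 := Nat.mod_lt _ (by positivity)

lemma dg_val (k : ℕ) (a : ℕ → ℕ) (h : ∀ i < 2 ^ k, a i < 2 ^ 96) (i : ℕ) (hi : i < 2 ^ k) :
    dg (val k a) i = a i := by
  induction k generalizing a i with
  | zero =>
    have : i = 0 := by simpa using hi
    subst this
    simp only [val, pow_zero, Finset.range_one, Finset.sum_singleton, mul_zero, mul_one, dg,
      Nat.div_one]
    exact Nat.mod_eq_of_lt (h 0 (by norm_num))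
  | succ k ih =>
    have h1 : ∀ i < 2 ^ k, a i < 2 ^ 96 := fun i hi => h i (by rw [pow_succ]; omega)
    have h2 : ∀ i < 2 ^ k, a (2 ^ k + i) < 2 ^ 96 := fun i hi => h _ (by rw [pow_succ]; omega)
    have hl := val_lt k a h1
    rw [val_succ]
    by_cases hik : i < 2 ^ k
    · rw [← ih a h1 i hik, dg, dg]
      obtain ⟨d, hd⟩ : ∃ d, 2 ^ k = i + 1 + d := ⟨2 ^ k - i - 1, by omega⟩
      have e1 : 2 ^ (96 * 2 ^ k) = 2 ^ (96 * i) * (2 ^ 96 * 2 ^ (96 * d)) := by
        rw [← pow_add, ← pow_add, hd]; congr 1; ring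
      rw [e1, mul_assoc, Nat.add_mul_div_left _ _ (by positivity), mul_assoc,
        Nat.add_mul_mod_self_left]
    · obtain ⟨j, hj⟩ : ∃ j, i = 2 ^ k + j := ⟨i - 2 ^ k, by omega⟩
      have hj2 : j < 2 ^ k := by rw [pow_succ] at hi; omega
      rw [hj, ← ih (fun i => a (2 ^ k + i)) h2 j hj2, dg, dg, mul_add, pow_add,
        ← Nat.div_div_eq_div_mul, Nat.add_mul_div_left _ _ (by positivity), Nat.div_eq_of_lt hl,
        zero_add]

lemma dg_mod (P n i : ℕ) (hi : i < n) : dg (P % 2 ^ (96 * n)) i = dg P i := by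
  conv_rhs => rw [← Nat.mod_add_div P (2 ^ (96 * n))]
  obtain ⟨d, hd⟩ : ∃ d, n = i + 1 + d := ⟨n - i - 1, by omega⟩
  have e1 : 2 ^ (96 * n) = 2 ^ (96 * i) * (2 ^ 96 * 2 ^ (96 * d)) := by
    rw [← pow_add, ← pow_add, hd]; congr 1; ring
  rw [dg, dg]
  generalize P % 2 ^ (96 * n) = R
  generalize P / 2 ^ (96 * n) = Q
  rw [e1, mul_assoc, Nat.add_mul_div_left _ _ (by positivity), mul_assoc,
    Nat.add_mul_mod_self_left]

/-- convolution -/
def conv (a b : ℕ → ℕ) (n : ℕ) : ℕ := ∑ x ∈ antidiagonal n, a x.1 * b x.2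

open Polynomial in
lemma val_mul (k : ℕ) (a b : ℕ → ℕ) (h : ∀ i < 2 ^ k, conv a b i < 2 ^ 96) :
    val k a * val k b % 2 ^ (96 * 2 ^ k) = val k (conv a b) := by
  set n := 2 ^ k with hn
  have hn0 : 0 < n := by positivity
  let A : ℕ[X] := ∑ i ∈ range n, C (a i) * X ^ i
  let B : ℕ[X] := ∑ i ∈ range n, C (b i) * X ^ i
  have hdeg : ∀ c : ℕ → ℕ, (∑ i ∈ range n, C (c i) * X ^ i : ℕ[X]).natDegree ≤ n - 1 := by
    intro c
    apply Polynomial.natDegree_sum_le_of_forall_le
    intro i hi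
    refine (Polynomial.natDegree_C_mul_X_pow_le _ _).trans ?_
    have := Finset.mem_range.mp hi
    omega
  have hcoef : ∀ (c : ℕ → ℕ) (j : ℕ), j < n →
      (∑ i ∈ range n, C (c i) * X ^ i : ℕ[X]).coeff j = c j := by
    intro c j hj
    rw [Polynomial.finsetSum_coeff]
    simp only [Polynomial.coeff_C_mul, Polynomial.coeff_X_pow]
    rw [Finset.sum_eq_single j]
    · simp
    · intro i _ hij; rw [if_neg (Ne.symm hij)]; simp
    · intro hj2; exact absurd (Finset.mem_range.mpr hj) hj2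
  have heval : ∀ c : ℕ → ℕ, (∑ i ∈ range n, C (c i) * X ^ i : ℕ[X]).eval (2 ^ 96) = val k c := by
    intro c
    rw [Polynomial.eval_finsetSum, val]
    apply Finset.sum_congr rfl
    intro i _
    rw [Polynomial.eval_mul, Polynomial.eval_C, Polynomial.eval_pow, Polynomial.eval_X, pow_mul]
  have e1 : val k a * val k b = (A * B).eval (2 ^ 96) := by
    rw [Polynomial.eval_mul, heval, heval]
  have hAB : (A * B).natDegree < n + n := by
    refine lt_of_le_of_lt Polynomial.natDegree_mul_le ?_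
    have h1 : A.natDegree ≤ n - 1 := hdeg a
    have h2 : B.natDegree ≤ n - 1 := hdeg b
    omega
  have hconv : ∀ i < n, (A * B).coeff i = conv a b i := by
    intro i hi
    rw [Polynomial.coeff_mul, conv]
    apply Finset.sum_congr rfl
    intro x hx
    have hx' : x.1 + x.2 = i := by simpa using hx
    rw [hcoef a x.1 (by omega), hcoef b x.2 (by omega)]
  clear_value A B
  rw [e1, Polynomial.eval_eq_sum_range' hAB, Finset.sum_range_add]
  have e2 : ∑ x ∈ range n, (A * B).coeff x * (2 ^ 96) ^ x = val k (conv a b) := by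
    rw [val]
    apply Finset.sum_congr rfl
    intro i hi
    rw [hconv i (Finset.mem_range.mp hi), pow_mul]
  have e3 : ∑ x ∈ range n, (A * B).coeff (n + x) * (2 ^ 96) ^ (n + x) =
      2 ^ (96 * n) * ∑ x ∈ range n, (A * B).coeff (n + x) * (2 ^ 96) ^ x := by
    rw [Finset.mul_sum]
    apply Finset.sum_congr rfl
    intro i _
    rw [pow_add, pow_mul]; ring
  rw [e2, e3, Nat.add_mul_mod_self_left]
  exact Nat.mod_eq_of_lt (val_lt k _ h)

end Pool.Agent.V11306.Asd
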