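import Mathlib
import Pool.Agent.V11306.AsdA

/-!
# The kernel computation
-/

set_option autoImplicit false

namespace Pool.Agent.V11306.Asd

open Finset

/-- packed `q^d / (1 - q^d)` up to `q^3125` -/
def geo (d : ℕ) : ℕ :=
  (2 ^ (96 * (d * (3125 / d + 1))) - 1) / (2 ^ (96 * d) - 1) - 1

/-- `2 ^ (96 * 4096)` -/
def W : ℕ := 2 ^ (96 * 4096)

/-- `2 ^ (96 * 3126)` -/
def W' : ℕ := 2 ^ (96 * 3126)

/-- partial Lambert sums -/
def lam : ℕ → ℕ → ℕ
  | 0, lo => (lo ^ 3 + W * lo ^ 5) * geo lo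
  | k + 1, lo => lam k lo + lam k (lo + 2 ^ k)

/-- both divisor power sums -/
def s35 : ℕ := lam 12 0
/-- `E₄` -/
def e4 : ℕ := red 12 (1 + 240 * (s35 % W))
/-- `E₆` -/
def e6 : ℕ := red 12 (1 + (M - 504) * (red 12 (s35 / W)))
/-- `E₄ ^ 3` -/
def e43 : ℕ := mulR 12 e4 (mulR 12 e4 e4)
/-- `Δ` -/
def dl : ℕ := red 12 (16865906892 * red 12 (e43 + (M - 1) * mulR 12 e6 e6))
/-- `E₄ ^ 3 + 121 Δ` -/
def den : ℕ := red 12 (e43 + 121 * dl)
/-- `E₆ Δ` -/
def rhs : ℕ := mulR 12 e6 dl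
/-- Newton iteration for the inverse of `den` -/
def newton : ℕ → ℕ
  | 0 => 1
  | j + 1 => mulR (j + 1) (newton j)
      (red (j + 1) (2 + (M - 1) * (mulR (j + 1) (newton j) (den % 2 ^ (96 * 2 ^ (j + 1))))))
/-- the quotient -/
def G : ℕ := mulR 12 rhs (newton 12)

/-- the check -/
def check : Bool :=
  (mulR 12 den G % W' == rhs % W') &&
  ((dg G 3125 + (M - 11) * dg G 625 + (M - 495) * dg G 125 + 12375 * dg G 25 +
    171875 * dg G 5 + (M - 9765625) * dg G 1) % M != 0)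

theorem check_true : check = true := by
  decide +kernel

lemma W_def : W = 2 ^ (96 * 4096) := rfl
lemma W'_def : W' = 2 ^ (96 * 3126) := rfl
lemma lam_zero (lo : ℕ) : lam 0 lo = (lo ^ 3 + W * lo ^ 5) * geo lo := rfl
lemma lam_succ (k lo : ℕ) : lam (k + 1) lo = lam k lo + lam k (lo + 2 ^ k) := rfl
lemma s35_def : s35 = lam 12 0 := rfl
lemma e4_def : e4 = red 12 (1 + 240 * (s35 % W)) := rfl
lemma e6_def : e6 = red 12 (1 + (M - 504) * (red 12 (s35 / W))) := rfl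
lemma e43_def : e43 = mulR 12 e4 (mulR 12 e4 e4) := rfl
lemma dl_def : dl = red 12 (16865906892 * red 12 (e43 + (M - 1) * mulR 12 e6 e6)) := rfl
lemma den_def : den = red 12 (e43 + 121 * dl) := rfl
lemma rhs_def : rhs = mulR 12 e6 dl := rfl
lemma G_def : ∃ P, G = red 12 (P % 2 ^ (96 * 2 ^ 12)) := ⟨rhs * newton 12, rfl⟩

lemma check_spec : mulR 12 den G % W' = rhs % W' ∧
    (dg G 3125 + (M - 11) * dg G 625 + (M - 495) * dg G 125 + 12375 * dg G 25 +
    171875 * dg G 5 + (M - 9765625) * dg G 1) % M ≠ 0 := by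
  have h := check_true
  unfold check at h
  rw [Bool.and_eq_true, beq_iff_eq, bne_iff_ne] at h
  exact h

attribute [irreducible] W W' geo lam s35 e4 e6 e43 dl den rhs newton G check

end Pool.Agent.V11306.Asd
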