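import Mathlib
import Pool.Agent.V11306.AsdB

/-!
# What the kernel computation says about power series
-/

set_option autoImplicit false

namespace Pool.Agent.V11306.Asd

open Finset

/-! ### Lambert sums -/

/-- indicator of the positive multiples of `d` up to `3125` -/
def ind (d i : ℕ) : ℕ := if 0 < i ∧ i ≤ 3125 ∧ d ∣ i then 1 else 0

lemma geo_eq (d : ℕ) (hd : 0 < d) :
    geo d = ∑ m ∈ Icc 1 (3125 / d), 2 ^ (96 * (d * m)) := by
  have h2 : 2 ≤ 2 ^ (96 * d) := by
    calc 2 = 2 ^ 1 := by norm_num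
      _ ≤ 2 ^ (96 * d) := Nat.pow_le_pow_right (by norm_num) (by omega)
  have h := Nat.geomSum_eq h2 (3125 / d + 1)
  have e1 : (2 ^ (96 * d)) ^ (3125 / d + 1) = 2 ^ (96 * (d * (3125 / d + 1))) := by
    rw [← pow_mul, mul_assoc]
  rw [e1] at h
  unfold geo
  rw [← h, Finset.sum_range_succ', pow_zero, Nat.add_sub_cancel]
  rw [Finset.range_eq_Ico, Finset.sum_Ico_add' (fun m => (2 ^ (96 * d)) ^ m) 0 (3125 / d) 1]
  have e2 : Finset.Ico (0 + 1) (3125 / d + 1) = Finset.Icc 1 (3125 / d) := by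
    ext x; simp only [Finset.mem_Ico, Finset.mem_Icc]; omega
  rw [e2]
  apply Finset.sum_congr rfl
  intro m _
  rw [← pow_mul, mul_assoc]

lemma geo_val (K : ℕ) (hK : 3125 < 2 ^ K) (d : ℕ) (hd : 0 < d) : geo d = val K (ind d) := by
  rw [geo_eq d hd, val]
  have e1 : ∀ i ∈ range (2 ^ K), ind d i * 2 ^ (96 * i) =
      if (0 < i ∧ i ≤ 3125 ∧ d ∣ i) then 2 ^ (96 * i) else 0 := by
    intro i _
    rw [ind]
    split_ifs
    · rw [one_mul]
    · rw [zero_mul]
  rw [Finset.sum_congr rfl e1, ← Finset.sum_filter]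
  apply Finset.sum_nbij' (fun m => d * m) (fun i => i / d)
  · intro m hm
    have hm' := Finset.mem_Icc.mp hm
    have h1 : d * m ≤ 3125 := by
      calc d * m ≤ d * (3125 / d) := Nat.mul_le_mul_left _ hm'.2
        _ ≤ 3125 := Nat.mul_div_le _ _
    rw [Finset.mem_filter, Finset.mem_range]
    refine ⟨lt_of_le_of_lt h1 hK, ?_, h1, Dvd.intro _ rfl⟩
    have := hm'.1
    positivity
  · intro i hi
    rw [Finset.mem_filter] at hi
    obtain ⟨_, h0, h1, k, hk⟩ := hi
    rw [Finset.mem_Icc, hk, Nat.mul_div_cancel_left _ hd]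
    constructor
    · rcases Nat.eq_zero_or_pos k with h | h
      · rw [h, mul_zero] at hk; omega
      · exact h
    · rw [Nat.le_div_iff_mul_le hd, mul_comm, ← hk]; exact h1
  · intro m _
    exact Nat.mul_div_cancel_left _ hd
  · intro i hi
    rw [Finset.mem_filter] at hi
    exact Nat.mul_div_cancel' hi.2.2.2
  · intro m _; rfl

lemma lam_eq (k lo : ℕ) : lam k lo =
    ∑ d ∈ range (2 ^ k), ((lo + d) ^ 3 + W * (lo + d) ^ 5) * geo (lo + d) := by
  induction k generalizing lo with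
  | zero =>
    rw [lam_zero, pow_zero, Finset.sum_range_one, add_zero]
  | succ k ih =>
    rw [lam_succ, ih, ih, pow_succ, mul_two, Finset.sum_range_add]
    have e : ∑ d ∈ range (2 ^ k), ((lo + 2 ^ k + d) ^ 3 + W * (lo + 2 ^ k + d) ^ 5) *
        geo (lo + 2 ^ k + d) = ∑ x ∈ range (2 ^ k), ((lo + (2 ^ k + x)) ^ 3 +
        W * (lo + (2 ^ k + x)) ^ 5) * geo (lo + (2 ^ k + x)) := by
      apply Finset.sum_congr rfl
      intro d _
      rw [add_assoc]
    rw [e]

/-- the digits of the divisor sums -/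
def sg (e i : ℕ) : ℕ := if 0 < i ∧ i ≤ 3125 then ArithmeticFunction.sigma e i else 0

lemma sum_geo (K : ℕ) (hK : 3125 < 2 ^ K) (e : ℕ) (he : 0 < e) :
    ∑ d ∈ range (2 ^ K), d ^ e * geo d = val K (sg e) := by
  have e1 : ∀ d ∈ range (2 ^ K), d ^ e * geo d =
      ∑ i ∈ range (2 ^ K), d ^ e * ind d i * 2 ^ (96 * i) := by
    intro d _
    rcases Nat.eq_zero_or_pos d with h | h
    · subst h
      rw [zero_pow he.ne', zero_mul]
      symm
      apply Finset.sum_eq_zero
      intro i _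
      rw [zero_mul, zero_mul]
    · rw [geo_val K hK d h, val, Finset.mul_sum]
      apply Finset.sum_congr rfl
      intro i _
      rw [mul_assoc]
  rw [Finset.sum_congr rfl e1, Finset.sum_comm, val]
  apply Finset.sum_congr rfl
  intro i _
  rw [← Finset.sum_mul]
  have e3 : ∑ d ∈ range (2 ^ K), d ^ e * ind d i = sg e i := by
    rw [sg]
    split_ifs with h
    · rw [ArithmeticFunction.sigma_apply]
      have e2 : ∀ d ∈ range (2 ^ K), d ^ e * ind d i = if d ∣ i then d ^ e else 0 := by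
        intro d _
        rw [ind]
        by_cases hd : d ∣ i
        · rw [if_pos ⟨h.1, h.2, hd⟩, if_pos hd, mul_one]
        · rw [if_neg (fun hh => hd hh.2.2), if_neg hd, mul_zero]
      rw [Finset.sum_congr rfl e2, ← Finset.sum_filter]
      apply Finset.sum_congr _ (fun _ _ => rfl)
      ext d
      rw [Finset.mem_filter, Finset.mem_range, Nat.mem_divisors]
      constructor
      · rintro ⟨_, hd⟩; exact ⟨hd, h.1.ne'⟩
      · rintro ⟨hd, _⟩
        have := Nat.le_of_dvd h.1 hd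
        exact ⟨by omega, hd⟩
    · apply Finset.sum_eq_zero
      intro d _
      rw [ind, if_neg (fun hh => h ⟨hh.1, hh.2.1⟩), mul_zero]
  rw [e3]

lemma sigma_le (e i : ℕ) (hi : i ≤ 3125) : ArithmeticFunction.sigma e i ≤ 3125 * 3125 ^ e := by
  rw [ArithmeticFunction.sigma_apply]
  calc ∑ d ∈ i.divisors, d ^ e ≤ ∑ d ∈ i.divisors, 3125 ^ e := by
        apply Finset.sum_le_sum
        intro d hd
        exact Nat.pow_le_pow_left ((Nat.divisor_le hd).trans hi) _
    _ = i.divisors.card * 3125 ^ e := by rw [Finset.sum_const, smul_eq_mul]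
    _ ≤ 3125 * 3125 ^ e := Nat.mul_le_mul_right _ ((Nat.card_divisors_le_self i).trans hi)

lemma sg_le (e i : ℕ) : sg e i ≤ 3125 * 3125 ^ e := by
  rw [sg]
  split_ifs with h
  · exact sigma_le e i h.2
  · exact Nat.zero_le _

lemma lam_val (K : ℕ) (hK : 3125 < 2 ^ K) : lam K 0 = val K (sg 3) + W * val K (sg 5) := by
  rw [lam_eq, ← sum_geo K hK 3 (by norm_num), ← sum_geo K hK 5 (by norm_num), Finset.mul_sum,
    ← Finset.sum_add_distrib]
  apply Finset.sum_congr rfl
  intro d _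
  rw [zero_add, add_mul, mul_assoc]

/-! ### Representation of series -/

/-- `P` packs the first `n` coefficients of `f` -/
def Rep (K n P : ℕ) (f : PowerSeries (ZMod M)) : Prop :=
  ∃ a : ℕ → ℕ, (∀ i < 2 ^ K, a i < M) ∧ P = val K a ∧
    ∀ i < n, (a i : ZMod M) = PowerSeries.coeff i f

lemma M_pos : 0 < M := by norm_num [M]

lemma M_lt : M < 2 ^ 96 := by norm_num [M]

variable {K n : ℕ}

lemma rep_red (a : ℕ → ℕ) (h : ∀ i < 2 ^ K, a i < 2 ^ 96) (f : PowerSeries (ZMod M))
    (hf : ∀ i < n, (a i : ZMod M) = PowerSeries.coeff i f) : Rep K n (red K (val K a)) f := by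
  refine ⟨fun i => a i % M, fun i _ => Nat.mod_lt _ M_pos, red_val K a h, ?_⟩
  intro i hi
  rw [← hf i hi, ZMod.natCast_mod]

lemma conv_lt (hK : 2 ^ K * (M * M) < 2 ^ 96) (a b : ℕ → ℕ) (ha : ∀ i < 2 ^ K, a i < M)
    (hb : ∀ i < 2 ^ K, b i < M) (i : ℕ) (hi : i < 2 ^ K) : conv a b i < 2 ^ 96 := by
  rw [conv]
  have h1 : ∑ x ∈ antidiagonal i, a x.1 * b x.2 ≤ ∑ x ∈ antidiagonal i, M * M := by
    apply Finset.sum_le_sum
    intro x hx
    have hx' : x.1 + x.2 = i := by simpa using hx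
    exact Nat.mul_le_mul (ha _ (by omega)).le (hb _ (by omega)).le
  rw [Finset.sum_const, Finset.Nat.card_antidiagonal, smul_eq_mul] at h1
  have h2 : (i + 1) * (M * M) ≤ 2 ^ K * (M * M) := Nat.mul_le_mul_right _ (by omega)
  exact lt_of_le_of_lt (h1.trans h2) hK

lemma rep_mul (hn : n ≤ 2 ^ K) (hK : 2 ^ K * (M * M) < 2 ^ 96) {P Q : ℕ}
    {f g : PowerSeries (ZMod M)} (hP : Rep K n P f) (hQ : Rep K n Q g) :
    Rep K n (mulR K P Q) (f * g) := by
  obtain ⟨a, ha, hP, haf⟩ := hP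
  obtain ⟨b, hb, hQ, hbg⟩ := hQ
  have h := conv_lt hK a b ha hb
  rw [mulR, hP, hQ, val_mul K a b h]
  apply rep_red _ h
  intro i hi
  rw [PowerSeries.coeff_mul, conv, Nat.cast_sum]
  apply Finset.sum_congr rfl
  intro x hx
  have hx' : x.1 + x.2 = i := by simpa using hx
  rw [Nat.cast_mul, haf _ (by omega), hbg _ (by omega)]

lemma val_lin (c e : ℕ) (a b : ℕ → ℕ) :
    c * val K a + e * val K b = val K (fun i => c * a i + e * b i) := by
  rw [val, val, val, Finset.mul_sum, Finset.mul_sum, ← Finset.sum_add_distrib]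
  apply Finset.sum_congr rfl
  intro i _
  rw [add_mul, mul_assoc, mul_assoc]

lemma coeff_natCast_mul (i c : ℕ) (h : PowerSeries (ZMod M)) :
    PowerSeries.coeff i ((c : PowerSeries (ZMod M)) * h) =
      (c : ZMod M) * PowerSeries.coeff i h := by
  rw [← nsmul_eq_mul, map_nsmul, nsmul_eq_mul]

lemma rep_lin {P Q : ℕ} {f g : PowerSeries (ZMod M)} (c e : ℕ) (hP : Rep K n P f)
    (hQ : Rep K n Q g) (hc : (c + e) * M ≤ 2 ^ 96) :
    Rep K n (red K (c * P + e * Q))
      ((c : PowerSeries (ZMod M)) * f + (e : PowerSeries (ZMod M)) * g) := by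
  obtain ⟨a, ha, hP, haf⟩ := hP
  obtain ⟨b, hb, hQ, hbg⟩ := hQ
  rw [hP, hQ, val_lin]
  apply rep_red
  · intro i hi
    have h1 : c * a i ≤ c * (M - 1) := Nat.mul_le_mul_left _ (by have := ha i hi; omega)
    have h2 : e * b i ≤ e * (M - 1) := Nat.mul_le_mul_left _ (by have := hb i hi; omega)
    have h3 : c * (M - 1) + e * (M - 1) < 2 ^ 96 := by
      rcases Nat.eq_zero_or_pos (c + e) with h0 | h0
      · have hc0 : c = 0 := by omega
        have he0 : e = 0 := by omega
        rw [hc0, he0]; norm_num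
      · have h4 : c * (M - 1) + e * (M - 1) = (c + e) * (M - 1) := by rw [add_mul]
        have h5 : (c + e) * (M - 1) < (c + e) * M :=
          Nat.mul_lt_mul_of_pos_left (by have := M_pos; omega) h0
        omega
    omega
  · intro i hi
    rw [map_add, coeff_natCast_mul, coeff_natCast_mul, ← haf i hi, ← hbg i hi]
    push_cast; ring

lemma val_one_add (c : ℕ) (a : ℕ → ℕ) :
    1 + c * val K a = val K (fun i => (if i = 0 then 1 else 0) + c * a i) := by
  have h1 : val K (fun i => if i = 0 then 1 else 0) = 1 := by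
    rw [val, Finset.sum_eq_single 0]
    · rw [if_pos rfl, mul_zero, pow_zero, one_mul]
    · intro i _ hi; rw [if_neg hi, zero_mul]
    · intro h; exact absurd (Finset.mem_range.mpr (by positivity)) h
  have h2 := val_lin (K := K) 1 c (fun i => if i = 0 then 1 else 0) a
  rw [h1, one_mul] at h2
  rw [h2]
  apply val_congr
  intro i _
  rw [one_mul]

lemma rep_eq_of_check (hn : n ≤ 2 ^ K) {P Q : ℕ} {f g : PowerSeries (ZMod M)}
    (hP : Rep K n P f) (hQ : Rep K n Q g) (h : P % 2 ^ (96 * n) = Q % 2 ^ (96 * n)) :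
    ∀ i < n, PowerSeries.coeff i f = PowerSeries.coeff i g := by
  obtain ⟨a, ha, hP, haf⟩ := hP
  obtain ⟨b, hb, hQ, hbg⟩ := hQ
  intro i hi
  rw [hP, hQ] at h
  have h1 : dg (val K a) i = a i :=
    dg_val K a (fun i hi => (ha i hi).trans M_lt) i (by omega)
  have h2 : dg (val K b) i = b i :=
    dg_val K b (fun i hi => (hb i hi).trans M_lt) i (by omega)
  have h3 : dg (val K a % 2 ^ (96 * n)) i = dg (val K a) i := dg_mod (val K a) n i hi
  have h4 : dg (val K b % 2 ^ (96 * n)) i = dg (val K b) i := dg_mod (val K b) n i hi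
  rw [← haf i hi, ← hbg i hi, ← h1, ← h2, ← h3, ← h4, h]

lemma rep_digits (hn : n ≤ 2 ^ K) (P : ℕ) :
    Rep K n (red K (P % 2 ^ (96 * 2 ^ K)))
      (PowerSeries.mk fun i => ((dg (red K (P % 2 ^ (96 * 2 ^ K))) i : ℕ) : ZMod M)) := by
  have h1 : red K (P % 2 ^ (96 * 2 ^ K)) = val K (fun i => dg P i % M) := by
    rw [← val_dg K P, red_val K _ (fun i _ => dg_lt P i)]
  refine ⟨fun i => dg P i % M, fun i _ => Nat.mod_lt _ M_pos, h1, ?_⟩
  intro i hi
  rw [PowerSeries.coeff_mk, h1, dg_val K _ (fun i _ => (Nat.mod_lt _ M_pos).trans M_lt) i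
    (by omega)]

end Pool.Agent.V11306.Asd
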