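import Mathlib
import Pool.Agent.V11306.AsdC

/-!
# The coefficients of `E₆ Δ / (E₄ ^ 3 + 121 Δ)` modulo `5 ^ 15`
-/

set_option autoImplicit false

namespace Pool.Agent.V11306.Asd

open Finset

attribute [local irreducible] val red mulR dg

/-- divisor power sums as a series -/
noncomputable def Sg (e : ℕ) : PowerSeries ℤ :=
  PowerSeries.mk fun n => ((ArithmeticFunction.sigma e n : ℕ) : ℤ)

/-- `E₄` -/
noncomputable def e4z : PowerSeries ℤ := 1 + 240 * Sg 3
/-- `E₆` -/
noncomputable def e6z : PowerSeries ℤ := 1 - 504 * Sg 5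

lemma twelve_dvd (n : ℕ) :
    (12 : ℤ) ∣ 5 * ((ArithmeticFunction.sigma 3 n : ℕ) : ℤ) +
      7 * ((ArithmeticFunction.sigma 5 n : ℕ) : ℤ) := by
  rw [ArithmeticFunction.sigma_apply, ArithmeticFunction.sigma_apply, Nat.cast_sum, Nat.cast_sum,
    Finset.mul_sum, Finset.mul_sum, ← Finset.sum_add_distrib]
  apply Finset.dvd_sum
  intro d _
  push_cast
  have h : ∀ x : ZMod 12, 5 * x ^ 3 + 7 * x ^ 5 = 0 := by decide
  have h2 := h (d : ZMod 12)
  have h3 : ((5 * (d : ℤ) ^ 3 + 7 * (d : ℤ) ^ 5 : ℤ) : ZMod 12) = 0 := by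
    push_cast; exact h2
  exact (ZMod.intCast_zmod_eq_zero_iff_dvd _ 12).mp h3 

/-- the integral part of `Δ` -/
noncomputable def uz : PowerSeries ℤ := PowerSeries.mk fun n =>
  (5 * ((ArithmeticFunction.sigma 3 n : ℕ) : ℤ) + 7 * ((ArithmeticFunction.sigma 5 n : ℕ) : ℤ)) / 12

lemma uz_spec : 12 * uz = 5 * Sg 3 + 7 * Sg 5 := by
  have hC : ∀ (c : ℤ) (f : PowerSeries ℤ) (n : ℕ),
      PowerSeries.coeff n (PowerSeries.C c * f) = c * PowerSeries.coeff n f := fun c f n =>
    PowerSeries.coeff_C_mul n f c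
  have h12 : (12 : PowerSeries ℤ) = PowerSeries.C 12 := by rw [map_ofNat]
  have h5 : (5 : PowerSeries ℤ) = PowerSeries.C 5 := by rw [map_ofNat]
  have h7 : (7 : PowerSeries ℤ) = PowerSeries.C 7 := by rw [map_ofNat]
  ext n
  rw [h12, h5, h7, map_add, hC, hC, hC, uz, Sg, Sg, PowerSeries.coeff_mk, PowerSeries.coeff_mk,
    PowerSeries.coeff_mk]
  exact Int.mul_ediv_cancel' (twelve_dvd n)

/-- `Δ` -/
noncomputable def dz : PowerSeries ℤ := uz + 100 * Sg 3 ^ 2 + 8000 * Sg 3 ^ 3 - 147 * Sg 5 ^ 2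

lemma dz_spec : 1728 * dz = e4z ^ 3 - e6z ^ 2 := by
  rw [dz, e4z, e6z]
  linear_combination (144 : PowerSeries ℤ) * uz_spec

/-- reduction modulo `M` -/
noncomputable def φ : PowerSeries ℤ →+* PowerSeries (ZMod M) :=
  PowerSeries.map (Int.castRingHom (ZMod M))

lemma coeff_φ (f : PowerSeries ℤ) (n : ℕ) :
    PowerSeries.coeff n (φ f) = ((PowerSeries.coeff n f : ℤ) : ZMod M) := by
  rw [φ, PowerSeries.coeff_map]; rfl

lemma hn12 : 3126 ≤ 2 ^ 12 := by norm_num

lemma hK12 : 2 ^ 12 * (M * M) < 2 ^ 96 := by norm_num [M]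

lemma s35_eq : s35 = val 12 (sg 3) + W * val 12 (sg 5) := by
  rw [s35_def]; exact lam_val 12 (by norm_num)

lemma W_eq : W = 2 ^ (96 * 2 ^ 12) := by
  rw [W_def, show (2 : ℕ) ^ 12 = 4096 by norm_num]

lemma val_sg_lt : val 12 (sg 3) < W := by
  rw [W_eq]
  exact val_lt 12 (sg 3) (fun i _ => lt_of_le_of_lt (sg_le 3 i) (by norm_num))

lemma W_pos : 0 < W := lt_of_le_of_lt (Nat.zero_le _) val_sg_lt

lemma mod_aux (s a b w : ℕ) (h : s = a + w * b) (hl : a < w) : s % w = a := by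
  rw [h, Nat.add_mul_mod_self_left, Nat.mod_eq_of_lt hl]

lemma div_aux (s a b w : ℕ) (h : s = a + w * b) (hl : a < w) : s / w = b := by
  rw [h, Nat.add_mul_div_left _ _ (by omega), Nat.div_eq_of_lt hl, zero_add]

lemma s35_mod : s35 % W = val 12 (sg 3) := mod_aux _ _ _ _ s35_eq val_sg_lt

lemma s35_div : s35 / W = val 12 (sg 5) := div_aux _ _ _ _ s35_eq val_sg_lt

lemma sg_eq (e i : ℕ) (hi : i < 3126) : sg e i = ArithmeticFunction.sigma e i := by
  rw [sg]
  split_ifs with h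
  · rfl
  · have : i = 0 := by omega
    rw [this, ArithmeticFunction.map_zero]

lemma coeff_e4z (i : ℕ) : PowerSeries.coeff i e4z =
    (if i = 0 then 1 else 0) + 240 * ((ArithmeticFunction.sigma 3 i : ℕ) : ℤ) := by
  have h : (240 : PowerSeries ℤ) = PowerSeries.C 240 := by rw [map_ofNat]
  rw [e4z, h, map_add, PowerSeries.coeff_one, PowerSeries.coeff_C_mul, Sg, PowerSeries.coeff_mk]

lemma coeff_e6z (i : ℕ) : PowerSeries.coeff i e6z =
    (if i = 0 then 1 else 0) - 504 * ((ArithmeticFunction.sigma 5 i : ℕ) : ℤ) := by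
  have h : (504 : PowerSeries ℤ) = PowerSeries.C 504 := by rw [map_ofNat]
  rw [e6z, h, map_sub, PowerSeries.coeff_one, PowerSeries.coeff_C_mul, Sg, PowerSeries.coeff_mk]

lemma rep_e4 : Rep 12 3126 e4 (φ e4z) := by
  rw [e4_def, s35_mod, val_one_add]
  apply rep_red
  · intro i _
    have h1 := sg_le 3 i
    have h2 : (if i = 0 then 1 else 0) ≤ 1 := by split_ifs <;> norm_num
    have h3 : 240 * sg 3 i ≤ 240 * (3125 * 3125 ^ 3) := Nat.mul_le_mul_left _ h1
    have h4 : 1 + 240 * (3125 * 3125 ^ 3) < 2 ^ 96 := by norm_num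
    omega
  · intro i hi
    rw [coeff_φ, coeff_e4z, sg_eq 3 i hi]
    push_cast
    split_ifs <;> simp

lemma M_cast : (M : ZMod M) = 0 := ZMod.natCast_self M

lemma cast_sub_M (c : ℕ) (hc : c ≤ M) : ((M - c : ℕ) : ZMod M) = -(c : ZMod M) := by
  rw [Nat.cast_sub hc, M_cast, zero_sub]

lemma rep_e6 : Rep 12 3126 e6 (φ e6z) := by
  have hb : ∀ i < 2 ^ 12, sg 5 i < 2 ^ 96 := fun i _ => lt_of_le_of_lt (sg_le 5 i) (by norm_num)
  rw [e6_def, s35_div, red_val 12 _ hb, val_one_add]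
  apply rep_red
  · intro i _
    have h1 : sg 5 i % M < M := Nat.mod_lt _ M_pos
    have h2 : (if i = 0 then 1 else 0) ≤ 1 := by split_ifs <;> norm_num
    have h3 : (M - 504) * (sg 5 i % M) ≤ M * M := Nat.mul_le_mul (by omega) h1.le
    have h4 : 1 + M * M < 2 ^ 96 := by norm_num [M]
    omega
  · intro i hi
    rw [coeff_φ, coeff_e6z, Nat.cast_add, Nat.cast_mul, ZMod.natCast_mod, sg_eq 5 i hi,
      cast_sub_M 504 (by norm_num [M])]
    push_cast
    split_ifs <;> ring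

lemma rep_e43 : Rep 12 3126 e43 (φ (e4z ^ 3)) := by
  have h : φ (e4z ^ 3) = φ e4z * (φ e4z * φ e4z) := by rw [map_pow]; ring
  rw [h, e43_def]
  exact rep_mul hn12 hK12 rep_e4 (rep_mul hn12 hK12 rep_e4 rep_e4)

lemma rep_dl : Rep 12 3126 dl (φ dz) := by
  have h1 := rep_lin 1 (M - 1) rep_e43 (rep_mul hn12 hK12 rep_e6 rep_e6) (by norm_num [M])
  rw [one_mul] at h1
  have h2 := rep_lin 16865906892 0 h1 h1 (by norm_num [M])
  rw [zero_mul, add_zero] at h2
  rw [dl_def]
  have h3 : ((16865906892 : ℕ) : PowerSeries (ZMod M)) *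
      (((1 : ℕ) : PowerSeries (ZMod M)) * φ (e4z ^ 3) +
        ((M - 1 : ℕ) : PowerSeries (ZMod M)) * (φ e6z * φ e6z)) +
      ((0 : ℕ) : PowerSeries (ZMod M)) * (((1 : ℕ) : PowerSeries (ZMod M)) * φ (e4z ^ 3) +
        ((M - 1 : ℕ) : PowerSeries (ZMod M)) * (φ e6z * φ e6z)) = φ dz := by
    have hM : ((M : ℕ) : PowerSeries (ZMod M)) = 0 := by
      rw [← map_natCast (PowerSeries.C (R := ZMod M)), M_cast, map_zero]
    have hM1 : ((M - 1 : ℕ) : PowerSeries (ZMod M)) = -1 := by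
      rw [Nat.cast_sub (by norm_num [M]), hM, Nat.cast_one, zero_sub]
    have hinv : ((16865906892 : ℕ) : PowerSeries (ZMod M)) * 1728 = 1 := by
      have e : (16865906892 * 1728 : ℕ) = 955 * M + 1 := by norm_num [M]
      have e2 := congrArg (Nat.cast : ℕ → PowerSeries (ZMod M)) e
      rw [Nat.cast_mul, Nat.cast_add, Nat.cast_mul, hM] at e2
      simpa using e2
    have hd : (1728 : PowerSeries (ZMod M)) * φ dz = φ (e4z ^ 3) - φ e6z * φ e6z := by
      have := congrArg φ dz_spec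
      rw [map_mul, map_sub, map_ofNat, map_pow φ e6z 2] at this
      rw [this]; ring
    rw [hM1]
    calc _ = ((16865906892 : ℕ) : PowerSeries (ZMod M)) * (φ (e4z ^ 3) - φ e6z * φ e6z) := by
          push_cast; ring
      _ = (((16865906892 : ℕ) : PowerSeries (ZMod M)) * 1728) * φ dz := by rw [← hd]; ring
      _ = φ dz := by rw [hinv, one_mul]
  rw [← h3]
  exact h2

lemma rep_den : Rep 12 3126 den (φ (e4z ^ 3 + 121 * dz)) := by
  have h1 := rep_lin 1 121 rep_e43 rep_dl (by norm_num [M])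
  rw [one_mul] at h1
  rw [den_def, map_add, map_mul, map_ofNat]
  rw [Nat.cast_one, one_mul] at h1
  exact_mod_cast h1

lemma rep_rhs : Rep 12 3126 rhs (φ (e6z * dz)) := by
  rw [rhs_def, map_mul]
  exact rep_mul hn12 hK12 rep_e6 rep_dl

lemma const_e4z : PowerSeries.constantCoeff e4z = 1 := by
  rw [← PowerSeries.coeff_zero_eq_constantCoeff_apply, coeff_e4z, if_pos rfl,
    ArithmeticFunction.map_zero]
  norm_num

lemma const_e6z : PowerSeries.constantCoeff e6z = 1 := by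
  rw [← PowerSeries.coeff_zero_eq_constantCoeff_apply, coeff_e6z, if_pos rfl,
    ArithmeticFunction.map_zero]
  norm_num

lemma const_dz : PowerSeries.constantCoeff dz = 0 := by
  have h := congrArg PowerSeries.constantCoeff dz_spec
  rw [map_mul, map_sub, map_pow, map_pow, const_e4z, const_e6z, map_ofNat] at h
  norm_num at h
  exact h

lemma const_den : PowerSeries.constantCoeff (e4z ^ 3 + 121 * dz) = 1 := by
  rw [map_add, map_mul, map_pow, const_e4z, const_dz]
  norm_num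

/-- uniqueness of truncated quotients -/
lemma quot_unique (n : ℕ) (D g h : PowerSeries (ZMod M)) (hD : PowerSeries.constantCoeff D = 1)
    (hh : ∀ i < n, PowerSeries.coeff i (D * g) = PowerSeries.coeff i (D * h)) :
    ∀ i < n, PowerSeries.coeff i g = PowerSeries.coeff i h := by
  have h1 : PowerSeries.X ^ n ∣ D * (g - h) := by
    rw [PowerSeries.X_pow_dvd_iff]
    intro m hm
    rw [mul_sub, map_sub, hh m hm, sub_self]
  have hu : IsUnit D := by
    rw [PowerSeries.isUnit_iff_constantCoeff, hD]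
    exact isUnit_one
  have h2 : PowerSeries.X ^ n ∣ g - h := (hu.dvd_mul_left).mp h1
  rw [PowerSeries.X_pow_dvd_iff] at h2
  intro i hi
  have := h2 i hi
  rw [map_sub] at this
  exact sub_eq_zero.mp this

/-- the outcome of the computation -/
theorem key (F : PowerSeries ℤ) (hF : (e4z ^ 3 + 121 * dz) * F = e6z * dz) :
    ¬ ((5 : ℤ) ^ 15 ∣ PowerSeries.coeff 3125 F - 11 * PowerSeries.coeff 625 F -
      495 * PowerSeries.coeff 125 F + 12375 * PowerSeries.coeff 25 F +
      171875 * PowerSeries.coeff 5 F - 9765625 * PowerSeries.coeff 1 F) := by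
  obtain ⟨P, hP⟩ := G_def
  have hG : Rep 12 3126 G (PowerSeries.mk fun i => ((dg G i : ℕ) : ZMod M)) := by
    have := rep_digits (K := 12) hn12 P
    rw [← hP] at this
    exact this
  obtain ⟨hc1, hc2⟩ := check_spec
  rw [W'_def] at hc1
  have h1 := rep_eq_of_check hn12 (rep_mul hn12 hK12 rep_den hG) rep_rhs hc1
  rw [← hF, map_mul] at h1
  have hconst : PowerSeries.constantCoeff (φ (e4z ^ 3 + 121 * dz)) = 1 := by
    rw [φ, ← PowerSeries.coeff_zero_eq_constantCoeff_apply, PowerSeries.coeff_map,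
      PowerSeries.coeff_zero_eq_constantCoeff_apply, const_den, map_one]
  have h2 := quot_unique 3126 _ _ _ hconst h1
  have h3 : ∀ i < 3126, ((dg G i : ℕ) : ZMod M) = ((PowerSeries.coeff i F : ℤ) : ZMod M) := by
    intro i hi
    rw [← coeff_φ, ← h2 i hi, PowerSeries.coeff_mk]
  intro hdvd
  apply hc2
  apply Nat.mod_eq_zero_of_dvd
  rw [← ZMod.natCast_eq_zero_iff]
  have hM5 : (M : ℤ) = 5 ^ 15 := by norm_num [M]
  rw [← hM5, ← ZMod.intCast_zmod_eq_zero_iff_dvd] at hdvd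
  push_cast [cast_sub_M 11 (by norm_num [M]), cast_sub_M 495 (by norm_num [M]),
    cast_sub_M 9765625 (by norm_num [M])]
  rw [h3 3125 (by norm_num), h3 625 (by norm_num), h3 125 (by norm_num), h3 25 (by norm_num),
    h3 5 (by norm_num), h3 1 (by norm_num)]
  rw [← hdvd]
  push_cast
  ring

end Pool.Agent.V11306.Asd
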