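import Mathlib

/-!
# Homomorphisms between the curves `y² = x³ + a x² + b x`
-/

set_option autoImplicit false

namespace Pool.Agent.V11306.CM

open WeierstrassCurve WeierstrassCurve.Affine

variable {K : Type*} [Field K] [DecidableEq K]

/-- the curve `y² = x³ + a x² + b x` -/
def E (a b : K) : WeierstrassCurve.Affine K := ⟨0, a, 0, b, 0⟩

omit [DecidableEq K] in
lemma E_eq (a b x y : K) : (E a b).Equation x y ↔ y ^ 2 = x ^ 3 + a * x ^ 2 + b * x := by
  rw [equation_iff]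
  simp [E]

omit [DecidableEq K] in
lemma E_delta (a b : K) : (E a b).Δ = 16 * b ^ 2 * (a ^ 2 - 4 * b) := by
  simp only [E, Δ, b₂, b₄, b₆, b₈]
  ring

omit [DecidableEq K] in
lemma E_ns {a b : K} (h : (E a b).Δ ≠ 0) {x y : K} (he : y ^ 2 = x ^ 3 + a * x ^ 2 + b * x) :
    (E a b).Nonsingular x y :=
  (equation_iff_nonsingular_of_Δ_ne_zero h).mp ((E_eq a b x y).mpr he)

omit [DecidableEq K] in
lemma E_negY (a b x y : K) : (E a b).negY x y = -y := by
  simp [E, negY]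

/-- three points on a line -/
structure Col (a b x₁ y₁ x₂ y₂ x₃ y₃ l v : K) : Prop where
  h1 : y₁ = l * x₁ + v
  h2 : y₂ = l * x₂ + v
  h3 : y₃ = l * x₃ + v
  s1 : x₁ + x₂ + x₃ = l ^ 2 - a
  s2 : x₁ * x₂ + x₁ * x₃ + x₂ * x₃ = b - 2 * l * v
  s3 : x₁ * x₂ * x₃ = v ^ 2

/-- the sum of two points and the line through them -/
lemma vieta {a b x₁ y₁ x₂ y₂ : K} (h₁ : (E a b).Nonsingular x₁ y₁) (h₂ : (E a b).Nonsingular x₂ y₂)
    (hxy : ¬(x₁ = x₂ ∧ y₁ = (E a b).negY x₂ y₂)) :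
    ∃ (x₃ y₃ l v : K) (h₃ : (E a b).Nonsingular x₃ y₃),
      Point.some _ _ h₁ + Point.some _ _ h₂ = Point.some _ _ h₃ ∧
      Col a b x₁ y₁ x₂ y₂ x₃ (-y₃) l v := by
  set l := (E a b).slope x₁ x₂ y₁ y₂ with hl
  have hp := addPolynomial_slope h₁.1 h₂.1 hxy
  rw [addPolynomial_eq, neg_inj, Cubic.prod_X_sub_C_eq, Cubic.toPoly_injective] at hp
  rw [← hl] at hp
  have e1 := congrArg Cubic.b hp
  have e2 := congrArg Cubic.c hp
  have e3 := congrArg Cubic.d hp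
  have hadd : (E a b).addX x₁ x₂ l = l ^ 2 - a - x₁ - x₂ := by
    simp [E, addX]
  have haddY : (E a b).addY x₁ x₂ y₁ l = -(l * ((l ^ 2 - a - x₁ - x₂) - x₁) + y₁) := by
    simp [E, addY, addX, negAddY, negY]
  refine ⟨_, _, l, y₁ - l * x₁, nonsingular_add h₁ h₂ hxy, Point.add_some hxy, ?_⟩
  simp only [hadd] at e1 e2 e3
  simp only [E] at e1 e2 e3
  rw [← hl, hadd, haddY]
  refine ⟨by ring, ?_, by ring, by ring, ?_, ?_⟩
  · by_cases hx : x₁ = x₂
    · have hy : y₁ ≠ (E a b).negY x₂ y₂ := fun h => hxy ⟨hx, h⟩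
      have := Y_eq_of_Y_ne h₁.1 h₂.1 hx hy
      rw [hx, this]
      ring
    · rw [hl, slope_of_X_ne hx]
      have : x₁ - x₂ ≠ 0 := sub_ne_zero.mpr hx
      field_simp
      ring
  · linear_combination -e2
  · linear_combination e3

/-- a line meeting the curve in three points determines their sum -/
lemma col_add {a b x₁ y₁ x₂ y₂ x₃ y₃ l v : K} (h₁ : (E a b).Nonsingular x₁ y₁)
    (h₂ : (E a b).Nonsingular x₂ y₂) (h₃ : (E a b).Nonsingular x₃ y₃)
    (hc : Col a b x₁ y₁ x₂ y₂ x₃ (-y₃) l v) :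
    Point.some _ _ h₁ + Point.some _ _ h₂ = Point.some _ _ h₃ := by
  obtain ⟨c1, c2, c3, s1, s2, s3⟩ := hc
  have hxy : ¬(x₁ = x₂ ∧ y₁ = (E a b).negY x₂ y₂) := by
    rintro ⟨hx, hy⟩
    rw [E_negY] at hy
    have hn := (nonsingular_iff' _ _).mp h₁
    simp only [E] at hn
    subst hx
    have hy2 : y₁ = y₂ := by rw [c1, c2]
    rcases hn.2 with h | h
    · apply h
      -- `3x² + 2ax + b = 2 y l` and `2 y = 0`
      have hy0 : 2 * y₁ = 0 := by linear_combination hy + hy2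
      linear_combination s2 - 2 * x₁ * s1 + 2 * l * c1 - l * hy0
    · apply h
      linear_combination hy + hy2
  rw [Point.add_some hxy]
  have hl : (E a b).slope x₁ x₂ y₁ y₂ = l := by
    by_cases hx : x₁ = x₂
    · have hy : y₁ ≠ (E a b).negY x₂ y₂ := fun h => hxy ⟨hx, h⟩
      rw [slope_of_Y_ne hx hy]
      have hy2 : y₁ = y₂ := by rw [c1, c2, hx]
      have hy0 : y₁ - (E a b).negY x₁ y₁ ≠ 0 := by
        rw [sub_ne_zero, E_negY]
        rwa [E_negY, ← hy2] at hy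
      rw [div_eq_iff hy0, E_negY]
      simp only [E]
      subst hx
      linear_combination -s2 + 2 * x₁ * s1 - 2 * l * c1
    · rw [slope_of_X_ne hx]
      have : x₁ - x₂ ≠ 0 := sub_ne_zero.mpr hx
      rw [div_eq_iff this, c1, c2]
      ring
  have hX : (E a b).addX x₁ x₂ ((E a b).slope x₁ x₂ y₁ y₂) = x₃ := by
    rw [hl]
    simp only [E, addX]
    linear_combination -s1
  have hY : (E a b).addY x₁ x₂ y₁ ((E a b).slope x₁ x₂ y₁ y₂) = y₃ := by
    rw [addY, negAddY, hX, hl, E_negY]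
    linear_combination c3 - c1
  simp only [Point.some.injEq]
  exact ⟨hX, hY⟩

/-- a criterion for additivity -/
lemma additive_of {a b a' b' : K} (f : (E a b).Point → (E a' b').Point)
    (h0 : f 0 = 0) (hneg : ∀ P, f (-P) = - f P)
    (hcol : ∀ (x₁ y₁ x₂ y₂ x₃ y₃ l v : K) (h₁ : (E a b).Nonsingular x₁ y₁)
      (h₂ : (E a b).Nonsingular x₂ y₂) (h₃ : (E a b).Nonsingular x₃ y₃),
      Col a b x₁ y₁ x₂ y₂ x₃ (-y₃) l v →
      f (Point.some _ _ h₁) + f (Point.some _ _ h₂) = f (Point.some _ _ h₃)) (P Q : (E a b).Point) :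
    f (P + Q) = f P + f Q := by
  rcases P with _ | ⟨x₁, y₁, h₁⟩
  · rw [← Point.zero_def, h0, zero_add, zero_add]
  rcases Q with _ | ⟨x₂, y₂, h₂⟩
  · rw [← Point.zero_def, h0, add_zero, add_zero]
  by_cases hxy : x₁ = x₂ ∧ y₁ = (E a b).negY x₂ y₂
  · have e : Point.some _ _ h₁ = -Point.some _ _ h₂ := by
      rw [Point.neg_some]
      simp only [Point.some.injEq]
      exact hxy
    rw [e, neg_add_cancel, h0, hneg, neg_add_cancel]
  · obtain ⟨x₃, y₃, l, v, h₃, e, hc⟩ := vieta h₁ h₂ hxy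
    rw [e]
    exact (hcol _ _ _ _ _ _ _ _ h₁ h₂ h₃ hc).symm

end Pool.Agent.V11306.CM
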