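import Mathlib
import Pool.Agent.V11306.CMa

/-!
# The two-isogeny and affine changes of coordinates
-/

set_option autoImplicit false

namespace Pool.Agent.V11306.CM

open WeierstrassCurve WeierstrassCurve.Affine

variable {K : Type*} [Field K] [DecidableEq K]

omit [DecidableEq K] in
lemma img_eq {a b a' b' x y : K} (ha : a' = -2 * a) (hb : b' = a ^ 2 - 4 * b) (hx : x ≠ 0)
    (he : y ^ 2 = x ^ 3 + a * x ^ 2 + b * x) :
    (y * (x ^ 2 - b) / x ^ 2) ^ 2 = (y ^ 2 / x ^ 2) ^ 3 + a' * (y ^ 2 / x ^ 2) ^ 2 +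
      b' * (y ^ 2 / x ^ 2) := by
  have h1 : y ^ 2 / x ^ 2 = x + a + b / x := by
    rw [he]; field_simp
  have h2 : (y * (x ^ 2 - b) / x ^ 2) ^ 2 = (y ^ 2 / x ^ 2) * (x - b / x) ^ 2 := by
    field_simp
  rw [h2, h1, ha, hb]
  field_simp
  ring

/-- the two-isogeny with kernel generated by `(0, 0)` -/
def phi (a b a' b' : K) (ha : a' = -2 * a) (hb : b' = a ^ 2 - 4 * b) (hΔ' : (E a' b').Δ ≠ 0) :
    (E a b).Point → (E a' b').Point
  | .zero => 0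
  | .some x y h => if hx : x = 0 then 0 else
      .some (y ^ 2 / x ^ 2) (y * (x ^ 2 - b) / x ^ 2)
        (E_ns hΔ' (img_eq ha hb hx ((E_eq a b x y).mp h.1)))

section phi

variable {a b a' b' : K} (ha : a' = -2 * a) (hb : b' = a ^ 2 - 4 * b) (hΔ' : (E a' b').Δ ≠ 0)

lemma phi_zero : phi a b a' b' ha hb hΔ' 0 = 0 := rfl

lemma phi_of_zero {x y : K} (h : (E a b).Nonsingular x y) (hx : x = 0) :
    phi a b a' b' ha hb hΔ' (.some x y h) = 0 := by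
  simp only [phi, dif_pos hx]

lemma phi_of_ne {x y : K} (h : (E a b).Nonsingular x y) (hx : x ≠ 0) :
    phi a b a' b' ha hb hΔ' (.some x y h) = .some (y ^ 2 / x ^ 2) (y * (x ^ 2 - b) / x ^ 2)
        (E_ns hΔ' (img_eq ha hb hx ((E_eq a b x y).mp h.1))) := by
  simp only [phi, dif_neg hx]

lemma phi_neg (P : (E a b).Point) :
    phi a b a' b' ha hb hΔ' (-P) = - phi a b a' b' ha hb hΔ' P := by
  rcases P with _ | ⟨x, y, h⟩
  · rfl
  · rw [Point.neg_some]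
    by_cases hx : x = 0
    · rw [phi_of_zero ha hb hΔ' _ hx, phi_of_zero ha hb hΔ' _ hx, neg_zero]
    · rw [phi_of_ne ha hb hΔ' _ hx, phi_of_ne ha hb hΔ' _ hx, Point.neg_some]
      simp only [Point.some.injEq, E_negY]
      constructor
      · ring
      · ring

omit [DecidableEq K] in
lemma img_line {a b x y l v l' v' : K} (hx : x ≠ 0) (hv : v ≠ 0) (hy : y = l * x + v)
    (he : y ^ 2 = x ^ 3 + a * x ^ 2 + b * x) (hl' : v * l' = l * v - b)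
    (hv' : v * v' = v ^ 2 - a * l * v + b * l ^ 2) :
    y * (x ^ 2 - b) / x ^ 2 = l' * (y ^ 2 / x ^ 2) + v' := by
  have h1 : l' * (y ^ 2 / x ^ 2) + v' = (l' * y ^ 2 + v' * x ^ 2) / x ^ 2 := by
    field_simp
  rw [h1]
  congr 1
  apply mul_left_cancel₀ hv
  subst hy
  linear_combination (-(l * v)) * he - (l * x + v) ^ 2 * hl' - x ^ 2 * hv'

lemma phi_col (hb0 : b ≠ 0) (x₁ y₁ x₂ y₂ x₃ y₃ l v : K) (h₁ : (E a b).Nonsingular x₁ y₁)
    (h₂ : (E a b).Nonsingular x₂ y₂) (h₃ : (E a b).Nonsingular x₃ y₃)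
    (hc : Col a b x₁ y₁ x₂ y₂ x₃ (-y₃) l v) :
    phi a b a' b' ha hb hΔ' (.some _ _ h₁) + phi a b a' b' ha hb hΔ' (.some _ _ h₂) =
      phi a b a' b' ha hb hΔ' (.some _ _ h₃) := by
  obtain ⟨c1, c2, c3, s1, s2, s3⟩ := hc
  have e1 := (E_eq a b x₁ y₁).mp h₁.1
  have e2 := (E_eq a b x₂ y₂).mp h₂.1
  have e3 := (E_eq a b x₃ y₃).mp h₃.1
  by_cases hx1 : x₁ = 0
  · have hv : v = 0 := by
      rw [hx1] at s3
      have : v ^ 2 = 0 := by rw [← s3]; ring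
      exact pow_eq_zero_iff (two_ne_zero) |>.mp this
    rw [hx1, hv] at s2
    have h23 : x₂ * x₃ = b := by linear_combination s2
    have hx2 : x₂ ≠ 0 := by rintro rfl; apply hb0; rw [← h23]; ring
    have hx3 : x₃ ≠ 0 := by rintro rfl; apply hb0; rw [← h23]; ring
    rw [phi_of_zero ha hb hΔ' _ hx1, phi_of_ne ha hb hΔ' _ hx2, phi_of_ne ha hb hΔ' _ hx3, zero_add]
    simp only [Point.some.injEq]
    have hy3 : y₃ = -(l * x₃) := by rw [hv] at c3; linear_combination -c3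
    have hy2 : y₂ = l * x₂ := by rw [hv] at c2; linear_combination c2
    rw [hy3, hy2, ← h23]
    constructor
    · field_simp
    · field_simp
      ring
  by_cases hx2 : x₂ = 0
  · have hv : v = 0 := by
      rw [hx2] at s3
      have : v ^ 2 = 0 := by rw [← s3]; ring
      exact pow_eq_zero_iff (two_ne_zero) |>.mp this
    rw [hx2, hv] at s2
    have h23 : x₁ * x₃ = b := by linear_combination s2
    have hx3 : x₃ ≠ 0 := by rintro rfl; apply hb0; rw [← h23]; ring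
    rw [phi_of_zero ha hb hΔ' _ hx2, phi_of_ne ha hb hΔ' _ hx1, phi_of_ne ha hb hΔ' _ hx3, add_zero]
    simp only [Point.some.injEq]
    have hy3 : y₃ = -(l * x₃) := by rw [hv] at c3; linear_combination -c3
    have hy2 : y₁ = l * x₁ := by rw [hv] at c1; linear_combination c1
    rw [hy3, hy2, ← h23]
    constructor
    · field_simp
    · field_simp
      ring
  by_cases hx3 : x₃ = 0
  · have hv : v = 0 := by
      rw [hx3] at s3
      have : v ^ 2 = 0 := by rw [← s3]; ring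
      exact pow_eq_zero_iff (two_ne_zero) |>.mp this
    rw [hx3, hv] at s2
    have h23 : x₁ * x₂ = b := by linear_combination s2
    rw [phi_of_zero ha hb hΔ' _ hx3, phi_of_ne ha hb hΔ' _ hx1, phi_of_ne ha hb hΔ' _ hx2]
    have hy2 : y₂ = l * x₂ := by rw [hv] at c2; linear_combination c2
    have hy1 : y₁ = l * x₁ := by rw [hv] at c1; linear_combination c1
    apply Point.add_of_Y_eq
    · rw [hy1, hy2]
      field_simp
    · rw [E_negY, hy1, hy2, ← h23]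
      field_simp
      ring
  have hv : v ≠ 0 := by
    rintro rfl
    have : x₁ * x₂ * x₃ ≠ 0 := mul_ne_zero (mul_ne_zero hx1 hx2) hx3
    apply this
    rw [s3]; ring
  rw [phi_of_ne ha hb hΔ' _ hx1, phi_of_ne ha hb hΔ' _ hx2, phi_of_ne ha hb hΔ' _ hx3]
  obtain ⟨l', hl'⟩ : ∃ l', v * l' = l * v - b := ⟨(l * v - b) / v, by field_simp⟩
  obtain ⟨v', hv'⟩ : ∃ v', v * v' = v ^ 2 - a * l * v + b * l ^ 2 :=
    ⟨(v ^ 2 - a * l * v + b * l ^ 2) / v, by field_simp⟩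
  have e3' : (-y₃) ^ 2 = x₃ ^ 3 + a * x₃ ^ 2 + b * x₃ := by rw [← e3]; ring
  have L1 := img_line hx1 hv c1 e1 hl' hv'
  have L2 := img_line hx2 hv c2 e2 hl' hv'
  have L3 := img_line hx3 hv c3 e3' hl' hv'
  obtain ⟨w₁, hw1⟩ : ∃ w, x₁ * w = 1 := ⟨x₁⁻¹, mul_inv_cancel₀ hx1⟩
  obtain ⟨w₂, hw2⟩ : ∃ w, x₂ * w = 1 := ⟨x₂⁻¹, mul_inv_cancel₀ hx2⟩
  obtain ⟨w₃, hw3⟩ : ∃ w, x₃ * w = 1 := ⟨x₃⁻¹, mul_inv_cancel₀ hx3⟩
  have W1 : v ^ 2 * (w₁ + w₂ + w₃) = b - 2 * l * v := by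
    linear_combination (-(w₁ + w₂ + w₃)) * s3 + x₂ * x₃ * hw1 + x₁ * x₃ * hw2 + x₁ * x₂ * hw3 + s2
  have W2 : v ^ 2 * (w₁ * w₂ + w₁ * w₃ + w₂ * w₃) = l ^ 2 - a := by
    linear_combination (-(w₁ * w₂ + w₁ * w₃ + w₂ * w₃)) * s3 + x₃ * x₂ * w₂ * hw1 + x₃ * hw2 +
      x₂ * x₃ * w₃ * hw1 + x₂ * hw3 + x₁ * x₃ * w₃ * hw2 + x₁ * hw3 + s1
  have W3 : v ^ 2 * (w₁ * w₂ * w₃) = 1 := by
    linear_combination (-(w₁ * w₂ * w₃)) * s3 + x₂ * x₃ * w₂ * w₃ * hw1 + x₃ * w₃ * hw2 + hw3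
  have X1 : y₁ ^ 2 / x₁ ^ 2 = (l + v * w₁) ^ 2 := by
    rw [div_eq_iff (pow_ne_zero 2 hx1), c1]
    linear_combination (-(v * (2 * l * x₁ + v * x₁ * w₁ + v))) * hw1
  have X2 : y₂ ^ 2 / x₂ ^ 2 = (l + v * w₂) ^ 2 := by
    rw [div_eq_iff (pow_ne_zero 2 hx2), c2]
    linear_combination (-(v * (2 * l * x₂ + v * x₂ * w₂ + v))) * hw2
  have X3 : y₃ ^ 2 / x₃ ^ 2 = (l + v * w₃) ^ 2 := by
    rw [div_eq_iff (pow_ne_zero 2 hx3), ← neg_sq, c3]
    linear_combination (-(v * (2 * l * x₃ + v * x₃ * w₃ + v))) * hw3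
  rw [neg_sq] at L3
  set z₁ := l + v * w₁ with hz1
  set z₂ := l + v * w₂ with hz2
  set z₃ := l + v * w₃ with hz3
  have T1 : v * (z₁ + z₂ + z₃) = l * v + b := by
    rw [hz1, hz2, hz3]; linear_combination W1
  have T2 : v * (z₁ * z₂ + z₁ * z₃ + z₂ * z₃) = 2 * l * b - a * v := by
    rw [hz1, hz2, hz3]; linear_combination 2 * l * W1 + v * W2
  have T3 : v * (z₁ * z₂ * z₃) = v ^ 2 - a * l * v + b * l ^ 2 := by
    rw [hz1, hz2, hz3]; linear_combination l ^ 2 * W1 + l * v * W2 + v ^ 2 * W3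
  have hvv : v ^ 2 ≠ 0 := pow_ne_zero 2 hv
  apply col_add (l := l') (v := v')
  refine ⟨L1, L2, ?_, ?_, ?_, ?_⟩
  · rw [← L3]; ring
  · rw [X1, X2, X3, ha]
    apply mul_left_cancel₀ hvv
    linear_combination (v * (z₁ + z₂ + z₃) + (l * v + b)) * T1 - 2 * v * T2 -
      (v * l' + (l * v - b)) * hl'
  · rw [X1, X2, X3, hb]
    apply mul_left_cancel₀ hvv
    linear_combination (v * (z₁ * z₂ + z₁ * z₃ + z₂ * z₃) + (2 * l * b - a * v)) * T2 -
      2 * (v * (z₁ * z₂ * z₃)) * T1 - 2 * (l * v + b) * T3 + 2 * (v * v') * hl' +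
      2 * (l * v - b) * hv'
  · rw [X1, X2, X3]
    apply mul_left_cancel₀ hvv
    linear_combination (v * (z₁ * z₂ * z₃) + (v ^ 2 - a * l * v + b * l ^ 2)) * T3 -
      (v * v' + (v ^ 2 - a * l * v + b * l ^ 2)) * hv'

/-- the two-isogeny as a homomorphism -/
def phiHom (hb0 : b ≠ 0) : (E a b).Point →+ (E a' b').Point where
  toFun := phi a b a' b' ha hb hΔ'
  map_zero' := rfl
  map_add' := additive_of _ rfl (phi_neg ha hb hΔ') (phi_col ha hb hΔ' hb0)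

end phi

omit [DecidableEq K] in
lemma aff_eq {a b a' b' α β γ x y : K} (hg : γ ^ 2 = α ^ 3) (h1 : α * a = 3 * β + a')
    (h2 : α ^ 2 * b = 3 * β ^ 2 + 2 * a' * β + b') (h3 : β ^ 3 + a' * β ^ 2 + b' * β = 0)
    (he : y ^ 2 = x ^ 3 + a * x ^ 2 + b * x) :
    (γ * y) ^ 2 = (α * x + β) ^ 3 + a' * (α * x + β) ^ 2 + b' * (α * x + β) := by
  linear_combination y ^ 2 * hg + α ^ 3 * he + α ^ 2 * x ^ 2 * h1 + α * x * h2 - h3

/-- affine changes of coordinates -/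
def aff (a b a' b' α β γ : K) (hg : γ ^ 2 = α ^ 3) (h1 : α * a = 3 * β + a')
    (h2 : α ^ 2 * b = 3 * β ^ 2 + 2 * a' * β + b') (h3 : β ^ 3 + a' * β ^ 2 + b' * β = 0)
    (hΔ' : (E a' b').Δ ≠ 0) : (E a b).Point → (E a' b').Point
  | .zero => 0
  | .some x y h => .some (α * x + β) (γ * y)
        (E_ns hΔ' (aff_eq hg h1 h2 h3 ((E_eq a b x y).mp h.1)))

section aff

variable {a b a' b' α β γ : K} (hg : γ ^ 2 = α ^ 3) (h1 : α * a = 3 * β + a')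
    (h2 : α ^ 2 * b = 3 * β ^ 2 + 2 * a' * β + b') (h3 : β ^ 3 + a' * β ^ 2 + b' * β = 0)
    (hΔ' : (E a' b').Δ ≠ 0)

lemma aff_col (hα : α ≠ 0) (x₁ y₁ x₂ y₂ x₃ y₃ l v : K) (n₁ : (E a b).Nonsingular x₁ y₁)
    (n₂ : (E a b).Nonsingular x₂ y₂) (n₃ : (E a b).Nonsingular x₃ y₃)
    (hc : Col a b x₁ y₁ x₂ y₂ x₃ (-y₃) l v) :
    aff a b a' b' α β γ hg h1 h2 h3 hΔ' (.some _ _ n₁) +
      aff a b a' b' α β γ hg h1 h2 h3 hΔ' (.some _ _ n₂) =
      aff a b a' b' α β γ hg h1 h2 h3 hΔ' (.some _ _ n₃) := by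
  obtain ⟨c1, c2, c3, s1, s2, s3⟩ := hc
  obtain ⟨l', hl'⟩ : ∃ l', α * l' = γ * l := ⟨γ * l / α, by field_simp⟩
  have hαα : α ^ 2 ≠ 0 := pow_ne_zero 2 hα
  simp only [aff]
  apply col_add (l := l') (v := γ * v - l' * β)
  refine ⟨?_, ?_, ?_, ?_, ?_, ?_⟩
  · rw [c1]; linear_combination (-x₁) * hl'
  · rw [c2]; linear_combination (-x₂) * hl'
  · rw [show -(γ * y₃) = γ * (-y₃) by ring, c3]; linear_combination (-x₃) * hl'
  · apply mul_left_cancel₀ hαα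
    linear_combination α ^ 3 * s1 - (α * l' + γ * l) * hl' - l ^ 2 * hg - α ^ 2 * h1
  · apply mul_left_cancel₀ hαα
    linear_combination α ^ 4 * s2 + 2 * α ^ 3 * β * s1 + 2 * α * γ * v * hl' + 2 * α * l * v * hg -
      2 * β * ((α * l' + γ * l) * hl' + l ^ 2 * hg) + α ^ 2 * h2 - 2 * α ^ 2 * β * h1
  · apply mul_left_cancel₀ hαα
    linear_combination α ^ 5 * s3 + α ^ 4 * β * s2 + α ^ 3 * β ^ 2 * s1 - α ^ 2 * v ^ 2 * hg +
      2 * α * γ * v * β * hl' + 2 * α * l * v * β * hg - β ^ 2 * ((α * l' + γ * l) * hl' + l ^ 2 * hg) +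
      α ^ 2 * β * h2 - α ^ 2 * β ^ 2 * h1 + α ^ 2 * h3

/-- affine changes as homomorphisms -/
def affHom (hα : α ≠ 0) : (E a b).Point →+ (E a' b').Point where
  toFun := aff a b a' b' α β γ hg h1 h2 h3 hΔ'
  map_zero' := rfl
  map_add' := additive_of _ rfl (by
    rintro (_ | ⟨x, y, h⟩)
    · rfl
    · rw [Point.neg_some]
      simp only [aff]
      rw [Point.neg_some]
      simp only [Point.some.injEq, E_negY, true_and]
      ring) (aff_col hg h1 h2 h3 hΔ' hα)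

end aff

end Pool.Agent.V11306.CM
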