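import Mathlib
import Pool.Agent.V11306.CMb

/-!
# Rational maps and the endomorphism `1 + √-7` of `y² = x³ - 42 x² - 7 x`
-/

set_option autoImplicit false

namespace Pool.Agent.V11306.CM

open WeierstrassCurve WeierstrassCurve.Affine MvPolynomial

variable {K : Type*} [Field K]

/-- a function on the points given by a rational function of the coordinates at all but finitely
many points -/
def Rat (W : WeierstrassCurve.Affine K) (g : W.Point → K) : Prop :=
  ∃ N D : MvPolynomial (Fin 2) K, {P : W.Point | ¬ ∃ (x y : K) (h : W.Nonsingular x y),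
    P = .some x y h ∧ eval ![x, y] D ≠ 0 ∧ g P = eval ![x, y] N / eval ![x, y] D}.Finite

/-- the first coordinate -/
def xc {W : WeierstrassCurve.Affine K} : W.Point → K
  | .zero => 0
  | .some x _ _ => x

/-- the second coordinate -/
def yc {W : WeierstrassCurve.Affine K} : W.Point → K
  | .zero => 0
  | .some _ y _ => y

section rat

variable {W : WeierstrassCurve.Affine K}

lemma rat_of {g : W.Point → K} (N D : MvPolynomial (Fin 2) K) {S : Set W.Point} (hS : S.Finite)
    (h : ∀ P, P ∉ S → ∃ (x y : K) (h : W.Nonsingular x y),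
      P = .some x y h ∧ eval ![x, y] D ≠ 0 ∧ g P = eval ![x, y] N / eval ![x, y] D) : Rat W g := by
  refine ⟨N, D, hS.subset ?_⟩
  intro P hP
  by_contra hn
  exact hP (h P hn)

lemma rat_congr {g g' : W.Point → K} (hg : Rat W g) {S : Set W.Point} (hS : S.Finite)
    (h : ∀ P, P ∉ S → g' P = g P) : Rat W g' := by
  obtain ⟨N, D, hf⟩ := hg
  refine rat_of N D (hf.union hS) ?_
  intro P hP
  rw [Set.mem_union, not_or] at hP
  have h1 := hP.1
  rw [Set.mem_ofPred_eq, not_not] at h1
  obtain ⟨x, y, hn, e1, e2, e3⟩ := h1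
  exact ⟨x, y, hn, e1, e2, by rw [h P hP.2, e3]⟩

lemma rat_xc : Rat W xc := by
  refine rat_of (X 0) 1 (Set.finite_singleton (0 : W.Point)) ?_
  intro P hP
  rcases P with _ | ⟨x, y, h⟩
  · exact absurd rfl hP
  · exact ⟨x, y, h, rfl, by simp, by simp [xc]⟩

lemma rat_yc : Rat W yc := by
  refine rat_of (X 1) 1 (Set.finite_singleton (0 : W.Point)) ?_
  intro P hP
  rcases P with _ | ⟨x, y, h⟩
  · exact absurd rfl hP
  · exact ⟨x, y, h, rfl, by simp, by simp [yc]⟩

lemma rat_const (c : K) : Rat W (fun _ => c) := by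
  refine rat_of (C c) 1 (Set.finite_singleton (0 : W.Point)) ?_
  intro P hP
  rcases P with _ | ⟨x, y, h⟩
  · exact absurd rfl hP
  · exact ⟨x, y, h, rfl, by simp, by simp⟩

lemma rat_add {g g' : W.Point → K} (hg : Rat W g) (hg' : Rat W g') : Rat W (fun P => g P + g' P) := by
  obtain ⟨N, D, hf⟩ := hg
  obtain ⟨N', D', hf'⟩ := hg'
  refine rat_of (N * D' + N' * D) (D * D') (hf.union hf') ?_
  intro P hP
  rw [Set.mem_union, not_or, Set.mem_ofPred_eq, not_not, Set.mem_ofPred_eq, not_not] at hP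
  obtain ⟨⟨x, y, hn, e1, e2, e3⟩, ⟨x', y', hn', e1', e2', e3'⟩⟩ := hP
  rw [e1] at e1'
  simp only [Point.some.injEq] at e1'
  obtain ⟨rfl, rfl⟩ := e1'
  refine ⟨x, y, hn, e1, ?_, ?_⟩
  · rw [map_mul]; exact mul_ne_zero e2 e2'
  · simp only [e3, e3', map_add, map_mul]
    field_simp

lemma rat_mul {g g' : W.Point → K} (hg : Rat W g) (hg' : Rat W g') : Rat W (fun P => g P * g' P) := by
  obtain ⟨N, D, hf⟩ := hg
  obtain ⟨N', D', hf'⟩ := hg'
  refine rat_of (N * N') (D * D') (hf.union hf') ?_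
  intro P hP
  rw [Set.mem_union, not_or, Set.mem_ofPred_eq, not_not, Set.mem_ofPred_eq, not_not] at hP
  obtain ⟨⟨x, y, hn, e1, e2, e3⟩, ⟨x', y', hn', e1', e2', e3'⟩⟩ := hP
  rw [e1] at e1'
  simp only [Point.some.injEq] at e1'
  obtain ⟨rfl, rfl⟩ := e1'
  refine ⟨x, y, hn, e1, ?_, ?_⟩
  · rw [map_mul]; exact mul_ne_zero e2 e2'
  · simp only [e3, e3', map_mul]
    field_simp

lemma rat_inv {g : W.Point → K} (hg : Rat W g) (h0 : {P | g P = 0}.Finite) :
    Rat W (fun P => (g P)⁻¹) := by
  obtain ⟨N, D, hf⟩ := hg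
  refine rat_of D N (hf.union h0) ?_
  intro P hP
  rw [Set.mem_union, not_or, Set.mem_ofPred_eq, not_not, Set.mem_ofPred_eq] at hP
  obtain ⟨⟨x, y, hn, e1, e2, e3⟩, h1⟩ := hP
  refine ⟨x, y, hn, e1, ?_, ?_⟩
  · intro h2
    apply h1
    rw [e3, h2, zero_div]
  · rw [e3, inv_div]

end rat

/-- finitely many points over each abscissa -/
lemma fin_xc [DecidableEq K] {a b : K} (x₀ : K) : {P : (E a b).Point | xc P = x₀}.Finite := by
  by_cases hy : ∃ y₀, (E a b).Nonsingular x₀ y₀
  · obtain ⟨y₀, h₀⟩ := hy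
    refine ((Set.toFinite {0, Point.some x₀ y₀ h₀, -Point.some x₀ y₀ h₀}) :
      Set.Finite ({0, Point.some x₀ y₀ h₀, -Point.some x₀ y₀ h₀} : Set (E a b).Point)).subset ?_
    rintro (_ | ⟨x, y, h⟩) hP
    · left; rfl
    · right
      have hx : x = x₀ := hP
      subst hx
      exact Point.X_eq_iff.mp rfl
  · refine (Set.finite_singleton (0 : (E a b).Point)).subset ?_
    rintro (_ | ⟨x, y, h⟩) hP
    · rfl
    · exfalso
      have hx : x = x₀ := hP
      subst hx
      exact hy ⟨y, h⟩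

variable [DecidableEq K]

/-- good homomorphisms: rational with finite fibres -/
structure Good {W W' : WeierstrassCurve.Affine K} (f : W.Point → W'.Point) : Prop where
  fin : ∀ Q, {P | f P = Q}.Finite
  rx : Rat W (fun P => xc (f P))
  ry : Rat W (fun P => yc (f P))

omit [DecidableEq K] in
lemma good_id {W : WeierstrassCurve.Affine K} : Good (fun P : W.Point => P) :=
  ⟨fun Q => by simp, rat_xc, rat_yc⟩

lemma phi_fin {a b a' b' : K} (ha : a' = -2 * a) (hb : b' = a ^ 2 - 4 * b)
    (hΔ' : (E a' b').Δ ≠ 0) (Q : (E a' b').Point) : {P | phi a b a' b' ha hb hΔ' P = Q}.Finite := by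
  rcases Q with _ | ⟨u, w, hQ⟩
  · refine (fin_xc 0).subset ?_
    rintro (_ | ⟨x, y, h⟩) hP
    · rfl
    · by_contra hx
      have hx' : x ≠ 0 := hx
      rw [Set.mem_ofPred_eq, phi_of_ne ha hb hΔ' h hx'] at hP
      exact Point.some_ne_zero _ hP
  · set p : Polynomial K := Polynomial.X ^ 2 + Polynomial.C (a - u) * Polynomial.X + Polynomial.C b
    have hp : p ≠ 0 := by
      intro h0
      have := congrArg (fun q : Polynomial K => q.coeff 2) h0
      simp only [p, Polynomial.coeff_add, Polynomial.coeff_X_pow, Polynomial.coeff_C_mul,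
        Polynomial.coeff_X, Polynomial.coeff_C, Polynomial.coeff_zero] at this
      norm_num at this
    refine (Set.Finite.biUnion (p.roots.toFinset.finite_toSet)
      (fun x₀ _ => fin_xc (a := a) (b := b) x₀)).subset ?_
    rintro (_ | ⟨x, y, h⟩) hP
    · exfalso
      rw [Set.mem_ofPred_eq] at hP
      exact Point.some_ne_zero hQ hP.symm
    · have hx : x ≠ 0 := by
        intro hx
        rw [Set.mem_ofPred_eq, phi_of_zero ha hb hΔ' h hx] at hP
        exact Point.some_ne_zero hQ hP.symm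
      rw [Set.mem_ofPred_eq, phi_of_ne ha hb hΔ' h hx] at hP
      simp only [Point.some.injEq] at hP
      have he := (E_eq a b x y).mp h.1
      have hu := hP.1
      rw [div_eq_iff (pow_ne_zero 2 hx), he] at hu
      rw [Set.mem_iUnion₂]
      refine ⟨x, ?_, rfl⟩
      rw [Finset.mem_coe, Multiset.mem_toFinset, Polynomial.mem_roots hp, Polynomial.IsRoot]
      simp only [p, Polynomial.eval_add, Polynomial.eval_pow, Polynomial.eval_X,
        Polynomial.eval_mul, Polynomial.eval_C]
      apply mul_left_cancel₀ hx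
      linear_combination hu

lemma good_phi {W : WeierstrassCurve.Affine K} {a b a' b' : K} (ha : a' = -2 * a)
    (hb : b' = a ^ 2 - 4 * b) (hΔ' : (E a' b').Δ ≠ 0) {f : W.Point → (E a b).Point} (hf : Good f) :
    Good (fun P => phi a b a' b' ha hb hΔ' (f P)) := by
  have h0 : {P | xc (f P) = 0}.Finite := by
    have h1 := fin_xc (a := a) (b := b) (0 : K)
    have : {P | xc (f P) = 0} = ⋃ Q ∈ {Q : (E a b).Point | xc Q = 0}, {P | f P = Q} := by
      ext P; simp
    rw [this]
    exact Set.Finite.biUnion h1 (fun Q _ => hf.fin Q)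
  refine ⟨?_, ?_, ?_⟩
  · intro Q
    have : {P | phi a b a' b' ha hb hΔ' (f P) = Q} =
        ⋃ R ∈ {R | phi a b a' b' ha hb hΔ' R = Q}, {P | f P = R} := by
      ext P; simp
    rw [this]
    exact Set.Finite.biUnion (phi_fin ha hb hΔ' Q) (fun R _ => hf.fin R)
  · have hi := rat_inv hf.rx h0
    refine rat_congr (rat_mul (rat_mul hf.ry hf.ry) (rat_mul hi hi)) h0 ?_
    intro P hP
    rw [Set.mem_ofPred_eq] at hP
    generalize hfP : f P = R at hP ⊢
    rcases R with _ | ⟨x, y, h⟩
    · exact absurd rfl hP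
    · have hx : x ≠ 0 := hP
      rw [phi_of_ne ha hb hΔ' h hx]
      simp only [xc, yc]
      field_simp
  · have hi := rat_inv hf.rx h0
    refine rat_congr (rat_mul (rat_mul hf.ry (rat_add (rat_mul hf.rx hf.rx) (rat_const (-b))))
      (rat_mul hi hi)) h0 ?_
    intro P hP
    rw [Set.mem_ofPred_eq] at hP
    generalize hfP : f P = R at hP ⊢
    rcases R with _ | ⟨x, y, h⟩
    · exact absurd rfl hP
    · have hx : x ≠ 0 := hP
      rw [phi_of_ne ha hb hΔ' h hx]
      simp only [xc, yc]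
      field_simp
      ring

lemma good_aff {W : WeierstrassCurve.Affine K} {a b a' b' α β γ : K} (hg : γ ^ 2 = α ^ 3)
    (h1 : α * a = 3 * β + a') (h2 : α ^ 2 * b = 3 * β ^ 2 + 2 * a' * β + b')
    (h3 : β ^ 3 + a' * β ^ 2 + b' * β = 0) (hΔ' : (E a' b').Δ ≠ 0) (hα : α ≠ 0)
    {f : W.Point → (E a b).Point} (hf : Good f) :
    Good (fun P => aff a b a' b' α β γ hg h1 h2 h3 hΔ' (f P)) := by
  have hγ : γ ≠ 0 := by
    rintro rfl
    have : α ^ 3 = 0 := by rw [← hg]; ring
    exact hα (pow_eq_zero_iff (by norm_num) |>.mp this)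
  have hinj : Function.Injective (aff a b a' b' α β γ hg h1 h2 h3 hΔ') := by
    rintro (_ | ⟨x, y, h⟩) (_ | ⟨x', y', h'⟩) he
    · rfl
    · exact absurd he.symm (Point.some_ne_zero _)
    · exact absurd he (Point.some_ne_zero _)
    · simp only [aff, Point.some.injEq] at he
      have hx : x = x' := by
        have := he.1
        exact mul_left_cancel₀ hα (add_right_cancel this)
      have hy : y = y' := mul_left_cancel₀ hγ he.2
      simp only [Point.some.injEq]
      exact ⟨hx, hy⟩
  refine ⟨?_, ?_, ?_⟩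
  · intro Q
    have : {P | aff a b a' b' α β γ hg h1 h2 h3 hΔ' (f P) = Q} =
        ⋃ R ∈ {R | aff a b a' b' α β γ hg h1 h2 h3 hΔ' R = Q}, {P | f P = R} := by
      ext P; simp
    rw [this]
    refine Set.Finite.biUnion ?_ (fun R _ => hf.fin R)
    exact Set.Finite.preimage (hinj.injOn) (Set.finite_singleton Q)
  · refine rat_congr (rat_add (rat_mul (rat_const α) hf.rx) (rat_const β)) (hf.fin 0) ?_
    intro P hP
    rw [Set.mem_ofPred_eq] at hP
    generalize hfP : f P = R at hP ⊢
    rcases R with _ | ⟨x, y, h⟩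
    · exact absurd rfl hP
    · simp only [aff, xc]
  · refine rat_congr (rat_mul (rat_const γ) hf.ry) (hf.fin 0) ?_
    intro P hP
    rw [Set.mem_ofPred_eq] at hP
    generalize hfP : f P = R at hP ⊢
    rcases R with _ | ⟨x, y, h⟩
    · exact absurd rfl hP
    · simp only [aff, yc]

end Pool.Agent.V11306.CM
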