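import Mathlib
import Pool.Agent.V11306.CMc

/-!
# The endomorphism of `y² = x³ - 42 x² - 7 x`
-/

set_option autoImplicit false

namespace Pool.Agent.V11306.CM

open WeierstrassCurve WeierstrassCurve.Affine MvPolynomial

variable {K : Type*} [Field K] [DecidableEq K] [CharZero K]

lemma exists_end (s e : K) (hs : s ^ 2 = -7) (he : e ^ 2 - 42 * e - 7 = 0) :
    ∃ f : (E (-42 : K) (-7)).Point →+ (E (-42 : K) (-7)).Point, Good f ∧
      ∀ n : ℤ, f ≠ n • (AddMonoidHom.id (E (-42 : K) (-7)).Point) := by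
  obtain ⟨r, hr⟩ : ∃ r : K, r = (-21 + s) / 2 := ⟨_, rfl⟩
  obtain ⟨t, ht⟩ : ∃ t : K, t = (-21 - s) / 2 := ⟨_, rfl⟩
  obtain ⟨c, hc⟩ : ∃ c : K, c = (-21 + 3 * s) / 2 := ⟨_, rfl⟩
  obtain ⟨d, hd⟩ : ∃ d : K, d = (-7 - 21 * s) / 2 := ⟨_, rfl⟩
  have h7 : (7 : K) ≠ 0 := by norm_num
  have hrt : r * t = 112 := by rw [hr, ht]; linear_combination (-1 / 4 : K) * hs
  have hr0 : r ≠ 0 := by rintro h; rw [h, zero_mul] at hrt; norm_num at hrt
  have ht0 : t ≠ 0 := by rintro h; rw [h, mul_zero] at hrt; norm_num at hrt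
  have hdd : d * ((-7 + 21 * s) / 2) = 784 := by rw [hd]; linear_combination (-441 / 4 : K) * hs
  have hd0 : d ≠ 0 := by rintro h; rw [h, zero_mul] at hdd; norm_num at hdd
  have hcd : c ^ 2 - 4 * d = t ^ 2 := by rw [hc, hd, ht]; linear_combination (2 : K) * hs
  have D1 : (E (84 : K) 1792).Δ ≠ 0 := by rw [E_delta]; norm_num
  have D2 : (E c d).Δ ≠ 0 := by
    rw [E_delta, hcd]
    exact mul_ne_zero (mul_ne_zero (by norm_num) (pow_ne_zero 2 hd0)) (pow_ne_zero 2 ht0)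
  have D3 : (E (-2 * c) (t ^ 2)).Δ ≠ 0 := by
    rw [E_delta]
    have : (-2 * c) ^ 2 - 4 * t ^ 2 = 16 * d := by rw [← hcd]; ring
    rw [this]
    exact mul_ne_zero (mul_ne_zero (by norm_num) (pow_ne_zero 2 (pow_ne_zero 2 ht0)))
      (mul_ne_zero (by norm_num) hd0)
  have D4 : (E (21 : K) 112).Δ ≠ 0 := by rw [E_delta]; norm_num
  have D5 : (E (-42 : K) (-7)).Δ ≠ 0 := by rw [E_delta]; norm_num
  have hs1 : ((1 - s) / 4) ≠ 0 := by
    intro h
    have h1 : s = 1 := by linear_combination (-4 : K) * h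
    rw [h1] at hs
    norm_num at hs
  have A1 : (84 : K) = -2 * (-42) := by norm_num
  have A2 : (1792 : K) = (-42) ^ 2 - 4 * (-7) := by norm_num
  have A3 : (-42 : K) = -2 * 21 := by norm_num
  have A4 : (-7 : K) = 21 ^ 2 - 4 * 112 := by norm_num
  set f1 := phiHom A1 A2 D1 (by norm_num) with hf1
  have g1 : ((1 : K) / 8) ^ 2 = (1 / 4) ^ 3 := by norm_num
  have g2 : (1 / 4 : K) * 84 = 3 * (-r) + c := by rw [hr, hc]; ring
  have g3 : (1 / 4 : K) ^ 2 * 1792 = 3 * (-r) ^ 2 + 2 * c * (-r) + d := by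
    rw [hr, hc, hd]; linear_combination (3 / 4 : K) * hs
  have g4 : (-r) ^ 3 + c * (-r) ^ 2 + d * (-r) = 0 := by
    have : r ^ 2 - c * r + d = 0 := by rw [hr, hc, hd]; linear_combination (-1 / 2 : K) * hs
    linear_combination (-r) * this
  set f2 := affHom (a := (84 : K)) (b := 1792) (a' := c) (b' := d) (α := 1 / 4) (β := -r)
    (γ := 1 / 8) g1 g2 g3 g4 D2 (by norm_num) with hf2
  set f3 := phiHom (a := c) (b := d) (a' := -2 * c) (b' := t ^ 2) rfl hcd.symm D3 hd0 with hf3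
  have i1 : (((1 - s) / 4) ^ 3) ^ 2 = (((1 - s) / 4) ^ 2) ^ 3 := by ring
  have i2 : ((1 - s) / 4) ^ 2 * (-2 * c) = 3 * t + 21 := by
    rw [hc, ht]; linear_combination ((27 - 3 * s) / 16 : K) * hs
  have i3 : (((1 - s) / 4) ^ 2) ^ 2 * t ^ 2 = 3 * t ^ 2 + 2 * 21 * t + 112 := by
    have ha : ((1 - s) / 4) ^ 2 * t = (7 + 3 * s) / 2 := by
      rw [ht]; linear_combination (-(19 + s) / 32 : K) * hs
    have hb : t ^ 2 + 21 * t + 112 = 0 := by rw [ht]; linear_combination (1 / 4 : K) * hs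
    linear_combination (((1 - s) / 4) ^ 2 * t + (7 + 3 * s) / 2) * ha + (9 / 4 : K) * hs - 3 * hb +
      (21 : K) * ht
  have i4 : t ^ 3 + 21 * t ^ 2 + 112 * t = 0 := by
    have : t ^ 2 + 21 * t + 112 = 0 := by rw [ht]; linear_combination (1 / 4 : K) * hs
    linear_combination t * this
  set f4 := affHom (a := -2 * c) (b := t ^ 2) (a' := (21 : K)) (b' := 112) (α := ((1 - s) / 4) ^ 2)
    (β := t) (γ := ((1 - s) / 4) ^ 3) i1 i2 i3 i4 D4 (pow_ne_zero 2 hs1) with hf4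
  set f5 := phiHom A3 A4 D5 (by norm_num) with hf5
  refine ⟨f5.comp (f4.comp (f3.comp (f2.comp f1))), ?_, ?_⟩
  · exact good_phi A3 A4 D5 (good_aff i1 i2 i3 i4 D4 (pow_ne_zero 2 hs1) (good_phi rfl hcd.symm D3
      (good_aff g1 g2 g3 g4 D2 (by norm_num) (good_phi A1 A2 D1 good_id))))
  · intro n hn
    have he0 : e ≠ 0 := by rintro rfl; norm_num at he
    have nT1 : (E (-42 : K) (-7)).Nonsingular 0 0 := E_ns D5 (by ring)
    have nT2 : (E (-42 : K) (-7)).Nonsingular e 0 := E_ns D5 (by linear_combination (-e) * he)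
    have nQ1 : (E (84 : K) 1792).Nonsingular 0 0 := E_ns D1 (by ring)
    have nQ2 : (E c d).Nonsingular (-r) 0 := E_ns D2 (by linear_combination -g4)
    have nQ3 : (E (-2 * c) (t ^ 2)).Nonsingular 0 0 := E_ns D3 (by ring)
    have nQ4 : (E (21 : K) 112).Nonsingular t 0 := E_ns D4 (by linear_combination -i4)
    have v1 : (f5.comp (f4.comp (f3.comp (f2.comp f1)))) (.some 0 0 nT1) = 0 := by
      have : f1 (.some 0 0 nT1) = 0 := phi_of_zero A1 A2 D1 nT1 rfl
      simp only [AddMonoidHom.comp_apply, this, map_zero]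
    have w1 : f1 (.some e 0 nT2) = .some 0 0 nQ1 := by
      refine (phi_of_ne A1 A2 D1 nT2 he0).trans ?_
      simp
    have w2 : f2 (.some 0 0 nQ1) = .some (-r) 0 nQ2 := by
      have : f2 (.some 0 0 nQ1) = .some (1 / 4 * 0 + -r) (1 / 8 * 0) _ := rfl
      rw [this]
      simp
    have w3 : f3 (.some (-r) 0 nQ2) = .some 0 0 nQ3 := by
      refine (phi_of_ne rfl hcd.symm D3 nQ2 (neg_ne_zero.mpr hr0)).trans ?_
      simp
    have w4 : f4 (.some 0 0 nQ3) = .some t 0 nQ4 := by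
      have : f4 (.some 0 0 nQ3) = .some (((1 - s) / 4) ^ 2 * 0 + t) (((1 - s) / 4) ^ 3 * 0) _ := rfl
      rw [this]
      simp
    have w5 : f5 (.some t 0 nQ4) = .some 0 0 nT1 := by
      refine (phi_of_ne A3 A4 D5 nQ4 ht0).trans ?_
      simp
    have v2 : (f5.comp (f4.comp (f3.comp (f2.comp f1)))) (.some e 0 nT2) = .some 0 0 nT1 := by
      simp only [AddMonoidHom.comp_apply, w1, w2, w3, w4, w5]
    have dbl : ∀ (x : K) (h : (E (-42 : K) (-7)).Nonsingular x 0),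
        Point.some x 0 h + Point.some x 0 h = 0 := by
      intro x h
      apply Point.add_of_Y_eq rfl
      rw [E_negY, neg_zero]
    rw [hn] at v1 v2
    simp only [AddMonoidHom.smul_apply, AddMonoidHom.id_apply] at v1 v2
    rcases Int.even_or_odd' n with ⟨m, rfl | rfl⟩
    · rw [mul_comm, mul_smul, two_smul, dbl, smul_zero] at v2
      exact Point.some_ne_zero _ v2.symm
    · rw [add_smul, one_smul, mul_comm, mul_smul, two_smul, dbl, smul_zero, zero_add] at v1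
      exact Point.some_ne_zero _ v1

end Pool.Agent.V11306.CM
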