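import Mathlib
import Pool.Agent.V11306.SP

/-!
# The values at the twelfth roots of unity for `p ≡ 19 (mod 24)`, up to sign
-/

set_option autoImplicit false

namespace Pool.Agent.V11306.SP

open Finset Polynomial

open Pool.Agent.V11306.Toep

variable {p : ℕ} [hpf : Fact p.Prime]

/-- `√3` -/
noncomputable abbrev s3 : ℂ := ((Real.sqrt 3 : ℝ) : ℂ)

/-- `exp (2 π i / 12)` -/
noncomputable abbrev z12 : ℂ := (s3 + Complex.I) / 2

lemma s3_sq : s3 * s3 = 3 := by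
  rw [s3, ← Complex.ofReal_mul, Real.mul_self_sqrt (by norm_num)]; norm_num

lemma z12_sq : z12 ^ 2 = z12 * s3 - 1 := by
  rw [z12]
  linear_combination (-1 / 4 : ℂ) * s3_sq + (1 / 4 : ℂ) * Complex.I_sq

lemma z12_three : z12 ^ 3 = Complex.I := by
  have h := z12_sq
  have h2 : z12 ^ 3 = z12 * z12 ^ 2 := by ring
  rw [h2, h]
  rw [z12]
  linear_combination (1 / 4 * s3 + 1 / 2 * Complex.I) * s3_sq + (1 / 4 : ℂ) * s3 * Complex.I_sq

lemma z12_ne : z12 ≠ 0 := by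
  intro h
  have := z12_three
  rw [h] at this
  exact Complex.I_ne_zero (by rw [← this]; ring)

lemma z12_exp : Complex.exp (2 * Real.pi * Complex.I / 12) = z12 := by
  have h : (2 * Real.pi * Complex.I / 12 : ℂ) = ((Real.pi / 6 : ℝ) : ℂ) * Complex.I := by
    push_cast; ring
  rw [h, Complex.exp_mul_I, ← Complex.ofReal_cos, ← Complex.ofReal_sin, Real.cos_pi_div_six,
    Real.sin_pi_div_six, z12, s3]
  push_cast
  ring

lemma z12_conj : (starRingEnd ℂ) z12 = z12⁻¹ := by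
  apply eq_inv_of_mul_eq_one_left
  rw [z12, map_div₀, map_add, Complex.conj_I, Complex.conj_ofReal, map_ofNat]
  linear_combination (1 / 4 : ℂ) * s3_sq - (1 / 4 : ℂ) * Complex.I_sq

lemma norm_SN (h3 : p % 4 = 3) (x : ℂ) : ‖SN p x‖ = ‖SR p ((starRingEnd ℂ) x)‖ := by
  rw [← SN_conj h3, Complex.norm_conj]

lemma SR_ne {x : ℂ} (hx : x ^ p ≠ 1) : SR p x ≠ 0 := by
  intro h
  have := SR_mul_SN (p := p) x
  rw [h, zero_mul, zero_mul] at this
  exact hx (sub_eq_zero.mp this.symm)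

/-- values for `p ≡ 19 (mod 24)`, up to sign -/
theorem values19 (h : p % 24 = 19) : ∃ ε : ℤ, (ε = 1 ∨ ε = -1) ∧
    SR p z12 = ε * ((1 + Complex.I) * ((1 + s3) / 2)) ∧
    SR p z12⁻¹ = ε * ((1 - Complex.I) * ((1 + s3) / 2)) ∧
    SR p (z12 ^ 5) = ε * ((1 + Complex.I) * ((1 - s3) / 2)) ∧
    SR p ((z12 ^ 5)⁻¹) = ε * ((1 - Complex.I) * ((1 - s3) / 2)) := by
  have h3 : p % 4 = 3 := by omega
  have hp3 : 3 < p := by omega
  have hp2 : p ≠ 2 := by omega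
  obtain ⟨m, hm⟩ : ∃ m, p = 2 * m + 1 := ⟨p / 2, by omega⟩
  have hm12 : m % 12 = 9 := by omega
  obtain ⟨k, hk⟩ : ∃ k, m = 12 * k + 9 := ⟨m / 12, by omega⟩
  have hodd : Odd m := by rw [Nat.odd_iff]; omega
  have hq2 : quadraticChar (ZMod p) 2 = -1 := by
    rw [quadraticChar_two (by rw [ZMod.ringChar_zmod_n]; exact hp2), ZMod.card,
      ZMod.χ₈_nat_eq_if_mod_eight, if_neg (by omega), if_neg (by omega)]
  have hq3 : quadraticChar (ZMod p) 3 = -1 := by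
    have h5 : legendreSym p ((3 : ℕ) : ℤ) = -1 := by
      have : Fact (Nat.Prime 3) := ⟨Nat.prime_three⟩
      rw [legendreSym.quadratic_reciprocity' (by norm_num) hp2]
      have e1 : (-1 : ℤ) ^ (3 / 2 * (p / 2)) = -1 := by
        have : Odd (3 / 2 * (p / 2)) := by rw [Nat.odd_iff]; omega
        rw [this.neg_one_pow]
      have e2 : legendreSym 3 (p : ℤ) = 1 := by
        rw [legendreSym.mod 3 (p : ℤ)]
        have : ((p : ℤ) % ((3 : ℕ) : ℤ)) = 1 := by omega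
        rw [this]
        exact legendreSym.at_one 3
      rw [e1, e2]; norm_num
    rw [legendreSym] at h5
    push_cast at h5
    exact h5
  have hζ0 : z12 ≠ 0 := z12_ne
  have hζ2 : z12 ^ 2 = z12 * s3 - 1 := z12_sq
  have hζ3 : z12 ^ 3 = Complex.I := z12_three
  have hconj : (starRingEnd ℂ) z12 = z12⁻¹ := z12_conj
  have hzexp : IsPrimitiveRoot z12 12 := by
    rw [← z12_exp]; exact_mod_cast Complex.isPrimitiveRoot_exp 12 (by norm_num)
  have hz_def : z12 = (s3 + Complex.I) / 2 := rfl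
  generalize z12 = ζ at hζ0 hζ2 hζ3 hconj hzexp hz_def ⊢
  have hI2 : Complex.I ^ 2 = -1 := Complex.I_sq
  have hs0 : (s3 : ℂ) ≠ 0 := by
    intro h0
    have := s3_sq
    rw [h0] at this
    norm_num at this
  have hζ6 : ζ ^ 6 = -1 := by
    have : ζ ^ 6 = (ζ ^ 3) ^ 2 := by ring
    rw [this, hζ3, hI2]
  have hζ12 : ζ ^ 12 = 1 := hzexp.pow_eq_one
  have hζ9 : ζ ^ 9 = -Complex.I := by
    have : ζ ^ 9 = ζ ^ 6 * ζ ^ 3 := by ring
    rw [this, hζ6, hζ3]; ring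
  have hζm : ζ ^ m = -Complex.I := by
    rw [hk, pow_add, pow_mul, hζ12, one_pow, one_mul, hζ9]
  have hI12 : Complex.I ^ 12 = 1 := by
    have : Complex.I ^ 12 = (Complex.I ^ 2) ^ 6 := by ring
    rw [this, hI2]; norm_num
  have hI9 : Complex.I ^ 9 = Complex.I := by
    have : Complex.I ^ 9 = (Complex.I ^ 2) ^ 4 * Complex.I := by ring
    rw [this, hI2]; norm_num
  have hIm : Complex.I ^ m = Complex.I := by
    rw [hk, pow_add, pow_mul, hI12, one_pow, one_mul, hI9]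
  have hζ4 : ζ ^ 4 = ζ ^ 2 - 1 := by
    linear_combination (ζ ^ 2 + ζ * s3 + 1) * hζ2 + ζ ^ 2 * s3_sq
  have hw : (ζ ^ 4) ^ 2 + ζ ^ 4 + 1 = 0 := by
    have e1 : (ζ ^ 4) ^ 2 = ζ ^ 6 * ζ ^ 2 := by ring
    rw [e1, hζ6, hζ4]; ring
  -- nonvanishing
  have hp12 : p % 12 = 7 := by omega
  have hne : ∀ j : ℕ, ¬ (12 ∣ j * p) → SR p (ζ ^ j) ≠ 0 := by
    intro j hj
    apply SR_ne
    rw [← pow_mul]
    intro h1
    exact hj ((hzexp.pow_eq_one_iff_dvd _).mp h1)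
  have hinv : ∀ j : ℕ, j ≤ 12 → (ζ ^ j)⁻¹ = ζ ^ (12 - j) := by
    intro j hj
    rw [inv_eq_of_mul_eq_one_right]
    rw [← pow_add, show j + (12 - j) = 12 by omega, hζ12]
  have hcj : ∀ j : ℕ, j ≤ 12 → (starRingEnd ℂ) (ζ ^ j) = ζ ^ (12 - j) := by
    intro j hj
    rw [map_pow, hconj, inv_pow, hinv j hj]
  -- relations between norms
  have r1 : ‖SR p (ζ ^ 1)‖ * ‖SR p (ζ ^ 7)‖ = ‖SR p (ζ ^ 10)‖ := by
    have e := SR_neg hp2 m hm hq2 (ζ ^ 1)
    have e1 : -ζ ^ 1 = ζ ^ 7 := by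
      have : ζ ^ 7 = ζ ^ 6 * ζ ^ 1 := by ring
      rw [this, hζ6]; ring
    rw [e1, hodd.neg_one_pow, ← pow_mul] at e
    have e2 := congrArg norm e
    rw [norm_mul, norm_mul, norm_SN h3, hcj _ (by norm_num)] at e2
    simpa using e2
  have r2 : ‖SR p (ζ ^ 11)‖ * ‖SR p (ζ ^ 5)‖ = ‖SR p (ζ ^ 2)‖ := by
    have e := SR_neg hp2 m hm hq2 (ζ ^ 11)
    have e1 : -ζ ^ 11 = ζ ^ 5 := by
      have : ζ ^ 11 = ζ ^ 6 * ζ ^ 5 := by ring
      rw [this, hζ6]; ring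
    have e3 : (ζ ^ 11) ^ 2 = ζ ^ 10 := by
      have : (ζ ^ 11) ^ 2 = ζ ^ 12 * ζ ^ 10 := by ring
      rw [this, hζ12]; ring
    rw [e1, hodd.neg_one_pow, e3] at e
    have e2 := congrArg norm e
    rw [norm_mul, norm_mul, norm_SN h3, hcj _ (by norm_num)] at e2
    simpa using e2
  have r3 : ‖SR p (ζ ^ 2)‖ = 1 := by
    have e := SR_neg hp2 m hm hq2 (ζ ^ 2)
    have e1 : -ζ ^ 2 = ζ ^ 8 := by
      have : ζ ^ 8 = ζ ^ 6 * ζ ^ 2 := by ring
      rw [this, hζ6]; ring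
    rw [e1, hodd.neg_one_pow, ← pow_mul] at e
    have e2 := congrArg norm e
    rw [norm_mul, norm_mul, norm_SN h3, hcj _ (by norm_num)] at e2
    have h8 : ‖SR p (ζ ^ 8)‖ ≠ 0 := norm_ne_zero_iff.mpr (hne 8 (by omega))
    simp only [norm_neg, norm_one, one_mul] at e2
    exact mul_right_cancel₀ h8 (by rw [one_mul]; exact e2)
  have r4 : ‖SR p (ζ ^ 1)‖ * ‖SR p (ζ ^ 5)‖ = 1 := by
    have e := SR_three hq3 (ζ ^ 4) (ζ ^ 1) hw
    have e1 : ζ ^ 4 * ζ ^ 1 = ζ ^ 5 := by ring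
    have e2 : (ζ ^ 4) ^ 2 * ζ ^ 1 = ζ ^ 9 := by ring
    rw [e1, e2, ← pow_mul] at e
    have e3 := congrArg norm e
    rw [norm_mul, norm_mul, norm_SN h3, hcj _ (by norm_num)] at e3
    have h8 : ‖SR p (ζ ^ 9)‖ ≠ 0 := norm_ne_zero_iff.mpr (hne 9 (by omega))
    exact mul_right_cancel₀ h8 (by rw [one_mul]; exact e3)
  have hA11 : ‖SR p (ζ ^ 11)‖ = ‖SR p (ζ ^ 1)‖ := by
    have h5 : ‖SR p (ζ ^ 5)‖ ≠ 0 := norm_ne_zero_iff.mpr (hne 5 (by omega))
    apply mul_right_cancel₀ h5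
    rw [r2, r3, r4]
  -- the relation with the cyclotomic polynomial
  have hprod := SR_mul_SN (p := p) (ζ ^ 1)
  have hζp : (ζ ^ 1) ^ p = - ζ := by
    rw [hm, pow_succ, pow_mul, pow_one, ← pow_mul, mul_comm 2 m, pow_mul, hζm]
    linear_combination ζ * hI2
  rw [hζp] at hprod
  rw [pow_one] at hprod r1 r4 hA11
  -- the argument
  have hζinv : ζ⁻¹ ^ m = Complex.I := by
    rw [inv_pow, hζm, inv_neg, Complex.inv_I, neg_neg]
  have hcA : (starRingEnd ℂ) (SR p ζ) = -(SR p ζ * Complex.I) := by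
    have e := SR_inv h3 hp3 m hm ζ⁻¹ (inv_ne_zero hζ0)
    rw [inv_inv, hζinv] at e
    rw [SR_conj h3, hconj]
    linear_combination e
  have hA0 : SR p ζ ≠ 0 := by
    have := hne 1 (by omega)
    rwa [pow_one] at this
  obtain ⟨a, ha⟩ : ∃ a : ℝ, SR p ζ = a * (1 + Complex.I) := by
    refine ⟨(SR p ζ).re, ?_⟩
    have e1 := congrArg Complex.re hcA
    simp at e1
    apply Complex.ext
    · simp
    · simp [e1]
  have hs3r : Real.sqrt 3 * Real.sqrt 3 = 3 := Real.mul_self_sqrt (by norm_num)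
  have hs3p : 0 < Real.sqrt 3 := Real.sqrt_pos.mpr (by norm_num)
  have hnA : ‖SR p ζ‖ ^ 2 = 2 * a ^ 2 := by
    rw [ha, norm_mul, mul_pow, Complex.norm_real, Real.norm_eq_abs, sq_abs]
    have : ‖1 + Complex.I‖ ^ 2 = 2 := by
      rw [← Complex.normSq_eq_norm_sq]
      simp [Complex.normSq_apply]
      norm_num
    rw [this]; ring
  have hnB : ‖SN p ζ‖ = ‖SR p ζ‖ := by
    rw [norm_SN h3, hconj]
    have : ζ⁻¹ = ζ ^ 11 := by
      have := hinv 1 (by norm_num)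
      rwa [pow_one] at this
    rw [this, hA11]
  have hn1 : ‖ζ - 1‖ ^ 2 = 2 - Real.sqrt 3 := by
    rw [← Complex.normSq_eq_norm_sq, hz_def]
    simp [Complex.normSq_apply]
    nlinarith
  have hn2 : ‖-ζ - 1‖ ^ 2 = 2 + Real.sqrt 3 := by
    rw [← Complex.normSq_eq_norm_sq, hz_def]
    simp [Complex.normSq_apply]
    nlinarith
  have ha2 : 2 * a ^ 2 = 2 + Real.sqrt 3 := by
    have e : ‖SR p ζ * SN p ζ * (ζ - 1)‖ ^ 2 = ‖-ζ - 1‖ ^ 2 := by rw [hprod]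
    rw [norm_mul, norm_mul, hnB, mul_pow, mul_pow, hnA, hn1, hn2] at e
    have e2 : (2 * a ^ 2) ^ 2 = (2 + Real.sqrt 3) ^ 2 := by
      linear_combination (2 + Real.sqrt 3) * e + (2 * a ^ 2) ^ 2 * hs3r
    have h5 : 0 ≤ 2 * a ^ 2 := by positivity
    have h6 : 0 ≤ 2 + Real.sqrt 3 := by positivity
    exact (pow_left_inj₀ h5 h6 two_ne_zero).mp e2
  obtain ⟨ε, hε, hεa⟩ : ∃ ε : ℤ, (ε = 1 ∨ ε = -1) ∧ a = ε * ((1 + Real.sqrt 3) / 2) := by
    have e3 : (a - (1 + Real.sqrt 3) / 2) * (a + (1 + Real.sqrt 3) / 2) = 0 := by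
      linear_combination (1 / 2 : ℝ) * ha2 - (1 / 4 : ℝ) * hs3r
    rcases mul_eq_zero.mp e3 with h | h
    · exact ⟨1, Or.inl rfl, by push_cast; linarith⟩
    · exact ⟨-1, Or.inr rfl, by push_cast; linarith⟩
  have hεε : (ε : ℂ) * ε = 1 := by
    rcases hε with h | h <;> rw [h] <;> norm_num
  have hAv : SR p ζ = ε * ((1 + Complex.I) * ((1 + s3) / 2)) := by
    rw [ha, hεa, s3]; push_cast; ring
  have hζ1 : ζ - 1 ≠ 0 := by
    intro h0
    rw [h0] at hn1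
    simp at hn1
    nlinarith
  have hB : SN p ζ = SR p ζ := by
    have e4 : SR p ζ * (ζ - 1) * SN p ζ = SR p ζ * (ζ - 1) * SR p ζ := by
      have e5 : SR p ζ * (ζ - 1) * SR p ζ = -ζ - 1 := by
        have q1 : (1 + Complex.I) ^ 2 = 2 * Complex.I := by linear_combination hI2
        have q2 : (1 + s3) ^ 2 = 4 + 2 * s3 := by linear_combination s3_sq
        calc SR p ζ * (ζ - 1) * SR p ζ = (ε * ε : ℂ) * ((1 + Complex.I) ^ 2 * (1 + s3) ^ 2 / 4) *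
            ((s3 + Complex.I) / 2 - 1) := by rw [hAv, hz_def]; ring
          _ = 1 * (2 * Complex.I * (4 + 2 * s3) / 4) * ((s3 + Complex.I) / 2 - 1) := by
            rw [hεε, q1, q2]
          _ = -ζ - 1 := by
            rw [hz_def]
            linear_combination (Complex.I / 2) * s3_sq + ((2 + s3) / 2) * hI2
      rw [e5, ← hprod]; ring
    exact mul_left_cancel₀ (mul_ne_zero hA0 hζ1) e4
  have hA11v : SR p ζ⁻¹ = ε * ((1 - Complex.I) * ((1 + s3) / 2)) := by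
    rw [← hconj, ← SN_conj h3, hB, hAv]
    simp only [map_mul, map_add, map_div₀, Complex.conj_ofReal, Complex.conj_I, map_one,
      map_intCast, map_ofNat]
    ring
  have hs3ne : (1 + s3) ≠ 0 := by
    intro h0
    have : ((1 + Real.sqrt 3 : ℝ) : ℂ) = 0 := by rw [← h0]; push_cast; rfl
    have : (1 + Real.sqrt 3 : ℝ) = 0 := by exact_mod_cast this
    linarith
  -- the fifth power
  have hA5 : SR p ζ * SR p (ζ ^ 5) = -Complex.I := by
    have e := SR_three hq3 (ζ ^ 4) ζ hw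
    have e1 : ζ ^ 4 * ζ = ζ ^ 5 := by ring
    have e2 : (ζ ^ 4) ^ 2 * ζ = ζ ^ 9 := by ring
    rw [e1, e2] at e
    have e3 := SR_inv h3 hp3 m hm (ζ ^ 3) (pow_ne_zero _ hζ0)
    rw [hinv 3 (by norm_num), hζ3, hIm] at e3
    rw [hζ3] at e
    have h9 : SR p (ζ ^ 9) ≠ 0 := hne 9 (by omega)
    apply mul_right_cancel₀ h9
    linear_combination e + e3
  have hA7 : SR p (ζ ^ 11) * SR p (ζ ^ 7) = Complex.I := by
    have e := SR_three hq3 (ζ ^ 4) (ζ ^ 11) hw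
    have e1 : ζ ^ 4 * ζ ^ 11 = ζ ^ 3 := by
      have : ζ ^ 4 * ζ ^ 11 = ζ ^ 12 * ζ ^ 3 := by ring
      rw [this, hζ12]; ring
    have e2 : (ζ ^ 4) ^ 2 * ζ ^ 11 = ζ ^ 7 := by
      have : (ζ ^ 4) ^ 2 * ζ ^ 11 = ζ ^ 12 * ζ ^ 7 := by ring
      rw [this, hζ12]; ring
    have e0 : (ζ ^ 11) ^ 3 = ζ ^ 9 := by
      have : (ζ ^ 11) ^ 3 = (ζ ^ 12) ^ 2 * ζ ^ 9 := by ring
      rw [this, hζ12]; ring
    rw [e1, e2, e0] at e
    have e3 := SR_inv h3 hp3 m hm (ζ ^ 9) (pow_ne_zero _ hζ0)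
    have e5 : (-Complex.I) ^ m = -Complex.I := by
      rw [neg_pow, hodd.neg_one_pow, hIm]; ring
    rw [hinv 9 (by norm_num), hζ9, e5, show 12 - 9 = 3 by norm_num] at e3
    rw [hζ9] at e
    have h9 : SR p (ζ ^ 3) ≠ 0 := hne 3 (by omega)
    apply mul_right_cancel₀ h9
    linear_combination e + e3
  have hinv1 : ζ⁻¹ = ζ ^ 11 := by
    have := hinv 1 (by norm_num)
    rwa [pow_one] at this
  refine ⟨ε, hε, hAv, hA11v, ?_, ?_⟩
  · apply mul_left_cancel₀ hA0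
    rw [hA5, hAv]
    linear_combination (-((1 + Complex.I) * ((1 + s3) / 2)) * ((1 + Complex.I) * ((1 - s3) / 2))) * hεε
      + (1 / 4 : ℂ) * (1 + Complex.I) ^ 2 * s3_sq + (1/2 : ℂ) * hI2
  · have h11 : SR p (ζ ^ 11) ≠ 0 := hne 11 (by omega)
    rw [hinv 5 (by norm_num)]
    apply mul_left_cancel₀ h11
    rw [show 12 - 5 = 7 by norm_num, hA7, ← hinv1, hA11v]
    linear_combination (-((1 - Complex.I) * ((1 + s3) / 2)) * ((1 - Complex.I) * ((1 - s3) / 2))) * hεε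
      + (1 / 4 : ℂ) * (1 - Complex.I) ^ 2 * s3_sq + (1/2 : ℂ) * hI2

end Pool.Agent.V11306.SP
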