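import Mathlib
import Pool.Agent.V11306.SPa

/-!
# The sign for `p ≡ 19 (mod 24)` as a quadratic symbol
-/

set_option autoImplicit false
set_option linter.all false

namespace Pool.Agent.V11306.SP

open Finset Polynomial

open Pool.Agent.V11306.Toep

variable {p : ℕ} [hpf : Fact p.Prime]

/-- An integer polynomial vanishing at `exp (2 π i / (N p))` vanishes at every primitive `N`-th root
of unity in characteristic `p`. -/
lemma reduce_char {N : ℕ} (hN : 0 < N) (hNp : ¬ p ∣ N) {K : Type*} [Field K] [CharP K p] {θ : K}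
    (hθ : IsPrimitiveRoot θ N) (f : ℤ[X])
    (hf : aeval (Complex.exp (2 * Real.pi * Complex.I / ((N * p : ℕ) : ℂ))) f = 0) :
    f.eval₂ (Int.castRingHom K) θ = 0 := by
  have hNp0 : 0 < N * p := Nat.mul_pos hN hpf.out.pos
  have hζ : IsPrimitiveRoot (Complex.exp (2 * Real.pi * Complex.I / ((N * p : ℕ) : ℂ))) (N * p) :=
    Complex.isPrimitiveRoot_exp (N * p) hNp0.ne'
  have h1 : cyclotomic (N * p) ℤ ∣ f := by
    rw [cyclotomic_eq_minpoly hζ hNp0]
    exact minpoly.isIntegrallyClosed_dvd (hζ.isIntegral hNp0) hf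
  obtain ⟨q, rfl⟩ := h1
  have h2 : (cyclotomic (N * p) K).eval θ = 0 := by
    have : NeZero N := ⟨hN.ne'⟩
    have : NeZero ((N : ℕ) : K) := hθ.neZero'
    rw [cyclotomic_mul_prime_eq_pow_of_not_dvd K hNp, eval_pow, (isRoot_cyclotomic_iff.mpr hθ).eq_zero]
    exact zero_pow (by have := hpf.out.one_lt; omega)
  rw [eval₂_mul, eval₂_eq_eval_map, map_cyclotomic, h2, zero_mul]

/-- the relation modulo `p` -/
lemma mod_relation (h : p % 24 = 19) (ε : ℤ)
    (hS : SR p z12 = ε * ((1 + Complex.I) * ((1 + s3) / 2)))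
    {K : Type*} [Field K] [CharP K p] {θ : K} (hθ : IsPrimitiveRoot θ 12) :
    2 * (θ - 1) ^ ((p - 1) / 2) = ε * ((1 + θ ^ 3) * (1 + θ + θ ^ 11)) := by
  have hp2 : p ≠ 2 := by omega
  obtain ⟨m, hm⟩ : ∃ m, p = 2 * m + 1 := ⟨p / 2, by omega⟩
  have hm' : (p - 1) / 2 = m := by omega
  have hNp : ¬ p ∣ 12 := by
    intro hd
    have := Nat.le_of_dvd (by norm_num) hd
    omega
  set F : ℤ[X] := 2 * ∏ r ∈ RR p, (X ^ p - X ^ (12 * r.val)) -
    C ε * ((1 + X ^ (3 * p)) * (1 + X ^ p + X ^ (11 * p))) with hF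
  obtain ⟨ω, hω⟩ : ∃ ω : ℂ, ω = Complex.exp (2 * Real.pi * Complex.I / ((12 * p : ℕ) : ℂ)) := ⟨_, rfl⟩
  have hp0 : (p : ℂ) ≠ 0 := by exact_mod_cast hpf.out.ne_zero
  have hωp : ω ^ p = z12 := by
    rw [hω, ← z12_exp, ← Complex.exp_nat_mul]
    congr 1
    push_cast
    field_simp
  have hω12 : ∀ r : ZMod p, ω ^ (12 * r.val) = ZMod.stdAddChar r := by
    intro r
    have h1 := std_nat (p := p) r.val
    rw [ZMod.natCast_zmod_val] at h1
    rw [h1, hω, ← Complex.exp_nat_mul]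
    congr 1
    push_cast
    field_simp
  have hz11 : z12 ^ 11 = (s3 - Complex.I) / 2 := by
    have h1 : z12 ^ 12 = 1 := by
      have : z12 ^ 12 = (z12 ^ 3) ^ 4 := by ring
      rw [this, z12_three, Complex.I_pow_four]
    have h2 : z12 * ((s3 - Complex.I) / 2) = 1 := by
      rw [z12]
      linear_combination (1 / 4 : ℂ) * s3_sq - (1 / 4 : ℂ) * Complex.I_sq
    apply mul_left_cancel₀ z12_ne
    rw [h2, ← h1]
    ring
  have hf : aeval ω F = 0 := by
    rw [hF]
    simp only [map_sub, map_mul, map_add, map_one, map_pow, map_prod, aeval_X, aeval_C, map_ofNat]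
    have e1 : ω ^ (3 * p) = Complex.I := by
      rw [mul_comm 3 p, pow_mul, hωp, z12_three]
    have e2 : ω ^ (11 * p) = (s3 - Complex.I) / 2 := by
      rw [mul_comm 11 p, pow_mul, hωp, hz11]
    have e3 : ∏ r ∈ RR p, (ω ^ p - ω ^ (12 * r.val)) = SR p z12 := by
      rw [SR]
      refine Finset.prod_congr rfl fun r _ => ?_
      rw [hωp, hω12]
    rw [e1, e2, e3, hωp, hS, z12]
    simp only [eq_intCast]
    ring
  have hθ7 : IsPrimitiveRoot (θ ^ 7) 12 := hθ.pow_of_coprime 7 (by norm_num)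
  rw [hω] at hf
  have hred := reduce_char (p := p) (by norm_num) hNp hθ7 F hf
  rw [hF] at hred
  simp only [eval₂_sub, eval₂_mul, eval₂_add, eval₂_one, eval₂_pow, eval₂_X, eval₂_C,
    eval₂_finset_prod, eval₂_ofNat] at hred
  obtain ⟨k, hk⟩ : ∃ k, p = 12 * k + 7 := ⟨p / 12, by omega⟩
  have hp7 : (θ ^ 7) ^ p = θ := by
    rw [← pow_mul]
    have : 7 * p = 12 * (7 * k + 4) + 1 := by omega
    rw [this, pow_add, pow_mul, hθ.pow_eq_one, one_pow, one_mul, pow_one]
  have e1 : ∀ r : ZMod p, (θ ^ 7) ^ (12 * r.val) = 1 := by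
    intro r
    rw [pow_mul, hθ7.pow_eq_one, one_pow]
  have e3 : ∏ r ∈ RR p, ((θ ^ 7) ^ p - (θ ^ 7) ^ (12 * r.val)) = (θ - 1) ^ m := by
    rw [Finset.prod_congr rfl (fun r _ => by rw [hp7, e1 r]), Finset.prod_const, card_RR hp2 m hm]
  rw [e3, mul_comm 3 p, mul_comm 11 p, pow_mul _ p 3, pow_mul _ p 11, hp7] at hred
  rw [hm']
  simp only [eq_intCast] at hred
  linear_combination hred

/-- the sign as a quadratic symbol -/
lemma sign_symbol (h : p % 24 = 19) (ε : ℤ) (hε : ε = 1 ∨ ε = -1)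
    (hS : SR p z12 = ε * ((1 + Complex.I) * ((1 + s3) / 2))) :
    ∃ ρ : ZMod p, ρ ^ 2 = 6 ∧ ε = -(-1) ^ ((p - 19) / 24) * quadraticChar (ZMod p) (2 + ρ) := by
  have hp2 : p ≠ 2 := by omega
  have hp0 := hpf.out.pos
  set K := AlgebraicClosure (ZMod p)
  have : CharP K p := charP_of_injective_algebraMap (algebraMap (ZMod p) K).injective p
  have h12 : NeZero ((12 : ℕ) : K) := ⟨by
    intro h0
    rw [CharP.cast_eq_zero_iff K p] at h0
    have := Nat.le_of_dvd (by norm_num) h0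
    omega⟩
  obtain ⟨θ, hθ⟩ := HasEnoughRootsOfUnity.exists_primitiveRoot K 12
  have hrel := mod_relation h ε hS hθ
  obtain ⟨k, hk⟩ : ∃ k, p = 24 * k + 19 := ⟨p / 24, by omega⟩
  have hk' : (p - 19) / 24 = k := by omega
  have hm : (p - 1) / 2 = 12 * k + 9 := by omega
  have hpK : (p : K) = 0 := CharP.cast_eq_zero K p
  have hnz : ∀ n : ℕ, 0 < n → n < p → ((n : ℕ) : K) ≠ 0 := by
    intro n hn0 hn h0
    rw [CharP.cast_eq_zero_iff K p] at h0
    have := Nat.le_of_dvd hn0 h0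
    omega
  have h2K : (2 : K) ≠ 0 := by have := hnz 2 (by norm_num) (by omega); exact_mod_cast this
  -- the roots of unity
  have hθ6 : θ ^ 6 = -1 := by
    have : IsPrimitiveRoot (θ ^ 6) 2 := hθ.pow (by norm_num) (by norm_num)
    exact this.eq_neg_one_of_two_right
  have hθ4 : θ ^ 4 = θ ^ 2 - 1 := by
    have h1 : (θ ^ 2 + 1) * (θ ^ 4 - θ ^ 2 + 1) = 0 := by linear_combination hθ6
    rcases mul_eq_zero.mp h1 with h2 | h2
    · exfalso
      have h3 : θ ^ 4 = 1 := by linear_combination (θ ^ 2 - 1) * h2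
      have := hθ.dvd_of_pow_eq_one 4 h3
      omega
    · linear_combination h2
  obtain ⟨I, hI⟩ : ∃ I, I = θ ^ 3 := ⟨_, rfl⟩
  obtain ⟨s, hs⟩ : ∃ s, s = θ + θ ^ 11 := ⟨_, rfl⟩
  have hs' : s = 2 * θ - θ ^ 3 := by
    rw [hs]
    linear_combination (θ ^ 5) * hθ6 - θ * hθ4
  have hI2 : I ^ 2 = -1 := by rw [hI]; linear_combination hθ6
  have hs2 : s ^ 2 = 3 := by
    rw [hs']
    linear_combination hθ6 - 4 * hθ4
  have hsq : (θ - 1) ^ 2 = θ * (s - 2) := by
    rw [hs']
    linear_combination hθ4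
  have hθ64 : θ ^ (6 * k + 4) = (-1) ^ k * θ ^ 4 := by
    rw [pow_add, pow_mul, hθ6]
  have hneg : (s - 2) ^ (6 * k + 4) = (2 - s) ^ (6 * k + 4) := by
    rw [← neg_sub 2 s, Even.neg_pow ⟨3 * k + 2, by ring⟩]
  have hss : (2 - s) * (2 + s) = 1 := by linear_combination -hs2
  obtain ⟨δ, hδ⟩ : ∃ δ, δ = (2 - s) ^ (6 * k + 5) := ⟨_, rfl⟩
  have hδ' : (2 - s) ^ (6 * k + 4) = δ * (2 + s) := by
    have : δ = (2 - s) ^ (6 * k + 4) * (2 - s) := by rw [hδ, ← pow_succ]
    rw [this]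
    linear_combination (-(2 - s) ^ (6 * k + 4)) * hss
  have hpow : (θ - 1) ^ ((p - 1) / 2) = (θ - 1) * ((-1) ^ k * θ ^ 4 * (δ * (2 + s))) := by
    rw [hm, show 12 * k + 9 = 2 * (6 * k + 4) + 1 by ring, pow_succ, pow_mul, hsq, mul_pow, hθ64,
      hneg, hδ']
    ring
  have h1I : 1 + I ≠ 0 := by
    intro h0
    have h1 : I = -1 := by linear_combination h0
    rw [h1] at hI2
    apply h2K
    linear_combination hI2
  have h1s : 1 + s ≠ 0 := by
    intro h0
    have h1 : s = -1 := by linear_combination h0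
    rw [h1] at hs2
    apply h2K
    linear_combination -hs2
  have hεδ : (ε : K) = -(-1) ^ k * δ := by
    have h1 : (1 + I) * (1 + s) * (ε : K) = (1 + I) * (1 + s) * (-(-1) ^ k * δ) := by
      have h2 : 2 * (θ ^ 4 * (θ - 1)) = (1 - s) * (1 + I) := by
        rw [hs', hI]
        linear_combination (2 * θ) * hθ4 - hθ6
      rw [hpow] at hrel
      have hrel' : 2 * ((θ - 1) * ((-1) ^ k * θ ^ 4 * (δ * (2 + s)))) =
          (ε : K) * ((1 + I) * (1 + s)) := by
        rw [hrel, hI, hs]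
        ring
      have h3 : (ε : K) * ((1 + I) * (1 + s)) = (-1) ^ k * δ * (2 + s) * ((1 - s) * (1 + I)) := by
        linear_combination -hrel' + (-1) ^ k * δ * (2 + s) * h2
      linear_combination h3 - ((-1) ^ k * δ * (1 + I)) * hs2
    exact mul_left_cancel₀ (mul_ne_zero h1I h1s) h1
  -- the square root of two
  obtain ⟨c, hc⟩ := IsAlgClosed.exists_pow_nat_eq (2 : K) (n := 2) (by norm_num)
  have hc0 : c ≠ 0 := by rintro rfl; apply h2K; rw [← hc]; ring
  have hq2 : quadraticChar (ZMod p) 2 = -1 := by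
    rw [quadraticChar_two (by rw [ZMod.ringChar_zmod_n]; exact hp2), ZMod.card,
      ZMod.χ₈_nat_eq_if_mod_eight, if_neg (by omega), if_neg (by omega)]
  have hq3 : quadraticChar (ZMod p) 3 = -1 := by
    have h5 : legendreSym p ((3 : ℕ) : ℤ) = -1 := by
      have : Fact (Nat.Prime 3) := ⟨Nat.prime_three⟩
      rw [legendreSym.quadratic_reciprocity' (by norm_num) hp2]
      have e1 : (-1 : ℤ) ^ (3 / 2 * (p / 2)) = -1 := by
        have : Odd (3 / 2 * (p / 2)) := by rw [Nat.odd_iff]; omega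
        rw [this.neg_one_pow]
      have e2 : legendreSym 3 (p : ℤ) = 1 := by
        rw [legendreSym.mod 3 (p : ℤ)]
        have : ((p : ℤ) % ((3 : ℕ) : ℤ)) = 1 := by omega
        rw [this]
        exact legendreSym.at_one 3
      rw [e1, e2]; norm_num
    rw [legendreSym] at h5
    push_cast at h5
    exact h5
  have heul : ∀ a : ZMod p, (algebraMap (ZMod p) K a) ^ ((p - 1) / 2) =
      ((quadraticChar (ZMod p) a : ℤ) : K) := by
    intro a
    have h1 := quadraticChar_eq_pow_of_char_ne_two' (F := ZMod p)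
      (by rw [ZMod.ringChar_zmod_n]; exact hp2) a
    rw [ZMod.card] at h1
    have h2 : p / 2 = (p - 1) / 2 := by omega
    rw [← map_pow, ← h2, ← h1, map_intCast]
  have hfrob : ∀ (x : K) (a : ZMod p), x ^ 2 = algebraMap (ZMod p) K a →
      quadraticChar (ZMod p) a = -1 → x ^ p = -x := by
    intro x a hx ha
    have h1 : p = 2 * ((p - 1) / 2) + 1 := by omega
    have h2 : x ^ p = x ^ (2 * ((p - 1) / 2) + 1) := congrArg (fun n => x ^ n) h1
    rw [h2, pow_succ, pow_mul, hx, heul, ha]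
    push_cast; ring
  have hcp : c ^ p = -c := hfrob c 2 (by rw [hc, map_ofNat]) hq2
  have hsp : s ^ p = -s := hfrob s 3 (by rw [hs2, map_ofNat]) hq3
  obtain ⟨w, hw⟩ : ∃ w, w = (s - 1) / c := ⟨_, rfl⟩
  obtain ⟨w', hw'⟩ : ∃ w', w' = (s + 1) / c := ⟨_, rfl⟩
  have hww : w * w' = 1 := by
    rw [hw, hw', div_mul_div_comm, div_eq_one_iff_eq (mul_ne_zero hc0 hc0)]
    linear_combination hs2 - hc
  have hw2 : w' ^ 2 = 2 + s := by
    rw [hw', div_pow, hc, div_eq_iff h2K]
    linear_combination hs2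
  have hsum : w + w' = c * s := by
    rw [hw, hw', ← add_div, div_eq_iff hc0]
    linear_combination (-s) * hc
  have hwp : w ^ p = w' := by
    rw [hw, hw', div_pow, sub_pow_char, one_pow, hcp, hsp, div_eq_div_iff (neg_ne_zero.mpr hc0) hc0]
    ring
  have hw1 : 1 + w ≠ 0 := by
    intro h0
    have h1 : w = -1 := by linear_combination h0
    rw [h1] at hww hsum
    have h3 : w' = -1 := by linear_combination -hww
    rw [h3] at hsum
    apply h2K
    have h4 : c * s = -2 := by linear_combination -hsum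
    have h5 : (c * s) ^ 2 = 6 := by linear_combination s ^ 2 * hc + 2 * hs2
    rw [h4] at h5
    linear_combination -h5
  have hA : (1 + w) ^ (p - 1) = w' := by
    have h1 : (1 + w) ^ (p - 1) * (1 + w) = (1 + w) ^ p := by
      rw [← pow_succ, Nat.sub_add_cancel hp0]
    have h2 : (1 + w) ^ p = 1 + w' := by rw [add_pow_char, one_pow, hwp]
    apply mul_right_cancel₀ hw1
    rw [h1, h2]
    linear_combination -hww
  have hB : (1 + w) ^ 2 = w * (2 + c * s) := by
    rw [← hsum]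
    linear_combination -hww
  have hC : (2 + c * s) ^ ((p - 1) / 2) = (2 + s) ^ (6 * k + 5) := by
    have h1 : (1 + w) ^ (p - 1) = ((1 + w) ^ 2) ^ ((p - 1) / 2) := by
      rw [← pow_mul]; congr 1; omega
    rw [hA, hB, mul_pow] at h1
    have h2 : w' ^ ((p - 1) / 2) * w ^ ((p - 1) / 2) = 1 := by
      rw [← mul_pow, mul_comm, hww, one_pow]
    have h3 : (2 + s) ^ (6 * k + 5) = w' ^ ((p - 1) / 2) * w' := by
      rw [← hw2, ← pow_mul, ← pow_succ]
      congr 1
      omega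
    rw [h3]
    linear_combination (-(w' ^ ((p - 1) / 2))) * h1 - ((2 + c * s) ^ ((p - 1) / 2)) * h2
  have hδδ : δ * (2 + s) ^ (6 * k + 5) = 1 := by
    rw [hδ, ← mul_pow, hss, one_pow]
  have hρ0 : ∃ ρ0 : ZMod p, ρ0 ^ 2 = 6 := by
    have h1 : quadraticChar (ZMod p) 6 = 1 := by
      have : (6 : ZMod p) = 2 * 3 := by norm_num
      rw [this, map_mul, hq2, hq3]; norm_num
    have h6 : (6 : ZMod p) ≠ 0 := by
      intro h0
      rw [h0, quadraticChar_zero] at h1
      norm_num at h1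
    obtain ⟨r, hr⟩ := (quadraticChar_one_iff_isSquare h6).mp h1
    exact ⟨r, by rw [hr]; ring⟩
  obtain ⟨ρ, hρ, hρK⟩ : ∃ ρ : ZMod p, ρ ^ 2 = 6 ∧ algebraMap (ZMod p) K ρ = c * s := by
    obtain ⟨ρ0, h0⟩ := hρ0
    have h1 : (c * s - algebraMap (ZMod p) K ρ0) * (c * s + algebraMap (ZMod p) K ρ0) = 0 := by
      have h2 : (algebraMap (ZMod p) K ρ0) ^ 2 = 6 := by rw [← map_pow, h0, map_ofNat]
      linear_combination (s ^ 2) * hc + 2 * hs2 - h2
    rcases mul_eq_zero.mp h1 with h2 | h2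
    · exact ⟨ρ0, h0, by linear_combination -h2⟩
    · exact ⟨-ρ0, by rw [neg_sq, h0], by rw [map_neg]; linear_combination -h2⟩
  refine ⟨ρ, hρ, ?_⟩
  rw [hk']
  have hχ : ((quadraticChar (ZMod p) (2 + ρ) : ℤ) : K) = (2 + s) ^ (6 * k + 5) := by
    rw [← heul, map_add, hρK, map_ofNat, hC]
  have h2ρ : (2 + ρ : ZMod p) ≠ 0 := by
    intro h0
    have h1 : ρ = -2 := by linear_combination h0
    rw [h1] at hρ
    have h3 : (2 : ZMod p) = 0 := by linear_combination -hρ
    have h4 : ((2 : ℕ) : ZMod p) = 0 := by exact_mod_cast h3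
    rw [ZMod.natCast_eq_zero_iff] at h4
    have := Nat.le_of_dvd (by norm_num) h4
    omega
  rcases quadraticChar_dichotomy h2ρ with hx | hx
  · rw [hx] at hχ ⊢
    rw [← hχ] at hδδ
    have hδ1 : δ = 1 := by push_cast at hδδ; linear_combination hδδ
    rw [hδ1] at hεδ
    have h5 : ((ε + (-1) ^ k : ℤ) : K) = 0 := by push_cast; linear_combination hεδ
    have h6 : ε + (-1) ^ k = 0 := by
      rcases hε with h | h <;> rcases neg_one_pow_eq_or ℤ k with h' | h' <;> rw [h, h'] at h5 ⊢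
      · exfalso; apply h2K; push_cast at h5; linear_combination h5
      · norm_num
      · norm_num
      · exfalso; apply h2K; push_cast at h5; linear_combination -h5
    linarith
  · rw [hx] at hχ ⊢
    rw [← hχ] at hδδ
    have hδ1 : δ = -1 := by push_cast at hδδ; linear_combination -hδδ
    rw [hδ1] at hεδ
    have h5 : ((ε - (-1) ^ k : ℤ) : K) = 0 := by push_cast; linear_combination hεδ
    have h6 : ε - (-1) ^ k = 0 := by
      rcases hε with h | h <;> rcases neg_one_pow_eq_or ℤ k with h' | h' <;> rw [h, h'] at h5 ⊢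
      · norm_num
      · exfalso; apply h2K; push_cast at h5; linear_combination h5
      · exfalso; apply h2K; push_cast at h5; linear_combination -h5
      · norm_num
    linarith

end Pool.Agent.V11306.SP
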