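import Mathlib
import Pool.Agent.V11306.SPd

/-!
# The sign for `p ≡ 19 (mod 24)` and the representation `p = (4x)² + 3y²`
-/

set_option autoImplicit false
set_option linter.all false

namespace Pool.Agent.V11306.SP

open Finset

section arith

lemma thue {p : ℕ} [hpf : Fact p.Prime] (r : ZMod p) : ∃ a b : ℤ, (a, b) ≠ (0, 0) ∧ a ^ 2 < p ∧
    b ^ 2 < p ∧ (a : ZMod p) = r * b := by
  obtain ⟨k, hk⟩ : ∃ k, k = Nat.sqrt p := ⟨_, rfl⟩
  have h1 : p < (k + 1) * (k + 1) := by rw [hk]; exact Nat.lt_succ_sqrt p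
  have h2 : k * k ≤ p := by rw [hk]; exact Nat.sqrt_le p
  have h3 : k * k < p := by
    rcases h2.lt_or_eq with h | h
    · exact h
    · exfalso
      have hp := hpf.out
      rw [← h] at hp
      have hk1 : k ≠ 1 := by rintro rfl; exact Nat.not_prime_one (by simpa using hp)
      exact Nat.not_prime_mul hk1 hk1 hp
  let f : Fin (k + 1) × Fin (k + 1) → ZMod p := fun z => (z.1.val : ZMod p) - r * (z.2.val : ZMod p)
  obtain ⟨z, w, hzw, hf⟩ := Fintype.exists_ne_map_eq_of_card_lt f (by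
    rw [Fintype.card_prod, Fintype.card_fin, ZMod.card]; exact h1)
  have hb : ∀ s t : Fin (k + 1), ((s.val : ℤ) - (t.val : ℤ)) ^ 2 < p := by
    intro s t
    have hs := s.2
    have ht := t.2
    have h4 : |((s.val : ℤ) - (t.val : ℤ))| ≤ k := by
      rw [abs_le]; constructor <;> omega
    have h5 : ((s.val : ℤ) - (t.val : ℤ)) ^ 2 ≤ (k : ℤ) ^ 2 := by
      rw [← sq_abs]
      exact pow_le_pow_left₀ (abs_nonneg _) h4 2
    have h6 : (k : ℤ) ^ 2 < p := by
      have : k ^ 2 < p := by rw [sq]; exact h3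
      exact_mod_cast this
    linarith
  refine ⟨(z.1.val : ℤ) - w.1.val, (z.2.val : ℤ) - w.2.val, ?_, hb _ _, hb _ _, ?_⟩
  · intro h
    apply hzw
    rw [Prod.mk.injEq] at h
    apply Prod.ext
    · apply Fin.ext; omega
    · apply Fin.ext; omega
  · have h7 : (z.1.val : ZMod p) - r * (z.2.val : ZMod p) =
        (w.1.val : ZMod p) - r * (w.2.val : ZMod p) := hf
    push_cast
    linear_combination h7

lemma sq_mod3 (a : ℤ) : (a ^ 2) % 3 = 0 ∨ (a ^ 2) % 3 = 1 := by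
  have h : a % 3 = 0 ∨ a % 3 = 1 ∨ a % 3 = 2 := by omega
  rcases h with h | h | h
  · obtain ⟨c, hc⟩ : ∃ c, a = 3 * c := ⟨a / 3, by omega⟩
    left
    have : a ^ 2 = 3 * (3 * c ^ 2) := by rw [hc]; ring
    omega
  · obtain ⟨c, hc⟩ : ∃ c, a = 3 * c + 1 := ⟨a / 3, by omega⟩
    right
    have : a ^ 2 = 3 * (3 * c ^ 2 + 2 * c) + 1 := by rw [hc]; ring
    omega
  · obtain ⟨c, hc⟩ : ∃ c, a = 3 * c + 2 := ⟨a / 3, by omega⟩
    right
    have : a ^ 2 = 3 * (3 * c ^ 2 + 4 * c + 1) + 1 := by rw [hc]; ring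
    omega

lemma rep_six {p : ℕ} [hpf : Fact p.Prime] (h : p % 24 = 19) (r : ZMod p) (hr : r ^ 2 = 6) :
    ∃ u v : ℤ, u ^ 2 - 6 * v ^ 2 = p := by
  obtain ⟨a, b, hab, ha, hb, he⟩ := thue r
  have h0 : ((a ^ 2 - 6 * b ^ 2 : ℤ) : ZMod p) = 0 := by
    push_cast
    rw [he]
    linear_combination (b : ZMod p) ^ 2 * hr
  rw [ZMod.intCast_zmod_eq_zero_iff_dvd] at h0
  obtain ⟨t, ht⟩ := h0
  have hp0 : (0 : ℤ) < p := by exact_mod_cast hpf.out.pos
  have ht1 : t < 1 := by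
    by_contra hcon
    have : 1 ≤ t := by omega
    nlinarith [sq_nonneg b]
  have ht2 : -6 < t := by
    by_contra hcon
    have : t ≤ -6 := by omega
    nlinarith [sq_nonneg a]
  have hsa := sq_mod3 a
  have hsb := sq_mod3 b
  obtain ⟨k, hk⟩ : ∃ k : ℤ, (p : ℤ) = 24 * k + 19 := ⟨((p / 24 : ℕ) : ℤ), by push_cast; omega⟩
  have hcases : t = 0 ∨ t = -1 ∨ t = -2 ∨ t = -3 ∨ t = -4 ∨ t = -5 := by omega
  rcases hcases with rfl | rfl | rfl | rfl | rfl | rfl
  · exfalso
    have hn : (⟨a, b⟩ : ℤ√6).norm = 0 := by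
      rw [Zsqrtd.norm_def]
      simp only
      linear_combination ht
    rw [Zsqrtd.norm_eq_zero (by
      intro n hn
      have h1 : n < 3 := by nlinarith
      have h2 : -3 < n := by nlinarith
      interval_cases n <;> omega)] at hn
    apply hab
    have h1 := congrArg Zsqrtd.re hn
    have h2 := congrArg Zsqrtd.im hn
    simp at h1 h2
    rw [h1, h2]
  · exfalso
    rw [hk] at ht
    omega
  · obtain ⟨c, hc⟩ : ∃ c, a = 2 * c := by
      rcases Int.even_or_odd' a with ⟨c, h | h⟩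
      · exact ⟨c, h⟩
      · exfalso
        have : a ^ 2 = 2 * (2 * c ^ 2 + 2 * c) + 1 := by rw [h]; ring
        rw [hk] at ht
        omega
    refine ⟨3 * b - a, c - b, ?_⟩
    have h2 : (2 : ℤ) * ((3 * b - a) ^ 2 - 6 * (c - b) ^ 2) = 2 * p := by
      rw [hc] at ht ⊢
      linear_combination -ht
    linarith
  · exfalso
    obtain ⟨c, hc⟩ : ∃ c, a = 3 * c := by
      have : a % 3 = 0 := by
        rcases (by omega : a % 3 = 0 ∨ a % 3 = 1 ∨ a % 3 = 2) with h | h | h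
        · exact h
        · exfalso
          obtain ⟨c, hc⟩ : ∃ c, a = 3 * c + 1 := ⟨a / 3, by omega⟩
          have : a ^ 2 = 3 * (3 * c ^ 2 + 2 * c) + 1 := by rw [hc]; ring
          rw [hk] at ht
          omega
        · exfalso
          obtain ⟨c, hc⟩ : ∃ c, a = 3 * c + 2 := ⟨a / 3, by omega⟩
          have : a ^ 2 = 3 * (3 * c ^ 2 + 4 * c + 1) + 1 := by rw [hc]; ring
          rw [hk] at ht
          omega
      exact ⟨a / 3, by omega⟩
    have h3 : a ^ 2 = 9 * c ^ 2 := by rw [hc]; ring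
    rw [hk] at ht
    omega
  · exfalso
    rw [hk] at ht
    omega
  · have h5 : (a - b) * (a + b) % 5 = 0 := by
      have : (a - b) * (a + b) = 5 * (b ^ 2 - p) := by linear_combination ht
      rw [this]; omega
    have h5' : (5 : ℤ) ∣ (a - b) * (a + b) := Int.dvd_of_emod_eq_zero h5
    rcases (Int.Prime.dvd_mul' (by norm_num : Nat.Prime 5) (by exact_mod_cast h5')) with h6 | h6
    · obtain ⟨c, hc⟩ : ∃ c, a = b + 5 * c := by
        obtain ⟨c, hc⟩ := h6
        exact ⟨c, by push_cast at hc; linarith⟩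
      refine ⟨b - c, c, ?_⟩
      rw [hc] at ht
      have : (5 : ℤ) * ((b - c) ^ 2 - 6 * c ^ 2) = 5 * p := by linear_combination -ht
      linarith
    · obtain ⟨c, hc⟩ : ∃ c, a = -b + 5 * c := by
        obtain ⟨c, hc⟩ := h6
        exact ⟨c, by push_cast at hc; linarith⟩
      refine ⟨b + c, c, ?_⟩
      rw [hc] at ht
      have : (5 : ℤ) * ((b + c) ^ 2 - 6 * c ^ 2) = 5 * p := by linear_combination -ht
      linarith

lemma jac_one (a : ℤ) (n : ℕ) : n ≠ 0 → (∀ q : ℕ, q.Prime → q ∣ n → jacobiSym a q = 1) →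
    jacobiSym a n = 1 := by
  induction n using Nat.strong_induction_on with
  | _ n ih =>
    intro hn0 h
    rcases Nat.lt_or_ge 1 n with h1 | h1
    · have hpr := Nat.minFac_prime (by omega : n ≠ 1)
      obtain ⟨m, hm⟩ := n.minFac_dvd
      set q := n.minFac with hq
      have hm0 : m ≠ 0 := by
        rintro rfl
        omega
      have hlt : m < n := by
        rw [hm]
        have := hpr.one_lt
        have hmp : 0 < m := Nat.pos_of_ne_zero hm0
        nlinarith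
      rw [hm, jacobiSym.mul_right' _ hpr.ne_zero hm0, h q hpr ⟨m, hm⟩,
        ih m hlt hm0 (fun r hr hrm => h r hr (by rw [hm]; exact hrm.mul_left _))]
      norm_num
    · have : n = 1 := by omega
      rw [this, jacobiSym.one_right]

lemma jac_base (n n' y v : ℕ) (hodd : n % 2 = 1) (hn : n * n' = 3 * (y ^ 2 + 2 * v ^ 2))
    (hcop : Nat.Coprime y v) : jacobiSym (-2) n = 1 := by
  apply jac_one _ _ (by omega)
  intro q hq hqn
  have hfq : Fact q.Prime := ⟨hq⟩
  have hq2 : q ≠ 2 := by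
    rintro rfl
    omega
  have hd : q ∣ 3 * (y ^ 2 + 2 * v ^ 2) := by rw [← hn]; exact hqn.mul_right _
  rcases (Nat.Prime.dvd_mul hq).mp hd with h | h
  · have : q = 3 := (Nat.prime_dvd_prime_iff_eq hq Nat.prime_three).mp h
    subst this
    have : jacobiSym (-2) 3 = jacobiSym 1 3 := by
      apply jacobiSym.mod_left'
      norm_num
    rw [this, jacobiSym.one_left]
  · have hv : ¬ q ∣ v := by
      intro hv
      have h1 : q ∣ y ^ 2 := by
        have h2 : q ∣ 2 * v ^ 2 := (hv.pow (by norm_num : (2 : ℕ) ≠ 0)).mul_left 2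
        exact (Nat.dvd_add_left h2).mp h
      have h3 := hq.dvd_of_dvd_pow h1
      have := Nat.dvd_gcd h3 hv
      rw [hcop] at this
      exact hq.one_lt.ne' (Nat.dvd_one.mp this)
    have hvz : (v : ZMod q) ≠ 0 := by
      rw [Ne, ZMod.natCast_eq_zero_iff]; exact hv
    have hz : (y : ZMod q) ^ 2 + 2 * (v : ZMod q) ^ 2 = 0 := by
      have := (ZMod.natCast_eq_zero_iff (y ^ 2 + 2 * v ^ 2) q).mpr h
      exact_mod_cast this
    rw [← jacobiSym.legendreSym.to_jacobiSym, legendreSym.eq_one_iff]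
    · refine ⟨(y : ZMod q) * (v : ZMod q)⁻¹, ?_⟩
      push_cast
      field_simp
      linear_combination -hz
    · intro h0
      have h1 : ((2 : ℕ) : ZMod q) = 0 := by
        push_cast at h0 ⊢
        linear_combination -h0
      rw [ZMod.natCast_eq_zero_iff] at h1
      exact hq2 ((Nat.prime_dvd_prime_iff_eq hq Nat.prime_two).mp h1)

lemma jac_ind (N : ℕ) : ∀ n n' y v : ℕ, v ≤ N → 0 < v → n % 2 = 1 → n' % 2 = 1 →
    n * n' = 3 * (y ^ 2 + 2 * v ^ 2) →
    (∀ q : ℕ, q.Prime → q ∣ y → q ∣ v → ¬ (q ∣ n ∧ q ∣ n')) → jacobiSym (-2) n = 1 := by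
  induction N with
  | zero => intro n n' y v hv hv0; omega
  | succ N ih =>
    intro n n' y v hv hv0 hodd hodd' hn hq
    by_cases hcop : Nat.Coprime y v
    · exact jac_base n n' y v hodd hn hcop
    · obtain ⟨q, hqp, hqy, hqv⟩ := Nat.Prime.not_coprime_iff_dvd.mp hcop
      obtain ⟨y1, rfl⟩ := hqy
      obtain ⟨v1, rfl⟩ := hqv
      have hv1 : 0 < v1 := Nat.pos_of_ne_zero (by rintro rfl; simp at hv0)
      have hq2 := hqp.two_le
      have hvN : v1 ≤ N := by nlinarith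
      have hE : n * n' = q ^ 2 * (3 * (y1 ^ 2 + 2 * v1 ^ 2)) := by rw [hn]; ring
      have hodd2 : (n * n') % 2 = 1 := by rw [Nat.mul_mod, hodd, hodd']
      have hqo : q ≠ 2 := by
        rintro rfl
        rw [hE] at hodd2
        omega
      have hcond : ∀ r : ℕ, r.Prime → r ∣ y1 → r ∣ v1 → ¬ (r ∣ n ∧ r ∣ n') :=
        fun r hr h1 h2 => hq r hr (h1.mul_left q) (h2.mul_left q)
      have hnot := hq q hqp ⟨y1, rfl⟩ ⟨v1, rfl⟩
      by_cases hqn : q ∣ n
      · have hqn' : ¬ q ∣ n' := fun h => hnot ⟨hqn, h⟩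
        have hcop' : Nat.Coprime (q ^ 2) n' := ((Nat.Prime.coprime_iff_not_dvd hqp).mpr hqn').pow_left 2
        have hd : q ^ 2 ∣ n := hcop'.dvd_of_dvd_mul_right ⟨_, hE⟩
        obtain ⟨n1, rfl⟩ := hd
        have hn1 : n1 ≠ 0 := by rintro rfl; simp at hodd
        have hn1o : n1 % 2 = 1 := by
          by_contra hc
          have : n1 % 2 = 0 := by omega
          rw [Nat.mul_mod, this] at hodd
          simp at hodd
        have hE1 : n1 * n' = 3 * (y1 ^ 2 + 2 * v1 ^ 2) := by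
          have : q ^ 2 * (n1 * n') = q ^ 2 * (3 * (y1 ^ 2 + 2 * v1 ^ 2)) := by rw [← hE]; ring
          exact Nat.eq_of_mul_eq_mul_left (by positivity) this
        have h1 := ih n1 n' y1 v1 hvN hv1 hn1o hodd' hE1
          (fun r hr h1 h2 h3 => hcond r hr h1 h2 ⟨h3.1.mul_left _, h3.2⟩)
        rw [jacobiSym.mul_right' _ (by positivity) hn1, h1, mul_one, jacobiSym.pow_right,
          jacobiSym.sq_one]
        have : Int.gcd (-2) (q : ℤ) = Nat.gcd 2 q := by rw [Int.gcd]; simp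
        rw [this]
        exact (Nat.coprime_primes Nat.prime_two hqp).mpr (Ne.symm hqo)
      · have hcop' : Nat.Coprime (q ^ 2) n := ((Nat.Prime.coprime_iff_not_dvd hqp).mpr hqn).pow_left 2
        have hd : q ^ 2 ∣ n' := hcop'.dvd_of_dvd_mul_left ⟨_, hE⟩
        obtain ⟨n1, rfl⟩ := hd
        have hn1o : n1 % 2 = 1 := by
          by_contra hc
          have : n1 % 2 = 0 := by omega
          rw [Nat.mul_mod, this] at hodd'
          simp at hodd'
        have hE1 : n * n1 = 3 * (y1 ^ 2 + 2 * v1 ^ 2) := by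
          have : q ^ 2 * (n * n1) = q ^ 2 * (3 * (y1 ^ 2 + 2 * v1 ^ 2)) := by rw [← hE]; ring
          exact Nat.eq_of_mul_eq_mul_left (by positivity) this
        exact ih n n1 y1 v1 hvN hv1 hodd hn1o hE1
          (fun r hr h1 h2 h3 => hcond r hr h1 h2 ⟨h3.1, h3.2.mul_left _⟩)

/-- the parity of `x` -/
lemma parity_x {p : ℕ} [hpf : Fact p.Prime] (h : p % 24 = 19) (x y u v : ℕ)
    (hxy : p = (4 * x) ^ 2 + 3 * y ^ 2) (hv0 : 0 < v) (huv : (p : ℤ) = (u : ℤ) ^ 2 - 6 * (v : ℤ) ^ 2) :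
    ZMod.χ₈' (u : ZMod 8) = (-1) ^ x := by
  have hpp := hpf.out
  have huv' : u ^ 2 = p + 6 * v ^ 2 := by
    have : (u : ℤ) ^ 2 = p + 6 * (v : ℤ) ^ 2 := by linarith
    exact_mod_cast this
  have hu : u % 2 = 1 := by
    rcases Nat.even_or_odd' u with ⟨c, hc | hc⟩
    · exfalso
      have : u ^ 2 = 2 * (2 * c ^ 2) := by rw [hc]; ring
      omega
    · omega
  have hlt : 4 * x < u := by
    have : (4 * x) ^ 2 < u ^ 2 := by
      have h1 : 0 < v ^ 2 := by positivity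
      omega
    exact lt_of_pow_lt_pow_left₀ 2 (by omega) this
  have hprod : (u + 4 * x) * (u - 4 * x) = 3 * (y ^ 2 + 2 * v ^ 2) := by
    have h1 : (u + 4 * x) * (u - 4 * x) = u ^ 2 - (4 * x) ^ 2 := (Nat.sq_sub_sq u (4 * x)).symm
    rw [h1]
    omega
  have hy0 : 0 < y := by
    rcases Nat.eq_zero_or_pos y with h0 | h0
    · exfalso
      rw [h0] at hxy
      rw [hxy, show (4 * x) ^ 2 + 3 * 0 ^ 2 = (4 * x) * (4 * x) by ring] at hpp
      exact Nat.not_prime_mul (by omega) (by omega) hpp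
    · exact h0
  have hj := jac_ind v (u + 4 * x) (u - 4 * x) y v le_rfl hv0 (by omega) (by omega) hprod (by
    intro q hq hqy hqv hboth
    have h1 : q ∣ (u + 4 * x) + (u - 4 * x) := Nat.dvd_add hboth.1 hboth.2
    have h2 : (u + 4 * x) + (u - 4 * x) = 2 * u := by omega
    rw [h2] at h1
    have hq2 : q ≠ 2 := by
      rintro rfl
      have := hboth.1
      omega
    have hqu : q ∣ u := by
      rcases (Nat.Prime.dvd_mul hq).mp h1 with h | h
      · exact absurd ((Nat.prime_dvd_prime_iff_eq hq Nat.prime_two).mp h) hq2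
      · exact h
    have hqp : q ∣ p := by
      have h3 : q ∣ p + 6 * v ^ 2 := by rw [← huv']; exact hqu.pow (by norm_num)
      exact (Nat.dvd_add_left ((hqv.pow (by norm_num : (2 : ℕ) ≠ 0)).mul_left 6)).mp h3
    have hqe : q = p := (Nat.prime_dvd_prime_iff_eq hq hpp).mp hqp
    rw [hqe] at hqy
    have h4 := Nat.le_of_dvd hy0 hqy
    have h5 := hpp.two_le
    nlinarith)
  rw [jacobiSym.at_neg_two (by rw [Nat.odd_iff]; omega), ZMod.χ₈'_nat_eq_if_mod_eight] at hj
  rw [ZMod.χ₈'_nat_eq_if_mod_eight]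
  rcases Nat.even_or_odd' x with ⟨c, hc | hc⟩
  · rw [hc, pow_mul]
    norm_num
    have e : (u + 4 * x) % 8 = u % 8 := by omega
    have e2 : (u + 4 * x) % 2 = u % 2 := by omega
    rw [e, e2] at hj
    exact hj
  · rw [hc, pow_succ, pow_mul]
    norm_num
    have e : (u + 4 * x) % 8 = (u + 4) % 8 := by omega
    have e2 : (u + 4 * x) % 2 = u % 2 := by omega
    rw [e, e2] at hj
    rw [if_neg (by omega)] at hj ⊢
    split_ifs at hj with h8
    rw [if_neg (by omega)]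

end arith

/-- the quadratic symbol -/
lemma symbol_uv {p : ℕ} [hpf : Fact p.Prime] (h : p % 24 = 19) (u v : ℕ) (hv0 : 0 < v)
    (huv : (p : ℤ) = (u : ℤ) ^ 2 - 6 * (v : ℤ) ^ 2) (ρ : ZMod p) (hρ : ρ ^ 2 = 6) :
    quadraticChar (ZMod p) (2 + ρ) = - ZMod.χ₈' (u : ZMod 8) := by
  have hpp := hpf.out
  have hp2 : p ≠ 2 := by omega
  have huv' : u ^ 2 = p + 6 * v ^ 2 := by
    have : (u : ℤ) ^ 2 = p + 6 * (v : ℤ) ^ 2 := by linarith
    exact_mod_cast this
  have hu : u % 2 = 1 := by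
    rcases Nat.even_or_odd' u with ⟨c, hc | hc⟩
    · exfalso
      have : u ^ 2 = 2 * (2 * c ^ 2) := by rw [hc]; ring
      omega
    · omega
  have hv : v % 2 = 1 := by
    by_contra hc
    obtain ⟨c, hc⟩ : ∃ c, v = 2 * c := ⟨v / 2, by omega⟩
    obtain ⟨d, hd⟩ : ∃ d, u = 2 * d + 1 := ⟨u / 2, by omega⟩
    have h1 : v ^ 2 = 4 * c ^ 2 := by rw [hc]; ring
    have h2 : u ^ 2 = 4 * (d ^ 2 + d) + 1 := by rw [hd]; ring
    have h3 : (d ^ 2 + d) % 2 = 0 := by
      rcases Nat.even_or_odd' d with ⟨e, he | he⟩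
      · have : d ^ 2 + d = 2 * (2 * e ^ 2 + e) := by rw [he]; ring
        omega
      · have : d ^ 2 + d = 2 * (2 * e ^ 2 + 3 * e + 1) := by rw [he]; ring
        omega
    omega
  have hcop : Nat.Coprime u v := by
    rw [Nat.coprime_iff_gcd_eq_one]
    by_contra hg
    obtain ⟨q, hq, hqg⟩ := Nat.exists_prime_and_dvd hg
    have hqu := hqg.trans (Nat.gcd_dvd_left u v)
    have hqv := hqg.trans (Nat.gcd_dvd_right u v)
    have hqp : q ∣ p := by
      have h3 : q ∣ p + 6 * v ^ 2 := by rw [← huv']; exact hqu.pow (by norm_num)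
      exact (Nat.dvd_add_left ((hqv.pow (by norm_num : (2 : ℕ) ≠ 0)).mul_left 6)).mp h3
    have hqe : q = p := (Nat.prime_dvd_prime_iff_eq hq hpp).mp hqp
    subst hqe
    obtain ⟨u1, rfl⟩ := hqu
    obtain ⟨v1, rfl⟩ := hqv
    have h4 : q * (q * u1 ^ 2) = q * (1 + 6 * q * v1 ^ 2) := by linarith
    have h5 := Nat.eq_of_mul_eq_mul_left hq.pos h4
    have h6 : q ∣ 1 := by
      have h7 : q ∣ 1 + 6 * q * v1 ^ 2 := by rw [← h5]; exact ⟨_, rfl⟩
      exact (Nat.dvd_add_left ⟨6 * v1 ^ 2, by ring⟩).mp h7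
    exact hq.one_lt.ne' (Nat.dvd_one.mp h6)
  have hn : (u + 2 * v) % 2 = 1 := by omega
  -- the symbol of `2 + ρ`
  have hm2 : quadraticChar (ZMod p) (-2) = 1 := by
    rw [quadraticChar_neg_two (by rw [ZMod.ringChar_zmod_n]; exact hp2), ZMod.card,
      ZMod.χ₈'_nat_eq_if_mod_eight, if_neg (by omega), if_pos (by omega)]
  have hpm : quadraticChar (ZMod p) (2 + ρ) = quadraticChar (ZMod p) (2 - ρ) := by
    have h1 : quadraticChar (ZMod p) (2 + ρ) * quadraticChar (ZMod p) (2 - ρ) = 1 := by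
      rw [← map_mul]
      have : (2 + ρ) * (2 - ρ) = -2 := by linear_combination -hρ
      rw [this, hm2]
    have h2 : (2 + ρ) ≠ 0 := by
      intro h0
      rw [h0, quadraticChar_zero] at h1
      norm_num at h1
    rcases quadraticChar_dichotomy h2 with h3 | h3 <;> rw [h3] at h1 ⊢ <;> omega
  have huz : (u : ZMod p) ^ 2 = 6 * (v : ZMod p) ^ 2 := by
    have : ((u ^ 2 : ℕ) : ZMod p) = ((p + 6 * v ^ 2 : ℕ) : ZMod p) := by rw [huv']
    push_cast at this
    rw [this]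
    simp
  have hX : quadraticChar (ZMod p) (v : ZMod p) * quadraticChar (ZMod p) (2 + ρ) =
      quadraticChar (ZMod p) ((u + 2 * v : ℕ) : ZMod p) := by
    have h1 : ((u : ZMod p) - ρ * v) * (u + ρ * v) = 0 := by
      linear_combination huz - (v : ZMod p) ^ 2 * hρ
    rcases mul_eq_zero.mp h1 with h2 | h2
    · rw [← map_mul]
      congr 1
      push_cast
      linear_combination -h2
    · rw [hpm, ← map_mul]
      congr 1
      push_cast
      linear_combination -h2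
  have hJ : ∀ a : ℕ, quadraticChar (ZMod p) (a : ZMod p) = jacobiSym a p := by
    intro a
    rw [← jacobiSym.legendreSym.to_jacobiSym, legendreSym]
    simp
  have hpodd : p % 2 = 1 := by omega
  have h1 := jacobiSym.quadratic_reciprocity_if hv hpodd
  have h2 := jacobiSym.quadratic_reciprocity_if hn hpodd
  have hpv : jacobiSym (p : ℤ) v = 1 := by
    have e1 : jacobiSym (p : ℤ) v = jacobiSym ((u : ℤ) ^ 2) v := by
      apply jacobiSym.mod_left'
      rw [huv]
      have : (u : ℤ) ^ 2 - 6 * (v : ℤ) ^ 2 = (u : ℤ) ^ 2 + v * (-(6 * v)) := by ring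
      rw [this, Int.add_mul_emod_self_left]
    rw [e1, jacobiSym.sq_one' (by rw [Int.gcd_natCast_natCast]; exact hcop)]
  have hpn : jacobiSym (p : ℤ) (u + 2 * v) = ZMod.χ₈' ((u + 2 * v : ℕ) : ZMod 8) := by
    have hcop2 : Nat.Coprime v (u + 2 * v) := by
      have : Nat.Coprime v u := hcop.symm
      simpa using this
    have e1 : jacobiSym (p : ℤ) (u + 2 * v) = jacobiSym (-2 * (v : ℤ) ^ 2) (u + 2 * v) := by
      apply jacobiSym.mod_left'
      rw [huv]
      have : (u : ℤ) ^ 2 - 6 * (v : ℤ) ^ 2 = -2 * (v : ℤ) ^ 2 + ((u + 2 * v : ℕ) : ℤ) * (u - 2 * v) := by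
        push_cast; ring
      rw [this, Int.add_mul_emod_self_left]
    rw [e1, jacobiSym.mul_left, jacobiSym.sq_one' (by rw [Int.gcd_natCast_natCast]; exact hcop2),
      mul_one, jacobiSym.at_neg_two (by rw [Nat.odd_iff]; exact hn)]
  rw [hJ, hJ, ← h1, ← h2, hpv, hpn] at hX
  have hp4 : p % 4 = 3 := by omega
  simp only [hp4, and_true] at hX
  have c1 : ZMod.χ₈' ((u + 2 * v : ℕ) : ZMod 8) =
      if (u + 2 * v) % 8 = 1 ∨ (u + 2 * v) % 8 = 3 then 1 else -1 := by
    rw [ZMod.χ₈'_nat_eq_if_mod_eight, if_neg (by omega)]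
  have c2 : ZMod.χ₈' (u : ZMod 8) = if u % 8 = 1 ∨ u % 8 = 3 then 1 else -1 := by
    rw [ZMod.χ₈'_nat_eq_if_mod_eight, if_neg (by omega)]
  rw [c1] at hX
  rw [c2]
  obtain ⟨a, ha⟩ : ∃ a, a = u % 8 := ⟨_, rfl⟩
  obtain ⟨b, hb⟩ : ∃ b, b = v % 4 := ⟨_, rfl⟩
  have hb' : b = 1 ∨ b = 3 := by omega
  have ha' : a = 1 ∨ a = 3 ∨ a = 5 ∨ a = 7 := by omega
  have hn8 : (u + 2 * v) % 8 = (a + 2 * b) % 8 := by omega
  have hn4 : (u + 2 * v) % 4 = (a + 2 * b) % 4 := by omega
  rw [hn8, hn4, ← hb] at hX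
  rw [← ha]
  rcases hb' with rfl | rfl <;> rcases ha' with rfl | rfl | rfl | rfl <;> norm_num at hX ⊢ <;> omega

/-- the sign -/
theorem sign_eq {p : ℕ} [hpf : Fact p.Prime] (h : p % 24 = 19) (ε : ℤ) (hε : ε = 1 ∨ ε = -1)
    (hS : SR p z12 = ε * ((1 + Complex.I) * ((1 + s3) / 2))) (x y : ℕ)
    (hxy : p = (4 * x) ^ 2 + 3 * y ^ 2) : ε = (-1) ^ ((p - 19) / 24 + x) := by
  obtain ⟨ρ, hρ, he⟩ := sign_symbol h ε hε hS
  obtain ⟨u, v, huv⟩ := rep_six h ρ hρ
  have hv0 : 0 < v.natAbs := by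
    rw [Int.natAbs_pos]
    rintro rfl
    have hpp := hpf.out
    have h1 : (p : ℤ) = (u.natAbs : ℤ) ^ 2 := by
      rw [Int.natAbs_sq]; linarith
    have h2 : p = u.natAbs * u.natAbs := by
      have : p = u.natAbs ^ 2 := by exact_mod_cast h1
      rw [this]; ring
    rw [h2] at hpp
    have h3 : u.natAbs ≠ 1 := by
      intro h4
      rw [h4] at h2
      omega
    exact Nat.not_prime_mul h3 h3 hpp
  have huv' : (p : ℤ) = ((u.natAbs : ℕ) : ℤ) ^ 2 - 6 * ((v.natAbs : ℕ) : ℤ) ^ 2 := by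
    rw [Int.natAbs_sq, Int.natAbs_sq, huv]
  have h1 := symbol_uv h u.natAbs v.natAbs hv0 huv' ρ hρ
  have h2 := parity_x h x y u.natAbs v.natAbs hxy hv0 huv'
  rw [he, h1, h2, pow_add]
  ring

end Pool.Agent.V11306.SP
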