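import Pool.Agent.V11306.CnfA
import Pool.Agent.V11306.ToepP

/-! The residue of the Dedekind zeta function of the quadratic field ramified only at `p`. -/

set_option autoImplicit false

namespace Pool.Agent.V11306.CnfB

open NumberField H300.HW Polynomial
open Pool.Agent.Helper184.Chapman (chi chi_apply chi_sq chi_quad)
open Pool.Agent.V11306.Toep Pool.Agent.V11306.CnfA

variable {p : ℕ} [hp : Fact p.Prime]

/-- the quadratic character as a Dirichlet character -/
noncomputable abbrev qd (p : ℕ) [Fact p.Prime] : DirichletCharacter ℂ p := chi p ℂ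

lemma qd_ne (hp2 : p ≠ 2) : qd p ≠ 1 := chi_ne_one' hp2 two_ne_zero

/-- the only quadratic character -/
lemma eq_qd (hp2 : p ≠ 2) (χ : DirichletCharacter ℂ p) (h1 : χ ≠ 1) (h2 : χ ^ 2 = 1) :
    χ = qd p := by
  have hF : ringChar (ZMod p) ≠ 2 := by rw [ZMod.ringChar_zmod_n]; exact hp2
  have hsq : ∀ a : (ZMod p)ˣ, χ a = 1 ∨ χ a = -1 := by
    intro a
    have h3 : (χ ^ 2) a = 1 := by rw [h2, MulChar.one_apply a.isUnit]
    rw [MulChar.pow_apply' χ two_ne_zero] at h3
    have h4 : (χ a - 1) * (χ a + 1) = 0 := by linear_combination h3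
    rcases mul_eq_zero.mp h4 with h | h
    · left; linear_combination h
    · right; linear_combination h
  have hs : ∀ a : (ZMod p)ˣ, IsSquare (a : ZMod p) → χ a = 1 := by
    rintro a ⟨b, hb⟩
    have hb0 : b ≠ 0 := by
      rintro rfl
      rw [mul_zero] at hb
      exact a.ne_zero hb
    rw [hb, map_mul]
    rcases hsq (Units.mk0 b hb0) with h | h <;> rw [Units.val_mk0] at h <;> rw [h] <;> norm_num
  obtain ⟨c, hc⟩ : ∃ c : (ZMod p)ˣ, χ c ≠ 1 := by
    by_contra h
    push Not at h
    apply h1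
    ext a
    rw [h a, MulChar.one_apply a.isUnit]
  have hcn : quadraticChar (ZMod p) c = -1 := by
    rw [quadraticChar_neg_one_iff_not_isSquare]
    exact fun h => hc (hs c h)
  have hc1 : χ c = -1 := (hsq c).resolve_left hc
  ext a
  rcases quadraticChar_dichotomy (F := ZMod p) a.ne_zero with h | h
  · have h3 : IsSquare (a : ZMod p) := (quadraticChar_one_iff_isSquare a.ne_zero).mp h
    rw [hs a h3, chi_apply, h]; simp
  · have h4 : IsSquare ((a * c : (ZMod p)ˣ) : ZMod p) := by
      rw [← quadraticChar_one_iff_isSquare (Units.ne_zero _), Units.val_mul, map_mul, h, hcn]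
      norm_num
    have h5 := hs (a * c) h4
    rw [Units.val_mul, map_mul, hc1] at h5
    rw [chi_apply, h]
    push_cast
    linear_combination -h5

/-- the `L`-function of the primitive character -/
lemma Lp_qd (χ : DirichletCharacter ℂ p) (h1 : χ ≠ 1) (s : ℂ) :
    Lp p χ s = DirichletCharacter.LFunction χ s := by
  have hcond : χ.conductor = p := by
    have h2 := χ.conductor_dvd_level
    rcases (Nat.dvd_prime hp.out).mp h2 with h | h
    · exact absurd (χ.eq_one_iff_conductor_eq_one.mpr h) h1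
    · exact h
  have hprim : χ.primitiveCharacter ≠ 1 := by
    intro h
    apply h1
    have := χ.changeLevel_primitiveCharacter
    rw [h, DirichletCharacter.changeLevel_one] at this
    exact this.symm
  have h3 := DirichletCharacter.LFunction_changeLevel χ.conductor_dvd_level χ.primitiveCharacter
    (s := s) (Or.inl hprim)
  rw [χ.changeLevel_primitiveCharacter] at h3
  rw [h3, Lp, hp.out.primeFactors, Finset.prod_singleton]
  have h4 : χ.primitiveCharacter (p : ZMod χ.conductor) = 0 := by
    apply MulChar.map_nonunit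
    have h5 : ((p : ℕ) : ZMod χ.conductor) = 0 := by
      rw [ZMod.natCast_eq_zero_iff, hcond]
    rw [h5]
    have : Nontrivial (ZMod χ.conductor) := by
      rw [hcond]; infer_instance
    exact not_isUnit_zero
  rw [h4, zero_mul, sub_zero, mul_one]

/-- the residue for a quadratic subfield of the cyclotomic field -/
lemma residue_sub (hp2 : p ≠ 2) (L : Type) [Field L] [NumberField L] [IsCyclotomicExtension {p} ℚ L]
    (F : IntermediateField ℚ L) (hF : Module.finrank ℚ F = 2) :
    (dedekindZeta_residue F : ℂ) = DirichletCharacter.LFunction (qd p) 1 := by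
  classical
  have : IsGalois ℚ L := IsCyclotomicExtension.isGalois {p} ℚ L
  have hcard : Nat.card (YY p L F) = 2 := by
    rw [card_YY, ← IntermediateField.finrank_eq_fixingSubgroup_index, hF]
  have hcard' : Fintype.card (YY p L F) = 2 := by rw [← Nat.card_eq_fintype_card]; exact hcard
  rw [residue_eq p L F]
  have h1 : ((Finset.univ : Finset (YY p L F)).erase 1).card = 1 := by
    rw [Finset.card_erase_of_mem (Finset.mem_univ _), Finset.card_univ, hcard']
  obtain ⟨χ, hχ⟩ := Finset.card_eq_one.mp h1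
  rw [hχ, Finset.prod_singleton]
  have hmem : χ ∈ (Finset.univ : Finset (YY p L F)).erase 1 := by rw [hχ]; simp
  have hne : χ.1 ≠ 1 := fun h => (Finset.mem_erase.1 hmem).1 (Subtype.ext h)
  rw [Lp_qd χ.1 hne, eq_qd hp2 χ.1 hne]
  have h2 : χ ^ 2 = 1 := by
    rw [← hcard]; exact pow_card_eq_one'
  exact congrArg Subtype.val h2

lemma ep_cases (K : Type*) [Field K] : (ep p K = 1 ∧ ep p ℚ = 1) ∨ (ep p K = -1 ∧ ep p ℚ = -1) := by
  rw [ep, ep, chi_apply, chi_apply]
  rcases quadraticChar_dichotomy (F := ZMod p) (a := -1) (neg_ne_zero.mpr one_ne_zero) with h | h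
  · left; rw [h]; simp
  · right; rw [h]; simp

lemma not_sq (q : ℚ) : q ^ 2 ≠ ep p ℚ * p := by
  intro h
  rcases ep_cases (p := p) ℚ with ⟨-, h1⟩ | ⟨-, h1⟩
  · rw [h1, one_mul] at h
    have h2 : Irrational (Real.sqrt p) := hp.out.irrational_sqrt
    apply h2
    have hb' : (q : ℝ) ^ 2 = p := by exact_mod_cast h
    refine ⟨|q|, ?_⟩
    push_cast
    rw [← hb', Real.sqrt_sq_eq_abs]
  · rw [h1] at h
    have h2 : (0 : ℚ) < p := by exact_mod_cast hp.out.pos
    nlinarith [sq_nonneg q]

lemma adjoin_top (K : Type) [Field K] [NumberField K]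
    (h2 : Module.finrank ℚ K = 2) (α : K) (hα : α ^ 2 = algebraMap ℚ K (ep p ℚ * p)) :
    IntermediateField.adjoin ℚ {α} = ⊤ := by
  rw [Field.primitive_element_iff_minpoly_natDegree_eq, h2]
  have hle := minpoly.natDegree_le (A := ℚ) α
  rw [h2] at hle
  have hpos := minpoly.natDegree_pos (Algebra.IsIntegral.isIntegral (R := ℚ) α)
  have hne : (minpoly ℚ α).natDegree ≠ 1 := by
    rw [Ne, minpoly.natDegree_eq_one_iff]
    rintro ⟨q, hq⟩
    apply not_sq (p := p) q
    apply (algebraMap ℚ K).injective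
    rw [map_pow, hq, hα]
  omega

lemma residue_quad_aux (hp2 : p ≠ 2) (L : Type) [Field L] [NumberField L]
    [IsCyclotomicExtension {p} ℚ L] (K : Type) [Field K] [NumberField K]
    (h2 : Module.finrank ℚ K = 2) (α : K) (hα : α ^ 2 = algebraMap ℚ K (ep p ℚ * p)) :
    (dedekindZeta_residue K : ℂ) = DirichletCharacter.LFunction (qd p) 1 := by
  have hz := IsCyclotomicExtension.zeta_spec p ℚ L
  set ψ : AddChar (ZMod p) L := AddChar.zmodChar p ((IsPrimitiveRoot.iff_def _ p).mp hz).left with hψ
  have hprim : ψ.IsPrimitive := AddChar.zmodChar_primitive_of_primitive_root p hz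
  have hg := gs_sq hp2 (two_ne_zero : (2 : L) ≠ 0) hprim
  have hgg : gs ψ * gs ψ = algebraMap ℚ L (ep p ℚ * p) := by
    rw [hg, map_mul, map_natCast]
    rcases ep_cases (p := p) L with ⟨h3, h4⟩ | ⟨h3, h4⟩
    · rw [h3, h4]; simp
    · rw [h3, h4]; simp
  have hdvd : minpoly ℚ α ∣ X ^ 2 - C (ep p ℚ * p) := by
    apply minpoly.dvd
    rw [map_sub, map_pow, aeval_X, aeval_C, hα, sub_self]
  have hne : (X ^ 2 - C (ep p ℚ * p) : ℚ[X]) ≠ 0 := X_pow_sub_C_ne_zero (by norm_num) _
  have hsplit : ((minpoly ℚ α).map (algebraMap ℚ L)).Splits := by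
    have e : (X ^ 2 - C (ep p ℚ * p) : ℚ[X]).map (algebraMap ℚ L) =
        (X - C (gs ψ)) * (X - C (- gs ψ)) := by
      rw [Polynomial.map_sub, Polynomial.map_pow, map_X, map_C, ← hgg, C_neg, C_mul]
      ring
    have h3 : ((X ^ 2 - C (ep p ℚ * p) : ℚ[X]).map (algebraMap ℚ L)).Splits := by
      rw [e]
      exact (Splits.X_sub_C _).mul (Splits.X_sub_C _)
    exact h3.of_dvd (by rw [e]; exact mul_ne_zero (X_sub_C_ne_zero _) (X_sub_C_ne_zero _))
      (Polynomial.map_dvd _ hdvd)
  obtain ⟨i⟩ := IntermediateField.nonempty_algHom_of_adjoin_splits (F := ℚ) (E := K) (K := L)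
    (S := {α}) (by
      intro s hs
      rw [Set.mem_singleton_iff] at hs
      rw [hs]
      exact ⟨Algebra.IsIntegral.isIntegral α, hsplit⟩) (adjoin_top K h2 α hα)
  let e : K ≃ₐ[ℚ] i.fieldRange := AlgEquiv.ofInjectiveField i
  have hF : Module.finrank ℚ i.fieldRange = 2 := by
    rw [← h2]; exact (LinearEquiv.finrank_eq e.toLinearEquiv).symm
  rw [residue_congr e.toRingEquiv]
  exact residue_sub hp2 L i.fieldRange hF

/-- the residue for a quadratic field -/
theorem residue_quad (hp2 : p ≠ 2) (K : Type) [Field K] [NumberField K]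
    (h2 : Module.finrank ℚ K = 2) (α : K) (hα : α ^ 2 = algebraMap ℚ K (ep p ℚ * p)) :
    (dedekindZeta_residue K : ℂ) = DirichletCharacter.LFunction (qd p) 1 := by
  have hpq : NeZero ((p : ℕ) : ℚ) := ⟨by exact_mod_cast hp.out.ne_zero⟩
  have hcyc : IsCyclotomicExtension {p} ℚ (CyclotomicField p ℚ) :=
    CyclotomicField.isCyclotomicExtension p ℚ
  exact residue_quad_aux hp2 (CyclotomicField p ℚ) K h2 α hα

end Pool.Agent.V11306.CnfB
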