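import Pool.Agent.V11306.CnfC

/-! Invariants of the quadratic field ramified only at `p`. -/

set_option autoImplicit false

open Finset NumberField Polynomial

namespace Pool.Agent.V11306.CnfD

open Pool.Agent.Helper184.Chapman (chi chi_apply chi_sq chi_quad)
open Pool.Agent.V11306.Toep Pool.Agent.V11306.CnfA Pool.Agent.V11306.CnfB

section basis

variable {K : Type} [Field K] [NumberField K]

/-- integral basis `1, w` -/
theorem exists_basis (h2 : Module.finrank ℚ K = 2) :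
    ∃ (B : Module.Basis (Fin 2) ℤ (𝓞 K)), B 0 = 1 := by
  have hr : Module.finrank ℤ (𝓞 K) = 2 := by rw [NumberField.RingOfIntegers.rank, h2]
  let b := Module.finBasisOfFinrankEq ℤ (𝓞 K) hr
  obtain ⟨m, n, hmn⟩ : ∃ m n : ℤ, (1 : 𝓞 K) = m • b 0 + n • b 1 := ⟨b.repr 1 0, b.repr 1 1, by
    rw [← Fin.sum_univ_two (fun i => b.repr 1 i • b i)]; exact (b.sum_repr 1).symm⟩
  have hg : IsCoprime m n := by
    rw [Int.isCoprime_iff_gcd_eq_one]
    obtain ⟨m', hm'⟩ := Int.gcd_dvd_left (a := m) (b := n)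
    obtain ⟨n', hn'⟩ := Int.gcd_dvd_right (a := m) (b := n)
    set g : ℤ := (Int.gcd m n : ℤ) with hgdef
    have h1 : algebraMap ℤ (𝓞 K) g * (m' • b 0 + n' • b 1) = 1 := by
      rw [hmn]
      conv_rhs => rw [hm', hn']
      rw [mul_smul, mul_smul, ← smul_add, Algebra.smul_def g]
    have h3 : g ^ 2 * Algebra.norm ℤ (m' • b 0 + n' • b 1) = 1 := by
      have h := congrArg (Algebra.norm ℤ) h1
      rw [map_mul, Algebra.norm_algebraMap, hr] at h
      rw [h]
      exact map_one (Algebra.norm ℤ)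
    have h4 : IsUnit g := isUnit_of_dvd_one ⟨g * Algebra.norm ℤ (m' • b 0 + n' • b 1), by
      rw [← h3]; ring⟩
    rcases Int.isUnit_iff.1 h4 with h | h
    · rw [hgdef] at h
      exact_mod_cast h
    · omega
  obtain ⟨x, y, hxy⟩ := hg
  set w : 𝓞 K := (-y) • b 0 + x • b 1 with hw
  have hli : LinearIndependent ℤ ![(1 : 𝓞 K), w] := by
    rw [LinearIndependent.pair_iff]
    intro s t hst
    have hb := b.linearIndependent
    have h5 : (s * m - t * y) • b 0 + (s * n + t * x) • b 1 = 0 := by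
      rw [hmn, hw] at hst
      rw [← hst]
      module
    have h6 := Fintype.linearIndependent_iff.1 hb ![s * m - t * y, s * n + t * x] (by
      rw [Fin.sum_univ_two]; simpa using h5)
    have h7 := h6 0
    have h8 := h6 1
    simp only [Matrix.cons_val_zero, Matrix.cons_val_one] at h7 h8
    constructor
    · linear_combination x * h7 + y * h8 - s * hxy
    · linear_combination (-n) * h7 + m * h8 - t * hxy
  have hsp : ⊤ ≤ Submodule.span ℤ (Set.range ![(1 : 𝓞 K), w]) := by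
    intro z _
    have hz : z = (b.repr z 0) • b 0 + (b.repr z 1) • b 1 := by
      rw [← Fin.sum_univ_two (fun i => b.repr z i • b i)]; exact (b.sum_repr z).symm
    set s := b.repr z 0
    set t := b.repr z 1
    have hz2 : z = (s * x + t * y) • (1 : 𝓞 K) + (m * t - n * s) • w := by
      rw [hz, hmn, hw]
      have e1 : s = (s * x + t * y) * m + (m * t - n * s) * (-y) := by
        linear_combination -s * hxy
      have e2 : t = (s * x + t * y) * n + (m * t - n * s) * x := by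
        linear_combination -t * hxy
      conv_lhs => rw [e1, e2]
      module
    rw [hz2]
    refine Submodule.add_mem _ (Submodule.smul_mem _ _ (Submodule.subset_span ⟨0, rfl⟩))
      (Submodule.smul_mem _ _ (Submodule.subset_span ⟨1, rfl⟩))
  refine ⟨Module.Basis.mk hli hsp, ?_⟩
  rw [Module.Basis.mk_apply]
  rfl

theorem coords (B : Module.Basis (Fin 2) ℤ (𝓞 K)) (hB : B 0 = 1) (x : 𝓞 K) :
    x = (B.repr x 0 : 𝓞 K) + (B.repr x 1 : 𝓞 K) * B 1 := by
  conv_lhs => rw [← B.sum_repr x, Fin.sum_univ_two, hB]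
  rw [zsmul_one, zsmul_eq_mul]

theorem indep (B : Module.Basis (Fin 2) ℤ (𝓞 K)) (hB : B 0 = 1) (s t : ℤ)
    (h : (s : 𝓞 K) + (t : 𝓞 K) * B 1 = 0) : s = 0 ∧ t = 0 := by
  have h6 := Fintype.linearIndependent_iff.1 B.linearIndependent ![s, t] (by
    rw [Fin.sum_univ_two]
    simp only [Matrix.cons_val_zero, Matrix.cons_val_one]
    rw [hB, zsmul_one, zsmul_eq_mul, h])
  exact ⟨h6 0, h6 1⟩

theorem disc_eq (B : Module.Basis (Fin 2) ℤ (𝓞 K)) (hB : B 0 = 1) (a b : ℤ)
    (hww : B 1 * B 1 = (b : 𝓞 K) + (a : 𝓞 K) * B 1) : discr K = a ^ 2 + 4 * b := by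
  have hM : ∀ s t : ℤ, Algebra.leftMulMatrix B ((s : 𝓞 K) + (t : 𝓞 K) * B 1) =
      !![s, t * b; t, s + t * a] := by
    intro s t
    ext i j
    rw [Algebra.leftMulMatrix_eq_repr_mul]
    have e0 : ((s : 𝓞 K) + (t : 𝓞 K) * B 1) * B 0 = s • B 0 + t • B 1 := by
      rw [hB, zsmul_one, zsmul_eq_mul, mul_one]
    have e1 : ((s : 𝓞 K) + (t : 𝓞 K) * B 1) * B 1 = (t * b) • B 0 + (s + t * a) • B 1 := by
      rw [hB, zsmul_one, zsmul_eq_mul]
      push_cast
      linear_combination (t : 𝓞 K) * hww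
    fin_cases j
    · change B.repr (_ * B 0) i = _
      rw [e0, map_add, map_smul, map_smul, B.repr_self, B.repr_self]
      fin_cases i <;> simp
    · change B.repr (_ * B 1) i = _
      rw [e1, map_add, map_smul, map_smul, B.repr_self, B.repr_self]
      fin_cases i <;> simp
  have htr : ∀ s t : ℤ, Algebra.trace ℤ (𝓞 K) ((s : 𝓞 K) + (t : 𝓞 K) * B 1) = 2 * s + t * a := by
    intro s t
    rw [Algebra.trace_eq_matrix_trace B, hM, Matrix.trace_fin_two_of]
    ring
  rw [← NumberField.discr_eq_discr K B, Algebra.discr_def, Matrix.det_fin_two]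
  simp only [Algebra.traceMatrix_apply, Algebra.traceForm_apply]
  rw [hB, mul_one, mul_one, one_mul, hww, htr]
  have h1 := htr 1 0
  have h3 := htr 0 1
  simp only [Int.cast_one, Int.cast_zero, zero_mul, add_zero, mul_one, one_mul, zero_add,
    mul_zero] at h1 h3
  rw [h1, h3]
  ring

end basis

variable {p : ℕ} [hp : Fact p.Prime] {K : Type} [Field K] [NumberField K]

/-- the sign of `-1` -/
noncomputable def ez (p : ℕ) [Fact p.Prime] : ℤ := quadraticChar (ZMod p) (-1)

lemma ez_one (h1 : p % 4 = 1) : ez p = 1 := by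
  have hp2 : p ≠ 2 := by rintro rfl; omega
  rw [ez, quadraticChar_neg_one (by rw [ZMod.ringChar_zmod_n]; exact hp2), ZMod.card]
  exact ZMod.χ₄_nat_one_mod_four h1

lemma ez_three (h1 : p % 4 = 3) : ez p = -1 := by
  have hp2 : p ≠ 2 := by rintro rfl; omega
  rw [ez, quadraticChar_neg_one (by rw [ZMod.ringChar_zmod_n]; exact hp2), ZMod.card]
  exact ZMod.χ₄_nat_three_mod_four h1

lemma ep_eq (F : Type*) [Field F] : ep p F = (ez p : F) := by rw [ep, chi_apply, ez]

lemma alg_top (h2 : Module.finrank ℚ K = 2) (α : K)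
    (hα : α ^ 2 = algebraMap ℚ K (ep p ℚ * p)) : Algebra.adjoin ℚ {α} = ⊤ := by
  have h := adjoin_top K h2 α hα
  have h3 := IntermediateField.adjoin_simple_toSubalgebra_of_isAlgebraic
    (Algebra.IsAlgebraic.isAlgebraic (R := ℚ) α)
  rw [h] at h3
  rw [← h3]
  rfl

lemma hom_ext {Ω : Type*} [Field Ω] [CharZero Ω] (h2 : Module.finrank ℚ K = 2) (α : K)
    (hα : α ^ 2 = algebraMap ℚ K (ep p ℚ * p)) (f g : K →+* Ω) (h : f α = g α) : f = g := by
  have h1 : f.toRatAlgHom = g.toRatAlgHom := by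
    apply AlgHom.ext_of_adjoin_eq_top (alg_top h2 α hα)
    intro x hx
    rw [Set.mem_singleton_iff] at hx
    rw [hx]
    exact h
  ext x
  exact DFunLike.congr_fun h1 x

lemma ez_mod (hp2 : p ≠ 2) : ∃ k : ℤ, ez p * p = 4 * k + 1 := by
  have hodd := hp.out.eq_two_or_odd
  have : p % 4 = 1 ∨ p % 4 = 3 := by omega
  rcases this with h | h
  · rw [ez_one h]
    exact ⟨(p / 4 : ℕ), by push_cast; omega⟩
  · rw [ez_three h]
    exact ⟨-((p / 4 : ℕ) : ℤ) - 1, by push_cast; omega⟩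

theorem discr_quad (hp2 : p ≠ 2) (h2 : Module.finrank ℚ K = 2) (α : K)
    (hα : α ^ 2 = algebraMap ℚ K (ep p ℚ * p)) : discr K = ez p * p := by
  obtain ⟨k, hk⟩ := ez_mod (p := p) hp2
  have hα' : α ^ 2 = ((ez p * p : ℤ) : K) := by
    rw [hα, ep_eq]
    push_cast
    simp
  have hint : IsIntegral ℤ ((1 + α) / 2) := by
    refine ⟨X ^ 2 - X - C k, ?_, ?_⟩
    · monicity!
    · simp only [eval₂_sub, eval₂_pow, eval₂_X, eval₂_C]
      rw [hk] at hα'
      push_cast at hα'
      simp only [eq_intCast]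
      linear_combination (1 / 4 : K) * hα'
  obtain ⟨B, hB⟩ := exists_basis h2
  set ω : 𝓞 K := ⟨(1 + α) / 2, hint⟩ with hω
  have hωsq : (2 * ω - 1) ^ 2 = ((ez p * p : ℤ) : 𝓞 K) := by
    apply RingOfIntegers.ext
    push_cast
    simp only [map_ofNat, map_intCast]
    change (2 * ((1 + α) / 2) - 1) ^ 2 = _
    push_cast at hα'
    linear_combination hα'
  obtain ⟨s, t, hst⟩ : ∃ s t : ℤ, ω = (s : 𝓞 K) + (t : 𝓞 K) * B 1 := ⟨_, _, coords B hB ω⟩
  obtain ⟨b, a, hww⟩ : ∃ b a : ℤ, B 1 * B 1 = (b : 𝓞 K) + (a : 𝓞 K) * B 1 :=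
    ⟨_, _, coords B hB (B 1 * B 1)⟩
  have hd := disc_eq B hB a b hww
  have hrel : (((2 * s - 1) ^ 2 + (2 * t) ^ 2 * b - ez p * p : ℤ) : 𝓞 K) +
      ((2 * (2 * s - 1) * (2 * t) + (2 * t) ^ 2 * a : ℤ) : 𝓞 K) * B 1 = 0 := by
    rw [hst] at hωsq
    push_cast at hωsq ⊢
    linear_combination hωsq - (2 * (t : 𝓞 K)) ^ 2 * hww
  obtain ⟨r1, r2⟩ := indep B hB _ _ hrel
  have ht0 : t ≠ 0 := by
    intro h0
    rw [h0] at r1
    have h3 : (2 * s - 1) ^ 2 = ez p * p := by linear_combination r1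
    apply not_sq (p := p) (2 * s - 1)
    rw [ep_eq]
    exact_mod_cast h3
  have h4 : t * a = 1 - 2 * s := by
    have h5 : (4 * t) * (t * a - (1 - 2 * s)) = 0 := by linear_combination r2
    rcases mul_eq_zero.mp h5 with h | h
    · omega
    · omega
  have h6 : ez p * p = t ^ 2 * discr K := by
    rw [hd]
    linear_combination (-1 : ℤ) * r1 + (- t * a - (1 - 2 * s)) * h4
  have h7 : t.natAbs ^ 2 ∣ p := by
    have h8 : (t ^ 2).natAbs ∣ (ez p * p).natAbs := Int.natAbs_dvd_natAbs.mpr ⟨_, h6⟩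
    rw [Int.natAbs_mul, Int.natAbs_pow, Int.natAbs_natCast] at h8
    have h9 : (ez p).natAbs = 1 := by
      rcases quadraticChar_dichotomy (F := ZMod p) (a := -1) (neg_ne_zero.mpr one_ne_zero) with h | h
      · rw [ez, h]; rfl
      · rw [ez, h]; rfl
    rwa [h9, one_mul] at h8
  have h10 : t.natAbs = 1 := by
    have := (Nat.squarefree_iff_prime_squarefree.mp hp.out.squarefree)
    by_contra hne
    obtain ⟨q, hq, hqd⟩ := Nat.exists_prime_and_dvd hne
    apply this q hq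
    rw [← sq]
    exact (pow_dvd_pow_of_dvd hqd 2).trans h7
  have h11 : t ^ 2 = 1 := by
    rw [← Int.natAbs_sq, h10]; norm_num
  rw [h6, h11, one_mul]

end Pool.Agent.V11306.CnfD
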