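import Pool.Agent.V11306.CnfD

/-! The residue for the real quadratic field of a prime `p ≡ 1 (mod 4)`. -/

set_option autoImplicit false

open Finset NumberField NumberField.InfinitePlace NumberField.Units

namespace Pool.Agent.V11306.CnfE

open Pool.Agent.Helper184.Chapman (chi chi_apply chi_sq chi_quad)
open Pool.Agent.V11306.Toep Pool.Agent.V11306.CnfA Pool.Agent.V11306.CnfB
open Pool.Agent.V11306.CnfD

section torsion

variable {K : Type*} [Field K] [NumberField K]

lemma torsion_pm (σ : K →+* ℝ) (x : (𝓞 K)ˣ) (hx : x ∈ torsion K) : x = 1 ∨ x = -1 := by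
  rw [NumberField.Units.mem_torsion] at hx
  have h1 := hx (InfinitePlace.mk ((Complex.ofRealHom).comp σ))
  rw [InfinitePlace.apply] at h1
  simp only [RingHom.coe_comp, Function.comp_apply, Complex.ofRealHom_eq_coe,
    Complex.norm_real, Real.norm_eq_abs] at h1
  rcases eq_or_eq_neg_of_abs_eq h1 with h | h
  · left
    apply Units.ext
    apply RingOfIntegers.ext
    apply σ.injective
    simpa using h
  · right
    apply Units.ext
    apply RingOfIntegers.ext
    apply σ.injective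
    simpa using h

lemma torsionOrder_two (σ : K →+* ℝ) : torsionOrder K = 2 := by
  classical
  let := Fintype.ofFinite (torsion K)
  rw [torsionOrder, Nat.card_eq_fintype_card]
  refine (Finset.card_eq_two.2 ⟨1, ⟨-1, neg_one_mem_torsion⟩,
    by simp [← Subtype.coe_ne_coe], Finset.ext fun x ↦ ⟨fun _ ↦ ?_, fun _ ↦ Finset.mem_univ _⟩⟩)
  rw [Finset.mem_insert, Finset.mem_singleton, ← Subtype.val_inj, ← Subtype.val_inj]
  exact torsion_pm σ x.1 x.2

end torsion

variable {p : ℕ} [hp : Fact p.Prime] {K : Type} [Field K] [NumberField K]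

lemma totally_real (h1 : p % 4 = 1) (h2 : Module.finrank ℚ K = 2) (α : K) (hα : α ^ 2 = (p : K)) :
    IsTotallyReal K := by
  have hα' : α ^ 2 = algebraMap ℚ K (ep p ℚ * p) := by
    rw [hα, ep_eq, ez_one h1]; simp
  refine ⟨fun v => ?_⟩
  rw [InfinitePlace.isReal_iff, ComplexEmbedding.isReal_iff]
  apply hom_ext h2 α hα'
  rw [ComplexEmbedding.conjugate_coe_eq]
  have h3 : (v.embedding α) ^ 2 = (p : ℂ) := by rw [← map_pow, hα, map_natCast]
  have h4 : (((Real.sqrt p : ℝ)) : ℂ) ^ 2 = (p : ℂ) := by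
    rw [← Complex.ofReal_pow, Real.sq_sqrt (Nat.cast_nonneg p)]; simp
  have h5 : (v.embedding α - (Real.sqrt p : ℝ)) * (v.embedding α + (Real.sqrt p : ℝ)) = 0 := by
    linear_combination h3 - h4
  rcases mul_eq_zero.mp h5 with h | h
  · have : v.embedding α = ((Real.sqrt p : ℝ) : ℂ) := by linear_combination h
    rw [this, Complex.conj_ofReal]
  · have : v.embedding α = ((-Real.sqrt p : ℝ) : ℂ) := by push_cast; linear_combination h
    rw [this, Complex.conj_ofReal]

lemma regulator_real (h1 : p % 4 = 1) (h2 : Module.finrank ℚ K = 2) (α : K)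
    (hα : α ^ 2 = (p : K)) (σ : K →+* ℝ) (ε : (𝓞 K)ˣ) (hε : 1 < σ ((ε : 𝓞 K) : K))
    (hfund : ∀ u : (𝓞 K)ˣ, ∃ n : ℤ, u = ε ^ n ∨ u = -ε ^ n) :
    regulator K = Real.log (σ ((ε : 𝓞 K) : K)) := by
  classical
  have := totally_real h1 h2 α hα
  have hc0 : nrComplexPlaces K = 0 := IsTotallyReal.nrComplexPlaces_eq_zero K
  have hr := InfinitePlace.card_add_two_mul_card_eq_rank K
  rw [hc0, h2] at hr
  have hcard : Fintype.card (InfinitePlace K) = 2 := by
    rw [InfinitePlace.card_eq_nrRealPlaces_add_nrComplexPlaces, hc0]; omega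
  have hrank : rank K = 1 := by rw [rank, hcard]
  set w₀ : InfinitePlace K := InfinitePlace.mk ((Complex.ofRealHom).comp σ) with hw₀
  obtain ⟨w', hw'⟩ := Fintype.exists_ne_of_one_lt_card (by rw [hcard]; norm_num) w₀
  have hc : Fintype.card {w : InfinitePlace K // w ≠ w'} = 1 := by
    rw [Fintype.card_subtype_compl, hcard, Fintype.card_subtype_eq]
  have e : {w : InfinitePlace K // w ≠ w'} ≃ Fin (rank K) :=
    Fintype.equivOfCardEq (by rw [hc, Fintype.card_fin, hrank])
  have h3 := regOfFamily_div_regulator (K := K) (fun _ => ε)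
  have htop : Subgroup.closure (Set.range (fun _ : Fin (rank K) => ε)) ⊔ torsion K = ⊤ := by
    rw [eq_top_iff]
    intro u _
    obtain ⟨n, hn⟩ := hfund u
    have hmem : ε ∈ Subgroup.closure (Set.range (fun _ : Fin (rank K) => ε)) :=
      Subgroup.subset_closure ⟨⟨0, by omega⟩, rfl⟩
    have h4 : ε ^ n ∈ Subgroup.closure (Set.range (fun _ : Fin (rank K) => ε)) ⊔ torsion K :=
      Subgroup.mem_sup_left (Subgroup.zpow_mem _ hmem n)
    rcases hn with h | h
    · rw [h]; exact h4
    · have h5 : (-1 : (𝓞 K)ˣ) ∈ Subgroup.closure (Set.range (fun _ : Fin (rank K) => ε)) ⊔ torsion K :=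
        Subgroup.mem_sup_right neg_one_mem_torsion
      have h6 := Subgroup.mul_mem _ h5 h4
      rwa [neg_one_mul, ← h] at h6
  rw [htop, Subgroup.index_top, Nat.cast_one] at h3
  have hreg0 := regulator_ne_zero K
  have h7 : regulator K = regOfFamily (fun _ : Fin (rank K) => ε) := by
    field_simp at h3
    exact h3.symm
  rw [h7, regOfFamily_eq_det _ w' e]
  obtain ⟨inst⟩ := Fintype.card_eq_one_iff_nonempty_unique.mp hc
  rw [Matrix.det_unique, Matrix.of_apply]
  have h8 : (default : {w : InfinitePlace K // w ≠ w'}) = ⟨w₀, hw'.symm⟩ :=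
    (Unique.eq_default _).symm
  rw [h8]
  have h9 : w₀ ((ε : 𝓞 K) : K) = σ ((ε : 𝓞 K) : K) := by
    rw [hw₀, InfinitePlace.apply]
    simp only [RingHom.coe_comp, Function.comp_apply, Complex.ofRealHom_eq_coe,
      Complex.norm_real, Real.norm_eq_abs]
    exact abs_of_pos (by linarith)
  rw [IsTotallyReal.mult_eq, h9, Nat.cast_one, one_mul]
  exact abs_of_pos (Real.log_pos hε)

theorem residue_real (h1 : p % 4 = 1) (h2 : Module.finrank ℚ K = 2) (α : K)
    (hα : α ^ 2 = (p : K)) (σ : K →+* ℝ) (ε : (𝓞 K)ˣ) (hε : 1 < σ ((ε : 𝓞 K) : K))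
    (hfund : ∀ u : (𝓞 K)ˣ, ∃ n : ℤ, u = ε ^ n ∨ u = -ε ^ n) :
    dedekindZeta_residue K * Real.sqrt p =
      2 * classNumber K * Real.log (σ ((ε : 𝓞 K) : K)) := by
  have hp2 : p ≠ 2 := by rintro rfl; omega
  have hα' : α ^ 2 = algebraMap ℚ K (ep p ℚ * p) := by
    rw [hα, ep_eq, ez_one h1]; simp
  have htr := totally_real h1 h2 α hα
  have hc0 : nrComplexPlaces K = 0 := IsTotallyReal.nrComplexPlaces_eq_zero K
  have hr := InfinitePlace.card_add_two_mul_card_eq_rank K
  rw [hc0, h2] at hr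
  have hr2 : nrRealPlaces K = 2 := by omega
  rw [dedekindZeta_residue_def, hc0, hr2, torsionOrder_two σ, regulator_real h1 h2 α hα σ ε hε hfund,
    discr_quad hp2 h2 α hα', ez_one h1]
  have hs : Real.sqrt (p : ℝ) ≠ 0 := by
    rw [Real.sqrt_ne_zero']; exact_mod_cast hp.out.pos
  have hs2 : |(((1 : ℤ) * (p : ℤ) : ℤ) : ℝ)| = (p : ℝ) := by
    rw [one_mul, Int.cast_natCast]; exact abs_of_nonneg (Nat.cast_nonneg p)
  rw [pow_zero]
  push_cast at hs2 ⊢
  rw [hs2]
  field_simp

end Pool.Agent.V11306.CnfE
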